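import Pool.Agent.MP_369096_an.H89.Defs

/-!
TASK BasA. Elementary algebra of the sup norm on `ℝ × ℝ`, linear recurrences, admissible maps,
orbits. Everything is routine; put auxiliary lemmas in namespace `H89.BasA`.
Hints: `Prod.norm_def`, `norm_fst_le`, `norm_snd_le`, `Real.norm_eq_abs`; two-sided recursion on `ℤ`
can be done by iterating the bijection `(i, w) ↦ (i+1, TL (h i) w)` of `ℤ × E` (an `Equiv.Perm`, take
`zpow`), or by `Int.rec` with two `ℕ`-recursions. `T F` is a bijection (IVT in the second variable: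
`y ↦ F (x, y)` is continuous, strictly decreasing with slopes in `[-2,-1/2]`), so orbits are
`i ↦ ((T F as Equiv.Perm) ^ (i - i0) z).1`.
-/

set_option autoImplicit false

open Set Filter Topology

namespace Pool.Agent.MP_369096_an.H89

namespace BasA

theorem nrm (v : E) : ‖v‖ = max |v.1| |v.2| := by
  rw [Prod.norm_def, Real.norm_eq_abs, Real.norm_eq_abs]

theorem f_le (v : E) : |v.1| ≤ ‖v‖ := by rw [nrm]; exact le_max_left _ _

theorem s_le (v : E) : |v.2| ≤ ‖v‖ := by rw [nrm]; exact le_max_right _ _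

theorem nrm_le {v : E} {c : ℝ} (h1 : |v.1| ≤ c) (h2 : |v.2| ≤ c) : ‖v‖ ≤ c := by
  rw [nrm]; exact max_le h1 h2

theorem biseq {α : Type} (Φ : ℤ → α → α) (hs : ∀ i, Function.Surjective (Φ i)) (i0 : ℤ) (d : α) :
    ∃ p : ℤ → α, p i0 = d ∧ ∀ i, p (i + 1) = Φ i (p i) := by
  choose Ψ hΨ using hs
  refine ⟨fun z => Int.inductionOn' (motive := fun _ => α) z i0 d (fun k _ a => Φ k a)
    (fun k _ a => Ψ (k - 1) a), Int.inductionOn'_self, fun i => ?_⟩
  rcases le_or_gt i0 i with h | h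
  · exact Int.inductionOn'_add_one h
  · have h1 : i + 1 ≤ i0 := h
    have := Int.inductionOn'_sub_one (motive := fun _ => α) (zero := d)
      (succ := fun k _ a => Φ k a) (pred := fun k _ a => Ψ (k - 1) a) h1
    rw [add_sub_cancel_right] at this
    simp only [this, hΨ]

theorem biseq_pt (G : ℤ → E → ℝ) (hs : ∀ i, Function.Surjective fun z : E => (G i z, z.1))
    (i0 : ℤ) (d : E) : ∃ x : ℤ → ℝ, (∀ i, x (i + 1) = G i (pt x i)) ∧ pt x i0 = d := by
  obtain ⟨p, h0, hp⟩ := biseq (fun i (z : E) => (G i z, z.1)) hs i0 d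
  have hpt : ∀ i, pt (fun j => (p j).1) i = p i := by
    intro i
    have := hp (i - 1)
    rw [sub_add_cancel] at this
    refine Prod.ext rfl ?_
    simp only [pt]
    rw [this]
  exact ⟨fun j => (p j).1, fun i => by rw [hpt]; show (p (i + 1)).1 = _; rw [hp], by rw [hpt, h0]⟩

/-- two-sided induction on a window -/
theorem win_ind {s t i : ℤ} (P : ℤ → Prop) (hi : s ≤ i) (hi' : i ≤ t) (h0 : P i)
    (hup : ∀ j, i ≤ j → j < t → P j → P (j + 1)) (hdn : ∀ j, j ≤ i → s < j → P j → P (j - 1))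
    {j : ℤ} (hj : s ≤ j) (hj' : j ≤ t) : P j := by
  have : s ≤ j → j ≤ t → P j := by
    refine Int.inductionOn' (motive := fun j => s ≤ j → j ≤ t → P j) j i (fun _ _ => h0) ?_ ?_
    · intro k hk ih h1 h2
      exact hup k hk (by omega) (ih (by omega) (by omega))
    · intro k hk ih h1 h2
      exact hdn k hk (by omega) (ih (by omega) (by omega))
  exact this hj hj'

theorem TL_inj {h : E} (hb : h.2 ≠ 0) {u v : E} (he : TL h u = TL h v) : u = v := by
  simp only [TL, lin, Prod.mk.injEq] at he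
  obtain ⟨h1, h2⟩ := he
  refine Prod.ext h2 (mul_left_cancel₀ hb ?_)
  rw [h2] at h1; linarith

theorem iv_add (m m' : ℤ × ℤ) : iv (m + m') = iv m + iv m' := by
  simp [iv]

theorem lipy {F : E → ℝ} {L κ : ℝ} (h : Adm F L κ) (x y y' : ℝ) (hκ : 0 < κ) :
    |F (x, y) - F (x, y')| ≤ κ * |y - y'| ∧ |y - y'| ≤ κ * |F (x, y) - F (x, y')| := by
  wlog hy : y ≤ y' generalizing y y'
  · have := this y' y (le_of_not_ge hy)
    rwa [abs_sub_comm (F (x, y')), abs_sub_comm y'] at this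
  have h1 := h.lo x y y' hy
  have h2 := h.hi x y y' hy
  have h3 : 0 ≤ F (x, y) - F (x, y') := by
    by_contra hc
    have := mul_neg_of_pos_of_neg hκ (not_le.mp hc)
    linarith
  rw [abs_of_nonneg h3, abs_sub_comm y, abs_of_nonneg (sub_nonneg.mpr hy)]
  exact ⟨h2, h1⟩

end BasA

open BasA

theorem abs_dt_le (u v : E) : |dt u v| ≤ 2 * ‖u‖ * ‖v‖ := by
  have h1 := mul_le_mul (f_le u) (s_le v) (abs_nonneg _) (norm_nonneg _)
  have h2 := mul_le_mul (s_le u) (f_le v) (abs_nonneg _) (norm_nonneg _)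
  have h3 := abs_sub (u.1 * v.2) (u.2 * v.1)
  rw [abs_mul, abs_mul] at h3
  unfold dt
  linarith

theorem dt_id (s s' v : E) : dt s s' • v = dt v s' • s + dt s v • s' := by
  ext <;> simp [dt] <;> ring

theorem dt_TL (h u v : E) : dt (TL h u) (TL h v) = -h.2 * dt u v := by
  simp only [dt, TL, lin]; ring

theorem TL_add (h u v : E) : TL h (u + v) = TL h u + TL h v := by
  ext <;> simp [TL, lin]; ring

theorem TL_smul (h : E) (c : ℝ) (v : E) : TL h (c • v) = c • TL h v := by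
  ext <;> simp [TL, lin]; ring

theorem pt_succ {h : E} {v : ℤ → ℝ} {i : ℤ} (hv : v (i + 1) = lin h (pt v i)) :
    pt v (i + 1) = TL h (pt v i) := by
  refine Prod.ext hv ?_
  simp [pt, TL]

theorem norm_TL_le {L : ℝ} {h : E} (h1 : |h.1| ≤ L) (h2 : -2 ≤ h.2) (h3 : h.2 ≤ -1 / 2) (v : E) :
    ‖TL h v‖ ≤ (2 * L + 2) * ‖v‖ := by
  have hL : 0 ≤ L := (abs_nonneg _).trans h1
  have hv := norm_nonneg v
  have a1 := mul_le_mul h1 (f_le v) (abs_nonneg _) hL
  have a2 : |h.2| ≤ 2 := abs_le.mpr ⟨h2, by linarith⟩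
  have a3 := mul_le_mul a2 (s_le v) (abs_nonneg _) zero_le_two
  have a4 := abs_add_le (h.1 * v.1) (h.2 * v.2)
  rw [abs_mul, abs_mul] at a4
  have a5 := mul_nonneg hL hv
  refine nrm_le ?_ ?_
  · simp only [TL, lin]; linarith
  · simp only [TL]; have := f_le v; linarith

theorem norm_le_TL {L : ℝ} {h : E} (h1 : |h.1| ≤ L) (h2 : -2 ≤ h.2) (h3 : h.2 ≤ -1 / 2) (v : E) :
    ‖v‖ ≤ (2 * L + 2) * ‖TL h v‖ := by
  have hL : 0 ≤ L := (abs_nonneg _).trans h1
  have hv := norm_nonneg (TL h v)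
  have b1 : |v.1| ≤ ‖TL h v‖ := s_le (TL h v)
  have b2 : |h.1 * v.1 + h.2 * v.2| ≤ ‖TL h v‖ := f_le (TL h v)
  have a1 := mul_le_mul h1 b1 (abs_nonneg _) hL
  have a2 : 1 / 2 ≤ |h.2| := by rw [abs_of_nonpos (by linarith)]; linarith
  have a3 := mul_le_mul_of_nonneg_right a2 (abs_nonneg v.2)
  have a4 := abs_sub (h.1 * v.1 + h.2 * v.2) (h.1 * v.1)
  rw [add_sub_cancel_left, abs_mul, abs_mul] at a4
  have a5 := mul_nonneg hL hv
  exact nrm_le (by linarith) (by linarith)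

theorem SolOn.norm_le {L : ℝ} {h : ℤ → E} (hb : Bd L h) {v : ℤ → ℝ} {s t : ℤ}
    (hv : SolOn h v s t) {i j : ℤ} (hi : s ≤ i) (hi' : i ≤ t) (hj : s ≤ j) (hj' : j ≤ t) :
    ‖pt v j‖ ≤ (2 * L + 2) ^ (j - i).natAbs * ‖pt v i‖ := by
  have hL : 0 ≤ L := (abs_nonneg _).trans (hb 0).1
  have hA : 0 ≤ 2 * L + 2 := by linarith
  refine win_ind (fun j => ‖pt v j‖ ≤ (2 * L + 2) ^ (j - i).natAbs * ‖pt v i‖) hi hi' (by simp)
    ?_ ?_ hj hj'
  · intro k hk hkt ih
    have e : (k + 1 - i).natAbs = (k - i).natAbs + 1 := by omega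
    rw [e, pt_succ (hv k (by omega) hkt), pow_succ', mul_assoc]
    exact (norm_TL_le (hb k).1 (hb k).2.1 (hb k).2.2 _).trans (mul_le_mul_of_nonneg_left ih hA)
  · intro k hk hks ih
    have e : (k - 1 - i).natAbs = (k - i).natAbs + 1 := by omega
    have e2 := pt_succ (hv (k - 1) (by omega) (by omega))
    rw [sub_add_cancel] at e2
    rw [e, pow_succ', mul_assoc]
    refine (norm_le_TL (hb (k - 1)).1 (hb (k - 1)).2.1 (hb (k - 1)).2.2 _).trans ?_
    rw [← e2]
    exact mul_le_mul_of_nonneg_left ih hA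

theorem Sol.solOn {h : ℤ → E} {v : ℤ → ℝ} (hv : Sol h v) (s t : ℤ) : SolOn h v s t :=
  fun i _ _ => hv i

theorem exists_sol {h : ℤ → E} (hb : ∀ i, (h i).2 ≠ 0) (i0 : ℤ) (d : E) :
    ∃ v, Sol h v ∧ pt v i0 = d := by
  refine biseq_pt (fun i z => lin (h i) z) (fun i w => ⟨(w.2, (w.1 - (h i).1 * w.2) / (h i).2), ?_⟩)
    i0 d
  refine Prod.ext ?_ rfl
  simp only [lin]
  have := hb i
  field_simp
  ring

/-- Two solutions on a window that agree at one time agree on the window. -/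
theorem SolOn.unique {h : ℤ → E} (hb : ∀ i, (h i).2 ≠ 0) {v w : ℤ → ℝ} {s t : ℤ}
    (hv : SolOn h v s t) (hw : SolOn h w s t) {i : ℤ} (hi : s ≤ i) (hi' : i ≤ t)
    (he : pt v i = pt w i) {j : ℤ} (hj : s ≤ j) (hj' : j ≤ t) : pt v j = pt w j := by
  refine win_ind (fun j => pt v j = pt w j) hi hi' he ?_ ?_ hj hj'
  · intro k hk hkt ih
    rw [pt_succ (hv k (by omega) hkt), pt_succ (hw k (by omega) hkt), ih]
  · intro k hk hks ih
    have e1 := pt_succ (hv (k - 1) (by omega) (by omega))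
    have e2 := pt_succ (hw (k - 1) (by omega) (by omega))
    rw [sub_add_cancel] at e1 e2
    exact TL_inj (hb (k - 1)) (by rw [← e1, ← e2, ih])

/-- Two unit vectors with a small determinant are close up to sign. -/
theorem close_of_dt {a b : E} (ha : ‖a‖ = 1) (hb : ‖b‖ = 1) {η : ℝ} (h : |dt a b| ≤ η) :
    ‖b - a‖ ≤ 2 * η ∨ ‖b + a‖ ≤ 2 * η := by
  have key : ∀ a b : E, |a.1| = 1 → |a.2| ≤ 1 → max |b.1| |b.2| = 1 → |a.1 * b.2 - a.2 * b.1| ≤ η →
      (|b.1 - a.1| ≤ 2 * η ∧ |b.2 - a.2| ≤ 2 * η) ∨ (|b.1 + a.1| ≤ 2 * η ∧ |b.2 + a.2| ≤ 2 * η) := by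
    intro a b h1 h2 h3 h4
    have b1 : |b.1| ≤ 1 := h3 ▸ le_max_left _ _
    have hη : 0 ≤ η := (abs_nonneg _).trans h4
    -- `κ = b.1 * a.1`
    have hsq : a.1 * a.1 = 1 := by rw [← abs_mul_abs_self, h1, one_mul]
    have e1 : |b.2 - b.1 * a.1 * a.2| ≤ η := by
      have : b.2 - b.1 * a.1 * a.2 = a.1 * (a.1 * b.2 - a.2 * b.1) := by
        linear_combination (-b.2) * hsq
      rw [this, abs_mul, h1, one_mul]; exact h4
    have e2 : 1 - η ≤ |b.1| := by
      rcases le_total |b.2| |b.1| with h5 | h5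
      · rw [max_eq_left h5] at h3; linarith
      · rw [max_eq_right h5] at h3
        have h6 := abs_add_le (b.2 - b.1 * a.1 * a.2) (b.1 * a.1 * a.2)
        rw [sub_add_cancel, abs_mul, abs_mul, h1, mul_one] at h6
        nlinarith [abs_nonneg b.1]
    have e3 : |b.1 * a.1| = |b.1| := by rw [abs_mul, h1, mul_one]
    rcases le_total 0 (b.1 * a.1) with hk | hk
    · left
      rw [abs_of_nonneg hk] at e3
      have e4 : |b.1 * a.1 - 1| ≤ η := by rw [abs_le]; constructor <;> linarith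
      constructor
      · have : b.1 - a.1 = (b.1 * a.1 - 1) * a.1 := by linear_combination (-b.1) * hsq
        rw [this, abs_mul, h1]; linarith
      · have h6 := abs_add_le (b.2 - b.1 * a.1 * a.2) ((b.1 * a.1 - 1) * a.2)
        have : b.2 - b.1 * a.1 * a.2 + (b.1 * a.1 - 1) * a.2 = b.2 - a.2 := by ring
        rw [this, abs_mul] at h6
        nlinarith [abs_nonneg (b.1 * a.1 - 1)]
    · right
      rw [abs_of_nonpos hk] at e3
      have e4 : |b.1 * a.1 + 1| ≤ η := by rw [abs_le]; constructor <;> linarith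
      constructor
      · have : b.1 + a.1 = (b.1 * a.1 + 1) * a.1 := by linear_combination (-b.1) * hsq
        rw [this, abs_mul, h1]; linarith
      · have h6 := abs_add_le (b.2 - b.1 * a.1 * a.2) ((b.1 * a.1 + 1) * a.2)
        have : b.2 - b.1 * a.1 * a.2 + (b.1 * a.1 + 1) * a.2 = b.2 + a.2 := by ring
        rw [this, abs_mul] at h6
        nlinarith [abs_nonneg (b.1 * a.1 + 1)]
  rw [nrm] at ha hb
  rcases le_total |a.2| |a.1| with h5 | h5
  · rw [max_eq_left h5] at ha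
    rcases key a b ha (ha ▸ h5) hb h with h6 | h6
    · exact Or.inl (nrm_le h6.1 h6.2)
    · exact Or.inr (nrm_le h6.1 h6.2)
  · rw [max_eq_right h5] at ha
    have h7 : |a.2 * b.1 - a.1 * b.2| ≤ η := by rw [abs_sub_comm]; exact h
    rcases key a.swap b.swap ha (ha ▸ h5) (by rw [max_comm]; exact hb) h7 with h6 | h6
    · exact Or.inl (nrm_le h6.2 h6.1)
    · exact Or.inr (nrm_le h6.2 h6.1)

/-- Decomposition of `v` along `s`. Hint: use the coordinate where `‖s‖` is attained. -/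
theorem exists_decomp (s v : E) (hs : s ≠ 0) :
    ∃ κ : ℝ, ‖κ • s‖ ≤ ‖v‖ ∧ ‖v - κ • s‖ * ‖s‖ = |dt v s| := by
  have hs' : 0 < ‖s‖ := norm_pos_iff.mpr hs
  rcases le_total |s.2| |s.1| with h | h
  · have e : ‖s‖ = |s.1| := by rw [nrm, max_eq_left h]
    have h1 : s.1 ≠ 0 := by rw [e] at hs'; exact abs_pos.mp hs'
    refine ⟨v.1 / s.1, ?_, ?_⟩
    · rw [norm_smul, e, Real.norm_eq_abs, ← abs_mul, div_mul_cancel₀ _ h1]; exact f_le v
    · have e2 : v - (v.1 / s.1) • s = (0, -dt v s / s.1) := by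
        ext <;> simp [dt] <;> field_simp <;> ring
      rw [e2, nrm, e]
      simp only [abs_zero]
      rw [max_eq_right (abs_nonneg _), ← abs_mul, div_mul_cancel₀ _ h1, abs_neg]
  · have e : ‖s‖ = |s.2| := by rw [nrm, max_eq_right h]
    have h1 : s.2 ≠ 0 := by rw [e] at hs'; exact abs_pos.mp hs'
    refine ⟨v.2 / s.2, ?_, ?_⟩
    · rw [norm_smul, e, Real.norm_eq_abs, ← abs_mul, div_mul_cancel₀ _ h1]; exact s_le v
    · have e2 : v - (v.2 / s.2) • s = (dt v s / s.2, 0) := by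
        ext <;> simp [dt] <;> field_simp <;> ring
      rw [e2, nrm, e]
      simp only [abs_zero]
      rw [max_eq_left (abs_nonneg _), ← abs_mul, div_mul_cancel₀ _ h1]

theorem Bd.mix {L p : ℝ} (hp : 0 ≤ p) (hp1 : p ≤ 1) {h0 h1 h2 : ℤ → E} (b0 : Bd L h0)
    (b1 : Bd L h1) (b2 : Bd L h2) : Bd L fun i => mix p (h0 i) (h1 i) (h2 i) := by
  intro i
  obtain ⟨a0, a1, a2⟩ := b0 i
  obtain ⟨c0, c1, c2⟩ := b1 i
  obtain ⟨d0, d1, d2⟩ := b2 i
  rw [abs_le] at a0 c0 d0
  have hq : 0 ≤ 1 - p := by linarith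
  simp only [H89.mix, Prod.fst_add, Prod.snd_add, Prod.smul_fst, Prod.smul_snd, smul_eq_mul, abs_le]
  refine ⟨⟨?_, ?_⟩, ?_, ?_⟩ <;> nlinarith [a0.1, a0.2, c0.1, c0.2, d0.1, d0.2]

theorem mix_same (p : ℝ) (h : E) : mix p h h h = h := by
  ext <;> simp [mix] <;> ring

section Adm

variable {F : E → ℝ} {L : ℝ}

theorem Adm.mono {κ L' κ' : ℝ} (h : Adm F L κ) (hL : L ≤ L') (hκ : κ ≤ κ') : Adm F L' κ' := by
  have hk : 0 < κ := by
    have h1 := h.eqv (0, 0) (0, 1)
    have h2 := h.lo 0 0 1 zero_le_one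
    simp [iv] at h1 h2
    rw [h1] at h2
    linarith
  refine ⟨h.eqv, fun x x' y => (h.lipx x x' y).trans (by gcongr), fun x y y' hy => ?_,
    fun x y y' hy => (h.hi x y y' hy).trans (mul_le_mul_of_nonneg_right hκ (sub_nonneg.mpr hy))⟩
  have h1 := h.lo x y y' hy
  have h3 : 0 ≤ F (x, y) - F (x, y') := by
    by_contra hc
    have := mul_neg_of_pos_of_neg hk (not_le.mp hc)
    linarith
  exact h1.trans (mul_le_mul_of_nonneg_right hκ h3)

theorem Adm.le_L {κ : ℝ} (h : Adm F L κ) : 22 ≤ L := by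
  have h1 := h.eqv (0, 0) (1, 0)
  have h2 := h.lipx 1 0 0
  simp [iv] at h1 h2
  rw [h1] at h2
  simpa using h2

theorem Adm.one_le {κ : ℝ} (h : Adm F L κ) : 1 ≤ κ := by
  have h1 := h.eqv (0, 0) (0, 1)
  have h2 := h.lo 0 0 1 zero_le_one
  simp [iv] at h1 h2
  rw [h1] at h2
  linarith

theorem Adm.lip (h : Adm F L 2) (p q : E) : |F p - F q| ≤ (L + 2) * ‖p - q‖ := by
  have h1 := h.lipx p.1 q.1 p.2
  have h2 := (lipy h q.1 p.2 q.2 two_pos).1
  have h3 := abs_sub_le (F p) (F (q.1, p.2)) (F q)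
  have h4 : |p.1 - q.1| ≤ ‖p - q‖ := f_le (p - q)
  have h5 : |p.2 - q.2| ≤ ‖p - q‖ := s_le (p - q)
  have h6 := mul_le_mul_of_nonneg_left h4 (show 0 ≤ L by linarith [h.le_L])
  simp only [Prod.mk.eta] at h1 h2
  linarith

theorem Adm.cont (h : Adm F L 2) : Continuous F := by
  have hL : 0 ≤ L + 2 := by linarith [h.le_L]
  refine (LipschitzWith.of_dist_le_mul (K := ⟨L + 2, hL⟩) fun p q => ?_).continuous
  rw [Real.dist_eq, dist_eq_norm]
  exact h.lip p q

theorem Adm.contT (h : Adm F L 2) : Continuous (T F) := h.cont.prodMk continuous_fst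

theorem Adm.lipT (h : Adm F L 2) (p q : E) : ‖T F p - T F q‖ ≤ (2 * L + 2) * ‖p - q‖ := by
  have h1 := h.lip p q
  have h4 : |p.1 - q.1| ≤ ‖p - q‖ := f_le (p - q)
  have h5 := mul_nonneg (show 0 ≤ L by linarith [h.le_L]) (norm_nonneg (p - q))
  have h6 := norm_nonneg (p - q)
  refine nrm_le ?_ ?_
  · change |F p - F q| ≤ _
    linarith
  · change |p.1 - q.1| ≤ _
    linarith

theorem Adm.lipT' (h : Adm F L 2) (p q : E) : ‖p - q‖ ≤ (2 * L + 2) * ‖T F p - T F q‖ := by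
  have h1 := h.lipx p.1 q.1 p.2
  have h2 := (lipy h q.1 p.2 q.2 two_pos).2
  have h3 := abs_sub_le (F (q.1, p.2)) (F p) (F q)
  have h4 : |p.1 - q.1| ≤ ‖T F p - T F q‖ := s_le (T F p - T F q)
  have h5 : |F p - F q| ≤ ‖T F p - T F q‖ := f_le (T F p - T F q)
  have hL : 0 ≤ L := by linarith [h.le_L]
  have h6 := mul_le_mul_of_nonneg_left h4 hL
  have h7 := mul_nonneg hL (norm_nonneg (T F p - T F q))
  have h8 := norm_nonneg (T F p - T F q)
  simp only [Prod.mk.eta] at h1 h2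
  rw [abs_sub_comm (F (q.1, p.2)) (F p)] at h3
  refine nrm_le ?_ ?_
  · change |p.1 - q.1| ≤ _
    linarith
  · change |p.2 - q.2| ≤ _
    linarith

theorem Adm.lip_iter (h : Adm F L 2) (n : ℕ) (p q : E) :
    ‖(T F)^[n] p - (T F)^[n] q‖ ≤ (2 * L + 2) ^ n * ‖p - q‖ := by
  have hA : 0 ≤ 2 * L + 2 := by linarith [h.le_L]
  induction n with
  | zero => simp
  | succ n ih =>
    rw [Function.iterate_succ_apply', Function.iterate_succ_apply', pow_succ', mul_assoc]
    exact (h.lipT _ _).trans (mul_le_mul_of_nonneg_left ih hA)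

theorem Adm.lip_iter' (h : Adm F L 2) (n : ℕ) (p q : E) :
    ‖p - q‖ ≤ (2 * L + 2) ^ n * ‖(T F)^[n] p - (T F)^[n] q‖ := by
  have hA : 0 ≤ 2 * L + 2 := by linarith [h.le_L]
  induction n with
  | zero => simp
  | succ n ih =>
    rw [Function.iterate_succ_apply', Function.iterate_succ_apply', pow_succ, mul_assoc]
    exact ih.trans (mul_le_mul_of_nonneg_left (h.lipT' _ _) (pow_nonneg hA n))

theorem Adm.surj2 (h : Adm F L 2) (x b : ℝ) : ∃ y, F (x, y) = b := by
  have hc : Continuous fun y : ℝ => F (x, y) := h.cont.comp (continuous_const.prodMk continuous_id)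
  have he : ∀ k : ℤ, F (x, (k : ℝ)) = F (x, 0) - k := by
    intro k
    have := h.eqv (x, 0) (0, k)
    simpa [iv] using this
  refine intermediate_value_univ ((⌈F (x, 0) - b⌉ : ℤ) : ℝ) ((⌊F (x, 0) - b⌋ : ℤ) : ℝ) hc ⟨?_, ?_⟩
  · simp only [he]; linarith [Int.le_ceil (F (x, 0) - b)]
  · simp only [he]; linarith [Int.floor_le (F (x, 0) - b)]

theorem Adm.inj2 (h : Adm F L 2) {x y y' : ℝ} (he : F (x, y) = F (x, y')) : y = y' := by
  have := (lipy h x y y' two_pos).2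
  rw [he, sub_self, abs_zero, mul_zero] at this
  exact sub_eq_zero.mp (abs_nonpos_iff.mp this)

theorem Adm.surjT (h : Adm F L 2) : Function.Surjective (T F) := by
  intro w
  obtain ⟨y, hy⟩ := h.surj2 w.2 w.1
  exact ⟨(w.2, y), Prod.ext hy rfl⟩

theorem Adm.T_iv {κ : ℝ} (h : Adm F L κ) (z : E) (m : ℤ × ℤ) :
    T F (z + iv m) = T F z + iv (22 * m.1 - m.2, m.1) := by
  refine Prod.ext ?_ ?_
  · change F (z + iv m) = F z + ((22 * m.1 - m.2 : ℤ) : ℝ)
    rw [h.eqv]; push_cast; ring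
  · simp [T, iv]

/-- Integer translations are carried to integer translations; the new vector does not depend on
the map. -/
theorem iter_iv (n : ℕ) (m : ℤ × ℤ) : ∃ m' : ℤ × ℤ, ∀ (F : E → ℝ) (L κ : ℝ), Adm F L κ →
    ∀ z, (T F)^[n] (z + iv m) = (T F)^[n] z + iv m' := by
  induction n with
  | zero => exact ⟨m, fun _ _ _ _ _ => rfl⟩
  | succ n ih =>
    obtain ⟨m', hm⟩ := ih
    refine ⟨(22 * m'.1 - m'.2, m'.1), fun F L κ h z => ?_⟩
    rw [Function.iterate_succ_apply', Function.iterate_succ_apply', hm F L κ h, h.T_iv]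

theorem iter_iv' (n : ℕ) (m' : ℤ × ℤ) : ∃ m : ℤ × ℤ, ∀ (F : E → ℝ) (L κ : ℝ), Adm F L κ →
    ∀ z, (T F)^[n] (z + iv m) = (T F)^[n] z + iv m' := by
  induction n generalizing m' with
  | zero => exact ⟨m', fun _ _ _ _ _ => rfl⟩
  | succ n ih =>
    obtain ⟨m, hm⟩ := ih (m'.2, 22 * m'.2 - m'.1)
    refine ⟨m, fun F L κ h z => ?_⟩
    rw [Function.iterate_succ_apply', Function.iterate_succ_apply', hm F L κ h, h.T_iv]
    simp

theorem iter_iv2 {κ : ℝ} (h : Adm F L κ) (n : ℕ) (m : ℤ × ℤ) : ∃ m' : ℤ × ℤ,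
    ∀ z, (T F)^[n] (z + (2 : ℝ) • iv m) = (T F)^[n] z + (2 : ℝ) • iv m' := by
  obtain ⟨m', hm⟩ := iter_iv n m
  refine ⟨m', fun z => ?_⟩
  rw [two_smul, two_smul, ← add_assoc, hm F L κ h, hm F L κ h, add_assoc]

theorem Adm.exists_orb (h : Adm F L 2) (z : E) (i0 : ℤ) : ∃ x, Orb F x ∧ pt x i0 = z := 
  biseq_pt (fun _ => F) (fun _ => h.surjT) i0 z

theorem Orb.pt_succ {x : ℤ → ℝ} (hx : Orb F x) (i : ℤ) : pt x (i + 1) = T F (pt x i) := by
  refine Prod.ext (hx i) ?_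
  simp [pt, T]

theorem Orb.iter {x : ℤ → ℝ} (hx : Orb F x) (i : ℤ) (n : ℕ) :
    pt x (i + n) = (T F)^[n] (pt x i) := by
  induction n with
  | zero => simp
  | succ n ih => rw [Nat.cast_succ, ← add_assoc, hx.pt_succ, ih, Function.iterate_succ_apply']

theorem Adm.orb_unique (h : Adm F L 2) {x y : ℤ → ℝ} (hx : Orb F x) (hy : Orb F y) {i : ℤ}
    (he : pt x i = pt y i) : x = y := by
  funext j
  have : pt x j = pt y j := by
    refine Int.inductionOn' (motive := fun j => pt x j = pt y j) j i he ?_ ?_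
    · intro k _ ih
      rw [hx.pt_succ, hy.pt_succ, ih]
    · intro k _ ih
      have e1 := hx.pt_succ (k - 1)
      have e2 := hy.pt_succ (k - 1)
      rw [sub_add_cancel] at e1 e2
      have := h.lipT' (pt x (k - 1)) (pt y (k - 1))
      rw [← e1, ← e2, ih, sub_self, norm_zero, mul_zero] at this
      exact sub_eq_zero.mp (norm_le_zero_iff.mp this)
  exact congrArg Prod.fst this

/-- Integer orbits of the linear map. -/
theorem exists_intorb (i0 : ℤ) (m : ℤ × ℤ) :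
    ∃ k : ℤ → ℤ, (∀ i, k (i + 1) = 22 * k i - k (i - 1)) ∧ (k i0, k (i0 - 1)) = m := by
  obtain ⟨p, h0, hp⟩ := biseq (fun _ (z : ℤ × ℤ) => (22 * z.1 - z.2, z.1))
    (fun _ w => ⟨(w.2, 22 * w.2 - w.1), by simp⟩) i0 m
  have h2 : ∀ i, (p (i - 1)).1 = (p i).2 := by
    intro i
    have := hp (i - 1)
    rw [sub_add_cancel] at this
    rw [this]
  refine ⟨fun i => (p i).1, fun i => ?_, ?_⟩
  · simp only [hp, h2]
  · simp only [h2, h0]

theorem pt_sub_int (x : ℤ → ℝ) (k : ℤ → ℤ) (i : ℤ) :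
    pt (fun j => x j - k j) i = pt x i - iv (k i, k (i - 1)) := by
  simp [pt, iv]

theorem Adm.porb_sub {κ r : ℝ} (h : Adm F L κ) {x : ℤ → ℝ} (hx : POrb F r x) {k : ℤ → ℤ}
    (hk : ∀ i, k (i + 1) = 22 * k i - k (i - 1)) : POrb F r fun j => x j - k j := by
  intro i
  have h1 := h.eqv (pt x i - iv (k i, k (i - 1))) (k i, k (i - 1))
  rw [sub_add_cancel] at h1
  have h2 := hx i
  rw [pt_sub_int]
  have h3 : x (i + 1) - ((k (i + 1) : ℤ) : ℝ) - F (pt x i - iv (k i, k (i - 1))) =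
      x (i + 1) - F (pt x i) := by
    rw [hk]; simp only at h1; push_cast; linarith
  show |x (i + 1) - ((k (i + 1) : ℤ) : ℝ) - F (pt x i - iv (k i, k (i - 1)))| ≤ r
  rw [h3]; exact h2

theorem Adm.orb_sub {κ : ℝ} (h : Adm F L κ) {x : ℤ → ℝ} (hx : Orb F x) {k : ℤ → ℤ}
    (hk : ∀ i, k (i + 1) = 22 * k i - k (i - 1)) : Orb F fun j => x j - k j := by
  intro i
  have h1 := h.eqv (pt x i - iv (k i, k (i - 1))) (k i, k (i - 1))
  rw [sub_add_cancel] at h1
  have h2 := hx i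
  rw [pt_sub_int]
  simp only [h2, h1, hk]; push_cast; ring

theorem Orb.porb {F' : E → ℝ} {r : ℝ} {x : ℤ → ℝ} (hx : Orb F' x) (hc : Close F F' r) :
    POrb F r x := fun i => by
  rw [hx i]; exact hc _

/-- Finitely many iterates depend continuously on the map. -/
theorem Adm.iter_close (h : Adm F L 2) (n : ℕ) {ε : ℝ} (hε : 0 < ε) :
    ∃ η > 0, ∀ F', Close F F' η → ∀ i ≤ n, ∀ z, ‖(T F')^[i] z - (T F)^[i] z‖ ≤ ε := by
  have hA : 0 < 2 * L + 2 := by linarith [h.le_L]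
  induction n generalizing ε with
  | zero =>
    refine ⟨1, one_pos, fun F' _ i hi z => ?_⟩
    rw [Nat.le_zero.mp hi]; simpa using hε.le
  | succ n ih =>
    obtain ⟨η, hη, H⟩ := ih (ε := min ε (ε / 2 / (2 * L + 2))) (by positivity)
    refine ⟨min η (ε / 2), by positivity, fun F' hc i hi z => ?_⟩
    have hc' : Close F F' η := fun z => (hc z).trans (min_le_left _ _)
    rcases Nat.lt_or_ge n i with h1 | h1
    · have e : i = n + 1 := by omega
      rw [e, Function.iterate_succ_apply', Function.iterate_succ_apply']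
      have a1 := (H F' hc' n le_rfl z).trans (min_le_right _ _)
      have a2 := h.lipT ((T F')^[n] z) ((T F)^[n] z)
      have a3 : ‖T F' ((T F')^[n] z) - T F ((T F')^[n] z)‖ ≤ ε / 2 := by
        refine nrm_le ((hc _).trans (min_le_right _ _)) ?_
        simp only [T, Prod.snd_sub, sub_self, abs_zero]; positivity
      have a4 := norm_sub_le_norm_sub_add_norm_sub (T F' ((T F')^[n] z)) (T F ((T F')^[n] z))
        (T F ((T F)^[n] z))
      rw [le_div_iff₀' hA] at a1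
      linarith
    · exact (H F' hc' i h1 z).trans (min_le_left _ _)

/-- Pseudo-orbits stay close to an orbit on a window, in both time directions. -/
theorem Adm.porb_close (h : Adm F L 2) (R : ℕ) {ε : ℝ} (hε : 0 < ε) :
    ∃ η > 0, ∀ x x', Orb F x → POrb F η x' → ‖pt x' 0 - pt x 0‖ ≤ η →
      ∀ i : ℤ, |i| ≤ R → ‖pt x' i - pt x i‖ ≤ ε := by
  have hA : 0 < 2 * L + 2 := by linarith [h.le_L]
  induction R generalizing ε with
  | zero =>
    refine ⟨ε, hε, fun x x' _ _ h0 i hi => ?_⟩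
    have : i = 0 := by simpa using hi
    rw [this]; exact h0
  | succ n ih =>
    have hA1 : 1 ≤ 2 * L + 2 := by linarith [h.le_L]
    obtain ⟨η, hη, H⟩ := ih (ε := ε / 2 / (2 * L + 2)) (by positivity)
    refine ⟨min η (ε / 2 / (2 * L + 2)), by positivity, fun x x' hx hx' h0 i hi => ?_⟩
    have hx2 : POrb F η x' := fun z => (hx' z).trans (min_le_left _ _)
    have H' := H x x' hx hx2 (h0.trans (min_le_left _ _))
    have hs : ε / 2 / (2 * L + 2) ≤ ε / 2 := div_le_self (by positivity) hA1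
    have step : ∀ j, ‖pt x' (j + 1) - T F (pt x' j)‖ ≤ ε / 2 / (2 * L + 2) := by
      intro j
      refine nrm_le ((hx' j).trans (min_le_right _ _)) ?_
      simp only [T, pt, Prod.snd_sub, add_sub_cancel_right, sub_self, abs_zero]; positivity
    rw [abs_le] at hi
    push_cast at hi
    rcases lt_or_ge (n : ℤ) i with h1 | h1
    · have e : i = n + 1 := by omega
      have a1 := H' n (by simp)
      have a2 := h.lipT (pt x' n) (pt x n)
      have a3 := step n
      have a4 := norm_sub_le_norm_sub_add_norm_sub (pt x' (n + 1)) (T F (pt x' n)) (T F (pt x n))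
      rw [e, hx.pt_succ]
      rw [le_div_iff₀' hA] at a1
      linarith
    rcases lt_or_ge i (-(n : ℤ)) with h2 | h2
    · have a1 := H' (i + 1) (by rw [abs_le]; constructor <;> omega)
      have a2 := h.lipT' (pt x' i) (pt x i)
      have a3 := step i
      have a4 := norm_sub_le_norm_sub_add_norm_sub (T F (pt x' i)) (pt x' (i + 1)) (T F (pt x i))
      rw [hx.pt_succ] at a1
      rw [norm_sub_rev] at a3
      have a5 : ‖T F (pt x' i) - T F (pt x i)‖ ≤ ε / (2 * L + 2) := by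
        have : ε / (2 * L + 2) = ε / 2 / (2 * L + 2) + ε / 2 / (2 * L + 2) := by ring
        linarith
      rw [le_div_iff₀' hA] at a5
      linarith
    · have := H' i (abs_le.mpr ⟨h2, h1⟩)
      linarith

/-- Every point is an integer translate of a point of the unit square. -/
theorem exists_iv (z : E) : ∃ m, z - iv m ∈ Icc (0 : ℝ) 1 ×ˢ Icc (0 : ℝ) 1 := by
  refine ⟨(⌊z.1⌋, ⌊z.2⌋), ?_, ?_⟩
  · exact ⟨Int.fract_nonneg z.1, (Int.fract_lt_one z.1).le⟩
  · exact ⟨Int.fract_nonneg z.2, (Int.fract_lt_one z.2).le⟩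

theorem finite_iv (B : ℝ) : {m : ℤ × ℤ | ‖iv m‖ ≤ B}.Finite := by
  refine ((Set.finite_Icc (-⌈B⌉) ⌈B⌉).prod (Set.finite_Icc (-⌈B⌉) ⌈B⌉)).subset fun m hm => ?_
  have h1 : |(m.1 : ℝ)| ≤ (⌈B⌉ : ℤ) := ((f_le (iv m)).trans hm).trans (Int.le_ceil B)
  have h2 : |(m.2 : ℝ)| ≤ (⌈B⌉ : ℤ) := ((s_le (iv m)).trans hm).trans (Int.le_ceil B)
  have h3 : |m.1| ≤ ⌈B⌉ := by exact_mod_cast h1
  have h4 : |m.2| ≤ ⌈B⌉ := by exact_mod_cast h2
  exact ⟨abs_le.mp h3, abs_le.mp h4⟩

theorem iv_eq_of_norm_lt {m m' : ℤ × ℤ} (h : ‖iv m - iv m'‖ < 1) : m = m' := by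
  have h1 : |(m.1 : ℝ) - m'.1| < 1 := (f_le (iv m - iv m')).trans_lt h
  have h2 : |(m.2 : ℝ) - m'.2| < 1 := (s_le (iv m - iv m')).trans_lt h
  have h3 : |m.1 - m'.1| < 1 := by exact_mod_cast h1
  have h4 : |m.2 - m'.2| < 1 := by exact_mod_cast h2
  rw [abs_lt] at h3 h4
  exact Prod.ext (by omega) (by omega)

end Adm

end Pool.Agent.MP_369096_an.H89
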