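import Pool.Agent.MP_369096_an.H89.BasA

/-!
TASK BasB. Germs, singular set, cells. Auxiliary lemmas go in namespace `H89.BasB`.
`Aff F p g`: `F = ev g` near `p`; `Germ F p g`: `p` is a limit of such points; `Sing F`: no `Aff`.
Hints are given lemma by lemma.
-/

set_option autoImplicit false

open Set Filter Topology

namespace Pool.Agent.MP_369096_an.H89

variable {F : E → ℝ} {L : ℝ}

namespace BasB

theorem cont_ev (g : Af) : Continuous (ev g) := by
  unfold ev lin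
  fun_prop

theorem iv_neg (m : ℤ × ℤ) : iv (-m) = -iv m := by simp [iv]

theorem iv_sub (m m' : ℤ × ℤ) : iv (m - m') = iv m - iv m' := by simp [iv]

theorem radius {P : E → Prop} {z : E} (h : ∀ᶠ q in 𝓝 z, P q) :
    ∃ ρ > 0, ∀ p : E, ‖p - z‖ ≤ ρ → P p := by
  obtain ⟨ρ, hρ, H⟩ := Metric.nhds_basis_closedBall.eventually_iff.1 h
  exact ⟨ρ, hρ, fun p hp => H (mem_closedBall_iff_norm.2 hp)⟩

theorem ev_miss (S : Finset (Set E × Af)) (hS : ∀ A ∈ S, IsClosed A.1) (p : E) :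
    ∀ᶠ q in 𝓝 p, ∀ A ∈ S, q ∈ A.1 → p ∈ A.1 := by
  refine (eventually_all_finset S).2 fun A hA => ?_
  by_cases hp : p ∈ A.1
  · exact Eventually.of_forall fun _ _ => hp
  · filter_upwards [(hS A hA).isOpen_compl.mem_nhds hp] with q hq hq'
    exact absurd hq' hq

theorem edg_bound {Ed : Set (E × Set E)} (h : Edg F Ed) :
    ∃ R : ℝ, ∀ e ∈ Ed, ∀ q ∈ e.2, ‖q‖ ≤ R := by
  obtain ⟨R, hR⟩ := (h.fin.isCompact_biUnion h.cpt).isBounded.exists_norm_le
  exact ⟨R, fun e he q hq => hR q (mem_iUnion₂.2 ⟨e, he, hq⟩)⟩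

end BasB

theorem isOpen_aff (F : E → ℝ) (g : Af) : IsOpen {q | Aff F q g} := isOpen_setOfPred_eventually_nhds

theorem isClosed_germ (F : E → ℝ) (g : Af) : IsClosed {p | Germ F p g} := isClosed_closure

theorem isClosed_sing (F : E → ℝ) : IsClosed (Sing F) := by
  have : Sing F = (⋃ g, {q | Aff F q g})ᶜ := by
    ext p
    simp [Sing]
  rw [this]
  exact (isOpen_iUnion fun g => isOpen_aff F g).isClosed_compl

theorem Aff.germ {p : E} {g : Af} (h : Aff F p g) : Germ F p g := subset_closure h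

/-- Two affine functions that agree on a nonempty open set are equal. -/
theorem af_eq_of_eventually {g g' : Af} {p : E} (h : ∀ᶠ z in 𝓝 p, ev g z = ev g' z) : g = g' := by
  obtain ⟨ε, hε, h⟩ := Metric.eventually_nhds_iff.1 h
  have h0 := h (y := p) (by simpa using hε)
  have h1 := h (y := (p.1 + ε / 2, p.2)) (by
    rw [Prod.dist_eq]
    simp only [dist_self_add_left, dist_self, Real.norm_eq_abs]
    rw [abs_of_pos (by linarith)]
    exact max_lt (by linarith) hε)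
  have h2 := h (y := (p.1, p.2 + ε / 2)) (by
    rw [Prod.dist_eq]
    simp only [dist_self_add_left, dist_self, Real.norm_eq_abs]
    rw [abs_of_pos (by linarith)]
    exact max_lt hε (by linarith))
  simp only [ev, lin] at h0 h1 h2
  have e1 : g.1.1 = g'.1.1 := by
    have : ε / 2 * (g.1.1 - g'.1.1) = 0 := by linarith
    rcases mul_eq_zero.1 this with h | h <;> linarith
  have e2 : g.1.2 = g'.1.2 := by
    have : ε / 2 * (g.1.2 - g'.1.2) = 0 := by linarith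
    rcases mul_eq_zero.1 this with h | h <;> linarith
  refine Prod.ext (Prod.ext e1 e2) ?_
  rw [e1, e2] at h0
  linarith

theorem Aff.unique {p : E} {g g' : Af} (h : Aff F p g) (h' : Germ F p g') : g' = g := by
  obtain ⟨q, hq, hq'⟩ := mem_closure_iff.1 h' _ (isOpen_aff F g) h
  refine af_eq_of_eventually (p := q) ?_
  filter_upwards [hq, hq'] with z a b
  rw [← a, ← b]

theorem Germ.eq (hc : Continuous F) {p : E} {g : Af} (h : Germ F p g) : F p = ev g p := by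
  have hcl : IsClosed {q | F q = ev g q} := isClosed_eq hc (BasB.cont_ev g)
  exact closure_minimal (fun q (hq : Aff F q g) => hq.self_of_nhds) hcl h

theorem Germ.congr {F' : E → ℝ} {p : E} {g : Af} (he : ∀ᶠ z in 𝓝 p, F' z = F z)
    (h : Germ F p g) : Germ F' p g := by
  refine mem_closure_iff_frequently.2 (((mem_closure_iff_frequently.1 h).and_eventually
    he.eventually_nhds).mono fun q hq => ?_)
  have h1 : Aff F q g := hq.1
  filter_upwards [h1, hq.2] with z a b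
  rw [b, a]

theorem Aff.congr {F' : E → ℝ} {p : E} {g : Af} (he : ∀ᶠ z in 𝓝 p, F' z = F z)
    (h : Aff F p g) : Aff F' p g := by
  filter_upwards [h, he] with z a b
  rw [b, a]

theorem sing_congr {F' : E → ℝ} {p : E} (he : ∀ᶠ z in 𝓝 p, F' z = F z) :
    p ∈ Sing F' ↔ p ∈ Sing F := by
  refine not_congr ⟨fun ⟨g, hg⟩ => ⟨g, hg.congr (he.mono fun z hz => hz.symm)⟩,
    fun ⟨g, hg⟩ => ⟨g, hg.congr he⟩⟩

theorem LG.unique {p h h' : E} (hp : p ∉ Sing F) (h1 : LG F p h) (h2 : LG F p h') : h = h' := by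
  obtain ⟨g, hg⟩ := not_not.1 hp
  obtain ⟨c, h1⟩ := h1
  obtain ⟨c', h2⟩ := h2
  exact congrArg Prod.fst ((hg.unique h1).trans (hg.unique h2).symm)

/-- Gradients of germs obey the slope bounds (difference quotients at a point with `Aff`). -/
theorem Adm.germ_bd {κ : ℝ} (h : Adm F L κ) {p : E} {g : Af} (hg : Germ F p g) :
    |g.1.1| ≤ L ∧ -κ ≤ g.1.2 ∧ κ * g.1.2 ≤ -1 := by
  obtain ⟨q, hq⟩ := closure_nonempty_iff.1 ⟨p, hg⟩
  obtain ⟨ε, hε, ha⟩ := Metric.eventually_nhds_iff.1 hq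
  have h0 := ha (y := (q.1, q.2)) (by simpa using hε)
  have h1 := ha (y := (q.1 + ε / 2, q.2)) (by
    rw [Prod.dist_eq]
    simp only [dist_self_add_left, dist_self, Real.norm_eq_abs]
    rw [abs_of_pos (by linarith)]
    exact max_lt (by linarith) hε)
  have h2 := ha (y := (q.1, q.2 + ε / 2)) (by
    rw [Prod.dist_eq]
    simp only [dist_self_add_left, dist_self, Real.norm_eq_abs]
    rw [abs_of_pos (by linarith)]
    exact max_lt hε (by linarith))
  have a1 := h.lipx (q.1 + ε / 2) q.1 q.2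
  have a2 := h.lo q.1 q.2 (q.2 + ε / 2) (by linarith)
  have a3 := h.hi q.1 q.2 (q.2 + ε / 2) (by linarith)
  rw [h0, h1] at a1
  rw [h0, h2] at a2 a3
  simp only [ev, lin] at a1 a2 a3
  have hε2 : 0 < ε / 2 := by linarith
  refine ⟨?_, ?_, ?_⟩
  · have e1 : g.1.1 * (q.1 + ε / 2) + g.1.2 * q.2 + g.2 - (g.1.1 * q.1 + g.1.2 * q.2 + g.2) =
        g.1.1 * (ε / 2) := by ring
    rw [e1, add_sub_cancel_left, abs_mul, abs_of_pos hε2] at a1
    exact le_of_mul_le_mul_right a1 hε2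
  · refine le_of_mul_le_mul_right ?_ hε2
    linarith
  · refine le_of_mul_le_mul_right ?_ hε2
    linarith

theorem Adm.lg_bd (h : Adm F L 2) {p k : E} (hg : LG F p k) :
    |k.1| ≤ L ∧ -2 ≤ k.2 ∧ k.2 ≤ -1 / 2 := by
  obtain ⟨c, hc⟩ := hg
  obtain ⟨a, b, d⟩ := h.germ_bd hc
  exact ⟨a, b, by linarith⟩

theorem Adm.itin_bd (h : Adm F L 2) {x : ℤ → ℝ} {k : ℤ → E} (hx : Itin F x k) : Bd L k :=
  fun i => h.lg_bd (hx.2 i)

theorem Adm.aff_iv {κ : ℝ} (h : Adm F L κ) {p : E} {g : Af} (m : ℤ × ℤ) (hg : Aff F p g) :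
    Aff F (p + iv m) (g.1, g.2 - lin g.1 (iv m) + 22 * (m.1 : ℝ) - (m.2 : ℝ)) := by
  have ht : Tendsto (fun z : E => z - iv m) (𝓝 (p + iv m)) (𝓝 p) := by
    have := (continuous_sub_right (iv m)).tendsto (p + iv m)
    rwa [add_sub_cancel_right] at this
  filter_upwards [ht.eventually hg] with z hz
  have := h.eqv (z - iv m) m
  rw [sub_add_cancel, hz] at this
  rw [this]
  simp only [ev, lin, Prod.fst_sub, Prod.snd_sub]
  ring

theorem Adm.germ_iv {κ : ℝ} (h : Adm F L κ) {p : E} {g : Af} (m : ℤ × ℤ) (hg : Germ F p g) :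
    Germ F (p + iv m) (g.1, g.2 - lin g.1 (iv m) + 22 * (m.1 : ℝ) - (m.2 : ℝ)) :=
  map_mem_closure (f := fun z : E => z + iv m) (continuous_add_const _) hg
    fun _ hq => h.aff_iv m hq

theorem Adm.lg_iv {κ : ℝ} (h : Adm F L κ) (p k : E) (m : ℤ × ℤ) :
    LG F (p + iv m) k ↔ LG F p k := by
  have key : ∀ (q : E) (n : ℤ × ℤ), LG F q k → LG F (q + iv n) k := by
    rintro q n ⟨c, hc⟩
    have := h.germ_iv n hc
    exact ⟨_, this⟩
  refine ⟨fun hp => ?_, key p m⟩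
  have := key _ (-m) hp
  rwa [BasB.iv_neg, add_neg_cancel_right] at this

theorem Adm.sing_iv {κ : ℝ} (h : Adm F L κ) (p : E) (m : ℤ × ℤ) :
    p + iv m ∈ Sing F ↔ p ∈ Sing F := by
  refine not_congr ⟨fun ⟨g, hg⟩ => ?_, fun ⟨g, hg⟩ => ⟨_, h.aff_iv m hg⟩⟩
  have := h.aff_iv (-m) hg
  rw [BasB.iv_neg, add_neg_cancel_right] at this
  exact ⟨_, this⟩

theorem Adm.itin_sub {κ : ℝ} (h : Adm F L κ) {x : ℤ → ℝ} {c : ℤ → E} (hx : Itin F x c)
    {k : ℤ → ℤ} (hk : ∀ i, k (i + 1) = 22 * k i - k (i - 1)) : Itin F (fun j => x j - k j) c := by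
  refine ⟨h.orb_sub hx.1 hk, fun i => ?_⟩
  rw [pt_sub_int, sub_eq_add_neg, ← BasB.iv_neg, h.lg_iv]
  exact hx.2 i

theorem Itin.shift {x : ℤ → ℝ} {c : ℤ → E} (hx : Itin F x c) (s : ℤ) :
    Itin F (fun j => x (j + s)) fun j => c (j + s) := by
  have e : ∀ i, pt (fun j => x (j + s)) i = pt x (i + s) := fun i => by
    simp only [pt]
    rw [show i - 1 + s = i + s - 1 by ring]
  refine ⟨fun i => ?_, fun i => ?_⟩
  · rw [e, ← hx.1 (i + s)]
    show x (i + 1 + s) = x (i + s + 1)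
    rw [add_right_comm]
  · rw [e]
    exact hx.2 _

/-- A convex set with interior on which `F` is affine consists of points with that germ
(`Convex.closure_interior_eq_closure_of_nonempty_interior`). -/
theorem germ_of_convex {A : Set E} (hA : Convex ℝ A) (hi : (interior A).Nonempty) {g : Af}
    (hg : ∀ p ∈ A, F p = ev g p) : ∀ p ∈ A, Germ F p g := by
  intro p hp
  have h1 : p ∈ closure (interior A) := by
    rw [hA.closure_interior_eq_closure_of_nonempty_interior hi]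
    exact subset_closure hp
  refine closure_mono (fun q hq => ?_) h1
  filter_upwards [mem_interior_iff_mem_nhds.1 hq] with z hz
  exact hg z hz

/-- Cells with empty interior can be discarded from a finite closed convex cover of a closed ball
(a finite union of closed sets with empty interior has empty interior; the union of the others is
closed and dense in the ball). -/
theorem cover_interior {ι : Type*} (S : Finset ι) (A : ι → Set E) (hA : ∀ i ∈ S, IsClosed (A i))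
    {z : E} {r : ℝ} (hr : 0 < r) (hc : ∀ p : E, ‖p - z‖ ≤ r → ∃ i ∈ S, p ∈ A i) :
    ∀ p : E, ‖p - z‖ ≤ r → ∃ i ∈ S, p ∈ A i ∧ (interior (A i)).Nonempty := by
  intro p hp
  by_contra hne
  push Not at hne
  have h1 : p ∈ closure (Metric.ball z r) := by
    rw [closure_ball z hr.ne']
    exact mem_closedBall_iff_norm.2 hp
  have h2 : IsOpen (⋂ i ∈ {i | i ∈ S ∧ p ∉ A i}, (A i)ᶜ) :=
    (S.finite_toSet.subset fun i hi => hi.1).isOpen_biInter fun i hi => (hA i hi.1).isOpen_compl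
  have h3 := mem_closure_iff.1 h1 _ h2 (mem_iInter₂.2 fun i hi => hi.2)
  have h4 : Dense (⋂ i ∈ {i | i ∈ S ∧ p ∈ A i}, (A i)ᶜ) :=
    dense_biInter_of_isOpen (fun i hi => (hA i hi.1).isOpen_compl)
      (S.finite_toSet.subset fun i hi => hi.1).countable
      fun i hi => interior_eq_empty_iff_dense_compl.1 (hne i hi.1 hi.2)
  obtain ⟨q, ⟨hq1, hq2⟩, hq3⟩ := h4.inter_open_nonempty _ (h2.inter Metric.isOpen_ball) h3
  obtain ⟨i, hi, hq⟩ := hc q (mem_ball_iff_norm.1 hq2).le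
  by_cases hpi : p ∈ A i
  · exact mem_iInter₂.1 hq3 i ⟨hi, hpi⟩ hq
  · exact mem_iInter₂.1 hq1 i ⟨hi, hpi⟩ hq

theorem Loc.mono {r r' : ℝ} {N N' : ℕ} (h : Loc F r N) (hr : 0 < r') (hr' : r' ≤ r) (hN : N ≤ N') :
    Loc F r' N' := by
  refine ⟨hr, fun z => ?_⟩
  obtain ⟨S, h1, h2, h3⟩ := h.2 z
  exact ⟨S, h1.trans hN, h2, fun p hp => h3 p (hp.trans hr')⟩

theorem Loc.one_le {r : ℝ} {N : ℕ} (h : Loc F r N) : 1 ≤ N := by
  obtain ⟨S, h1, -, h3⟩ := h.2 0
  obtain ⟨A, hA, -⟩ := h3 0 (by simpa using h.1.le)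
  exact (Finset.card_pos.2 ⟨A, hA⟩).trans_le h1

theorem Loc.exists_germ {r : ℝ} {N : ℕ} (h : Loc F r N) (p : E) : ∃ g, Germ F p g := by
  obtain ⟨S, -, h2, h3⟩ := h.2 p
  obtain ⟨A, hA, hp⟩ := h3 p (by simpa using h.1.le)
  exact ⟨A.2, (h2 A hA).2.2 p hp⟩

/-- Every germ at a point of the open ball is the germ of a cell through the point. Hint: let `U` be
the complement of the cells missing `p`, intersected with the open ball; `U` contains a point `q`
with `Aff F q g`; `q` lies in a cell `A`, `p ∈ A`, and `Aff.unique` gives `A.2 = g`. -/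
theorem germ_complete {S : Finset (Set E × Af)} {z : E} {r : ℝ}
    (hS : ∀ A ∈ S, IsClosed A.1 ∧ ∀ p ∈ A.1, Germ F p A.2)
    (hc : ∀ p : E, ‖p - z‖ ≤ r → ∃ A ∈ S, p ∈ A.1) {p : E} (hp : ‖p - z‖ < r) {g : Af}
    (hg : Germ F p g) : ∃ A ∈ S, p ∈ A.1 ∧ A.2 = g := by
  have e1 : ∀ᶠ q in 𝓝 p, ‖q - z‖ < r :=
    (isOpen_lt (continuous_id.sub continuous_const).norm continuous_const).mem_nhds hp
  have e2 := BasB.ev_miss S (fun A hA => (hS A hA).1) p
  obtain ⟨q, hq, a1, a2⟩ :=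
    ((mem_closure_iff_frequently.1 hg).and_eventually (e1.and e2)).exists
  obtain ⟨A, hA, hqA⟩ := hc q a1.le
  exact ⟨A, hA, a2 A hA hqA, Aff.unique hq ((hS A hA).2 q hqA)⟩

/-- Upper semicontinuity of the set of germs. -/
theorem Loc.usc {r : ℝ} {N : ℕ} (h : Loc F r N) (z : E) :
    ∃ ρ > 0, ∀ p : E, ‖p - z‖ ≤ ρ → ∀ g, Germ F p g → Germ F z g := by
  obtain ⟨S, -, h2, h3⟩ := h.2 z
  have e1 : ∀ᶠ q in 𝓝 z, ‖q - z‖ < r :=
    (isOpen_lt (continuous_id.sub continuous_const).norm continuous_const).mem_nhds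
      (by simpa using h.1)
  have e2 := BasB.ev_miss S (fun A hA => (h2 A hA).2.1) z
  obtain ⟨ρ, hρ, H⟩ := BasB.radius (e1.and e2)
  refine ⟨ρ, hρ, fun p hp g hg => ?_⟩
  obtain ⟨A, hA, a1, a2⟩ := germ_complete (fun A hA => (h2 A hA).2) h3 (H p hp).1 hg
  rw [← a2]
  exact (h2 A hA).2.2 z ((H p hp).2 A hA a1)

theorem Loc.germs_at {r : ℝ} {N : ℕ} (h : Loc F r N) (z : E) :
    ∃ S : Finset Af, S.card ≤ N ∧ ∀ g, Germ F z g → g ∈ S := by
  classical
  obtain ⟨S, h1, h2, h3⟩ := h.2 z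
  refine ⟨S.image Prod.snd, Finset.card_image_le.trans h1, fun g hg => ?_⟩
  obtain ⟨A, hA, -, a2⟩ := germ_complete (fun A hA => (h2 A hA).2) h3 (by simpa using h.1) hg
  exact Finset.mem_image.2 ⟨A, hA, a2⟩

/-- Finitely many germs occur on a compact set. -/
theorem Loc.finite_germs {r : ℝ} {N : ℕ} (h : Loc F r N) {B : Set E} (hB : IsCompact B) :
    {g | ∃ p ∈ B, Germ F p g}.Finite := by
  choose S h1 h2 h3 using h.2
  obtain ⟨t, -, ht, hc⟩ := finite_cover_balls_of_compact hB h.1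
  refine (ht.biUnion (t := fun z => Prod.snd '' (S z : Set (Set E × Af)))
    fun z _ => (S z).finite_toSet.image _).subset ?_
  rintro g ⟨p, hp, hg⟩
  obtain ⟨z, hz, hpz⟩ := mem_iUnion₂.1 (hc hp)
  obtain ⟨A, hA, -, a2⟩ := germ_complete (fun A hA => (h2 z A hA).2) (h3 z)
    (mem_ball_iff_norm.1 hpz) hg
  exact mem_iUnion₂.2 ⟨z, hz, A, hA, a2⟩

theorem Loc.finite_lg {κ r : ℝ} {N : ℕ} (ha : Adm F L κ) (h : Loc F r N) :
    {k | ∃ p, LG F p k}.Finite := by
  refine ((h.finite_germs (B := Icc (0 : ℝ) 1 ×ˢ Icc (0 : ℝ) 1)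
    (isCompact_Icc.prod isCompact_Icc)).image Prod.fst).subset ?_
  rintro k ⟨p, hp⟩
  obtain ⟨m, hm⟩ := exists_iv p
  have : LG F (p - iv m) k := by
    rw [← ha.lg_iv _ _ m, sub_add_cancel]
    exact hp
  obtain ⟨c, hc⟩ := this
  exact ⟨(k, c), ⟨_, hm, hc⟩, rfl⟩

/-- A compact set is covered by finitely many cells. -/
theorem Loc.cover_compact {r : ℝ} {N : ℕ} (h : Loc F r N) {B : Set E} (hB : IsCompact B) :
    ∃ S : Finset (Set E × Af), (∀ A ∈ S, Convex ℝ A.1 ∧ IsClosed A.1 ∧ ∀ p ∈ A.1, Germ F p A.2) ∧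
      ∀ p ∈ B, ∃ A ∈ S, p ∈ A.1 := by
  classical
  choose S h1 h2 h3 using h.2
  obtain ⟨t, -, ht, hc⟩ := finite_cover_balls_of_compact hB h.1
  refine ⟨ht.toFinset.biUnion S, fun A hA => ?_, fun p hp => ?_⟩
  · obtain ⟨z, -, hz⟩ := Finset.mem_biUnion.1 hA
    exact h2 z A hz
  · obtain ⟨z, hz, hpz⟩ := mem_iUnion₂.1 (hc hp)
    obtain ⟨A, hA, a⟩ := h3 z p (mem_ball_iff_norm.1 hpz).le
    exact ⟨A, Finset.mem_biUnion.2 ⟨z, ht.mem_toFinset.2 hz, hA⟩, a⟩

/-- On a preconnected set without singular points the affine function is the same everywhere. -/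
theorem aff_of_preconnected {U : Set E} (hU : IsPreconnected U) (hs : ∀ p ∈ U, p ∉ Sing F)
    {z : E} (hz : z ∈ U) : ∃ g, ∀ p ∈ U, Aff F p g := by
  obtain ⟨g, hg⟩ := not_not.1 (hs z hz)
  refine ⟨g, fun p hp => ?_⟩
  refine hU.subset_left_of_subset_union (u := {q | Aff F q g})
    (v := ⋃ g' ∈ {g' | g' ≠ g}, {q | Aff F q g'}) (isOpen_aff F g)
    (isOpen_biUnion fun g' _ => isOpen_aff F g') ?_ (fun q hq => ?_) ⟨z, hz, hg⟩ hp
  · refine disjoint_left.2 fun q h1 h2 => ?_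
    obtain ⟨g', hne, h3⟩ := mem_iUnion₂.1 h2
    exact hne (Aff.unique h1 (Aff.germ h3))
  · obtain ⟨g', hg'⟩ := not_not.1 (hs q hq)
    by_cases he : g' = g
    · exact Or.inl (he ▸ hg')
    · exact Or.inr (mem_iUnion₂.2 ⟨g', he, hg'⟩)

/-- Edges near a point pass through the point. -/
theorem Edg.usc {Ed : Set (E × Set E)} (h : Edg F Ed) (z : E) :
    ∃ ρ > 0, ∀ p : E, ‖p - z‖ ≤ ρ → ∀ e ∈ Ed, ∀ m, p - iv m ∈ e.2 → z - iv m ∈ e.2 := by
  obtain ⟨R, hR⟩ := BasB.edg_bound h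
  have e1 : ∀ᶠ q in 𝓝 z, ‖q - z‖ < 1 :=
    (isOpen_lt (continuous_id.sub continuous_const).norm continuous_const).mem_nhds (by simp)
  have e2 : ∀ᶠ q in 𝓝 z, ∀ e ∈ Ed, ∀ m ∈ {m : ℤ × ℤ | ‖iv m‖ ≤ ‖z‖ + 1 + R},
      q - iv m ∈ e.2 → z - iv m ∈ e.2 := by
    refine (eventually_all_finite h.fin).2 fun e he => ?_
    refine (eventually_all_finite (finite_iv _)).2 fun m _ => ?_
    by_cases hz : z - iv m ∈ e.2
    · exact Eventually.of_forall fun _ _ => hz
    · have ho : IsOpen {q : E | q - iv m ∉ e.2} :=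
        (h.cpt e he).isClosed.isOpen_compl.preimage (continuous_sub_right (iv m))
      filter_upwards [ho.mem_nhds hz] with q hq hq'
      exact absurd hq' hq
  obtain ⟨ρ, hρ, H⟩ := BasB.radius (e1.and e2)
  refine ⟨ρ, hρ, fun p hp e he m hm => (H p hp).2 e he m ?_ hm⟩
  have a1 := hR e he _ hm
  have a2 := (H p hp).1
  have a3 : iv m = z + (p - z) - (p - iv m) := by abel
  show ‖iv m‖ ≤ _
  rw [a3]
  refine (norm_sub_le _ _).trans ?_
  linarith [norm_add_le z (p - z)]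

/-- The number of translated edges near a point is bounded. -/
theorem Edg.count {Ed : Set (E × Set E)} (h : Edg F Ed) (B : ℝ) :
    ∃ n : ℕ, ∀ z : E, ∃ S : Finset ((E × Set E) × (ℤ × ℤ)), S.card ≤ n ∧ (∀ a ∈ S, a.1 ∈ Ed) ∧
      ∀ e ∈ Ed, ∀ m, ∀ q ∈ e.2, ‖q + iv m - z‖ ≤ B → (e, m) ∈ S := by
  classical
  obtain ⟨R, hR⟩ := BasB.edg_bound h
  refine ⟨h.fin.toFinset.card * (finite_iv (B + R + 1)).toFinset.card, fun z => ?_⟩
  obtain ⟨m0, hm0⟩ := exists_iv z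
  refine ⟨h.fin.toFinset ×ˢ (finite_iv (B + R + 1)).toFinset.image (· + m0), ?_, fun a ha => ?_,
    fun e he m q hq hB => ?_⟩
  · rw [Finset.card_product]
    exact Nat.mul_le_mul_left _ Finset.card_image_le
  · exact h.fin.mem_toFinset.1 (Finset.mem_product.1 ha).1
  · refine Finset.mem_product.2 ⟨h.fin.mem_toFinset.2 he,
      Finset.mem_image.2 ⟨m - m0, (Finite.mem_toFinset _).2 ?_, sub_add_cancel _ _⟩⟩
    have a1 := hR e he q hq
    have a2 : ‖z - iv m0‖ ≤ 1 := by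
      rw [Prod.norm_def, Real.norm_of_nonneg hm0.1.1, Real.norm_of_nonneg hm0.2.1]
      exact max_le hm0.1.2 hm0.2.2
    have a3 : iv (m - m0) = (q + iv m - z) - q + (z - iv m0) := by
      rw [BasB.iv_sub]
      abel
    show ‖iv (m - m0)‖ ≤ _
    rw [a3]
    refine (norm_add_le _ _).trans ?_
    linarith [norm_sub_le (q + iv m - z) q]

theorem BasB.ext {r : ℝ} {N : ℕ} (h : Loc F r N) {x : ℤ → ℝ} (hx : Orb F x) (c : ℤ → E)
    (I : Set ℤ) (hc : ∀ i ∈ I, LG F (pt x i) (c i)) :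
    ∃ c', Itin F x c' ∧ ∀ i ∈ I, c' i = c i := by
  classical
  choose g hg using h.exists_germ
  refine ⟨fun i => if i ∈ I then c i else (g (pt x i)).1, ⟨hx, fun i => ?_⟩,
    fun i hi => if_pos hi⟩
  by_cases hi : i ∈ I
  · simp only [if_pos hi]
    exact hc i hi
  · simp only [if_neg hi]
    exact ⟨_, hg _⟩

/-- A finite germ word extends to an itinerary. -/
theorem ext_itin {r : ℝ} {N : ℕ} (ha : Adm F L 2) (h : Loc F r N) (z : E) (g : ℕ → Af) (n : ℕ)
    (hg : ∀ i < n, Germ F ((T F)^[i] z) (g i)) :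
    ∃ x c, Itin F x c ∧ pt x 0 = z ∧ ∀ i < n, c (i : ℕ) = (g i).1 := by
  obtain ⟨x, hx, h0⟩ := ha.exists_orb z 0
  obtain ⟨c, hc, he⟩ := BasB.ext h hx (fun i => (g i.toNat).1) {i | 0 ≤ i ∧ i < n} fun i hi => by
    obtain ⟨j, rfl⟩ := Int.eq_ofNat_of_zero_le hi.1
    have := hx.iter 0 j
    rw [zero_add, h0] at this
    rw [this]
    exact ⟨(g j).2, hg j (by exact_mod_cast hi.2)⟩
  exact ⟨x, c, hc, h0, fun i hi => he i ⟨Int.natCast_nonneg i, by exact_mod_cast hi⟩⟩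

/-- Gradients prescribed on a set of times extend to an itinerary. -/
theorem ext_itin' {r : ℝ} {N : ℕ} (h : Loc F r N) {x : ℤ → ℝ} (hx : Orb F x) (c : ℤ → E)
    (I : Set ℤ) (hc : ∀ i ∈ I, LG F (pt x i) (c i)) :
    ∃ c', Itin F x c' ∧ ∀ i ∈ I, c' i = c i := BasB.ext h hx c I hc

/-- Germs of a sum. Hint: in an open set where `F + G = ev g` pick a point with `Aff F`. -/
theorem germ_add {G : E → ℝ} {r : ℝ} {N : ℕ} (h : Loc F r N) {p : E} {g : Af}
    (hg : Germ (fun z => F z + G z) p g) :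
    ∃ g1 g2, Germ F p g1 ∧ Germ G p g2 ∧ g = g1 + g2 := by
  obtain ⟨ρ, hρ, H⟩ := h.usc p
  obtain ⟨S, -, hS⟩ := h.germs_at p
  have hfin : {g1 | Germ F p g1}.Finite := S.finite_toSet.subset fun g1 h1 => hS g1 h1
  have key : p ∈ closure (⋃ g1 ∈ {g1 | Germ F p g1}, {q | Aff G q (g - g1)}) := by
    refine mem_closure_iff.2 fun o ho hpo => ?_
    obtain ⟨q, ⟨q1, q2⟩, q3⟩ := mem_closure_iff.1 hg _ (ho.inter Metric.isOpen_ball)
      ⟨hpo, Metric.mem_ball_self hρ⟩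
    obtain ⟨g1, hg1⟩ := h.exists_germ q
    obtain ⟨q', ⟨a1, a2⟩, a3⟩ := mem_closure_iff.1 hg1 _ (ho.inter (isOpen_aff _ g)) ⟨q1, q3⟩
    refine ⟨q', a1, mem_iUnion₂.2 ⟨g1, H q (mem_ball_iff_norm.1 q2).le g1 hg1, ?_⟩⟩
    have b2 : Aff (fun z => F z + G z) q' g := a2
    have b3 : Aff F q' g1 := a3
    filter_upwards [b2, b3] with z c1 c2
    simp only [ev, lin, Prod.fst_sub, Prod.snd_sub] at c1 c2 ⊢
    linarith
  rw [hfin.closure_biUnion] at key
  obtain ⟨g1, h1, h2⟩ := mem_iUnion₂.1 key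
  exact ⟨g1, g - g1, h1, h2, (add_sub_cancel _ _).symm⟩

/-- A function on the line that is locally `c`-Lipschitz to the right is `c`-Lipschitz
(`image_le_of_liminf_slope_right_le_deriv_boundary` or a supremum argument). -/
theorem lip_of_right {φ : ℝ → ℝ} (hφ : Continuous φ) {c : ℝ}
    (h : ∀ t, ∃ ε > 0, ∀ s ∈ Icc t (t + ε), |φ s - φ t| ≤ c * (s - t)) (s t : ℝ) :
    |φ s - φ t| ≤ c * |s - t| := by
  have key : ∀ a b : ℝ, a ≤ b → |φ b - φ a| ≤ c * (b - a) := by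
    intro a b hab
    have hcl : IsClosed {x | |φ x - φ a| ≤ c * (x - a)} := isClosed_le (by fun_prop) (by fun_prop)
    refine (hcl.inter isClosed_Icc).Icc_subset_of_forall_exists_gt (a := a) (b := b) (by simp)
      (fun x hx y hy => ?_) ⟨hab, le_rfl⟩
    obtain ⟨ε, hε, H⟩ := h x
    have h1 : x < min y (x + ε) := lt_min hy (by linarith)
    refine ⟨min y (x + ε), ?_, h1, min_le_left _ _⟩
    have h2 := H _ ⟨h1.le, min_le_right y _⟩
    have h3 : |φ x - φ a| ≤ c * (x - a) := hx.1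
    show |φ (min y (x + ε)) - φ a| ≤ c * (min y (x + ε) - a)
    linarith [abs_sub_le (φ (min y (x + ε))) (φ x) (φ a)]
  rcases le_total s t with hst | hst
  · rw [abs_sub_comm (φ s), abs_sub_comm s, abs_of_nonneg (sub_nonneg.2 hst)]
    exact key s t hst
  · rw [abs_of_nonneg (sub_nonneg.2 hst)]
    exact key t s hst

end Pool.Agent.MP_369096_an.H89
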