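import Pool.Agent.MP_369096_an.H89.BasB

/-!
TASK BasC. Time reversal. `rev F (x, ·)` is the inverse of `F (x, ·)`; `sg F z = (z.1, F z)` is a
homeomorphism of the plane with inverse `sg (rev F)`; an orbit `x` of `F` gives the orbit
`i ↦ x (-i)` of `rev F`, and `pt (fun i => x (-i)) i = sg F (pt x (-i))`,
`‖pt (fun i => v (-i)) i‖ = ‖pt v (1 - i)‖`. Auxiliary lemmas go in namespace `H89.BasC`.
-/

set_option autoImplicit false

open Set Filter Topology

namespace Pool.Agent.MP_369096_an.H89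

variable {F : E → ℝ} {L : ℝ}

/-- The reversed affine function: solve `b = ev g (x, y)` for `y`. -/
noncomputable def rva (g : Af) : Af := ((-g.1.1 / g.1.2, 1 / g.1.2), -g.2 / g.1.2)

theorem Adm.rev_right (h : Adm F L 2) (z : E) : F (z.1, rev F z) = z.2 :=
  Function.invFun_eq (f := fun y => F (z.1, y)) (h.surj2 z.1 z.2)

theorem Adm.rev_left (h : Adm F L 2) (z : E) : rev F (z.1, F z) = z.2 :=
  h.inj2 (x := z.1) (h.rev_right (z.1, F z))

theorem Adm.sg_sg (h : Adm F L 2) (z : E) : sg (rev F) (sg F z) = z :=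
  Prod.ext rfl (h.rev_left z)

theorem Adm.sg_sg' (h : Adm F L 2) (z : E) : sg F (sg (rev F) z) = z :=
  Prod.ext rfl (h.rev_right z)

namespace BasC

theorem abs_le_two (h : Adm F L 2) (x y y' : ℝ) : |y - y'| ≤ 2 * |F (x, y) - F (x, y')| := by
  rcases le_total y y' with hy | hy
  · have h1 := h.lo x y y' hy
    have h2 := le_abs_self (F (x, y) - F (x, y'))
    rw [abs_of_nonpos (by linarith)]
    linarith
  · have h1 := h.lo x y' y hy
    have h2 := neg_le_abs (F (x, y) - F (x, y'))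
    rw [abs_of_nonneg (by linarith)]
    linarith

theorem rev_anti (h : Adm F L 2) (x : ℝ) {b b' : ℝ} (hb : b ≤ b') :
    rev F (x, b') ≤ rev F (x, b) := by
  by_contra hn
  have hn' := not_le.1 hn
  have h1 := h.lo x _ _ hn'.le
  have h2 : F (x, rev F (x, b)) = b := h.rev_right (x, b)
  have h3 : F (x, rev F (x, b')) = b' := h.rev_right (x, b')
  rw [h2, h3] at h1
  linarith

theorem cont_sg (h : Adm F L 2) : Continuous (sg F) := continuous_fst.prodMk h.cont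

theorem germ_ne (h : Adm F L 2) {p : E} {g : Af} (hg : Germ F p g) : g.1.2 ≠ 0 := by
  intro h0
  have := (h.germ_bd hg).2.2
  rw [h0] at this
  linarith

end BasC

theorem Adm.rev (h : Adm F L 2) : Adm (rev F) (2 * L) 2 := by
  refine ⟨fun z m => ?_, fun x x' b => ?_, fun x b b' hb => ?_, fun x b b' hb => ?_⟩
  · refine h.inj2 (x := (z + iv m).1) ?_
    rw [h.rev_right]
    have h1 := h.eqv (z.1, H89.rev F z) (m.1, 22 * m.1 - m.2)
    rw [h.rev_right] at h1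
    have h2 : ((z.1, H89.rev F z) : E) + iv (m.1, 22 * m.1 - m.2) =
        ((z + iv m).1, H89.rev F z + 22 * (m.1 : ℝ) - (m.2 : ℝ)) := by
      refine Prod.ext rfl ?_
      simp only [iv, Prod.snd_add]
      push_cast
      ring
    rw [← h2, h1]
    simp only [iv, Prod.snd_add]
    push_cast
    ring
  · have h1 := BasC.abs_le_two h x (H89.rev F (x, b)) (H89.rev F (x', b))
    have h2 : F (x, H89.rev F (x, b)) = b := h.rev_right (x, b)
    have h3 : F (x', H89.rev F (x', b)) = b := h.rev_right (x', b)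
    have h4 := h.lipx x' x (H89.rev F (x', b))
    rw [h3, abs_sub_comm x' x] at h4
    rw [h2] at h1
    linarith
  · have h1 := h.hi x _ _ (BasC.rev_anti h x hb)
    have h2 : F (x, H89.rev F (x, b)) = b := h.rev_right (x, b)
    have h3 : F (x, H89.rev F (x, b')) = b' := h.rev_right (x, b')
    rwa [h2, h3] at h1
  · have h1 := h.lo x _ _ (BasC.rev_anti h x hb)
    have h2 : F (x, H89.rev F (x, b)) = b := h.rev_right (x, b)
    have h3 : F (x, H89.rev F (x, b')) = b' := h.rev_right (x, b')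
    rwa [h2, h3] at h1

theorem Adm.rev_rev (h : Adm F L 2) : H89.rev (H89.rev F) = F := by
  funext z
  refine h.rev.inj2 (x := z.1) ?_
  rw [h.rev.rev_right, h.rev_left]

theorem Adm.sg_lip (h : Adm F L 2) (p q : E) : ‖sg F p - sg F q‖ ≤ (L + 2) * ‖p - q‖ := by
  rw [Prod.norm_def (sg F p - sg F q)]
  refine max_le ?_ (h.lip p q)
  have h1 : ‖(sg F p - sg F q).1‖ ≤ ‖p - q‖ := norm_fst_le (p - q)
  have h2 := h.le_L
  nlinarith [norm_nonneg (p - q)]

theorem Adm.sg_iv {κ : ℝ} (h : Adm F L κ) (z : E) (m : ℤ × ℤ) :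
    sg F (z + iv m) = sg F z + iv (m.1, 22 * m.1 - m.2) := by
  refine Prod.ext rfl ?_
  show F (z + iv m) = F z + ((22 * m.1 - m.2 : ℤ) : ℝ)
  rw [h.eqv]
  push_cast
  ring

theorem Adm.T_rev (h : Adm F L 2) (z : E) : T (H89.rev F) (T F z).swap = z.swap :=
  Prod.ext (h.rev_left z) rfl

theorem Adm.close_rev {F' : E → ℝ} {L' η : ℝ} (h : Adm F L 2) (h' : Adm F' L' 2)
    (hc : Close F F' η) : Close (H89.rev F) (H89.rev F') (2 * η) := by
  intro z
  have h1 := BasC.abs_le_two h z.1 (H89.rev F' z) (H89.rev F z)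
  have h2 := hc (z.1, H89.rev F' z)
  rw [h'.rev_right, abs_sub_comm] at h2
  rw [h.rev_right] at h1
  linarith

/-- Where `F'` equals `F` the reversed maps agree. -/
theorem Adm.rev_eq {F' : E → ℝ} {L' : ℝ} (h : Adm F L 2) (h' : Adm F' L' 2) {z : E}
    (he : F' z = F z) : H89.rev F' (sg F z) = H89.rev F (sg F z) := by
  show H89.rev F' (z.1, F z) = H89.rev F (z.1, F z)
  rw [h.rev_left, ← he, h'.rev_left]

theorem Adm.linR_rev (h : Adm F L 2) {ρ : ℝ} (hl : LinR F ρ) : LinR (H89.rev F) ρ := by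
  intro z hz
  refine h.inj2 (x := z.1) ?_
  rw [h.rev_right, hl (z.1, 22 * z.1 - z.2) hz]
  ring

theorem norm_pt_neg (v : ℤ → ℝ) (i : ℤ) : ‖pt (fun j => v (-j)) i‖ = ‖pt v (1 - i)‖ := by
  simp only [pt, Prod.norm_def]
  rw [max_comm, show -(i - 1) = 1 - i by ring, show 1 - i - 1 = -i by ring]

theorem Orb.pt_neg {x : ℤ → ℝ} (hx : Orb F x) (i : ℤ) :
    pt (fun j => x (-j)) i = sg F (pt x (-i)) := by
  refine Prod.ext rfl ?_
  show x (-(i - 1)) = F (pt x (-i))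
  rw [← hx, show -(i - 1) = -i + 1 by ring]

theorem Adm.orb_rev (h : Adm F L 2) {x : ℤ → ℝ} (hx : Orb F x) :
    Orb (H89.rev F) fun j => x (-j) := by
  intro i
  rw [hx.pt_neg]
  refine Eq.trans ?_ (h.rev_left (pt x (-i))).symm
  show x (-(i + 1)) = x (-i - 1)
  rw [show -(i + 1) = -i - 1 by ring]

theorem Adm.aff_rev (h : Adm F L 2) {p : E} {g : Af} (hg : Aff F p g) :
    Aff (H89.rev F) (sg F p) (rva g) := by
  have h0 := BasC.germ_ne h hg.germ
  have hc : Tendsto (sg (H89.rev F)) (𝓝 (sg F p)) (𝓝 p) := by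
    have := (BasC.cont_sg h.rev).tendsto (sg F p)
    rwa [h.sg_sg] at this
  filter_upwards [hc.eventually hg] with w hw
  have h1 : F (sg (H89.rev F) w) = w.2 := h.rev_right w
  rw [h1] at hw
  simp only [ev, lin, sg, rva] at hw ⊢
  field_simp
  linarith

theorem Adm.germ_rev (h : Adm F L 2) {p : E} {g : Af} (hg : Germ F p g) :
    Germ (H89.rev F) (sg F p) (rva g) :=
  map_mem_closure (BasC.cont_sg h) hg fun _ hq => h.aff_rev hq

theorem Adm.sing_rev (h : Adm F L 2) (p : E) : sg F p ∈ Sing (H89.rev F) ↔ p ∈ Sing F := by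
  refine not_congr ⟨fun ⟨g, hg⟩ => ⟨rva g, ?_⟩, fun ⟨g, hg⟩ => ⟨rva g, h.aff_rev hg⟩⟩
  have := h.rev.aff_rev hg
  rwa [h.rev_rev, h.sg_sg] at this

theorem Adm.itin_rev (h : Adm F L 2) {x : ℤ → ℝ} {c : ℤ → E} (hx : Itin F x c) :
    Itin (H89.rev F) (fun j => x (-j)) (rvc c) := by
  refine ⟨h.orb_rev hx.1, fun i => ?_⟩
  obtain ⟨k, hk⟩ := hx.2 (-i)
  rw [hx.1.pt_neg]
  exact ⟨-k / (c (-i)).2, h.germ_rev (g := (c (-i), k)) hk⟩

theorem rvc_rvc {c : ℤ → E} (hb : ∀ i, (c i).2 ≠ 0) : rvc (rvc c) = c := by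
  funext i
  have := hb i
  refine Prod.ext ?_ ?_
  · simp only [rvc, neg_neg]
    field_simp
  · simp only [rvc, neg_neg]
    field_simp

theorem Bd.ne {c : ℤ → E} (hb : Bd L c) (i : ℤ) : (c i).2 ≠ 0 := by
  have := (hb i).2.2
  intro h0
  rw [h0] at this
  linarith

theorem Bd.rvc {c : ℤ → E} (hb : Bd L c) : Bd (2 * L) (rvc c) := by
  intro i
  obtain ⟨h1, h2, h3⟩ := hb (-i)
  have h4 : (c (-i)).2 < 0 := by linarith
  refine ⟨?_, ?_, ?_⟩
  · show |-(c (-i)).1 / (c (-i)).2| ≤ 2 * L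
    rw [abs_div, abs_neg, abs_of_neg h4, div_le_iff₀ (by linarith)]
    nlinarith [abs_nonneg (c (-i)).1]
  · show -2 ≤ 1 / (c (-i)).2
    rw [le_div_iff_of_neg h4]
    linarith
  · show 1 / (c (-i)).2 ≤ -1 / 2
    rw [div_le_iff_of_neg h4]
    linarith

theorem SolOn.rev {c : ℤ → E} (hb : ∀ i, (c i).2 ≠ 0) {v : ℤ → ℝ} {s t : ℤ}
    (hv : SolOn c v s t) : SolOn (rvc c) (fun j => v (-j)) (1 - t) (1 - s) := by
  intro i h1 h2
  have h3 := hv (-i) (by omega) (by omega)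
  have h4 := hb (-i)
  simp only [lin, pt, rvc] at h3 ⊢
  rw [show -(i + 1) = -i - 1 by ring, show -(i - 1) = -i + 1 by ring, h3]
  field_simp
  ring

theorem Sol.rev {c : ℤ → E} (hb : ∀ i, (c i).2 ≠ 0) {v : ℤ → ℝ} (hv : Sol c v) :
    Sol (rvc c) fun j => v (-j) := fun i =>
  SolOn.rev hb (hv.solOn (-i) (1 - i)) i (by omega) (by omega)

theorem Hyp.rev {C l : ℝ} {c : ℤ → E} (hb : ∀ i, (c i).2 ≠ 0) (hh : Hyp C l c) :
    Hyp C l (rvc c) := by
  intro v s t hv i h1 h2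
  have hb' : ∀ i, (rvc c i).2 ≠ 0 := fun i => one_div_ne_zero (hb (-i))
  have h3 := SolOn.rev hb' hv
  rw [rvc_rvc hb] at h3
  have h4 := hh _ _ _ h3 (1 - i) (by omega) (by omega)
  simp only [norm_pt_neg, sub_sub_cancel] at h4
  rw [show 1 - t - (1 - i) = i - t by ring, show 1 - i - (1 - s) = s - i by ring, add_comm] at h4
  exact h4

theorem Stab.rev {C l : ℝ} {v : ℤ → ℝ} (hv : Stab C l v) : Unst C l fun j => v (-j) := by
  intro i j hij
  have := hv (1 - j) (1 - i) (by omega)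
  rw [show 1 - j - (1 - i) = i - j by ring] at this
  rwa [norm_pt_neg, norm_pt_neg]

theorem Unst.rev {C l : ℝ} {v : ℤ → ℝ} (hv : Unst C l v) : Stab C l fun j => v (-j) := by
  intro i j hij
  have := hv (1 - j) (1 - i) (by omega)
  rw [show 1 - j - (1 - i) = i - j by ring] at this
  rwa [norm_pt_neg, norm_pt_neg]

theorem Adm.hyp_rev (h : Adm F L 2) {C l : ℝ} (hh : HYP F C l) : HYP (H89.rev F) C l := by
  intro x c hx
  have hb := h.rev.itin_bd hx
  have h1 := h.rev.itin_rev hx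
  rw [h.rev_rev] at h1
  have h2 := Hyp.rev hb.rvc.ne (hh _ _ h1)
  rwa [rvc_rvc hb.ne] at h2

theorem Adm.h2_rev (h : Adm F L 2) (hh : H2 F) : H2 (H89.rev F) := by
  intro x hx i j k hij hjk hi hj hk
  have h1 := h.rev.orb_rev hx
  rw [h.rev_rev] at h1
  have key : ∀ n, pt x n ∈ Sing (H89.rev F) → pt (fun j => x (-j)) (-n) ∈ Sing F := by
    intro n hn
    have := (h.rev.sing_rev (pt x n)).2 hn
    rw [h.rev_rev] at this
    rwa [hx.pt_neg, neg_neg]
  exact hh _ h1 (-k) (-j) (-i) (by omega) (by omega) (key k hk) (key j hj) (key i hi)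

/-- Image of one cell. -/
theorem Adm.cell_rev (h : Adm F L 2) {A : Set E} {g : Af} (h1 : Convex ℝ A) (h2 : IsClosed A)
    (h3 : ∀ p ∈ A, Germ F p g) :
    Convex ℝ (sg F '' A) ∧ IsClosed (sg F '' A) ∧ ∀ p ∈ sg F '' A, Germ (H89.rev F) p (rva g) := by
  refine ⟨?_, ?_, ?_⟩
  · rintro _ ⟨p, hp, rfl⟩ _ ⟨q, hq, rfl⟩ a b ha hb hab
    refine ⟨a • p + b • q, h1 hp hq ha hb hab, Prod.ext rfl ?_⟩
    show F (a • p + b • q) = a * F p + b * F q
    rw [(h3 _ (h1 hp hq ha hb hab)).eq h.cont, (h3 p hp).eq h.cont, (h3 q hq).eq h.cont]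
    simp only [ev, lin, Prod.fst_add, Prod.snd_add, Prod.smul_fst, Prod.smul_snd, smul_eq_mul]
    linear_combination (-g.2) * hab
  · have : sg F '' A = sg (H89.rev F) ⁻¹' A := by
      ext w
      constructor
      · rintro ⟨p, hp, rfl⟩
        rwa [mem_preimage, h.sg_sg]
      · intro hw
        exact ⟨_, hw, h.sg_sg' w⟩
    rw [this]
    exact h2.preimage (BasC.cont_sg h.rev)
  · rintro _ ⟨p, hp, rfl⟩
    exact h.germ_rev (h3 p hp)

/-- The cells of the reversed map are the images of the cells under `sg F`, which is affine and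
injective on each cell: `sg F '' A = A' := {w | sg (rev F) w ∈ A}`. -/
theorem Adm.loc_rev (h : Adm F L 2) {r : ℝ} {N : ℕ} (hl : Loc F r N) :
    Loc (H89.rev F) (r / (2 * L + 2)) N := by
  classical
  have hL := h.le_L
  have hp : 0 < 2 * L + 2 := by linarith
  refine ⟨div_pos hl.1 hp, fun z => ?_⟩
  obtain ⟨S, hS, hc, hcov⟩ := hl.2 (sg (H89.rev F) z)
  refine ⟨S.image fun A => (sg F '' A.1, rva A.2), Finset.card_image_le.trans hS, ?_, ?_⟩
  · intro A' hA'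
    obtain ⟨A, hA, rfl⟩ := Finset.mem_image.1 hA'
    exact h.cell_rev (hc A hA).1 (hc A hA).2.1 (hc A hA).2.2
  · intro p hp'
    have h1 := h.rev.sg_lip p z
    rw [le_div_iff₀ hp] at hp'
    obtain ⟨A, hA, hpA⟩ := hcov (sg (H89.rev F) p) (by linarith)
    exact ⟨_, Finset.mem_image_of_mem _ hA, _, hpA, h.sg_sg' p⟩

theorem Adm.off_rev {F' : E → ℝ} {L' w : ℝ} (h : Adm F L 2) (h' : Adm F' L' 2) (hw : 0 ≤ w)
    (ho : Off F F' w) : Off (H89.rev F) (H89.rev F') ((L + 2) * w) := by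
  intro p hp
  have hL := h.le_L
  have _ := hw
  have h1 := ho (sg (H89.rev F) p) fun q hq => by
    have h2 := hp _ ((h.sing_rev q).2 hq)
    have h3 := h.sg_lip (sg (H89.rev F) p) q
    rw [h.sg_sg'] at h3
    exact lt_of_mul_lt_mul_left (h2.trans_le h3) (by linarith)
  filter_upwards [((BasC.cont_sg h.rev).tendsto p).eventually h1] with z hz
  have := h.rev_eq h' hz
  rwa [h.sg_sg'] at this

/-- Edges of the reversed map: images of the nonempty intersections of edges with cells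
(`Loc.cover_compact`). -/
theorem Adm.edg_rev (h : Adm F L 2) {r : ℝ} {N : ℕ} (hl : Loc F r N) {Ed : Set (E × Set E)}
    (he : Edg F Ed) : ∃ Ed', Edg (H89.rev F) Ed' ∧ ∀ e' ∈ Ed', ∃ e ∈ Ed, ∃ g : Af,
      e'.1 = (e.1.1, lin g.1 e.1) ∧ ∀ q' ∈ e'.2, ∃ q ∈ e.2, Germ F q g ∧ q' = sg F q := by
  have hS : ∀ e : E × Set E, ∃ S : Finset (Set E × Af), e ∈ Ed →
      (∀ A ∈ S, Convex ℝ A.1 ∧ IsClosed A.1 ∧ ∀ p ∈ A.1, Germ F p A.2) ∧
        ∀ p ∈ e.2, ∃ A ∈ S, p ∈ A.1 := by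
    intro e
    by_cases hmem : e ∈ Ed
    · obtain ⟨S, hS⟩ := hl.cover_compact (he.cpt e hmem)
      exact ⟨S, fun _ => hS⟩
    · exact ⟨∅, fun h' => absurd h' hmem⟩
  choose S hS using hS
  refine ⟨{e' | ∃ e ∈ Ed, ∃ A ∈ S e, (e.2 ∩ A.1).Nonempty ∧
    e' = ((e.1.1, lin A.2.1 e.1), sg F '' (e.2 ∩ A.1))}, ⟨?_, ?_, ?_, ?_, ?_, ?_⟩, ?_⟩
  · refine (he.fin.biUnion fun e _ => (S e).finite_toSet.image fun A : Set E × Af =>
      (((e.1.1, lin A.2.1 e.1), sg F '' (e.2 ∩ A.1)) : E × Set E)).subset ?_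
    rintro _ ⟨e, hmem, A, hA, -, rfl⟩
    exact mem_biUnion hmem ⟨A, hA, rfl⟩
  · rintro _ ⟨e, hmem, A, hA, ⟨q, hq⟩, rfl⟩ h0
    have h1 := BasC.germ_ne h (((hS e hmem).1 A hA).2.2 q hq.2)
    have h2 : e.1.1 = 0 := congrArg Prod.fst h0
    have h3 : A.2.1.1 * e.1.1 + A.2.1.2 * e.1.2 = 0 := congrArg Prod.snd h0
    rw [h2, mul_zero, zero_add] at h3
    exact he.ne e hmem (Prod.ext h2 ((mul_eq_zero.1 h3).resolve_left h1))
  · rintro _ ⟨e, hmem, A, hA, -, rfl⟩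
    exact ((he.cpt e hmem).inter_right ((hS e hmem).1 A hA).2.1).image (BasC.cont_sg h)
  · rintro _ ⟨e, hmem, A, hA, -, rfl⟩ _ ⟨p, hp, rfl⟩ _ ⟨q, hq, rfl⟩
    have h1 := he.line e hmem p hp.1 q hq.1
    have h2 := (((hS e hmem).1 A hA).2.2 p hp.2).eq h.cont
    have h3 := (((hS e hmem).1 A hA).2.2 q hq.2).eq h.cont
    simp only [dt, sg, Prod.fst_sub, Prod.snd_sub, h2, h3, ev, lin] at h1 ⊢
    linear_combination A.2.1.2 * h1
  · rintro _ ⟨e, hmem, A, hA, -, rfl⟩ _ ⟨p, hp, rfl⟩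
    exact (h.sing_rev p).2 (he.sub e hmem hp.1)
  · intro p hp
    rw [← h.sg_sg' p] at hp
    obtain ⟨e, hmem, m, hm⟩ := he.cov _ ((h.sing_rev _).1 hp)
    obtain ⟨A, hA, hpA⟩ := (hS e hmem).2 _ hm
    refine ⟨_, ⟨e, hmem, A, hA, ⟨_, hm, hpA⟩, rfl⟩, (m.1, 22 * m.1 - m.2), _, ⟨hm, hpA⟩, ?_⟩
    have := h.sg_iv (sg (H89.rev F) p - iv m) m
    rw [sub_add_cancel, h.sg_sg'] at this
    exact eq_sub_of_add_eq this.symm
  · rintro _ ⟨e, hmem, A, hA, -, rfl⟩
    refine ⟨e, hmem, A.2, rfl, ?_⟩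
    rintro _ ⟨q, hq, rfl⟩
    exact ⟨q, hq.1, ((hS e hmem).1 A hA).2.2 q hq.2, rfl⟩

end Pool.Agent.MP_369096_an.H89
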