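import Pool.Agent.MP_369096_an.H89.Coc1

/-!
TASK Base2. Structure of the first map `Fb G (x,y) = G x - y`. Auxiliary lemmas: namespace `H89.Base2`.
The strips `[b j + k, b (j+1) + k] × ℝ` (`j < 6`, `k : ℤ`) cover the plane; on such a strip `Fb G` is the affine function
`((sl j, -1), G (b j + k) - sl j (b j + k))`.
-/

set_option autoImplicit false

open Set Filter Topology

namespace Pool.Agent.MP_369096_an.H89

variable {G : ℝ → ℝ} {b sl : ℕ → ℝ}

namespace Base2

theorem strip0 (b : ℕ → ℝ) {y : ℝ} (h0 : b 0 ≤ y) (h6 : y ≤ b 6) :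
    ∃ j < 6, y ∈ Icc (b j) (b (j + 1)) := by
  rcases le_total y (b 1) with h1 | h1
  · exact ⟨0, by norm_num, h0, h1⟩
  rcases le_total y (b 2) with h2 | h2
  · exact ⟨1, by norm_num, h1, h2⟩
  rcases le_total y (b 3) with h3 | h3
  · exact ⟨2, by norm_num, h2, h3⟩
  rcases le_total y (b 4) with h4 | h4
  · exact ⟨3, by norm_num, h3, h4⟩
  rcases le_total y (b 5) with h5 | h5
  · exact ⟨4, by norm_num, h4, h5⟩
  exact ⟨5, by norm_num, h5, h6⟩

/-- Lipschitz bound on an interval. -/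
def LipI (G : ℝ → ℝ) (L a c : ℝ) : Prop :=
  ∀ x y, a ≤ x → x ≤ y → y ≤ c → |G x - G y| ≤ L * (y - x)

theorem LipI.trans {L a m c : ℝ} (h1 : LipI G L a m) (h2 : LipI G L m c) : LipI G L a c := by
  intro x y hx hxy hy
  rcases le_total y m with hym | hym
  · exact h1 x y hx hxy hym
  rcases le_total m x with hmx | hmx
  · exact h2 x y hmx hxy hy
  have e1 := h1 x m hx hmx le_rfl
  have e2 := h2 m y le_rfl hym hy
  have := abs_sub_le (G x) (G m) (G y)
  linarith

/-- The cell over a strip. -/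
def cell (G : ℝ → ℝ) (b sl : ℕ → ℝ) (a : ℕ × ℤ) : Set E × Af :=
  (Icc (b a.1 + a.2) (b (a.1 + 1) + a.2) ×ˢ univ,
    ((sl a.1, -1), G (b a.1 + a.2) - sl a.1 * (b a.1 + a.2)))

theorem grow {v s : ℕ → ℝ} (hs : ∀ n, 20 ≤ |s n|) (hv : ∀ n, v (n + 2) = s n * v (n + 1) - v n)
    (h0 : v 0 = 0) (h1 : |v 1| = 1) (n : ℕ) : |v n| ≤ |v (n + 1)| ∧ 1 ≤ |v (n + 1)| := by
  induction n with
  | zero => simp [h0, h1]
  | succ n ih =>
    have e : |s n * v (n + 1)| ≤ |v (n + 2)| + |v n| := by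
      have : s n * v (n + 1) = v (n + 2) + v n := by rw [hv]; ring
      rw [this]; exact abs_add_le _ _
    rw [abs_mul] at e
    have := mul_le_mul_of_nonneg_right (hs n) (abs_nonneg (v (n + 1)))
    constructor <;> linarith [ih.1, ih.2]

end Base2

open Base2

theorem BaseSpec.strip (h : BaseSpec G b sl) (x : ℝ) :
    ∃ j < 6, ∃ k : ℤ, x ∈ Icc (b j + k) (b (j + 1) + k) := by
  have h1 := Int.floor_le (x - b 0)
  have h2 := Int.lt_floor_add_one (x - b 0)
  obtain ⟨j, hj, h3, h4⟩ := strip0 b (y := x - ⌊x - b 0⌋) (by linarith) (by rw [h.wrap]; linarith)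
  exact ⟨j, hj, ⌊x - b 0⌋, by linarith, by linarith⟩

theorem BaseSpec.aff' (h : BaseSpec G b sl) {j : ℕ} (hj : j < 6) (k : ℤ) {x : ℝ}
    (hx : x ∈ Icc (b j + k) (b (j + 1) + k)) : G x = G (b j + k) + sl j * (x - (b j + k)) := by
  have h1 := h.aff j hj (x - k) ⟨by linarith [hx.1], by linarith [hx.2]⟩
  have h2 := h.per (x - k) k
  rw [sub_add_cancel] at h2
  rw [h2, h1, h.per]
  ring

namespace Base2

theorem lip_strip (h : BaseSpec G b sl) {j : ℕ} (hj : j < 6) (k : ℤ) :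
    LipI G (∑ i ∈ Finset.range 6, |sl i|) (b j + k) (b (j + 1) + k) := by
  intro x y hx hxy hy
  rw [h.aff' hj k ⟨hx, hxy.trans hy⟩, h.aff' hj k ⟨hx.trans hxy, hy⟩]
  have e : G (b j + k) + sl j * (x - (b j + k)) - (G (b j + k) + sl j * (y - (b j + k))) =
      -(sl j * (y - x)) := by ring
  rw [e, abs_neg, abs_mul, abs_of_nonneg (sub_nonneg.2 hxy)]
  exact mul_le_mul_of_nonneg_right
    (Finset.single_le_sum (f := fun i => |sl i|) (fun _ _ => abs_nonneg _) (Finset.mem_range.2 hj))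
    (sub_nonneg.2 hxy)

theorem lip_unit (h : BaseSpec G b sl) (k : ℤ) :
    LipI G (∑ i ∈ Finset.range 6, |sl i|) (b 0 + k) (b 0 + k + 1) := by
  have := (((((lip_strip h (j := 0) (by norm_num) k).trans
    (lip_strip h (j := 1) (by norm_num) k)).trans (lip_strip h (j := 2) (by norm_num) k)).trans
    (lip_strip h (j := 3) (by norm_num) k)).trans (lip_strip h (j := 4) (by norm_num) k)).trans
    (lip_strip h (j := 5) (by norm_num) k)
  rwa [show b (5 + 1) + k = b 0 + k + 1 by rw [show 5 + 1 = 6 from rfl, h.wrap]; ring] at this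

theorem lip_long (h : BaseSpec G b sl) (k : ℤ) (n : ℕ) :
    LipI G (∑ i ∈ Finset.range 6, |sl i|) (b 0 + k) (b 0 + k + (n + 1)) := by
  induction n with
  | zero => simpa using lip_unit h k
  | succ n ih =>
    have := lip_unit h (k + (n + 1))
    push_cast at this ⊢
    refine ih.trans ?_
    convert this using 1 <;> ring

theorem lip_le (h : BaseSpec G b sl) {x y : ℝ} (hxy : x ≤ y) :
    |G x - G y| ≤ (∑ i ∈ Finset.range 6, |sl i|) * (y - x) := by
  obtain ⟨n, hn⟩ := exists_nat_ge (y - x)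
  have h1 := Int.floor_le (x - b 0)
  have h2 := Int.lt_floor_add_one (x - b 0)
  exact lip_long h ⌊x - b 0⌋ n x y (by linarith) hxy (by linarith)

theorem cell_ev (h : BaseSpec G b sl) {a : ℕ × ℤ} (ha : a.1 < 6) :
    ∀ p ∈ (cell G b sl a).1, Fb G p = ev (cell G b sl a).2 p := by
  intro p hp
  simp only [Fb, ev, lin, cell]
  rw [h.aff' ha a.2 hp.1]
  ring

theorem cell_ok (h : BaseSpec G b sl) {a : ℕ × ℤ} (ha : a.1 < 6) :
    Convex ℝ (cell G b sl a).1 ∧ IsClosed (cell G b sl a).1 ∧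
      ∀ p ∈ (cell G b sl a).1, Germ (Fb G) p (cell G b sl a).2 := by
  have hc : Convex ℝ (cell G b sl a).1 := (convex_Icc _ _).prod convex_univ
  refine ⟨hc, isClosed_Icc.prod isClosed_univ, germ_of_convex hc ?_ (cell_ev h ha)⟩
  simp only [cell, interior_prod_eq, interior_Icc, interior_univ]
  exact (nonempty_Ioo.2 (by linarith [h.inc a.1 ha])).prod univ_nonempty

theorem cells (h : BaseSpec G b sl) (z : E) : ∃ S : Finset (Set E × Af), S.card ≤ 7 ∧
    (∀ A ∈ S, ∃ a : ℕ × ℤ, a.1 < 6 ∧ A = cell G b sl a) ∧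
    ∀ p : E, ‖p - z‖ ≤ 1 / 4 → ∃ A ∈ S, p ∈ A.1 := by
  classical
  obtain ⟨k, hk⟩ : ∃ k : ℤ, |z.1 - k| ≤ 1 / 2 := ⟨round z.1, abs_sub_round z.1⟩
  refine ⟨(insert (5, k - 1) ((Finset.range 6).image fun j => (j, k))).image (cell G b sl),
    ?_, ?_, ?_⟩
  · refine Finset.card_image_le.trans ((Finset.card_insert_le _ _).trans ?_)
    have := Finset.card_image_le (s := Finset.range 6) (f := fun j : ℕ => (j, k))
    rw [Finset.card_range] at this
    omega
  · intro A hA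
    obtain ⟨a, ha, rfl⟩ := Finset.mem_image.1 hA
    refine ⟨a, ?_, rfl⟩
    rcases Finset.mem_insert.1 ha with rfl | ha
    · norm_num
    · obtain ⟨j, hj, rfl⟩ := Finset.mem_image.1 ha
      exact Finset.mem_range.1 hj
  · intro p hp
    have h1 : |p.1 - z.1| ≤ 1 / 4 := (norm_fst_le (p - z)).trans hp
    rw [abs_le] at h1 hk
    rcases le_total p.1 (b 0 + k) with h2 | h2
    · refine ⟨_, Finset.mem_image_of_mem _ (Finset.mem_insert_self _ _), ⟨?_, ?_⟩, mem_univ _⟩
      · have := h.hi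
        push_cast
        linarith
      · rw [show (5, k - 1).1 + 1 = 6 from rfl, h.wrap]
        push_cast
        linarith
    · obtain ⟨j, hj, h3, h4⟩ := strip0 b (y := p.1 - k) (by linarith)
        (by rw [h.wrap]; linarith [h.lo])
      refine ⟨cell G b sl (j, k), Finset.mem_image_of_mem _ (Finset.mem_insert_of_mem
        (Finset.mem_image_of_mem _ (Finset.mem_range.2 hj))), ⟨?_, ?_⟩, mem_univ _⟩
      · show b j + k ≤ p.1
        linarith
      · show p.1 ≤ b (j + 1) + k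
        linarith

theorem sing_fst (h : BaseSpec G b sl) {p : E} (hp : p ∈ Sing (Fb G)) :
    ∃ j < 6, ∃ k : ℤ, p.1 = b j + k := by
  obtain ⟨j, hj, k, h1, h2⟩ := h.strip p.1
  rcases h1.eq_or_lt with h1 | h1
  · exact ⟨j, hj, k, h1.symm⟩
  rcases h2.eq_or_lt with h2 | h2
  · by_cases h5 : j + 1 < 6
    · exact ⟨j + 1, h5, k, h2⟩
    · refine ⟨0, by norm_num, k + 1, ?_⟩
      rw [h2, show j + 1 = 6 by omega, h.wrap]
      push_cast
      ring
  refine absurd ⟨(cell G b sl (j, k)).2, ?_⟩ hp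
  have : ∀ᶠ z : E in 𝓝 p, z.1 ∈ Ioo (b j + k) (b (j + 1) + k) :=
    continuous_fst.continuousAt.eventually_mem (Ioo_mem_nhds h1 h2)
  filter_upwards [this] with z hz
  exact cell_ev h (a := (j, k)) hj z ⟨Ioo_subset_Icc_self hz, mem_univ _⟩

end Base2

theorem BaseSpec.adm (h : BaseSpec G b sl) : ∃ L, Adm (Fb G) L 1 := by
  refine ⟨∑ i ∈ Finset.range 6, |sl i|, fun z m => ?_, fun x x' y => ?_, fun x y y' _ => ?_,
    fun x y y' _ => ?_⟩
  · simp only [Fb, iv, Prod.fst_add, Prod.snd_add, h.per]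
    ring
  · simp only [Fb, sub_sub_sub_cancel_right]
    rcases le_total x x' with hx | hx
    · rw [abs_sub_comm x, abs_of_nonneg (sub_nonneg.2 hx)]
      exact lip_le h hx
    · rw [abs_sub_comm, abs_of_nonneg (sub_nonneg.2 hx)]
      exact lip_le h hx
  · simp only [Fb]; linarith
  · simp only [Fb]; linarith

theorem BaseSpec.linR (h : BaseSpec G b sl) : LinR (Fb G) (1 / 10) := by
  intro z hz
  have h1 := Int.floor_le z.1
  have h2 := Int.lt_floor_add_one z.1
  have h3 := hz ⌊z.1⌋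
  have h4 := hz (⌊z.1⌋ + 1)
  rw [abs_of_nonneg (by linarith)] at h3
  push_cast at h4
  rw [abs_of_nonpos (by linarith)] at h4
  have h5 := h.lin (z.1 - ⌊z.1⌋) ⟨by linarith [h.hi], by rw [h.wrap]; linarith [h.lo]⟩
  have h6 := h.per (z.1 - ⌊z.1⌋) ⌊z.1⌋
  rw [sub_add_cancel, h5] at h6
  simp only [Fb, h6]
  ring

/-- An interval of length `1/2` meets at most one cluster `[b 0 + k, b 5 + k]`, so at most `7` strips. -/
theorem BaseSpec.loc (h : BaseSpec G b sl) : Loc (Fb G) (1 / 4) 7 := by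
  refine ⟨by norm_num, fun z => ?_⟩
  obtain ⟨S, h1, h2, h3⟩ := cells h z
  refine ⟨S, h1, fun A hA => ?_, h3⟩
  obtain ⟨a, ha, rfl⟩ := h2 A hA
  exact cell_ok h ha

theorem BaseSpec.germ (h : BaseSpec G b sl) {p : E} {g : Af} (hg : Germ (Fb G) p g) :
    ∃ j < 6, ∃ k : ℤ, g = ((sl j, -1), G (b j + k) - sl j * (b j + k)) := by
  obtain ⟨S, -, h2, h3⟩ := cells h p
  obtain ⟨A, hA, -, rfl⟩ := germ_complete (F := Fb G) (S := S) (fun A hA => by
    obtain ⟨a, ha, rfl⟩ := h2 A hA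
    exact (cell_ok h ha).2) h3 (p := p) (by simp) hg
  obtain ⟨a, ha, rfl⟩ := h2 A hA
  exact ⟨a.1, ha, a.2, rfl⟩

theorem BaseSpec.rev (h : BaseSpec G b sl) : H89.rev (Fb G) = Fb G := by
  obtain ⟨L, hL⟩ := h.adm
  funext z
  have := (hL.mono le_rfl one_le_two).rev_left (z.1, G z.1 - z.2)
  simpa [Fb] using this

theorem Base2.itin_big (h : BaseSpec G b sl) {x : ℤ → ℝ} {c : ℤ → E} (hx : Itin (Fb G) x c)
    (i : ℤ) : 20 ≤ |(c i).1| ∧ (c i).2 = -1 := by
  obtain ⟨t, ht⟩ := hx.2 i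
  obtain ⟨j, hj, k, hk⟩ := h.germ ht
  have : c i = (sl j, -1) := congrArg Prod.fst hk
  rw [this]
  exact ⟨h.big j hj, rfl⟩

theorem BaseSpec.hyp (h : BaseSpec G b sl) : HYP (Fb G) 3 3 :=
  fun _ _ hx => hyp_big (itin_big h hx)

/-- Edges `((0,1), ({b j} ×ˢ [0,1]) ∩ Sing)`. For a solution with `v 0 = 0`, `v (-1) = 1` the absolute values grow in both directions
(`|v (i+1)| ≥ 20 |v i| - |v (i-1)|`), so `‖pt v j‖ ≥ 1`. -/
theorem BaseSpec.edg (h : BaseSpec G b sl) (hg : BaseGen G b sl) :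
    ∃ Ed A Ln, Edg (Fb G) Ed ∧ GenD (Fb G) Ed A Ln ∧ ET (Fb G) Ed 3 := by
  obtain ⟨A, Ln, hA, hL, g1, g2, g3, g4⟩ := hg
  obtain ⟨L, hadm⟩ := h.adm
  refine ⟨(fun j : ℕ => (((0 : ℝ), (1 : ℝ)), ({b j} ×ˢ Icc (0 : ℝ) 1) ∩ Sing (Fb G))) '' Iio 6,
    A, Ln, ⟨(finite_Iio 6).image _, ?_, ?_, ?_, ?_, ?_⟩, ⟨hA, hL, ?_, ?_, ?_, g3, g4⟩, ?_⟩
  · rintro e ⟨j, -, rfl⟩
    simp
  · rintro e ⟨j, -, rfl⟩
    exact (isCompact_singleton.prod isCompact_Icc).inter_right (isClosed_sing _)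
  · rintro e ⟨j, -, rfl⟩ p hp q hq
    have h1 : p.1 = b j := hp.1.1
    have h2 : q.1 = b j := hq.1.1
    simp [dt, h1, h2]
  · rintro e ⟨j, -, rfl⟩
    exact inter_subset_right
  · intro p hp
    obtain ⟨j, hj, k, hk⟩ := sing_fst h hp
    refine ⟨_, ⟨j, hj, rfl⟩, (k, ⌊p.2⌋), ⟨?_, ?_, ?_⟩, ?_⟩
    · simp [iv, hk]
    · simp [iv]
    · simpa [iv] using (Int.fract_lt_one p.2).le
    · rw [← hadm.sing_iv _ (k, ⌊p.2⌋), sub_add_cancel]
      exact hp
  · intro p g hpg
    obtain ⟨j, hj, k, rfl⟩ := h.germ hpg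
    exact g1 j hj k
  · rintro e ⟨j, -, rfl⟩
    rfl
  · rintro e ⟨j, hj, rfl⟩ p hp m
    have h1 : p.1 = b j := hp.1.1
    have := g2 j hj m.1
    simpa [lineAt, iv, h1] using this
  · rintro e ⟨j, -, rfl⟩ x c v m hx - hv h0 i
    have v0 : v 0 = 0 := congrArg Prod.fst h0
    have v1 : v (0 - 1) = 1 := congrArg Prod.snd h0
    have rc : ∀ i, v (i + 1) = (c i).1 * v i - v (i - 1) := fun i => by
      rw [hv i]
      simp only [H89.lin, pt, (itin_big h hx i).2]
      ring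
    have hn : ‖pt v 0‖ = 1 := by rw [h0]; simp
    have key : 1 ≤ ‖pt v i‖ := by
      rcases le_or_gt i 0 with hi | hi
      · obtain ⟨n, rfl⟩ : ∃ n : ℕ, i = -n := ⟨(-i).toNat, by omega⟩
        have := (grow (v := fun n : ℕ => v (-n)) (s := fun n : ℕ => (c (-(n + 1))).1)
          (fun n => (itin_big h hx _).1) (fun n => by
            have := rc (-(n + 1))
            push_cast
            rw [show -((n : ℤ) + 1) + 1 = -n by ring,
              show -((n : ℤ) + 1) - 1 = -(n + 2) by ring] at this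
            linarith) (by simpa using v0) (by
            have : v (-((1 : ℕ) : ℤ)) = 1 := by simpa using v1
            rw [this]; simp) n).2
        refine this.trans ?_
        have e : v (-((n + 1 : ℕ) : ℤ)) = (pt v (-n)).2 := by
          simp only [pt]; congr 1; push_cast; ring
        rw [e]
        exact norm_snd_le (pt v (-n))
      · obtain ⟨n, rfl⟩ : ∃ n : ℕ, i = ((n + 1 : ℕ) : ℤ) := ⟨(i - 1).toNat, by omega⟩
        have := (grow (v := fun n : ℕ => v n) (s := fun n : ℕ => (c (n + 1)).1)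
          (fun n => (itin_big h hx _).1) (fun n => by
            have := rc (n + 1)
            push_cast
            rw [show (n : ℤ) + 1 + 1 = n + 2 by ring, show (n : ℤ) + 1 - 1 = n by ring] at this
            exact this) (by simpa using v0) (by
            have := rc 0
            rw [v0, v1] at this
            have e : v ((1 : ℕ) : ℤ) = -1 := by simpa using this
            rw [e]; simp) n).2
        exact this.trans (norm_fst_le (pt v ((n + 1 : ℕ) : ℤ)))
    linarith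

end Pool.Agent.MP_369096_an.H89
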