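import Pool.Agent.MP_369096_an.H89.Coc1

/-!
TASK Coc2. Hyperbolic cocycles, part 2: stable and unstable solutions, modification on a window,
polynomial families. Write `|v|_i` for `‖pt v i‖`. Auxiliary lemmas go in namespace `H89.Coc2`.
-/

set_option autoImplicit false

open Set Filter Topology

namespace Pool.Agent.MP_369096_an.H89

open Coc1

namespace Coc2

theorem abs_dt_comm (u v : E) : |dt u v| = |dt v u| := by
  rw [← abs_neg]; congr 1; simp only [dt]; ring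

theorem small_aux {P Q : E} {D : ℝ} (hD : 1 ≤ D) (h : |dt Q P| ≤ D) (hPQ : ‖Q‖ ≤ ‖P‖) :
    ∃ κ : ℝ, |κ| ≤ 1 ∧ ‖κ • P + Q‖ ≤ D := by
  by_cases h1 : ‖P‖ ≤ 1
  · exact ⟨0, by simp, by rw [zero_smul, zero_add]; linarith⟩
  push Not at h1
  have h0 : 0 < ‖P‖ := one_pos.trans h1
  obtain ⟨κ, k1, k2⟩ := exists_decomp P Q (norm_pos_iff.1 h0)
  refine ⟨-κ, ?_, ?_⟩
  · rw [norm_smul, Real.norm_eq_abs] at k1
    rw [abs_neg]
    exact le_of_mul_le_mul_right (by linarith) h0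
  · rw [neg_smul, neg_add_eq_sub]
    have := norm_nonneg (Q - κ • P)
    nlinarith

theorem small_vec {P Q : E} {D : ℝ} (hD : 1 ≤ D) (h : |dt P Q| ≤ D) :
    ∃ w : E, ‖w‖ = 1 ∧ ‖w.1 • P + w.2 • Q‖ ≤ D := by
  rcases le_total ‖Q‖ ‖P‖ with c | c
  · obtain ⟨κ, k1, k2⟩ := small_aux hD (by rwa [abs_dt_comm]) c
    refine ⟨(κ, 1), ?_, by rwa [one_smul]⟩
    rw [Prod.norm_def, norm_one]
    exact max_eq_right k1
  · obtain ⟨κ, k1, k2⟩ := small_aux hD h c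
    refine ⟨(1, κ), ?_, by rwa [one_smul, add_comm]⟩
    rw [Prod.norm_def, norm_one]
    exact max_eq_left k1

theorem dt_le_pow {L : ℝ} {h : ℤ → E} (hb : Bd L h) {v w : ℤ → ℝ} (hv : Sol h v) (hw : Sol h w)
    (h0 : |dt (pt v 0) (pt w 0)| ≤ 1) (n : ℕ) : |dt (pt v n) (pt w n)| ≤ 2 ^ n := by
  induction n with
  | zero => simpa using h0
  | succ n ih =>
    push_cast
    rw [pt_succ (hv n), pt_succ (hw n), dt_TL, abs_mul, abs_neg, pow_succ, mul_comm ((2 : ℝ) ^ n)]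
    have : |(h n).2| ≤ 2 := abs_le.2 ⟨(hb n).2.1, by linarith [(hb n).2.2]⟩
    gcongr

theorem ne_of_sol {L : ℝ} {h : ℤ → E} (hb : Bd L h) {v : ℤ → ℝ} (hv : Sol h v) {i : ℤ}
    (hi : pt v i ≠ 0) (j : ℤ) : pt v j ≠ 0 := by
  intro hj
  have := (hv.solOn (min i j) (max i j)).norm_le hb (min_le_right _ _) (le_max_right _ _)
    (min_le_left _ _) (le_max_left _ _)
  rw [hj, norm_zero, mul_zero] at this
  exact hi (norm_le_zero_iff.1 this)

theorem coll_gen {L C α α0 : ℝ} {h : ℤ → E} (hb : Bd L h) {v u s : ℤ → ℝ} {a b i j : ℤ}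
    (hi : a ≤ i) (hi' : i ≤ b) (hj : a ≤ j) (hj' : j ≤ b) (hv : SolOn h v a b) (hu : Sol h u)
    (hs : Sol h s) (hα : 0 < α) (hα0 : 0 < α0) (hC : 0 ≤ C) (u0 : pt u j ≠ 0) (s0 : pt s i ≠ 0)
    (h1 : α0 * (‖pt u j‖ * ‖pt s j‖) ≤ |dt (pt u j) (pt s j)|) (h2 : ‖pt u i‖ ≤ C * ‖pt u j‖)
    (h3 : α * (‖pt v i‖ * ‖pt s i‖) ≤ |dt (pt v i) (pt s i)|) :
    ‖pt v i‖ ≤ (4 * C / (α0 * α) + 1) * ‖pt v j‖ := by
  have he := SolOn.unique hb.ne (sol_comb hv hv (dt (pt u i) (pt s i)) 0)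
    (sol_comb (hu.solOn a b) (hs.solOn a b) (dt (pt v i) (pt s i)) (dt (pt u i) (pt v i))) hi hi'
    (by rw [pt_comb, pt_comb, zero_smul, add_zero, dt_id]) hj hj'
  rw [pt_comb, pt_comb, zero_smul, add_zero] at he
  have e : dt (pt u i) (pt s i) * dt (pt v j) (pt s j) =
      dt (pt v i) (pt s i) * dt (pt u j) (pt s j) := by
    have e1 := congrArg Prod.fst he
    have e2 := congrArg Prod.snd he
    simp only [Prod.smul_fst, Prod.smul_snd, Prod.fst_add, Prod.snd_add, smul_eq_mul] at e1 e2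
    generalize dt (pt u i) (pt s i) = D at e1 e2 ⊢
    generalize dt (pt v i) (pt s i) = A at e1 e2 ⊢
    generalize dt (pt u i) (pt v i) = B at e1 e2 ⊢
    simp only [dt]
    linear_combination (pt s j).2 * e1 - (pt s j).1 * e2
  have p1 : 0 < ‖pt u j‖ := norm_pos_iff.2 u0
  have p2 : 0 < ‖pt s i‖ := norm_pos_iff.2 s0
  have p3 : 0 < ‖pt s j‖ := norm_pos_iff.2 (ne_of_sol hb hs s0 j)
  have a1 := abs_dt_le (pt u i) (pt s i)
  have a2 := abs_dt_le (pt v j) (pt s j)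
  have key : α * (‖pt v i‖ * ‖pt s i‖) * (α0 * (‖pt u j‖ * ‖pt s j‖)) ≤
      2 * (C * ‖pt u j‖) * ‖pt s i‖ * (2 * ‖pt v j‖ * ‖pt s j‖) := by
    calc _ ≤ |dt (pt v i) (pt s i)| * |dt (pt u j) (pt s j)| := by gcongr
      _ = |dt (pt u i) (pt s i)| * |dt (pt v j) (pt s j)| := by rw [← abs_mul, ← abs_mul, e]
      _ ≤ 2 * ‖pt u i‖ * ‖pt s i‖ * (2 * ‖pt v j‖ * ‖pt s j‖) := by gcongr
      _ ≤ _ := by gcongr
  have k2 : ‖pt v i‖ * (α0 * α) ≤ 4 * C * ‖pt v j‖ :=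
    le_of_mul_le_mul_right (by linarith) (mul_pos (mul_pos p1 p2) p3)
  have k3 : ‖pt v i‖ ≤ 4 * C / (α0 * α) * ‖pt v j‖ := by
    rw [div_mul_eq_mul_div, le_div_iff₀ (mul_pos hα0 hα)]
    exact k2
  have := norm_nonneg (pt v j)
  linarith

theorem drop_pow {C l x y : ℝ} {n : ℤ} (hC : 0 ≤ C) (hl : 2 < l) (hn : n ≤ 0) (hy : 0 ≤ y)
    (h : x ≤ C * l ^ n * y) : x ≤ C * y := by
  have c : l ^ n ≤ 1 := zpow_le_one_of_nonpos₀ (by linarith) hn
  calc x ≤ C * l ^ n * y := h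
    _ ≤ C * 1 * y := by gcongr
    _ = _ := by rw [mul_one]

end Coc2

open Coc2

/-- Existence of a stable solution. For each `n` the linear map `M n : pt v 0 ↦ pt v n` has
`|det| ≤ 2^n` (`dt_TL`), so some unit vector has `‖M n w‖ ≤ 2 * 2^n` (if all entries are `≤ 1` any
unit vector; otherwise take `w` orthogonal to the row with the largest entry). A limit point `w` of
these unit vectors works: fix `i ≤ j`, apply `Hyp` on `[i, n]` and let `n → ∞` (`l > 2`); solutions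
are linear in `pt v 0`. -/
theorem exists_stab {L C l : ℝ} {h : ℤ → E} (hb : Bd L h) (hh : Hyp C l h) (hC : 0 ≤ C)
    (hl : 2 < l) : ∃ s, Sol h s ∧ Stab C l s ∧ ∀ i, pt s i ≠ 0 := by
  obtain ⟨e1, s1, p1⟩ := exists_sol hb.ne 0 (1, 0)
  obtain ⟨e2, s2, p2⟩ := exists_sol hb.ne 0 (0, 1)
  have hd := dt_le_pow hb s1 s2 (by rw [p1, p2]; simp [dt])
  choose w hw1 hw2 using fun n : ℕ => small_vec (one_le_pow₀ one_le_two) (hd n)
  obtain ⟨z, hz, φ, hφ, hlim⟩ := (isCompact_sphere (0 : E) 1).tendsto_subseq (x := w)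
    fun n => mem_sphere_zero_iff_norm.2 (hw1 n)
  have hz1 : ‖z‖ = 1 := mem_sphere_zero_iff_norm.1 hz
  have hsol : ∀ y : E, Sol h fun k => y.1 * e1 k + y.2 * e2 k := fun y i =>
    sol_comb (s1.solOn i (i + 1)) (s2.solOn i (i + 1)) y.1 y.2 i le_rfl (by omega)
  have hc : ∀ i, Tendsto (fun n => ‖(w (φ n)).1 • pt e1 i + (w (φ n)).2 • pt e2 i‖) atTop
      (𝓝 ‖z.1 • pt e1 i + z.2 • pt e2 i‖) := fun i =>
    ((by fun_prop : Continuous fun y : E => ‖y.1 • pt e1 i + y.2 • pt e2 i‖).tendsto z).comp hlim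
  refine ⟨_, hsol z, fun i j hij => ?_, ne_of_sol hb (hsol z) (i := 0) ?_⟩
  · have h1 := (tail_zero (B := 1) zero_le_two hl j (fun n => norm_nonneg _)
      (fun n => by rw [one_mul]; exact hw2 n)).comp hφ.tendsto_atTop
    have h2 := (((hc i).const_mul (l ^ (i - j))).add h1).const_mul C
    rw [add_zero, ← mul_assoc] at h2
    rw [pt_comb, pt_comb]
    refine le_of_tendsto_of_tendsto (hc j) h2 ?_
    filter_upwards [hφ.tendsto_atTop.eventually_ge_atTop j.toNat] with n hn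
    have := hh _ i (φ n) ((hsol (w (φ n))).solOn _ _) j hij (by omega)
    rw [pt_comb, pt_comb, pt_comb] at this
    exact this
  · rw [pt_comb, p1, p2]
    intro h0
    have : z = 0 := by
      rw [← h0]; ext <;> simp
    rw [this, norm_zero] at hz1
    exact zero_ne_one hz1

/-- By time reversal (`Hyp.rev`, `Bd.rvc`, `Sol.rev`, `rvc_rvc`, `Stab.rev`). -/
theorem exists_unst {L C l : ℝ} {h : ℤ → E} (hb : Bd L h) (hh : Hyp C l h) (hC : 0 ≤ C)
    (hl : 2 < l) : ∃ u, Sol h u ∧ Unst C l u ∧ ∀ i, pt u i ≠ 0 := by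
  obtain ⟨s, h1, h2, h3⟩ := exists_stab hb.rvc (hh.rev hb.ne) hC hl
  refine ⟨fun j => s (-j), ?_, h2.rev, fun i => ?_⟩
  · have := h1.rev hb.rvc.ne
    rwa [rvc_rvc hb.ne] at this
  · rw [← norm_ne_zero_iff, norm_pt_neg, norm_ne_zero_iff]
    exact h3 _

/-- A vector transverse to the stable direction does not collapse. Write `v = β u + γ s` on the
window; `dt v s = β dt u s` at all times, and `dt u s ≥ α0 |u| |s|` by `ang_good`. -/
theorem no_collapse (L C l α : ℝ) (hl : 2 < l) (hC : 0 ≤ C) (hα : 0 < α) : ∃ C' > 0,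
    ∀ (h : ℤ → E) (v s : ℤ → ℝ) (i j : ℤ), Bd L h → Hyp C l h → Sol h s → Stab C l s →
      pt s i ≠ 0 → i ≤ j → SolOn h v i j → α * (‖pt v i‖ * ‖pt s i‖) ≤ |dt (pt v i) (pt s i)| →
      ‖pt v i‖ ≤ C' * ‖pt v j‖ := by
  obtain ⟨α0, hα0, hang⟩ := ang_good L C l C (by linarith) hC
  refine ⟨4 * C / (α0 * α) + 1, by positivity, fun h v s i j hb hh hs hst s0 hij hv h3 => ?_⟩
  obtain ⟨u, hu, hun, u0⟩ := exists_unst hb hh hC hl
  have hd : ∀ a b, a ≤ b → ‖pt u a‖ ≤ C * ‖pt u b‖ := fun a b hab =>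
    drop_pow hC hl (by omega) (norm_nonneg _) (hun a b hab)
  exact coll_gen hb le_rfl hij hij le_rfl hv hu hs hα hα0 hC (u0 j) s0
    (hang h u s j hb (fun _ _ => hu.solOn _ _) (fun _ _ => hs.solOn _ _) (hd j) (hst j))
    (hd i j hij) h3

theorem no_collapse' (L C l α : ℝ) (hl : 2 < l) (hC : 0 ≤ C) (hα : 0 < α) : ∃ C' > 0,
    ∀ (h : ℤ → E) (v u : ℤ → ℝ) (i j : ℤ), Bd L h → Hyp C l h → Sol h u → Unst C l u →
      pt u i ≠ 0 → j ≤ i → SolOn h v j i → α * (‖pt v i‖ * ‖pt u i‖) ≤ |dt (pt v i) (pt u i)| →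
      ‖pt v i‖ ≤ C' * ‖pt v j‖ := by
  obtain ⟨α0, hα0, hang⟩ := ang_good' L C l C (by linarith) hC
  refine ⟨4 * C / (α0 * α) + 1, by positivity, fun h v u i j hb hh hu hun u0 hij hv h3 => ?_⟩
  obtain ⟨s, hs, hst, s0⟩ := exists_stab hb hh hC hl
  have hd : ∀ a b, b ≤ a → ‖pt s a‖ ≤ C * ‖pt s b‖ := fun a b hab =>
    drop_pow hC hl (by omega) (norm_nonneg _) (hst b a hab)
  exact coll_gen hb hij le_rfl le_rfl hij hv hs hu hα hα0 hC (s0 j) u0
    (hang h s u j hb (fun _ _ => hs.solOn _ _) (fun _ _ => hu.solOn _ _) (hd j)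
      fun k hk => hun k j hk)
    (hd i j hij) h3

end Pool.Agent.MP_369096_an.H89
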