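import Pool.Agent.MP_369096_an.H89.SegL
import Pool.Agent.MP_369096_an.H89.Coc2

/-!
TASK Grow. Growth of segments, transfer of the crossing property, transitivity.
Auxiliary lemmas go in namespace `H89.Grow`.
-/

set_option autoImplicit false

open Set Filter Topology

namespace Pool.Agent.MP_369096_an.H89

variable {F : E → ℝ} {L : ℝ}

namespace Grow

theorem trim_to (F : E → ℝ) (z d : E) {a : ℝ} (ha : 0 < a) (hd : a ≤ ‖d‖) :
    ∃ z' d', Sub F z d 0 z' d' ∧ ‖d'‖ = a := by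
  have h0 : 0 < ‖d‖ := ha.trans_le hd
  refine ⟨_, _, Sub.trim F z d le_rfl (div_nonneg ha.le h0.le) ((div_le_one h0).2 hd), ?_⟩
  rw [sub_zero, norm_smul, Real.norm_of_nonneg (div_nonneg ha.le h0.le)]
  field_simp

theorem phase1 {r : ℝ} {N : ℕ} (ha : Adm F L 2) (hl : Loc F r N) {a : ℝ} (ha0 : 0 < a)
    (har : a ≤ r) (z d : E) (hd : a ≤ ‖d‖) (k : ℕ) :
    ∃ z' d', Sub F z d k z' d' ∧ a / (N * (2 * L + 2)) ^ k ≤ ‖d'‖ := by
  have hN : (1:ℝ) ≤ N := by exact_mod_cast hl.one_le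
  have hL : 1 ≤ 2 * L + 2 := by linarith [ha.le_L]
  have hM : 1 ≤ N * (2 * L + 2) := by nlinarith
  induction k with
  | zero => exact ⟨z, d, Sub.refl F z d, by simpa using hd⟩
  | succ k ih =>
    obtain ⟨z1, d1, h1, h2⟩ := ih
    have hb : 0 < a / (N * (2 * L + 2)) ^ k := by positivity
    have hb' : a / (N * (2 * L + 2)) ^ k ≤ r :=
      (div_le_self ha0.le (one_le_pow₀ hM)).trans har
    obtain ⟨z2, d2, h3, h4⟩ := trim_to F z1 d1 hb h2
    obtain ⟨S, hS, hS1, hS2⟩ := hl.2 z2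
    obtain ⟨t0, t1, g, b0, b1, b2, b3, b4⟩ := longest_cell hS hS1 z2 d2 fun t ht => hS2 _ (by
      rw [add_sub_cancel_left, norm_smul, Real.norm_of_nonneg ht.1]
      exact (mul_le_of_le_one_left (norm_nonneg _) ht.2).trans (h4.le.trans hb'))
    have h5 : Sub F z2 d2 1 _ _ := ⟨t0, t1, _, b0, b3, b1, b4, rfl, rfl⟩
    refine ⟨_, _, (h1.trans ha.cont h3).trans ha.cont h5, ?_⟩
    have h6 := (b4.norm_le ha (Nat.zero_le 1) le_rfl).2
    rw [fw, norm_smul, Real.norm_of_nonneg (sub_nonneg.2 b3), h4, Nat.sub_zero, pow_one] at h6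
    rw [pow_succ, ← div_div, div_le_iff₀ (by positivity)]
    generalize a / (N * (2 * L + 2)) ^ k = b at h6 hb
    have h7 : b ≤ N * (t1 - t0) * b := le_mul_of_one_le_left hb.le b2
    have h8 := mul_le_mul_of_nonneg_left h6 (show (0:ℝ) ≤ N by positivity)
    linarith

theorem exp_of_good {r C l C0 : ℝ} {N : ℕ} (ha : Adm F L 2) (hl : Loc F r N) (hh : HYP F C l)
    (hl1 : 1 < l) {z d z' d' : E} {k : ℕ} (hg : Good F C0 z d) (hs : Sub F z d k z' d')
    (hn : 4 * C * C * C0 ≤ l ^ k) (hn' : 2 * C * C0 ≤ l ^ k) : Exp F (2 * C) l z' d' := by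
  obtain ⟨t0, t1, g, a0, a1, a2, a3, rfl, rfl⟩ := hs
  intro t ht
  have hC : 0 ≤ C := by linarith [hh.half_le ha hl]
  rw [← a3.iter ha.cont le_rfl ht]
  have e : z + t0 • d + t • ((t1 - t0) • d) = z + (t0 + t * (t1 - t0)) • d := by module
  have hm : t0 + t * (t1 - t0) ∈ Icc (0:ℝ) 1 := by
    constructor <;> nlinarith [ht.1, ht.2]
  have h1 := (hg _ hm).smul ha (t1 - t0)
  rw [← e] at h1
  exact expAt_of_past ha hh hC hl1 (fun i hi => a3 i hi t ht)
    (h1.fw ha hl fun i hi => a3 i hi t ht) hn hn'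

theorem lamA_ge : 1 ≤ lamA := by
  have := Real.sqrt_nonneg 120
  unfold lamA
  linarith

theorem chi_lip (p q : E) : |chi p - chi q| ≤ ‖p - q‖ := by
  have := norm_snd_le (p - q)
  rw [Real.norm_eq_abs, Prod.snd_sub] at this
  simpa [chi] using this

theorem phi_lip (p q : E) : |phi p - phi q| ≤ 2 * ‖p - q‖ := by
  have h1 := norm_fst_le (p - q)
  have h2 := norm_snd_le (p - q)
  rw [Real.norm_eq_abs] at h1 h2
  have h3 : 0 < lamA := by linarith [lamA_ge]
  have e : phi p - phi q = (p - q).1 - (p - q).2 / lamA := by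
    simp only [phi, Prod.fst_sub, Prod.snd_sub]
    ring
  have h4 : |(p - q).2 / lamA| ≤ |(p - q).2| := by
    rw [abs_div, abs_of_pos h3]
    exact div_le_self (abs_nonneg _) lamA_ge
  rw [e]
  linarith [abs_sub ((p - q).1) ((p - q).2 / lamA)]

end Grow

/-- Abstract growth lemma. Given `C0, δ0` (WLOG `C0 ≥ 1`) choose `Θ` for `expAt_of_past`. First phase: `Θ` single steps; before
each one trim the segment to length `≤ r` (`Sub.trim`), then `longest_cell` with the cells of `Loc`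
and `Seg.norm_le`; the length stays `≥ min δ0 r / (N (2L+2))^Θ`. The total word is a germ word for every
point of the final piece, so the image is `Exp` (`GoodAt.fw`, `GoodAt.smul`, `expAt_of_past`). Second phase: induction on `k`: an
`Exp` segment of length `≥ δ / 2^k` satisfies `Cr F (k n + N1) β` (trim to length `δ` if it is longer;
`Exp.sub`, `Sub.cr`, `Cr.mono`). -/
theorem qp_of_steps {r C l δ β : ℝ} {N n N1 : ℕ} (ha : Adm F L 2) (hl : Loc F r N) (hh : HYP F C l)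
    (hl1 : 1 < l) (hδ : 0 < δ) (hβ : 0 < β)
    (step : ∀ z d, Exp F (2 * C) l z d → ‖d‖ ≤ δ →
      ∃ k ≤ n, ∃ z' d', Sub F z d k z' d' ∧ 2 * ‖d‖ ≤ ‖d'‖)
    (fin : ∀ z d, Exp F (2 * C) l z d → ‖d‖ = δ → Cr F N1 β z d) : QP F := by
  have h0 : ∀ z d, Exp F (2 * C) l z d → δ ≤ ‖d‖ → Cr F N1 β z d := by
    intro z d he hd
    obtain ⟨z', d', h1, h2⟩ := Grow.trim_to F z d hδ hd
    simpa using h1.cr ha.cont (fin z' d' (he.sub ha h1) h2)
  have h1 : ∀ k : ℕ, ∀ z d, Exp F (2 * C) l z d → δ ≤ 2 ^ k * ‖d‖ → Cr F (k * n + N1) β z d := by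
    intro k
    induction k with
    | zero =>
      intro z d he hd
      simpa using h0 z d he (by simpa using hd)
    | succ k ih =>
      intro z d he hd
      rcases le_total δ ‖d‖ with h | h
      · exact (h0 z d he h).mono (by omega)
      · obtain ⟨j, hj, z', d', b1, b2⟩ := step z d he h
        refine (b1.cr ha.cont (ih z' d' (he.sub ha b1) ?_)).mono (by rw [add_mul]; omega)
        rw [pow_succ, mul_assoc] at hd
        exact hd.trans (mul_le_mul_of_nonneg_left b2 (by positivity))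
  intro C0 δ0 hδ0
  obtain ⟨Θ, hΘ⟩ := pow_unbounded_of_one_lt (max (4 * C * C * C0) (2 * C * C0)) hl1
  have hN : (1:ℝ) ≤ N := by exact_mod_cast hl.one_le
  have hL : 1 ≤ 2 * L + 2 := by linarith [ha.le_L]
  have hr := hl.1
  have hb : 0 < min δ0 r / (N * (2 * L + 2)) ^ Θ := by positivity
  obtain ⟨k, hk⟩ := pow_unbounded_of_one_lt (δ / (min δ0 r / (N * (2 * L + 2)) ^ Θ))
    (one_lt_two (α := ℝ))
  rw [div_lt_iff₀ hb] at hk
  refine ⟨Θ + (k * n + N1), β, hβ, fun z d hg hd => ?_⟩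
  obtain ⟨z', d', b1, b2⟩ := Grow.phase1 ha hl (lt_min hδ0 hr) (min_le_right _ _) z d
    ((min_le_left _ _).trans hd) Θ
  refine b1.cr ha.cont (h1 k z' d' (Grow.exp_of_good ha hl hh hl1 hg b1
    ((le_max_left _ _).trans hΘ.le) ((le_max_right _ _).trans hΘ.le)) ?_)
  exact hk.le.trans (mul_le_mul_of_nonneg_left b2 (by positivity))

/-- The crossing property is robust (`Adm.iter_close`; `|phi p - phi q| ≤ 2 ‖p - q‖`). -/
theorem cr_transfer (ha : Adm F L 2) (hq : QP F) (C : ℝ) {δ : ℝ} (hδ : 0 < δ) :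
    ∃ η > 0, ∃ (N : ℕ) (β : ℝ), 0 < β ∧ ∀ F', Close F F' η → ∀ z d, Good F C z d → δ ≤ ‖d‖ →
      Cr F' N β z d := by
  obtain ⟨N, β, hβ, h⟩ := hq C δ hδ
  obtain ⟨η, hη, hc⟩ := ha.iter_close N (show 0 < β / 4 by positivity)
  refine ⟨η, hη, N, β / 2, by positivity, fun F' hF z d hg hd => ?_⟩
  obtain ⟨n, hn, t0, ht0, t1, ht1, m, a1, a2, a3⟩ := h z d hg hd
  have hcl : ∀ p : E, ‖((T F')^[n] p - (2 : ℝ) • iv m) - ((T F)^[n] p - (2 : ℝ) • iv m)‖ ≤ β / 4 := by
    intro p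
    rw [sub_sub_sub_cancel_right]
    exact hc F' hF n hn p
  refine ⟨n, hn, t0, ht0, t1, ht1, m, fun t ht => ?_, ?_, ?_⟩
  · have b1 := (Grow.chi_lip _ _).trans (hcl (z + t • d))
    have b2 := a1 t ht
    rw [abs_le] at b1 b2 ⊢
    constructor <;> linarith [b1.1, b1.2, b2.1, b2.2]
  · have b1 := Grow.phi_lip ((T F')^[n] (z + t0 • d) - (2 : ℝ) • iv m)
      ((T F)^[n] (z + t0 • d) - (2 : ℝ) • iv m)
    have b2 := hcl (z + t0 • d)
    rw [abs_le] at b1
    linarith [b1.1]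
  · have b1 := Grow.phi_lip ((T F')^[n] (z + t1 • d) - (2 : ℝ) • iv m)
      ((T F)^[n] (z + t1 • d) - (2 : ℝ) • iv m)
    have b2 := hcl (z + t1 • d)
    rw [abs_le] at b1
    linarith [b1.2]

end Pool.Agent.MP_369096_an.H89
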