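import Pool.Agent.MP_369096_an.H89.Base2
import Pool.Agent.MP_369096_an.H89.Grow

/-!
TASK Base3. The crossing property of the first map. Auxiliary lemmas go in namespace `H89.Base3`.

Use `qp_of_steps` with `C = l = 3`, `δ = 1/4`. One step: a segment with `‖d‖ ≤ 1/4` has a piece of relative length `≥ 1/7` in one cell (`BaseSpec.loc`, `longest_cell`); its
gradient is `(s,-1)` with `|s| ≥ 20` (`BaseSpec.germ`). If the segment is `Exp (Fb G) 6 3`, then `‖d‖ ≤ 2 ‖TL d‖` (`ExpAt.fw`), which forces `|(TL d).2| ≤ |(TL d).1|`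
(otherwise `|d.2| ≥ 19 |d.1|` and `‖TL d‖ = |d.1| ≤ ‖d‖/19`). In this cone every further step multiplies `|d.1| = ‖d‖` by at least `19` and preserves the cone. So after the first step
(length `≥ ‖d‖/14`) each step gains the factor `19/7`; stop as soon as the length is `≥ 2 ‖d‖` resp. `≥ 1/4` (trim to `1/4` when it is longer); `(19/7)^4 > 28`.
Final step: reach a segment in the cone of length exactly `1/4`. Its `x`-range has length `1/4` and the cluster has length `≤ 1/5`, so a part of `x`-length `≥ 1/40` lies in a linear strip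
`[b 5 + k, b 6 + k]`; the image has `x`-length `≥ 21/40` and slope `≤ 1/21`; trim it to a part of `x`-length `≥ 1/8` in a linear strip; its image has `x`-length `≥ 21/8 > 2.6` and `y`-length `≤ 1/8`.
Choose `m.2` with `|chi| ≤ 1` at one end (so `|chi| ≤ 9/8` throughout, `|chi / lamA| ≤ 0.06`) and `m.1` such that `x - 1/2 - 2 m.1` is `≥ 0.2` at one end and `≤ -0.2` at the other; `β = 1/10`.
For the last two steps no germs are needed: `Cr` only uses the iterates of points (`BaseSpec.lin`, `per`), or use `Sub` and `Sub.cr` with `N = 0`.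
-/

set_option autoImplicit false

open Set Filter Topology

namespace Pool.Agent.MP_369096_an.H89

namespace Base3

variable {G : ℝ → ℝ} {b sl : ℕ → ℝ}

/-- The cone of almost horizontal vectors. -/
def Cn (d : E) : Prop := |d.2| ≤ |d.1|

theorem norm_eq (d : E) : ‖d‖ = max |d.1| |d.2| := by
  rw [Prod.norm_def, Real.norm_eq_abs, Real.norm_eq_abs]

theorem Cn.norm {d : E} (h : Cn d) : ‖d‖ = |d.1| := by rw [norm_eq, max_eq_left h]

theorem Cn.smul {d : E} (h : Cn d) (c : ℝ) : Cn (c • d) := by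
  unfold Cn at *
  simp only [Prod.smul_fst, Prod.smul_snd, smul_eq_mul, abs_mul]
  exact mul_le_mul_of_nonneg_left h (abs_nonneg _)

theorem TL_fst (s : ℝ) (d : E) : (TL (s, -1) d).1 = s * d.1 - d.2 := by
  simp only [TL, lin]; ring

theorem TL_snd (s : ℝ) (d : E) : (TL (s, -1) d).2 = d.1 := rfl

theorem abs_TL {s c : ℝ} (hs : c ≤ |s|) (d : E) : c * |d.1| - |d.2| ≤ |(TL (s, -1) d).1| := by
  rw [TL_fst]
  have h1 := abs_sub_abs_le_abs_sub (s * d.1) d.2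
  rw [abs_mul] at h1
  have h2 := mul_le_mul_of_nonneg_right hs (abs_nonneg d.1)
  linarith

theorem Cn.TL {s : ℝ} (hs : 20 ≤ |s|) {d : E} (h : Cn d) : Cn (TL (s, -1) d) := by
  have h1 := abs_TL hs d
  have h2 := abs_nonneg d.1
  unfold Cn at *
  rw [TL_snd]
  linarith

theorem adm2 (h : BaseSpec G b sl) : ∃ L, Adm (Fb G) L 2 := by
  obtain ⟨L, hL⟩ := h.adm
  exact ⟨L, hL.mono le_rfl (by norm_num)⟩

theorem cont (h : BaseSpec G b sl) : Continuous (Fb G) := by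
  obtain ⟨L, hL⟩ := adm2 h
  exact hL.cont

theorem sub_of_seg {F : E → ℝ} {z d : E} {t0 t1 : ℝ} {g : Af} (h0 : 0 ≤ t0) (h01 : t0 ≤ t1)
    (h1 : t1 ≤ 1) (hs : Seg F (z + t0 • d) ((t1 - t0) • d) (fun _ => g) 1) :
    Sub F z d 1 (T F (z + t0 • d)) ((t1 - t0) • TL g.1 d) :=
  ⟨t0, t1, fun _ => g, h0, h01, h1, hs, rfl, by simp only [fw, TL_smul]⟩

theorem one_step (h : BaseSpec G b sl) (z d : E) (hd : ‖d‖ ≤ 1 / 4) :
    ∃ (t τ s c : ℝ) (z' : E), t ∈ Icc (0 : ℝ) 1 ∧ 1 / 7 ≤ τ ∧ 20 ≤ |s| ∧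
      Germ (Fb G) (z + t • d) ((s, -1), c) ∧ Sub (Fb G) z d 1 z' (τ • TL (s, -1) d) := by
  obtain ⟨-, hl⟩ := h.loc
  obtain ⟨S, hS, hc, hcov⟩ := hl z
  obtain ⟨t0, t1, g, h0, h1, hV, h01, hs⟩ := longest_cell hS hc z d fun t ht => hcov _ (by
    rw [add_sub_cancel_left, norm_smul, Real.norm_eq_abs, abs_of_nonneg ht.1]
    calc t * ‖d‖ ≤ 1 * ‖d‖ := mul_le_mul_of_nonneg_right ht.2 (norm_nonneg _)
      _ ≤ 1 / 4 := by linarith)
  have hg : Germ (Fb G) (z + t0 • d) g := by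
    simpa using hs 0 zero_lt_one 0 ⟨le_rfl, zero_le_one⟩
  obtain ⟨j, hj, k, e⟩ := h.germ hg
  have hsub := sub_of_seg h0 h01 h1 hs
  rw [e] at hg
  refine ⟨t0, t1 - t0, sl j, _, T (Fb G) (z + t0 • d), ⟨h0, h01.trans h1⟩, ?_, h.big j hj, hg, ?_⟩
  · push_cast at hV; linarith
  · rw [e] at hsub; exact hsub

theorem first_step (h : BaseSpec G b sl) {z d : E} (he : Exp (Fb G) (2 * 3) 3 z d)
    (hd : ‖d‖ ≤ 1 / 4) : ∃ z' d', Sub (Fb G) z d 1 z' d' ∧ Cn d' ∧ ‖d‖ ≤ 14 * ‖d'‖ := by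
  obtain ⟨L, ha⟩ := adm2 h
  obtain ⟨t, τ, s, c, z', ht, hτ, hs, hg, hsub⟩ := one_step h z d hd
  have h1 := ExpAt.fw ha h.loc (he t ht) (g := fun _ => ((s, -1), c)) (n := 1)
    (fun i hi => by rw [Nat.lt_one_iff.mp hi]; exact hg) (i := 0) (j := 1) zero_le_one le_rfl
  have h2 : ‖d‖ ≤ 2 * ‖TL (s, -1) d‖ := by
    simp only [fw] at h1
    norm_num at h1
    linarith
  have hc : Cn (TL (s, -1) d) := by
    by_contra hn
    unfold Cn at hn
    rw [not_le] at hn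
    rw [norm_eq (TL _ _), max_eq_right hn.le, TL_snd] at h2
    rw [TL_snd] at hn
    have h3 := abs_TL hs d
    have h4 : |d.2| ≤ ‖d‖ := by rw [norm_eq]; exact le_max_right _ _
    have h5 := abs_nonneg d.1
    linarith
  refine ⟨z', _, hsub, hc.smul τ, ?_⟩
  rw [norm_smul, Real.norm_eq_abs, abs_of_nonneg (by linarith)]
  have := mul_le_mul_of_nonneg_right hτ (norm_nonneg (TL (s, -1) d))
  linarith

theorem cone_step (h : BaseSpec G b sl) (z : E) {d : E} (hc : Cn d) (hd : ‖d‖ ≤ 1 / 4) :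
    ∃ z' d', Sub (Fb G) z d 1 z' d' ∧ Cn d' ∧ 2 * ‖d‖ ≤ ‖d'‖ := by
  obtain ⟨t, τ, s, c, z', -, hτ, hs, -, hsub⟩ := one_step h z d hd
  refine ⟨z', _, hsub, (hc.TL hs).smul τ, ?_⟩
  rw [norm_smul, Real.norm_eq_abs, abs_of_nonneg (by linarith), (hc.TL hs).norm, hc.norm]
  have h1 := abs_TL hs d
  have h2 := mul_le_mul_of_nonneg_right hτ (abs_nonneg (TL (s, -1) d).1)
  have h3 := abs_nonneg d.1
  unfold Cn at hc
  linarith

theorem cone_step' (h : BaseSpec G b sl) (z : E) {d : E} (hc : Cn d) :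
    ∃ z' d', Sub (Fb G) z d 1 z' d' ∧ Cn d' ∧ min (2 * ‖d‖) (1 / 2) ≤ ‖d'‖ := by
  rcases le_total ‖d‖ (1 / 4) with hd | hd
  · obtain ⟨z', d', h1, h2, h3⟩ := cone_step h z hc hd
    exact ⟨z', d', h1, h2, (min_le_left _ _).trans h3⟩
  · have h0 : 0 < ‖d‖ := by linarith
    have ht : 0 ≤ 1 / (4 * ‖d‖) := by positivity
    have ht1 : 1 / (4 * ‖d‖) ≤ 1 := by rw [div_le_one (by positivity)]; linarith
    have hs := Sub.trim (Fb G) z d le_rfl ht ht1
    have hn : ‖(1 / (4 * ‖d‖) - 0) • d‖ = 1 / 4 := by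
      rw [sub_zero, norm_smul, Real.norm_eq_abs, abs_of_nonneg ht]; field_simp
    obtain ⟨z', d', h1, h2, h3⟩ := cone_step h (z + (0 : ℝ) • d) (hc.smul _) hn.le
    refine ⟨z', d', hs.trans (cont h) h1, h2, (min_le_right _ _).trans ?_⟩
    rw [hn] at h3; linarith

theorem cone_iter (h : BaseSpec G b sl) (z : E) {d : E} (hc : Cn d) (k : ℕ) :
    ∃ z' d', Sub (Fb G) z d k z' d' ∧ Cn d' ∧ min (2 ^ k * ‖d‖) (1 / 2) ≤ ‖d'‖ := by
  induction k with
  | zero => exact ⟨z, d, Sub.refl _ _ _, hc, by simp⟩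
  | succ k ih =>
    obtain ⟨z', d', h1, h2, h3⟩ := ih
    obtain ⟨z'', d'', h4, h5, h6⟩ := cone_step' h z' h2
    refine ⟨z'', d'', h1.trans (cont h) h4, h5, le_trans ?_ h6⟩
    refine le_min ?_ (min_le_right _ _)
    rcases min_le_iff.mp h3 with h7 | h7
    · refine (min_le_left _ _).trans ?_
      rw [pow_succ]; linarith
    · refine (min_le_right _ _).trans ?_
      linarith

theorem six_steps (h : BaseSpec G b sl) {z d : E} (he : Exp (Fb G) (2 * 3) 3 z d)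
    (hd : ‖d‖ ≤ 1 / 4) : ∃ z' d', Sub (Fb G) z d 6 z' d' ∧ Cn d' ∧ 2 * ‖d‖ ≤ ‖d'‖ := by
  obtain ⟨z1, d1, h1, h2, h3⟩ := first_step h he hd
  obtain ⟨z2, d2, h4, h5, h6⟩ := cone_iter h z1 h2 5
  refine ⟨z2, d2, h1.trans (cont h) h4, h5, le_trans (le_min ?_ ?_) h6⟩
  · have := norm_nonneg d1
    norm_num; linarith
  · linarith

theorem strip_in {lam : ℝ} (h0 : 0 ≤ lam) (h1 : lam ≤ 4 / 5) (u : ℝ) :
    ∃ (k : ℤ) (u' : ℝ), u ≤ u' ∧ u' + lam ≤ u + (2 * lam + 1 / 5) ∧ k + 1 / 10 ≤ u' ∧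
      u' + lam ≤ k + 9 / 10 := by
  have a1 := Int.floor_le u
  have a2 := Int.lt_floor_add_one u
  rcases le_total u (⌊u⌋ + 1 / 10) with h | h
  · exact ⟨⌊u⌋, ⌊u⌋ + 1 / 10, h, by linarith, le_rfl, by linarith⟩
  rcases le_total (u + lam) (⌊u⌋ + 9 / 10) with h' | h'
  · exact ⟨⌊u⌋, u, le_rfl, by linarith, h, h'⟩
  · refine ⟨⌊u⌋ + 1, ⌊u⌋ + 11 / 10, by linarith, by linarith, ?_, ?_⟩ <;> push_cast <;> linarith

theorem param {lam : ℝ} (h0 : 0 ≤ lam) (h1 : lam ≤ 4 / 5) (a c : ℝ) (hc : 2 * lam + 1 / 5 ≤ |c|) :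
    ∃ (k : ℤ) (t0 t1 : ℝ), 0 ≤ t0 ∧ t0 ≤ t1 ∧ t1 ≤ 1 ∧ (t1 - t0) * |c| = lam ∧
      (k + 1 / 10 ≤ a + t0 * c ∧ a + t0 * c ≤ k + 9 / 10) ∧
      (k + 1 / 10 ≤ a + t1 * c ∧ a + t1 * c ≤ k + 9 / 10) := by
  rcases le_total 0 c with hs | hs
  · rw [abs_of_nonneg hs] at hc ⊢
    have hp : 0 < c := by linarith
    obtain ⟨k, u, b1, b2, b3, b4⟩ := strip_in h0 h1 a
    have e0 : (u - a) / c * c = u - a := div_mul_cancel₀ _ hp.ne'
    have e1 : (u + lam - a) / c * c = u + lam - a := div_mul_cancel₀ _ hp.ne'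
    refine ⟨k, (u - a) / c, (u + lam - a) / c, div_nonneg (by linarith) hs,
      div_le_div_of_nonneg_right (by linarith) hs, (div_le_one hp).mpr (by linarith), ?_, ?_, ?_⟩
    · rw [sub_mul, e0, e1]; ring
    · rw [e0]; constructor <;> linarith
    · rw [e1]; constructor <;> linarith
  · rw [abs_of_nonpos hs] at hc ⊢
    have hp : 0 < -c := by linarith
    obtain ⟨k, u, b1, b2, b3, b4⟩ := strip_in h0 h1 (a - (2 * lam + 1 / 5))
    have e0 : (a - u - lam) / (-c) * (-c) = a - u - lam := div_mul_cancel₀ _ hp.ne'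
    have e1 : (a - u) / (-c) * (-c) = a - u := div_mul_cancel₀ _ hp.ne'
    refine ⟨k, (a - u - lam) / (-c), (a - u) / (-c), div_nonneg (by linarith) hp.le,
      div_le_div_of_nonneg_right (by linarith) hp.le, (div_le_one hp).mpr (by linarith), ?_, ?_, ?_⟩
    · rw [sub_mul, e0, e1]; ring
    · rw [mul_neg] at e0; constructor <;> linarith
    · rw [mul_neg] at e1; constructor <;> linarith

theorem germ_lin (h : BaseSpec G b sl) (k : ℤ) :
    ∀ p ∈ Icc ((k : ℝ) + 1 / 10) (k + 9 / 10) ×ˢ (univ : Set ℝ), Germ (Fb G) p ((22, -1), 0) := by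
  refine germ_of_convex ((convex_Icc _ _).prod convex_univ) ?_ ?_
  · rw [interior_prod_eq, interior_Icc, interior_univ]
    exact ⟨((k : ℝ) + 1 / 2, 0), ⟨by simp only; linarith, by simp only; linarith⟩, trivial⟩
  · intro p hp
    have h1 := hp.1.1
    have h2 := hp.1.2
    rw [h.linR p fun k' => ?_]
    · simp only [ev, lin]; ring
    rcases le_or_gt k' k with hk | hk
    · have : (k' : ℝ) ≤ k := by exact_mod_cast hk
      exact le_abs.mpr (Or.inl (by linarith))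
    · have : (k : ℝ) + 1 ≤ k' := by exact_mod_cast hk
      exact le_abs.mpr (Or.inr (by linarith))

theorem lin_step (h : BaseSpec G b sl) {lam : ℝ} (h0 : 0 ≤ lam) (h1 : lam ≤ 4 / 5) (z : E) {d : E}
    (hc : Cn d) (hd : 2 * lam + 1 / 5 ≤ |d.1|) :
    ∃ z' d', Sub (Fb G) z d 1 z' d' ∧ |d'.2| = lam ∧ 21 * lam ≤ |d'.1| := by
  obtain ⟨k, t0, t1, a0, a01, a1, e, b0, b1⟩ := param h0 h1 z.1 d.1 hd
  have hs : Seg (Fb G) (z + t0 • d) ((t1 - t0) • d) (fun _ => ((22, -1), 0)) 1 := by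
    intro i hi t ht
    rw [Nat.lt_one_iff.mp hi]
    refine germ_lin h k _ ⟨?_, trivial⟩
    have e1 : ((T (Fb G))^[0] (z + t0 • d + t • (t1 - t0) • d)).1 =
        (1 - t) * (z.1 + t0 * d.1) + t * (z.1 + t1 * d.1) := by
      simp only [Function.iterate_zero, id, Prod.fst_add, Prod.smul_fst, smul_eq_mul]; ring
    rw [e1]
    exact convex_Icc _ _ (x := z.1 + t0 * d.1) b0 (y := z.1 + t1 * d.1) b1
      (by linarith [ht.2]) ht.1 (by ring)
  have hτ : 0 ≤ t1 - t0 := by linarith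
  refine ⟨_, _, sub_of_seg a0 a01 a1 hs, ?_, ?_⟩
  · rw [Prod.smul_snd, TL_snd, smul_eq_mul, abs_mul, abs_of_nonneg hτ, e]
  · rw [Prod.smul_fst, smul_eq_mul, abs_mul, abs_of_nonneg hτ, ← e]
    have h2 := abs_TL (s := 22) (c := 22) (by norm_num) d
    unfold Cn at hc
    have h3 : 21 * |d.1| ≤ |(TL (22, -1) d).1| := by linarith
    calc 21 * ((t1 - t0) * |d.1|) = (t1 - t0) * (21 * |d.1|) := by ring
      _ ≤ _ := mul_le_mul_of_nonneg_left h3 hτ

theorem lamA_ge : 21 ≤ lamA := by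
  have : (10 : ℝ) ≤ Real.sqrt 120 := Real.le_sqrt_of_sq_le (by norm_num)
  unfold lamA; linarith

theorem cr_zero (F : E → ℝ) (z : E) {d : E} (h2 : |d.2| ≤ 1 / 8) (h1 : 21 / 8 ≤ |d.1|) :
    Cr F 0 (1 / 10) z d := by
  have hm := abs_sub_round ((z.2 - 1 / 2) / 2)
  set m2 := round ((z.2 - 1 / 2) / 2)
  have hchi : ∀ (m1 : ℤ), ∀ t ∈ Icc (0 : ℝ) 1,
      |chi (z + t • d - (2 : ℝ) • iv (m1, m2))| ≤ 9 / 8 := by
    intro m1 t ht
    have e : chi (z + t • d - (2 : ℝ) • iv (m1, m2)) =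
        2 * ((z.2 - 1 / 2) / 2 - m2) + t * d.2 := by
      simp only [chi, iv, Prod.snd_sub, Prod.snd_add, Prod.smul_snd, smul_eq_mul]; ring
    rw [e]
    refine (abs_add_le _ _).trans ?_
    rw [abs_mul, abs_mul, abs_of_nonneg ht.1, abs_two]
    have := mul_le_mul ht.2 h2 (abs_nonneg _) zero_le_one
    linarith
  have hphi : ∀ (m1 : ℤ), ∀ t ∈ Icc (0 : ℝ) 1,
      |phi (z + t • d - (2 : ℝ) • iv (m1, m2)) - (z.1 + t * d.1 - 2 * m1 - 1 / 2)| ≤ 1 / 10 := by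
    intro m1 t ht
    have hl := lamA_ge
    have e : phi (z + t • d - (2 : ℝ) • iv (m1, m2)) - (z.1 + t * d.1 - 2 * m1 - 1 / 2) =
        -(chi (z + t • d - (2 : ℝ) • iv (m1, m2)) / lamA) := by
      simp only [phi, chi, iv, Prod.fst_sub, Prod.fst_add, Prod.smul_fst, smul_eq_mul]; ring
    rw [e, abs_neg, abs_div, abs_of_pos (by linarith : 0 < lamA), div_le_iff₀ (by linarith)]
    linarith [hchi m1 t ht]
  have z0 : (0 : ℝ) ∈ Icc (0 : ℝ) 1 := ⟨le_rfl, zero_le_one⟩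
  have z1 : (1 : ℝ) ∈ Icc (0 : ℝ) 1 := ⟨zero_le_one, le_rfl⟩
  have key : ∀ t0 ∈ Icc (0 : ℝ) 1, ∀ t1 ∈ Icc (0 : ℝ) 1, 21 / 8 ≤ t0 * d.1 - t1 * d.1 →
      Cr F 0 (1 / 10) z d := by
    intro t0 h0 t1 h1 hl
    have c1 := Int.le_ceil ((z.1 + t1 * d.1 - 3 / 10) / 2)
    have c2 := Int.ceil_lt_add_one ((z.1 + t1 * d.1 - 3 / 10) / 2)
    set m1 := ⌈(z.1 + t1 * d.1 - 3 / 10) / 2⌉
    refine ⟨0, le_rfl, t0, h0, t1, h1, (m1, m2), fun t ht => ?_, ?_, ?_⟩
    · exact (hchi m1 t (uIcc_subset_Icc h0 h1 ht)).trans (by norm_num)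
    · have := (abs_le.mp (hphi m1 t0 h0)).1
      simp only [Function.iterate_zero, id]
      linarith
    · have := (abs_le.mp (hphi m1 t1 h1)).2
      simp only [Function.iterate_zero, id]
      linarith
  rcases le_abs.mp h1 with h | h
  · exact key 1 z1 0 z0 (by linarith)
  · exact key 0 z0 1 z1 (by linarith)

theorem cr_two (h : BaseSpec G b sl) (z : E) {d : E} (hc : Cn d) (hd : 1 / 4 ≤ ‖d‖) :
    Cr (Fb G) 2 (1 / 10) z d := by
  rw [hc.norm] at hd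
  obtain ⟨z1, d1, s1, a1, b1⟩ := lin_step h (lam := 1 / 40) (by norm_num) (by norm_num) z hc
    (by linarith)
  obtain ⟨z2, d2, s2, a2, b2⟩ := lin_step h (lam := 1 / 8) (by norm_num) (by norm_num) z1
    (d := d1) (by unfold Cn; linarith) (by linarith)
  exact (s1.trans (cont h) s2).cr (cont h) (cr_zero _ z2 a2.le (by linarith))

end Base3

theorem BaseSpec.qp {G : ℝ → ℝ} {b sl : ℕ → ℝ} (h : BaseSpec G b sl) : QP (Fb G) := by
  obtain ⟨L, ha⟩ := Base3.adm2 h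
  refine qp_of_steps (δ := 1 / 4) (β := 1 / 10) (n := 6) (N1 := 6 + 2) ha h.loc h.hyp
    (by norm_num) (by norm_num) (by norm_num) ?_ ?_
  · intro z d he hd
    obtain ⟨z', d', h1, -, h3⟩ := Base3.six_steps h he hd
    exact ⟨6, le_rfl, z', d', h1, h3⟩
  · intro z d he hd
    obtain ⟨z', d', h1, h2, h3⟩ := Base3.six_steps h he hd.le
    exact h1.cr (Base3.cont h) (Base3.cr_two h z' h2 (by linarith))

end Pool.Agent.MP_369096_an.H89
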