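import Pool.Agent.MP_369096_an.H89.Win

/-!
TASK Clus. The stable directions along a good segment form few clusters.
Auxiliary lemmas go in namespace `H89.Clus`.

Notation: `Λ = 2L+2`, `V = N^2`, `G(g,n) = ‖fw g d n‖ / ‖d‖`. An `n`-piece is `(t0,t1,g)` with
`0 ≤ t0 ≤ t1 ≤ 1`, `∀ i < n, ∀ t ∈ [t0,t1], Germ F ((T F)^[i] (z + t•d)) (g i)` and `[t0,t1] ∩ τ ≠ ∅`.
A finite family of `n`-pieces is complete if every germ word of length `n` of every `t ∈ τ` is the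
word of a piece containing `t`.
1. `C ≥ 1/2` (`HYP.half_le`); WLOG `C0 ≥ 1`. Choose `Θ ≥ 1` with `4 C² C0 ≤ l^Θ`, `2 C C0 ≤ l^Θ`, and `n0 ≥ 1` with
   `2 (2C+1) V ≤ l^n0`; let `δ` come from `cx_self` for `n0` and `δ'` for `Θ`. Times `n k = Θ + k n0`.
2. A complete family `P 0` exists (cut `[0,1]` into intervals of length `≤ δ'/‖d‖`, `CX.pieces`).
3. Step: a piece `J` of `P k` has image the segment `(z_J, d_J)` (`Seg.iter`) with
   `‖d_J‖ = |J| G ‖d‖`; cut it into `⌊‖d_J‖/δ⌋ + 1` equal parts, apply `CX.pieces` to each, drop the pieces that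
   miss `τ`. A new piece has `G' ≥ G / (2C)` (`GoodAt.fw`, `expAt_of_past`, `ExpAt.fw` at a point of `τ`).
   With `S k = ∑ 1/G` and `Λs k = ∑ |J|`: `Λs (k+1) ≤ V Λs k`, `S (k+1) ≤ 2 C V (S k + ‖d‖ Λs k / δ)`, so
   `S k ≤ B ((2C+1) V)^k ≤ B (l^n0 / 2)^k`.
4. For `η > 0` let `𝒥` be the pieces of all `P k` with `η l^(n k) G ≤ A := 4 C (l Λ)^n0`, together with `P 0`. As
   `G ≥ 1/C0` only finitely many `k` contribute; the number of pieces of `P k` in `𝒥` is at most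
   `A S k / (η l^(n k)) ≤ A B 2^(-k) / η`, so `η |𝒥| ≤ η ∑_{k ≤ I} |P k| + A B 2^(-I)`. Let `𝒯` be the set of endpoints.
5. Given `t ∈ τ` and an itinerary, take the first `k` with `4 C ≤ η l^(n k) G`; the piece `J ∈ P k` with this word
   lies in `𝒥`, contains `t`, hence `t'`; extend the word to an itinerary of `t'` (`ext_itin`) and
   conclude with `dt_small` (`ε = C l^(-n)`, `v` the solution with `pt v 0 = d`, `fw_eq_pt`).
-/

set_option autoImplicit false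

open Set Filter Topology

namespace Pool.Agent.MP_369096_an.H89

namespace Clus

abbrev Pc : Type := ℝ × ℝ × (ℕ → Af)

def IsP (F : E → ℝ) (z d : E) (τ : Set ℝ) (n : ℕ) (a : Pc) : Prop :=
  0 ≤ a.1 ∧ a.1 ≤ a.2.1 ∧ a.2.1 ≤ 1 ∧
    (∀ i < n, ∀ t ∈ Icc a.1 a.2.1, Germ F ((T F)^[i] (z + t • d)) (a.2.2 i)) ∧
    ∃ t ∈ τ, t ∈ Icc a.1 a.2.1

def Fam (F : E → ℝ) (z d : E) (τ : Set ℝ) (n : ℕ) (P : Finset Pc) : Prop :=
  (∀ a ∈ P, IsP F z d τ n a) ∧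
    ∀ t ∈ τ, ∀ g : ℕ → Af, (∀ i < n, Germ F ((T F)^[i] (z + t • d)) (g i)) →
      ∃ a ∈ P, t ∈ Icc a.1 a.2.1 ∧ ∀ i < n, a.2.2 i = g i

noncomputable def wt (d : E) (δ : ℝ) (n : ℕ) (a : Pc) : ℝ :=
  1 / ‖fw a.2.2 d n‖ + (a.2.1 - a.1) / δ

theorem sum_biUnion_le {ι α : Type*} [DecidableEq α] (s : Finset ι) (t : ι → Finset α) (f : α → ℝ)
    (hf : ∀ i ∈ s, ∀ x ∈ t i, 0 ≤ f x) :
    ∑ x ∈ s.biUnion t, f x ≤ ∑ i ∈ s, ∑ x ∈ t i, f x := by
  classical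
  induction s using Finset.induction_on with
  | empty => simp
  | insert i s hi ih =>
    rw [Finset.biUnion_insert, Finset.sum_insert hi]
    have h1 := ih fun j hj => hf j (Finset.mem_insert_of_mem hj)
    have h2 := Finset.sum_union_inter (s₁ := t i) (s₂ := s.biUnion t) (f := f)
    have h3 : 0 ≤ ∑ x ∈ t i ∩ s.biUnion t, f x :=
      Finset.sum_nonneg fun x hx =>
        hf i (Finset.mem_insert_self _ _) x (Finset.mem_inter.1 hx).1
    linarith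

theorem exists_param {α β a1 a2 u : ℝ} (h : α ≤ β) (h12 : a1 ≤ a2)
    (hu : u ∈ Icc (α + a1 * (β - α)) (α + a2 * (β - α))) :
    ∃ s ∈ Icc a1 a2, u = α + s * (β - α) := by
  rcases eq_or_lt_of_le h with rfl | hlt
  · refine ⟨a1, ⟨le_rfl, h12⟩, ?_⟩
    have h1 := hu.1
    have h2 := hu.2
    simp only [sub_self, mul_zero, add_zero] at h1 h2 ⊢
    exact le_antisymm h2 h1
  · have hp : 0 < β - α := sub_pos.2 hlt
    refine ⟨(u - α) / (β - α), ⟨?_, ?_⟩, ?_⟩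
    · rw [le_div_iff₀ hp]; linarith [hu.1]
    · rw [div_le_iff₀ hp]; linarith [hu.2]
    · field_simp; ring

theorem seg_of {F : E → ℝ} {p e : E} {u0 u1 : ℝ} {g : ℕ → Af} {m : ℕ} (h01 : u0 ≤ u1)
    (h : ∀ i < m, ∀ u ∈ Icc u0 u1, Germ F ((T F)^[i] (p + u • e)) (g i)) :
    Seg F (p + u0 • e) ((u1 - u0) • e) g m := by
  intro i hi s hs
  have e1 : p + u0 • e + s • ((u1 - u0) • e) = p + (u0 + s * (u1 - u0)) • e := by
    rw [smul_smul, add_smul, add_assoc]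
  rw [e1]
  refine h i hi _ ⟨?_, ?_⟩
  · nlinarith [hs.1]
  · nlinarith [hs.2]

theorem of_seg {F : E → ℝ} {p e : E} {u0 u1 : ℝ} {g : ℕ → Af} {m : ℕ} (h01 : u0 ≤ u1)
    (h : Seg F (p + u0 • e) ((u1 - u0) • e) g m) :
    ∀ i < m, ∀ u ∈ Icc u0 u1, Germ F ((T F)^[i] (p + u • e)) (g i) := by
  intro i hi u hu
  obtain ⟨s, hs, rfl⟩ := exists_param (α := u0) (β := u1) (a1 := 0) (a2 := 1) (u := u) h01
    zero_le_one ⟨by linarith [hu.1], by linarith [hu.2]⟩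
  have e1 : p + u0 • e + s • ((u1 - u0) • e) = p + (u0 + s * (u1 - u0)) • e := by
    rw [smul_smul, add_smul, add_assoc]
  rw [← e1]
  exact h i hi s hs

/-- Pieces over a short parameter interval. -/
theorem pieces_on {F : E → ℝ} (hc : Continuous F) {V m : ℕ} {δ : ℝ} (h : CX F V m δ) (p w : E)
    {α β : ℝ} (hαβ : α ≤ β) (hδ : (β - α) * ‖w‖ ≤ δ) :
    ∃ S : Finset Pc, S.card ≤ V ∧
      (∀ a ∈ S, α ≤ a.1 ∧ a.1 ≤ a.2.1 ∧ a.2.1 ≤ β ∧
        ∀ i < m, ∀ u ∈ Icc a.1 a.2.1, Germ F ((T F)^[i] (p + u • w)) (a.2.2 i)) ∧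
      ∀ u ∈ Icc α β, ∀ g : ℕ → Af, (∀ i < m, Germ F ((T F)^[i] (p + u • w)) (g i)) →
        ∃ a ∈ S, u ∈ Icc a.1 a.2.1 ∧ ∀ i < m, a.2.2 i = g i := by
  classical
  have hp : 0 ≤ β - α := sub_nonneg.2 hαβ
  have e1 : ∀ s : ℝ, p + α • w + s • ((β - α) • w) = p + (α + s * (β - α)) • w := fun s => by
    rw [smul_smul, add_smul, add_assoc]
  obtain ⟨S, hS, h1, h2⟩ := h.pieces hc (p + α • w) ((β - α) • w)
    (by rw [norm_smul, Real.norm_eq_abs, abs_of_nonneg hp]; exact hδ)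
  refine ⟨S.image fun a => (α + a.1 * (β - α), α + a.2.1 * (β - α), a.2.2),
    Finset.card_image_le.trans hS, ?_, ?_⟩
  · intro b hb
    obtain ⟨a, ha, rfl⟩ := Finset.mem_image.1 hb
    obtain ⟨k0, k1, k2, k3⟩ := h1 a ha
    refine ⟨by dsimp only; nlinarith, by dsimp only; nlinarith, by dsimp only; nlinarith, ?_⟩
    intro i hi u hu
    obtain ⟨s, hs, rfl⟩ := exists_param hαβ k1 hu
    rw [← e1]
    exact of_seg k1 k3 i hi s hs
  · intro u hu g hg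
    obtain ⟨s, hs, rfl⟩ := exists_param (α := α) (β := β) (a1 := 0) (a2 := 1) (u := u) hαβ
      zero_le_one ⟨by linarith [hu.1], by linarith [hu.2]⟩
    obtain ⟨a, ha, k1, k2⟩ := h2 s hs g (fun i hi => by rw [e1]; exact hg i hi)
    refine ⟨_, Finset.mem_image_of_mem _ ha, ⟨?_, ?_⟩, k2⟩
    · dsimp only; nlinarith [k1.1]
    · dsimp only; nlinarith [k1.2]

theorem exists_part {t0 h t : ℝ} {M : ℕ} (h0 : t0 ≤ t) (h1 : t ≤ t0 + (M + 1 : ℕ) * h) :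
    ∃ j < M + 1, t ∈ Icc (t0 + j * h) (t0 + (j + 1) * h) := by
  induction M with
  | zero => exact ⟨0, Nat.one_pos, by simpa using h0, by simpa using h1⟩
  | succ M ih =>
    by_cases hle : t ≤ t0 + (M + 1 : ℕ) * h
    · obtain ⟨j, hj, k⟩ := ih hle
      exact ⟨j, hj.trans (Nat.lt_succ_self _), k⟩
    · refine ⟨M + 1, Nat.lt_succ_self _, (not_le.1 hle).le, ?_⟩
      push_cast at h1 ⊢
      exact h1

/-- The image of a piece is a segment. -/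
theorem iter_piece {F : E → ℝ} (hc : Continuous F) {z d : E} {τ : Set ℝ} {n : ℕ} {a : Pc}
    (ha : IsP F z d τ n a) {t : ℝ} (ht : t ∈ Icc a.1 a.2.1) :
    (T F)^[n] (z + t • d) =
      ((T F)^[n] (z + a.1 • d) - a.1 • fw a.2.2 d n) + t • fw a.2.2 d n := by
  obtain ⟨-, k1, -, k3, -⟩ := ha
  obtain ⟨s, hs, rfl⟩ := exists_param (α := a.1) (β := a.2.1) (a1 := 0) (a2 := 1) (u := t) k1
    zero_le_one ⟨by linarith [ht.1], by linarith [ht.2]⟩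
  have h := (seg_of k1 k3).iter hc le_rfl hs
  have e1 : z + a.1 • d + s • ((a.2.1 - a.1) • d) = z + (a.1 + s * (a.2.1 - a.1)) • d := by
    rw [smul_smul, add_smul, add_assoc]
  rw [e1] at h
  rw [h, fw_smul, smul_smul, add_smul]
  abel

/-- Concatenation of words. -/
def cat (n : ℕ) (g g' : ℕ → Af) (i : ℕ) : Af := if i < n then g i else g' (i - n)

theorem step {F : E → ℝ} (hc : Continuous F) {V m : ℕ} {δ : ℝ} (hcx : CX F V m δ) (hδ : 0 < δ)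
    {z d : E} {τ : Set ℝ} {n : ℕ} {a : Pc} (ha : IsP F z d τ n a) :
    ∃ Q : Finset Pc, (Q.card : ℝ) ≤ V * ((a.2.1 - a.1) * ‖fw a.2.2 d n‖ / δ + 1) ∧
      ∑ b ∈ Q, (b.2.1 - b.1) ≤ V * (a.2.1 - a.1) ∧
      (∀ b ∈ Q, IsP F z d τ (n + m) b ∧ ∀ i < n, b.2.2 i = a.2.2 i) ∧
      ∀ t ∈ τ, t ∈ Icc a.1 a.2.1 → ∀ g : ℕ → Af,
        (∀ i < n + m, Germ F ((T F)^[i] (z + t • d)) (g i)) → (∀ i < n, a.2.2 i = g i) →
        ∃ b ∈ Q, t ∈ Icc b.1 b.2.1 ∧ ∀ i < n + m, b.2.2 i = g i := by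
  classical
  have hit := fun t ht => iter_piece hc ha (t := t) ht
  obtain ⟨k0, k1, k2, k3, -⟩ := ha
  set w := fw a.2.2 d n with hw
  set p := (T F)^[n] (z + a.1 • d) - a.1 • w with hp
  set X := (a.2.1 - a.1) * ‖w‖ / δ with hX
  have hl : 0 ≤ a.2.1 - a.1 := sub_nonneg.2 k1
  have hX0 : 0 ≤ X := by positivity
  set M := ⌊X⌋₊ with hM
  have hM1 : (0 : ℝ) < (M + 1 : ℕ) := by positivity
  set h := (a.2.1 - a.1) / (M + 1 : ℕ) with hh
  have hh0 : 0 ≤ h := by positivity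
  have hMh : ((M + 1 : ℕ) : ℝ) * h = a.2.1 - a.1 := by rw [hh]; field_simp
  have hshort : h * ‖w‖ ≤ δ := by
    have e1 : X < (M + 1 : ℕ) := by push_cast; exact Nat.lt_floor_add_one X
    rw [hX, div_lt_iff₀ hδ] at e1
    rw [hh, div_mul_eq_mul_div, div_le_iff₀ hM1]
    linarith
  have hex : ∀ j : ℕ, ∃ S : Finset Pc, S.card ≤ V ∧
      (∀ b ∈ S, a.1 + j * h ≤ b.1 ∧ b.1 ≤ b.2.1 ∧ b.2.1 ≤ a.1 + (j + 1) * h ∧
        ∀ i < m, ∀ u ∈ Icc b.1 b.2.1, Germ F ((T F)^[i] (p + u • w)) (b.2.2 i)) ∧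
      ∀ u ∈ Icc (a.1 + j * h) (a.1 + (j + 1) * h), ∀ g : ℕ → Af,
        (∀ i < m, Germ F ((T F)^[i] (p + u • w)) (g i)) →
        ∃ b ∈ S, u ∈ Icc b.1 b.2.1 ∧ ∀ i < m, b.2.2 i = g i := fun j =>
    pieces_on hc hcx p w (by linarith) (by
      have : a.1 + (j + 1) * h - (a.1 + j * h) = h := by ring
      rw [this]; exact hshort)
  choose S hS1 hS2 hS3 using hex
  let φ : Pc → Pc := fun b => (b.1, b.2.1, cat n a.2.2 b.2.2)
  let Q0 : Finset Pc := (Finset.range (M + 1)).biUnion fun j => (S j).image φ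
  let Q : Finset Pc := Q0.filter fun b => ∃ t ∈ τ, t ∈ Icc b.1 b.2.1
  have hmem : ∀ b ∈ Q, ∃ j < M + 1, ∃ b' ∈ S j, φ b' = b := by
    intro b hb
    obtain ⟨j, hj, hb'⟩ := Finset.mem_biUnion.1 (Finset.mem_filter.1 hb).1
    obtain ⟨b', h1, h2⟩ := Finset.mem_image.1 hb'
    exact ⟨j, Finset.mem_range.1 hj, b', h1, h2⟩
  have hcard : Q.card ≤ (M + 1) * V := by
    refine (Finset.card_filter_le _ _).trans (Finset.card_biUnion_le.trans ?_)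
    calc ∑ j ∈ Finset.range (M + 1), ((S j).image φ).card
        ≤ ∑ _j ∈ Finset.range (M + 1), V :=
          Finset.sum_le_sum fun j _ => Finset.card_image_le.trans (hS1 j)
      _ = (M + 1) * V := by simp
  have hcard' : (Q.card : ℝ) ≤ ((M + 1 : ℕ) : ℝ) * V := by exact_mod_cast hcard
  have hsub : ∀ j < M + 1, ∀ b ∈ S j, a.1 ≤ b.1 ∧ b.2.1 ≤ a.2.1 := by
    intro j hj b hb
    obtain ⟨e1, -, e3, -⟩ := hS2 j b hb
    have hj' : (j : ℝ) + 1 ≤ (M + 1 : ℕ) := by exact_mod_cast hj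
    have : (0 : ℝ) ≤ j * h := by positivity
    refine ⟨by linarith, ?_⟩
    have := mul_le_mul_of_nonneg_right hj' hh0
    linarith
  refine ⟨Q, ?_, ?_, ?_, ?_⟩
  · refine hcard'.trans ?_
    have : ((M + 1 : ℕ) : ℝ) ≤ X + 1 := by
      push_cast; linarith [Nat.floor_le hX0]
    rw [mul_comm]
    exact mul_le_mul_of_nonneg_left this (Nat.cast_nonneg _)
  · calc ∑ b ∈ Q, (b.2.1 - b.1) ≤ ∑ _b ∈ Q, h := by
          refine Finset.sum_le_sum fun b hb => ?_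
          obtain ⟨j, -, b', hb', rfl⟩ := hmem b hb
          obtain ⟨e1, -, e3, -⟩ := hS2 j b' hb'
          show b'.2.1 - b'.1 ≤ h
          linarith
      _ = Q.card * h := by simp
      _ ≤ ((M + 1 : ℕ) : ℝ) * V * h := mul_le_mul_of_nonneg_right hcard' hh0
      _ = V * (a.2.1 - a.1) := by rw [← hMh]; ring
  · intro b hb
    have hτ := (Finset.mem_filter.1 hb).2
    obtain ⟨j, hj, b', hb', rfl⟩ := hmem b hb
    obtain ⟨-, e2, -, e4⟩ := hS2 j b' hb'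
    obtain ⟨f1, f2⟩ := hsub j hj b' hb'
    refine ⟨⟨k0.trans f1, e2, f2.trans k2, ?_, hτ⟩, fun i hi => if_pos hi⟩
    intro i hi t ht
    have ht' : t ∈ Icc a.1 a.2.1 := ⟨f1.trans ht.1, ht.2.trans f2⟩
    show Germ F _ (cat n a.2.2 b'.2.2 i)
    unfold cat
    split_ifs with hin
    · exact k3 i hin t ht'
    · obtain ⟨i', rfl⟩ := Nat.exists_eq_add_of_le' (not_lt.1 hin)
      rw [Function.iterate_add_apply, hit t ht', Nat.add_sub_cancel]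
      exact e4 i' (by omega) t ht
  · intro t htτ ht g hg hag
    obtain ⟨j, hj, htj⟩ := exists_part (h := h) (M := M) ht.1 (by rw [hMh]; linarith [ht.2])
    obtain ⟨b', hb', e1, e2⟩ := hS3 j t htj (fun i => g (i + n)) (fun i hi => by
      rw [← hit t ht, ← Function.iterate_add_apply]
      exact hg _ (by omega))
    refine ⟨φ b', Finset.mem_filter.2 ⟨Finset.mem_biUnion.2 ⟨j, Finset.mem_range.2 hj,
      Finset.mem_image_of_mem _ hb'⟩, t, htτ, e1⟩, e1, ?_⟩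
    intro i hi
    show cat n a.2.2 b'.2.2 i = g i
    unfold cat
    split_ifs with hin
    · exact hag i hin
    · obtain ⟨i', rfl⟩ := Nat.exists_eq_add_of_le' (not_lt.1 hin)
      rw [Nat.add_sub_cancel]
      exact e2 i' (by omega)

theorem wt_nonneg {F : E → ℝ} {z d : E} {τ : Set ℝ} {n : ℕ} {a : Pc} (ha : IsP F z d τ n a)
    {δ : ℝ} (hδ : 0 < δ) (k : ℕ) : 0 ≤ wt d δ k a := by
  have := sub_nonneg.2 ha.2.1
  unfold wt
  positivity

section Main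

variable {F : E → ℝ} {L r C l C0 : ℝ} {N : ℕ} {z d : E} {τ : Set ℝ}

theorem piece_lower (ha : Adm F L 2) (hl : Loc F r N)
    (hg : ∀ t ∈ τ, GoodAt F C0 (z + t • d) d) {n : ℕ} {a : Pc} (h : IsP F z d τ n a) {k : ℕ}
    (hk : k ≤ n) : ‖d‖ ≤ C0 * ‖fw a.2.2 d k‖ := by
  obtain ⟨-, -, -, k3, t, ht, ht'⟩ := h
  exact (hg t ht).fw ha hl fun i hi => k3 i (hi.trans_le hk) t ht'

theorem piece_pos (ha : Adm F L 2) (hl : Loc F r N) (hd : d ≠ 0)
    (hg : ∀ t ∈ τ, GoodAt F C0 (z + t • d) d) {n : ℕ} {a : Pc} (h : IsP F z d τ n a) {k : ℕ}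
    (hk : k ≤ n) : 0 < ‖fw a.2.2 d k‖ := by
  have h1 := piece_lower ha hl hg h hk
  have h2 : 0 < ‖d‖ := norm_pos_iff.2 hd
  rcases (norm_nonneg (fw a.2.2 d k)).eq_or_lt with h3 | h3
  · rw [← h3, mul_zero] at h1
    linarith
  · exact h3

theorem piece_grow (ha : Adm F L 2) (hl : Loc F r N) (hh : HYP F C l) (hC : 0 ≤ C) (hl1 : 1 < l)
    (hg : ∀ t ∈ τ, GoodAt F C0 (z + t • d) d) {n m : ℕ} (hn : 4 * C * C * C0 ≤ l ^ n)
    (hn' : 2 * C * C0 ≤ l ^ n) {b : Pc} (h : IsP F z d τ (n + m) b) :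
    ‖fw b.2.2 d n‖ ≤ 2 * C * ‖fw b.2.2 d (n + m)‖ := by
  have h1 := piece_lower ha hl hg h (Nat.le_add_right n m)
  obtain ⟨-, -, -, k3, t, ht, ht'⟩ := h
  have h2 := expAt_of_past ha hh hC hl1 (z := z + t • d) (d := d) (g := b.2.2) (n := n)
    (fun i hi => k3 i (by omega) t ht') h1 hn hn'
  have h3 := h2.fw ha hl (g := fun i => b.2.2 (n + i)) (n := m) (fun i hi => by
    rw [← Function.iterate_add_apply, add_comm i n]
    exact k3 _ (by omega) t ht') (Nat.zero_le m) le_rfl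
  rw [← fw_add b.2.2 d n m] at h3
  have h4 : l ^ (((0 : ℕ) : ℤ) - (m : ℕ)) ≤ 1 :=
    zpow_le_one_of_nonpos₀ hl1.le (by omega)
  have h5 : fw (fun i => b.2.2 (n + i)) (fw b.2.2 d n) 0 = fw b.2.2 d n := rfl
  rw [h5] at h3
  refine h3.trans (mul_le_mul_of_nonneg_right ?_ (norm_nonneg _))
  calc 2 * C * l ^ (((0 : ℕ) : ℤ) - (m : ℕ)) ≤ 2 * C * 1 :=
        mul_le_mul_of_nonneg_left h4 (by positivity)
    _ = 2 * C := mul_one _

theorem fam_step (ha : Adm F L 2) {V m : ℕ} {δ : ℝ} (hcx : CX F V m δ) (hδ : 0 < δ) {n : ℕ}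
    {P : Finset Pc} (hP : Fam F z d τ n P) :
    ∃ P' : Finset Pc, Fam F z d τ (n + m) P' ∧ ∀ δ' ρ : ℝ, 0 < δ' →
      (∀ a, IsP F z d τ n a → ∀ Q : Finset Pc,
        (Q.card : ℝ) ≤ V * ((a.2.1 - a.1) * ‖fw a.2.2 d n‖ / δ + 1) →
        ∑ b ∈ Q, (b.2.1 - b.1) ≤ V * (a.2.1 - a.1) →
        (∀ b ∈ Q, IsP F z d τ (n + m) b ∧ ∀ i < n, b.2.2 i = a.2.2 i) →
        ∑ b ∈ Q, wt d δ' (n + m) b ≤ ρ * wt d δ' n a) →
      ∑ b ∈ P', wt d δ' (n + m) b ≤ ρ * ∑ a ∈ P, wt d δ' n a := by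
  classical
  have hex : ∀ a : Pc, ∃ Q : Finset Pc, IsP F z d τ n a →
      ((Q.card : ℝ) ≤ V * ((a.2.1 - a.1) * ‖fw a.2.2 d n‖ / δ + 1) ∧
      ∑ b ∈ Q, (b.2.1 - b.1) ≤ V * (a.2.1 - a.1) ∧
      (∀ b ∈ Q, IsP F z d τ (n + m) b ∧ ∀ i < n, b.2.2 i = a.2.2 i) ∧
      ∀ t ∈ τ, t ∈ Icc a.1 a.2.1 → ∀ g : ℕ → Af,
        (∀ i < n + m, Germ F ((T F)^[i] (z + t • d)) (g i)) → (∀ i < n, a.2.2 i = g i) →
        ∃ b ∈ Q, t ∈ Icc b.1 b.2.1 ∧ ∀ i < n + m, b.2.2 i = g i) := by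
    intro a
    by_cases h : IsP F z d τ n a
    · obtain ⟨Q, hQ⟩ := step ha.cont hcx hδ h
      exact ⟨Q, fun _ => hQ⟩
    · exact ⟨∅, fun h' => absurd h' h⟩
  choose Q hQ using hex
  refine ⟨P.biUnion Q, ⟨?_, ?_⟩, ?_⟩
  · intro b hb
    obtain ⟨a, ha', hb'⟩ := Finset.mem_biUnion.1 hb
    exact ((hQ a (hP.1 a ha')).2.2.1 b hb').1
  · intro t ht g hg
    obtain ⟨a, ha', e1, e2⟩ := hP.2 t ht g fun i hi => hg i (by omega)
    obtain ⟨b, hb, e3⟩ := (hQ a (hP.1 a ha')).2.2.2 t ht e1 g hg e2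
    exact ⟨b, Finset.mem_biUnion.2 ⟨a, ha', hb⟩, e3⟩
  · intro δ' ρ hδ' H
    refine (sum_biUnion_le P Q _ fun a ha' b hb =>
      wt_nonneg ((hQ a (hP.1 a ha')).2.2.1 b hb).1 hδ' _).trans ?_
    rw [Finset.mul_sum]
    refine Finset.sum_le_sum fun a ha' => ?_
    obtain ⟨e1, e2, e3, -⟩ := hQ a (hP.1 a ha')
    exact H a (hP.1 a ha') _ e1 e2 e3

theorem wt_step (ha : Adm F L 2) (hl : Loc F r N) (hh : HYP F C l) (hC : 0 ≤ C) (hl1 : 1 < l)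
    (hd : d ≠ 0) (hg : ∀ t ∈ τ, GoodAt F C0 (z + t • d) d) {n m V : ℕ} {δ : ℝ} (hδ : 0 < δ)
    (hn : 4 * C * C * C0 ≤ l ^ n) (hn' : 2 * C * C0 ≤ l ^ n) (a : Pc) (h : IsP F z d τ n a)
    (Q : Finset Pc) (e1 : (Q.card : ℝ) ≤ V * ((a.2.1 - a.1) * ‖fw a.2.2 d n‖ / δ + 1))
    (e2 : ∑ b ∈ Q, (b.2.1 - b.1) ≤ V * (a.2.1 - a.1))
    (e3 : ∀ b ∈ Q, IsP F z d τ (n + m) b ∧ ∀ i < n, b.2.2 i = a.2.2 i) :
    ∑ b ∈ Q, wt d δ (n + m) b ≤ (2 * C + 1) * V * wt d δ n a := by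
  have hG := piece_pos ha hl hd hg h le_rfl
  set G := ‖fw a.2.2 d n‖ with hGd
  have hl0 : 0 ≤ a.2.1 - a.1 := sub_nonneg.2 h.2.1
  have f1 : ∑ b ∈ Q, 1 / ‖fw b.2.2 d (n + m)‖ ≤ Q.card * (2 * C / G) := by
    rw [← nsmul_eq_mul, ← Finset.sum_const]
    refine Finset.sum_le_sum fun b hb => ?_
    have g1 := piece_grow ha hl hh hC hl1 hg hn hn' (e3 b hb).1
    have g2 := piece_pos ha hl hd hg (e3 b hb).1 le_rfl
    rw [fw_congr d (g := b.2.2) (g' := a.2.2) (fun i hi => by rw [(e3 b hb).2 i hi])] at g1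
    rw [div_le_div_iff₀ g2 hG]
    linarith
  have f2 : (Q.card : ℝ) * (2 * C / G) ≤ 2 * C * V * ((a.2.1 - a.1) / δ + 1 / G) := by
    refine (mul_le_mul_of_nonneg_right e1 (by positivity)).trans (le_of_eq ?_)
    field_simp
  have f3 : ∑ b ∈ Q, (b.2.1 - b.1) / δ ≤ V * ((a.2.1 - a.1) / δ) := by
    rw [← Finset.sum_div, ← mul_div_assoc]
    exact div_le_div_of_nonneg_right e2 hδ.le
  unfold wt
  rw [Finset.sum_add_distrib, ← hGd]
  have f4 : (0 : ℝ) ≤ V * (1 / G) := by positivity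
  nlinarith

theorem exists_fams (ha : Adm F L 2) (hl : Loc F r N) (h2 : H2 F) (hh : HYP F C l) (hC : 0 ≤ C)
    (hl1 : 1 < l) (hd : d ≠ 0) (hτ : τ ⊆ Icc 0 1) (hne : τ.Nonempty)
    (hg : ∀ t ∈ τ, GoodAt F C0 (z + t • d) d) {Θ : ℕ} (hn : 4 * C * C * C0 ≤ l ^ Θ)
    (hn' : 2 * C * C0 ≤ l ^ Θ) (n0 : ℕ) :
    ∃ B : ℝ, 0 ≤ B ∧ ∀ k : ℕ, ∃ P : Finset Pc, Fam F z d τ (Θ + k * n0) P ∧
      ∑ a ∈ P, 1 / ‖fw a.2.2 d (Θ + k * n0)‖ ≤ B * ((2 * C + 1) * (N ^ 2 : ℕ)) ^ k := by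
  obtain ⟨δ, hδ, hcx⟩ := cx_self ha h2 hl n0
  obtain ⟨δ', hδ', hcx'⟩ := cx_self ha h2 hl Θ
  have h0 : Fam F z d τ 0 {((0 : ℝ), (1 : ℝ), fun _ => (0 : Af))} := by
    refine ⟨fun a ha' => ?_, fun t ht g _ => ⟨_, Finset.mem_singleton_self _, hτ ht,
      fun i hi => absurd hi (Nat.not_lt_zero i)⟩⟩
    rw [Finset.mem_singleton.1 ha']
    obtain ⟨t, ht⟩ := hne
    exact ⟨le_rfl, zero_le_one, le_rfl, fun i hi => absurd hi (Nat.not_lt_zero i), t, ht, hτ ht⟩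
  obtain ⟨P0, hP0, -⟩ := fam_step ha hcx' hδ' h0
  rw [zero_add] at hP0
  refine ⟨∑ a ∈ P0, wt d δ Θ a, Finset.sum_nonneg fun a ha' => wt_nonneg (hP0.1 a ha') hδ _, ?_⟩
  have key : ∀ k : ℕ, ∃ P : Finset Pc, Fam F z d τ (Θ + k * n0) P ∧
      ∑ a ∈ P, wt d δ (Θ + k * n0) a ≤
        (∑ a ∈ P0, wt d δ Θ a) * ((2 * C + 1) * (N ^ 2 : ℕ)) ^ k := by
    intro k
    induction k with
    | zero => exact ⟨P0, by simpa using hP0, by simp⟩
    | succ k ih =>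
      obtain ⟨P, hP, hs⟩ := ih
      obtain ⟨P', hP', hs'⟩ := fam_step ha hcx hδ hP
      have hpow : l ^ Θ ≤ l ^ (Θ + k * n0) := pow_le_pow_right₀ hl1.le (Nat.le_add_right _ _)
      have h3 := hs' δ ((2 * C + 1) * (N ^ 2 : ℕ)) hδ
        (wt_step ha hl hh hC hl1 hd hg hδ (hn.trans hpow) (hn'.trans hpow))
      have e : Θ + (k + 1) * n0 = Θ + k * n0 + n0 := by ring
      rw [e]
      refine ⟨P', hP', h3.trans ?_⟩
      refine (mul_le_mul_of_nonneg_left hs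
        (show (0 : ℝ) ≤ (2 * C + 1) * (N ^ 2 : ℕ) by positivity)).trans (le_of_eq ?_)
      rw [pow_succ _ k]
      ring
  intro k
  obtain ⟨P, hP, hs⟩ := key k
  refine ⟨P, hP, le_trans (Finset.sum_le_sum fun a ha' => ?_) hs⟩
  have := sub_nonneg.2 (hP.1 a ha').2.1
  unfold wt
  have : 0 ≤ (a.2.1 - a.1) / δ := by positivity
  linarith

theorem exists_pow (hl1 : 1 < l) (B : ℝ) : ∃ n : ℕ, 1 ≤ n ∧ B < l ^ n := by
  obtain ⟨n, hn⟩ := ((tendsto_pow_atTop_atTop_of_one_lt hl1).eventually_gt_atTop B).and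
    (eventually_ge_atTop 1) |>.exists
  exact ⟨n, hn.2, hn.1⟩

theorem fw_le (ha : Adm F L 2) {p : E} {g : ℕ → Af} {n m : ℕ}
    (hg : ∀ i < n + m, Germ F ((T F)^[i] p) (g i)) :
    ‖fw g d (n + m)‖ ≤ (2 * L + 2) ^ m * ‖fw g d n‖ := by
  have hL := ha.le_L
  induction m with
  | zero => simp
  | succ m ih =>
    have h1 := ih fun i hi => hg i (by omega)
    obtain ⟨b1, b2, b3⟩ := ha.lg_bd (k := (g (n + m)).1) ⟨(g (n + m)).2, hg (n + m) (by omega)⟩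
    have h2 := norm_TL_le b1 b2 b3 (fw g d (n + m))
    calc ‖fw g d (n + (m + 1))‖ = ‖TL (g (n + m)).1 (fw g d (n + m))‖ := rfl
      _ ≤ (2 * L + 2) * ‖fw g d (n + m)‖ := h2
      _ ≤ (2 * L + 2) * ((2 * L + 2) ^ m * ‖fw g d n‖) :=
          mul_le_mul_of_nonneg_left h1 (by linarith)
      _ = _ := by ring

theorem geom_tail (I K : ℕ) :
    ∑ k ∈ Finset.range K, (if k < I then (0 : ℝ) else (1 / 2) ^ k) ≤ 2 * (1 / 2) ^ I := by
  have key : ∀ K : ℕ, ∑ k ∈ Finset.range K, (if k < I then (0 : ℝ) else (1 / 2) ^ k) ≤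
      2 * (1 / 2) ^ I - 2 * (1 / 2) ^ (max K I) := by
    intro K
    induction K with
    | zero => simp
    | succ K ih =>
      rw [Finset.sum_range_succ]
      split_ifs with h
      · rw [max_eq_right h.le] at ih
        rw [max_eq_right (Nat.succ_le_of_lt h)]
        linarith
      · rw [max_eq_left (not_lt.1 h)] at ih
        rw [max_eq_left ((not_lt.1 h).trans (Nat.le_succ K)), pow_succ]
        linarith
  have h1 := key K
  have h2 : (0 : ℝ) ≤ 2 * (1 / 2) ^ (max K I) := by positivity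
  linarith

theorem sum_cut (f : ℕ → ℝ) (hf : ∀ k, 0 ≤ f k) (I K : ℕ) :
    ∑ k ∈ Finset.range K, (if k < I then f k else 0) ≤ ∑ k ∈ Finset.range I, f k := by
  rw [← Finset.sum_filter]
  refine Finset.sum_le_sum_of_subset_of_nonneg ?_ fun k _ _ => hf k
  intro k hk
  exact Finset.mem_range.2 (Finset.mem_filter.1 hk).2

/-- The last step: two points of one piece whose word expands enough. -/
theorem conclude (ha : Adm F L 2) (hl : Loc F r N) (hl1 : 1 < l) {x : ℤ → ℝ} {c : ℤ → E}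
    (hx : Itin F x c) {g : ℕ → Af} {n : ℕ} (hn : 1 ≤ n) (hc : ∀ i < n, c (i : ℕ) = (g i).1)
    {p : E} (hg : ∀ i < n, Germ F ((T F)^[i] p) (g i)) {η : ℝ} (hpos : 0 < ‖fw g d n‖)
    (hη : 4 * C * ‖d‖ ≤ η * l ^ n * ‖fw g d n‖) :
    ∃ x' c', Itin F x' c' ∧ pt x' 0 = p ∧ c' 0 = c 0 ∧
      ∀ s s', Sol c s → Sol c' s' → Stab C l s → Stab C l s' →
        |dt (pt s 0) (pt s' 0)| ≤ η * (‖pt s 0‖ * ‖pt s' 0‖) := by
  obtain ⟨x', c', h1, h2, h3⟩ := ext_itin ha hl p g n hg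
  have hcc : ∀ i : ℤ, 0 ≤ i → i < n → c' i = c i := by
    intro i hi hi'
    obtain ⟨j, rfl⟩ := Int.eq_ofNat_of_zero_le hi
    have hj : j < n := by exact_mod_cast hi'
    rw [h3 j hj, hc j hj]
  refine ⟨x', c', h1, h2, hcc 0 le_rfl (by exact_mod_cast hn), ?_⟩
  intro s s' hs hs' st st'
  obtain ⟨v, hv, hv0⟩ := exists_sol (ha.itin_bd hx).ne 0 d
  have hs'' : SolOn c s' 0 n := fun i hi hi' => by rw [← hcc i hi hi']; exact hs' i
  have hn0 : (0 : ℤ) ≤ n := Int.natCast_nonneg n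
  have k := dt_small hn0 (hv.solOn 0 n) (hs.solOn 0 n) hs'' (st 0 n hn0) (st' 0 n hn0)
  have e1 : fw g d n = pt v n := by
    rw [← hv0]; exact fw_eq_pt hc (hv.solOn 0 n) le_rfl
  rw [← e1, hv0] at k
  have hl0 : 0 < l ^ n := by positivity
  have e2 : l ^ ((0 : ℤ) - n) = (l ^ n)⁻¹ := by rw [zero_sub, zpow_neg, zpow_natCast]
  rw [e2] at k
  have e3 : 4 * (C * (l ^ n)⁻¹) * ‖d‖ ≤ η * ‖fw g d n‖ := by
    have : 4 * (C * (l ^ n)⁻¹) * ‖d‖ = 4 * C * ‖d‖ / l ^ n := by field_simp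
    rw [this, div_le_iff₀ hl0]
    linarith
  refine le_of_mul_le_mul_right ?_ hpos
  have e4 := mul_le_mul_of_nonneg_right e3
    (show 0 ≤ ‖pt s 0‖ * ‖pt s' 0‖ by positivity)
  calc |dt (pt s 0) (pt s' 0)| * ‖fw g d n‖
      ≤ 4 * (C * (l ^ n)⁻¹) * ‖d‖ * ‖pt s 0‖ * ‖pt s' 0‖ := k
    _ = 4 * (C * (l ^ n)⁻¹) * ‖d‖ * (‖pt s 0‖ * ‖pt s' 0‖) := by ring
    _ ≤ η * ‖fw g d n‖ * (‖pt s 0‖ * ‖pt s' 0‖) := e4
    _ = _ := by ring

end Main

end Clus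

open Clus in
theorem cluster {F : E → ℝ} {L r C l C0 : ℝ} {N : ℕ} (ha : Adm F L 2) (hl : Loc F r N) (h2 : H2 F)
    (hh : HYP F C l) (hl1 : 1 < l) {z d : E} (hd : d ≠ 0) {τ : Set ℝ} (hτ : τ ⊆ Icc 0 1)
    (hg : ∀ t ∈ τ, GoodAt F C0 (z + t • d) d) {ε : ℝ} (hε : 0 < ε) :
    ∃ η0 > 0, ∀ η, 0 < η → η ≤ η0 → ∃ Ts : Finset ℝ, (Ts.card : ℝ) * η ≤ ε ∧
      ∀ t ∈ τ, ∀ t' ∈ τ, (∀ a ∈ Ts, (a < t ↔ a < t') ∧ (a ≤ t ↔ a ≤ t')) →
        ∀ x c, Itin F x c → pt x 0 = z + t • d →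
          ∃ x' c', Itin F x' c' ∧ pt x' 0 = z + t' • d ∧ c' 0 = c 0 ∧
            ∀ s s', Sol c s → Sol c' s' → Stab C l s → Stab C l s' →
              |dt (pt s 0) (pt s' 0)| ≤ η * (‖pt s 0‖ * ‖pt s' 0‖) := by
  classical
  rcases τ.eq_empty_or_nonempty with rfl | hne
  · exact ⟨1, one_pos, fun η _ _ => ⟨∅, by simpa using hε.le, fun t ht => absurd ht (by simp)⟩⟩
  have hC2 := hh.half_le ha hl
  have hC : 0 ≤ C := by linarith
  have hL := ha.le_L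
  have hd0 : 0 < ‖d‖ := norm_pos_iff.2 hd
  have hl0 : 0 < l := by linarith
  have hC0 : 0 < C0 := by
    obtain ⟨t, ht⟩ := hne
    have h1 : ‖d‖ ≤ C0 * ‖d‖ :=
      (hg t ht).fw ha hl (g := fun _ => 0) (n := 0) fun i hi => absurd hi (Nat.not_lt_zero i)
    by_contra h
    nlinarith [not_lt.1 h]
  obtain ⟨Θ, hΘ1, hΘ⟩ := exists_pow hl1 (max (4 * C * C * C0) (2 * C * C0))
  obtain ⟨n0, hn1, hn0⟩ := exists_pow hl1 (2 * ((2 * C + 1) * (N ^ 2 : ℕ)))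
  obtain ⟨B, hB, hP⟩ := exists_fams ha hl h2 hh hC hl1 hd hτ hne hg
    ((le_max_left _ _).trans hΘ.le) ((le_max_right _ _).trans hΘ.le) n0
  choose P hP hS using hP
  obtain ⟨A, hA⟩ : ∃ A : ℝ, A = 4 * C * (l * (2 * L + 2)) ^ n0 := ⟨_, rfl⟩
  have hA0 : 0 ≤ A := by
    have : 0 ≤ 2 * L + 2 := by linarith
    rw [hA]
    positivity
  obtain ⟨I, hI1, hI⟩ := exists_pow (l := 2) one_lt_two (8 * (A * ‖d‖ * B) / ε)
  obtain ⟨M, hM⟩ : ∃ M : ℝ, M = ∑ k ∈ Finset.range I, ((P k).card : ℝ) := ⟨_, rfl⟩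
  have hM0 : 0 ≤ M := hM ▸ Finset.sum_nonneg fun k _ => Nat.cast_nonneg _
  refine ⟨ε / (4 * (M + 1)), by positivity, fun η hη hη0 => ?_⟩
  obtain ⟨K, hK1, hK⟩ := exists_pow hl1 (A * C0 / η)
  let J : ℕ → Finset Pc := fun k => (P k).filter fun a =>
    k = 0 ∨ η * l ^ (Θ + k * n0) * ‖fw a.2.2 d (Θ + k * n0)‖ ≤ A * ‖d‖
  let J' : Finset Pc := (Finset.range K).biUnion J
  have hJ : ∀ k, η * ((J k).card : ℝ) ≤
      η * (if k < I then ((P k).card : ℝ) else 0) +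
        A * ‖d‖ * B * (if k < I then (0 : ℝ) else (1 / 2) ^ k) := by
    intro k
    split_ifs with hk
    · have : ((J k).card : ℝ) ≤ (P k).card := by exact_mod_cast Finset.card_filter_le _ _
      have := mul_le_mul_of_nonneg_left this hη.le
      linarith
    · have hk0 : k ≠ 0 := by omega
      have hpow : 0 < l ^ (Θ + k * n0) := by positivity
      have f1 : η * l ^ (Θ + k * n0) * ((J k).card : ℝ) ≤
          A * ‖d‖ * ∑ a ∈ J k, 1 / ‖fw a.2.2 d (Θ + k * n0)‖ := by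
        rw [Finset.mul_sum, mul_comm, ← nsmul_eq_mul, ← Finset.sum_const]
        refine Finset.sum_le_sum fun a ha' => ?_
        obtain ⟨e1, e2⟩ := Finset.mem_filter.1 ha'
        have e3 := piece_pos ha hl hd hg ((hP k).1 a e1) le_rfl
        rw [mul_one_div, le_div_iff₀ e3]
        exact e2.resolve_left hk0
      have f2 : ∑ a ∈ J k, 1 / ‖fw a.2.2 d (Θ + k * n0)‖ ≤
          B * ((2 * C + 1) * (N ^ 2 : ℕ)) ^ k :=
        (Finset.sum_le_sum_of_subset_of_nonneg (Finset.filter_subset _ _)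
          fun a _ _ => by positivity).trans (hS k)
      have f3 : ((2 * C + 1) * (N ^ 2 : ℕ)) ^ k ≤ (1 / 2) ^ k * l ^ (Θ + k * n0) := by
        calc ((2 * C + 1) * (N ^ 2 : ℕ)) ^ k ≤ (1 / 2 * l ^ n0) ^ k :=
              pow_le_pow_left₀ (by positivity) (by linarith) k
          _ = (1 / 2) ^ k * l ^ (k * n0) := by rw [mul_pow, ← pow_mul, mul_comm n0 k]
          _ ≤ _ := mul_le_mul_of_nonneg_left
              (pow_le_pow_right₀ hl1.le (Nat.le_add_left _ _)) (by positivity)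
      have f4 := mul_le_mul_of_nonneg_left (f2.trans (mul_le_mul_of_nonneg_left f3 hB))
        (show 0 ≤ A * ‖d‖ by positivity)
      rw [mul_zero, zero_add]
      refine le_of_mul_le_mul_right ?_ hpow
      calc η * ((J k).card : ℝ) * l ^ (Θ + k * n0)
          = η * l ^ (Θ + k * n0) * ((J k).card : ℝ) := by ring
        _ ≤ A * ‖d‖ * (B * ((1 / 2) ^ k * l ^ (Θ + k * n0))) := f1.trans f4
        _ = _ := by ring
  have hJ' : η * (J'.card : ℝ) ≤ ε / 2 := by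
    have f1 : (J'.card : ℝ) ≤ ∑ k ∈ Finset.range K, ((J k).card : ℝ) := by
      exact_mod_cast Finset.card_biUnion_le
    have f2 : η * ∑ k ∈ Finset.range K, ((J k).card : ℝ) ≤
        η * M + A * ‖d‖ * B * (2 * (1 / 2) ^ I) := by
      rw [Finset.mul_sum]
      refine (Finset.sum_le_sum fun k _ => hJ k).trans ?_
      rw [Finset.sum_add_distrib, ← Finset.mul_sum, ← Finset.mul_sum, hM]
      exact add_le_add
        (mul_le_mul_of_nonneg_left (sum_cut _ (fun k => Nat.cast_nonneg _) I K) hη.le)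
        (mul_le_mul_of_nonneg_left (geom_tail I K) (by positivity))
    have f3 : η * M ≤ ε / 4 := by
      rw [le_div_iff₀ (by positivity)] at hη0
      nlinarith
    have f4 : A * ‖d‖ * B * (2 * (1 / 2) ^ I) ≤ ε / 4 := by
      rw [div_lt_iff₀ hε] at hI
      have e1 : (0 : ℝ) < 2 ^ I := by positivity
      have e2 : A * ‖d‖ * B * (2 * (1 / 2) ^ I) = 2 * (A * ‖d‖ * B) / 2 ^ I := by
        rw [one_div, inv_pow]; field_simp
      rw [e2, div_le_iff₀ e1]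
      linarith
    have := mul_le_mul_of_nonneg_left f1 hη.le
    linarith
  refine ⟨J'.image (fun a => a.1) ∪ J'.image (fun a => a.2.1), ?_, ?_⟩
  · have f1 : (J'.image (fun a => a.1) ∪ J'.image (fun a => a.2.1)).card ≤ J'.card + J'.card :=
      (Finset.card_union_le _ _).trans (add_le_add Finset.card_image_le Finset.card_image_le)
    have f2 : ((J'.image (fun a => a.1) ∪ J'.image (fun a => a.2.1)).card : ℝ) ≤
        J'.card + J'.card := by exact_mod_cast f1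
    have := mul_le_mul_of_nonneg_right f2 hη.le
    linarith
  intro t ht t' ht' hTs x c hx hx0
  choose κ hκ using hx.2
  let g : ℕ → Af := fun i => (c i, κ i)
  have hgw : ∀ i : ℕ, Germ F ((T F)^[i] (z + t • d)) (g i) := by
    intro i
    have e := hx.1.iter 0 i
    rw [zero_add, hx0] at e
    rw [← e]
    exact hκ i
  have hlow : ∀ n, ‖d‖ ≤ C0 * ‖fw g d n‖ := fun n => (hg t ht).fw ha hl fun i _ => hgw i
  have hex : ∃ k : ℕ, 4 * C * ‖d‖ ≤ η * l ^ (Θ + k * n0) * ‖fw g d (Θ + k * n0)‖ := by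
    obtain ⟨k, -, hk⟩ := exists_pow hl1 (4 * C * C0 / η)
    refine ⟨k, ?_⟩
    have e1 : l ^ k ≤ l ^ (Θ + k * n0) := pow_le_pow_right₀ hl1.le (by nlinarith)
    rw [div_lt_iff₀ hη] at hk
    have e2 := mul_le_mul_of_nonneg_left (hlow (Θ + k * n0)) (show 0 ≤ 4 * C by positivity)
    have e3 : 4 * C * C0 ≤ η * l ^ (Θ + k * n0) := by nlinarith
    have e4 := mul_le_mul_of_nonneg_right e3 (norm_nonneg (fw g d (Θ + k * n0)))
    linarith
  obtain ⟨k, hk1, hkmin⟩ : ∃ k : ℕ,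
      4 * C * ‖d‖ ≤ η * l ^ (Θ + k * n0) * ‖fw g d (Θ + k * n0)‖ ∧ ∀ j < k,
        ¬ 4 * C * ‖d‖ ≤ η * l ^ (Θ + j * n0) * ‖fw g d (Θ + j * n0)‖ :=
    ⟨Nat.find hex, Nat.find_spec hex, fun j hj => Nat.find_min hex hj⟩
  obtain ⟨a, haP, hta, haw⟩ := (hP k).2 t ht g fun i _ => hgw i
  have hfw : fw a.2.2 d (Θ + k * n0) = fw g d (Θ + k * n0) :=
    fw_congr d fun i hi => by rw [haw i hi]
  have hcond : k = 0 ∨ η * l ^ (Θ + k * n0) * ‖fw g d (Θ + k * n0)‖ ≤ A * ‖d‖ := by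
    rcases Nat.eq_zero_or_pos k with h0 | h0
    · exact Or.inl h0
    right
    obtain ⟨j, hj⟩ : ∃ j, k = j + 1 := ⟨k - 1, by omega⟩
    have e1 := not_le.1 (hkmin j (by omega))
    have e : Θ + k * n0 = Θ + j * n0 + n0 := by rw [hj]; ring
    have e2 := fw_le (d := d) ha (n := Θ + j * n0) (m := n0) fun i _ => hgw i
    rw [e, pow_add l _ n0]
    have e3 : 0 ≤ (l * (2 * L + 2)) ^ n0 := by
      have : 0 ≤ 2 * L + 2 := by linarith
      positivity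
    calc η * (l ^ (Θ + j * n0) * l ^ n0) * ‖fw g d (Θ + j * n0 + n0)‖
        ≤ η * (l ^ (Θ + j * n0) * l ^ n0) * ((2 * L + 2) ^ n0 * ‖fw g d (Θ + j * n0)‖) :=
          mul_le_mul_of_nonneg_left e2 (by positivity)
      _ = η * l ^ (Θ + j * n0) * ‖fw g d (Θ + j * n0)‖ * (l * (2 * L + 2)) ^ n0 := by
          rw [mul_pow]; ring
      _ ≤ 4 * C * ‖d‖ * (l * (2 * L + 2)) ^ n0 := mul_le_mul_of_nonneg_right e1.le e3
      _ = A * ‖d‖ := by rw [hA]; ring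
  have hkK : k < K := by
    rcases hcond with h0 | h0
    · omega
    by_contra hcon
    have e1 : l ^ K ≤ l ^ (Θ + k * n0) := pow_le_pow_right₀ hl1.le (by nlinarith [not_lt.1 hcon])
    rw [div_lt_iff₀ hη] at hK
    have e2 : A * C0 < η * l ^ (Θ + k * n0) := by nlinarith
    have e3 := mul_le_mul_of_nonneg_left (hlow (Θ + k * n0))
      (show 0 ≤ η * l ^ (Θ + k * n0) by positivity)
    have e4 := mul_le_mul_of_nonneg_left h0 hC0.le
    have e5 := mul_lt_mul_of_pos_right e2 hd0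
    nlinarith
  have haJ : a ∈ J' := Finset.mem_biUnion.2 ⟨k, Finset.mem_range.2 hkK,
    Finset.mem_filter.2 ⟨haP, by rw [hfw]; exact hcond⟩⟩
  have ht'a : t' ∈ Icc a.1 a.2.1 := by
    refine ⟨(hTs a.1 (Finset.mem_union_left _ (Finset.mem_image_of_mem _ haJ))).2.1 hta.1, ?_⟩
    have := (hTs a.2.1 (Finset.mem_union_right _
      (Finset.mem_image_of_mem (fun a : Pc => a.2.1) haJ))).1
    exact not_lt.1 fun h => not_lt.2 hta.2 (this.2 h)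
  have hpos := piece_pos ha hl hd hg ((hP k).1 a haP) le_rfl
  rw [hfw] at hpos
  exact conclude ha hl hl1 hx (g := g) (by omega) (fun i _ => rfl)
    (fun i hi => by rw [← haw i hi]; exact ((hP k).1 a haP).2.2.2.1 i hi t' ht'a) hpos hk1

end Pool.Agent.MP_369096_an.H89
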