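import Pool.Agent.MP_369096_an.H89.BasC

/-!
TASK Coc1. Hyperbolic cocycles, part 1. Write `|v|_i` for `‖pt v i‖`, `Λ = 2 L + 2`.
Auxiliary lemmas go in namespace `H89.Coc1`.
-/

set_option autoImplicit false

open Set Filter Topology

namespace Pool.Agent.MP_369096_an.H89

namespace Coc1

theorem zp_anti {a b : ℝ} (ha : 0 < a) (hab : a ≤ b) {n : ℤ} (hn : n ≤ 0) : b ^ n ≤ a ^ n := by
  obtain ⟨m, rfl⟩ := Int.exists_eq_neg_ofNat hn
  rw [zpow_neg, zpow_neg, zpow_natCast, zpow_natCast]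
  exact inv_anti₀ (pow_pos ha m) (pow_le_pow_left₀ ha.le hab m)

theorem pt_shift (v : ℤ → ℝ) (s i : ℤ) : pt (fun j => v (j - s)) i = pt v (i - s) := by
  simp only [pt, sub_right_comm i 1 s]

theorem pt_comb (a b : ℝ) (v w : ℤ → ℝ) (i : ℤ) :
    pt (fun k => a * v k + b * w k) i = a • pt v i + b • pt w i := by
  simp only [pt, Prod.smul_mk, Prod.mk_add_mk, smul_eq_mul]

theorem sol_comb {h : ℤ → E} {v w : ℤ → ℝ} {s t : ℤ} (hv : SolOn h v s t) (hw : SolOn h w s t)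
    (a b : ℝ) : SolOn h (fun k => a * v k + b * w k) s t := by
  intro i h1 h2
  change a * v (i + 1) + b * w (i + 1) = _
  rw [hv i h1 h2, hw i h1 h2]
  simp only [lin, pt]
  ring

theorem sol_sub {h : ℤ → E} {v : ℤ → ℝ} {s t s' t' : ℤ} (hv : SolOn h v s t) (h1 : s ≤ s')
    (h2 : t' ≤ t) : SolOn h v s' t' :=
  fun i a b => hv i (h1.trans a) (b.trans_le h2)

theorem L_nonneg {L : ℝ} {h : ℤ → E} (hb : Bd L h) : 0 ≤ L := (abs_nonneg _).trans (hb 0).1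

theorem half_le {C C0 l x y : ℝ} {n : ℤ} (hC : 0 ≤ C) (hl : 0 < l) (hx : 0 ≤ x)
    (h0 : y ≤ C0 * x) (hn : 2 * C * C0 ≤ l ^ n) : C * (l ^ (-n) * y) ≤ x / 2 := by
  have hp : 0 < l ^ n := zpow_pos hl n
  have h1 : C * y ≤ l ^ n * (x / 2) := by
    have a : C * y ≤ C * (C0 * x) := by gcongr
    have b : 2 * C * C0 * x ≤ l ^ n * x := by gcongr
    linarith
  rw [zpow_neg, mul_left_comm, inv_mul_le_iff₀ hp]
  exact h1

theorem ang_gen {L C0 ε : ℝ} {h : ℤ → E} (hb : Bd L h) {v s : ℤ → ℝ} {a b i j : ℤ}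
    (hi : a ≤ i) (hi' : i ≤ b) (hj : a ≤ j) (hj' : j ≤ b)
    (hv : SolOn h v a b) (hs : SolOn h s a b) (hC0 : 0 < C0) (hε : 2 * ε * C0 ≤ 1)
    (h1 : ‖pt v i‖ ≤ C0 * ‖pt v j‖) (h2 : ‖pt s j‖ ≤ ε * ‖pt s i‖) :
    ‖pt v i‖ * ‖pt s i‖ ≤ 2 * C0 * (2 * L + 2) ^ (j - i).natAbs * |dt (pt v i) (pt s i)| := by
  have hL := L_nonneg hb
  by_cases h0 : pt s i = 0
  · rw [h0, norm_zero, mul_zero]; positivity
  have hs0 : 0 < ‖pt s i‖ := norm_pos_iff.2 h0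
  have hε0 : 0 ≤ ε := by
    by_contra hn
    push Not at hn
    exact absurd ((norm_nonneg _).trans h2) (not_le.2 (mul_neg_of_neg_of_pos hn hs0))
  obtain ⟨κ, k1, k2⟩ := exists_decomp (pt s i) (pt v i) h0
  have hr := (sol_comb hv hs 1 (-κ)).norm_le hb hi hi' hj hj'
  rw [pt_comb, pt_comb, one_smul, one_smul, neg_smul, neg_smul, ← sub_eq_add_neg,
    ← sub_eq_add_neg] at hr
  set Λ := (2 * L + 2) ^ (j - i).natAbs with hΛ
  have hΛ0 : 0 ≤ Λ := by positivity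
  have t1 : ‖pt v j‖ ≤ ‖κ • pt s j‖ + ‖pt v j - κ • pt s j‖ := by
    have := norm_add_le (κ • pt s j) (pt v j - κ • pt s j)
    rwa [add_sub_cancel] at this
  have t2 : ‖κ • pt s j‖ ≤ ε * ‖pt v i‖ := by
    rw [norm_smul] at k1 ⊢
    calc ‖κ‖ * ‖pt s j‖ ≤ ‖κ‖ * (ε * ‖pt s i‖) := by gcongr
      _ = ε * (‖κ‖ * ‖pt s i‖) := by ring
      _ ≤ _ := by gcongr
  have t3 : ‖pt v i‖ ≤ C0 * (ε * ‖pt v i‖ + Λ * ‖pt v i - κ • pt s i‖) :=
    h1.trans (by gcongr; linarith)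
  have t4 : 2 * ε * C0 * ‖pt v i‖ ≤ 1 * ‖pt v i‖ := by gcongr
  have t5 : ‖pt v i‖ ≤ 2 * C0 * Λ * ‖pt v i - κ • pt s i‖ := by linarith
  rw [← k2, ← mul_assoc]
  gcongr

theorem exists_pow_ge {l : ℝ} (hl : 1 < l) (x : ℝ) : ∃ n : ℕ, x ≤ l ^ n :=
  ((tendsto_pow_atTop_atTop_of_one_lt hl).eventually_ge_atTop x).exists

theorem tail_zero {l B k : ℝ} (hk : 0 ≤ k) (hkl : k < l) (m : ℤ) {u : ℕ → ℝ}
    (hu0 : ∀ n, 0 ≤ u n) (hu : ∀ n, u n ≤ B * k ^ n) :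
    Tendsto (fun n : ℕ => l ^ (m - n) * u n) atTop (𝓝 0) := by
  have hl : 0 < l := hk.trans_lt hkl
  have h1 : Tendsto (fun n : ℕ => l ^ m * B * (k / l) ^ n) atTop (𝓝 (l ^ m * B * 0)) :=
    (tendsto_pow_atTop_nhds_zero_of_lt_one (div_nonneg hk hl.le)
      ((div_lt_one hl).2 hkl)).const_mul _
  rw [mul_zero] at h1
  refine squeeze_zero (fun n => mul_nonneg (zpow_pos hl _).le (hu0 n)) (fun n => ?_) h1
  calc l ^ (m - n) * u n ≤ l ^ (m - n) * (B * k ^ n) := by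
        have := (zpow_pos hl (m - n)).le
        gcongr; exact hu n
    _ = _ := by
        rw [zpow_sub₀ hl.ne', zpow_natCast, div_pow]; ring

theorem zero_fwd {h : ℤ → E} {w : ℤ → ℝ} {n : ℤ} (hw : SolOn h w 0 n) (h0 : pt w 0 = 0) :
    ∀ m : ℕ, (m : ℤ) ≤ n → pt w m = 0 := by
  intro m
  induction m with
  | zero => exact fun _ => h0
  | succ m ih =>
    intro hm
    push_cast at hm ⊢
    rw [pt_succ (hw m (Int.natCast_nonneg m) (by omega)), ih (by omega)]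
    simp [TL, lin]

end Coc1

open Coc1

theorem Hyp.mono {C C' l l' : ℝ} {h : ℤ → E} (hh : Hyp C l h) (hC0 : 0 ≤ C) (hC : C ≤ C')
    (hl0 : 0 < l') (hl : l' ≤ l) : Hyp C' l' h := by
  intro v s t hv i h1 h2
  have hl1 : 0 < l := hl0.trans_le hl
  have a := zp_anti hl0 hl (n := s - i) (by omega)
  have b := zp_anti hl0 hl (n := i - t) (by omega)
  refine (hh v s t hv i h1 h2).trans ?_
  have := zpow_pos hl1 (s - i)
  have := zpow_pos hl1 (i - t)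
  have : 0 ≤ C' := hC0.trans hC
  gcongr

theorem Hyp.shift {C l : ℝ} {h : ℤ → E} (hh : Hyp C l h) (s : ℤ) : Hyp C l fun j => h (j + s) := by
  intro v a b hv i h1 h2
  have hw : SolOn h (fun j => v (j - s)) (a + s) (b + s) := by
    intro j k1 k2
    have := hv (j - s) (by omega) (by omega)
    simp only [sub_add_cancel] at this
    rw [pt_shift, ← this]
    change v (j + 1 - s) = _
    congr 1; ring
  have := hh _ _ _ hw (i + s) (by omega) (by omega)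
  simpa only [pt_shift, add_sub_cancel_right, add_sub_add_right_eq_sub] using this

/-- Gluing of windows. Proof: for a solution on `[s,t]` put
`φ i = l'^(s-i) |v|_s + l'^(i-t) |v|_t`; if `φ = 0` then `v = 0` on the window; otherwise let `i`
maximise `|v|_i / φ i =: M` on `[s,t]`, apply `Hyp C l h'` on `[max s (i-R), min t (i+R)]`: an interior
end contributes at most `C (l'/l)^R M φ i ≤ M φ i / 4`, a boundary end at most `C φ i`. -/
theorem hyp_glue {L C l l' : ℝ} {h : ℤ → E} (hb : Bd L h) (hC : 0 ≤ C) (hl' : 1 < l') (hl : l' ≤ l)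
    {R : ℕ} (hR : 4 * C * l' ^ R ≤ l ^ R)
    (hw : ∀ c : ℤ, ∃ h', Hyp C l h' ∧ ∀ i, c - R ≤ i → i < c + R → h' i = h i) :
    Hyp (4 * C) l' h := by
  intro v s t hv i0 hs0 ht0
  have hl0 : 0 < l' := one_pos.trans hl'
  have hl1 : 0 < l := hl0.trans_le hl
  let φ : ℤ → ℝ := fun i => l' ^ (s - i) * ‖pt v s‖ + l' ^ (i - t) * ‖pt v t‖
  change _ ≤ 4 * C * φ i0
  have p1 : ∀ i, 0 ≤ l' ^ (s - i) * ‖pt v s‖ := fun i =>
    mul_nonneg (zpow_pos hl0 _).le (norm_nonneg _)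
  have p2 : ∀ i, 0 ≤ l' ^ (i - t) * ‖pt v t‖ := fun i =>
    mul_nonneg (zpow_pos hl0 _).le (norm_nonneg _)
  by_cases hz : ‖pt v s‖ = 0
  · have := hv.norm_le hb le_rfl (hs0.trans ht0) hs0 ht0
    rw [hz, mul_zero] at this
    exact this.trans (mul_nonneg (by positivity) (add_nonneg (p1 _) (p2 _)))
  have hφ : ∀ i, 0 < φ i := fun i =>
    add_pos_of_pos_of_nonneg (mul_pos (zpow_pos hl0 _)
      (lt_of_le_of_ne (norm_nonneg _) (Ne.symm hz))) (p2 i)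
  obtain ⟨i, hi, hmax⟩ := Finset.exists_max_image (Finset.Icc s t) (fun k => ‖pt v k‖ / φ k)
    ⟨i0, Finset.mem_Icc.2 ⟨hs0, ht0⟩⟩
  obtain ⟨hi1, hi2⟩ := Finset.mem_Icc.1 hi
  set M := ‖pt v i‖ / φ i with hM
  have hM0 : 0 ≤ M := div_nonneg (norm_nonneg _) (hφ i).le
  have hle : ∀ k, s ≤ k → k ≤ t → ‖pt v k‖ ≤ M * φ k := fun k a b =>
    (div_le_iff₀ (hφ k)).1 (hmax k (Finset.mem_Icc.2 ⟨a, b⟩))
  have hMi : ‖pt v i‖ = M * φ i := (div_mul_cancel₀ _ (hφ i).ne').symm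
  have hcmp : ∀ k, i - R ≤ k → k ≤ i + R → φ k ≤ l' ^ R * φ i := by
    intro k a b
    have e1 : l' ^ (s - k) ≤ l' ^ R * l' ^ (s - i) := by
      rw [← zpow_natCast, ← zpow_add₀ hl0.ne']
      exact zpow_le_zpow_right₀ hl'.le (by omega)
    have e2 : l' ^ (k - t) ≤ l' ^ R * l' ^ (i - t) := by
      rw [← zpow_natCast, ← zpow_add₀ hl0.ne']
      exact zpow_le_zpow_right₀ hl'.le (by omega)
    calc φ k ≤ l' ^ R * l' ^ (s - i) * ‖pt v s‖ + l' ^ R * l' ^ (i - t) * ‖pt v t‖ := by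
          simp only [φ]; gcongr
      _ = _ := by simp only [φ]; ring
  have hint : ∀ k, s ≤ k → k ≤ t → i - R ≤ k → k ≤ i + R →
      C * (l ^ (-(R : ℤ)) * ‖pt v k‖) ≤ M * φ i / 4 := by
    intro k a b c d
    have hp : 0 < l ^ R := pow_pos hl1 R
    have q1 : ‖pt v k‖ ≤ M * (l' ^ R * φ i) := (hle k a b).trans (by gcongr; exact hcmp k c d)
    have q2 : C * ‖pt v k‖ ≤ C * (M * (l' ^ R * φ i)) := by gcongr
    have q3 : 4 * C * l' ^ R * (M * φ i) ≤ l ^ R * (M * φ i) := by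
      have := (hφ i).le
      gcongr
    rw [zpow_neg, zpow_natCast, mul_left_comm, inv_mul_le_iff₀ hp]
    linarith
  obtain ⟨h', hh', he⟩ := hw i
  have hv' : SolOn h' v (max s (i - R)) (min t (i + R)) := by
    intro k a b
    rw [he k ((le_max_right _ _).trans a) (b.trans_le (min_le_right _ _))]
    exact hv k ((le_max_left _ _).trans a) (b.trans_le (min_le_left _ _))
  have key := hh' v _ _ hv' i (max_le hi1 (by omega)) (le_min hi2 (by omega))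
  have hq : 0 ≤ M * φ i / 4 := by have := (hφ i).le; positivity
  have hq' : 0 ≤ C * φ i := mul_nonneg hC (hφ i).le
  have b1 : C * (l ^ (max s (i - R) - i) * ‖pt v (max s (i - R))‖) ≤ C * φ i + M * φ i / 4 := by
    rcases le_total s (i - R) with c | c
    · rw [max_eq_right c, show i - R - i = -(R : ℤ) by ring]
      linarith [hint (i - R) c (by omega) le_rfl (by omega)]
    · rw [max_eq_left c]
      have a := zp_anti hl0 hl (n := s - i) (by omega)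
      have : l ^ (s - i) * ‖pt v s‖ ≤ φ i :=
        le_trans (by gcongr) (le_add_of_nonneg_right (p2 i))
      have : C * (l ^ (s - i) * ‖pt v s‖) ≤ C * φ i := by gcongr
      linarith
  have b2 : C * (l ^ (i - min t (i + R)) * ‖pt v (min t (i + R))‖) ≤ C * φ i + M * φ i / 4 := by
    rcases le_total t (i + R) with c | c
    · rw [min_eq_left c]
      have a := zp_anti hl0 hl (n := i - t) (by omega)
      have : l ^ (i - t) * ‖pt v t‖ ≤ φ i :=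
        le_trans (by gcongr) (le_add_of_nonneg_left (p1 i))
      have : C * (l ^ (i - t) * ‖pt v t‖) ≤ C * φ i := by gcongr
      linarith
    · rw [min_eq_right c, show i - (i + R) = -(R : ℤ) by ring]
      linarith [hint (i + R) (by omega) c (by omega) le_rfl]
  have hM4 : M ≤ 4 * C := by
    refine le_of_mul_le_mul_right ?_ (hφ i)
    rw [mul_add] at key
    linarith
  exact (hle i0 hs0 ht0).trans (mul_le_mul_of_nonneg_right hM4 (hφ i0).le)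

theorem exists_glue_R {C l l' : ℝ} (hl' : 1 < l') (hl : l' < l) :
    ∃ R : ℕ, 1 ≤ R ∧ ∀ R' ≥ R, 4 * C * l' ^ R' ≤ l ^ R' := by
  have hl0 : 0 < l' := one_pos.trans hl'
  obtain ⟨R, hR⟩ := eventually_atTop.1
    ((tendsto_pow_atTop_atTop_of_one_lt ((one_lt_div hl0).2 hl)).eventually_ge_atTop (4 * C))
  refine ⟨R + 1, by omega, fun R' h => ?_⟩
  have := hR R' (by omega)
  rwa [div_pow, le_div_iff₀ (pow_pos hl0 _)] at this

/-- A vector that has not collapsed keeps growing. -/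
theorem Hyp.grow {C l C0 : ℝ} {h : ℤ → E} (hh : Hyp C l h) (hC : 0 ≤ C) (hl : 0 < l) {v : ℤ → ℝ}
    {s i j : ℤ} (hv : SolOn h v s j) (hsi : s ≤ i) (hij : i ≤ j)
    (h0 : ‖pt v s‖ ≤ C0 * ‖pt v i‖) (hn : 2 * C * C0 ≤ l ^ (i - s)) :
    ‖pt v i‖ ≤ 2 * C * l ^ (i - j) * ‖pt v j‖ := by
  have h1 := hh v s j hv i hsi hij
  have h2 := half_le hC hl (norm_nonneg _) h0 hn
  rw [neg_sub] at h2
  rw [mul_add] at h1
  linarith

/-- The same backwards in time. -/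
theorem Hyp.grow' {C l C0 : ℝ} {h : ℤ → E} (hh : Hyp C l h) (hC : 0 ≤ C) (hl : 0 < l) {v : ℤ → ℝ}
    {t i j : ℤ} (hv : SolOn h v j t) (hit : i ≤ t) (hij : j ≤ i)
    (h0 : ‖pt v t‖ ≤ C0 * ‖pt v i‖) (hn : 2 * C * C0 ≤ l ^ (t - i)) :
    ‖pt v i‖ ≤ 2 * C * l ^ (j - i) * ‖pt v j‖ := by
  have h1 := hh v j t hv i hij hit
  have h2 := half_le hC hl (norm_nonneg _) h0 hn
  rw [neg_sub] at h2
  rw [mul_add] at h1
  linarith

/-- No collapse on a long window implies no collapse at all. -/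
theorem Hyp.et_win {C l C1 : ℝ} {h : ℤ → E} (hh : Hyp C l h) (hC : 0 ≤ C) (hl : 1 ≤ l)
    (hC1 : 0 ≤ C1) {v : ℤ → ℝ} (hv : Sol h v) {R : ℕ} (hR : 2 * C * C1 ≤ l ^ R)
    (hw : ∀ j : ℤ, |j| ≤ R → ‖pt v 0‖ ≤ C1 * ‖pt v j‖) (j : ℤ) :
    ‖pt v 0‖ ≤ C1 * (2 * C + 1) * ‖pt v j‖ := by
  have hl0 : 0 < l := one_pos.trans_le hl
  have hj0 := norm_nonneg (pt v j)
  have fin : ∀ {k n : ℤ}, n ≤ 0 → ‖pt v 0‖ ≤ C1 * ‖pt v k‖ →
      ‖pt v k‖ ≤ 2 * C * l ^ n * ‖pt v j‖ → ‖pt v 0‖ ≤ C1 * (2 * C + 1) * ‖pt v j‖ := by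
    intro k n hn a b
    have c : l ^ n ≤ 1 := zpow_le_one_of_nonpos₀ hl hn
    calc ‖pt v 0‖ ≤ C1 * ‖pt v k‖ := a
      _ ≤ C1 * (2 * C * 1 * ‖pt v j‖) := by
          refine mul_le_mul_of_nonneg_left (b.trans ?_) hC1
          gcongr
      _ ≤ C1 * ((2 * C + 1) * ‖pt v j‖) := by gcongr; linarith
      _ = _ := by ring
  by_cases h1 : |j| ≤ R
  · refine (hw j h1).trans ?_
    rw [mul_assoc]
    gcongr
    nlinarith
  rw [abs_le, not_and_or, not_le, not_le] at h1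
  rcases h1 with h1 | h1
  · have a := hw (-R) (by simp)
    refine fin (n := j - -R) (by omega) a
      (hh.grow' hC hl0 (hv.solOn j 0) (by omega) h1.le a ?_)
    rwa [zero_sub, neg_neg, zpow_natCast]
  · have a := hw R (by simp)
    refine fin (n := R - j) (by omega) a (hh.grow hC hl0 (hv.solOn 0 j) (by omega) h1.le a ?_)
    rwa [sub_zero, zpow_natCast]

/-- Angle bound: `v` does not collapse from `i` to `j`, `s` contracts. Use `exists_decomp`: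
`v = κ s + r` at time `i`, so `|v|_i / C0 ≤ |v|_j ≤ ε |v|_i + Λ^(j-i) ‖r‖`. -/
theorem ang_fwd {L C0 ε : ℝ} {h : ℤ → E} (hb : Bd L h) {v s : ℤ → ℝ} {i j : ℤ} (hij : i ≤ j)
    (hv : SolOn h v i j) (hs : SolOn h s i j) (hC0 : 0 < C0) (hε : 2 * ε * C0 ≤ 1)
    (h1 : ‖pt v i‖ ≤ C0 * ‖pt v j‖) (h2 : ‖pt s j‖ ≤ ε * ‖pt s i‖) :
    ‖pt v i‖ * ‖pt s i‖ ≤ 2 * C0 * (2 * L + 2) ^ (j - i).natAbs * |dt (pt v i) (pt s i)| :=
  ang_gen hb le_rfl hij hij le_rfl hv hs hC0 hε h1 h2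

theorem ang_bwd {L C0 ε : ℝ} {h : ℤ → E} (hb : Bd L h) {v s : ℤ → ℝ} {i j : ℤ} (hij : j ≤ i)
    (hv : SolOn h v j i) (hs : SolOn h s j i) (hC0 : 0 < C0) (hε : 2 * ε * C0 ≤ 1)
    (h1 : ‖pt v i‖ ≤ C0 * ‖pt v j‖) (h2 : ‖pt s j‖ ≤ ε * ‖pt s i‖) :
    ‖pt v i‖ * ‖pt s i‖ ≤ 2 * C0 * (2 * L + 2) ^ (j - i).natAbs * |dt (pt v i) (pt s i)| :=
  ang_gen hb hij le_rfl le_rfl hij hv hs hC0 hε h1 h2

/-- Uniform angle between a vector that never collapses and a stable solution. -/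
theorem ang_good (L C l C0 : ℝ) (hl : 1 < l) (hC : 0 ≤ C) : ∃ α > 0, ∀ (h : ℤ → E) (v s : ℤ → ℝ)
    (i : ℤ), Bd L h → (∀ j, i ≤ j → SolOn h v i j) → (∀ j, i ≤ j → SolOn h s i j) →
    (∀ j, i ≤ j → ‖pt v i‖ ≤ C0 * ‖pt v j‖) →
    (∀ j, i ≤ j → ‖pt s j‖ ≤ C * l ^ (i - j) * ‖pt s i‖) →
    α * (‖pt v i‖ * ‖pt s i‖) ≤ |dt (pt v i) (pt s i)| := by
  have hl0 : 0 < l := one_pos.trans hl
  have hD : 0 < max C0 1 := one_pos.trans_le (le_max_right _ _)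
  obtain ⟨n, hn⟩ := exists_pow_ge hl (2 * C * max C0 1)
  refine ⟨(2 * max C0 1 * (2 * |L| + 2) ^ n)⁻¹, by positivity, fun h v s i hb hv hs h1 h2 => ?_⟩
  have hij : i ≤ i + n := by omega
  have hε : 2 * (C * l ^ (i - (i + n))) * max C0 1 ≤ 1 := by
    rw [show i - (i + n) = -(n : ℤ) by ring, zpow_neg, zpow_natCast]
    have : 2 * (C * (l ^ n)⁻¹) * max C0 1 = 2 * C * max C0 1 / l ^ n := by ring
    rw [this, div_le_one (pow_pos hl0 n)]
    exact hn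
  have := ang_fwd hb hij (hv _ hij) (hs _ hij) hD hε
    ((h1 _ hij).trans (mul_le_mul_of_nonneg_right (le_max_left _ _) (norm_nonneg _))) (h2 _ hij)
  rw [add_sub_cancel_left, Int.natAbs_natCast] at this
  rw [abs_of_nonneg (L_nonneg hb), inv_mul_le_iff₀ (by have := L_nonneg hb; positivity)]
  exact this

theorem ang_good' (L C l C0 : ℝ) (hl : 1 < l) (hC : 0 ≤ C) : ∃ α > 0, ∀ (h : ℤ → E) (v u : ℤ → ℝ)
    (i : ℤ), Bd L h → (∀ j, j ≤ i → SolOn h v j i) → (∀ j, j ≤ i → SolOn h u j i) →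
    (∀ j, j ≤ i → ‖pt v i‖ ≤ C0 * ‖pt v j‖) →
    (∀ j, j ≤ i → ‖pt u j‖ ≤ C * l ^ (j - i) * ‖pt u i‖) →
    α * (‖pt v i‖ * ‖pt u i‖) ≤ |dt (pt v i) (pt u i)| := by
  have hl0 : 0 < l := one_pos.trans hl
  have hD : 0 < max C0 1 := one_pos.trans_le (le_max_right _ _)
  obtain ⟨n, hn⟩ := exists_pow_ge hl (2 * C * max C0 1)
  refine ⟨(2 * max C0 1 * (2 * |L| + 2) ^ n)⁻¹, by positivity, fun h v s i hb hv hs h1 h2 => ?_⟩
  have hij : i - n ≤ i := by omega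
  have hε : 2 * (C * l ^ (i - n - i)) * max C0 1 ≤ 1 := by
    rw [show i - n - i = -(n : ℤ) by ring, zpow_neg, zpow_natCast]
    have : 2 * (C * (l ^ n)⁻¹) * max C0 1 = 2 * C * max C0 1 / l ^ n := by ring
    rw [this, div_le_one (pow_pos hl0 n)]
    exact hn
  have := ang_bwd hb hij (hv _ hij) (hs _ hij) hD hε
    ((h1 _ hij).trans (mul_le_mul_of_nonneg_right (le_max_left _ _) (norm_nonneg _))) (h2 _ hij)
  rw [show i - n - i = -(n : ℤ) by ring, Int.natAbs_neg, Int.natAbs_natCast] at this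
  rw [abs_of_nonneg (L_nonneg hb), inv_mul_le_iff₀ (by have := L_nonneg hb; positivity)]
  exact this

/-- A solution that grows slower than `l ^ n` is stable (let `t → ∞` in `Hyp`). -/
theorem Hyp.stab_of {C l B k : ℝ} {h : ℤ → E} (hh : Hyp C l h) (hk : 0 ≤ k) (hkl : k < l)
    {v : ℤ → ℝ} (hv : Sol h v) {i0 : ℤ} (hB : ∀ n : ℕ, ‖pt v (i0 + n)‖ ≤ B * k ^ n) :
    Stab C l v := by
  intro i j hij
  have h1 := tail_zero hk hkl (j - i0) (fun n => norm_nonneg _) hB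
  have h2 := (h1.const_add (l ^ (i - j) * ‖pt v i‖)).const_mul C
  rw [add_zero, ← mul_assoc] at h2
  refine ge_of_tendsto h2 ?_
  filter_upwards [eventually_ge_atTop (j - i0).toNat] with n hn
  have := hh v i (i0 + n) (hv.solOn _ _) j hij (by omega)
  rwa [← sub_sub] at this

theorem Hyp.unst_of {C l B k : ℝ} {h : ℤ → E} (hh : Hyp C l h) (hk : 0 ≤ k) (hkl : k < l)
    {v : ℤ → ℝ} (hv : Sol h v) {i0 : ℤ} (hB : ∀ n : ℕ, ‖pt v (i0 - n)‖ ≤ B * k ^ n) :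
    Unst C l v := by
  intro i j hij
  have h1 := tail_zero hk hkl (i0 - i) (fun n => norm_nonneg _) hB
  have h2 := (h1.add_const (l ^ (i - j) * ‖pt v j‖)).const_mul C
  rw [zero_add, ← mul_assoc] at h2
  refine ge_of_tendsto h2 ?_
  filter_upwards [eventually_ge_atTop (i0 - i).toNat] with n hn
  have := hh v (i0 - n) j (hv.solOn _ _) i (by omega) hij
  rwa [sub_right_comm] at this

/-- Large slopes. Maximum principle for `|v i| / φ i` on `[s-1, t]` with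
`φ i = 3^(s-1-i) |v (s-1)| + 3^(i-t) |v t|`, using `20 |v i| ≤ |v (i+1)| + |v (i-1)|`. -/
theorem hyp_big {h : ℤ → E} (hh : ∀ i, 20 ≤ |(h i).1| ∧ (h i).2 = -1) : Hyp 3 3 h := by
  intro v s t hv i hsi hit
  have h3 : ∀ n : ℤ, (0 : ℝ) < 3 ^ n := fun n => zpow_pos (by norm_num) n
  have hs : ∀ n : ℤ, (3 : ℝ) ^ (n + 1) = 3 * 3 ^ n := fun n => by
    rw [zpow_add_one₀ (by norm_num), mul_comm]
  let φ : ℤ → ℝ := fun k => 3 ^ (s - 1 - k) * |v (s - 1)| + 3 ^ (k - t) * |v t|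
  have p1 : ∀ k, 0 ≤ (3 : ℝ) ^ (s - 1 - k) * |v (s - 1)| := fun k =>
    mul_nonneg (h3 _).le (abs_nonneg _)
  have p2 : ∀ k, 0 ≤ (3 : ℝ) ^ (k - t) * |v t| := fun k => mul_nonneg (h3 _).le (abs_nonneg _)
  obtain ⟨k, hk, hmax⟩ := Finset.exists_max_image (Finset.Icc (s - 1) t) (fun k => |v k| - φ k)
    ⟨i, Finset.mem_Icc.2 ⟨by omega, hit⟩⟩
  obtain ⟨hk1, hk2⟩ := Finset.mem_Icc.1 hk
  have hD : |v k| - φ k ≤ 0 := by
    by_contra hn
    push Not at hn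
    have n1 : k ≠ s - 1 := by
      rintro rfl
      have := p2 (s - 1)
      simp only [φ, sub_self, zpow_zero, one_mul] at hn
      linarith
    have n2 : k ≠ t := by
      rintro rfl
      have := p1 k
      simp only [φ, sub_self, zpow_zero, one_mul] at hn
      linarith
    have e := hv k (by omega) (by omega)
    have e' : (h k).1 * v k = v (k + 1) + v (k - 1) := by
      rw [e]; simp only [lin, pt, (hh k).2]; ring
    have b : 20 * |v k| ≤ |v (k + 1)| + |v (k - 1)| := by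
      calc 20 * |v k| ≤ |(h k).1| * |v k| := by gcongr; exact (hh k).1
        _ = |v (k + 1) + v (k - 1)| := by rw [← abs_mul, e']
        _ ≤ _ := abs_add_le _ _
    have c1 := hmax (k + 1) (Finset.mem_Icc.2 ⟨by omega, by omega⟩)
    have c2 := hmax (k - 1) (Finset.mem_Icc.2 ⟨by omega, by omega⟩)
    have d1 := hs (s - 1 - (k + 1))
    have d2 := hs (s - 1 - k)
    have d3 := hs (k - t)
    have d4 := hs (k - 1 - t)
    rw [show s - 1 - (k + 1) + 1 = s - 1 - k by ring] at d1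
    rw [show s - 1 - k + 1 = s - 1 - (k - 1) by ring] at d2
    rw [show k - t + 1 = k + 1 - t by ring] at d3
    rw [show k - 1 - t + 1 = k - t by ring] at d4
    have q1 := p1 (k + 1)
    have q2 := p2 (k - 1)
    simp only [φ] at c1 c2 hn
    rw [d2, d1] at c2
    rw [d3, d4, d1] at c1
    rw [d4] at c2
    rw [d1, d4] at hn
    linarith
  have hle : ∀ m, s - 1 ≤ m → m ≤ t → |v m| ≤ φ m := fun m a b => by
    linarith [hmax m (Finset.mem_Icc.2 ⟨a, b⟩)]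
  have a1 : |v (s - 1)| ≤ ‖pt v s‖ := norm_snd_le (pt v s)
  have a2 : |v t| ≤ ‖pt v t‖ := norm_fst_le (pt v t)
  have d1 := hs (s - 1 - i)
  have d2 := hs (i - 1 - t)
  rw [show s - 1 - i + 1 = s - i by ring] at d1
  rw [show i - 1 - t + 1 = i - t by ring] at d2
  have g1 : 3 ^ (s - 1 - i) * |v (s - 1)| ≤ 3 ^ (s - 1 - i) * ‖pt v s‖ :=
    mul_le_mul_of_nonneg_left a1 (h3 _).le
  have g2 : 3 ^ (i - 1 - t) * |v t| ≤ 3 ^ (i - 1 - t) * ‖pt v t‖ :=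
    mul_le_mul_of_nonneg_left a2 (h3 _).le
  have q1 := p1 i
  have q2 := p2 (i - 1)
  have r1 := hle i (by omega) hit
  have r2 := hle (i - 1) (by omega) (by omega)
  simp only [φ] at r1 r2
  rw [show s - 1 - (i - 1) = s - i by ring, d1] at r2
  rw [d2] at r1
  rw [d1, d2]
  refine norm_prod_le_iff.2 ⟨?_, ?_⟩
  · change |v i| ≤ _
    linarith
  · change |v (i - 1)| ≤ _
    linarith

/-- Two solutions that contract over a word along which `v` expands are almost parallel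
(propagate `dt_id` to time `n`). -/
theorem dt_small {h : ℤ → E} {v s s' : ℤ → ℝ} {n : ℤ} (hn : 0 ≤ n) (hv : SolOn h v 0 n)
    (hs : SolOn h s 0 n) (hs' : SolOn h s' 0 n) {ε : ℝ} (h1 : ‖pt s n‖ ≤ ε * ‖pt s 0‖)
    (h2 : ‖pt s' n‖ ≤ ε * ‖pt s' 0‖) :
    |dt (pt s 0) (pt s' 0)| * ‖pt v n‖ ≤ 4 * ε * ‖pt v 0‖ * ‖pt s 0‖ * ‖pt s' 0‖ := by
  have hw := sol_comb hv (sol_comb hs hs' (dt (pt v 0) (pt s' 0)) (dt (pt s 0) (pt v 0)))
    (dt (pt s 0) (pt s' 0)) (-1)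
  have h0 := zero_fwd hw (by
    rw [pt_comb, pt_comb, dt_id, neg_one_smul, add_neg_cancel]) n.toNat (by omega)
  rw [Int.toNat_of_nonneg hn, pt_comb, pt_comb, neg_one_smul, add_neg_eq_zero] at h0
  have a1 := abs_dt_le (pt v 0) (pt s' 0)
  have a2 := abs_dt_le (pt s 0) (pt v 0)
  calc |dt (pt s 0) (pt s' 0)| * ‖pt v n‖ = ‖dt (pt s 0) (pt s' 0) • pt v n‖ := by
        rw [norm_smul, Real.norm_eq_abs]
    _ ≤ |dt (pt v 0) (pt s' 0)| * ‖pt s n‖ + |dt (pt s 0) (pt v 0)| * ‖pt s' n‖ := by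
        rw [h0]
        refine (norm_add_le _ _).trans (le_of_eq ?_)
        rw [norm_smul, norm_smul, Real.norm_eq_abs, Real.norm_eq_abs]
    _ ≤ 2 * ‖pt v 0‖ * ‖pt s' 0‖ * (ε * ‖pt s 0‖) + 2 * ‖pt s 0‖ * ‖pt v 0‖ * (ε * ‖pt s' 0‖) := by
        gcongr
    _ = _ := by ring

end Pool.Agent.MP_369096_an.H89
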