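import Pool.Agent.MP_369096_an.H89.Coc2

/-!
TASK Coc3. Modification of a hyperbolic cocycle on a window; polynomial families. Write `|v|_i` for `‖pt v i‖`, `Λ = 2L+2`. Auxiliary lemmas go in namespace `H89.Coc3`.
-/

set_option autoImplicit false

open Set Filter Topology

namespace Pool.Agent.MP_369096_an.H89

namespace Coc3

theorem solOn_sub {h : ℤ → E} {v : ℤ → ℝ} {s t s' t' : ℤ} (hv : SolOn h v s t) (h1 : s ≤ s')
    (h2 : t' ≤ t) : SolOn h v s' t' := fun i hi hi' => hv i (by omega) (by omega)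

theorem solOn_congr {h h' : ℤ → E} {v : ℤ → ℝ} {s t : ℤ} (hv : SolOn h v s t)
    (he : ∀ i, s ≤ i → i < t → h i = h' i) : SolOn h' v s t :=
  fun i hi hi' => by rw [← he i hi hi']; exact hv i hi hi'

theorem pt_comb (β γ : ℝ) (u s : ℤ → ℝ) (i : ℤ) :
    pt (fun j => β * u j + γ * s j) i = β • pt u i + γ • pt s i := by
  simp [pt]

theorem solOn_comb {h : ℤ → E} {u s : ℤ → ℝ} {a b : ℤ} (hu : SolOn h u a b) (hs : SolOn h s a b)
    (β γ : ℝ) : SolOn h (fun j => β * u j + γ * s j) a b := by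
  intro i hi hi'
  have h1 := hu i hi hi'
  have h2 := hs i hi hi'
  simp only [lin, pt] at h1 h2 ⊢
  rw [h1, h2]
  ring

theorem comb_eq {h : ℤ → E} (hb : ∀ i, (h i).2 ≠ 0) {u s v : ℤ → ℝ} {a b : ℤ}
    (hu : SolOn h u a b) (hs : SolOn h s a b) (hv : SolOn h v a b) {β γ : ℝ} {i : ℤ} (hi : a ≤ i)
    (hi' : i ≤ b) (he : pt v i = β • pt u i + γ • pt s i) {j : ℤ} (hj : a ≤ j) (hj' : j ≤ b) :
    pt v j = β • pt u j + γ • pt s j := by
  rw [← pt_comb] at he ⊢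
  exact SolOn.unique hb hv (solOn_comb hu hs β γ) hi hi' he hj hj'

theorem ne_zero {L : ℝ} {h : ℤ → E} (hb : Bd L h) {v : ℤ → ℝ} (hv : Sol h v) {i : ℤ}
    (hi : pt v i ≠ 0) (j : ℤ) : pt v j ≠ 0 := by
  intro hj
  have := SolOn.norm_le hb (hv.solOn (min i j) (max i j)) (i := j) (j := i) (by omega) (by omega)
    (by omega) (by omega)
  rw [hj, norm_zero, mul_zero] at this
  exact hi (norm_le_zero_iff.mp this)

theorem dt_swap (u v : E) : dt u v = -dt v u := by simp only [dt]; ring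

theorem dt_comb (β γ : ℝ) (u s e : E) : dt (β • u + γ • s) e = β * dt u e + γ * dt s e := by
  simp only [dt, Prod.fst_add, Prod.snd_add, Prod.smul_fst, Prod.smul_snd, smul_eq_mul]; ring

theorem dt_self (u : E) : dt u u = 0 := by simp only [dt]; ring

theorem decomp {α : ℝ} (hα : 0 < α) {u s : E} (hu : u ≠ 0) (hs : s ≠ 0)
    (h : α * (‖u‖ * ‖s‖) ≤ |dt u s|) (d : E) :
    ∃ β γ : ℝ, d = β • u + γ • s ∧ |β| * ‖u‖ ≤ 2 / α * ‖d‖ ∧ |γ| * ‖s‖ ≤ 2 / α * ‖d‖ := by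
  have hu' : 0 < ‖u‖ := norm_pos_iff.mpr hu
  have hs' : 0 < ‖s‖ := norm_pos_iff.mpr hs
  have h0 : 0 < |dt u s| := lt_of_lt_of_le (by positivity) h
  have h1 : dt u s ≠ 0 := abs_pos.mp h0
  have key : ∀ x y : ℝ, 0 ≤ y → |x| * y ≤ 2 * ‖d‖ * (‖u‖ * ‖s‖) →
      |x / dt u s| * y ≤ 2 / α * ‖d‖ := by
    intro x y _ hx
    rw [abs_div, div_mul_eq_mul_div, div_le_iff₀ h0]
    calc |x| * y ≤ 2 * ‖d‖ * (‖u‖ * ‖s‖) := hx
      _ = 2 / α * ‖d‖ * (α * (‖u‖ * ‖s‖)) := by field_simp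
      _ ≤ _ := mul_le_mul_of_nonneg_left h (by positivity)
  refine ⟨dt d s / dt u s, dt u d / dt u s, ?_, key _ _ hu'.le ?_, key _ _ hs'.le ?_⟩
  · have := dt_id u s d
    rw [div_eq_inv_mul, div_eq_inv_mul, mul_smul, mul_smul, ← smul_add, ← this, smul_smul,
      inv_mul_cancel₀ h1, one_smul]
  · have := mul_le_mul_of_nonneg_right (abs_dt_le d s) hu'.le
    linarith
  · have := mul_le_mul_of_nonneg_right (abs_dt_le u d) hs'.le
    linarith

theorem ang_us (L C l : ℝ) (hl : 1 < l) (hC : 0 ≤ C) : ∃ α > 0, ∀ (h : ℤ → E) (u s : ℤ → ℝ),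
    Bd L h → Sol h u → Unst C l u → Sol h s → Stab C l s →
    ∀ i, α * (‖pt u i‖ * ‖pt s i‖) ≤ |dt (pt u i) (pt s i)| := by
  obtain ⟨α, hα, H⟩ := ang_good L C l C hl hC
  refine ⟨α, hα, fun h u s hb hu hU hs hS i => H h u s i hb (fun j _ => hu.solOn i j)
    (fun j _ => hs.solOn i j) (fun j hj => (hU i j hj).trans ?_) fun j hj => hS i j hj⟩
  apply mul_le_mul_of_nonneg_right _ (norm_nonneg _)
  exact mul_le_of_le_one_right hC (zpow_le_one_of_nonpos₀ hl.le (by omega))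

theorem pow_win {L : ℝ} (hL : 0 ≤ L) {h : ℤ → E} (hb : Bd L h) {v : ℤ → ℝ} {s t : ℤ}
    (hv : SolOn h v s t) {i j : ℤ} (hi : s ≤ i) (hi' : i ≤ t) (hj : s ≤ j) (hj' : j ≤ t) {k : ℕ}
    (hk : (j - i).natAbs ≤ k) : ‖pt v j‖ ≤ (2 * L + 2) ^ k * ‖pt v i‖ :=
  (SolOn.norm_le hb hv hi hi' hj hj').trans (mul_le_mul_of_nonneg_right
    (pow_le_pow_right₀ (by linarith) hk) (norm_nonneg _))

theorem core (L C l α : ℝ) (k : ℕ) (hL : 0 ≤ L) (hl : 2 < l) (hC : 0 ≤ C) (hα : 0 < α) :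
    ∃ D ≥ 0, ∀ (h h' : ℤ → E) (u s w : ℤ → ℝ) (i0 : ℤ), Bd L h → Bd L h' →
      (∀ i, i < i0 ∨ i0 + k ≤ i → h' i = h i) → Sol h u → Unst C l u → Sol h s → Stab C l s →
      pt u i0 ≠ 0 → pt s (i0 + k) ≠ 0 → SolOn h' w i0 (i0 + k) → pt w i0 = pt u i0 →
      α * (‖pt u i0‖ * ‖pt s (i0 + k)‖) ≤ |dt (pt w (i0 + k)) (pt s (i0 + k))| →
      ∀ (v : ℤ → ℝ) (a b : ℤ), SolOn h' v a b → a ≤ i0 → i0 + k ≤ b →
        ‖pt v i0‖ ≤ D * (l ^ (a - i0) * ‖pt v a‖ + l ^ (i0 + k - b) * ‖pt v b‖) := by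
  obtain ⟨α0, hα0, H⟩ := ang_us L C l (by linarith) hC
  have hΛ : 0 ≤ (2 * L + 2) ^ k := by positivity
  refine ⟨(2 / α + 2 * (2 * L + 2) ^ k / α + 1) * (C * (2 / α0)), by positivity,
    fun h h' u s w i0 hb hb' he hu hU hs hS hu0 hs0 hw hw0 hang v a b hv ha hb0 => ?_⟩
  have hang0 := H h u s hb hu hU hs hS
  have un := ne_zero hb hu hu0
  have sn := ne_zero hb hs hs0
  obtain ⟨β, γ, e1, -, g1⟩ := decomp hα0 (un a) (sn a) (hang0 a) (pt v a)
  obtain ⟨β', γ', e2, g2, -⟩ := decomp hα0 (un b) (sn b) (hang0 b) (pt v b)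
  have hv1 : SolOn h v a i0 :=
    solOn_congr (solOn_sub hv le_rfl (by omega)) fun i _ hi => he i (Or.inl hi)
  have hv2 : SolOn h v (i0 + k) b :=
    solOn_congr (solOn_sub hv (by omega) le_rfl) fun i hi _ => he i (Or.inr hi)
  have e3 := comb_eq hb.ne (hu.solOn a i0) (hs.solOn a i0) hv1 le_rfl ha e1 ha le_rfl
  have e4 := comb_eq hb.ne (hu.solOn _ b) (hs.solOn _ b) hv2 hb0 le_rfl e2 le_rfl hb0
  obtain ⟨s', hs', hs'0⟩ := exists_sol hb'.ne i0 (pt s i0)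
  have e5 := comb_eq hb'.ne hw (hs'.solOn _ _) (solOn_sub hv ha hb0) (β := β) (γ := γ) le_rfl
    (by omega) (by rw [hw0, hs'0]; exact e3) (j := i0 + k) (by omega) le_rfl
  have n1 : ‖pt s' (i0 + k)‖ ≤ (2 * L + 2) ^ k * ‖pt s i0‖ := by
    rw [← hs'0]
    exact pow_win hL hb' (hs'.solOn i0 (i0 + k)) le_rfl (by omega) (by omega) le_rfl (by omega)
  have d1 : β * dt (pt w (i0 + k)) (pt s (i0 + k)) = β' * dt (pt u (i0 + k)) (pt s (i0 + k)) -
      γ * dt (pt s' (i0 + k)) (pt s (i0 + k)) := by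
    have h1 := congrArg (fun x => dt x (pt s (i0 + k))) (e4.symm.trans e5)
    simp only [dt_comb, dt_self] at h1
    linarith
  have hsp : 0 < ‖pt s (i0 + k)‖ := norm_pos_iff.mpr hs0
  have d2 : |β| * (α * (‖pt u i0‖ * ‖pt s (i0 + k)‖)) ≤
      |β'| * (2 * ‖pt u (i0 + k)‖ * ‖pt s (i0 + k)‖) +
        |γ| * (2 * ((2 * L + 2) ^ k * ‖pt s i0‖) * ‖pt s (i0 + k)‖) := by
    calc _ ≤ |β| * |dt (pt w (i0 + k)) (pt s (i0 + k))| :=
          mul_le_mul_of_nonneg_left hang (abs_nonneg _)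
      _ = |β' * dt (pt u (i0 + k)) (pt s (i0 + k)) - γ * dt (pt s' (i0 + k)) (pt s (i0 + k))| := by
          rw [← abs_mul, d1]
      _ ≤ |β'| * |dt (pt u (i0 + k)) (pt s (i0 + k))| +
          |γ| * |dt (pt s' (i0 + k)) (pt s (i0 + k))| := by
          rw [← abs_mul, ← abs_mul]; exact abs_sub _ _
      _ ≤ _ := by
          apply add_le_add (mul_le_mul_of_nonneg_left (abs_dt_le _ _) (abs_nonneg _))
          apply mul_le_mul_of_nonneg_left ((abs_dt_le _ _).trans _) (abs_nonneg _)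
          gcongr
  have d3 : |β| * ‖pt u i0‖ ≤ 2 / α * (|β'| * ‖pt u (i0 + k)‖) +
      2 * (2 * L + 2) ^ k / α * (|γ| * ‖pt s i0‖) := by
    have h1 : α * (|β| * ‖pt u i0‖) ≤ 2 * (|β'| * ‖pt u (i0 + k)‖) +
        2 * (2 * L + 2) ^ k * (|γ| * ‖pt s i0‖) := by
      apply le_of_mul_le_mul_right _ hsp
      linarith
    rw [div_mul_eq_mul_div, div_mul_eq_mul_div, ← add_div, le_div_iff₀ hα]
    linarith
  have hl0 : 0 < l := by linarith
  have d4 : |γ| * ‖pt s i0‖ ≤ C * (2 / α0) * (l ^ (a - i0) * ‖pt v a‖) := by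
    have h1 := mul_le_mul_of_nonneg_left (hS a i0 ha) (abs_nonneg γ)
    have h2 := mul_le_mul_of_nonneg_left g1 (show 0 ≤ C * l ^ (a - i0) by positivity)
    linarith
  have d5 : |β'| * ‖pt u (i0 + k)‖ ≤ C * (2 / α0) * (l ^ (i0 + k - b) * ‖pt v b‖) := by
    have h1 := mul_le_mul_of_nonneg_left (hU _ b hb0) (abs_nonneg β')
    have h2 := mul_le_mul_of_nonneg_left g2 (show 0 ≤ C * l ^ (i0 + k - b) by positivity)
    linarith
  have d6 : ‖pt v i0‖ ≤ |β| * ‖pt u i0‖ + |γ| * ‖pt s i0‖ := by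
    rw [e3]
    refine (norm_add_le _ _).trans (le_of_eq ?_)
    rw [norm_smul, norm_smul, Real.norm_eq_abs, Real.norm_eq_abs]
  have p1 : 0 ≤ C * (2 / α0) * (l ^ (a - i0) * ‖pt v a‖) := by positivity
  have p2 : 0 ≤ C * (2 / α0) * (l ^ (i0 + k - b) * ‖pt v b‖) := by positivity
  have q1 : 0 ≤ 2 / α := by positivity
  have q2 : 0 ≤ 2 * (2 * L + 2) ^ k / α := by positivity
  have r1 := mul_le_mul_of_nonneg_left d5 q1
  have r2 := mul_le_mul_of_nonneg_left d4 q2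
  have r3 := mul_nonneg q1 p1
  have r4 := mul_nonneg q2 p2
  nlinarith

theorem mix_zero (h0 h1 h2 : E) : mix 0 h0 h1 h2 = h0 := by simp [mix]

theorem poly_pt (h0 h1 h2 : ℤ → E) (a : ℤ) (d : E) (n : ℕ) : ∃ P Q : Polynomial ℝ, ∀ p v,
    SolOn (fun i => mix p (h0 i) (h1 i) (h2 i)) v a (a + n) → pt v a = d →
      pt v (a + n) = (P.eval p, Q.eval p) := by
  induction n with
  | zero => exact ⟨Polynomial.C d.1, Polynomial.C d.2, fun p v _ hd => by simpa using hd⟩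
  | succ n ih =>
    obtain ⟨P, Q, H⟩ := ih
    refine ⟨((1 - Polynomial.X) * Polynomial.C (h0 (a + n)).1 +
        Polynomial.X * Polynomial.C ((h1 (a + n)).1 / 2 + (h2 (a + n)).1 / 2)) * P +
      ((1 - Polynomial.X) * Polynomial.C (h0 (a + n)).2 +
        Polynomial.X * Polynomial.C ((h1 (a + n)).2 / 2 + (h2 (a + n)).2 / 2)) * Q, P,
      fun p v hv hd => ?_⟩
    have h3 := H p v (solOn_sub hv le_rfl (by omega)) hd
    have h4 := pt_succ (hv (a + n) (by omega) (by omega))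
    rw [show a + ((n + 1 : ℕ) : ℤ) = a + n + 1 by push_cast; ring, h4, h3]
    simp only [TL, lin, mix, Prod.fst_add, Prod.snd_add, Prod.smul_fst, Prod.smul_snd, smul_eq_mul,
      Polynomial.eval_add, Polynomial.eval_mul, Polynomial.eval_sub, Polynomial.eval_one,
      Polynomial.eval_X, Polynomial.eval_C, Prod.mk.injEq, and_true]
    ring

theorem fin_roots (h0 h1 h2 : ℤ → E) {a b : ℤ} (hab : a ≤ b) (e : E) {v0 : ℤ → ℝ}
    (hv0 : SolOn h0 v0 a b) (hne : dt (pt v0 b) e ≠ 0) :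
    {p : ℝ | ∃ v, SolOn (fun i => mix p (h0 i) (h1 i) (h2 i)) v a b ∧ pt v a = pt v0 a ∧
      dt (pt v b) e = 0}.Finite := by
  obtain ⟨n, rfl⟩ : ∃ n : ℕ, b = a + n := ⟨(b - a).toNat, by omega⟩
  obtain ⟨P, Q, H⟩ := poly_pt h0 h1 h2 a (pt v0 a) n
  have key : ∀ p v, SolOn (fun i => mix p (h0 i) (h1 i) (h2 i)) v a (a + n) → pt v a = pt v0 a →
      dt (pt v (a + n)) e = (P * Polynomial.C e.2 - Q * Polynomial.C e.1).eval p := by
    intro p v hv hd
    rw [H p v hv hd]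
    simp [dt]
  have hR : P * Polynomial.C e.2 - Q * Polynomial.C e.1 ≠ 0 := by
    intro hc
    have := key 0 v0 (by simpa only [mix_zero] using hv0) rfl
    rw [hc, Polynomial.eval_zero] at this
    exact hne this
  refine (Polynomial.finite_setOfPred_isRoot hR).subset ?_
  rintro p ⟨v, hv, hd, hz⟩
  rw [key p v hv hd] at hz
  exact hz

theorem dt_zero {h : ℤ → E} {v w : ℤ → ℝ} {a : ℤ} (n : ℕ) (hv : SolOn h v a (a + n))
    (hw : SolOn h w a (a + n)) (h0 : dt (pt v a) (pt w a) = 0) :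
    dt (pt v (a + n)) (pt w (a + n)) = 0 := by
  induction n with
  | zero => simpa using h0
  | succ n ih =>
    have h3 := ih (solOn_sub hv le_rfl (by omega)) (solOn_sub hw le_rfl (by omega))
    rw [show a + ((n + 1 : ℕ) : ℤ) = a + n + 1 by push_cast; ring,
      pt_succ (hv (a + n) (by omega) (by omega)), pt_succ (hw (a + n) (by omega) (by omega)),
      dt_TL, h3, mul_zero]

theorem ang_of_ne {x y : E} (a b : ℝ) (h : dt x y ≠ 0) : ∃ α > 0, α * (a * b) ≤ |dt x y| := by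
  have h0 : 0 < |dt x y| := abs_pos.mpr h
  refine ⟨|dt x y| / (|a * b| + 1), by positivity, ?_⟩
  rw [div_mul_eq_mul_div, div_le_iff₀ (by positivity)]
  apply mul_le_mul_of_nonneg_left _ h0.le
  linarith [le_abs_self (a * b)]

theorem ne_of_ang {α : ℝ} (hα : 0 < α) {x y : E} (hx : x ≠ 0) (hy : y ≠ 0)
    (h : α * (‖x‖ * ‖y‖) ≤ |dt x y|) : dt x y ≠ 0 := by
  have hx' : 0 < ‖x‖ := norm_pos_iff.mpr hx
  have hy' : 0 < ‖y‖ := norm_pos_iff.mpr hy
  exact abs_pos.mp (lt_of_lt_of_le (by positivity) h)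

end Coc3

open Coc3

/-- Modification on the window `[i0, i0 + k)`. Let `v` solve `h'` on `[a,b]`. If the window of `v`
lies on one side, or is cut by the modified window, use `Hyp C l h` on the unmodified parts and
`SolOn.norm_le` on the modified one. If `a ≤ i0` and `i0 + k ≤ b` it is enough to bound `|v|_i0`:
write `v = β u + γ s` before `i0` and `v = β' u + γ' s` after `i0 + k`; then
`|γ s|_i0 ≤ c l^(a-i0) |v|_a`, `|β' u|_(i0+k) ≤ c l^(i0+k-b) |v|_b`, and taking `dt · (pt s (i0+k))`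
of `v = β w + γ s'` (`s'` the `h'`-continuation of `s`) gives
`α |β u|_i0 ≤ 2 |β' u|_(i0+k) + 2 Λ^k |γ s|_i0`. -/
theorem hyp_split (L C l α : ℝ) (k : ℕ) (hl : 2 < l) (hC : 0 ≤ C) (hα : 0 < α) : ∃ C' > 0,
    ∀ (h h' : ℤ → E) (u s w : ℤ → ℝ) (i0 : ℤ), Bd L h → Bd L h' → Hyp C l h →
      (∀ i, i < i0 ∨ i0 + k ≤ i → h' i = h i) → Sol h u → Unst C l u → Sol h s → Stab C l s →
      pt u i0 ≠ 0 → pt s (i0 + k) ≠ 0 → SolOn h' w i0 (i0 + k) → pt w i0 = pt u i0 →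
      α * (‖pt u i0‖ * ‖pt s (i0 + k)‖) ≤ |dt (pt w (i0 + k)) (pt s (i0 + k))| →
      Hyp C' l h' := by
  by_cases hL : 0 ≤ L
  swap
  · exact ⟨1, one_pos, fun h _ _ _ _ _ hb => absurd ((abs_nonneg _).trans (hb 0).1) hL⟩
  obtain ⟨D, hD, H⟩ := core L C l α k hL hl hC hα
  have hl0 : 0 < l := by linarith
  have hl1 : 1 ≤ l := by linarith
  obtain ⟨D1, hD1⟩ : ∃ D1, D1 = (2 * L + 2) ^ k * l ^ k * (D + 1) := ⟨_, rfl⟩
  have hD0 : 0 ≤ D1 := by rw [hD1]; positivity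
  refine ⟨D1 + C * (1 + D1) + 1, by positivity,
    fun h h' u s w i0 hb hb' hh he hu hU hs hS hu0 hs0 hw hw0 hang v a b hv => ?_⟩
  have hΛ : 0 ≤ (2 * L + 2) ^ k := by positivity
  have sh : ∀ x y : ℤ, x ≤ y + k → l ^ x ≤ l ^ k * l ^ y := by
    intro x y hxy
    rw [← zpow_natCast, ← zpow_add₀ hl0.ne']
    exact zpow_le_zpow_right₀ hl1 (by omega)
  have K0 : ∀ i, a ≤ i → i ≤ b → i0 ≤ i → i ≤ i0 + k →
      ‖pt v i‖ ≤ D1 * (l ^ (a - i) * ‖pt v a‖ + l ^ (i - b) * ‖pt v b‖) := by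
    intro i h1 h2 h3 h4
    have na := norm_nonneg (pt v a)
    have nb := norm_nonneg (pt v b)
    have pa : 0 ≤ l ^ (a - i) * ‖pt v a‖ := by positivity
    have pb : 0 ≤ l ^ (i - b) * ‖pt v b‖ := by positivity
    have hk : 0 ≤ l ^ k := by positivity
    have fin : ∀ X : ℝ, ‖pt v i‖ ≤ (2 * L + 2) ^ k * X →
        X ≤ l ^ k * (D + 1) * (l ^ (a - i) * ‖pt v a‖ + l ^ (i - b) * ‖pt v b‖) →
        ‖pt v i‖ ≤ D1 * (l ^ (a - i) * ‖pt v a‖ + l ^ (i - b) * ‖pt v b‖) := by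
      intro X hX1 hX2
      have := mul_le_mul_of_nonneg_left hX2 hΛ
      rw [hD1]
      linarith
    have ra := mul_nonneg hk pa
    have rb := mul_nonneg hk pb
    have sa := mul_nonneg hD ra
    have sb := mul_nonneg hD rb
    by_cases ha : a ≤ i0
    · by_cases hb0 : i0 + k ≤ b
      · refine fin _ (pow_win hL hb' hv ha (by omega) h1 h2 (by omega)) ?_
        have h5 := H h h' u s w i0 hb hb' he hu hU hs hS hu0 hs0 hw hw0 hang v a b hv ha hb0
        have h6 := mul_le_mul_of_nonneg_right (sh (a - i0) (a - i) (by omega)) na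
        have h7 := mul_le_mul_of_nonneg_right (sh (i0 + k - b) (i - b) (by omega)) nb
        have h8 := mul_le_mul_of_nonneg_left (add_le_add h6 h7) hD
        linarith
      · refine fin _ (pow_win hL hb' hv (by omega) le_rfl h1 h2 (by omega)) ?_
        have h7 := mul_le_mul_of_nonneg_right (sh 0 (i - b) (by omega)) nb
        rw [zpow_zero, one_mul] at h7
        linarith
    · refine fin _ (pow_win hL hb' hv le_rfl (by omega) h1 h2 (by omega)) ?_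
      have h7 := mul_le_mul_of_nonneg_right (sh 0 (a - i) (by omega)) na
      rw [zpow_zero, one_mul] at h7
      linarith
  intro i h1 h2
  have na := norm_nonneg (pt v a)
  have nb := norm_nonneg (pt v b)
  have pa : 0 ≤ l ^ (a - i) * ‖pt v a‖ := by positivity
  have pb : 0 ≤ l ^ (i - b) * ‖pt v b‖ := by positivity
  have fin : ∀ X : ℝ, ‖pt v i‖ ≤ C * X →
      X ≤ (1 + D1) * (l ^ (a - i) * ‖pt v a‖ + l ^ (i - b) * ‖pt v b‖) →
      ‖pt v i‖ ≤ (D1 + C * (1 + D1) + 1) * (l ^ (a - i) * ‖pt v a‖ + l ^ (i - b) * ‖pt v b‖) := by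
    intro X hX1 hX2
    have h3 := mul_le_mul_of_nonneg_left hX2 hC
    have h4 := mul_nonneg hD0 (add_nonneg pa pb)
    linarith
  have sa := mul_nonneg hD0 pa
  have sb := mul_nonneg hD0 pb
  have mu : ∀ x y z : ℤ, x + y ≤ z → l ^ x * l ^ y ≤ l ^ z := by
    intro x y z hxy
    rw [← zpow_add₀ hl0.ne']
    exact zpow_le_zpow_right₀ hl1 hxy
  by_cases hi : i < i0
  · by_cases hb0 : b ≤ i0
    · exact fin _ (hh v a b (solOn_congr hv fun j _ hj => he j (Or.inl (by omega))) i h1 h2)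
        (by linarith)
    · refine fin _ (hh v a i0 (solOn_congr (solOn_sub hv le_rfl (by omega))
        fun j _ hj => he j (Or.inl hj)) i h1 hi.le) ?_
      have h3 := mul_le_mul_of_nonneg_left (K0 i0 (by omega) (by omega) le_rfl (by omega))
        (show 0 ≤ l ^ (i - i0) by positivity)
      have h4 := mul_le_mul_of_nonneg_right (mu (i - i0) (a - i0) (a - i) (by omega)) na
      have h5 := mul_le_mul_of_nonneg_right (mu (i - i0) (i0 - b) (i - b) (by omega)) nb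
      have h6 := mul_le_mul_of_nonneg_left (add_le_add h4 h5) hD0
      linarith
  · by_cases hj : i ≤ i0 + k
    · have h3 := K0 i h1 h2 (by omega) hj
      have h4 := mul_nonneg (show 0 ≤ C * (1 + D1) by positivity) (add_nonneg pa pb)
      linarith
    · by_cases ha : i0 + k ≤ a
      · exact fin _ (hh v a b (solOn_congr hv fun j hj _ => he j (Or.inr (by omega))) i h1 h2)
          (by linarith)
      · refine fin _ (hh v (i0 + k) b (solOn_congr (solOn_sub hv (by omega) le_rfl)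
          fun j hj _ => he j (Or.inr hj)) i (by omega) h2) ?_
        have h3 := mul_le_mul_of_nonneg_left (K0 (i0 + k) (by omega) (by omega) (by omega) le_rfl)
          (show 0 ≤ l ^ (i0 + k - i) by positivity)
        have h4 := mul_le_mul_of_nonneg_right
          (mu (i0 + k - i) (a - (i0 + k)) (a - i) (by omega)) na
        have h5 := mul_le_mul_of_nonneg_right
          (mu (i0 + k - i) (i0 + k - b) (i - b) (by omega)) nb
        have h6 := mul_le_mul_of_nonneg_left (add_le_add h4 h5) hD0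
        linarith

/-- Polynomial families. Take `u, s` for `h0`; the solution `w` of the mixed cocycle with
`pt w a = pt u a` has coordinates that are polynomials in `p` (forward recursion), so
`p ↦ dt (pt w b) (pt s b)` is a polynomial that does not vanish at `p = 0` (`ang_good`); off its
finitely many roots apply `hyp_split`. -/
theorem gen_hyp {L C l : ℝ} {h0 h1 h2 : ℤ → E} (b0 : Bd L h0) (b1 : Bd L h1) (b2 : Bd L h2)
    (hh : Hyp C l h0) (hC : 0 ≤ C) (hl : 2 < l) {a b : ℤ}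
    (he : ∀ i, i < a ∨ b ≤ i → h1 i = h0 i ∧ h2 i = h0 i) :
    {p ∈ Icc (0 : ℝ) 1 | ¬ ∃ C', Hyp C' l fun i => mix p (h0 i) (h1 i) (h2 i)}.Finite := by
  obtain ⟨u, hu, hU, un⟩ := exists_unst b0 hh hC hl
  obtain ⟨s, hs, hS, sn⟩ := exists_stab b0 hh hC hl
  obtain ⟨α0, hα0, H⟩ := ang_us L C l (by linarith) hC
  obtain ⟨k, hk⟩ : ∃ k : ℕ, b ≤ a + k := ⟨(b - a).toNat, by omega⟩
  refine (fin_roots h0 h1 h2 (a := a) (b := a + k) (by omega) (pt s (a + k)) (hu.solOn _ _)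
    (ne_of_ang hα0 (un _) (sn _) (H h0 u s b0 hu hU hs hS _))).subset ?_
  rintro p ⟨hp, hn⟩
  have bm := Bd.mix hp.1 hp.2 b0 b1 b2
  obtain ⟨w, hw, hw0⟩ := exists_sol bm.ne a (pt u a)
  refine ⟨w, hw.solOn _ _, hw0, ?_⟩
  by_contra hne
  obtain ⟨α, hα, hang⟩ := ang_of_ne ‖pt u a‖ ‖pt s (a + k)‖ hne
  obtain ⟨C', -, HC⟩ := hyp_split L C l α k hl hC hα
  refine hn ⟨C', HC h0 _ u s w a b0 bm hh (fun i hi => ?_) hu hU hs hS (un _) (sn _)
    (hw.solOn _ _) hw0 hang⟩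
  obtain ⟨e1, e2⟩ := he i (by omega)
  simp only [e1, e2, mix_same]

/-- Enlarge the window so that `a ≤ 0 ≤ b`. Forward: `p ↦ dt (pt v b) (pt s b)` is a polynomial,
nonzero at `0`; use `no_collapse` after `b`. Backward: with `w` as above, `p ↦ dt (pt w 0) d` is a
polynomial, nonzero at `0`, and it is a nonzero multiple of `dt (pt u a) (pt v a)` (`dt_TL`); use
`no_collapse'` before `a`. -/
theorem gen_et {L C l C0 : ℝ} {h0 h1 h2 : ℤ → E} (b0 : Bd L h0) (b1 : Bd L h1) (b2 : Bd L h2)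
    (hh : Hyp C l h0) (hC : 0 ≤ C) (hl : 2 < l) {a b : ℤ}
    (he : ∀ i, i < a ∨ b ≤ i → h1 i = h0 i ∧ h2 i = h0 i) {d : E}
    (hd : ∀ v, Sol h0 v → pt v 0 = d → ∀ j, ‖d‖ ≤ C0 * ‖pt v j‖) :
    {p ∈ Icc (0 : ℝ) 1 | ¬ ∃ C', ∀ v, Sol (fun i => mix p (h0 i) (h1 i) (h2 i)) v → pt v 0 = d →
      ∀ j, ‖d‖ ≤ C' * ‖pt v j‖}.Finite := by
  by_cases hd0 : d = 0
  · refine Set.finite_empty.subset ?_
    rintro p ⟨-, hn⟩
    exact hn ⟨0, fun v _ _ j => by simp [hd0]⟩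
  have hL : 0 ≤ L := (abs_nonneg _).trans (b0 0).1
  obtain ⟨u, hu, hU, un⟩ := exists_unst b0 hh hC hl
  obtain ⟨s, hs, hS, sn⟩ := exists_stab b0 hh hC hl
  obtain ⟨v0, hv0, hv00⟩ := exists_sol b0.ne 0 d
  have vn := ne_zero b0 hv0 (i := 0) (by rwa [hv00])
  obtain ⟨m, hm⟩ : ∃ m : ℕ, -(m : ℤ) ≤ a ∧ b ≤ m := ⟨a.natAbs + b.natAbs, by omega⟩
  have hΛ : 0 ≤ (2 * L + 2) ^ m := by positivity
  obtain ⟨α1, hα1, H1⟩ := ang_good L C l ((2 * L + 2) ^ m * C0) (by linarith) hC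
  obtain ⟨α2, hα2, H2⟩ := ang_good' L C l C0 (by linarith) hC
  have n1 : dt (pt v0 m) (pt s m) ≠ 0 := ne_of_ang hα1 (vn _) (sn _) (H1 h0 v0 s m b0
    (fun j _ => hv0.solOn _ _) (fun j _ => hs.solOn _ _) (fun j _ => by
      have h3 := pow_win hL b0 (hv0.solOn 0 m) (i := 0) (j := m) le_rfl (by omega) (by omega)
        le_rfl (k := m) (by omega)
      have h4 := mul_le_mul_of_nonneg_left (hd v0 hv0 hv00 j) hΛ
      rw [hv00] at h3
      linarith) fun j hj => hS _ j hj)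
  have n2 : dt (pt u 0) d ≠ 0 := by
    rw [dt_swap, neg_ne_zero, ← hv00]
    exact ne_of_ang hα2 (vn _) (un _) (H2 h0 v0 u 0 b0 (fun j _ => hv0.solOn _ _)
      (fun j _ => hu.solOn _ _) (fun j _ => by rw [hv00]; exact hd v0 hv0 hv00 j)
      fun j hj => hU j 0 hj)
  refine ((fin_roots h0 h1 h2 (a := 0) (b := m) (by omega) (pt s m) (hv0.solOn _ _) n1).union
    (fin_roots h0 h1 h2 (a := -m) (b := 0) (by omega) d (hu.solOn _ _) n2)).subset ?_
  rintro p ⟨hp, hn⟩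
  have bm := Bd.mix hp.1 hp.2 b0 b1 b2
  obtain ⟨v, hv, hvd⟩ := exists_sol bm.ne 0 d
  obtain ⟨w, hw, hw0⟩ := exists_sol bm.ne (-m) (pt u (-m))
  by_contra hc
  rw [Set.mem_union, not_or] at hc
  have c1 : dt (pt v m) (pt s m) ≠ 0 := fun h => hc.1 ⟨v, hv.solOn _ _, hvd.trans hv00.symm, h⟩
  have c2 : dt (pt v (-m)) (pt u (-m)) ≠ 0 := fun h => by
    refine hc.2 ⟨w, hw.solOn _ _, hw0, ?_⟩
    have h3 := dt_zero m (hv.solOn (-m) _) (hw.solOn (-m) _) (by rwa [hw0])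
    rw [neg_add_cancel, hvd] at h3
    rw [dt_swap, h3, neg_zero]
  obtain ⟨β1, hβ1, g1⟩ := ang_of_ne ‖pt v m‖ ‖pt s m‖ c1
  obtain ⟨β2, hβ2, g2⟩ := ang_of_ne ‖pt v (-m)‖ ‖pt u (-m)‖ c2
  obtain ⟨C1, hC1, K1⟩ := no_collapse L C l β1 hl hC hβ1
  obtain ⟨C2, hC2, K2⟩ := no_collapse' L C l β2 hl hC hβ2
  have hm0 : ∀ i, i < -(m : ℤ) ∨ (m : ℤ) ≤ i → mix p (h0 i) (h1 i) (h2 i) = h0 i := by
    intro i hi
    obtain ⟨e1, e2⟩ := he i (by omega)
    rw [e1, e2, mix_same]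
  refine hn ⟨(2 * L + 2) ^ m * (1 + C1 + C2), fun v' hv' hv'd j => ?_⟩
  rw [SolOn.unique bm.ne (hv'.solOn (min 0 j) (max 0 j)) (hv.solOn _ _) (i := 0) (by omega)
    (by omega) (hv'd.trans hvd.symm) (j := j) (by omega) (by omega), ← hvd]
  have win : ∀ i : ℤ, -(m : ℤ) ≤ i → i ≤ m → ‖pt v 0‖ ≤ (2 * L + 2) ^ m * ‖pt v i‖ :=
    fun i h3 h4 => pow_win hL bm (hv.solOn (-m) m) h3 h4 (by omega) (by omega) (by omega)
  have nj := norm_nonneg (pt v j)
  have q0 := mul_nonneg hΛ nj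
  have q1 := mul_nonneg hΛ (mul_nonneg hC1.le nj)
  have q2 := mul_nonneg hΛ (mul_nonneg hC2.le nj)
  by_cases hj1 : (m : ℤ) ≤ j
  · have h3 := K1 h0 v s m j b0 hh hs hS (sn _) hj1
      (solOn_congr (hv.solOn _ _) fun i hi _ => hm0 i (Or.inr hi)) g1
    have h4 := mul_le_mul_of_nonneg_left h3 hΛ
    have h5 := win m (by omega) le_rfl
    linarith
  · by_cases hj2 : j ≤ -(m : ℤ)
    · have h3 := K2 h0 v u (-m) j b0 hh hu hU (un _) hj2
        (solOn_congr (hv.solOn _ _) fun i _ hi => hm0 i (Or.inl hi)) g2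
      have h4 := mul_le_mul_of_nonneg_left h3 hΛ
      have h5 := win (-m) le_rfl (by omega)
      linarith
    · have h5 := win j (by omega) (by omega)
      linarith

end Pool.Agent.MP_369096_an.H89
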