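import Pool.Agent.MP_369096_an.H89.KLem

/-!
TASK Comb. Combinatorics of the new alphabets and the choice of the integer parameters.
Auxiliary lemmas go in namespace `H89.Comb`. At multiples of `K.q` the alphabet is `range K.m`
(`KOK.Dpow`, `D0`), whose `sInf` is `0`.
-/

set_option autoImplicit false

open Set Filter Topology

namespace Pool.Agent.MP_369096_an.H89

variable {F : E → ℝ} {K : KD} {Q l : ℕ}

namespace Comb

theorem D_mult (hk : KOK F K) {i : ℤ} (h : (K.q : ℤ) ∣ i) : K.D i = Finset.range K.m := by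
  obtain ⟨t, rfl⟩ := h
  have := hk.Dpow 0 t
  rw [zero_add, mul_comm] at this
  rw [this, hk.D0]

theorem sInf_mem {D : Finset ℕ} (h : D.Nonempty) : sInf (D : Set ℕ) ∈ D :=
  Finset.mem_coe.1 (Nat.sInf_mem (Finset.coe_nonempty.2 h))

theorem sInf_mult (hk : KOK F K) {i : ℤ} (h : (K.q : ℤ) ∣ i) : sInf (K.D i : Set ℕ) = 0 := by
  rw [D_mult hk h]
  apply Nat.sInf_eq_zero.2
  left
  have := hk.m2
  simp only [Finset.coe_range, mem_Iio]
  omega

theorem nearM_add (q Q l : ℕ) (i t : ℤ) : nearM q Q l (i + t * (Q * q : ℕ)) ↔ nearM q Q l i := by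
  constructor
  · rintro ⟨s, hs⟩
    refine ⟨s - t, ?_⟩
    have e : i - (s - t) * ((Q : ℤ) * q) = i + t * (Q * q : ℕ) - s * (Q * q) := by
      push_cast; ring
    rw [e]; exact hs
  · rintro ⟨s, hs⟩
    refine ⟨s + t, ?_⟩
    have e : i + t * (Q * q : ℕ) - (s + t) * ((Q : ℤ) * q) = i - s * (Q * q) := by
      push_cast; ring
    rw [e]; exact hs

theorem Dz_pow (hk : KOK F K) (Q l : ℕ) (i t : ℤ) :
    Dz K Q l (i + t * (Q * K.q : ℕ)) = Dz K Q l i := by
  have e : i + t * (Q * K.q : ℕ) = i + (t * Q) * K.q := by push_cast; ring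
  have hD : K.D (i + t * (Q * K.q : ℕ)) = K.D i := by rw [e, hk.Dpow]
  have hd : (K.q : ℤ) ∣ i + t * (Q * K.q : ℕ) ↔ (K.q : ℤ) ∣ i := by
    rw [e]
    exact (dvd_add_left (Dvd.intro_left _ rfl))
  have hn := nearM_add K.q Q l i t
  unfold Dz
  rw [hD]
  by_cases h1 : nearM K.q Q l i
  · rw [if_pos h1, if_pos (hn.2 h1)]
  · rw [if_neg h1, if_neg (fun h => h1 (hn.1 h))]
    exact if_congr hd rfl rfl

theorem nearM_mult (q Q l : ℕ) {i : ℤ} (h : ((Q * q : ℕ) : ℤ) ∣ i) : nearM q Q l i := by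
  obtain ⟨t, rfl⟩ := h
  refine ⟨t, ?_⟩
  have e : ((Q * q : ℕ) : ℤ) * t - t * (Q * q) = 0 := by push_cast; ring
  rw [e, abs_zero]
  positivity

theorem Dz_near {i : ℤ} (h : nearM K.q Q l i) : Dz K Q l i = {sInf (K.D i : Set ℕ)} := by
  unfold Dz
  rw [if_pos h]

theorem not_near {q : ℕ} {i : ℤ} (h1 : (l : ℤ) * q < i) (h2 : i < ((Q : ℤ) - l) * q) :
    ¬ nearM q Q l i := by
  rintro ⟨t, ht⟩
  have hq : (0 : ℤ) ≤ (Q : ℤ) * q := by positivity
  rw [abs_le] at ht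
  rcases le_or_gt t 0 with h | h
  · have : t * ((Q : ℤ) * q) ≤ 0 := mul_nonpos_of_nonpos_of_nonneg h hq
    linarith [ht.2]
  · have : 1 * ((Q : ℤ) * q) ≤ t * ((Q : ℤ) * q) := mul_le_mul_of_nonneg_right h hq
    nlinarith [ht.1]

theorem sum_blocks (f : ℕ → ℝ) (q Q : ℕ) :
    ∑ i ∈ Finset.range (Q * q), f i =
      ∑ k ∈ Finset.range Q, ∑ j ∈ Finset.range q, f (k * q + j) := by
  induction Q with
  | zero => simp
  | succ n ih => rw [Nat.succ_mul, Finset.sum_range_add, ih, Finset.sum_range_succ]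

theorem log_card_nonneg (D : Finset ℕ) : 0 ≤ Real.log (D.card : ℝ) := Real.log_natCast_nonneg _

theorem lsum_nonneg (D : ℤ → Finset ℕ) (n : ℕ) : 0 ≤ lsum D n :=
  Finset.sum_nonneg fun _ _ => log_card_nonneg _

end Comb

open Comb

theorem Dz_sub (hk : KOK F K) (Q l : ℕ) (i : ℤ) : Dz K Q l i ⊆ K.D i := by
  unfold Dz
  split_ifs
  · exact Finset.singleton_subset_iff.2 (sInf_mem (hk.Dne i))
  · exact Finset.erase_subset _ _
  · exact Finset.Subset.refl _

theorem Dz_ne (hk : KOK F K) (Q l : ℕ) (i : ℤ) : (Dz K Q l i).Nonempty := by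
  unfold Dz
  split_ifs with h1 h2
  · exact Finset.singleton_nonempty _
  · refine ⟨1, ?_⟩
    rw [D_mult hk h2]
    have := hk.m2
    simp only [Finset.mem_erase, Finset.mem_range]
    omega
  · exact hk.Dne i

theorem Dz_per (hk : KOK F K) (Q l : ℕ) (i : ℤ) : Dz K Q l (i + (Q * K.q : ℕ)) = Dz K Q l i := by
  have := Dz_pow hk Q l i 1
  rwa [one_mul] at this

theorem Dn_ne (hk : KOK F K) (Q l : ℕ) {m : ℕ} (hm : 0 < m) (i : ℤ) : (Dn K Q l m i).Nonempty := by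
  unfold Dn
  split_ifs
  · exact ⟨0, Finset.mem_range.2 hm⟩
  · exact Dz_ne hk Q l i

theorem Dn_per (hk : KOK F K) (Q l m : ℕ) (i : ℤ) :
    Dn K Q l m (i + (Q * K.q : ℕ)) = Dn K Q l m i := by
  unfold Dn
  have hd : ((Q * K.q : ℕ) : ℤ) ∣ i + (Q * K.q : ℕ) ↔ ((Q * K.q : ℕ) : ℤ) ∣ i :=
    dvd_add_left (dvd_refl _)
  simp only [Dz_per hk, hd]

theorem bs_mem (hk : KOK F K) {m : ℕ} {ω : ℤ → ℕ} (hω : ω ∈ Words (Dn K Q l m)) :
    bs (Q * K.q) ω ∈ Words (Dz K Q l) := by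
  intro i
  have h := hω i
  unfold bs
  unfold Dn at h
  split_ifs with hd
  · rw [Dz_near (nearM_mult _ _ _ hd), sInf_mult hk]
    · exact Finset.mem_singleton_self _
    · exact Dvd.dvd.trans ⟨Q, by push_cast; ring⟩ hd
  · rwa [if_neg hd] at h

theorem words_Dz_sub (hk : KOK F K) (Q l : ℕ) : Words (Dz K Q l) ⊆ K.X :=
  fun _ h i => Dz_sub hk Q l i (h i)

theorem words_Dz_shift (hk : KOK F K) {ω : ℤ → ℕ} (hω : ω ∈ Words (Dz K Q l)) (t : ℤ) :
    (fun j => ω (j + t * (Q * K.q : ℕ))) ∈ Words (Dz K Q l) := by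
  intro i
  have := hω (i + t * (Q * K.q : ℕ))
  rwa [Dz_pow hk] at this

theorem Om_sub (hk : KOK F K) (Q l J : ℕ) : Om K Q l J ⊆ Words (Dz K Q l) := by
  rintro _ ⟨a, ha, rfl⟩ i
  unfold trc
  split_ifs
  · exact ha i
  · exact sInf_mem (Dz_ne hk Q l i)

theorem Comb.Om_unique' {J : ℕ} {ω ω' : ℤ → ℕ} (h : ω ∈ Om K Q l J) (h' : ω' ∈ Om K Q l J)
    (he : ∀ i : ℤ, |i| ≤ ((J * Q - l : ℕ) : ℤ) * K.q → ω i = ω' i) : ω = ω' := by
  funext i
  by_cases hi : |i| ≤ ((J * Q - l : ℕ) : ℤ) * K.q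
  · exact he i hi
  · obtain ⟨a, -, rfl⟩ := h
    obtain ⟨a', -, rfl⟩ := h'
    have hi' : ¬ |i| ≤ (((J * Q - l) * K.q : ℕ) : ℤ) := by rwa [Nat.cast_mul]
    unfold trc
    rw [if_neg hi', if_neg hi']

theorem Om_finite (hk : KOK F K) (Q l J : ℕ) : (Om K Q l J).Finite := by
  set n : ℤ := ((J * Q - l : ℕ) : ℤ) * K.q with hn
  refine Set.Finite.of_injOn (f := fun ω (i : Finset.Icc (-n) n) => ω i)
    (t := Set.pi univ fun i : Finset.Icc (-n) n => (Dz K Q l i : Set ℕ)) ?_ ?_ ?_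
  · intro ω hω i _
    exact Om_sub hk Q l J hω i
  · intro ω hω ω' hω' he
    refine Om_unique' hω hω' fun i hi => ?_
    exact congrFun he ⟨i, Finset.mem_Icc.2 (abs_le.1 hi)⟩
  · exact Set.Finite.pi fun i => Finset.finite_toSet _

theorem Om_unique {J : ℕ} {ω ω' : ℤ → ℕ} (h : ω ∈ Om K Q l J) (h' : ω' ∈ Om K Q l J)
    (he : ∀ i : ℤ, |i| ≤ ((J * Q - l : ℕ) : ℤ) * K.q → ω i = ω' i) : ω = ω' :=
  Om_unique' h h' he

/-- After the window comes a stretch of `2 l` periods with a single letter at each position. -/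
theorem trc_agree (hk : KOK F K) {J : ℕ} (hJ : 1 ≤ J) (hl : l ≤ Q) {ω : ℤ → ℕ}
    (hω : ω ∈ Words (Dz K Q l)) (i : ℤ) (hi : |i| ≤ ((J * Q + l : ℕ) : ℤ) * K.q) :
    trc (Dz K Q l) ((J * Q - l) * K.q) ω i = ω i := by
  have _ := hk
  unfold trc
  split_ifs with h
  · rfl
  · have hle : l ≤ J * Q := hl.trans (Nat.le_mul_of_pos_left Q hJ)
    rw [Nat.cast_mul, Nat.cast_sub hle] at h
    push_cast at h hi
    push Not at h
    have hn : nearM K.q Q l i := by
      rcases abs_cases i with ⟨e, -⟩ | ⟨e, -⟩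
      · rw [e] at h hi
        exact ⟨J, abs_le.2 ⟨by linarith, by linarith⟩⟩
      · rw [e] at h hi
        exact ⟨-J, abs_le.2 ⟨by linarith, by linarith⟩⟩
    have h1 := hω i
    rw [Dz_near hn] at h1 ⊢
    rw [Finset.mem_singleton.1 h1]
    simp

/-- Phase recognition: the letter at the old marker `k q` is zero iff `k` is within `l` of `Q ℤ`. If
`i - i' = r q` with `r ≡ r0 ∈ (0,Q)` modulo `Q`, compare a marker `k ≡ l + 1 - r0` (if `r0 ≤ 2 l + 1`) or
`k ≡ -l` (otherwise) modulo `Q` of `ω'`, chosen with `|k q - i'| ≤ 2 Q q`, with the marker `k + r` of `ω`. -/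
theorem phase (hk : KOK F K) (hQ : 2 * l + 1 < Q) {ω ω' : ℤ → ℕ} (hω : ω ∈ Words (Dz K Q l))
    (hω' : ω' ∈ Words (Dz K Q l)) {i i' : ℤ} (hq : (K.q : ℤ) ∣ i - i')
    (he : ∀ j : ℤ, |j| ≤ (2 * Q : ℕ) * K.q → ω (i + j) = ω' (i' + j)) :
    ((Q * K.q : ℕ) : ℤ) ∣ i - i' := by
  obtain ⟨r, hr⟩ := hq
  have hq0 : (0 : ℤ) < K.q := by exact_mod_cast hk.eok.qpos
  have hQ' : 2 * (l : ℤ) + 1 < Q := by exact_mod_cast hQ
  have hl0 : (0 : ℤ) ≤ l := by positivity
  have hQ0 : (0 : ℤ) < Q := by linarith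
  have hr1 := Int.emod_add_mul_ediv r Q
  have hr2 := Int.emod_nonneg r hQ0.ne'
  have hr3 := Int.emod_lt_of_pos r hQ0
  set r0 := r % Q
  set a := r / Q
  rcases hr2.eq_or_lt with h0 | h0
  · refine ⟨a, ?_⟩
    rw [hr, ← hr1, ← h0]; push_cast; ring
  exfalso
  obtain ⟨k0, hk1, hk2, hk3, hk4⟩ : ∃ k0 : ℤ, -(l : ℤ) ≤ k0 ∧ k0 ≤ l ∧ l < k0 + r0 ∧
      k0 + r0 < Q - l := by
    rcases le_or_gt r0 (2 * l + 1) with h | h
    · exact ⟨l + 1 - r0, by linarith, by linarith, by linarith, by linarith⟩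
    · exact ⟨-l, by linarith, by linarith, by linarith, by linarith⟩
  have hn0 : (0 : ℤ) < Q * K.q := mul_pos hQ0 hq0
  have hs1 := Int.emod_add_mul_ediv i' (Q * K.q)
  have hs2 := Int.emod_nonneg i' hn0.ne'
  have hs3 := Int.emod_lt_of_pos i' hn0
  set s := i' % (Q * K.q)
  set b := i' / (Q * K.q)
  have hj := he (k0 * K.q - s) (by
    push_cast
    rw [abs_le]
    constructor <;> nlinarith)
  have e1 : i' + (k0 * K.q - s) = k0 * K.q + b * (Q * K.q : ℕ) := by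
    push_cast; linarith
  have e2 : i + (k0 * K.q - s) = (k0 + r0) * K.q + (a + b) * (Q * K.q : ℕ) := by
    have : i = i' + K.q * r := by linarith
    rw [this, ← hr1]
    push_cast; linarith
  have h1 := hω' (i' + (k0 * K.q - s))
  have h2 := hω (i + (k0 * K.q - s))
  rw [hj, e2, Dz_pow hk] at h2
  rw [e1, Dz_pow hk] at h1
  rw [e1] at h2
  have hn1 : nearM K.q Q l (k0 * K.q) := by
    refine ⟨0, ?_⟩
    rw [zero_mul, sub_zero, abs_le]
    constructor <;> nlinarith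
  have hn2 : ¬ nearM K.q Q l ((k0 + r0) * K.q) :=
    not_near (mul_lt_mul_of_pos_right hk3 hq0) (mul_lt_mul_of_pos_right hk4 hq0)
  rw [Dz_near hn1, sInf_mult hk (Dvd.intro_left _ rfl), Finset.mem_singleton] at h1
  unfold Dz at h2
  rw [if_neg hn2, if_pos (Dvd.intro_left _ rfl), h1] at h2
  simp at h2

theorem lsum_Dn (hk : KOK F K) (hQ : 0 < Q) (l m : ℕ) :
    lsum (Dn K Q l m) (Q * K.q) = Real.log m + lsum (Dz K Q l) (Q * K.q) := by
  have hn : 0 < Q * K.q := Nat.mul_pos hQ hk.eok.qpos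
  obtain ⟨n, hn'⟩ : ∃ n, Q * K.q = n + 1 := ⟨Q * K.q - 1, by omega⟩
  unfold lsum
  conv_lhs => rw [hn']
  conv_rhs => rw [hn']
  rw [Finset.sum_range_succ', Finset.sum_range_succ']
  have h0 : Dn K Q l m ((0 : ℕ) : ℤ) = Finset.range m := by
    unfold Dn
    rw [if_pos (by simp)]
  have h1 : Dz K Q l ((0 : ℕ) : ℤ) = {sInf (K.D ((0 : ℕ) : ℤ) : Set ℕ)} :=
    Dz_near (nearM_mult _ _ _ (by simp))
  have h2 : ∀ i ∈ Finset.range n, Real.log ((Dn K Q l m ((i + 1 : ℕ) : ℤ)).card : ℝ) =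
      Real.log ((Dz K Q l ((i + 1 : ℕ) : ℤ)).card : ℝ) := by
    intro i hi
    unfold Dn
    rw [if_neg]
    intro hd
    have := Nat.le_of_dvd (Nat.succ_pos i) (Int.natCast_dvd_natCast.1 hd)
    have := Finset.mem_range.1 hi
    omega
  rw [Finset.sum_congr rfl h2, h0, h1]
  simp [add_comm]

/-- The free positions are `l q < i < (Q - l) q`; a full period contributes between
`lsum K.D K.q - log 2` (as `m - 1 ≥ m / 2`) and `lsum K.D K.q`. -/
theorem lsum_Dz (hk : KOK F K) (hQ : 2 * l + 1 < Q) :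
    ((Q : ℝ) - 2 * l - 1) * (lsum K.D K.q - Real.log 2) ≤ lsum (Dz K Q l) (Q * K.q) ∧
      lsum (Dz K Q l) (Q * K.q) ≤ ((Q : ℝ) - 2 * l) * lsum K.D K.q := by
  have hq0 : (0 : ℤ) < K.q := by exact_mod_cast hk.eok.qpos
  have hD : ∀ k j : ℕ, K.D ((k * K.q + j : ℕ) : ℤ) = K.D j := by
    intro k j
    have := hk.Dpow j k
    rw [← this]
    congr 1
    push_cast; ring
  set B : ℕ → ℝ := fun k => ∑ j ∈ Finset.range K.q,
    Real.log ((Dz K Q l ((k * K.q + j : ℕ) : ℤ)).card : ℝ) with hB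
  have hS : lsum (Dz K Q l) (Q * K.q) = ∑ k ∈ Finset.range Q, B k :=
    sum_blocks (fun i => Real.log ((Dz K Q l (i : ℤ)).card : ℝ)) K.q Q
  have hB0 : ∀ k, 0 ≤ B k := fun k => Finset.sum_nonneg fun _ _ => log_card_nonneg _
  have hBu : ∀ k, B k ≤ lsum K.D K.q := by
    intro k
    refine Finset.sum_le_sum fun j _ => ?_
    refine Real.log_le_log (by exact_mod_cast (Dz_ne hk Q l _).card_pos) ?_
    rw [← hD k j]
    exact_mod_cast Finset.card_le_card (Dz_sub hk Q l _)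
  have hBz : ∀ k ∈ Finset.range Q, k ∉ Finset.Ico l (Q - l) → B k = 0 := by
    intro k hk1 hk2
    refine Finset.sum_eq_zero fun j hj => ?_
    have hj' : (j : ℤ) < K.q := by exact_mod_cast Finset.mem_range.1 hj
    have hj0 : (0 : ℤ) ≤ j := by positivity
    have hk0 : (0 : ℤ) ≤ k := by positivity
    have hkQ : (k : ℤ) + 1 ≤ Q := by exact_mod_cast Finset.mem_range.1 hk1
    have hn : nearM K.q Q l ((k * K.q + j : ℕ) : ℤ) := by
      rw [Finset.mem_Ico] at hk2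
      rcases lt_or_ge k l with h | h
      · have h' : (k : ℤ) + 1 ≤ l := by exact_mod_cast h
        refine ⟨0, ?_⟩
        push_cast
        rw [abs_le]
        constructor <;> nlinarith
      · have h' : (Q : ℤ) ≤ k + l := by
          have : Q ≤ k + l := by omega
          exact_mod_cast this
        refine ⟨1, ?_⟩
        push_cast
        rw [abs_le]
        constructor <;> nlinarith
    rw [Dz_near hn]
    simp
  have hBl : ∀ k ∈ Finset.Ico (l + 1) (Q - l), lsum K.D K.q - Real.log 2 ≤ B k := by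
    intro k hk1
    rw [Finset.mem_Ico] at hk1
    have h1 : (l : ℤ) + 1 ≤ k := by exact_mod_cast hk1.1
    have h2 : (k : ℤ) + 1 + l ≤ Q := by
      have : k + 1 + l ≤ Q := by omega
      exact_mod_cast this
    have hn : ∀ j < K.q, ¬ nearM K.q Q l ((k * K.q + j : ℕ) : ℤ) := by
      intro j hj
      have hj' : (j : ℤ) < K.q := by exact_mod_cast hj
      have hj0 : (0 : ℤ) ≤ j := by positivity
      apply not_near <;> push_cast <;> nlinarith
    obtain ⟨n, hn'⟩ : ∃ n, K.q = n + 1 := ⟨K.q - 1, by have := hk.eok.qpos; omega⟩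
    have e1 : lsum K.D K.q = ∑ j ∈ Finset.range (n + 1), Real.log ((K.D j).card : ℝ) := by
      rw [← hn']; rfl
    have e2 : B k = ∑ j ∈ Finset.range (n + 1),
        Real.log ((Dz K Q l ((k * K.q + j : ℕ) : ℤ)).card : ℝ) := by
      rw [← hn']
    rw [e1, e2, Finset.sum_range_succ', Finset.sum_range_succ']
    have h3 : ∀ i ∈ Finset.range n,
        Real.log ((Dz K Q l ((k * K.q + (i + 1) : ℕ) : ℤ)).card : ℝ) =
          Real.log ((K.D ((i + 1 : ℕ) : ℤ)).card : ℝ) := by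
      intro i hi
      have hi' := Finset.mem_range.1 hi
      unfold Dz
      rw [if_neg (hn (i + 1) (by omega)), if_neg, hD]
      intro hd
      have hd' : K.q ∣ k * K.q + (i + 1) := Int.natCast_dvd_natCast.1 hd
      have := Nat.le_of_dvd (Nat.succ_pos i) ((Nat.dvd_add_right (Dvd.intro_left _ rfl)).1 hd')
      omega
    have h4 : Dz K Q l ((k * K.q + 0 : ℕ) : ℤ) = (Finset.range K.m).erase 0 := by
      unfold Dz
      rw [if_neg (hn 0 hk.eok.qpos), if_pos (by simp), hD, Nat.cast_zero, hk.D0]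
    have hm := hk.m2
    rw [Finset.sum_congr rfl h3, h4, Nat.cast_zero, hk.D0, Finset.card_range,
      Finset.card_erase_of_mem (Finset.mem_range.2 (by omega)), Finset.card_range]
    have hm' : (2 : ℝ) ≤ K.m := by exact_mod_cast hm
    have h5 : Real.log K.m - Real.log 2 ≤ Real.log ((K.m - 1 : ℕ) : ℝ) := by
      rw [← Real.log_div (by linarith) (by norm_num), Nat.cast_sub (by omega)]
      refine Real.log_le_log (by linarith) ?_
      push_cast; linarith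
    linarith
  rw [hS]
  constructor
  · have h1 : ∑ k ∈ Finset.Ico (l + 1) (Q - l), B k ≤ ∑ k ∈ Finset.range Q, B k := by
      refine Finset.sum_le_sum_of_subset_of_nonneg ?_ fun k _ _ => hB0 k
      intro k hk1
      rw [Finset.mem_Ico] at hk1
      rw [Finset.mem_range]
      omega
    have h2 := Finset.card_nsmul_le_sum _ _ _ hBl
    rw [Nat.card_Ico, nsmul_eq_mul] at h2
    have h3 : ((Q - l - (l + 1) : ℕ) : ℝ) = (Q : ℝ) - 2 * l - 1 := by
      rw [Nat.cast_sub (by omega), Nat.cast_sub (by omega)]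
      push_cast; ring
    rw [h3] at h2
    linarith
  · have h1 : ∑ k ∈ Finset.Ico l (Q - l), B k = ∑ k ∈ Finset.range Q, B k := by
      refine Finset.sum_subset ?_ hBz
      intro k hk1
      rw [Finset.mem_Ico] at hk1
      rw [Finset.mem_range]
      omega
    have h2 := Finset.sum_le_card_nsmul (Finset.Ico l (Q - l)) B _ fun k _ => hBu k
    rw [Nat.card_Ico, nsmul_eq_mul] at h2
    have h3 : ((Q - l - l : ℕ) : ℝ) = (Q : ℝ) - 2 * l := by
      rw [Nat.cast_sub (by omega), Nat.cast_sub (by omega)]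
      ring
    rw [h3] at h2
    linarith

/-- Choice of `Q, l, m`. WLOG `γ ≤ 1`. Put `h = K.h ≥ 0`, `d = H - h`, `l = ⌈Q (d + 1/q + γ) / (13 H)⌉₊`,
`S = lsum (Dz K Q l) (Q q)`, `m = ⌈exp (Q q H - S)⌉₊`, with `Q` large. Then `2 l + 1 < Q` as
`(d + 1/q + γ)/(13 H) ≤ 3/13`; `Q q H - S ≥ 2 l q H > 0` gives `2 ≤ m` and `log m ≤ Q q H - S + log 2
≤ Q q (d + 1/q) + 3 l q H + log 2`; `2 l log μ ≥ 16 l q H`. -/
theorem exists_params (hk : KOK F K) {H : ℝ} (hle : K.h ≤ H) (h1 : 1 ≤ H)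
    (hroom : (8 * H + 1) * K.q < Real.log K.μ) (c : ℝ) (n0 : ℕ) {γ : ℝ} (hγ : 0 < γ) :
    ∃ Q l m : ℕ, 2 * l + 1 < Q ∧ 1 ≤ l ∧ n0 ≤ Q ∧ 2 ≤ m ∧ c * m ≤ K.μ ^ (2 * l) ∧
      H * (Q * K.q) ≤ lsum (Dn K Q l m) (Q * K.q) ∧
      lsum (Dn K Q l m) (Q * K.q) ≤ H * (Q * K.q) + Real.log 2 ∧
      Real.log m ≤ 2 * (H - K.h + 1 / K.q + γ) * (Q * K.q) := by
  have hq1 : (1 : ℝ) ≤ K.q := by exact_mod_cast hk.eok.qpos
  have hq0 : (0 : ℝ) < K.q := by linarith
  have hΛ : lsum K.D K.q = K.h * K.q := by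
    unfold KD.h; field_simp
  have hh0 : 0 ≤ K.h := div_nonneg (lsum_nonneg _ _) hq0.le
  set g : ℝ := min γ 1 with hg
  have hg0 : 0 < g := lt_min hγ one_pos
  have hg1 : g ≤ 1 := min_le_right _ _
  have hgγ : g ≤ γ := min_le_left _ _
  have hiq : 1 / (K.q : ℝ) ≤ 1 := (div_le_one hq0).2 hq1
  have hiq0 : 0 < 1 / (K.q : ℝ) := by positivity
  have hiq1 : 1 / (K.q : ℝ) * K.q = 1 := by field_simp
  set a : ℝ := H - K.h + 1 / K.q + g with ha
  have ha0 : 0 < a := by linarith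
  have ha3 : a ≤ 3 * H := by linarith
  obtain ⟨Q, hQ⟩ := exists_nat_ge (max ((n0 : ℝ) + 6) ((3 * H + 2 + |c|) / g))
  have hQ1 : (n0 : ℝ) + 6 ≤ Q := (le_max_left _ _).trans hQ
  have hQ2 : 3 * H + 2 + |c| ≤ Q * g := (div_le_iff₀ hg0).1 ((le_max_right _ _).trans hQ)
  have hn0 : (0 : ℝ) ≤ n0 := by positivity
  have hQ6 : (6 : ℝ) ≤ Q := by linarith
  have hH : 0 < 13 * H := by linarith
  set l : ℕ := ⌈Q * a / (13 * H)⌉₊ with hl
  have hx0 : 0 < Q * a / (13 * H) := by positivity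
  have hl1 : Q * a ≤ l * (13 * H) := (div_le_iff₀ hH).1 (Nat.le_ceil _)
  have hl2 : l * (13 * H) < Q * a + 13 * H := by
    have h := Nat.ceil_lt_add_one hx0.le
    have h' := mul_lt_mul_of_pos_right h hH
    rw [add_mul, div_mul_cancel₀ _ hH.ne', one_mul] at h'
    exact h'
  have hl0 : 1 ≤ l := Nat.ceil_pos.2 hx0
  have hl0' : (1 : ℝ) ≤ l := by exact_mod_cast hl0
  have hlQ' : 2 * (l : ℝ) + 1 < Q := by
    have h2 : l * (13 * H) < (3 * Q + 13) * H := by nlinarith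
    have h3 : 13 * (l : ℝ) < 3 * Q + 13 := by
      by_contra hc
      push Not at hc
      nlinarith
    linarith
  have hlQ : 2 * l + 1 < Q := by exact_mod_cast hlQ'
  obtain ⟨hS1, hS2⟩ := lsum_Dz hk hlQ
  rw [hΛ] at hS1 hS2
  set S := lsum (Dz K Q l) (Q * K.q) with hS
  set X : ℝ := H * (Q * K.q) - S with hX
  have hlog2 : Real.log 2 ≤ 1 := by
    have := Real.log_le_sub_one_of_pos (show (0 : ℝ) < 2 by norm_num)
    linarith
  have hlog2' : 0 ≤ Real.log 2 := Real.log_nonneg (by norm_num)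
  have hhq : K.h * K.q ≤ H * K.q := mul_le_mul_of_nonneg_right hle hq0.le
  have hhq0 : 0 ≤ K.h * K.q := by positivity
  have hHq : 1 ≤ H * K.q := by nlinarith
  have hX0 : 0 < X := by
    have h2 : ((Q : ℝ) - 2 * l) * (K.h * K.q) ≤ ((Q : ℝ) - 2 * l) * (H * K.q) :=
      mul_le_mul_of_nonneg_left hhq (by linarith)
    nlinarith
  have hX1 : X ≤ (a - g) * (Q * K.q) + 3 * l * (H * K.q) := by
    have h2 : (2 * (l : ℝ) + 1) * (K.h * K.q) ≤ 3 * l * (H * K.q) :=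
      mul_le_mul (by linarith) hhq hhq0 (by linarith)
    have h3 : ((Q : ℝ) - 2 * l - 1) * Real.log 2 ≤ Q * 1 :=
      mul_le_mul (by linarith) hlog2 hlog2' (by linarith)
    have h4 : (a - g) * (Q * K.q) = (H - K.h) * (Q * K.q) + Q * (1 / K.q * K.q) := by
      rw [ha]; ring
    rw [h4, hiq1]
    nlinarith
  set m : ℕ := ⌈Real.exp X⌉₊ with hm
  have he1 : 1 < Real.exp X := Real.one_lt_exp_iff.2 hX0
  have hm1 : Real.exp X ≤ m := Nat.le_ceil _
  have hm2 : (m : ℝ) < Real.exp X + 1 := Nat.ceil_lt_add_one (by linarith)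
  have hm0 : (0 : ℝ) < m := by linarith
  have hm3 : 2 ≤ m := by
    have : (1 : ℝ) < m := by linarith
    exact_mod_cast this
  have hm4 : X ≤ Real.log m := (Real.le_log_iff_exp_le hm0).2 hm1
  have hm5 : Real.log m ≤ X + Real.log 2 := by
    have h2 : Real.log m ≤ Real.log (Real.exp X * 2) := Real.log_le_log hm0 (by linarith)
    rwa [Real.log_mul (by positivity) (by norm_num), Real.log_exp] at h2
  have hQg : (3 * H + 2 + |c|) * K.q ≤ g * (Q * K.q) := by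
    have := mul_le_mul_of_nonneg_right hQ2 hq0.le
    linarith
  have hc0 : 0 ≤ |c| := abs_nonneg c
  have hc1 : |c| ≤ |c| * K.q := le_mul_of_one_le_right hc0 hq1
  have hl1q := mul_le_mul_of_nonneg_right hl1 hq0.le
  have hl2q := mul_le_mul_of_nonneg_right hl2.le hq0.le
  have haQ : 0 ≤ a * (Q * K.q) := by positivity
  refine ⟨Q, l, m, hlQ, hl0, ?_, hm3, ?_, ?_, ?_, ?_⟩
  · have : (n0 : ℝ) ≤ Q := by linarith
    exact_mod_cast this
  · have hμ : 0 < K.μ := by linarith [hk.eok.mu]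
    have h2 : 2 * l * ((8 * H + 1) * K.q) ≤ 2 * l * Real.log K.μ :=
      mul_le_mul_of_nonneg_left hroom.le (by linarith)
    have h3 : |c| + Real.log m ≤ 2 * l * Real.log K.μ := by
      have : 0 ≤ (l : ℝ) * K.q := by positivity
      nlinarith
    have h4 : K.μ ^ (2 * l) = Real.exp (2 * l * Real.log K.μ) := by
      rw [← Real.exp_log (pow_pos hμ (2 * l)), Real.log_pow]
      push_cast; rfl
    have h5 : c ≤ Real.exp |c| := by
      have := Real.add_one_le_exp |c|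
      linarith [le_abs_self c]
    calc c * m ≤ Real.exp |c| * m := mul_le_mul_of_nonneg_right h5 hm0.le
      _ = Real.exp (|c| + Real.log m) := by rw [Real.exp_add, Real.exp_log hm0]
      _ ≤ _ := by rw [h4]; exact Real.exp_le_exp.2 h3
  · rw [lsum_Dn hk (by omega)]
    linarith
  · rw [lsum_Dn hk (by omega)]
    linarith
  · have h2 : 2 * a * (Q * K.q) ≤ 2 * (H - K.h + 1 / K.q + γ) * (Q * K.q) :=
      mul_le_mul_of_nonneg_right (by linarith) (by positivity)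
    nlinarith

end Pool.Agent.MP_369096_an.H89
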