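import Mathlib

/-!
Definitions for the `C^1` example (helper89): maps `T F (x,y) = (F (x,y), x)` of the plane that
commute with the integer lattice, piecewise affine approximants, cocycles, segments, covers,
coded horseshoes.
-/

set_option autoImplicit false

open Set Filter Topology

namespace Pool.Agent.MP_369096_an.H89

/-- The plane with the sup norm. -/
abbrev E : Type := ℝ × ℝ
/-- Affine functions on the plane: gradient and constant term. -/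
abbrev Af : Type := E × ℝ

def lin (h v : E) : ℝ := h.1 * v.1 + h.2 * v.2
def ev (g : Af) (z : E) : ℝ := lin g.1 z + g.2
def dt (u v : E) : ℝ := u.1 * v.2 - u.2 * v.1
def T (F : E → ℝ) (z : E) : E := (F z, z.1)
def TL (h v : E) : E := (lin h v, v.1)
def pt (x : ℤ → ℝ) (i : ℤ) : E := (x i, x (i - 1))
def iv (m : ℤ × ℤ) : E := ((m.1 : ℝ), (m.2 : ℝ))
/-- The change of coordinates from `F` to its time reversal. -/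
def sg (F : E → ℝ) (z : E) : E := (z.1, F z)

structure Adm (F : E → ℝ) (L κ : ℝ) : Prop where
  eqv : ∀ (z : E) (m : ℤ × ℤ), F (z + iv m) = F z + 22 * (m.1 : ℝ) - (m.2 : ℝ)
  lipx : ∀ x x' y : ℝ, |F (x, y) - F (x', y)| ≤ L * |x - x'|
  lo : ∀ x y y' : ℝ, y ≤ y' → y' - y ≤ κ * (F (x, y) - F (x, y'))
  hi : ∀ x y y' : ℝ, y ≤ y' → F (x, y) - F (x, y') ≤ κ * (y' - y)

/-- Time reversal: the inverse of `F` in the second variable. -/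
noncomputable def rev (F : E → ℝ) (z : E) : ℝ := Function.invFun (fun y => F (z.1, y)) z.2

def Close (F F' : E → ℝ) (η : ℝ) : Prop := ∀ z, |F' z - F z| ≤ η

/-- `F` is the linear map away from the lines `x ∈ ℤ`. -/
def LinR (F : E → ℝ) (ρ : ℝ) : Prop :=
  ∀ z : E, (∀ k : ℤ, ρ ≤ |z.1 - k|) → F z = 22 * z.1 - z.2

def Aff (F : E → ℝ) (p : E) (g : Af) : Prop := ∀ᶠ z in 𝓝 p, F z = ev g z
def Germ (F : E → ℝ) (p : E) (g : Af) : Prop := p ∈ closure {q | Aff F q g}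
def LG (F : E → ℝ) (p h : E) : Prop := ∃ c : ℝ, Germ F p (h, c)
def Sing (F : E → ℝ) : Set E := {p | ¬ ∃ g, Aff F p g}

/-- Every closed ball of radius `r` is covered by at most `N` closed convex cells, each with a
common germ. -/
def Loc (F : E → ℝ) (r : ℝ) (N : ℕ) : Prop :=
  0 < r ∧ ∀ z : E, ∃ S : Finset (Set E × Af), S.card ≤ N ∧
    (∀ A ∈ S, Convex ℝ A.1 ∧ IsClosed A.1 ∧ ∀ p ∈ A.1, Germ F p A.2) ∧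
    ∀ p : E, ‖p - z‖ ≤ r → ∃ A ∈ S, p ∈ A.1

/-- `F'` agrees with `F` near every point at distance more than `w` from the singular set. -/
def Off (F F' : E → ℝ) (w : ℝ) : Prop :=
  ∀ p : E, (∀ q ∈ Sing F, w < ‖p - q‖) → ∀ᶠ z in 𝓝 p, F' z = F z

/-! ### Cocycles -/

def SolOn (h : ℤ → E) (v : ℤ → ℝ) (s t : ℤ) : Prop :=
  ∀ i, s ≤ i → i < t → v (i + 1) = lin (h i) (pt v i)
def Sol (h : ℤ → E) (v : ℤ → ℝ) : Prop := ∀ i, v (i + 1) = lin (h i) (pt v i)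
def Bd (L : ℝ) (h : ℤ → E) : Prop := ∀ i, |(h i).1| ≤ L ∧ -2 ≤ (h i).2 ∧ (h i).2 ≤ -1 / 2
def Hyp (C l : ℝ) (h : ℤ → E) : Prop :=
  ∀ (v : ℤ → ℝ) (s t : ℤ), SolOn h v s t → ∀ i, s ≤ i → i ≤ t →
    ‖pt v i‖ ≤ C * (l ^ (s - i) * ‖pt v s‖ + l ^ (i - t) * ‖pt v t‖)
def Stab (C l : ℝ) (v : ℤ → ℝ) : Prop :=
  ∀ i j : ℤ, i ≤ j → ‖pt v j‖ ≤ C * l ^ (i - j) * ‖pt v i‖
def Unst (C l : ℝ) (v : ℤ → ℝ) : Prop :=
  ∀ i j : ℤ, i ≤ j → ‖pt v i‖ ≤ C * l ^ (i - j) * ‖pt v j‖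
/-- The time-reversed cocycle. -/
noncomputable def rvc (h : ℤ → E) (i : ℤ) : E := (-(h (-i)).1 / (h (-i)).2, 1 / (h (-i)).2)
noncomputable def mix (p : ℝ) (h0 h1 h2 : E) : E := (1 - p) • h0 + (p / 2) • h1 + (p / 2) • h2

def Orb (F : E → ℝ) (x : ℤ → ℝ) : Prop := ∀ i, x (i + 1) = F (pt x i)
def POrb (F : E → ℝ) (r : ℝ) (x : ℤ → ℝ) : Prop := ∀ i, |x (i + 1) - F (pt x i)| ≤ r
def Itin (F : E → ℝ) (x : ℤ → ℝ) (h : ℤ → E) : Prop := Orb F x ∧ ∀ i, LG F (pt x i) (h i)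
def HYP (F : E → ℝ) (C l : ℝ) : Prop := ∀ x h, Itin F x h → Hyp C l h
/-- No orbit meets the singular set three times. -/
def H2 (F : E → ℝ) : Prop :=
  ∀ x, Orb F x → ∀ i j k : ℤ, i < j → j < k →
    pt x i ∈ Sing F → pt x j ∈ Sing F → pt x k ∈ Sing F → False

/-! ### Edges and genericity -/

structure Edg (F : E → ℝ) (Ed : Set (E × Set E)) : Prop where
  fin : Ed.Finite
  ne : ∀ e ∈ Ed, e.1 ≠ 0
  cpt : ∀ e ∈ Ed, IsCompact e.2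
  line : ∀ e ∈ Ed, ∀ p ∈ e.2, ∀ q ∈ e.2, dt e.1 (p - q) = 0
  sub : ∀ e ∈ Ed, e.2 ⊆ Sing F
  cov : ∀ p ∈ Sing F, ∃ e ∈ Ed, ∃ m, p - iv m ∈ e.2

def ET (F : E → ℝ) (Ed : Set (E × Set E)) (C : ℝ) : Prop :=
  ∀ e ∈ Ed, ∀ x h v m, Itin F x h → pt x 0 - iv m ∈ e.2 → Sol h v → pt v 0 = e.1 →
    ∀ j, ‖pt v 0‖ ≤ C * ‖pt v j‖

/-- `ev (pull l g) z = ev l (ev g z, z.1)`. -/
def pull (l g : Af) : Af := ((l.1.1 * g.1.1 + l.1.2, l.1.1 * g.1.2), l.1.1 * g.2 + l.2)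
/-- Pull-back along a word; the head of the list is applied first. -/
def pullW (l : Af) : List Af → Af
  | [] => l
  | g :: W => pull (pullW l W) g
def det3 (a b c : Af) : ℝ :=
  a.1.1 * (b.1.2 * c.2 - b.2 * c.1.2) - a.1.2 * (b.1.1 * c.2 - b.2 * c.1.1) +
    a.2 * (b.1.1 * c.1.2 - b.1.2 * c.1.1)
def NT (A Ln : Set Af) : Prop :=
  ∀ l1 ∈ Ln, ∀ l2 ∈ Ln, ∀ l3 ∈ Ln, ∀ W1 W2 : List Af, W1 ≠ [] → W2 ≠ [] →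
    (∀ g ∈ W1, g ∈ A) → (∀ g ∈ W2, g ∈ A) → det3 l1 (pullW l2 W1) (pullW l3 (W1 ++ W2)) ≠ 0
/-- The affine function vanishing on the line through `p` with direction `(θ, 1)`. -/
def lineAt (θ : ℝ) (p : E) : Af := ((1, -θ), -(p.1 - θ * p.2))
noncomputable def x0 : ℝ := Real.sqrt 2

structure GenD (F : E → ℝ) (Ed : Set (E × Set E)) (A Ln : Set Af) : Prop where
  cA : A.Countable
  cL : Ln.Countable
  germ : ∀ p g, Germ F p g → g ∈ A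
  dir : ∀ e ∈ Ed, e.1.2 = 1
  lines : ∀ e ∈ Ed, ∀ p ∈ e.2, ∀ m, lineAt e.1.1 (p + iv m) ∈ Ln
  vert : ∀ i : ℤ, lineAt 0 (x0 + i, 0) ∈ Ln
  nt : NT A Ln

/-- `ev (shf t g) z = ev g (z + (t, 0))`. -/
def shf (t : ℝ) (g : Af) : Af := (g.1, g.2 + g.1.1 * t)
noncomputable def mixA (p w : ℝ) (g0 g1 g2 : Af) : Af :=
  (1 - p) • g0 + (p / 2) • shf w g1 + (p / 2) • shf (-w) g2
/-- `ev (dfm a t i g) (x, y) = a * t * ev g (x0 + (x - i - x0) / t, y)` for `t ≠ 0`. -/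
noncomputable def dfm (a t : ℝ) (i : ℤ) (g : Af) : Af :=
  ((a * g.1.1, a * t * g.1.2), a * (g.1.1 * (-(i : ℝ) - x0) + t * (g.1.1 * x0 + g.2)))

/-- The rounding step. -/
noncomputable def Rd (p w : ℝ) (F : E → ℝ) (z : E) : ℝ :=
  (1 - p) * F z + p / 2 * F (z + (w, 0)) + p / 2 * F (z + (-w, 0))

def MixI (F : E → ℝ) (p r : ℝ) (x : ℤ → ℝ) (h : ℤ → E) : Prop :=
  POrb F r x ∧ ∀ i, ∃ q0 q1 q2 h0 h1 h2 : E, ‖q0 - pt x i‖ ≤ r ∧ ‖q1 - pt x i‖ ≤ r ∧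
    ‖q2 - pt x i‖ ≤ r ∧ LG F q0 h0 ∧ LG F q1 h1 ∧ LG F q2 h2 ∧ h i = mix p h0 h1 h2

def RM (F : E → ℝ) (Ed : Set (E × Set E)) (p r C l : ℝ) : Prop :=
  ∀ x h, MixI F p r x h → Hyp C l h ∧ ∀ e ∈ Ed, ∀ m, ∀ q ∈ e.2, ∀ v,
    ‖pt x 0 - iv m - q‖ ≤ r → Sol h v → pt v 0 = e.1 → ∀ j, ‖pt v 0‖ ≤ C * ‖pt v j‖

structure RH (F F' : E → ℝ) (Ed : Set (E × Set E)) (w C : ℝ) : Prop where
  close : Close F F' w
  off : Off F F' w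
  etp : ∀ e ∈ Ed, ∀ x h v m, ∀ q ∈ e.2, Itin F' x h → ‖pt x 0 - iv m - q‖ ≤ w → Sol h v →
    pt v 0 = e.1 → ∀ j ≤ (0 : ℤ), ‖pt v 0‖ ≤ C * ‖pt v j‖

/-! ### Segments -/

def fw (g : ℕ → Af) (d : E) : ℕ → E
  | 0 => d
  | n + 1 => TL (g n).1 (fw g d n)

def Seg (F : E → ℝ) (z d : E) (g : ℕ → Af) (n : ℕ) : Prop :=
  ∀ i < n, ∀ t ∈ Icc (0 : ℝ) 1, Germ F ((T F)^[i] (z + t • d)) (g i)

/-- The segment `(z', d')` is the affine image after `n` steps of a piece of `(z, d)`. -/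
def Sub (F : E → ℝ) (z d : E) (n : ℕ) (z' d' : E) : Prop :=
  ∃ (t0 t1 : ℝ) (g : ℕ → Af), 0 ≤ t0 ∧ t0 ≤ t1 ∧ t1 ≤ 1 ∧
    Seg F (z + t0 • d) ((t1 - t0) • d) g n ∧ z' = (T F)^[n] (z + t0 • d) ∧
    d' = fw g ((t1 - t0) • d) n

def GoodAt (F : E → ℝ) (C : ℝ) (z d : E) : Prop :=
  ∀ x h v, Itin F x h → pt x 0 = z → Sol h v → pt v 0 = d → ∀ j : ℤ, 0 ≤ j → ‖d‖ ≤ C * ‖pt v j‖
def Good (F : E → ℝ) (C : ℝ) (z d : E) : Prop := ∀ t ∈ Icc (0 : ℝ) 1, GoodAt F C (z + t • d) d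
def ExpAt (F : E → ℝ) (C l : ℝ) (z d : E) : Prop :=
  ∀ x h v, Itin F x h → pt x 0 = z → Sol h v → pt v 0 = d → ∀ i j : ℤ, 0 ≤ i → i ≤ j →
    ‖pt v i‖ ≤ C * l ^ (i - j) * ‖pt v j‖
def Exp (F : E → ℝ) (C l : ℝ) (z d : E) : Prop :=
  ∀ t ∈ Icc (0 : ℝ) 1, ExpAt F C l (z + t • d) d

noncomputable def lamA : ℝ := 11 + Real.sqrt 120
noncomputable def phi (z : E) : ℝ := (z.1 - 1 / 2) - (z.2 - 1 / 2) / lamA
noncomputable def chi (z : E) : ℝ := z.2 - 1 / 2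

/-- An image of the segment crosses the long stable segment of the fixed point `(1/2,1/2)`. -/
def Cr (F : E → ℝ) (N : ℕ) (β : ℝ) (z d : E) : Prop :=
  ∃ n ≤ N, ∃ t0 ∈ Icc (0 : ℝ) 1, ∃ t1 ∈ Icc (0 : ℝ) 1, ∃ m : ℤ × ℤ,
    (∀ t ∈ uIcc t0 t1, |chi ((T F)^[n] (z + t • d) - (2 : ℝ) • iv m)| ≤ 2 - β) ∧
    β ≤ phi ((T F)^[n] (z + t0 • d) - (2 : ℝ) • iv m) ∧
    phi ((T F)^[n] (z + t1 • d) - (2 : ℝ) • iv m) ≤ -β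

def QP (F : E → ℝ) : Prop :=
  ∀ C δ : ℝ, 0 < δ → ∃ (N : ℕ) (β : ℝ), 0 < β ∧ ∀ z d, Good F C z d → δ ≤ ‖d‖ → Cr F N β z d

def CX (F : E → ℝ) (V n : ℕ) (δ : ℝ) : Prop :=
  ∀ z0 : E, ∃ S : Finset ((ℕ → Set E) × (ℕ → Af)), S.card ≤ V ∧
    (∀ c ∈ S, ∀ i < n, Convex ℝ (c.1 i) ∧ IsClosed (c.1 i) ∧ ∀ p ∈ c.1 i, Germ F p (c.2 i)) ∧
    ∀ z : E, ‖z - z0‖ ≤ δ → ∀ g : ℕ → Af, (∀ i < n, Germ F ((T F)^[i] z) (g i)) →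
      ∃ c ∈ S, ∀ i < n, (T F)^[i] z ∈ c.1 i ∧ c.2 i = g i

/-- Transitivity modulo `2 ℤ²` at scale `ε`. -/
def Tr (F : E → ℝ) (ε : ℝ) : Prop :=
  ∀ z1 z2 : E, ∃ (z : E) (n : ℕ) (m : ℤ × ℤ),
    ‖z - z1‖ < ε ∧ ‖(T F)^[n] z - (2 : ℝ) • iv m - z2‖ < ε

/-! ### Covers and entropy -/

def Cl (F : E → ℝ) (R : Set E → Prop) (ε : ℝ) (n : ℕ) (Z : Set E) : Prop :=
  (∀ i ≤ n, ∀ z ∈ Z, ∀ z' ∈ Z, ‖(T F)^[i] z - (T F)^[i] z'‖ ≤ ε) ∧ ∀ i < n, R ((T F)^[i] '' Z)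
def Cov (F : E → ℝ) (R : Set E → Prop) (ε : ℝ) (n : ℕ) (N : ℝ) : Prop :=
  ∃ S : Finset (Set E), (S.card : ℝ) ≤ N ∧ (∀ Z ∈ S, Cl F R ε n Z) ∧
    ∀ z : E, ∃ Z ∈ S, ∃ m, z - iv m ∈ Z
def AffOn (F : E → ℝ) (A : Set E) : Prop := ∃ g : Af, ∀ p ∈ A, F p = ev g p
/-- Local properties that pass to subsets and to integer translates. -/
def RInv (R : Set E → Prop) : Prop :=
  (∀ A B, A ⊆ B → R B → R A) ∧ ∀ A m, R A → R ((fun p => p + iv m) '' A)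
def EntB (F : E → ℝ) (H : ℝ) : Prop :=
  ∀ ε > 0, ∀ γ > 0, ∃ n0 : ℕ, ∀ n ≥ n0, Cov F (fun _ => True) ε n (Real.exp ((H + γ) * n))

/-! ### Approximate differentiability -/

def LipB (F : E → ℝ) (h : E) (κ : ℝ) (z : E) (r : ℝ) : Prop :=
  ∀ p q : E, ‖p - z‖ ≤ r → ‖q - z‖ ≤ r → |F p - F q - lin h (p - q)| ≤ κ * ‖p - q‖
def DP (F : E → ℝ) (κ r : ℝ) : Prop := ∀ z, ∃ h, LipB F h κ z r
def Near (F F' : E → ℝ) (w ε : ℝ) : Prop :=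
  ∀ h κ z r, LipB F h κ z (r + w) → LipB F' h (κ + ε) z r
def Keep (F F' : E → ℝ) (w : ℝ) : Prop :=
  ∀ (z : E) (g : Af) (ρ : ℝ), (∀ p, ‖p - z‖ ≤ ρ + w → F p = ev g p) →
    ∀ p, ‖p - z‖ ≤ ρ → F' p = ev g p

/-! ### Coded horseshoes -/

structure KD where
  q : ℕ
  m : ℕ
  D : ℤ → Finset ℕ
  a : ℤ → ℝ
  Y : (ℤ → ℕ) → ℤ → ℝ
  dl : ℝ
  sp : ℝ
  u : ℤ → ℝ
  s : ℤ → ℝ
  μ : ℝ

def Words (D : ℤ → Finset ℕ) : Set (ℤ → ℕ) := {ω | ∀ i, ω i ∈ D i}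
def KD.X (K : KD) : Set (ℤ → ℕ) := Words K.D
def KD.e (K : KD) : ℝ := K.u 1 - K.s 1
def KD.co (K : KD) (i : ℤ) : E := (K.a i, -1)
/-- Sum of the logarithms of the alphabet sizes over the first `n` positions. -/
noncomputable def lsum (D : ℤ → Finset ℕ) (n : ℕ) : ℝ :=
  ∑ i ∈ Finset.range n, Real.log ((D i).card : ℝ)
noncomputable def KD.h (K : KD) : ℝ := lsum K.D K.q / K.q
def KD.P (K : KD) (ω : ℤ → ℕ) : E := pt (K.Y ω) 0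

/-- The linear part of the data: a periodic cocycle with two eigen-solutions. -/
structure EOK (q : ℕ) (a u s : ℤ → ℝ) (μ : ℝ) : Prop where
  qpos : 0 < q
  aper : ∀ i, a (i + q) = a i
  usol : ∀ i, u (i + 1) = a i * u i - u (i - 1)
  ssol : ∀ i, s (i + 1) = a i * s i - s (i - 1)
  u0 : u 0 = 1
  s0 : s 0 = 1
  uper : ∀ i, u (i + q) = μ * u i
  sper : ∀ i, μ * s (i + q) = s i
  epos : 0 < u 1 - s 1
  um : |u (-1)| < 1 / 2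
  s1 : |s 1| < 1 / 2
  mu : 1 < μ

structure KOK (F : E → ℝ) (K : KD) : Prop where
  eok : EOK K.q K.a K.u K.s K.μ
  m2 : 2 ≤ K.m
  D0 : K.D 0 = Finset.range K.m
  Dne : ∀ i, (K.D i).Nonempty
  Dper : ∀ i, K.D (i + K.q) = K.D i
  dpos : 0 < K.dl
  spos : 0 < K.sp
  aff : ∀ ω ∈ K.X, ∀ i z, ‖z - pt (K.Y ω) i‖ ≤ K.dl →
    F z = K.Y ω (i + 1) + lin (K.co i) (z - pt (K.Y ω) i)
  shift : ∀ ω ∈ K.X, ∀ i, K.Y (fun j => ω (j + K.q)) i = K.Y ω (i + K.q)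
  small : ∃ ρ < (1 : ℝ) / 20, ∀ ω ∈ K.X, ∀ i, |K.Y ω i| ≤ ρ
  sep : ∀ ω ∈ K.X, ∀ ω' ∈ K.X, ∀ i i', ‖pt (K.Y ω) i - pt (K.Y ω') i'‖ < K.sp →
    (K.q : ℤ) ∣ i - i' ∧ ω i = ω' i'
  cont : ∀ η > 0, ∃ J : ℕ, ∀ ω ∈ K.X, ∀ ω' ∈ K.X, ∀ i : ℤ, (∀ j : ℤ, |j - i| ≤ (J : ℤ) → ω j = ω' j) →
    |K.Y ω i - K.Y ω' i| ≤ η

/-- The time-reversed data, with new margins. -/
def KD.rv (K : KD) (d d' : ℝ) : KD where
  q := K.q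
  m := K.m
  D := fun i => K.D (-i)
  a := fun i => K.a (-i)
  Y := fun ω i => K.Y (fun j => ω (-j)) (-i)
  dl := d
  sp := d'
  u := fun i => K.s (-i)
  s := fun i => K.u (-i)
  μ := K.μ

def KD.setDl (K : KD) (d : ℝ) : KD := { K with dl := d }

/-! ### The zigzag step -/

/-- `F'` is a perturbation of `F` in boxes of radius `W` around points of the horseshoe. -/
structure Box (F : E → ℝ) (K : KD) (F' : E → ℝ) (Ω : Set (ℤ → ℕ)) (n V : ℕ) (W c κ ε : ℝ) :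
    Prop where
  fin : Ω.Finite
  sub : Ω ⊆ K.X
  ret : ∀ ω ∈ Ω, ∀ ω' ∈ Ω, ∀ i : ℤ, ¬ (n : ℤ) ∣ i → ε ≤ ‖pt (K.Y ω) i - K.P ω'‖
  off : ∀ z : E, (∀ ω ∈ Ω, ∀ m, W < ‖z - iv m - K.P ω‖) → F' z = F z
  close : Close F F' (κ * W)
  cells : ∀ ω ∈ Ω, ∃ S : Finset (Set E × Af), S.card ≤ V ∧
    (∀ A ∈ S, Convex ℝ A.1 ∧ IsClosed A.1 ∧ ∀ p ∈ A.1, Germ F' p A.2) ∧
    ∀ p : E, ‖p - K.P ω‖ ≤ c * W → ∃ A ∈ S, p ∈ A.1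

/-- Positions within `l` periods of a multiple of `Q` periods. -/
def nearM (q Q l : ℕ) (i : ℤ) : Prop := ∃ t : ℤ, |i - t * (Q * q)| ≤ l * q

open Classical in
/-- The sub-alphabets: one letter near the new markers, no zero at the other old markers. -/
noncomputable def Dz (K : KD) (Q l : ℕ) (i : ℤ) : Finset ℕ :=
  if nearM K.q Q l i then {sInf (K.D i : Set ℕ)}
  else if (K.q : ℤ) ∣ i then (K.D i).erase 0 else K.D i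

/-- The new alphabets. -/
noncomputable def Dn (K : KD) (Q l m : ℕ) (i : ℤ) : Finset ℕ :=
  if ((Q * K.q : ℕ) : ℤ) ∣ i then Finset.range m else Dz K Q l i

/-- Forget the letters at the multiples of `n`. -/
def bs (n : ℕ) (ω : ℤ → ℕ) (i : ℤ) : ℕ := if (n : ℤ) ∣ i then 0 else ω i

/-- Keep the letters on a window, put default letters outside. -/
noncomputable def trc (D : ℤ → Finset ℕ) (n : ℕ) (ω : ℤ → ℕ) (i : ℤ) : ℕ :=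
  if |i| ≤ n then ω i else sInf (D i : Set ℕ)

/-- The codes of the box centres. -/
def Om (K : KD) (Q l J : ℕ) : Set (ℤ → ℕ) :=
  trc (Dz K Q l) ((J * Q - l) * K.q) '' Words (Dz K Q l)

/-- The local property used to count orbits after the zigzag step. -/
def RZ (F' : E → ℝ) (K : KD) (Ω : Set (ℤ → ℕ)) (W : ℝ) (cell : (ℤ → ℕ) → ℕ → Set E)
    (A : Set E) : Prop :=
  AffOn F' A ∨ ∃ k : ℕ, ∀ p ∈ A, ∃ ω ∈ Ω, ∃ m, ‖p - iv m - K.P ω‖ ≤ W ∧ p - iv m ∈ cell ω k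

/-- Lap data of the perturbation `F' - F`. -/
def Laps (F F' : E → ℝ) (Ps : Set E) (e W b κ : ℝ) (m : ℕ) : Prop :=
  ∀ P ∈ Ps, ∃ ξ : ℕ → ℝ, ∀ k < m, |ξ k| ≤ 9 * m * b ∧ (∀ k' < m, k ≠ k' → 2 * b ≤ |ξ k - ξ k'|) ∧
    ∀ z : E, |z.1 - P.1 - ξ k| ≤ b / 2 → |z.2 - P.2| ≤ W / 10 →
      F' z = F z + κ * (z.1 - P.1) - (e + κ) * ξ k

/-- Gradient conditions on the pieces of a tent. -/
def GradOK (e η θ : ℝ) (h : E) : Prop :=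
  3 / 4 * (η * e) ≤ |e + h.1| ∧ -2 * (η * e) ≤ e + h.1 ∧ |h.1| ≤ 3 * e ∧ |h.2| ≤ θ

/-- A periodic sum of tents supported in boxes of radius `W` around the points of `Ps`. -/
structure Tent (Ψ : E → ℝ) (Ps : Set E) (e η θ W r b κ : ℝ) (m : ℕ) (Ed : Set (E × Set E)) :
    Prop where
  per : ∀ z k, Ψ (z + iv k) = Ψ z
  off : ∀ z : E, (∀ P ∈ Ps, ∀ k, W < ‖z - iv k - P‖) → Ψ z = 0
  bd : ∀ z, |Ψ z| ≤ 4 * e * W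
  lipx : ∀ x x' y : ℝ, |Ψ (x, y) - Ψ (x', y)| ≤ 3 * e * |x - x'|
  lipy : ∀ x y y' : ℝ, |Ψ (x, y) - Ψ (x, y')| ≤ θ * |y - y'|
  cells : ∀ P ∈ Ps, ∃ S : Finset (Set E × Af), S.card ≤ 16 * m ∧
    (∀ A ∈ S, Convex ℝ A.1 ∧ IsClosed A.1 ∧ (interior A.1).Nonempty ∧
      (∀ p ∈ A.1, ‖p - P‖ ≤ r ∧ Ψ p = ev A.2 p) ∧ GradOK e η θ A.2.1) ∧
    ∀ p : E, ‖p - P‖ ≤ r → ∃ A ∈ S, p ∈ A.1
  efin : Ed.Finite
  edge : ∀ d ∈ Ed, d.1.2 = 1 ∧ (|d.1.1| ≤ θ ∨ |d.1.1 + 1| ≤ θ) ∧ IsCompact d.2 ∧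
    (∀ p ∈ d.2, ∀ q ∈ d.2, dt d.1 (p - q) = 0) ∧ ∃ P ∈ Ps, ∀ p ∈ d.2, ‖p - P‖ ≤ W
  ecov : ∀ p ∈ Sing Ψ, ∃ d ∈ Ed, ∃ k, p - iv k ∈ d.2
  slope : η / 2 ≤ 1 + κ / e ∧ 1 + κ / e ≤ 2 * η
  laps : Laps (fun _ => 0) Ψ Ps e W b κ m

/-- One tent at the origin, before deformation. -/
structure Tent0 (Φ : E → ℝ) (e η θ W b : ℝ) (m : ℕ) (S : Finset (Set E × Af))
    (Ls : Finset (ℝ × ℝ)) : Prop where
  off : ∀ z : E, 3 / 4 * W ≤ ‖z‖ → Φ z = 0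
  bd : ∀ z, |Φ z| ≤ e * W
  lipx : ∀ x x' y : ℝ, |Φ (x, y) - Φ (x', y)| ≤ 2 * e * |x - x'|
  lipy : ∀ x y y' : ℝ, |Φ (x, y) - Φ (x, y')| ≤ θ / 2 * |y - y'|
  card : S.card ≤ 16 * m
  cells : ∀ A ∈ S, Convex ℝ A.1 ∧ IsClosed A.1 ∧ (∀ p ∈ A.1, Φ p = ev A.2 p) ∧
    7 / 8 * (η * e) ≤ |e + A.2.1.1| ∧ -(9 / 8 * (η * e)) ≤ e + A.2.1.1 ∧ |A.2.1.1| ≤ 2 * e ∧
    |A.2.1.2| ≤ θ / 2
  cover : ∀ p : E, ∃ A ∈ S, p ∈ A.1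
  ldir : ∀ l ∈ Ls, |l.1| ≤ θ / 2 ∨ l.1 = -1
  lcov : ∀ p ∈ Sing Φ, ∃ l ∈ Ls, p.1 - l.1 * p.2 = l.2
  laps : ∀ k < m, ∀ z : E, |z.1 - (η + 4 * k + 3) * b| ≤ b → |z.2| ≤ W / 8 →
    Φ z = e * (η - 1) * z.1 - e * η * ((η + 4 * k + 3) * b)

/-! ### The induction -/

structure CoreD (F : E → ℝ) (L κ ρ r : ℝ) (N : ℕ) (Ed : Set (E × Set E)) (A Ln : Set Af)
    (C l : ℝ) : Prop where
  adm : Adm F L κ
  kap : κ < 2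
  linr : LinR F ρ
  rho : ρ < 1 / 5
  loc : Loc F r N
  edg : Edg F Ed
  gen : GenD F Ed A Ln
  hyp : HYP F C l
  lam : 2 < l
  et : ET F Ed C
  q : QP F
  qrev : QP (rev F)

def Core (F : E → ℝ) : Prop := ∃ L κ ρ r N Ed A Ln C l, CoreD F L κ ρ r N Ed A Ln C l

structure Invt (F : E → ℝ) (K : KD) (H : ℝ) : Prop where
  core : Core F
  ent : EntB F H
  kok : KOK F K
  hle : K.h ≤ H
  one : 1 ≤ H
  room : (8 * H + 1) * K.q < Real.log K.μ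

/-- `K'` refines `K`. -/
def Ext (K K' : KD) (η : ℝ) : Prop :=
  ∃ Q : ℕ, 2 ≤ Q ∧ K'.q = Q * K.q ∧ (∀ i : ℤ, ¬ (K'.q : ℤ) ∣ i → K'.D i ⊆ K.D i) ∧
    ∀ ω ∈ K'.X, ∀ i, |K'.Y ω i - K.Y (bs K'.q ω) i| ≤ η

/-- One stage of the construction. -/
structure Stage (F : E → ℝ) (K : KD) (H η : ℝ) (F' : E → ℝ) (K' : KD) (H' : ℝ) : Prop where
  inv : Invt F' K' H'
  close : Close F F' η
  near : Near F F' η (4 * K.e)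
  esmall : K'.e ≤ η
  hge : H ≤ K'.h
  hle : K'.h ≤ H + η
  Hle : H' ≤ K'.h + η
  ext : Ext K K' η
  tail : Real.log K'.m / K'.q ≤ 2 * (H - K.h + 1 / K.q + η)

/-- The first map is `G x - y`. -/
structure BaseSpec (G : ℝ → ℝ) (b sl : ℕ → ℝ) : Prop where
  per : ∀ (x : ℝ) (k : ℤ), G (x + k) = G x + 22 * k
  inc : ∀ j < 6, b j < b (j + 1)
  wrap : b 6 = b 0 + 1
  lo : -1 / 10 ≤ b 0
  hi : b 5 ≤ 1 / 10
  aff : ∀ j < 6, ∀ x ∈ Icc (b j) (b (j + 1)), G x = G (b j) + sl j * (x - b j)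
  big : ∀ j < 6, 20 ≤ |sl j|
  lin : ∀ x ∈ Icc (b 5) (b 6), G x = 22 * x
  var : ∀ j < 6, |sl j| ≤ 23 ∨ |sl j| * (b (j + 1) - b j) ≤ 1 / 4
  laps : ∃ a w ξ0 ξ1 : ℝ, 10 ^ 39 ≤ a ∧ 0 < w ∧ w ≤ 1 / 1000 ∧ |ξ0 + 2 * w| ≤ w / 10 ∧
    |ξ1 - 2 * w| ≤ w / 10 ∧ (∀ x, |x - ξ0| ≤ w / 2 → G x = a * (x - ξ0)) ∧
    ∀ x, |x - ξ1| ≤ w / 2 → G x = a * (x - ξ1)

/-- The algebraic genericity of the first map. -/
def BaseGen (G : ℝ → ℝ) (b sl : ℕ → ℝ) : Prop :=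
  ∃ A Ln : Set Af, A.Countable ∧ Ln.Countable ∧
    (∀ j < 6, ∀ k : ℤ, ((sl j, -1), G (b j + k) - sl j * (b j + k)) ∈ A) ∧
    (∀ j < 6, ∀ k : ℤ, lineAt 0 (b j + k, 0) ∈ Ln) ∧ (∀ k : ℤ, lineAt 0 (x0 + k, 0) ∈ Ln) ∧
    NT A Ln

def Fb (G : ℝ → ℝ) (z : E) : ℝ := G z.1 - z.2

/-! ### The limit -/

open Classical in
/-- Entropy of the image of the uniform distribution. -/
noncomputable def empEnt {ι B : Type} [Fintype ι] [Fintype B] (ξ : ι → B) : ℝ :=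
  ∑ c : B, Real.negMulLog (((Finset.univ.filter fun a => ξ a = c).card : ℝ) / Fintype.card ι)

/-- Finite approximate orbits whose labels have entropy rate at least every `v < H`. -/
def Approx {M : Type} [MetricSpace M] (f : M → M) (c : ℕ → ℕ)
    (σ : ∀ n, Equiv.Perm (Fin (c n + 1))) (y : ∀ n, Fin (c n + 1) → M) (H : ℝ) : Prop :=
  (∀ ε > 0, ∀ᶠ n in atTop, ∀ a, dist (f (y n a)) (y n (σ n a)) ≤ ε) ∧
  ∀ v < H, ∃ (k : ℕ) (ρ : ∀ n, Fin (c n + 1) → Fin k) (δ : ℝ) (n0 : ℕ), 0 < δ ∧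
    (∀ n ≥ n0, ∀ n' ≥ n0, ∀ a a', dist (y n a) (y n' a') < δ → ρ n a = ρ n' a') ∧
    ∀ N : ℕ, ∀ᶠ n in atTop, N * v ≤ empEnt fun a (i : Fin N) => ρ n ((σ n)^[i] a)

/-- A chain of horseshoes converging to the limit map. -/
structure Chain (F : E → ℝ) (H : ℝ) (Fs : ℕ → E → ℝ) (Ks : ℕ → KD) (η : ℕ → ℝ) : Prop where
  kok : ∀ n, KOK (Fs n) (Ks n)
  conv : ∀ ε > 0, ∀ᶠ n in atTop, Close (Fs n) F ε
  ext : ∀ n, Ext (Ks n) (Ks (n + 1)) (η n)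
  eta : ∀ j n, ∑ i ∈ Finset.Ico j n, η i ≤ (Ks j).sp / 4
  ent : Tendsto (fun n => (Ks n).h) atTop (𝓝 H)
  tail : Summable fun n => Real.log (Ks n).m / (Ks n).q

/-- Everything that is needed about the limit map. -/
structure Final (F : E → ℝ) (L H : ℝ) : Prop where
  adm : Adm F L 2
  c1 : ContDiff ℝ 1 F
  tr : ∀ ε > 0, Tr F ε
  pos : 0 < H
  ent : ∀ ε > 0, ∀ γ > 0, ∃ n : ℕ, 0 < n ∧
    Cov F (fun _ => True) ε n (Real.exp ((H + γ) * n) / 4)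
  apx : ∃ (c : ℕ → ℕ) (σ : ∀ n, Equiv.Perm (Fin (c n + 1))) (y : ∀ n, Fin (c n + 1) → E),
    (∀ n a, ‖y n a‖ ≤ 1 / 20) ∧ Approx (T F) c σ y H

end Pool.Agent.MP_369096_an.H89
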