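import Pool.Agent.MP_369096_an.H89.KLem

/-!
TASK Eig. The new periodic cocycle, its eigen-solutions and its Green function.
Auxiliary lemmas go in namespace `H89.Eig`.
-/

set_option autoImplicit false

open Set Filter Topology

namespace Pool.Agent.MP_369096_an.H89

/-- The slopes with an extra term at the multiples of `n`. -/
def akick (a : ℤ → ℝ) (n : ℕ) (κ : ℝ) (i : ℤ) : ℝ := a i + if (n : ℤ) ∣ i then κ else 0

namespace Eig

theorem div_mod {n : ℕ} {r : ℤ} (h0 : 0 ≤ r) (h1 : r < n) (t : ℤ) :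
    (t * n + r) / n = t ∧ (t * n + r) % n = r := by
  have hn : (n : ℤ) ≠ 0 := by omega
  constructor
  · rw [add_comm, Int.add_mul_ediv_right _ _ hn, Int.ediv_eq_zero_of_lt h0 h1, zero_add]
  · rw [add_comm, Int.add_mul_emod_self_right, Int.emod_eq_of_lt h0 h1]

theorem decomp {n : ℕ} (hn : 0 < n) (i : ℤ) : ∃ t r : ℤ, 0 ≤ r ∧ r < n ∧ i = t * n + r :=
  ⟨i / n, i % n, Int.emod_nonneg _ (by omega), Int.emod_lt_of_pos _ (by omega), by
    rw [mul_comm, Int.mul_ediv_add_emod]⟩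

theorem not_dvd {n : ℕ} {r : ℤ} (h0 : 0 < r) (h1 : r < n) (t : ℤ) : ¬ (n : ℤ) ∣ t * n + r := by
  intro h
  have := Int.emod_eq_zero_of_dvd h
  rw [(div_mod h0.le h1 t).2] at this
  omega

theorem wr0 {q : ℕ} {a u s : ℤ → ℝ} {μ : ℝ} (h : EOK q a u s μ) :
    s (-1) - u (-1) = u 1 - s 1 := by
  have := h.wr 0
  simpa only [dt, pt, h.u0, h.s0, zero_sub, one_mul, mul_one] using this

theorem build {q : ℕ} {a u s : ℤ → ℝ} {μ : ℝ} (h : EOK q a u s μ) {Q : ℕ} (hQ : 0 < Q)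
    {κ ν β : ℝ} (hν : ν ≠ 0) (H1 : β * μ ^ Q + (1 - β) * (μ ^ Q)⁻¹ = ν)
    (H2 : ν * (κ + (1 - β) * (u 1 - s 1)) = (1 - β) * (u 1 - s 1) * (μ ^ Q)⁻¹) :
    ∃ v : ℤ → ℝ, (∀ i, v (i + 1) = akick a (Q * q) κ i * v i - v (i - 1)) ∧
      (∀ i, v (i + (Q * q : ℕ)) = ν * v i) ∧
      (∀ r : ℤ, 0 ≤ r → r ≤ (Q * q : ℕ) → v r = β * u r + (1 - β) * s r) ∧
      v (-1) = u (-1) + (κ + (1 - β) * (u 1 - s 1)) := by
  have hn0 : 0 < Q * q := Nat.mul_pos hQ h.qpos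
  have hw := wr0 h
  have hup : ∀ r : ℤ, u (r + (Q * q : ℕ)) = μ ^ Q * u r ∧ s (r + (Q * q : ℕ)) = (μ ^ Q)⁻¹ * s r := by
    intro r
    have := h.upow r Q
    rw [zpow_neg, zpow_natCast] at this
    push_cast
    exact ⟨this.1, this.2.1⟩
  have ha : ∀ t r : ℤ, a (t * (Q * q : ℕ) + r) = a r := by
    intro t r
    have := (h.upow r (t * Q)).2.2
    rw [← this]; congr 1; push_cast; ring
  generalize Q * q = n at *
  let w : ℤ → ℝ := fun r => β * u r + (1 - β) * s r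
  let v : ℤ → ℝ := fun i => ν ^ (i / n) * w (i % n)
  have w0 : w 0 = 1 := by simp only [w, h.u0, h.s0]; ring
  have f0 : ∀ t r : ℤ, 0 ≤ r → r < n → v (t * n + r) = ν ^ t * w r := fun t r a b => by
    simp only [v]; rw [(div_mod a b t).1, (div_mod a b t).2]
  have f1 : ∀ t r : ℤ, 0 ≤ r → r ≤ n → v (t * n + r) = ν ^ t * w r := by
    intro t r a b
    rcases b.lt_or_eq with b | rfl
    · exact f0 t r a b
    · have e1 := f0 (t + 1) 0 le_rfl (by omega)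
      rw [show (t + 1) * n + 0 = t * n + n by ring] at e1
      have e2 := hup 0
      rw [zero_add, h.u0, h.s0] at e2
      rw [e1, w0, zpow_add_one₀ hν]
      simp only [w, e2.1, e2.2]
      rw [← H1]; ring
  have f2 : ∀ t : ℤ, v (t * n - 1) = ν ^ t * (u (-1) + (κ + (1 - β) * (u 1 - s 1))) := by
    intro t
    have e1 := f0 (t - 1) (-1 + n) (by omega) (by omega)
    rw [show (t - 1) * n + (-1 + n) = t * n - 1 by ring] at e1
    have e3 : ν ^ t = ν ^ (t - 1) * ν := by rw [← zpow_add_one₀ hν, sub_add_cancel]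
    rw [e1, e3, mul_assoc]
    congr 1
    simp only [w, (hup (-1)).1, (hup (-1)).2]
    linear_combination u (-1) * H1 - H2 + (1 - β) * (μ ^ Q)⁻¹ * hw
  have wrec : ∀ r : ℤ, w (r + 1) = a r * w r - w (r - 1) := by
    intro r
    simp only [w]
    rw [h.usol r, h.ssol r]
    ring
  refine ⟨v, fun i => ?_, fun i => ?_, fun r a b => ?_, ?_⟩
  · obtain ⟨t, r, a0, a1, rfl⟩ := decomp hn0 i
    rw [add_assoc, f1 t (r + 1) (by omega) (by omega), f0 t r a0 a1, akick, ha, wrec]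
    rcases a0.eq_or_lt with rfl | a0
    · rw [add_zero, f2, if_pos (Dvd.intro_left t rfl), zero_sub, w0]
      simp only [w]
      linear_combination (-(ν ^ t * (1 - β))) * hw
    · rw [if_neg (not_dvd a0 a1 t), add_sub_assoc, f0 t (r - 1) (by omega) (by omega), add_zero]
      ring
  · obtain ⟨t, r, a0, a1, rfl⟩ := decomp hn0 i
    rw [show t * n + r + n = (t + 1) * n + r by ring, f0 t r a0 a1, f0 (t + 1) r a0 a1,
      zpow_add_one₀ hν]
    ring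
  · have := f1 0 r a b
    rwa [zero_mul, zero_add, zpow_zero, one_mul] at this
  · have := f2 0
    rwa [zero_mul, zero_sub, zpow_zero, one_mul] at this

theorem exists_root {tr : ℝ} (h : 4 ≤ tr) : ∃ m y : ℝ, 2 ≤ m ∧ 0 < y ∧ m * y = 1 ∧ m + y = tr := by
  have h1 : 0 ≤ tr ^ 2 - 4 := by nlinarith
  have h2 := Real.sq_sqrt h1
  have h3 := Real.sqrt_nonneg (tr ^ 2 - 4)
  have h4 : (tr + √(tr ^ 2 - 4)) / 2 * ((tr - √(tr ^ 2 - 4)) / 2) = 1 := by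
    linear_combination (-1 / 4) * h2
  refine ⟨(tr + √(tr ^ 2 - 4)) / 2, (tr - √(tr ^ 2 - 4)) / 2, by linarith, ?_, h4, by ring⟩
  exact (mul_pos_iff_of_pos_left (by linarith)).1 (h4 ▸ one_pos)

theorem beta {N x ν ν' θ : ℝ} (hx : N * x = 1) (hD : 0 < N - x) (h1 : ν * ν' = 1)
    (h2 : ν + ν' = θ * N + (2 - θ) * x) (h3 : x ≤ ν) (h4 : ν ≤ N) :
    ∃ β : ℝ, 0 ≤ β ∧ β ≤ 1 ∧ β * (N - x) = ν - x ∧ ν * ((θ - 1) + (1 - β)) = (1 - β) * x := by
  have e : (ν - x) / (N - x) * (N - x) = ν - x := div_mul_cancel₀ _ hD.ne'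
  refine ⟨(ν - x) / (N - x), div_nonneg (by linarith) hD.le, (div_le_one hD).2 (by linarith), e,
    ?_⟩
  refine mul_right_cancel₀ hD.ne' ?_
  linear_combination (x - ν) * e - ν * h2 + h1 - hx

theorem cvx {β x y : ℝ} (h0 : 0 ≤ β) (h1 : β ≤ 1) : |β * x + (1 - β) * y| ≤ |x| + |y| := by
  refine (abs_add_le _ _).trans ?_
  rw [abs_mul, abs_mul, abs_of_nonneg h0, abs_of_nonneg (sub_nonneg.2 h1)]
  have := abs_nonneg x
  have := abs_nonneg y
  nlinarith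

theorem nums {η θ N x : ℝ} (hη : 0 < η) (hη1 : η ≤ 1 / 4) (hl : η / 2 ≤ θ) (hu : θ ≤ 2 * η)
    (hN2 : 2 ≤ N) (hx : N * x = 1) (hx0 : 0 < x) (hx1 : x ≤ 1 / 2) (b1 : 8 ≤ η * N) :
    ∃ m y β γ : ℝ, 2 ≤ m ∧ 0 < y ∧ y ≤ 1 / 2 ∧ m * y = 1 ∧ 0 ≤ β ∧ β ≤ 1 ∧ 0 ≤ γ ∧ γ ≤ 1 ∧
      β * N + (1 - β) * x = m ∧ γ * N + (1 - γ) * x = y ∧ m * ((θ - 1) + (1 - β)) = (1 - β) * x ∧
      y * ((θ - 1) + (1 - γ)) = (1 - γ) * x ∧ 0 < β - γ ∧ β - γ ≤ 4 * η ∧ η ≤ 4 * (β - γ) ∧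
      γ ≤ 2 * x ∧ η * N / 4 ≤ m ∧ |θ / (β - γ) - 1| * N ≤ 8 / η := by
  have hN0 : 0 < N := by linarith
  have t1 : η / 2 * N ≤ θ * N := by gcongr
  have t2 : θ * N ≤ 2 * η * N := by gcongr
  have t3 : 0 ≤ (2 - θ) * x := mul_nonneg (by linarith) hx0.le
  have t4 : (2 - θ) * x ≤ 2 * x := by gcongr; linarith
  have t5 : η * N ≤ 1 / 4 * N := by gcongr
  obtain ⟨m, y, hm, hy, hmy, htr⟩ := exists_root (tr := θ * N + (2 - θ) * x) (by linarith)
  have hy1 : y ≤ 1 / 2 := by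
    have : 2 * y ≤ m * y := by gcongr
    linarith
  have hmN : m ≤ N := by linarith
  have hxy : x ≤ y := by
    have : m * y * x ≤ N * y * x := by gcongr
    calc x = m * y * x := by rw [hmy, one_mul]
      _ ≤ N * y * x := this
      _ = y := by linear_combination y * hx
  have hD : 0 < N - x := by linarith
  obtain ⟨β, β0, β1, β2, β3⟩ := beta hx hD hmy htr (by linarith) hmN
  obtain ⟨γ, γ0, γ1, γ2, γ3⟩ := beta hx hD (ν := y) (ν' := m) (θ := θ) (by linarith) (by linarith)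
    hxy (by linarith)
  have e2 : (β - γ) * (N - x) = m - y := by linarith
  have q0 : 0 < m - y := by linarith
  have d0 : 0 < β - γ := (mul_pos_iff_of_pos_right hD).1 (e2 ▸ q0)
  have p1 : η * x ≤ 1 / 4 * (1 / 2) := by gcongr
  have p2 : 0 ≤ η * x := by positivity
  have p3 : x * x ≤ 1 / 2 * (1 / 2) := by gcongr
  have m4 : η * N / 4 ≤ m := by linarith
  refine ⟨m, y, β, γ, hm, hy, hy1, hmy, β0, β1, γ0, γ1, by linarith, by linarith, β3, γ3, d0,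
    le_of_mul_le_mul_right (by linarith) hD, le_of_mul_le_mul_right (by linarith) hD,
    le_of_mul_le_mul_right (by linarith) hD, m4, ?_⟩
  have q1 : θ / (β - γ) - 1 = 2 * (y - x) / (m - y) := by
    rw [div_sub_one d0.ne', div_eq_div_iff d0.ne' q0.ne']
    linear_combination (-(β - γ)) * htr - θ * e2
  have q2 : 2 * (y - x) / (m - y) ≤ 2 * y := by
    rw [div_le_iff₀ q0]
    have : y * 1 ≤ y * (m - y) := by gcongr; linarith
    linarith
  have q3 : 2 * y * N ≤ 8 / η := by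
    rw [le_div_iff₀ hη]
    have : y * (η * N / 4) ≤ y * m := by gcongr
    linarith
  rw [q1, abs_of_nonneg (div_nonneg (by linarith) q0.le)]
  exact (mul_le_mul_of_nonneg_right q2 hN0.le).trans q3

end Eig

open Eig in
/-- Explicit solution. `e = u 1 - s 1`, `N = μ^Q`, `η' = 1 + κ/e`, `tr = η' N + (2 - η')/N`, `μ' > 1` the root
of `ν + 1/ν = tr`. For `ν ∈ {μ', 1/μ'}` put `β = (ν - 1/N)/(N - 1/N) ∈ [0,1]`; then `β (N - ν) = (1 - η') ν`, and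
`v (t n + i) = ν^t (β u i + (1-β) s i)` for `0 ≤ i ≤ n = Q q` defines a solution of the new recurrence (the two
formulas agree at `i = n`; check the recurrence at the multiples of `n` with `EOK.upow`,
`s (-1) = u (-1) + e`). One finds `e' = e (μ' - 1/μ')/(N - 1/N)`, `s' 1 = s 1 + β_s e`,
`u' (-1) = u (-1) + (1 - β_u) e / (N μ')`, `tr - 1 < μ' < tr`. -/
theorem eigen {q : ℕ} {a u s : ℤ → ℝ} {μ : ℝ} (h : EOK q a u s μ) {η : ℝ} (hη : 0 < η)
    (hη1 : η ≤ 1 / 4) : ∃ c ≥ 1, ∀ (Q : ℕ) (κ : ℝ), c ≤ μ ^ Q → η / 2 ≤ 1 + κ / (u 1 - s 1) →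
      1 + κ / (u 1 - s 1) ≤ 2 * η → ∃ (u' s' : ℤ → ℝ) (μ' : ℝ),
        EOK (Q * q) (akick a (Q * q) κ) u' s' μ' ∧ η * μ ^ Q / 4 ≤ μ' ∧
        u' 1 - s' 1 ≤ 4 * η * (u 1 - s 1) ∧ η * (u 1 - s 1) ≤ 4 * (u' 1 - s' 1) ∧
        |(u 1 - s 1 + κ) / (u' 1 - s' 1) - 1| * μ ^ Q ≤ c ∧ |s' (-1)| ≤ 1 + 4 * η * (u 1 - s 1) ∧
        ∀ i : ℤ, 0 ≤ i → i ≤ (Q * q : ℕ) → |u' i| ≤ |u i| + |s i| ∧ |s' i| ≤ |u i| + |s i| := by
  have he := h.epos
  have g1 : 0 < 1 / 2 - |u (-1)| := sub_pos.2 h.um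
  have g2 : 0 < 1 / 2 - |s 1| := sub_pos.2 h.s1
  obtain ⟨e, he'⟩ : ∃ e, e = u 1 - s 1 := ⟨_, rfl⟩
  rw [← he'] at he ⊢
  have c1 : 0 < 8 / η := by positivity
  have c2 : 0 < e / (1 / 2 - |u (-1)|) := by positivity
  have c3 : 0 < 2 * e / (1 / 2 - |s 1|) := by positivity
  refine ⟨8 / η + e / (1 / 2 - |u (-1)|) + 2 * e / (1 / 2 - |s 1|) + 2, by linarith,
    fun Q κ hc hl hu => ?_⟩
  have hQ : 0 < Q := by
    refine Nat.pos_of_ne_zero ?_
    rintro rfl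
    rw [pow_zero] at hc
    linarith
  obtain ⟨θ, hθ⟩ : ∃ θ, θ = 1 + κ / e := ⟨_, rfl⟩
  rw [← hθ] at hl hu
  have hκ : κ = (θ - 1) * e := by rw [hθ]; field_simp; ring
  have hN2 : 2 ≤ μ ^ Q := by linarith
  have hN0 : 0 < μ ^ Q := by linarith
  have hx : μ ^ Q * (μ ^ Q)⁻¹ = 1 := mul_inv_cancel₀ hN0.ne'
  have hx0 : 0 < (μ ^ Q)⁻¹ := inv_pos.2 hN0
  have hx1 : (μ ^ Q)⁻¹ ≤ 1 / 2 := by rw [one_div]; exact inv_anti₀ two_pos hN2
  have b1 : 8 ≤ η * μ ^ Q := by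
    have : 8 / η ≤ μ ^ Q := by linarith
    rwa [div_le_iff₀ hη, mul_comm] at this
  have b2 : e * (μ ^ Q)⁻¹ < 1 / 2 - |u (-1)| := by
    have : e / (1 / 2 - |u (-1)|) < μ ^ Q := by linarith
    rw [div_lt_iff₀' g1] at this
    rwa [← div_eq_mul_inv, div_lt_iff₀ hN0]
  have b3 : 2 * e * (μ ^ Q)⁻¹ < 1 / 2 - |s 1| := by
    have : 2 * e / (1 / 2 - |s 1|) < μ ^ Q := by linarith
    rw [div_lt_iff₀' g2] at this
    rwa [← div_eq_mul_inv, div_lt_iff₀ hN0]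
  have hc' : 8 / η ≤ 8 / η + e / (1 / 2 - |u (-1)|) + 2 * e / (1 / 2 - |s 1|) + 2 := by linarith
  have key := fun (ν β : ℝ) => build h hQ (κ := κ) (ν := ν) (β := β)
  rw [← he'] at key
  obtain ⟨m, y, β, γ, hm, hy, hy1, hmy, β0, β1, γ0, γ1, β2, γ2, β3, γ3, d0, d1, d2, d4, d5, d6⟩ :=
    nums hη hη1 hl hu hN2 hx hx0 hx1 b1
  clear hc c1 c2 c3 hl hu b1 hN2 hx1 g1 g2
  obtain ⟨v, v1, v2, v3, v4⟩ := key m β (two_pos.trans_le hm).ne' β2
    (by rw [hκ]; linear_combination e * β3)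
  obtain ⟨w, w1, w2, w3, w4⟩ := key y γ hy.ne' γ2 (by rw [hκ]; linear_combination e * γ3)
  have hn0 : 0 < Q * q := Nat.mul_pos hQ h.qpos
  have ev1 := v3 1 (by omega) (by omega)
  have ew1 := w3 1 (by omega) (by omega)
  have e1 : v 1 - w 1 = (β - γ) * e := by rw [ev1, ew1, he']; ring
  have hE : EOK (Q * q) (akick a (Q * q) κ) v w m := by
    refine ⟨hn0, fun i => ?_, v1, w1, ?_, ?_, v2, fun i => ?_, ?_, ?_, ?_, one_lt_two.trans_le hm⟩
    · have := (h.upow i Q).2.2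
      simp only [akick, dvd_add_self_right]
      rw [← this]; push_cast; rfl
    · rw [v3 0 le_rfl (by omega), h.u0, h.s0]; ring
    · rw [w3 0 le_rfl (by omega), h.u0, h.s0]; ring
    · rw [w2, ← mul_assoc, hmy, one_mul]
    · rw [e1]; exact mul_pos d0 he
    · have q1 : κ + (1 - β) * e = (1 - β) * y * (e * (μ ^ Q)⁻¹) := by
        rw [hκ]; linear_combination y * e * β3 - ((θ - 1) + (1 - β)) * e * hmy
      have q2 : 0 ≤ (1 - β) * y := mul_nonneg (sub_nonneg.2 β1) hy.le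
      have q3 : (1 - β) * y ≤ 1 :=
        mul_le_one₀ (sub_le_self _ β0) hy.le (hy1.trans (by norm_num))
      have q4 : 0 ≤ e * (μ ^ Q)⁻¹ := (mul_pos he hx0).le
      have q5 := mul_le_of_le_one_left q4 q3
      rw [v4, q1]
      refine (abs_add_le _ _).trans_lt ?_
      rw [abs_of_nonneg (mul_nonneg q2 q4)]
      linarith only [q5, b2]
    · have q1 : w 1 = s 1 + γ * e := by rw [ew1, he']; ring
      have q3 := mul_le_mul_of_nonneg_right d4 he.le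
      rw [q1]
      refine (abs_add_le _ _).trans_lt ?_
      rw [abs_of_nonneg (mul_nonneg γ0 he.le)]
      linarith only [q3, b3]
  have d3 : v 1 - w 1 ≤ 4 * η * e := by rw [e1]; exact mul_le_mul_of_nonneg_right d1 he.le
  refine ⟨v, w, m, hE, d5, d3, ?_, ?_, ?_, fun i a b => ?_⟩
  · rw [e1, ← mul_assoc]; exact mul_le_mul_of_nonneg_right d2 he.le
  · have q1 : (e + κ) / (v 1 - w 1) = θ / (β - γ) := by
      rw [e1, hκ, show e + (θ - 1) * e = θ * e by ring, mul_div_mul_right _ _ he.ne']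
    rw [q1]
    exact d6.trans hc'
  · have q1 := wr0 hE
    have q2 := hE.um
    have q3 := hE.epos
    have : w (-1) = v (-1) + (v 1 - w 1) := by linarith only [q1]
    rw [this]
    refine (abs_add_le _ _).trans ?_
    rw [abs_of_pos q3]
    linarith only [q2, d3]
  · rw [v3 i a b, w3 i a b]
    exact ⟨cvx β0 β1, cvx γ0 γ1⟩

end Pool.Agent.MP_369096_an.H89
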