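import Pool.Agent.MP_369096_an.H89.SegL

/-!
TASK Ent1. Combinatorics of covers. `Cov F R ε n N`: modulo `ℤ²` the plane is covered by at most `N`
sets whose first `n` images have diameter `≤ ε` and satisfy `R`.
Auxiliary lemmas go in namespace `H89.Ent1`.
-/

set_option autoImplicit false

open Set Filter Topology

namespace Pool.Agent.MP_369096_an.H89

variable {F : E → ℝ} {L : ℝ} {R : Set E → Prop}

namespace Ent1

theorem iv_neg (m : ℤ × ℤ) : iv (-m) = -iv m := by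
  simp [iv]

theorem cl_sub {ε : ℝ} {n : ℕ} {Z W : Set E} (h : Cl F (fun _ => True) ε n Z) (hW : W ⊆ Z)
    (hR : ∀ i < n, R ((T F)^[i] '' W)) : Cl F R ε n W :=
  ⟨fun i hi z hz z' hz' => h.1 i hi z (hW hz) z' (hW hz'), hR⟩

theorem int_box {M : Set ℤ} (h : ∀ x ∈ M, ∀ y ∈ M, x - y ≤ 2) : ∃ a, M ⊆ Icc a (a + 2) := by
  rcases M.eq_empty_or_nonempty with rfl | ⟨x, hx⟩
  · exact ⟨0, empty_subset _⟩
  · obtain ⟨a, ha, hmin⟩ := Int.exists_least_of_bdd (P := fun y => y ∈ M)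
      ⟨x - 2, fun y hy => by have := h x hx y hy; omega⟩ ⟨x, hx⟩
    exact ⟨a, fun y hy => ⟨hmin y hy, by have := h y hy a ha; omega⟩⟩

theorem box9 {M : Set (ℤ × ℤ)} (h : ∀ x ∈ M, ∀ y ∈ M, ‖iv x - iv y‖ ≤ 2) :
    ∃ B : Finset (ℤ × ℤ), B.card ≤ 9 ∧ ∀ x ∈ M, x ∈ B := by
  obtain ⟨a, ha⟩ := int_box (M := Prod.fst '' M) (by
    rintro _ ⟨x, hx, rfl⟩ _ ⟨y, hy, rfl⟩
    have h1 := (norm_fst_le (iv x - iv y)).trans (h x hx y hy)
    simp only [iv, Prod.fst_sub, Real.norm_eq_abs] at h1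
    have h2 := (abs_le.mp h1).2
    exact_mod_cast h2)
  obtain ⟨b, hb⟩ := int_box (M := Prod.snd '' M) (by
    rintro _ ⟨x, hx, rfl⟩ _ ⟨y, hy, rfl⟩
    have h1 := (norm_snd_le (iv x - iv y)).trans (h x hx y hy)
    simp only [iv, Prod.snd_sub, Real.norm_eq_abs] at h1
    have h2 := (abs_le.mp h1).2
    exact_mod_cast h2)
  refine ⟨Finset.Icc a (a + 2) ×ˢ Finset.Icc b (b + 2), ?_, fun x hx => ?_⟩
  · rw [Finset.card_product, Int.card_Icc, Int.card_Icc]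
    have e1 : (a + 2 + 1 - a).toNat = 3 := by omega
    have e2 : (b + 2 + 1 - b).toNat = 3 := by omega
    rw [e1, e2]
  · exact Finset.mem_product.mpr ⟨Finset.mem_Icc.mpr (ha ⟨x, hx, rfl⟩),
      Finset.mem_Icc.mpr (hb ⟨x, hx, rfl⟩)⟩

/-- Refine each set of a cover into at most `c` sets. -/
theorem cov_refine {R' : Set E → Prop} {ε N c : ℝ} {n : ℕ} {S : Finset (Set E)}
    (h1 : (S.card : ℝ) ≤ N) (hc : 0 ≤ c) (h2 : ∀ z : E, ∃ Z ∈ S, ∃ m, z - iv m ∈ Z)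
    (h3 : ∀ Z ∈ S, ∃ P : Finset (Set E), (P.card : ℝ) ≤ c ∧ (∀ W ∈ P, Cl F R' ε n W) ∧
      ∀ z ∈ Z, ∃ W ∈ P, z ∈ W) : Cov F R' ε n (N * c) := by
  classical
  choose! P hP1 hP2 hP3 using h3
  refine ⟨S.biUnion P, ?_, ?_, ?_⟩
  · have h4 : ((S.biUnion P).card : ℝ) ≤ ∑ Z ∈ S, ((P Z).card : ℝ) := by
      exact_mod_cast Finset.card_biUnion_le
    refine h4.trans ((Finset.sum_le_card_nsmul _ _ _ hP1).trans ?_)
    rw [nsmul_eq_mul]
    exact mul_le_mul_of_nonneg_right h1 hc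
  · intro W hW
    obtain ⟨Z, hZ, hW⟩ := Finset.mem_biUnion.mp hW
    exact hP2 Z hZ W hW
  · intro z
    obtain ⟨Z, hZ, m, hm⟩ := h2 z
    obtain ⟨W, hW, hz⟩ := hP3 Z hZ _ hm
    exact ⟨W, Finset.mem_biUnion.mpr ⟨Z, hZ, hW⟩, m, hz⟩

theorem cl_concat {κ : ℝ} (ha : Adm F L κ) (hR : RInv R) {ε : ℝ} {n n' : ℕ} {Z Z' : Set E}
    (h : Cl F R ε n Z) (h' : Cl F R ε n' Z') (m : ℤ × ℤ) :
    Cl F R ε (n + n') {z | z ∈ Z ∧ (T F)^[n] z - iv m ∈ Z'} := by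
  have key : ∀ j : ℕ, ∃ m' : ℤ × ℤ, ∀ z,
      (T F)^[n + j] z = (T F)^[j] ((T F)^[n] z - iv m) + iv m' := by
    intro j
    obtain ⟨m', hm'⟩ := iter_iv j m
    refine ⟨m', fun z => ?_⟩
    rw [← hm' F L κ ha, sub_add_cancel, add_comm n j, Function.iterate_add_apply]
  constructor
  · intro i hi z hz z' hz'
    rcases le_total i n with hin | hin
    · exact h.1 i hin z hz.1 z' hz'.1
    · obtain ⟨j, rfl⟩ := Nat.exists_eq_add_of_le hin
      obtain ⟨m', hm'⟩ := key j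
      rw [hm', hm', add_sub_add_right_eq_sub]
      exact h'.1 j (by omega) _ hz.2 _ hz'.2
  · intro i hi
    rcases lt_or_ge i n with hin | hin
    · exact hR.1 _ _ (image_mono fun z hz => hz.1) (h.2 i hin)
    · obtain ⟨j, rfl⟩ := Nat.exists_eq_add_of_le hin
      obtain ⟨m', hm'⟩ := key j
      refine hR.1 _ _ ?_ (hR.2 _ m' (h'.2 j (by omega)))
      rintro _ ⟨z, hz, rfl⟩
      exact ⟨_, ⟨_, hz.2, rfl⟩, (hm' z).symm⟩

theorem refine_blocks (hc : Continuous F) {r : ℝ} {M : ℕ} (hl : Loc F r M) {V n0 : ℕ}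
    {δ : ℝ} (hx : CX F V n0 δ) {Z : Set E} (B : ℕ)
    (hZ : ∀ b < B, ∀ z ∈ Z, ∀ z' ∈ Z, ‖(T F)^[b * n0] z - (T F)^[b * n0] z'‖ ≤ δ) :
    ∃ P : Finset (Set E), P.card ≤ V ^ B ∧
      (∀ W ∈ P, W ⊆ Z ∧ ∀ i < B * n0, AffOn F ((T F)^[i] '' W)) ∧ ∀ z ∈ Z, ∃ W ∈ P, z ∈ W := by
  classical
  rcases Z.eq_empty_or_nonempty with rfl | ⟨z0, hz0⟩
  · exact ⟨∅, by simp, by simp, by simp⟩
  induction B with
  | zero => exact ⟨{Z}, by simp, by simp, by simp⟩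
  | succ B ih =>
    obtain ⟨P, hP1, hP2, hP3⟩ := ih fun b hb => hZ b (by omega)
    obtain ⟨S, hS1, hS2, hS3⟩ := hx ((T F)^[B * n0] z0)
    refine ⟨(P ×ˢ S).image fun p =>
      {z | z ∈ p.1 ∧ ∀ i < n0, (T F)^[i] ((T F)^[B * n0] z) ∈ p.2.1 i}, ?_, ?_, ?_⟩
    · refine Finset.card_image_le.trans ?_
      rw [Finset.card_product, pow_succ]
      exact Nat.mul_le_mul hP1 hS1
    · intro W hW
      obtain ⟨⟨A, c⟩, hp, rfl⟩ := Finset.mem_image.mp hW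
      obtain ⟨hA, hcS⟩ := Finset.mem_product.mp hp
      refine ⟨fun z hz => (hP2 A hA).1 hz.1, fun i hi => ?_⟩
      rcases lt_or_ge i (B * n0) with hin | hin
      · obtain ⟨g, hg⟩ := (hP2 A hA).2 i hin
        exact ⟨g, fun p hp => hg p (image_mono (fun z hz => hz.1) hp)⟩
      · obtain ⟨j, rfl⟩ := Nat.exists_eq_add_of_le hin
        have hj : j < n0 := by rw [add_mul, one_mul] at hi; omega
        refine ⟨c.2 j, ?_⟩
        rintro _ ⟨z, hz, rfl⟩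
        have h1 := hz.2 j hj
        rw [← Function.iterate_add_apply, add_comm j] at h1
        exact Germ.eq hc ((hS2 c hcS j hj).2.2 _ h1)
    · intro z hz
      obtain ⟨A, hA, hzA⟩ := hP3 z hz
      choose g hg using fun i : ℕ => hl.exists_germ ((T F)^[i] ((T F)^[B * n0] z))
      obtain ⟨c, hcS, hcz⟩ := hS3 _ (hZ B (by omega) z hz z0 hz0) g fun i _ => hg i
      exact ⟨_, Finset.mem_image.mpr ⟨(A, c), Finset.mem_product.mpr ⟨hA, hcS⟩, rfl⟩,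
        hzA, fun i hi => (hcz i hi).1⟩

end Ent1

theorem rinv_true : RInv fun _ => True := ⟨fun _ _ _ _ => trivial, fun _ _ _ => trivial⟩

theorem rinv_aff {κ : ℝ} (ha : Adm F L κ) : RInv (AffOn F) := by
  refine ⟨fun A B hAB ⟨g, hg⟩ => ⟨g, fun p hp => hg p (hAB hp)⟩, ?_⟩
  rintro A m ⟨g, hg⟩
  refine ⟨(g.1, g.2 + 22 * (m.1 : ℝ) - m.2 - lin g.1 (iv m)), ?_⟩
  rintro _ ⟨p, hp, rfl⟩
  rw [ha.eqv, hg p hp]
  simp only [ev, lin, Prod.fst_add, Prod.snd_add]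
  ring

theorem Cov.mono {R' : Set E → Prop} {ε ε' N N' : ℝ} {n n' : ℕ} (h : Cov F R ε n N)
    (hR : ∀ A, R A → R' A) (hε : ε ≤ ε') (hn : n' ≤ n) (hN : N ≤ N') : Cov F R' ε' n' N' := by
  obtain ⟨S, h1, h2, h3⟩ := h
  exact ⟨S, h1.trans hN, fun Z hZ => ⟨fun i hi z hz z' hz' =>
    ((h2 Z hZ).1 i (hi.trans hn) z hz z' hz').trans hε,
    fun i hi => hR _ ((h2 Z hZ).2 i (hi.trans_le hn))⟩, h3⟩

theorem Cov.one_le {ε N : ℝ} {n : ℕ} (h : Cov F R ε n N) : 1 ≤ N := by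
  obtain ⟨S, h1, -, h3⟩ := h
  obtain ⟨Z, hZ, -⟩ := h3 0
  have : 1 ≤ S.card := Finset.card_pos.mpr ⟨Z, hZ⟩
  exact le_trans (by exact_mod_cast this) h1

/-- Concatenation: the sets `Z ∩ (T F)^[n] ⁻¹' (Z' + iv m)`; for given `Z, Z'` of diameter `≤ 1` at most
`9` integer vectors `m` give a nonempty set. Use `iter_iv`. -/
theorem Cov.concat {κ : ℝ} (ha : Adm F L κ) (hR : RInv R) {ε N N' : ℝ} (hε : ε ≤ 1) {n n' : ℕ}
    (h : Cov F R ε n N) (h' : Cov F R ε n' N') : Cov F R ε (n + n') (9 * N * N') := by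
  classical
  have hN' := h'.one_le
  obtain ⟨S, h1, h2, h3⟩ := h
  obtain ⟨S', h1', h2', h3'⟩ := h'
  have e : 9 * N * N' = N * (N' * 9) := by ring
  rw [e]
  refine Ent1.cov_refine h1 (by linarith) h3 fun Z hZ => ?_
  have hB : ∀ Z' ∈ S', ∃ B : Finset (ℤ × ℤ), B.card ≤ 9 ∧
      ∀ m ∈ {m | ∃ z ∈ Z, (T F)^[n] z - iv m ∈ Z'}, m ∈ B := by
    intro Z' hZ'
    refine Ent1.box9 ?_
    rintro x ⟨z, hz, hx⟩ y ⟨z', hz', hy⟩
    have a1 := (h2 Z hZ).1 n le_rfl z hz z' hz'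
    have a2 := (h2' Z' hZ').1 0 (Nat.zero_le _) _ hx _ hy
    simp only [Function.iterate_zero, id] at a2
    have e1 : iv x - iv y = ((T F)^[n] z - (T F)^[n] z')
        - ((T F)^[n] z - iv x - ((T F)^[n] z' - iv y)) := by abel
    rw [e1]
    exact (norm_sub_le _ _).trans (by linarith)
  choose! B hB1 hB2 using hB
  refine ⟨S'.biUnion fun Z' => (B Z').image fun m => {z | z ∈ Z ∧ (T F)^[n] z - iv m ∈ Z'},
    ?_, ?_, ?_⟩
  · have h4 := Nat.cast_le (α := ℝ).mpr (Finset.card_biUnion_le (s := S')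
      (t := fun Z' => (B Z').image fun m => {z | z ∈ Z ∧ (T F)^[n] z - iv m ∈ Z'}))
    refine h4.trans ?_
    rw [Nat.cast_sum]
    refine (Finset.sum_le_card_nsmul _ _ (9 : ℝ) fun Z' hZ' => ?_).trans ?_
    · exact_mod_cast Finset.card_image_le.trans (hB1 Z' hZ')
    · rw [nsmul_eq_mul]
      linarith
  · intro W hW
    obtain ⟨Z', hZ', hW⟩ := Finset.mem_biUnion.mp hW
    obtain ⟨m, -, rfl⟩ := Finset.mem_image.mp hW
    exact Ent1.cl_concat ha hR (h2 Z hZ) (h2' Z' hZ') m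
  · intro z hz
    obtain ⟨Z', hZ', m, hm⟩ := h3' ((T F)^[n] z)
    exact ⟨_, Finset.mem_biUnion.mpr ⟨Z', hZ', Finset.mem_image.mpr
      ⟨m, hB2 Z' hZ' m ⟨z, hz, hm⟩, rfl⟩⟩, hz, hm⟩

theorem Cov.pow {κ : ℝ} (ha : Adm F L κ) (hR : RInv R) {ε N : ℝ} (hε : ε ≤ 1) {n : ℕ}
    (h : Cov F R ε n N) (k : ℕ) : Cov F R ε ((k + 1) * n) ((9 * N) ^ (k + 1)) := by
  induction k with
  | zero =>
    have := h.one_le
    exact h.mono (fun _ hA => hA) le_rfl (by omega) (by rw [zero_add, pow_one]; linarith)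
  | succ k ih =>
    exact (ih.concat ha hR hε h).mono (fun _ hA => hA) le_rfl (le_of_eq (by ring))
      (le_of_eq (by ring))

/-- Covers of a part of the plane can be merged. -/
theorem cov_of_union {ε N N' : ℝ} {n : ℕ} {S S' : Finset (Set E)} (h1 : (S.card : ℝ) ≤ N)
    (h2 : (S'.card : ℝ) ≤ N') (h3 : ∀ Z ∈ S, Cl F R ε n Z) (h4 : ∀ Z ∈ S', Cl F R ε n Z)
    (h5 : ∀ z : E, (∃ Z ∈ S, ∃ m, z - iv m ∈ Z) ∨ ∃ Z ∈ S', ∃ m, z - iv m ∈ Z) :
    Cov F R ε n (N + N') := by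
  classical
  refine ⟨S ∪ S', ?_, fun Z hZ => ?_, fun z => ?_⟩
  · have : ((S ∪ S').card : ℝ) ≤ S.card + S'.card := by exact_mod_cast Finset.card_union_le S S'
    linarith
  · rcases Finset.mem_union.mp hZ with hZ | hZ
    exacts [h3 Z hZ, h4 Z hZ]
  · rcases h5 z with ⟨Z, hZ, hm⟩ | ⟨Z, hZ, hm⟩
    exacts [⟨Z, Finset.mem_union_left _ hZ, hm⟩, ⟨Z, Finset.mem_union_right _ hZ, hm⟩]

/-- Transfer to a nearby map (`Adm.iter_close`). -/
theorem Cov.transfer (ha : Adm F L 2) {ε N : ℝ} (hε : 0 < ε) {n : ℕ}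
    (h : Cov F (fun _ => True) ε n N) :
    ∃ η > 0, ∀ F', Close F F' η → Cov F' (fun _ => True) (2 * ε) n N := by
  obtain ⟨η, hη, hc⟩ := ha.iter_close n (half_pos hε)
  obtain ⟨S, h1, h2, h3⟩ := h
  refine ⟨η, hη, fun F' hF' => ⟨S, h1, fun Z hZ => ⟨fun i hi z hz z' hz' => ?_,
    fun _ _ => trivial⟩, h3⟩⟩
  have a1 := hc F' hF' i hi z
  have a2 := hc F' hF' i hi z'
  have a3 := (h2 Z hZ).1 i hi z hz z' hz'
  have e : (T F')^[i] z - (T F')^[i] z' = ((T F')^[i] z - (T F)^[i] z)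
      + ((T F)^[i] z - (T F)^[i] z') - ((T F')^[i] z' - (T F)^[i] z') := by abel
  rw [e]
  refine (norm_sub_le _ _).trans ?_
  have a4 := norm_add_le ((T F')^[i] z - (T F)^[i] z) ((T F)^[i] z - (T F)^[i] z')
  linarith

/-- Refinement with the local complexity: on each block of `n0` times a set of diameter `≤ δ` is cut
into at most `V` parts with common germs (`Germ.eq`, `Loc.exists_germ`). -/
theorem Cov.refine (hc : Continuous F) {r : ℝ} {M : ℕ} (hl : Loc F r M) {V n0 : ℕ} (hn0 : 0 < n0)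
    {δ ε N : ℝ} (hx : CX F V n0 δ) (hε : ε ≤ δ) {n : ℕ} (h : Cov F (fun _ => True) ε n N) :
    Cov F (AffOn F) ε n (N * V ^ (n / n0 + 1)) := by
  obtain ⟨S, h1, h2, h3⟩ := h
  refine Ent1.cov_refine h1 (by positivity) h3 fun Z hZ => ?_
  obtain ⟨P, hP1, hP2, hP3⟩ := Ent1.refine_blocks hc hl hx (Z := Z) (n / n0 + 1)
    fun b hb z hz z' hz' => ((h2 Z hZ).1 _ (by
      have := Nat.div_mul_le_self n n0
      exact (Nat.mul_le_mul_right n0 (Nat.lt_succ_iff.mp hb)).trans this) z hz z' hz').trans hε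
  refine ⟨P, by exact_mod_cast hP1, fun W hW => Ent1.cl_sub (h2 Z hZ) (hP2 W hW).1
    fun i hi => (hP2 W hW).2 i (hi.trans ?_), hP3⟩
  have := Nat.lt_div_mul_add (a := n) hn0
  rw [add_mul, one_mul]
  exact this

/-- Images of a cover: drop the first `a` times and the last `b` times. `(T F)^[a]` is onto and
carries integer translations to integer translations (`iter_iv`, `Adm.surjT`). -/
theorem Cov.shift (ha : Adm F L 2) {R' : Set E → Prop} {ε N : ℝ} {a n b : ℕ}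
    (h : Cov F R ε (a + n + b) N)
    (hR : ∀ Z, Cl F R ε (a + n + b) Z → ∀ i < n, R' ((T F)^[a + i] '' Z)) : Cov F R' ε n N := by
  classical
  obtain ⟨S, h1, h2, h3⟩ := h
  refine ⟨S.image fun Z => (T F)^[a] '' Z, ?_, ?_, fun z => ?_⟩
  · exact le_trans (by exact_mod_cast Finset.card_image_le) h1
  · intro W hW
    obtain ⟨Z, hZ, rfl⟩ := Finset.mem_image.mp hW
    constructor
    · rintro i hi _ ⟨z, hz, rfl⟩ _ ⟨z', hz', rfl⟩
      rw [← Function.iterate_add_apply, ← Function.iterate_add_apply]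
      exact (h2 Z hZ).1 _ (by omega) z hz z' hz'
    · intro i hi
      have := hR Z (h2 Z hZ) i hi
      rwa [add_comm, Function.iterate_add, image_comp] at this
  · obtain ⟨y, rfl⟩ := ha.surjT.iterate a z
    obtain ⟨Z, hZ, m, hm⟩ := h3 y
    obtain ⟨m', hm'⟩ := iter_iv a (-m)
    refine ⟨_, Finset.mem_image_of_mem _ hZ, -m', y - iv m, hm, ?_⟩
    rw [Ent1.iv_neg, sub_neg_eq_add, ← hm' F L 2 ha, Ent1.iv_neg, sub_eq_add_neg]

theorem EntB.mono {H H' : ℝ} (h : EntB F H) (hH : H ≤ H') : EntB F H' := by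
  intro ε hε γ hγ
  obtain ⟨n0, hn0⟩ := h ε hε γ hγ
  refine ⟨n0, fun n hn => (hn0 n hn).mono (fun _ hA => hA) le_rfl le_rfl ?_⟩
  exact Real.exp_le_exp.mpr (mul_le_mul_of_nonneg_right (by linarith) (Nat.cast_nonneg _))

theorem entB_of_forall {H : ℝ} (h : ∀ γ > 0, EntB F (H + γ)) : EntB F H := by
  intro ε hε γ hγ
  obtain ⟨n0, hn0⟩ := h (γ / 2) (half_pos hγ) ε hε (γ / 2) (half_pos hγ)
  refine ⟨n0, fun n hn => (hn0 n hn).mono (fun _ hA => hA) le_rfl le_rfl (le_of_eq ?_)⟩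
  congr 2
  ring

end Pool.Agent.MP_369096_an.H89
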