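import Pool.Agent.MP_369096_an.H89.SegL
import Pool.Agent.MP_369096_an.H89.Coc1

/-!
TASK Win. Compactness lemmas. Auxiliary lemmas go in namespace `H89.Win`.
-/

set_option autoImplicit false

open Set Filter Topology

namespace Pool.Agent.MP_369096_an.H89

variable {F : E → ℝ} {L : ℝ}

namespace Win

theorem ev_small {P : ℝ → Prop} (h : ∃ ρ > 0, ∀ ρ', 0 < ρ' → ρ' ≤ ρ → P ρ') :
    ∀ᶠ ρ in 𝓝[>] (0 : ℝ), P ρ := by
  obtain ⟨ρ, h0, h⟩ := h
  filter_upwards [Ioc_mem_nhdsGT h0] with t ht using h t ht.1 ht.2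

theorem porb_mono {r r' : ℝ} {x : ℤ → ℝ} (h : POrb F r x) (hr : r ≤ r') : POrb F r' x :=
  fun i => (h i).trans hr

theorem card_sing (h2 : H2 F) {x : ℤ → ℝ} (hx : Orb F x) (n : ℕ)
    [DecidablePred fun i : Fin n => pt x ((i : ℕ) : ℤ) ∈ Sing F] :
    (Finset.univ.filter fun i : Fin n => pt x ((i : ℕ) : ℤ) ∈ Sing F).card ≤ 2 := by
  by_contra hc
  obtain ⟨i, j, k, hi, hj, hk, e1, e2, e3⟩ := Finset.two_lt_card_iff.1 (not_le.1 hc)
  simp only [Finset.mem_filter, Finset.mem_univ, true_and] at hi hj hk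
  have a1 := Fin.val_ne_of_ne e1
  have a2 := Fin.val_ne_of_ne e2
  have a3 := Fin.val_ne_of_ne e3
  have key := h2 x hx
  rcases (by omega : ((i : ℕ) < j ∧ (j : ℕ) < k) ∨ ((i : ℕ) < k ∧ (k : ℕ) < j) ∨
    ((j : ℕ) < i ∧ (i : ℕ) < k) ∨ ((j : ℕ) < k ∧ (k : ℕ) < i) ∨ ((k : ℕ) < i ∧ (i : ℕ) < j) ∨
    ((k : ℕ) < j ∧ (j : ℕ) < i)) with h | h | h | h | h | h
  · exact key _ _ _ (by omega) (by omega) hi hj hk
  · exact key _ _ _ (by omega) (by omega) hi hk hj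
  · exact key _ _ _ (by omega) (by omega) hj hi hk
  · exact key _ _ _ (by omega) (by omega) hj hk hi
  · exact key _ _ _ (by omega) (by omega) hk hi hj
  · exact key _ _ _ (by omega) (by omega) hk hj hi

theorem cells {F' : E → ℝ} {r' w ρ : ℝ} {N' : ℕ} (hl : Loc F' r' N') (ho : Off F F' w)
    (h0 : 0 < ρ) (hw : w ≤ ρ) {c : E} (h1 : 3 * ρ ≤ r')
    (h2 : c ∉ Sing F → ∀ p, ‖p - c‖ ≤ 3 * ρ → p ∉ Sing F) :
    ∃ S : Finset (Set E × Af), S.card ≤ N' ∧ (c ∉ Sing F → S.card ≤ 1) ∧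
      (∀ A ∈ S, Convex ℝ A.1 ∧ IsClosed A.1 ∧ ∀ p ∈ A.1, Germ F' p A.2) ∧
      ∀ p : E, ‖p - c‖ ≤ ρ → ∀ g, Germ F' p g → ∃ A ∈ S, p ∈ A.1 ∧ A.2 = g := by
  by_cases hc : c ∈ Sing F
  · obtain ⟨S, s1, s2, s3⟩ := hl.2 c
    exact ⟨S, s1, fun h => absurd hc h, s2, fun p hp g hg =>
      germ_complete (fun A hA => (s2 A hA).2) s3 (by linarith) hg⟩
  · obtain ⟨g, hg⟩ := aff_of_preconnected (F := F) (convex_closedBall c ρ).isPreconnected
      (fun p hp => h2 hc p (by linarith [mem_closedBall_iff_norm.1 hp]))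
      (Metric.mem_closedBall_self h0.le)
    have key : ∀ p ∈ Metric.closedBall c ρ, Aff F' p g := by
      intro p hp
      refine (hg p hp).congr (ho p fun q hq => ?_)
      have a1 := mem_closedBall_iff_norm.1 hp
      have a2 : 3 * ρ < ‖q - c‖ := not_le.1 fun h => h2 hc q h hq
      have a3 := norm_sub_le_norm_sub_add_norm_sub q p c
      rw [norm_sub_rev q p] at a3
      linarith
    refine ⟨{(Metric.closedBall c ρ, g)}, by simpa using hl.one_le, fun _ => by simp, ?_,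
      fun p hp g' hg' => ⟨_, Finset.mem_singleton_self _, mem_closedBall_iff_norm.2 hp,
        ((key p (mem_closedBall_iff_norm.2 hp)).unique hg').symm⟩⟩
    intro A hA
    rw [Finset.mem_singleton.1 hA]
    exact ⟨convex_closedBall c ρ, Metric.isClosed_closedBall, fun p hp => (key p hp).germ⟩

end Win

/-- Window lemma. For `z` in the unit square take the orbit `x` through `z`, a radius `ρ` such that
`Pr (pt x i) (3ρ)` for `|i| ≤ R`, and `η ≤ ρ` from `Adm.porb_close`; cover the square by finitely many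
balls of radius `η/2` and let `r` be the least `η/2`. A general `z0` is translated into the square
with `exists_iv`, `exists_intorb`, `Adm.porb_sub`, `Adm.orb_sub`. -/
theorem window (ha : Adm F L 2) (Pr : E → ℝ → Prop)
    (h1 : ∀ z, ∃ ρ > 0, ∀ ρ', 0 < ρ' → ρ' ≤ ρ → Pr z ρ')
    (h2 : ∀ z ρ m, Pr z ρ → Pr (z + iv m) ρ) (R : ℕ) :
    ∃ r > 0, ∀ z0 : E, ∃ (x : ℤ → ℝ) (ρ : ℝ), Orb F x ∧ r ≤ ρ ∧
      (∀ i : ℤ, |i| ≤ R → Pr (pt x i) (3 * ρ)) ∧
      ∀ x', POrb F r x' → ‖pt x' 0 - z0‖ ≤ r → ∀ i : ℤ, |i| ≤ R → ‖pt x' i - pt x i‖ ≤ ρ := by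
  have loc : ∀ z : E, ∃ (x : ℤ → ℝ) (ρ η : ℝ), Orb F x ∧ pt x 0 = z ∧ 0 < η ∧ η ≤ ρ ∧
      (∀ i : ℤ, |i| ≤ R → Pr (pt x i) (3 * ρ)) ∧
      ∀ x', POrb F η x' → ‖pt x' 0 - z‖ ≤ η → ∀ i : ℤ, |i| ≤ R → ‖pt x' i - pt x i‖ ≤ ρ := by
    intro z
    obtain ⟨x, hx, hz⟩ := ha.exists_orb z 0
    obtain ⟨t, ht, ht0⟩ := (((Finset.Icc (-(R : ℤ)) R).eventually_all.2 fun i _ =>
      Win.ev_small (h1 (pt x i))).and self_mem_nhdsWithin).exists
    have t0 : 0 < t / 3 := by have : 0 < t := ht0; linarith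
    obtain ⟨η, η0, hη⟩ := ha.porb_close R t0
    refine ⟨x, t / 3, min η (t / 3), hx, hz, lt_min η0 t0, min_le_right _ _, fun i hi => ?_,
      fun x' h3 h4 => hη x x' hx (Win.porb_mono h3 (min_le_left _ _))
        (by rw [hz]; exact h4.trans (min_le_left _ _))⟩
    rw [show 3 * (t / 3) = t by ring]
    exact ht i (Finset.mem_Icc.2 (abs_le.1 hi))
  choose X ρ η hX hz η0 hη hP hc using loc
  obtain ⟨t, -, ht⟩ := (isCompact_Icc.prod isCompact_Icc :
      IsCompact (Icc (0 : ℝ) 1 ×ˢ Icc (0 : ℝ) 1)).elim_nhds_subcover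
    (fun z => Metric.closedBall z (η z / 2))
    fun z _ => Metric.closedBall_mem_nhds z (half_pos (η0 z))
  obtain ⟨r, hr, r0⟩ := ((t.eventually_all.2 fun z _ => Win.ev_small (P := fun r => r ≤ η z / 2)
    ⟨_, half_pos (η0 z), fun _ _ h => h⟩).and self_mem_nhdsWithin).exists
  refine ⟨r, r0, fun z0 => ?_⟩
  obtain ⟨m, hm⟩ := exists_iv z0
  obtain ⟨z, hzt, hzm⟩ := mem_iUnion₂.1 (ht hm)
  obtain ⟨k, hk, hkm⟩ := exists_intorb 0 m
  have e : ∀ i, pt (fun j => X z j - ((-k j : ℤ) : ℝ)) i = pt (X z) i + iv (k i, k (i - 1)) := by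
    intro i; simp [pt, iv]
  have r1 := hr z hzt
  have e0 := η0 z
  refine ⟨fun j => X z j - ((-k j : ℤ) : ℝ), ρ z,
    ha.orb_sub (hX z) (k := fun j => -k j) fun i => by rw [hk i]; ring, by linarith [hη z],
    fun i hi => by rw [e]; exact h2 _ _ _ (hP z i hi), fun x' h3 h4 i hi => ?_⟩
  have h5 := hc z (fun j => x' j - k j) (Win.porb_mono (ha.porb_sub h3 hk) (by linarith)) (by
    rw [pt_sub_int, hkm]
    have a1 := mem_closedBall_iff_norm.1 hzm
    have a2 := norm_add_le (pt x' 0 - z0) (z0 - iv m - z)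
    rw [show pt x' 0 - z0 + (z0 - iv m - z) = pt x' 0 - iv m - z by abel] at a2
    linarith) i hi
  rw [pt_sub_int] at h5
  rwa [e, ← sub_sub, sub_right_comm]

/-- Local complexity, uniformly for perturbations near the singular set. Use `window` with
`Pr z ρ := ρ ≤ r' ∧ (z ∉ Sing F → ∀ p, ‖p - z‖ ≤ ρ → p ∉ Sing F)`. At a time `i < n` with
`pt x i ∉ Sing F` use the single cell `closedBall (pt x i) ρ` (`aff_of_preconnected`, `Off`,
`Aff.unique`); at the at most two other times (`H2`) use the cells of `Loc F'` at `pt x i` and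
`germ_complete`. The family is indexed by pairs of cells. -/
theorem cx_of_h2 (ha : Adm F L 2) (h2 : H2 F) (n : ℕ) {r' : ℝ} (hr' : 0 < r') :
    ∃ δ > 0, ∃ w0 > 0, ∀ (F' : E → ℝ) (L' w : ℝ) (N' : ℕ), w ≤ w0 → Adm F' L' 2 → Loc F' r' N' →
      Close F F' w → Off F F' w → CX F' (N' ^ 2) n δ := by
  classical
  obtain ⟨r, r0, hr⟩ := window ha
    (fun z ρ => ρ ≤ r' ∧ (z ∉ Sing F → ∀ p, ‖p - z‖ ≤ ρ → p ∉ Sing F)) (fun z => by
      by_cases hz : z ∈ Sing F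
      · exact ⟨r', hr', fun _ _ h => ⟨h, fun h' => absurd hz h'⟩⟩
      · obtain ⟨ε, ε0, hε⟩ := Metric.nhds_basis_closedBall.mem_iff.1
          ((isClosed_sing F).isOpen_compl.mem_nhds hz)
        exact ⟨min ε r', lt_min ε0 hr', fun t _ h => ⟨h.trans (min_le_right _ _), fun _ p hp =>
          hε (mem_closedBall_iff_norm.2 (hp.trans (h.trans (min_le_left _ _))))⟩⟩)
    (fun z ρ m h => ⟨h.1, fun hz p hp hp' => by
      refine h.2 (fun h' => hz ((ha.sing_iv z m).2 h')) (p - iv m)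
        (by rwa [sub_sub, add_comm]) ((ha.sing_iv _ m).1 ?_)
      rwa [sub_add_cancel]⟩) n
  refine ⟨r, r0, r, r0, fun F' L' w N' hw ha' hl hcl ho z0 => ?_⟩
  obtain ⟨x, ρ, hx, hρ, hP, hc⟩ := hr z0
  have hi : ∀ i : Fin n, |((i : ℕ) : ℤ)| ≤ n := fun i => by
    rw [abs_of_nonneg (by positivity)]; exact_mod_cast i.2.le
  choose S s1 s2 s3 s4 using fun i : Fin n =>
    Win.cells hl ho (r0.trans_le hρ) (hw.trans hρ) (hP _ (hi i)).1 (hP _ (hi i)).2
  let Φ : (Fin n → Set E × Af) → (ℕ → Set E) × (ℕ → Af) := fun c =>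
    (fun i => if h : i < n then (c ⟨i, h⟩).1 else ∅, fun i => if h : i < n then (c ⟨i, h⟩).2 else 0)
  refine ⟨(Fintype.piFinset S).image Φ, Finset.card_image_le.trans ?_, ?_, fun z hz g hg => ?_⟩
  · rw [Fintype.card_piFinset]
    have : ∏ i, (S i).card ≤ ∏ i : Fin n, if pt x ((i : ℕ) : ℤ) ∈ Sing F then N' else 1 :=
      Finset.prod_le_prod' fun i _ => by
        split_ifs with h
        · exact s1 i
        · exact s2 i h
    rw [← Finset.prod_filter, Finset.prod_const] at this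
    exact this.trans (Nat.pow_le_pow_right hl.one_le (Win.card_sing h2 hx n))
  · intro c hc i hi
    obtain ⟨c', hc', rfl⟩ := Finset.mem_image.1 hc
    simp only [Φ, dif_pos hi]
    exact s3 _ _ (Fintype.mem_piFinset.1 hc' _)
  · obtain ⟨x', hx', hz'⟩ := ha'.exists_orb z 0
    have h3 := hc x' (Win.porb_mono (hx'.porb hcl) hw) (by rwa [hz'])
    choose A a1 a2 a3 using fun i : Fin n => s4 i ((T F')^[i] z) (by
      have := hx'.iter 0 i
      rw [zero_add, hz'] at this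
      rw [← this]; exact h3 _ (hi i)) (g i) (hg i i.2)
    refine ⟨Φ A, Finset.mem_image_of_mem _ (Fintype.mem_piFinset.2 a1), fun i hi => ?_⟩
    simp only [Φ, dif_pos hi]
    exact ⟨a2 ⟨i, hi⟩, a3 ⟨i, hi⟩⟩

theorem cx_self (ha : Adm F L 2) (h2 : H2 F) {r : ℝ} {N : ℕ} (hl : Loc F r N) (n : ℕ) :
    ∃ δ > 0, CX F (N ^ 2) n δ := by
  obtain ⟨δ, hδ, w0, hw0, h⟩ := cx_of_h2 ha h2 n hl.1
  exact ⟨δ, hδ, h F L 0 N hw0.le ha hl (fun z => by simp)
    (fun p _ => Eventually.of_forall fun _ => rfl)⟩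

end Pool.Agent.MP_369096_an.H89
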