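import Pool.Agent.MP_369096_an.H89.Ent1
import Pool.Agent.MP_369096_an.H89.Win

/-!
TASK Ent2. From tubes to entropy. Auxiliary lemmas go in namespace `H89.Ent2`.
-/

set_option autoImplicit false

open Set Filter Topology

namespace Pool.Agent.MP_369096_an.H89

variable {F : E → ℝ} {L : ℝ}

namespace Ent2

theorem fw_add_vec (g : ℕ → Af) (u v : E) (n : ℕ) : fw g (u + v) n = fw g u n + fw g v n := by
  induction n with
  | zero => rfl
  | succ n ih => simp only [fw, ih, TL_add]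

theorem iter_sub {Z : Set E} {g : ℕ → Af} {n : ℕ}
    (hg : ∀ i < n, ∀ p ∈ (T F)^[i] '' Z, F p = ev (g i) p) {z z' : E} (hz : z ∈ Z) (hz' : z' ∈ Z)
    {i : ℕ} (hi : i ≤ n) : (T F)^[i] z - (T F)^[i] z' = fw g (z - z') i := by
  induction i with
  | zero => rfl
  | succ i ih =>
    have h1 := hg i hi _ (mem_image_of_mem _ hz)
    have h2 := hg i hi _ (mem_image_of_mem _ hz')
    rw [Function.iterate_succ_apply', Function.iterate_succ_apply', fw, ← ih (by omega)]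
    refine Prod.ext ?_ rfl
    simp only [T, TL, Prod.fst_sub, Prod.snd_sub, h1, h2, ev, lin]
    ring

/-- An almost optimal pair of generators of a bounded set of plane vectors. -/
theorem exists_gen {D : Set E} (h0 : (0 : E) ∈ D) (hD : ∀ w ∈ D, ‖w‖ ≤ 1) :
    ∃ u ∈ D, ∃ v ∈ D, ∀ w ∈ D, ∃ a b : ℝ, |a| ≤ 2 ∧ |b| ≤ 2 ∧ w = a • u + b • v := by
  by_cases h : ∃ u ∈ D, ∃ v ∈ D, dt u v ≠ 0
  · obtain ⟨u0, hu0, v0, hv0, hne⟩ := h
    let A : Set ℝ := {x | ∃ u ∈ D, ∃ v ∈ D, x = |dt u v|}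
    have hb : BddAbove A := by
      refine ⟨2, ?_⟩
      rintro x ⟨u, hu, v, hv, rfl⟩
      refine (abs_dt_le u v).trans ?_
      have := mul_le_mul (hD u hu) (hD v hv) (norm_nonneg _) zero_le_one
      linarith
    have hle : ∀ u ∈ D, ∀ v ∈ D, |dt u v| ≤ sSup A := fun u hu v hv =>
      le_csSup hb ⟨u, hu, v, hv, rfl⟩
    have hpos : 0 < sSup A := (abs_pos.2 hne).trans_le (hle _ hu0 _ hv0)
    obtain ⟨x, ⟨u, hu, v, hv, rfl⟩, hx⟩ :=
      exists_lt_of_lt_csSup (s := A) ⟨_, u0, hu0, v0, hv0, rfl⟩ (half_lt_self hpos)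
    have hp : 0 < |dt u v| := by linarith
    have hn : dt u v ≠ 0 := abs_pos.1 hp
    refine ⟨u, hu, v, hv, fun w hw => ⟨dt w v / dt u v, dt u w / dt u v, ?_, ?_, ?_⟩⟩
    · rw [abs_div, div_le_iff₀ hp]; linarith [hle w hw v hv]
    · rw [abs_div, div_le_iff₀ hp]; linarith [hle u hu w hw]
    · have := dt_id u v w
      rw [div_eq_inv_mul, div_eq_inv_mul, mul_smul, mul_smul, ← smul_add, ← this, smul_smul,
        inv_mul_cancel₀ hn, one_smul]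
  push Not at h
  by_cases h' : ∃ u ∈ D, u ≠ 0
  · obtain ⟨u0, hu0, hne⟩ := h'
    have hb : BddAbove (norm '' D) := ⟨1, by rintro x ⟨u, hu, rfl⟩; exact hD u hu⟩
    have hle : ∀ u ∈ D, ‖u‖ ≤ sSup (norm '' D) := fun u hu => le_csSup hb ⟨u, hu, rfl⟩
    have hpos : 0 < sSup (norm '' D) := (norm_pos_iff.2 hne).trans_le (hle _ hu0)
    obtain ⟨x, ⟨u, hu, rfl⟩, hx⟩ :=
      exists_lt_of_lt_csSup (s := norm '' D) ⟨_, u0, hu0, rfl⟩ (half_lt_self hpos)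
    have hp : 0 < ‖u‖ := by linarith
    refine ⟨u, hu, 0, h0, fun w hw => ?_⟩
    obtain ⟨κ, h1, h2⟩ := exists_decomp u w (norm_pos_iff.1 hp)
    rw [h w hw u hu, abs_zero, mul_eq_zero, norm_eq_zero, sub_eq_zero] at h2
    refine ⟨κ, 0, ?_, by simp, by simpa using h2.resolve_right hp.ne'⟩
    rw [norm_smul, Real.norm_eq_abs] at h1
    have := hle w hw
    exact le_of_mul_le_mul_right (by linarith) hp
  · push Not at h'
    exact ⟨0, h0, 0, h0, fun w hw => ⟨0, 0, by simp, by simp, by simpa using h' w hw⟩⟩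

theorem le_exp_ev (A : ℝ) {γ : ℝ} (hγ : 0 < γ) : ∃ n0 : ℕ, 0 < n0 ∧ ∀ n : ℕ, n0 ≤ n →
    A ≤ Real.exp (γ * n) := by
  obtain ⟨k, hk⟩ := exists_nat_ge (A / γ)
  refine ⟨k + 1, Nat.succ_pos _, fun n hn => ?_⟩
  have h1 : (k : ℝ) ≤ n := by exact_mod_cast (by omega : k ≤ n)
  have h2 := Real.add_one_le_exp (γ * n)
  rw [div_le_iff₀ hγ] at hk
  nlinarith

theorem pow_le_exp {V γ : ℝ} (hV : 0 ≤ V) (hγ : 0 ≤ γ) {n0 n : ℕ} (h : V ≤ Real.exp (γ * n0))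
    (hn : n0 ≤ n) : V ^ (n / n0 + 1) ≤ Real.exp (2 * γ * n) := by
  refine (pow_le_pow_left₀ hV h _).trans ?_
  rw [← Real.exp_nat_mul, Real.exp_le_exp]
  have h1 : ((n / n0 * n0 : ℕ) : ℝ) ≤ n := by exact_mod_cast Nat.div_mul_le_self n n0
  have h2 : (n0 : ℝ) ≤ n := by exact_mod_cast hn
  push_cast at h1 ⊢
  nlinarith

end Ent2

/-- A tube splits into a bounded number of thin sets. On `Z` one has
`(T F)^[i] z - (T F)^[i] z' = M i (z - z')` with linear maps `M i`; the map `v ↦ (M i v)_{i ≤ n}` sends the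
plane to a subspace of dimension `≤ 2` of `Fin (n+1) → E` (sup norm). In a normed space of dimension `≤ 2` a set of
diameter `≤ 1` is covered by a number of sets of diameter `≤ ε` that depends only on `ε`
(`Besicovitch.card_le_of_separated` gives the doubling property with constant `25`; iterate, or use a
volume argument; a maximal separated subset is a net). -/
theorem tube_split {ε : ℝ} (hε : 0 < ε) : ∃ c : ℕ, ∀ (F : E → ℝ) (n : ℕ) (Z : Set E),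
    Cl F (AffOn F) 1 n Z → ∃ S : Finset (Set E), S.card ≤ c ∧
      (∀ Z' ∈ S, Cl F (fun _ => True) ε n Z') ∧ ∀ z ∈ Z, ∃ Z' ∈ S, z ∈ Z' := by
  classical
  obtain ⟨K, hK⟩ := exists_nat_ge (2 / ε)
  have hK0 : (0 : ℝ) < K := lt_of_lt_of_le (by positivity) hK
  have hKε : 2 ≤ K * ε := by rwa [div_le_iff₀ hε] at hK
  let J : Finset ℤ := Finset.Icc (-(2 * K : ℤ)) (2 * K)
  refine ⟨(J ×ˢ J).card, fun F n Z hZ => ?_⟩
  rcases Z.eq_empty_or_nonempty with rfl | ⟨z0, hz0⟩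
  · exact ⟨∅, by simp, by simp, by simp⟩
  have hg : ∀ i, ∃ g : Af, i < n → ∀ p ∈ (T F)^[i] '' Z, F p = ev g p := fun i => by
    by_cases hi : i < n
    · obtain ⟨g, hg⟩ := hZ.2 i hi
      exact ⟨g, fun _ => hg⟩
    · exact ⟨0, fun h => absurd h hi⟩
  choose g hg using hg
  obtain ⟨u, ⟨zu, hzu, rfl⟩, v, ⟨zv, hzv, rfl⟩, huv⟩ :=
    Ent2.exists_gen (D := (fun z => z - z0) '' Z) ⟨z0, hz0, sub_self _⟩ (by
      rintro w ⟨z, hz, rfl⟩
      exact hZ.1 0 (Nat.zero_le _) z hz z0 hz0)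
  let cell : ℤ × ℤ → Set E := fun k => {z | z ∈ Z ∧ ∃ a b : ℝ, ⌊a * K⌋ = k.1 ∧ ⌊b * K⌋ = k.2 ∧
    z - z0 = a • (zu - z0) + b • (zv - z0)}
  refine ⟨(J ×ˢ J).image cell, Finset.card_image_le, ?_, fun z hz => ?_⟩
  · intro Z' hZ'
    obtain ⟨k, -, rfl⟩ := Finset.mem_image.1 hZ'
    refine ⟨?_, fun _ _ => trivial⟩
    rintro i hi z ⟨hz, a, b, ha, hb, e⟩ z' ⟨hz', a', b', ha', hb', e'⟩
    have e2 : z - z' = (a - a') • (zu - z0) + (b - b') • (zv - z0) := by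
      rw [show z - z' = (z - z0) - (z' - z0) by abel, e, e', sub_smul, sub_smul]; abel
    have n1 := hZ.1 i hi zu hzu z0 hz0
    have n2 := hZ.1 i hi zv hzv z0 hz0
    rw [Ent2.iter_sub hg hzu hz0 hi] at n1
    rw [Ent2.iter_sub hg hzv hz0 hi] at n2
    rw [Ent2.iter_sub hg hz hz' hi, e2, Ent2.fw_add_vec, fw_smul, fw_smul]
    refine (norm_add_le _ _).trans ?_
    rw [norm_smul, norm_smul, Real.norm_eq_abs, Real.norm_eq_abs]
    have f : ∀ x y : ℝ, ⌊x * K⌋ = ⌊y * K⌋ → |x - y| ≤ ε / 2 := fun x y h => by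
      have h1 := Int.abs_sub_lt_one_of_floor_eq_floor h
      rw [← sub_mul, abs_mul, abs_of_pos hK0] at h1
      exact le_of_mul_le_mul_right (by nlinarith) hK0
    have f1 := f a a' (ha.trans ha'.symm)
    have f2 := f b b' (hb.trans hb'.symm)
    have f3 := mul_le_mul f1 n1 (norm_nonneg _) (by positivity)
    have f4 := mul_le_mul f2 n2 (norm_nonneg _) (by positivity)
    linarith
  · obtain ⟨a, b, ha, hb, e⟩ := huv _ ⟨z, hz, rfl⟩
    have f : ∀ x : ℝ, |x| ≤ 2 → ⌊x * K⌋ ∈ J := fun x hx => by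
      obtain ⟨h1, h2⟩ := abs_le.1 hx
      refine Finset.mem_Icc.2 ⟨Int.le_floor.2 ?_, ?_⟩
      · push_cast; nlinarith
      · have : ⌊x * K⌋ ≤ ⌊((2 * K : ℤ) : ℝ)⌋ := Int.floor_le_floor (by push_cast; nlinarith)
        rwa [Int.floor_intCast] at this
    exact ⟨cell (⌊a * K⌋, ⌊b * K⌋), Finset.mem_image_of_mem _
      (Finset.mem_product.2 ⟨f a ha, f b hb⟩), hz, a, b, rfl, rfl, e⟩

theorem Ent2.cov_split {ε : ℝ} (hε : 0 < ε) : ∃ c : ℕ, ∀ (F : E → ℝ) (n : ℕ) (N : ℝ),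
    Cov F (AffOn F) 1 n N → Cov F (fun _ => True) ε n (N * c) := by
  classical
  obtain ⟨c, hc⟩ := tube_split hε
  refine ⟨c, fun F n N ⟨S, h1, h2, h3⟩ => ?_⟩
  have : ∀ Z : Set E, ∃ S' : Finset (Set E), Z ∈ S → S'.card ≤ c ∧
      (∀ Z' ∈ S', Cl F (fun _ => True) ε n Z') ∧ ∀ z ∈ Z, ∃ Z' ∈ S', z ∈ Z' := fun Z => by
    by_cases h : Z ∈ S
    · obtain ⟨S', hS'⟩ := hc F n Z (h2 Z h)
      exact ⟨S', fun _ => hS'⟩
    · exact ⟨∅, fun h' => absurd h' h⟩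
  choose P hP using this
  refine ⟨S.biUnion P, ?_, fun Z' hZ' => ?_, fun z => ?_⟩
  · have a1 : (S.biUnion P).card ≤ S.card * c :=
      Finset.card_biUnion_le_card_mul _ _ _ fun Z hZ => (hP Z hZ).1
    have a2 : ((S.biUnion P).card : ℝ) ≤ S.card * c := by exact_mod_cast a1
    exact a2.trans (mul_le_mul_of_nonneg_right h1 (Nat.cast_nonneg _))
  · obtain ⟨Z, hZ, h⟩ := Finset.mem_biUnion.1 hZ'
    exact (hP Z hZ).2.1 Z' h
  · obtain ⟨Z, hZ, m, hm⟩ := h3 z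
    obtain ⟨Z', hZ', h⟩ := (hP Z hZ).2.2 _ hm
    exact ⟨Z', Finset.mem_biUnion.2 ⟨Z, hZ, hZ'⟩, m, h⟩

/-- `Cov.pow`, `Cov.mono` and `tube_split`. -/
theorem entB_of_tubes {κ : ℝ} (ha : Adm F L κ) {n : ℕ} (hn : 0 < n) {N : ℝ}
    (h : Cov F (AffOn F) 1 n N) : EntB F (Real.log (9 * N) / n) := by
  intro ε hε γ hγ
  obtain ⟨c, hc⟩ := Ent2.cov_split hε
  obtain ⟨n0, -, hn0⟩ := Ent2.le_exp_ev (9 * N * c) hγ
  refine ⟨n0, fun k hk => ?_⟩
  have hN := h.one_le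
  have h1 : Cov F (AffOn F) 1 k ((9 * N) ^ (k / n + 1)) :=
    (h.pow ha (rinv_aff ha) le_rfl (k / n)).mono (fun _ h => h) le_rfl
      (by rw [mul_comm]; exact (Nat.lt_mul_div_succ k hn).le) le_rfl
  refine (hc F k _ h1).mono (fun _ h => h) le_rfl le_rfl ?_
  have hl : 0 ≤ Real.log (9 * N) := Real.log_nonneg (by linarith)
  have h2 : (9 * N) ^ (k / n) ≤ Real.exp (Real.log (9 * N) / n * k) := by
    conv_lhs => rw [← Real.exp_log (show 0 < 9 * N by linarith), ← Real.exp_nat_mul]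
    rw [Real.exp_le_exp]
    have h3 : ((k / n : ℕ) : ℝ) ≤ k / n := Nat.cast_div_le
    calc _ ≤ (k / n : ℝ) * Real.log (9 * N) := mul_le_mul_of_nonneg_right h3 hl
      _ = _ := by ring
  rw [pow_succ, mul_assoc, add_mul, Real.exp_add]
  exact mul_le_mul h2 (hn0 k hk) (by positivity) (Real.exp_pos _).le

/-- Covers by thin tubes (`cx_self`, `Cov.refine` with `n0` large). -/
theorem EntB.tubes (ha : Adm F L 2) {r : ℝ} {M : ℕ} (hl : Loc F r M) (h2 : H2 F) {H : ℝ}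
    (h : EntB F H) {ε γ : ℝ} (hε : 0 < ε) (hγ : 0 < γ) :
    ∃ n0 : ℕ, ∀ n ≥ n0, Cov F (AffOn F) ε n (Real.exp ((H + γ) * n)) := by
  have hγ3 : 0 < γ / 3 := by positivity
  obtain ⟨n0, hn0, hV⟩ := Ent2.le_exp_ev ((M ^ 2 : ℕ) : ℝ) hγ3
  obtain ⟨δ, hδ, hx⟩ := cx_self ha h2 hl n0
  obtain ⟨n1, hn1⟩ := h (min ε δ) (lt_min hε hδ) _ hγ3
  refine ⟨max n0 n1, fun n hn => ?_⟩
  refine ((hn1 n (le_of_max_le_right hn)).refine ha.cont hl hn0 hx (min_le_right _ _)).mono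
    (fun _ h => h) (min_le_left _ _) le_rfl ?_
  have := Ent2.pow_le_exp (Nat.cast_nonneg _) hγ3.le (hV n0 le_rfl) (le_of_max_le_left hn)
  refine (mul_le_mul_of_nonneg_left this (Real.exp_pos _).le).trans (le_of_eq ?_)
  rw [← Real.exp_add]; congr 1; ring

/-- Entropy after a perturbation near the singular set: choose `n0` with `log (N'^2) ≤ γ n0 / 4`, then
`δ ≤ 1`, `w0` from `cx_of_h2`, then `n` large, `Cov.transfer`, `Cov.refine`, `entB_of_tubes`. -/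
theorem entB_R (ha : Adm F L 2) (h2 : H2 F) {H : ℝ} (h : EntB F H) {γ r' : ℝ} (hγ : 0 < γ)
    (hr' : 0 < r') (N' : ℕ) :
    ∃ w0 > 0, ∀ (F' : E → ℝ) (L' w : ℝ), w ≤ w0 → Adm F' L' 2 → Loc F' r' N' → Close F F' w →
      Off F F' w → EntB F' (H + γ) := by
  have hγ4 : 0 < γ / 4 := by positivity
  obtain ⟨n0, hn0, hV⟩ := Ent2.le_exp_ev ((N' ^ 2 : ℕ) : ℝ) hγ4
  obtain ⟨n2, -, h9⟩ := Ent2.le_exp_ev 9 hγ4
  obtain ⟨δ, hδ, w0, hw0, hx⟩ := cx_of_h2 ha h2 n0 hr'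
  have hε : 0 < min δ 1 / 2 := half_pos (lt_min hδ one_pos)
  obtain ⟨n1, hn1⟩ := h _ hε _ hγ4
  obtain ⟨n, a0, a1, a2⟩ : ∃ n : ℕ, n0 ≤ n ∧ n1 ≤ n ∧ n2 ≤ n :=
    ⟨n0 + n1 + n2, by omega, by omega, by omega⟩
  have hn : 0 < n := hn0.trans_le a0
  obtain ⟨η, hη, ht⟩ := (hn1 n a1).transfer ha hε
  refine ⟨min w0 η, lt_min hw0 hη, fun F' L' w hw ha' hl' hc ho => ?_⟩
  have c1 := ht F' fun z => (hc z).trans (hw.trans (min_le_right _ _))
  have c2 := c1.refine ha'.cont hl' hn0 (hx F' L' w N' (hw.trans (min_le_left _ _)) ha' hl' hc ho)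
    (by linarith [min_le_left δ 1])
  have c3 : Cov F' (AffOn F') 1 n (Real.exp ((H + 3 * (γ / 4)) * n)) := by
    refine c2.mono (fun _ h => h) (by linarith [min_le_right δ 1]) le_rfl ?_
    have := Ent2.pow_le_exp (Nat.cast_nonneg _) hγ4.le (hV n0 le_rfl) a0
    refine (mul_le_mul_of_nonneg_left this (Real.exp_pos _).le).trans (le_of_eq ?_)
    rw [← Real.exp_add]; congr 1; ring
  refine (entB_of_tubes ha' hn c3).mono ?_
  rw [div_le_iff₀ (by exact_mod_cast hn), Real.log_le_iff_le_exp (by positivity)]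
  refine (mul_le_mul_of_nonneg_right (h9 n a2) (Real.exp_pos _).le).trans (le_of_eq ?_)
  rw [← Real.exp_add]; congr 1; ring

end Pool.Agent.MP_369096_an.H89
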