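import Pool.Agent.MP_369096_an.H89.KLem

/-!
TASK Green. The Green function of a periodic cocycle with two eigen-solutions. Auxiliary lemmas go in namespace `H89.Green`.
-/

set_option autoImplicit false

open Set Filter Topology

namespace Pool.Agent.MP_369096_an.H89

namespace Green

noncomputable def S (μ : ℝ) (f : ℕ → ℝ) : ℝ := ∑' j, μ⁻¹ ^ (j + 1) * f j

theorem geo {μ : ℝ} (hμ : 2 ≤ μ) (M : ℝ) :
    HasSum (fun j : ℕ => μ⁻¹ ^ (j + 1) * M) (μ⁻¹ * M * (1 - μ⁻¹)⁻¹) := by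
  have h0 : 0 ≤ μ⁻¹ := by positivity
  have h1 : μ⁻¹ < 1 := inv_lt_one_of_one_lt₀ (by linarith)
  have := (hasSum_geometric_of_lt_one h0 h1).mul_left (μ⁻¹ * M)
  have e : (fun j : ℕ => μ⁻¹ ^ (j + 1) * M) = fun j => μ⁻¹ * M * μ⁻¹ ^ j := by
    funext j; ring
  rw [e]; exact this

theorem term_le {μ M : ℝ} (hμ : 2 ≤ μ) {f : ℕ → ℝ} (hf : ∀ j, |f j| ≤ M) (j : ℕ) :
    ‖μ⁻¹ ^ (j + 1) * f j‖ ≤ μ⁻¹ ^ (j + 1) * M := by
  have h0 : 0 ≤ μ⁻¹ ^ (j + 1) := by positivity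
  rw [Real.norm_eq_abs, abs_mul, abs_of_nonneg h0]
  exact mul_le_mul_of_nonneg_left (hf j) h0

theorem summ {μ M : ℝ} (hμ : 2 ≤ μ) {f : ℕ → ℝ} (hf : ∀ j, |f j| ≤ M) :
    Summable fun j => μ⁻¹ ^ (j + 1) * f j :=
  Summable.of_norm_bounded (geo hμ M).summable (term_le hμ hf)

theorem inv_le_half {μ : ℝ} (hμ : 2 ≤ μ) : μ⁻¹ ≤ 1 / 2 := by
  rw [one_div]; exact inv_anti₀ two_pos hμ

theorem S_bd {μ M : ℝ} (hμ : 2 ≤ μ) {f : ℕ → ℝ} (hf : ∀ j, |f j| ≤ M) :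
    |S μ f| ≤ 2 * M * μ⁻¹ := by
  have hM : 0 ≤ M := (abs_nonneg _).trans (hf 0)
  have h0 : 0 ≤ μ⁻¹ := by positivity
  have h1 := inv_le_half hμ
  have h2 : (1 - μ⁻¹)⁻¹ ≤ 2 := by
    rw [inv_le_comm₀ (by linarith) two_pos]; linarith
  have h3 := tsum_of_norm_bounded (geo hμ M) (term_le hμ hf)
  calc |S μ f| ≤ μ⁻¹ * M * (1 - μ⁻¹)⁻¹ := h3
    _ ≤ μ⁻¹ * M * 2 := by gcongr
    _ = _ := by ring

theorem S_bd' {μ M : ℝ} (hμ : 2 ≤ μ) {f : ℕ → ℝ} (hf : ∀ j, |f j| ≤ M) : |S μ f| ≤ M := by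
  have hM : 0 ≤ M := (abs_nonneg _).trans (hf 0)
  have h1 := inv_le_half hμ
  have := S_bd hμ hf
  nlinarith

theorem S_succ {μ M : ℝ} (hμ : 2 ≤ μ) {f : ℕ → ℝ} (hf : ∀ j, |f j| ≤ M) :
    S μ f = μ⁻¹ * (f 0 + S μ fun j => f (j + 1)) := by
  unfold S
  rw [(summ hμ hf).tsum_eq_zero_add, mul_add, ← tsum_mul_left]
  congr 1
  · ring
  · exact tsum_congr fun j => by ring

theorem S_sub {μ M : ℝ} (hμ : 2 ≤ μ) {f g : ℕ → ℝ} (hf : ∀ j, |f j| ≤ M) (hg : ∀ j, |g j| ≤ M) :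
    S μ f - S μ g = S μ fun j => f j - g j := by
  unfold S
  rw [← (summ hμ hf).tsum_sub (summ hμ hg)]
  exact tsum_congr fun j => by ring

theorem S_tail {μ M ζ : ℝ} (hμ : 2 ≤ μ) (hζ : 0 ≤ ζ) (J : ℕ) : ∀ f : ℕ → ℝ, (∀ j, |f j| ≤ M) →
    (∀ j < J, |f j| ≤ ζ) → |S μ f| ≤ ζ + M / 2 ^ J := by
  induction J with
  | zero =>
    intro f hf _
    have := S_bd' hμ hf
    rw [pow_zero, div_one]; linarith
  | succ J ih =>
    intro f hf h
    have h0 : 0 ≤ μ⁻¹ := by positivity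
    have h1 := ih (fun j => f (j + 1)) (fun j => hf _) fun j hj => h _ (by omega)
    have h2 := h 0 (by omega)
    rw [S_succ hμ hf, abs_mul, abs_of_nonneg h0]
    calc μ⁻¹ * |f 0 + S μ fun j => f (j + 1)| ≤ 1 / 2 * (ζ + (ζ + M / 2 ^ J)) :=
          mul_le_mul (inv_le_half hμ) ((abs_add_le _ _).trans (add_le_add h2 h1)) (abs_nonneg _)
            (by norm_num)
      _ = _ := by rw [pow_succ]; ring

theorem div_mod {n : ℕ} {r : ℤ} (h0 : 0 ≤ r) (h1 : r < n) (t : ℤ) :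
    (t * n + r) / n = t ∧ (t * n + r) % n = r := by
  have hn : (n : ℤ) ≠ 0 := by omega
  constructor
  · rw [add_comm, Int.add_mul_ediv_right _ _ hn, Int.ediv_eq_zero_of_lt h0 h1, zero_add]
  · rw [add_comm, Int.add_mul_emod_self_right, Int.emod_eq_of_lt h0 h1]

theorem decomp {n : ℕ} (hn : 0 < n) (i : ℤ) : ∃ t r : ℤ, 0 ≤ r ∧ r < n ∧ i = t * n + r :=
  ⟨i / n, i % n, Int.emod_nonneg _ (by omega), Int.emod_lt_of_pos _ (by omega), by
    rw [mul_comm, Int.mul_ediv_add_emod]⟩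

theorem not_dvd {n : ℕ} {r : ℤ} (h0 : 0 < r) (h1 : r < n) (t : ℤ) : ¬ (n : ℤ) ∣ t * n + r := by
  intro h
  have := Int.emod_eq_zero_of_dvd h
  rw [(div_mod h0.le h1 t).2] at this
  omega

noncomputable def P (μ : ℝ) (c : ℤ → ℝ) (T : ℤ) : ℝ := S μ fun j => c (T + 1 + j)

noncomputable def Q (μ : ℝ) (c : ℤ → ℝ) (T : ℤ) : ℝ := S μ fun j => c (T - 1 - j)

noncomputable def g (u s : ℤ → ℝ) (μ : ℝ) (c : ℤ → ℝ) (T r : ℤ) : ℝ :=
  -(u r * P μ c T + s r * (c T + Q μ c T)) / (u 1 - s 1)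

theorem P_succ {μ M : ℝ} (hμ : 2 ≤ μ) {c : ℤ → ℝ} (hc : ∀ t, |c t| ≤ M) (T : ℤ) :
    μ * P μ c T = c (T + 1) + P μ c (T + 1) := by
  have h0 : μ ≠ 0 := by positivity
  unfold P
  rw [S_succ hμ fun j => hc _, mul_inv_cancel_left₀ h0]
  congr 2
  · simp
  · funext j; congr 1; push_cast; ring

theorem Q_succ {μ M : ℝ} (hμ : 2 ≤ μ) {c : ℤ → ℝ} (hc : ∀ t, |c t| ≤ M) (T : ℤ) :
    μ * Q μ c (T + 1) = c T + Q μ c T := by
  have h0 : μ ≠ 0 := by positivity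
  unfold Q
  rw [S_succ hμ fun j => hc _, mul_inv_cancel_left₀ h0]
  congr 2
  · simp
  · funext j; congr 1; push_cast; ring

theorem two_le {x y p q X Y P Q : ℝ} (hx : |x| ≤ X) (hy : |y| ≤ Y) (hp : |p| ≤ P) (hq : |q| ≤ Q) :
    |x * p + y * q| ≤ X * P + Y * Q := by
  have := (abs_nonneg _).trans hx
  have := (abs_nonneg _).trans hy
  refine (abs_add_le _ _).trans ?_
  rw [abs_mul, abs_mul]
  gcongr

end Green

open Green in
/-- Green function for forcing terms at the multiples of the period: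
`gr c i = -(1/e) (u i ∑' t, [i ≤ t n] μ^(-t) c t + s i ∑' t, [t n < i] μ^t c t)` (sums over `t : ℤ`; summable by
comparison with geometric series). It is linear in `c`; prove the estimates for `0 ≤ i < n` and use the
shift relation. -/
theorem green {n : ℕ} {a u s : ℤ → ℝ} {μ B : ℝ} (h : EOK n a u s μ) (hμ : 2 ≤ μ) (hn : 2 ≤ n)
    (hB : ∀ i : ℤ, 0 ≤ i → i ≤ n → |u i| ≤ B ∧ |s i| ≤ B) :
    ∃ gr : (ℤ → ℝ) → ℤ → ℝ, ∀ (c : ℤ → ℝ) (M : ℝ), (∀ t, |c t| ≤ M) →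
      (∀ i, gr c (i + 1) = a i * gr c i - gr c (i - 1) + if (n : ℤ) ∣ i then c (i / n) else 0) ∧
      (∀ i, gr (fun t => c (t + 1)) i = gr c (i + n)) ∧
      (∀ t : ℤ, |gr c (t * n) + c t / (u 1 - s 1)| * μ ≤ 4 * M / (u 1 - s 1)) ∧
      (∀ t : ℤ, |gr c (t * n - 1)| ≤ (1 + 2 * |s (-1)| / μ) * M / (u 1 - s 1)) ∧
      (∀ i, |gr c i| ≤ 4 * B * M / (u 1 - s 1)) ∧
      ∀ (c' : ℤ → ℝ) (ζ : ℝ) (J : ℕ) (i : ℤ), (∀ t, |c' t| ≤ M) →
        (∀ t : ℤ, |t - i / n| ≤ J → |c t - c' t| ≤ ζ) →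
        |gr c i - gr c' i| ≤ 4 * B * (ζ + 2 * M / 2 ^ J) / (u 1 - s 1) := by
  have he := h.epos
  have hμ0 : 0 < μ := by linarith
  have hn0 : 0 < n := by omega
  have hB0 : 0 ≤ B := (abs_nonneg _).trans (hB 0 le_rfl (by omega)).1
  have hw : s (-1) - u (-1) = u 1 - s 1 := by
    have := h.wr 0
    simpa only [dt, pt, h.u0, h.s0, zero_sub, one_mul, mul_one] using this
  refine ⟨fun c i => g u s μ c (i / n) (i % n), fun c M hc => ?_⟩
  have hM : 0 ≤ M := (abs_nonneg _).trans (hc 0)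
  have f0 : ∀ (c : ℤ → ℝ) (t r : ℤ), 0 ≤ r → r < n →
      g u s μ c ((t * n + r) / n) ((t * n + r) % n) = g u s μ c t r := fun c t r a b => by
    rw [(div_mod a b t).1, (div_mod a b t).2]
  have gn : ∀ t r : ℤ, g u s μ c t (r + n) =
      -(u r * (c (t + 1) + P μ c (t + 1)) + s r * Q μ c (t + 1)) / (u 1 - s 1) := by
    intro t r
    unfold g
    rw [← P_succ hμ hc, ← Q_succ hμ hc, h.uper, ← h.sper r]
    ring
  have f1 : ∀ t r : ℤ, 0 ≤ r → r ≤ n →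
      g u s μ c ((t * n + r) / n) ((t * n + r) % n) = g u s μ c t r := by
    intro t r a b
    rcases b.lt_or_eq with b | rfl
    · exact f0 c t r a b
    · have e1 := f0 c (t + 1) 0 le_rfl (by omega)
      rw [show (t + 1) * n + 0 = t * n + n by ring] at e1
      have e2 := gn t 0
      rw [zero_add] at e2
      rw [e1, e2, g, h.u0, h.s0]
      ring
  have f2 : ∀ t : ℤ, g u s μ c ((t * n - 1) / n) ((t * n - 1) % n) =
      -(u (-1) * (c t + P μ c t) + s (-1) * Q μ c t) / (u 1 - s 1) := by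
    intro t
    have e1 := f0 c (t - 1) (-1 + n) (by omega) (by omega)
    rw [show (t - 1) * n + (-1 + n) = t * n - 1 by ring] at e1
    rw [e1, gn, sub_add_cancel]
  have grec : ∀ t r : ℤ, g u s μ c t (r + 1) = a r * g u s μ c t r - g u s μ c t (r - 1) := by
    intro t r
    unfold g
    rw [h.usol r, h.ssol r]
    ring
  have bP : ∀ t, |P μ c t| ≤ M := fun t => S_bd' hμ fun j => hc _
  have bQ : ∀ t, |Q μ c t| ≤ M := fun t => S_bd' hμ fun j => hc _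
  have bP' : ∀ t, |P μ c t| ≤ 2 * M * μ⁻¹ := fun t => S_bd hμ fun j => hc _
  have bQ' : ∀ t, |Q μ c t| ≤ 2 * M * μ⁻¹ := fun t => S_bd hμ fun j => hc _
  refine ⟨fun i => ?_, fun i => ?_, fun t => ?_, fun t => ?_, fun i => ?_,
    fun c' ζ J i hc' hJ => ?_⟩
  · obtain ⟨t, r, a0, a1, rfl⟩ := decomp hn0 i
    have ha : a (t * n + r) = a r := by rw [add_comm]; exact (h.upow r t).2.2
    beta_reduce
    rw [add_assoc, f1 t (r + 1) (by omega) (by omega), f0 c t r a0 a1, ha, grec]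
    rcases a0.eq_or_lt with rfl | a0
    · rw [add_zero, f2, if_pos (Dvd.intro_left t rfl), Int.mul_ediv_cancel _ (by omega), zero_sub]
      unfold g
      field_simp
      linear_combination (c t) * hw
    · rw [if_neg (not_dvd a0 a1 t), add_sub_assoc, f0 c t (r - 1) (by omega) (by omega), add_zero]
  · obtain ⟨t, r, a0, a1, rfl⟩ := decomp hn0 i
    beta_reduce
    rw [show t * n + r + n = (t + 1) * n + r by ring, f0 _ t r a0 a1, f0 c (t + 1) r a0 a1]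
    have e1 : P μ (fun t => c (t + 1)) t = P μ c (t + 1) := by
      unfold P; congr 1; funext j; exact congrArg c (by ring)
    have e2 : Q μ (fun t => c (t + 1)) t = Q μ c (t + 1) := by
      unfold Q; congr 1; funext j; exact congrArg c (by ring)
    unfold g
    rw [e1, e2]
  · have e1 := f0 c t 0 le_rfl (by omega)
    rw [add_zero] at e1
    beta_reduce
    have e2 : g u s μ c t 0 + c t / (u 1 - s 1) = -(P μ c t + Q μ c t) / (u 1 - s 1) := by
      unfold g; rw [h.u0, h.s0]; ring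
    rw [e1, e2, abs_div, abs_neg, abs_of_pos he, div_mul_eq_mul_div]
    refine div_le_div_of_nonneg_right ?_ he.le
    calc |P μ c t + Q μ c t| * μ ≤ (2 * M * μ⁻¹ + 2 * M * μ⁻¹) * μ := by
          gcongr; exact (abs_add_le _ _).trans (add_le_add (bP' t) (bQ' t))
      _ = _ := by field_simp; ring
  · beta_reduce
    rw [f2, abs_div, abs_neg, abs_of_pos he]
    refine div_le_div_of_nonneg_right ?_ he.le
    refine (two_le h.um.le le_rfl ((abs_add_le _ _).trans (add_le_add (hc t) (bP t)))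
      (bQ' t)).trans (le_of_eq ?_)
    ring
  · obtain ⟨t, r, a0, a1, rfl⟩ := decomp hn0 i
    beta_reduce
    rw [f0 c t r a0 a1, g, abs_div, abs_neg, abs_of_pos he]
    refine div_le_div_of_nonneg_right ?_ he.le
    have := two_le (hB r a0 a1.le).1 (hB r a0 a1.le).2 (bP t)
      ((abs_add_le _ _).trans (add_le_add (hc t) (bQ t)))
    have : 0 ≤ B * M := by positivity
    linarith
  · obtain ⟨t, r, a0, a1, rfl⟩ := decomp hn0 i
    rw [(div_mod a0 a1 t).1] at hJ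
    beta_reduce
    have hd : ∀ k, |c k - c' k| ≤ 2 * M := fun k =>
      (abs_sub _ _).trans (by linarith [hc k, hc' k])
    have h0 := hJ t (by simp)
    have hζ : 0 ≤ ζ := (abs_nonneg _).trans h0
    have dP : |P μ c t - P μ c' t| ≤ ζ + 2 * M / 2 ^ J := by
      unfold P
      rw [S_sub hμ (fun j => hc _) fun j => hc' _]
      exact S_tail hμ hζ J _ (fun j => hd _) fun j hj => hJ _ (abs_le.2 ⟨by omega, by omega⟩)
    have dQ : |Q μ c t - Q μ c' t| ≤ ζ + 2 * M / 2 ^ J := by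
      unfold Q
      rw [S_sub hμ (fun j => hc _) fun j => hc' _]
      exact S_tail hμ hζ J _ (fun j => hd _) fun j hj => hJ _ (abs_le.2 ⟨by omega, by omega⟩)
    have e : g u s μ c t r - g u s μ c' t r = -(u r * (P μ c t - P μ c' t) +
        s r * ((c t - c' t) + (Q μ c t - Q μ c' t))) / (u 1 - s 1) := by
      unfold g; ring
    rw [f0 c t r a0 a1, f0 c' t r a0 a1, e, abs_div, abs_neg, abs_of_pos he]
    refine div_le_div_of_nonneg_right ?_ he.le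
    have := two_le (hB r a0 a1.le).1 (hB r a0 a1.le).2 dP
      ((abs_add_le _ _).trans (add_le_add h0 dQ))
    have p1 : 0 ≤ B * ζ := by positivity
    have p2 : 0 ≤ B * (2 * M / 2 ^ J) := by positivity
    linarith

end Pool.Agent.MP_369096_an.H89
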