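import Pool.Agent.MP_369096_an.H89.KLem

/-!
TASK KL2. Porosity of the horseshoe, time reversal of the horseshoe and of the boxes.
Auxiliary lemmas go in namespace `H89.KL2`.
-/

set_option autoImplicit false

open Set Filter Topology

namespace Pool.Agent.MP_369096_an.H89

variable {F : E → ℝ} {L : ℝ} {K : KD}

namespace KL2

theorem sum_shift {f : ℤ → ℝ} {n : ℕ} (hper : ∀ i, f (i + n) = f i) (a : ℤ) :
    ∑ i ∈ Finset.range n, f (a + i) = ∑ i ∈ Finset.range n, f i := by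
  have st : ∀ b : ℤ, ∑ i ∈ Finset.range n, f (b + 1 + i) = ∑ i ∈ Finset.range n, f (b + i) := by
    intro b
    have h1 := Finset.sum_range_succ (fun i : ℕ => f (b + i)) n
    have h2 := Finset.sum_range_succ' (fun i : ℕ => f (b + i)) n
    rw [hper b] at h1
    simp only [Nat.cast_zero, add_zero, Nat.cast_add, Nat.cast_one] at h2
    have h3 : ∀ i : ℕ, b + (i + 1) = b + 1 + i := fun i => by ring
    simp only [h3] at h2
    linarith
  induction a using Int.induction_on with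
  | zero => simp
  | succ k ih => rw [st, ih]
  | pred k ih => rw [← st, sub_add_cancel, ih]

theorem sum_mul {f : ℤ → ℝ} {n : ℕ} (hper : ∀ i, f (i + n) = f i) (a : ℤ) (m : ℕ) :
    ∑ i ∈ Finset.range (n * m), f (a + i) = (∑ i ∈ Finset.range n, f i) * m := by
  induction m with
  | zero => simp
  | succ k ih =>
    rw [Nat.mul_succ, Finset.sum_range_add, ih]
    simp only [Nat.cast_add, ← add_assoc]
    rw [sum_shift hper]
    push_cast
    ring

theorem neg_mem {K : KD} {d d' : ℝ} {ω : ℤ → ℕ} (hω : ω ∈ (K.rv d d').X) :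
    (fun j => ω (-j)) ∈ K.X := fun j => by
  have := hω (-j)
  simpa only [KD.rv, neg_neg] using this

theorem neg_mem' {K : KD} (d d' : ℝ) {ω : ℤ → ℕ} (hω : ω ∈ K.X) :
    (fun j => ω (-j)) ∈ (K.rv d d').X := fun j => hω (-j)

theorem rv_pt {F : E → ℝ} {K : KD} (hk : KOK F K) (d d' : ℝ) {ω : ℤ → ℕ} (hω : ω ∈ K.X) (i : ℤ) :
    pt ((K.rv d d').Y fun j => ω (-j)) i = sg F (pt (K.Y ω) (-i)) := by
  rw [← (hk.orb hω).pt_neg]
  simp only [KD.rv, neg_neg]

theorem rv_P {F : E → ℝ} {K : KD} (hk : KOK F K) (d d' : ℝ) {ω : ℤ → ℕ} (hω : ω ∈ K.X) :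
    (K.rv d d').P (fun j => ω (-j)) = sg F (K.P ω) := by
  rw [KD.P, rv_pt hk d d' hω, neg_zero, KD.P]

theorem sg_inv_lip {F : E → ℝ} {L : ℝ} (ha : Adm F L 2) (p q : E) :
    ‖p - q‖ ≤ (2 * L + 2) * ‖sg F p - sg F q‖ := by
  have := ha.rev.sg_lip (sg F p) (sg F q)
  rwa [ha.sg_sg, ha.sg_sg] at this

end KL2

/-- Products of alphabet sizes over windows of a periodic family. -/
theorem prod_card_le {D : ℤ → Finset ℕ} {n : ℕ} (hn : 0 < n) (hne : ∀ i, (D i).Nonempty)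
    (hper : ∀ i, D (i + n) = D i) (a : ℤ) (len : ℕ) :
    (∏ i ∈ Finset.range len, ((D (a + i)).card : ℝ)) ≤
      Real.exp (lsum D n * ((len / n + 1 : ℕ) : ℝ)) := by
  have h1 : ∀ i, (1 : ℝ) ≤ (D i).card := fun i => by exact_mod_cast (hne i).card_pos
  have h2 := KL2.sum_mul (f := fun i => Real.log ((D i).card : ℝ)) (n := n)
    (fun i => by simp only [hper]) a (len / n + 1)
  rw [lsum, ← h2]
  calc _ = Real.exp (∑ i ∈ Finset.range len, Real.log ((D (a + i)).card : ℝ)) := by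
        rw [Real.exp_sum]
        exact Finset.prod_congr rfl fun i _ => (Real.exp_log (by linarith [h1 (a + i)])).symm
    _ ≤ _ := by
        refine Real.exp_le_exp.2 (Finset.sum_le_sum_of_subset_of_nonneg
          (Finset.range_subset_range.2 (Nat.lt_mul_div_succ len hn).le)
          fun i _ _ => Real.log_nonneg (h1 _))

/-- Porosity. Let `P = exp (lsum K.D K.q)`, so `P² < μ`; `c0` from `sepw`, `c2` from `closew`. Choose `r0` with
`6 (2 M + 1) μ c2 < c0 μ^r0` where `M ≥ P^(2 r0 + 2)` bounds the number of pairs of words on the two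
intervals `k q < |j| ≤ (k + r0) q` (`prod_card_le`); `n = 2 M + 1`, `c = c0 / 2`. If some `K.P ω0` is within `r` of the
segment, all relevant points are within `2 ‖d‖` of it; take `k` with `c0 < 2 ‖d‖ μ^(k+1)`, `2 ‖d‖ μ^k ≤ c0`; the
relevant codes agree with `ω0` on `|j| ≤ k q`, and fall in at most `M` classes of diameter `≤ c2 μ^(-(k+r0))`; the
parameters within `r` of a class form a set of diameter `< 1/n`; `avoid_small`. -/
theorem KOK.gap (ha : Adm F L 2) (hk : KOK F K) (hμ : 2 * lsum K.D K.q < Real.log K.μ) :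
    ∃ (n : ℕ) (c : ℝ), 1 ≤ n ∧ 0 < c ∧ ∀ (z d : E) (r : ℝ), ‖d‖ ≤ c → 3 * n * r ≤ ‖d‖ → d ≠ 0 →
      ∃ t0 : ℝ, 0 ≤ t0 ∧ t0 + 1 / n ≤ 1 ∧ ∀ t ∈ Icc t0 (t0 + 1 / n), ∀ ω ∈ K.X,
        r < ‖z + t • d - K.P ω‖ := by
  obtain ⟨c0, hc0, hsep⟩ := hk.sepw ha
  obtain ⟨c2, hc2, hcl⟩ := hk.closew
  have hμ1 := hk.eok.mu
  have hμ0 : 0 < K.μ := by linarith
  have hq := hk.eok.qpos
  obtain ⟨P, hP⟩ : ∃ P, P = Real.exp (lsum K.D K.q) := ⟨_, rfl⟩
  have hP1 : 1 ≤ P := by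
    rw [hP]
    refine Real.one_le_exp (Finset.sum_nonneg fun i _ => Real.log_nonneg ?_)
    exact_mod_cast (hk.Dne i).card_pos
  have hP0 : 0 < P := by linarith
  have hPμ : P ^ 2 / K.μ < 1 := by
    rw [div_lt_one hμ0, hP, ← Real.exp_nat_mul, ← Real.exp_log hμ0]
    exact Real.exp_lt_exp.2 (by exact_mod_cast hμ)
  obtain ⟨r0, hr0⟩ := exists_pow_lt_of_lt_one
    (show 0 < c0 / (18 * P ^ 2 * c2 * K.μ) by positivity) hPμ
  rw [div_pow, div_lt_div_iff₀ (by positivity) (by positivity)] at hr0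
  obtain ⟨M, hM⟩ : ∃ M : ℕ, M = ⌊P ^ (r0 + 1) * P ^ (r0 + 1)⌋₊ := ⟨_, rfl⟩
  have hM1 : (M : ℝ) ≤ P ^ (r0 + 1) * P ^ (r0 + 1) := by
    rw [hM]; exact Nat.floor_le (by positivity)
  have hM2 : (1 : ℝ) ≤ P ^ (r0 + 1) * P ^ (r0 + 1) :=
    one_le_mul_of_one_le_of_one_le (one_le_pow₀ hP1) (one_le_pow₀ hP1)
  have hM3 : 6 * (2 * (M : ℝ) + 1) * c2 * K.μ ≤ c0 * K.μ ^ r0 := by
    calc 6 * (2 * (M : ℝ) + 1) * c2 * K.μ ≤ 6 * (3 * (P ^ (r0 + 1) * P ^ (r0 + 1))) * c2 * K.μ := by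
          gcongr; linarith
      _ = (P ^ 2) ^ r0 * (18 * P ^ 2 * c2 * K.μ) := by ring
      _ ≤ _ := hr0.le
  have hM0 : (0 : ℝ) ≤ M := Nat.cast_nonneg M
  refine ⟨2 * M + 1, c0 / 2, by omega, by positivity, ?_⟩
  intro z d r hd hr hd0
  push_cast at hr ⊢
  have hdp : 0 < ‖d‖ := norm_pos_iff.2 hd0
  have hn1 : 1 / (2 * (M : ℝ) + 1) ≤ 1 := by
    rw [div_le_one (by positivity)]; linarith
  by_cases hex : ∃ ω0 ∈ K.X, ∃ s ∈ Icc (0 : ℝ) 1, ‖z + s • d - K.P ω0‖ ≤ r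
  swap
  · refine ⟨0, le_rfl, by linarith, fun t ht ω hω => ?_⟩
    by_contra hc
    exact hex ⟨ω, hω, t, ⟨ht.1, by linarith [ht.2]⟩, not_lt.1 hc⟩
  obtain ⟨ω0, hω0, s0, hs0, h0⟩ := hex
  have hr0' : 0 ≤ r := (norm_nonneg _).trans h0
  have tri : ∀ (s t : ℝ) (p p' : E), ‖z + s • d - p‖ ≤ r → ‖z + t • d - p'‖ ≤ r →
      ‖p - p'‖ ≤ 2 * r + |s - t| * ‖d‖ ∧ |s - t| * ‖d‖ ≤ 2 * r + ‖p - p'‖ := by
    intro s t p p' a b
    have e : ‖(s - t) • d‖ = |s - t| * ‖d‖ := by rw [norm_smul, Real.norm_eq_abs]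
    rw [← e]
    constructor
    · have : p - p' = (z + t • d - p') - (z + s • d - p) + (s - t) • d := by
        rw [sub_smul]; abel
      rw [this]
      linarith [norm_add_le ((z + t • d - p') - (z + s • d - p)) ((s - t) • d),
        norm_sub_le (z + t • d - p') (z + s • d - p)]
    · have : (s - t) • d = (z + s • d - p) - (z + t • d - p') + (p - p') := by
        rw [sub_smul]; abel
      rw [this]
      linarith [norm_add_le ((z + s • d - p) - (z + t • d - p')) (p - p'),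
        norm_sub_le (z + s • d - p) (z + t • d - p')]
  obtain ⟨k, hk1, hk2⟩ := exists_nat_pow_near (x := c0 / (2 * ‖d‖))
    (by rw [le_div_iff₀ (by positivity)]; linarith) hμ1
  rw [le_div_iff₀ (by positivity)] at hk1
  rw [div_lt_iff₀ (by positivity)] at hk2
  have hcard : ∀ a : ℤ, ((Fintype.piFinset fun i : Fin (r0 * K.q) => K.D (a + (i : ℕ))).card : ℝ) ≤
      P ^ (r0 + 1) := by
    intro a
    have := prod_card_le hq hk.Dne hk.Dper a (r0 * K.q)
    rw [Nat.mul_div_cancel _ hq, mul_comm (lsum _ _), Real.exp_nat_mul, ← hP] at this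
    rw [Fintype.card_piFinset, Nat.cast_prod,
      Fin.prod_univ_eq_prod_range (fun i : ℕ => ((K.D (a + i)).card : ℝ))]
    exact this
  obtain ⟨t0, h1, h2, h3⟩ := avoid_small
    ((Fintype.piFinset fun i : Fin (r0 * K.q) => K.D (k * K.q + 1 + (i : ℕ))) ×ˢ
      (Fintype.piFinset fun i : Fin (r0 * K.q) => K.D (-((k + r0) * K.q) + (i : ℕ))))
    (fun w => {t | ∃ ω ∈ K.X, ‖z + t • d - K.P ω‖ ≤ r ∧ (∀ j : ℤ, |j| ≤ k * K.q → ω j = ω0 j) ∧
      (∀ i : Fin (r0 * K.q), ω (k * K.q + 1 + (i : ℕ)) = w.1 i) ∧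
      ∀ i : Fin (r0 * K.q), ω (-((k + r0) * K.q) + (i : ℕ)) = w.2 i}) (n := M)
    (by
      rw [hM]
      refine Nat.le_floor ?_
      rw [Finset.card_product, Nat.cast_mul]
      exact mul_le_mul (hcard _) (hcard _) (Nat.cast_nonneg _) (by positivity))
    (by
      rintro w - s ⟨ω, hω, a1, a2, a3, a4⟩ t ⟨ω', hω', b1, b2, b3, b4⟩
      have hag := hcl (k + r0) ω hω ω' hω' 0 fun j hj => by
        rw [zero_add]
        push_cast at hj
        have e : ((k : ℤ) + r0) * K.q = k * K.q + ((r0 * K.q : ℕ) : ℤ) := by push_cast; ring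
        rw [abs_le] at hj
        rcases lt_or_ge ((k : ℤ) * K.q) j with c1 | c1
        · have := (a3 ⟨(j - (k * K.q + 1)).toNat, by omega⟩).trans
            (b3 ⟨(j - (k * K.q + 1)).toNat, by omega⟩).symm
          simp only at this
          rwa [Int.toNat_of_nonneg (by omega), add_sub_cancel] at this
        rcases lt_or_ge j (-((k : ℤ) * K.q)) with c2 | c2
        · have := (a4 ⟨(j - -((k + r0) * K.q)).toNat, by omega⟩).trans
            (b4 ⟨(j - -((k + r0) * K.q)).toNat, by omega⟩).symm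
          simp only at this
          rwa [Int.toNat_of_nonneg (by omega), add_sub_cancel] at this
        · rw [a2 j (abs_le.2 ⟨c2, c1⟩), b2 j (abs_le.2 ⟨c2, c1⟩)]
      have t2 := (tri s t _ _ a1 b1).2
      have hA : 0 < K.μ ^ k := by positivity
      have hB : 0 < K.μ ^ r0 := by positivity
      have t3 : 3 * (2 * (M : ℝ) + 1) * ‖K.P ω - K.P ω'‖ < ‖d‖ := by
        refine lt_of_mul_lt_mul_right (a := 2 * K.μ * K.μ ^ (k + r0)) ?_ (by positivity)
        calc _ = 6 * (2 * (M : ℝ) + 1) * (‖K.P ω - K.P ω'‖ * K.μ ^ (k + r0)) * K.μ := by ring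
          _ ≤ 6 * (2 * (M : ℝ) + 1) * c2 * K.μ := by gcongr; exact hag
          _ ≤ c0 * K.μ ^ r0 := hM3
          _ < K.μ ^ (k + 1) * (2 * ‖d‖) * K.μ ^ r0 := by gcongr
          _ = _ := by ring
      refine lt_of_mul_lt_mul_right (a := ‖d‖) ?_ hdp.le
      have t4 := mul_le_mul_of_nonneg_left t2 (show 0 ≤ 2 * (M : ℝ) + 1 by positivity)
      linarith)
  refine ⟨t0, h1, h2, fun t ht ω hω => ?_⟩
  by_contra hc
  rw [not_lt] at hc
  have t1 := (tri t s0 _ _ hc h0).1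
  have t5 : |t - s0| ≤ 1 := by
    rw [abs_le]
    constructor <;> linarith [ht.1, ht.2, hs0.1, hs0.2]
  have t6 : ‖K.P ω - K.P ω0‖ ≤ 2 * ‖d‖ := by
    have := mul_le_mul_of_nonneg_right t5 hdp.le
    nlinarith
  have t7 := (hsep k ω hω ω0 hω0 0 0 (by
    refine le_trans ?_ hk1
    rw [mul_comm]
    exact mul_le_mul_of_nonneg_left t6 (by positivity))).2
  simp only [zero_add] at t7
  refine h3 t ht (fun i => ω (k * K.q + 1 + (i : ℕ)), fun i => ω (-((k + r0) * K.q) + (i : ℕ))) ?_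
    ⟨ω, hω, hc, t7, fun _ => rfl, fun _ => rfl⟩
  rw [Finset.mem_product, Fintype.mem_piFinset, Fintype.mem_piFinset]
  exact ⟨fun i => hω _, fun i => hω _⟩

theorem lsum_neg {D : ℤ → Finset ℕ} {n : ℕ} (hper : ∀ i, D (i + n) = D i) :
    lsum (fun i => D (-i)) n = lsum D n := by
  have h := KL2.sum_shift (f := fun i => Real.log ((D i).card : ℝ)) (n := n)
    (fun i => by simp only [hper]) (1 - n)
  rw [lsum, lsum, ← h, ← Finset.sum_range_reflect]
  refine Finset.sum_congr rfl fun i hi => ?_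
  rw [Finset.mem_range] at hi
  have : -((n - 1 - i : ℕ) : ℤ) = 1 - n + i := by omega
  rw [this]

theorem EOK.rev {q : ℕ} {a u s : ℤ → ℝ} {μ : ℝ} (h : EOK q a u s μ) :
    EOK q (fun i => a (-i)) (fun i => s (-i)) (fun i => u (-i)) μ := by
  have e1 : ∀ i : ℤ, -(i + q) + q = -i := fun i => by ring
  have e2 : ∀ i : ℤ, -(i + 1) = -i - 1 := fun i => by ring
  have e3 : ∀ i : ℤ, -(i - 1) = -i + 1 := fun i => by ring
  refine ⟨h.qpos, fun i => ?_, fun i => ?_, fun i => ?_, h.s0, h.u0, fun i => ?_, fun i => ?_, ?_,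
    h.s1, h.um, h.mu⟩
  · rw [← h.aper (-(i + q)), e1]
  · rw [e2, e3, h.ssol]; ring
  · rw [e2, e3, h.usol]; ring
  · rw [← h.sper (-(i + q)), e1]
  · rw [← h.uper (-(i + q)), e1]
  · have := h.wr 0
    simp only [dt, pt, h.u0, h.s0, zero_sub] at this
    linarith [h.epos]

/-- Reversed data. The point of the reversed orbit at time `i` is `sg F (pt (K.Y ω) (-i))`, the swap of
`pt (K.Y ω) (1 - i)`. Margins: `d = K.dl / (L + 1)`, `d' = K.sp / (2 L + 2)` (`Adm.lipT'`). -/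
theorem KOK.rev (ha : Adm F L 2) (hk : KOK F K) : ∃ d d', KOK (H89.rev F) (K.rv d d') := by
  have hL := ha.le_L
  have hd := hk.dpos
  have hs := hk.spos
  refine ⟨K.dl / (L + 1), K.sp / (2 * L + 2), hk.eok.rev, hk.m2, hk.D0, fun i => hk.Dne _,
    fun i => ?_, ?_, ?_, ?_, ?_, ?_, ?_, ?_⟩
  · show K.D (-(i + K.q)) = K.D (-i)
    rw [← hk.Dper (-(i + K.q))]
    congr 1
    ring
  · show 0 < K.dl / (L + 1)
    positivity
  · show 0 < K.sp / (2 * L + 2)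
    positivity
  · intro ω hω i z hz
    have hω' := KL2.neg_mem hω
    have haL : |K.a (-i)| ≤ L := (ha.itin_bd (hk.itin hω') (-i)).1
    have e2 : -(i + 1) = -i - 1 := by ring
    have e3 : -(i - 1) = -i + 1 := by ring
    obtain ⟨x, b⟩ := z
    simp only [KD.rv, pt, Prod.mk_sub_mk, KD.co, lin, e2, e3] at hz ⊢
    generalize (fun j => ω (-j)) = ω' at hω' hz ⊢
    rw [Prod.norm_def, Real.norm_eq_abs, Real.norm_eq_abs, max_le_iff] at hz
    obtain ⟨n1, n2⟩ := hz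
    simp only at n1 n2
    obtain ⟨y, hy⟩ : ∃ y, y = K.Y ω' (-i - 1) +
      (K.a (-i) * (x - K.Y ω' (-i)) + -1 * (b - K.Y ω' (-i + 1))) := ⟨_, rfl⟩
    rw [← hy]
    have hR : K.dl / (L + 1) * (L + 1) = K.dl := by field_simp
    have hR0 : 0 ≤ K.dl / (L + 1) := by positivity
    have h1 := hk.aff ω' hω' (-i) (x, y) (by
      simp only [pt, Prod.mk_sub_mk, hy, add_sub_cancel_left]
      rw [Prod.norm_def, Real.norm_eq_abs, Real.norm_eq_abs, max_le_iff]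
      refine ⟨by nlinarith, ?_⟩
      have a1 := abs_add_le (K.a (-i) * (x - K.Y ω' (-i))) (-1 * (b - K.Y ω' (-i + 1)))
      rw [abs_mul, neg_one_mul, abs_neg] at a1
      have a2 := mul_le_mul haL n1 (abs_nonneg _) (by linarith)
      rw [neg_one_mul]
      linarith)
    have h2 : F (x, y) = b := by
      rw [h1]
      simp only [pt, Prod.mk_sub_mk, lin, KD.co]
      linarith
    have h3 := ha.rev_left (x, y)
    rwa [h2] at h3
  · intro ω hω i
    have := hk.shift_pow (KL2.neg_mem hω) (-1) (-i)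
    show K.Y (fun j => ω (-j + K.q)) (-i) = K.Y (fun j => ω (-j)) (-(i + K.q))
    have e1 : -i + -1 * (K.q : ℤ) = -(i + K.q) := by ring
    have e2 : ∀ j : ℤ, -(j + -1 * (K.q : ℤ)) = -j + K.q := fun j => by ring
    simpa only [e1, e2] using this
  · obtain ⟨ρ, hρ, h⟩ := hk.small
    exact ⟨ρ, hρ, fun ω hω i => h _ (KL2.neg_mem hω) _⟩
  · intro ω hω ω' hω' i i' h
    have a := KL2.rv_pt hk (K.dl / (L + 1)) (K.sp / (2 * L + 2)) (KL2.neg_mem hω) i
    have b := KL2.rv_pt hk (K.dl / (L + 1)) (K.sp / (2 * L + 2)) (KL2.neg_mem hω') i'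
    simp only [neg_neg] at a b
    rw [a, b] at h
    have h' : ‖sg F (pt (K.Y fun j => ω (-j)) (-i)) - sg F (pt (K.Y fun j => ω' (-j)) (-i'))‖ <
      K.sp / (2 * L + 2) := h
    rw [lt_div_iff₀ (by positivity), mul_comm] at h'
    obtain ⟨h1, h2⟩ := hk.sep _ (KL2.neg_mem hω) _ (KL2.neg_mem hω') (-i) (-i')
      ((KL2.sg_inv_lip ha _ _).trans_lt h')
    simp only [neg_neg] at h2
    refine ⟨?_, h2⟩
    have := (dvd_neg.2 h1)
    rwa [show -(-i - -i') = i - i' by ring] at this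
  · intro η hη
    obtain ⟨J, hJ⟩ := hk.cont η hη
    refine ⟨J, fun ω hω ω' hω' i h => hJ _ (KL2.neg_mem hω) _ (KL2.neg_mem hω') (-i) fun j hj => ?_⟩
    refine h (-j) ?_
    rw [abs_le] at hj ⊢
    omega

theorem KD.rv_e (hk : KOK F K) (d d' : ℝ) : (K.rv d d').e = K.e := by
  have := hk.eok.wr 0
  simp only [dt, pt, hk.eok.u0, hk.eok.s0, zero_sub] at this
  show K.s (-1) - K.u (-1) = K.u 1 - K.s 1
  linarith

theorem Box.mono {F' : E → ℝ} {Ω : Set (ℤ → ℕ)} {n V : ℕ} {W c c' κ ε : ℝ}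
    (h : Box F K F' Ω n V W c κ ε) (hW : 0 ≤ W) (hc : c' ≤ c) : Box F K F' Ω n V W c' κ ε := by
  refine ⟨h.fin, h.sub, h.ret, h.off, h.close, fun ω hω => ?_⟩
  obtain ⟨S, h1, h2, h3⟩ := h.cells ω hω
  exact ⟨S, h1, h2, fun p hp => h3 p (hp.trans (mul_le_mul_of_nonneg_right hc hW))⟩

/-- Reversed boxes (`Adm.close_rev`, `rev_eq`, `sg_lip`, `sg_iv`, `cell_rev` for `F'`). A point `w` with
`‖w - sg F P‖ ≤ c' (L+2) W` is `sg F' z` with `z = sg (rev F') w` and `‖z - P‖ ≤ (2 κ + (2L+2)(L+2) c') W`. -/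
theorem Box.rev {F' : E → ℝ} {L' : ℝ} (ha : Adm F L 2) (ha' : Adm F' L' 2) (hk : KOK F K)
    {Ω : Set (ℤ → ℕ)} {n V : ℕ} {W c c' κ ε : ℝ} (h : Box F K F' Ω n V W c κ ε) (hW : 0 ≤ W)
    (hκ : 0 ≤ κ) (hc' : 0 ≤ c') (hc : 2 * κ + (2 * L + 2) * (L + 2) * c' ≤ c) (d d' : ℝ) :
    Box (H89.rev F) (K.rv d d') (H89.rev F') ((fun ω j => ω (-j)) '' Ω) n V ((L + 2) * W) c'
      (2 * κ) (ε / (2 * L + 2)) := by
  classical
  have hL := ha.le_L
  have hcl := ha.close_rev ha' h.close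
  refine ⟨h.fin.image _, ?_, ?_, ?_, ?_, ?_⟩
  · rintro _ ⟨ω, hω, rfl⟩
    exact KL2.neg_mem' d d' (h.sub hω)
  · rintro _ ⟨ω, hω, rfl⟩ _ ⟨ω', hω', rfl⟩ i hi
    rw [KL2.rv_pt hk d d' (h.sub hω), KL2.rv_P hk d d' (h.sub hω'),
      div_le_iff₀ (by positivity), mul_comm]
    exact (h.ret ω hω ω' hω' (-i) (by rwa [dvd_neg])).trans (KL2.sg_inv_lip ha _ _)
  · intro z hz
    rw [← ha.sg_sg' z]
    refine ha.rev_eq ha' (h.off _ fun ω hω m => ?_)
    by_contra hc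
    have h1 := hz _ ⟨ω, hω, rfl⟩ (m.1, 22 * m.1 - m.2)
    rw [KL2.rv_P hk d d' (h.sub hω)] at h1
    have h2 := ha.sg_lip (sg (H89.rev F) z) (K.P ω + iv m)
    rw [ha.sg_sg', ha.sg_iv, add_comm (sg F _), ← sub_sub, add_comm (K.P ω), ← sub_sub] at h2
    have h3 := mul_le_mul_of_nonneg_left (not_lt.1 hc) (show 0 ≤ L + 2 by linarith)
    linarith
  · intro z
    refine (hcl z).trans ?_
    have : 0 ≤ κ * W := by positivity
    nlinarith
  · rintro _ ⟨ω, hω, rfl⟩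
    obtain ⟨S, h1, h2, h3⟩ := h.cells ω hω
    refine ⟨S.image fun A => (sg F' '' A.1, rva A.2), Finset.card_image_le.trans h1, ?_, ?_⟩
    · intro A hA
      obtain ⟨B, hB, rfl⟩ := Finset.mem_image.1 hA
      obtain ⟨b1, b2, b3⟩ := h2 B hB
      exact ha'.cell_rev b1 b2 b3
    · intro w hw
      rw [KL2.rv_P hk d d' (h.sub hω)] at hw
      have a1 := ha.rev.sg_lip w (sg F (K.P ω))
      rw [ha.sg_sg] at a1
      have a2 : ‖sg (H89.rev F') w - sg (H89.rev F) w‖ ≤ 2 * (κ * W) := by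
        simp only [sg, Prod.mk_sub_mk, sub_self, Prod.norm_def, norm_zero, Real.norm_eq_abs]
        exact max_le (by positivity) (hcl w)
      have a3 := norm_sub_le_norm_sub_add_norm_sub (sg (H89.rev F') w) (sg (H89.rev F) w) (K.P ω)
      have a4 := mul_le_mul_of_nonneg_left hw (show 0 ≤ 2 * L + 2 by linarith)
      have a5 := mul_le_mul_of_nonneg_right hc hW
      obtain ⟨A, hA, hp⟩ := h3 (sg (H89.rev F') w) (by linarith)
      exact ⟨_, Finset.mem_image_of_mem _ hA, _, hp, ha'.sg_sg' w⟩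

/-- Off the closed boxes the maps agree in a neighbourhood (finitely many centres, `finite_iv`). -/
theorem Box.off_nhds {F' : E → ℝ} {Ω : Set (ℤ → ℕ)} {n V : ℕ} {W c κ ε : ℝ}
    (h : Box F K F' Ω n V W c κ ε) {p : E} (hp : ∀ ω ∈ Ω, ∀ m, W < ‖p - iv m - K.P ω‖) :
    ∀ᶠ z in 𝓝 p, F' z = F z := by
  have key : ∀ᶠ z in 𝓝 p, ∀ ω ∈ Ω, ∀ m, W < ‖z - iv m - K.P ω‖ := by
    rw [eventually_all_finite h.fin]
    intro ω hω
    have h1 : ∀ᶠ z in 𝓝 p, ∀ m ∈ {m : ℤ × ℤ | ‖iv m‖ ≤ ‖p‖ + 1 + ‖K.P ω‖ + W},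
        W < ‖z - iv m - K.P ω‖ := by
      rw [eventually_all_finite (finite_iv _)]
      intro m _
      have ho : IsOpen {z : E | W < ‖z - iv m - K.P ω‖} :=
        isOpen_lt continuous_const (by fun_prop)
      exact ho.mem_nhds (hp ω hω m)
    filter_upwards [h1, Metric.ball_mem_nhds p one_pos] with z hz hb m
    by_contra hc
    refine hc (hz m ?_)
    rw [mem_ball_iff_norm] at hb
    have e : iv m = p + (z - p) - K.P ω - (z - iv m - K.P ω) := by abel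
    show ‖iv m‖ ≤ _
    rw [e]
    linarith [norm_sub_le (p + (z - p) - K.P ω) (z - iv m - K.P ω),
      norm_sub_le (p + (z - p)) (K.P ω), norm_add_le p (z - p), not_lt.1 hc]
  filter_upwards [key] with z hz using h.off z hz

/-- A point close to the orbit of a centre at a time that is not a multiple of `n` is in no box. -/
theorem Box.not_mem (hk : KOK F K) {F' : E → ℝ} {Ω : Set (ℤ → ℕ)} {n V : ℕ} {W c κ ε : ℝ}
    (h : Box F K F' Ω n V W c κ ε) {ω : ℤ → ℕ} (hω : ω ∈ Ω) {i : ℤ} (hi : ¬ (n : ℤ) ∣ i) {p : E}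
    {ρ : ℝ} (hp : ‖p - pt (K.Y ω) i‖ ≤ ρ) (h1 : ρ + W < ε) (h2 : ρ + W ≤ 1 / 2) :
    ∀ ω' ∈ Ω, ∀ m, W < ‖p - iv m - K.P ω'‖ := by
  intro ω' hω' m
  by_contra hc
  rw [not_lt] at hc
  obtain ⟨ρ0, hρ0, hs⟩ := hk.small
  have n1 : ‖pt (K.Y ω) i‖ ≤ ρ0 := KLem.norm_pt_le.2 ⟨hs ω (h.sub hω) _, hs ω (h.sub hω) _⟩
  have n2 : ‖K.P ω'‖ ≤ ρ0 := KLem.norm_pt_le.2 ⟨hs ω' (h.sub hω') _, hs ω' (h.sub hω') _⟩
  have i0 : iv 0 = 0 := by simp [iv]
  have hm : m = 0 := by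
    refine iv_eq_of_norm_lt ?_
    have e : iv m - iv 0 = pt (K.Y ω) i + (p - pt (K.Y ω) i) - K.P ω' - (p - iv m - K.P ω') := by
      rw [i0]; abel
    rw [e]
    linarith [norm_sub_le (pt (K.Y ω) i + (p - pt (K.Y ω) i) - K.P ω') (p - iv m - K.P ω'),
      norm_sub_le (pt (K.Y ω) i + (p - pt (K.Y ω) i)) (K.P ω'),
      norm_add_le (pt (K.Y ω) i) (p - pt (K.Y ω) i)]
  rw [hm, i0, sub_zero] at hc
  have := h.ret ω hω ω' hω' i hi
  have t := norm_sub_le_norm_sub_add_norm_sub (pt (K.Y ω) i) p (K.P ω')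
  rw [norm_sub_rev (pt (K.Y ω) i) p] at t
  linarith

end Pool.Agent.MP_369096_an.H89
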