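import Pool.Agent.MP_369096_an.H89.SegL
import Pool.Agent.MP_369096_an.H89.Coc1

/-!
TASK KLem. Geometry of a coded horseshoe. Auxiliary lemmas go in namespace `H89.KLem`.
With `e = u 1 - s 1` one has `dt (pt u i) (pt s i) = e` for all `i`. For a sequence `ξ` put
`β i = dt (pt ξ i) (pt s i) / e`, `γ i = dt (pt u i) (pt ξ i) / e`; then `pt ξ i = β i • pt u i + γ i • pt s i`, and if
`ξ (i+1) = a i ξ i - ξ (i-1) + f i` then `β (i+1) = β i + f i s i / e`, `γ (i+1) = γ i - f i u i / e`.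
Since `u (i+q) = μ u i`, `μ s (i+q) = s i`, there is `B` with `‖pt u i‖ ‖pt s j‖ ≤ B μ^((i-j)/q)` up to rounding.
-/

set_option autoImplicit false

open Set Filter Topology

namespace Pool.Agent.MP_369096_an.H89

variable {F : E → ℝ} {L : ℝ} {K : KD}

theorem EOK.wr {q : ℕ} {a u s : ℤ → ℝ} {μ : ℝ} (h : EOK q a u s μ) (i : ℤ) :
    dt (pt u i) (pt s i) = u 1 - s 1 := by
  have st : ∀ j : ℤ, dt (pt u (j + 1)) (pt s (j + 1)) = dt (pt u j) (pt s j) := by
    intro j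
    simp only [dt, pt, add_sub_cancel_right]
    rw [h.usol j, h.ssol j]
    ring
  have h0 : dt (pt u 0) (pt s 0) = u 1 - s 1 := by
    rw [← st 0]
    simp [dt, pt, h.u0, h.s0]
  induction i using Int.induction_on with
  | zero => exact h0
  | succ n ih => rw [st, ih]
  | pred n ih => rw [← st, sub_add_cancel, ih]

theorem EOK.upow {q : ℕ} {a u s : ℤ → ℝ} {μ : ℝ} (h : EOK q a u s μ) (i t : ℤ) :
    u (i + t * q) = μ ^ t * u i ∧ s (i + t * q) = μ ^ (-t) * s i ∧ a (i + t * q) = a i := by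
  have hμ : μ ≠ 0 := by linarith [h.mu]
  induction t using Int.induction_on with
  | zero => simp
  | succ n ih =>
    obtain ⟨h1, h2, h3⟩ := ih
    have e : i + ((n : ℤ) + 1) * q = i + n * q + q := by ring
    refine ⟨?_, ?_, ?_⟩
    · rw [e, h.uper, h1, zpow_add_one₀ hμ]
      ring
    · have := h.sper (i + n * q)
      rw [h2] at this
      rw [e, neg_add, ← sub_eq_add_neg, zpow_sub_one₀ hμ]
      field_simp
      linarith
    · rw [e, h.aper, h3]
  | pred n ih =>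
    obtain ⟨h1, h2, h3⟩ := ih
    have e : i + (-(n : ℤ)) * q = i + (-(n : ℤ) - 1) * q + q := by ring
    rw [e] at h1 h2 h3
    refine ⟨?_, ?_, ?_⟩
    · rw [h.uper] at h1
      rw [zpow_sub_one₀ hμ]
      field_simp
      linarith
    · rw [← h.sper, h2, neg_sub, sub_eq_add_neg, add_comm, zpow_add_one₀ hμ]
      ring
    · rw [← h.aper, h3]

namespace KLem

theorem pt_sub (x y : ℤ → ℝ) (i : ℤ) : pt (fun t => x t - y t) i = pt x i - pt y i := rfl

theorem pt_shift (x : ℤ → ℝ) (i j : ℤ) : pt (fun t => x (i + t)) j = pt x (i + j) := by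
  simp only [pt, add_sub_assoc]

theorem norm_pt_le {x : ℤ → ℝ} {i : ℤ} {r : ℝ} : ‖pt x i‖ ≤ r ↔ |x i| ≤ r ∧ |x (i - 1)| ≤ r := by
  simp only [pt, Prod.norm_def, Real.norm_eq_abs, max_le_iff]

/-- Bounds with a real rate per step. -/
theorem rate {q : ℕ} {a u s : ℤ → ℝ} {μ : ℝ} (h : EOK q a u s μ) : ∃ ν A : ℝ, 1 < ν ∧ 0 ≤ A ∧
    (∀ k : ℕ, ν ^ ((k : ℤ) * q) = μ ^ k) ∧ ∀ i : ℤ, ‖pt u i‖ ≤ A * ν ^ i ∧ ‖pt s i‖ ≤ A * ν ^ (-i) := by
  have hμ : 0 < μ := by linarith [h.mu]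
  have hq : (q : ℤ) ≠ 0 := by have := h.qpos; omega
  have hq' : q ≠ 0 := h.qpos.ne'
  obtain ⟨ν, hν0, hνq⟩ : ∃ ν : ℝ, 0 < ν ∧ ν ^ q = μ :=
    ⟨μ ^ ((q : ℝ)⁻¹), Real.rpow_pos_of_pos hμ _, Real.rpow_inv_natCast_pow hμ.le hq'⟩
  have hν : 1 < ν := by
    by_contra hc
    have := pow_le_one₀ (n := q) hν0.le (not_lt.1 hc)
    linarith [h.mu]
  have hz : ∀ t : ℤ, ν ^ (t * q) = μ ^ t := by
    intro t
    rw [mul_comm, zpow_mul, zpow_natCast, hνq]
  obtain ⟨A, hA⟩ := ((Set.finite_Ico (0 : ℤ) q).image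
    fun i => ‖pt u i‖ * ν ^ (-i) + ‖pt s i‖ * ν ^ i).bddAbove
  have hA' : ∀ i : ℤ, 0 ≤ i → i < q → ‖pt u i‖ * ν ^ (-i) + ‖pt s i‖ * ν ^ i ≤ A :=
    fun i h1 h2 => hA ⟨i, ⟨h1, h2⟩, rfl⟩
  refine ⟨ν, A, hν, ?_, fun k => by rw [hz, zpow_natCast], fun i => ?_⟩
  · refine le_trans ?_ (hA' 0 le_rfl (by have := h.qpos; omega))
    positivity
  · obtain ⟨j, t, h1, h2, rfl⟩ : ∃ j t : ℤ, 0 ≤ j ∧ j < q ∧ i = j + t * q :=
      ⟨i % q, i / q, Int.emod_nonneg _ hq, Int.emod_lt_of_pos _ (by have := h.qpos; omega),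
        (Int.emod_add_ediv_mul i q).symm⟩
    have e : j + t * q - 1 = j - 1 + t * q := by ring
    have eu : pt u (j + t * q) = μ ^ t • pt u j := by
      simp only [pt, e, (h.upow _ t).1, Prod.smul_mk, smul_eq_mul]
    have es : pt s (j + t * q) = μ ^ (-t) • pt s j := by
      simp only [pt, e, (h.upow _ t).2.1, Prod.smul_mk, smul_eq_mul]
    have p1 : 0 < ν ^ j := zpow_pos hν0 _
    have p2 : 0 < ν ^ (-j) := zpow_pos hν0 _
    have p3 : ν ^ (-j) * ν ^ j = 1 := by rw [← zpow_add₀ hν0.ne']; simp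
    have b := hA' j h1 h2
    have n1 : 0 ≤ ‖pt u j‖ * ν ^ (-j) := by positivity
    have n2 : 0 ≤ ‖pt s j‖ * ν ^ j := by positivity
    constructor
    · rw [eu, norm_smul, Real.norm_of_nonneg (zpow_pos hμ t).le, zpow_add₀ hν0.ne', hz]
      have : ‖pt u j‖ ≤ A * ν ^ j := by
        calc ‖pt u j‖ = ‖pt u j‖ * ν ^ (-j) * ν ^ j := by rw [mul_assoc, p3, mul_one]
          _ ≤ A * ν ^ j := mul_le_mul_of_nonneg_right (by linarith) p1.le
      calc μ ^ t * ‖pt u j‖ ≤ μ ^ t * (A * ν ^ j) :=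
            mul_le_mul_of_nonneg_left this (zpow_pos hμ t).le
        _ = _ := by ring
    · rw [es, norm_smul, Real.norm_of_nonneg (zpow_pos hμ _).le, neg_add, zpow_add₀ hν0.ne',
        ← neg_mul, hz]
      have : ‖pt s j‖ ≤ A * ν ^ (-j) := by
        calc ‖pt s j‖ = ‖pt s j‖ * ν ^ j * ν ^ (-j) := by
              rw [mul_assoc, mul_comm (ν ^ j), p3, mul_one]
          _ ≤ A * ν ^ (-j) := mul_le_mul_of_nonneg_right (by linarith) p2.le
      calc μ ^ (-t) * ‖pt s j‖ ≤ μ ^ (-t) * (A * ν ^ (-j)) :=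
            mul_le_mul_of_nonneg_left this (zpow_pos hμ _).le
        _ = _ := by ring

/-- Telescoping of increments. -/
theorem tele {b g : ℤ → ℝ} {i j : ℤ} (hij : i ≤ j)
    (h : ∀ t, i ≤ t → t < j → |b (t + 1) - b t| ≤ g (t + 1) - g t) : |b j - b i| ≤ g j - g i := by
  induction j, hij using Int.leInduction with
  | base => simp
  | succ n hn ih =>
    have h1 := ih fun t a b => h t a (by omega)
    have h2 := h n hn (by omega)
    have h3 := abs_sub_le (b (n + 1)) (b n) (b i)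
    linarith

theorem tele' {b g : ℤ → ℝ} {i j : ℤ}
    (h : ∀ t, min i j ≤ t → t < max i j → |b (t + 1) - b t| ≤ g (t + 1) - g t) :
    |b j - b i| ≤ |g j| + |g i| := by
  rcases le_total i j with hij | hij
  · rw [min_eq_left hij, max_eq_right hij] at h
    have := tele hij h
    linarith [le_abs_self (g j), neg_abs_le (g i)]
  · rw [min_eq_right hij, max_eq_left hij] at h
    have := tele hij h
    rw [abs_sub_comm]
    linarith [le_abs_self (g i), neg_abs_le (g j)]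

theorem decomp {q : ℕ} {a u s : ℤ → ℝ} {μ : ℝ} (h : EOK q a u s μ) (v : E) (i : ℤ) :
    (u 1 - s 1) * ‖v‖ ≤ |dt v (pt s i)| * ‖pt u i‖ + |dt (pt u i) v| * ‖pt s i‖ := by
  have := dt_id (pt u i) (pt s i) v
  rw [h.wr] at this
  calc (u 1 - s 1) * ‖v‖ = ‖(u 1 - s 1) • v‖ := by
        rw [norm_smul, Real.norm_of_nonneg h.epos.le]
    _ ≤ _ := by
        rw [this]
        refine (norm_add_le _ _).trans ?_
        rw [norm_smul, norm_smul, Real.norm_eq_abs, Real.norm_eq_abs]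

theorem b_step {q : ℕ} {a u s : ℤ → ℝ} {μ : ℝ} (h : EOK q a u s μ) (ξ : ℤ → ℝ) (t : ℤ) :
    dt (pt ξ (t + 1)) (pt s (t + 1)) - dt (pt ξ t) (pt s t) =
      (ξ (t + 1) - (a t * ξ t - ξ (t - 1))) * s t := by
  simp only [dt, pt, add_sub_cancel_right]
  rw [h.ssol t]
  ring

theorem c_step {q : ℕ} {a u s : ℤ → ℝ} {μ : ℝ} (h : EOK q a u s μ) (ξ : ℤ → ℝ) (t : ℤ) :
    dt (pt u (t + 1)) (pt ξ (t + 1)) - dt (pt u t) (pt ξ t) =
      -((ξ (t + 1) - (a t * ξ t - ξ (t - 1))) * u t) := by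
  simp only [dt, pt, add_sub_cancel_right]
  rw [h.usol t]
  ring

end KLem

/-- Growth of approximate solutions: errors of size `r` at all times sum as a geometric series. -/
theorem EOK.growth {q : ℕ} {a u s : ℤ → ℝ} {μ : ℝ} (h : EOK q a u s μ) : ∃ B ≥ 1,
    ∀ (ξ : ℤ → ℝ) (i j : ℤ) (k : ℕ) (r : ℝ), |j - i| ≤ k * q → ‖pt ξ i‖ ≤ r →
      (∀ t, min i j ≤ t → t < max i j → |ξ (t + 1) - (a t * ξ t - ξ (t - 1))| ≤ r) →
      ‖pt ξ j‖ ≤ B * r * μ ^ k := by
  obtain ⟨ν, A, hν, hA, hk, hb⟩ := KLem.rate h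
  have hν0 : 0 < ν := by linarith
  have he := h.epos
  obtain ⟨w, hw0, hw⟩ : ∃ w : ℝ, 0 < w ∧ w * (ν - 1) = 1 :=
    ⟨(ν - 1)⁻¹, inv_pos.2 (by linarith), inv_mul_cancel₀ (by linarith)⟩
  refine ⟨max 1 (A * A * (4 + 2 * w * ν + 2 * w) / (u 1 - s 1)), le_max_left _ _, ?_⟩
  intro ξ i j k r hij hi hf
  have hr : 0 ≤ r := (norm_nonneg _).trans hi
  have hM : 1 ≤ μ ^ k := one_le_pow₀ h.mu.le
  have m1 : ν ^ (-i) * ν ^ j ≤ μ ^ k := by
    rw [← zpow_add₀ hν0.ne', ← hk]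
    exact zpow_le_zpow_right₀ hν.le (by have := le_abs_self (j - i); omega)
  have m2 : ν ^ i * ν ^ (-j) ≤ μ ^ k := by
    rw [← zpow_add₀ hν0.ne', ← hk]
    exact zpow_le_zpow_right₀ hν.le (by have := neg_abs_le (j - i); omega)
  have m3 : ν ^ (-j) * ν ^ j = 1 := by rw [← zpow_add₀ hν0.ne']; simp
  have pp : ∀ t : ℤ, 0 < ν ^ t := fun t => zpow_pos hν0 t
  have b1 : |dt (pt ξ j) (pt s j) - dt (pt ξ i) (pt s i)| ≤
      |-(r * A * w * ν * ν ^ (-j))| + |-(r * A * w * ν * ν ^ (-i))| := by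
    refine KLem.tele' (b := fun t => dt (pt ξ t) (pt s t))
      (g := fun t => -(r * A * w * ν * ν ^ (-t))) fun t h1 h2 => ?_
    rw [KLem.b_step h, abs_mul]
    have e : ν ^ (-t) = ν ^ (-(t + 1)) * ν := by
      rw [← zpow_add_one₀ hν0.ne']; congr 1; ring
    have : -(r * A * w * ν * ν ^ (-(t + 1))) - -(r * A * w * ν * ν ^ (-t)) =
        r * (A * ν ^ (-t)) := by
      rw [e]
      linear_combination (r * A * ν * ν ^ (-(t + 1))) * hw
    rw [this]
    exact mul_le_mul (hf t h1 h2) (KLem.norm_pt_le.1 (hb t).2).1 (abs_nonneg _) hr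
  have c1 : |dt (pt u j) (pt ξ j) - dt (pt u i) (pt ξ i)| ≤
      |r * A * w * ν ^ j| + |r * A * w * ν ^ i| := by
    refine KLem.tele' (b := fun t => dt (pt u t) (pt ξ t))
      (g := fun t => r * A * w * ν ^ t) fun t h1 h2 => ?_
    rw [KLem.c_step h, abs_neg, abs_mul]
    have : r * A * w * ν ^ (t + 1) - r * A * w * ν ^ t = r * (A * ν ^ t) := by
      rw [zpow_add_one₀ hν0.ne']
      linear_combination (r * A * ν ^ t) * hw
    rw [this]
    exact mul_le_mul (hf t h1 h2) (KLem.norm_pt_le.1 (hb t).1).1 (abs_nonneg _) hr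
  have q1 := pp (-j)
  have q2 := pp (-i)
  have q3 := pp j
  have q4 := pp i
  rw [abs_neg, abs_neg, abs_of_nonneg (a := r * A * w * ν * ν ^ (-j)) (by positivity),
    abs_of_nonneg (a := r * A * w * ν * ν ^ (-i)) (by positivity)] at b1
  rw [abs_of_nonneg (a := r * A * w * ν ^ j) (by positivity),
    abs_of_nonneg (a := r * A * w * ν ^ i) (by positivity)] at c1
  have b0 : |dt (pt ξ i) (pt s i)| ≤ 2 * r * (A * ν ^ (-i)) :=
    (abs_dt_le _ _).trans (mul_le_mul (by linarith) (hb i).2 (norm_nonneg _) (by positivity))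
  have c0 : |dt (pt u i) (pt ξ i)| ≤ 2 * (A * ν ^ i) * r :=
    (abs_dt_le _ _).trans (mul_le_mul (by linarith [(hb i).1]) hi (norm_nonneg _) (by positivity))
  have b2 : |dt (pt ξ j) (pt s j)| ≤
      r * A * ((2 + w * ν) * ν ^ (-i) + w * ν * ν ^ (-j)) := by
    have := abs_sub_abs_le_abs_sub (dt (pt ξ j) (pt s j)) (dt (pt ξ i) (pt s i))
    linarith
  have c2 : |dt (pt u j) (pt ξ j)| ≤ r * A * ((2 + w) * ν ^ i + w * ν ^ j) := by
    have := abs_sub_abs_le_abs_sub (dt (pt u j) (pt ξ j)) (dt (pt u i) (pt ξ i))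
    linarith
  have b3 := mul_le_mul b2 (hb j).1 (norm_nonneg _) (by positivity)
  have c3 := mul_le_mul c2 (hb j).2 (norm_nonneg _) (by positivity)
  have b4 : r * A * ((2 + w * ν) * ν ^ (-i) + w * ν * ν ^ (-j)) * (A * ν ^ j) ≤
      r * A * A * ((2 + w * ν) * μ ^ k + w * ν * μ ^ k) := by
    calc _ = r * A * A * ((2 + w * ν) * (ν ^ (-i) * ν ^ j) + w * ν * (ν ^ (-j) * ν ^ j)) := by ring
      _ ≤ _ := by rw [m3]; gcongr
  have c4 : r * A * ((2 + w) * ν ^ i + w * ν ^ j) * (A * ν ^ (-j)) ≤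
      r * A * A * ((2 + w) * μ ^ k + w * μ ^ k) := by
    calc _ = r * A * A * ((2 + w) * (ν ^ i * ν ^ (-j)) + w * (ν ^ (-j) * ν ^ j)) := by ring
      _ ≤ _ := by rw [m3]; gcongr
  have d := KLem.decomp h (pt ξ j) j
  calc ‖pt ξ j‖ ≤ A * A * (4 + 2 * w * ν + 2 * w) / (u 1 - s 1) * r * μ ^ k := by
        rw [div_mul_eq_mul_div, div_mul_eq_mul_div, le_div_iff₀ he]
        linarith
    _ ≤ _ := by gcongr; exact le_max_right _ _

/-- Decay of exact solutions in the middle of a window. -/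
theorem EOK.decay {q : ℕ} {a u s : ℤ → ℝ} {μ : ℝ} (h : EOK q a u s μ) : ∃ B ≥ 1,
    ∀ (ξ : ℤ → ℝ) (i : ℤ) (k : ℕ) (r : ℝ),
      (∀ t, i - k * q ≤ t → t < i + k * q → ξ (t + 1) = a t * ξ t - ξ (t - 1)) →
      ‖pt ξ (i - k * q)‖ ≤ r → ‖pt ξ (i + k * q)‖ ≤ r → ‖pt ξ i‖ * μ ^ k ≤ B * r := by
  obtain ⟨ν, A, hν, hA, hk, hb⟩ := KLem.rate h
  have hν0 : 0 < ν := by linarith
  have he := h.epos
  refine ⟨max 1 (A * A * 4 / (u 1 - s 1)), le_max_left _ _, ?_⟩
  intro ξ i k r hf h1 h2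
  have hr : 0 ≤ r := (norm_nonneg _).trans h1
  have hkq : (0 : ℤ) ≤ k * q := by positivity
  have pp : ∀ t : ℤ, 0 < ν ^ t := fun t => zpow_pos hν0 t
  have hM : 0 < μ ^ k := pow_pos (by linarith [h.mu]) _
  have b1 := KLem.tele (b := fun t => dt (pt ξ t) (pt s t)) (g := fun _ => 0) (i := i)
    (j := i + k * q) (by omega) fun t a b => by
      rw [KLem.b_step h, hf t (by omega) b]; simp
  have c1 := KLem.tele (b := fun t => dt (pt u t) (pt ξ t)) (g := fun _ => 0) (i := i - k * q)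
    (j := i) (by omega) fun t a b => by
      rw [KLem.c_step h, hf t a (by omega)]; simp
  simp only [sub_self, abs_nonpos_iff, sub_eq_zero] at b1 c1
  have q1 := pp (-(i + k * q))
  have q2 := pp (i - k * q)
  have b0 : |dt (pt ξ i) (pt s i)| ≤ 2 * r * (A * ν ^ (-(i + k * q))) := by
    rw [← b1]
    exact (abs_dt_le _ _).trans
      (mul_le_mul (by linarith) (hb _).2 (norm_nonneg _) (by positivity))
  have c0 : |dt (pt u i) (pt ξ i)| ≤ 2 * (A * ν ^ (i - k * q)) * r := by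
    rw [c1]
    exact (abs_dt_le _ _).trans
      (mul_le_mul (by linarith [(hb (i - k * q)).1]) h1 (norm_nonneg _) (by positivity))
  have b3 := mul_le_mul b0 (hb i).1 (norm_nonneg _) (by positivity)
  have c3 := mul_le_mul c0 (hb i).2 (norm_nonneg _) (by positivity)
  have m1 : ν ^ (-(i + k * q)) * ν ^ i * μ ^ k = 1 := by
    rw [← hk, ← zpow_add₀ hν0.ne', ← zpow_add₀ hν0.ne']
    rw [show -(i + k * q) + i + k * q = (0 : ℤ) by ring, zpow_zero]
  have m2 : ν ^ (i - k * q) * ν ^ (-i) * μ ^ k = 1 := by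
    rw [← hk, ← zpow_add₀ hν0.ne', ← zpow_add₀ hν0.ne']
    rw [show i - k * q + -i + k * q = (0 : ℤ) by ring, zpow_zero]
  have d := mul_le_mul_of_nonneg_right
    ((KLem.decomp h (pt ξ i) i).trans (add_le_add b3 c3)) hM.le
  have e : (2 * r * (A * ν ^ (-(i + k * q))) * (A * ν ^ i) +
      2 * (A * ν ^ (i - k * q)) * r * (A * ν ^ (-i))) * μ ^ k = A * A * 4 * r := by
    linear_combination (2 * r * A * A) * m1 + (2 * r * A * A) * m2
  calc ‖pt ξ i‖ * μ ^ k ≤ A * A * 4 / (u 1 - s 1) * r := by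
        rw [div_mul_eq_mul_div, le_div_iff₀ he]
        linarith
    _ ≤ _ := by gcongr; exact le_max_right _ _

theorem KOK.orb (hk : KOK F K) {ω : ℤ → ℕ} (hω : ω ∈ K.X) : Orb F (K.Y ω) := by
  intro i
  have := hk.aff ω hω i (pt (K.Y ω) i) (by simpa using hk.dpos.le)
  rw [this]
  simp [lin]

theorem KOK.aff_near (hk : KOK F K) {ω : ℤ → ℕ} (hω : ω ∈ K.X) (i : ℤ) {z : E}
    (hz : ‖z - pt (K.Y ω) i‖ < K.dl) :
    Aff F z (K.co i, K.Y ω (i + 1) - lin (K.co i) (pt (K.Y ω) i)) := by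
  have ho : IsOpen {w : E | ‖w - pt (K.Y ω) i‖ < K.dl} :=
    isOpen_lt (by fun_prop) continuous_const
  filter_upwards [ho.mem_nhds hz] with w hw
  rw [hk.aff ω hω i w (le_of_lt hw)]
  simp only [ev, lin, Prod.fst_sub, Prod.snd_sub]
  ring

theorem KOK.itin (hk : KOK F K) {ω : ℤ → ℕ} (hω : ω ∈ K.X) : Itin F (K.Y ω) K.co :=
  ⟨hk.orb hω, fun i => ⟨_, (hk.aff_near hω i (by simpa using hk.dpos)).germ⟩⟩

theorem KOK.exists_mem (hk : KOK F K) : ∃ ω, ω ∈ K.X := by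
  choose ω hω using hk.Dne
  exact ⟨ω, hω⟩

theorem KOK.sol_u (hk : KOK F K) : Sol K.co K.u := by
  intro i
  rw [hk.eok.usol i]
  simp only [lin, KD.co, pt]
  ring

theorem KOK.sol_s (hk : KOK F K) : Sol K.co K.s := by
  intro i
  rw [hk.eok.ssol i]
  simp only [lin, KD.co, pt]
  ring

theorem KOK.unst (hk : KOK F K) {C l : ℝ} (hh : HYP F C l) (hl : 1 < l) : Unst C l K.u := by
  obtain ⟨ω, hω⟩ := hk.exists_mem
  obtain ⟨ν, A, hν, hA, -, hb⟩ := KLem.rate hk.eok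
  refine (hh _ _ (hk.itin hω)).unst_of (B := A) (i0 := 0) zero_le_one hl hk.sol_u fun n => ?_
  rw [one_pow]
  exact (hb _).1.trans (mul_le_mul_of_nonneg_left (zpow_le_one_of_nonpos₀ hν.le (by omega)) hA)

theorem KOK.stab (hk : KOK F K) {C l : ℝ} (hh : HYP F C l) (hl : 1 < l) : Stab C l K.s := by
  obtain ⟨ω, hω⟩ := hk.exists_mem
  obtain ⟨ν, A, hν, hA, -, hb⟩ := KLem.rate hk.eok
  refine (hh _ _ (hk.itin hω)).stab_of (B := A) (i0 := 0) zero_le_one hl hk.sol_s fun n => ?_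
  rw [one_pow]
  exact (hb _).2.trans (mul_le_mul_of_nonneg_left (zpow_le_one_of_nonpos₀ hν.le (by omega)) hA)

theorem KOK.Dpow (hk : KOK F K) (i t : ℤ) : K.D (i + t * K.q) = K.D i :=
  (Function.Periodic.int_mul (f := K.D) (c := (K.q : ℤ)) hk.Dper t) i

theorem KOK.shift_mem (hk : KOK F K) {ω : ℤ → ℕ} (hω : ω ∈ K.X) (t : ℤ) :
    (fun j => ω (j + t * K.q)) ∈ K.X := fun j => by
  rw [← hk.Dpow j t]
  exact hω _

theorem KOK.shift_pow (hk : KOK F K) {ω : ℤ → ℕ} (hω : ω ∈ K.X) (t i : ℤ) :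
    K.Y (fun j => ω (j + t * K.q)) i = K.Y ω (i + t * K.q) := by
  have st : ∀ t i : ℤ, K.Y (fun j => ω (j + (t + 1) * K.q)) i =
      K.Y (fun j => ω (j + t * K.q)) (i + K.q) := by
    intro t i
    rw [← hk.shift _ (hk.shift_mem hω t) i]
    congr 1
    funext j
    congr 1
    ring
  induction t using Int.induction_on generalizing i with
  | zero => simp
  | succ n ih =>
    rw [st, ih]
    congr 1
    ring
  | pred n ih =>
    have := st (-(n : ℤ) - 1) (i - K.q)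
    rw [sub_add_cancel, sub_add_cancel, ih] at this
    rw [← this]
    congr 1
    ring

/-- Shadowing. Induction on `|i|`: as long as the deviation is within the margin it is an
approximate solution of the linear recurrence. Backward step: let `y` solve the affine equation at
index `t` exactly; `(x t, y)` is within the margin (take `c` larger by the factor `L + 2`), so
`F (x t, y) = x (t+1)` and `|x (t-1) - y| ≤ 2 r` by `Adm.lo`. -/
theorem KOK.shadow (ha : Adm F L 2) (hk : KOK F K) : ∃ c ≥ 1, ∀ ω ∈ K.X, ∀ (i0 : ℤ) (k : ℕ) (r : ℝ)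
    (x : ℤ → ℝ), POrb F r x → ‖pt x 0 - pt (K.Y ω) i0‖ ≤ r → c * r * K.μ ^ k ≤ K.dl →
      ∀ i : ℤ, |i| ≤ k * K.q → ‖pt x i - pt (K.Y ω) (i0 + i)‖ ≤ c * r * K.μ ^ k := by
  obtain ⟨B, hB, hg⟩ := hk.eok.growth
  have hL := ha.le_L
  refine ⟨2 * B * (L + 1), by nlinarith, ?_⟩
  intro ω hω i0 k r x hx h0 hc
  have hr : 0 ≤ r := (norm_nonneg _).trans h0
  have hM : 0 < K.μ ^ k := pow_pos (by linarith [hk.eok.mu]) _
  obtain ⟨ξ, hξ⟩ : ∃ ξ : ℤ → ℝ, ξ = fun t => x (t - i0) - K.Y ω t := ⟨_, rfl⟩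
  have hpt : ∀ t, pt ξ t = pt x (t - i0) - pt (K.Y ω) t := by
    intro t
    simp only [hξ, pt, Prod.mk_sub_mk, sub_right_comm t 1 i0]
  obtain ⟨R, hR⟩ : ∃ R, R = B * (2 * r) * K.μ ^ k := ⟨_, rfl⟩
  have hR0 : 0 ≤ R := by rw [hR]; positivity
  have hRc : 2 * B * (L + 1) * r * K.μ ^ k = (L + 1) * R := by rw [hR]; ring
  rw [hRc] at hc ⊢
  have hRd : R ≤ (L + 1) * R := by nlinarith
  have fwd : ∀ t, ‖pt ξ t‖ ≤ R → |ξ (t + 1) - (K.a t * ξ t - ξ (t - 1))| ≤ 2 * r := by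
    intro t ht
    have h1 := hk.aff ω hω t (pt x (t - i0)) (by rw [← hpt]; linarith)
    have h2 := hx (t - i0)
    rw [h1, ← hpt] at h2
    have : ξ (t + 1) - (K.a t * ξ t - ξ (t - 1)) =
        x (t - i0 + 1) - (K.Y ω (t + 1) + lin (K.co t) (pt ξ t)) := by
      have e : ξ (t + 1) = x (t - i0 + 1) - K.Y ω (t + 1) := by
        simp only [hξ, add_sub_right_comm t 1 i0]
      rw [e]
      simp only [lin, KD.co, pt]
      ring
    rw [this]
    linarith
  have bwd : ∀ t, ‖pt ξ (t + 1)‖ ≤ R → |ξ (t + 1) - (K.a t * ξ t - ξ (t - 1))| ≤ 2 * r := by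
    intro t ht
    obtain ⟨n1, n2⟩ := KLem.norm_pt_le.1 ht
    rw [add_sub_cancel_right] at n2
    have haL : |K.a t| ≤ L := (ha.itin_bd (hk.itin hω) t).1
    obtain ⟨y, hy⟩ : ∃ y, y = K.Y ω (t - 1) + (K.a t * ξ t - ξ (t + 1)) := ⟨_, rfl⟩
    have e0 : (x (t - i0), y) - pt (K.Y ω) t = (ξ t, K.a t * ξ t - ξ (t + 1)) := by
      simp only [pt, Prod.mk_sub_mk, hy, add_sub_cancel_left]
      rw [hξ]
    have h1 := hk.aff ω hω t (x (t - i0), y) (by
      rw [e0, Prod.norm_def, Real.norm_eq_abs, Real.norm_eq_abs, max_le_iff]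
      refine ⟨by linarith, ?_⟩
      have a1 := abs_sub (K.a t * ξ t) (ξ (t + 1))
      rw [abs_mul] at a1
      have a2 := mul_le_mul haL n2 (abs_nonneg _) (by linarith)
      linarith)
    have e : ξ (t + 1) = x (t - i0 + 1) - K.Y ω (t + 1) := by
      simp only [hξ, add_sub_right_comm t 1 i0]
    have e' : ξ (t - 1) = x (t - i0 - 1) - K.Y ω (t - 1) := by
      simp only [hξ, sub_right_comm t 1 i0]
    have h2 : F (x (t - i0), y) = x (t - i0 + 1) := by
      rw [h1, e0]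
      simp only [lin, KD.co]
      linarith
    have h3 := hx (t - i0)
    rw [← h2] at h3
    simp only [pt] at h3
    have h4 : ξ (t + 1) - (K.a t * ξ t - ξ (t - 1)) = x (t - i0 - 1) - y := by
      rw [hy, e']
      ring
    rw [h4, abs_le]
    rw [abs_le] at h3
    rcases le_total y (x (t - i0 - 1)) with h5 | h5
    · have := ha.lo (x (t - i0)) _ _ h5
      constructor <;> linarith
    · have := ha.lo (x (t - i0)) _ _ h5
      constructor <;> linarith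
  have h00 : ‖pt ξ i0‖ ≤ 2 * r := by
    rw [hpt, sub_self]
    linarith
  have key : ∀ n : ℕ, (n : ℤ) ≤ k * K.q → ∀ t, |t - i0| ≤ n → ‖pt ξ t‖ ≤ R := by
    intro n
    induction n with
    | zero =>
      intro hn t ht
      rw [hR]
      refine hg ξ i0 t k (2 * r) (ht.trans hn) h00 fun τ a b => ?_
      rw [abs_le] at ht
      omega
    | succ n ih =>
      intro hn t ht
      rw [hR]
      refine hg ξ i0 t k (2 * r) (ht.trans hn) h00 fun τ a b => ?_
      rw [abs_le] at ht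
      rcases le_or_gt i0 τ with h1 | h1
      · exact fwd τ (ih (by omega) τ (by rw [abs_le]; omega))
      · exact bwd τ (ih (by omega) (τ + 1) (by rw [abs_le]; omega))
  intro i hi
  have := key i.natAbs (by rwa [Int.natCast_natAbs]) (i0 + i)
    (by rw [Int.natCast_natAbs, add_sub_cancel_left])
  rw [hpt, add_sub_cancel_left] at this
  linarith

/-- Close points have the same code on a long window. -/
theorem KOK.sepw (ha : Adm F L 2) (hk : KOK F K) : ∃ c > 0, ∀ (k : ℕ), ∀ ω ∈ K.X, ∀ ω' ∈ K.X,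
    ∀ i i' : ℤ, ‖pt (K.Y ω) i - pt (K.Y ω') i'‖ * K.μ ^ k ≤ c →
      (K.q : ℤ) ∣ i - i' ∧ ∀ j : ℤ, |j| ≤ k * K.q → ω (i + j) = ω' (i' + j) := by
  obtain ⟨c, hc, hs⟩ := hk.shadow ha
  have hc0 : 0 < c := by linarith
  have hd := hk.dpos
  have hsp := hk.spos
  refine ⟨min K.dl (K.sp / 2) / c, by positivity, ?_⟩
  intro k ω hω ω' hω' i i' h
  rw [le_div_iff₀ hc0, le_min_iff] at h
  have key : ∀ j : ℤ, |j| ≤ k * K.q → (K.q : ℤ) ∣ (i + j) - (i' + j) ∧ ω (i + j) = ω' (i' + j) := by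
    intro j hj
    refine hk.sep ω hω ω' hω' _ _ ?_
    have := hs ω' hω' i' k ‖pt (K.Y ω) i - pt (K.Y ω') i'‖ (fun t => K.Y ω (i + t))
      (fun t => by
        rw [KLem.pt_shift, ← hk.orb hω (i + t), add_assoc, sub_self, abs_zero]
        exact norm_nonneg _)
      (by rw [KLem.pt_shift, add_zero]) (by linarith [h.1]) j hj
    rw [KLem.pt_shift] at this
    linarith [h.2]
  refine ⟨?_, fun j hj => (key j hj).2⟩
  simpa using (key 0 (by simp only [abs_zero]; positivity)).1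

/-- Codes that agree on a long window give close points (`KOK.cont` for `η = K.dl`, `EOK.decay`; for
small `k` use `KOK.small`). -/
theorem KOK.closew (hk : KOK F K) : ∃ c > 0, ∀ (k : ℕ), ∀ ω ∈ K.X, ∀ ω' ∈ K.X, ∀ i : ℤ,
    (∀ j : ℤ, |j| ≤ k * K.q → ω (i + j) = ω' (i + j)) →
      ‖pt (K.Y ω) i - pt (K.Y ω') i‖ * K.μ ^ k ≤ c := by
  obtain ⟨B, hB, hg⟩ := hk.eok.decay
  obtain ⟨J, hJ⟩ := hk.cont K.dl hk.dpos
  obtain ⟨ρ, hρ, hs⟩ := hk.small
  have hd := hk.dpos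
  have hμ := hk.eok.mu
  have hq := hk.eok.qpos
  have hM : 0 < K.μ ^ (J + 1) := pow_pos (by linarith) _
  refine ⟨(B * K.dl + 1) * K.μ ^ (J + 1), by positivity, ?_⟩
  intro k ω hω ω' hω' i h
  have hBd : 0 ≤ B * K.dl := by positivity
  rw [← KLem.pt_sub]
  rcases le_or_gt (J + 1) k with hle | hlt
  · obtain ⟨k', rfl⟩ := Nat.exists_eq_add_of_le hle
    have hw : ((J + 1 + k' : ℕ) : ℤ) * K.q ≥ k' * K.q + (J + 1) := by
      push_cast
      have : (1 : ℤ) ≤ K.q := by omega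
      nlinarith
    have near : ∀ t : ℤ, i - k' * K.q ≤ t → t ≤ i + k' * K.q →
        ‖pt (fun t => K.Y ω t - K.Y ω' t) t‖ ≤ K.dl := by
      intro t h1 h2
      rw [KLem.norm_pt_le]
      constructor
      · refine hJ ω hω ω' hω' t fun j hj => ?_
        have := h (j - i) (by rw [abs_le] at hj ⊢; omega)
        rwa [add_sub_cancel] at this
      · refine hJ ω hω ω' hω' (t - 1) fun j hj => ?_
        have := h (j - i) (by rw [abs_le] at hj ⊢; omega)
        rwa [add_sub_cancel] at this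
    have hkq : (0 : ℤ) ≤ k' * K.q := by positivity
    have := hg (fun t => K.Y ω t - K.Y ω' t) i k' K.dl (fun t h1 h2 => by
      have h3 := hk.aff ω' hω' t (pt (K.Y ω) t) (near t h1 h2.le)
      rw [← hk.orb hω t] at h3
      simp only [lin, KD.co, pt, Prod.mk_sub_mk] at h3
      linarith) (near _ le_rfl (by omega)) (near _ (by omega) le_rfl)
    rw [pow_add, mul_comm (K.μ ^ (J + 1)), ← mul_assoc]
    exact mul_le_mul_of_nonneg_right (by linarith) hM.le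
  · have h1 : ‖pt (fun t => K.Y ω t - K.Y ω' t) i‖ ≤ 1 := by
      rw [KLem.norm_pt_le]
      have a : ∀ t, |K.Y ω t - K.Y ω' t| ≤ 1 := fun t => by
        linarith [abs_sub (K.Y ω t) (K.Y ω' t), hs ω hω t, hs ω' hω' t]
      exact ⟨a _, a _⟩
    exact mul_le_mul (by linarith) (pow_le_pow_right₀ hμ.le hlt.le) (by positivity)
      (by positivity)

end Pool.Agent.MP_369096_an.H89
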