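import Pool.Agent.MP_369096_an.H89.KLem

/-!
TASK Lim2. Finite approximate orbits with large entropy from a chain of horseshoes.
Auxiliary lemmas go in namespace `H89.Lim2`.
-/

set_option autoImplicit false

open Set Filter Topology

namespace Pool.Agent.MP_369096_an.H89

theorem empEnt_equiv {ι ι' B : Type} [Fintype ι] [Fintype ι'] [Fintype B] (e : ι ≃ ι') (ξ : ι' → B) :
    empEnt (fun a => ξ (e a)) = empEnt ξ := by
  classical
  unfold empEnt
  refine Finset.sum_congr rfl fun c _ => ?_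
  rw [Fintype.card_congr e]
  congr 3
  exact Finset.card_equiv e (by simp)

namespace Lim2

theorem sum_fiber {Ω B : Type} [Fintype Ω] [Fintype B] [DecidableEq B] (ξ : Ω → B) :
    ∑ c : B, ((Finset.univ.filter fun w => ξ w = c).card : ℝ) = Fintype.card Ω := by
  have := Finset.card_eq_sum_card_fiberwise (s := (Finset.univ : Finset Ω))
    (t := (Finset.univ : Finset B)) (f := ξ) (fun _ _ => by simp)
  rw [← Finset.card_univ, this]
  push_cast
  rfl

theorem minEnt {Ω B : Type} [Fintype Ω] [Fintype B] [Nonempty Ω] [DecidableEq B] (ξ : Ω → B) (φ : ℝ)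
    (h : ∀ c, ((Finset.univ.filter fun w => ξ w = c).card : ℝ) ≤ Fintype.card Ω * Real.exp (-φ)) :
    φ ≤ ∑ c : B, Real.negMulLog
      (((Finset.univ.filter fun w => ξ w = c).card : ℝ) / Fintype.card Ω) := by
  have hΩ : (0 : ℝ) < Fintype.card Ω := by exact_mod_cast Fintype.card_pos
  have h1 : φ = ∑ c : B,
      ((Finset.univ.filter fun w => ξ w = c).card : ℝ) / Fintype.card Ω * φ := by
    rw [← Finset.sum_mul, ← Finset.sum_div, sum_fiber, div_self hΩ.ne', one_mul]
  refine h1.le.trans (Finset.sum_le_sum fun c _ => ?_)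
  clear h1
  set x : ℝ := ((Finset.univ.filter fun w => ξ w = c).card : ℝ) / Fintype.card Ω with hx
  have hx0 : 0 ≤ x := by positivity
  rcases hx0.eq_or_lt with h0 | h0
  · rw [← h0, zero_mul, Real.negMulLog_zero]
  · have h2 : x ≤ Real.exp (-φ) := by
      rw [hx, div_le_iff₀ hΩ, mul_comm]; exact h c
    have h3 : Real.log x ≤ -φ := (Real.log_le_iff_le_exp h0).mpr h2
    rw [Real.negMulLog]
    nlinarith

end Lim2

/-- Concavity of `negMulLog` (`Real.concaveOn_negMulLog`, Jensen) and the min-entropy bound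
`∑ negMulLog p_c ≥ -log (max p_c)`. -/
theorem empEnt_prod {S Ω B : Type} [Fintype S] [Fintype Ω] [Fintype B] [Nonempty S] [Nonempty Ω]
    [DecidableEq B] (ξ : S × Ω → B) (φ : S → ℝ)
    (h : ∀ s c, ((Finset.univ.filter fun w => ξ (s, w) = c).card : ℝ) ≤
      Fintype.card Ω * Real.exp (-φ s)) :
    (∑ s, φ s) / Fintype.card S ≤ empEnt ξ := by
  classical
  have hΩ : (0 : ℝ) < Fintype.card Ω := by exact_mod_cast Fintype.card_pos
  have hS : (0 : ℝ) < Fintype.card S := by exact_mod_cast Fintype.card_pos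
  have h1 : ∀ c, ((Finset.univ.filter fun a : S × Ω => ξ a = c).card : ℝ) / Fintype.card (S × Ω) =
      ∑ s : S, (1 / (Fintype.card S : ℝ)) •
        (((Finset.univ.filter fun w => ξ (s, w) = c).card : ℝ) / Fintype.card Ω) := by
    intro c
    have h2 : (Finset.univ.filter fun a : S × Ω => ξ a = c).card =
        ∑ s : S, (Finset.univ.filter fun w => ξ (s, w) = c).card := by
      simp only [Finset.card_filter]
      rw [Fintype.sum_prod_type]
    rw [h2, Fintype.card_prod]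
    push_cast
    rw [Finset.sum_div]
    refine Finset.sum_congr rfl fun s _ => ?_
    rw [smul_eq_mul]
    field_simp
  have h3 : ∀ c, ∑ s : S, (1 / (Fintype.card S : ℝ)) • Real.negMulLog
        (((Finset.univ.filter fun w => ξ (s, w) = c).card : ℝ) / Fintype.card Ω) ≤
      Real.negMulLog
        (((Finset.univ.filter fun a : S × Ω => ξ a = c).card : ℝ) / Fintype.card (S × Ω)) := by
    intro c
    rw [h1]
    refine Real.concaveOn_negMulLog.le_map_sum (fun _ _ => by positivity) ?_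
      (fun _ _ => by simp only [mem_Ici]; positivity)
    simp only [Finset.sum_const, Finset.card_univ, nsmul_eq_mul]
    field_simp
  have h4 : empEnt ξ = ∑ c : B, Real.negMulLog
      (((Finset.univ.filter fun a : S × Ω => ξ a = c).card : ℝ) / Fintype.card (S × Ω)) := by
    unfold empEnt
    congr!
  rw [h4]
  refine le_trans ?_ (Finset.sum_le_sum fun c _ => h3 c)
  rw [Finset.sum_comm, Finset.sum_div]
  refine Finset.sum_le_sum fun s _ => ?_
  rw [← Finset.smul_sum, smul_eq_mul, div_eq_mul_one_div, mul_comm]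
  exact mul_le_mul_of_nonneg_left (Lim2.minEnt (fun w => ξ (s, w)) (φ s) (h s)) (by positivity)

namespace Lim2

variable {F : E → ℝ} {H : ℝ} {Fs : ℕ → E → ℝ} {Ks : ℕ → KD} {η : ℕ → ℝ}

theorem q_dvd (h : Chain F H Fs Ks η) {a b : ℕ} (hab : a ≤ b) : (Ks a).q ∣ (Ks b).q := by
  induction b, hab using Nat.le_induction with
  | base => exact dvd_rfl
  | succ b _ ih =>
    obtain ⟨Q, -, hQ, -⟩ := h.ext b
    rw [hQ]
    exact ih.mul_left Q

theorem sum_per (f : ℕ → ℝ) (q : ℕ) (hf : ∀ i, f (q + i) = f i) (Q : ℕ) :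
    ∑ i ∈ Finset.range (Q * q), f i = Q * ∑ i ∈ Finset.range q, f i := by
  induction Q with
  | zero => simp
  | succ Q ih =>
    rw [show (Q + 1) * q = q + Q * q by ring, Finset.sum_range_add]
    simp only [hf, ih]
    push_cast
    ring

theorem log_card_nonneg (A : Finset ℕ) : 0 ≤ Real.log (A.card : ℝ) := Real.log_natCast_nonneg _

theorem invisible (h : Chain F H Fs Ks η) {j n : ℕ} (hjn : j < n) :
    (∑ i ∈ Finset.range (Ks n).q, if ((Ks (j + 1)).q : ℤ) ∣ (i : ℤ) then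
        Real.log (((Ks n).D i).card : ℝ) else 0) / (Ks n).q ≤
      ∑ i ∈ Finset.Ico (j + 1) (n + 1), Real.log (Ks i).m / (Ks i).q := by
  induction n, hjn using Nat.le_induction with
  | base =>
    rw [Nat.succ_eq_add_one, Finset.sum_Ico_succ_top le_rfl, Finset.Ico_self, Finset.sum_empty,
      zero_add, Finset.sum_eq_single 0]
    · simp [(h.kok (j + 1)).D0]
    · intro i hi hi0
      rw [if_neg]
      rw [Int.natCast_dvd_natCast]
      exact Nat.not_dvd_of_pos_of_lt (Nat.pos_of_ne_zero hi0) (Finset.mem_range.mp hi)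
    · intro h0
      exact absurd (Finset.mem_range.mpr (h.kok (j + 1)).eok.qpos) h0
  | succ n hn ih =>
    rw [Finset.sum_Ico_succ_top (by omega)]
    obtain ⟨Q, hQ2, hQ, hsub, -⟩ := h.ext n
    have hq : (0 : ℝ) < (Ks n).q := by exact_mod_cast (h.kok n).eok.qpos
    have hq' : (0 : ℝ) < (Ks (n + 1)).q := by exact_mod_cast (h.kok (n + 1)).eok.qpos
    have hQ0 : (0 : ℝ) < Q := by exact_mod_cast (by omega : 0 < Q)
    have hd : ((Ks (j + 1)).q : ℤ) ∣ ((Ks n).q : ℤ) := Int.natCast_dvd_natCast.mpr (q_dvd h hn)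
    have e1 := sum_per (fun i => if ((Ks (j + 1)).q : ℤ) ∣ (i : ℤ) then
        Real.log (((Ks n).D i).card : ℝ) else 0) (Ks n).q (fun i => by
          have := (h.kok n).Dper i
          simp only [Nat.cast_add, add_comm ((Ks n).q : ℤ), this, dvd_add_left hd]) Q
    have e2 : (∑ i ∈ Finset.range (Ks (n + 1)).q, if ((Ks (j + 1)).q : ℤ) ∣ (i : ℤ) then
        Real.log (((Ks (n + 1)).D i).card : ℝ) else 0) ≤
        ∑ i ∈ Finset.range (Ks (n + 1)).q, ((if ((Ks (j + 1)).q : ℤ) ∣ (i : ℤ) then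
          Real.log (((Ks n).D i).card : ℝ) else 0) +
          if i = 0 then Real.log (Ks (n + 1)).m else 0) := by
      refine Finset.sum_le_sum fun i hi => ?_
      by_cases hi0 : i = 0
      · subst hi0
        simp only [Nat.cast_zero, dvd_zero, if_true, (h.kok (n + 1)).D0, Finset.card_range]
        linarith [log_card_nonneg ((Ks n).D 0)]
      · rw [if_neg hi0, add_zero]
        split_ifs
        · have h1 : ¬ ((Ks (n + 1)).q : ℤ) ∣ (i : ℤ) := by
            rw [Int.natCast_dvd_natCast]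
            exact Nat.not_dvd_of_pos_of_lt (Nat.pos_of_ne_zero hi0) (Finset.mem_range.mp hi)
          refine Real.log_le_log ?_ ?_
          · exact_mod_cast ((h.kok (n + 1)).Dne i).card_pos
          · exact_mod_cast Finset.card_le_card (hsub i h1)
        · exact le_rfl
    rw [Finset.sum_add_distrib, Finset.sum_ite_eq' , if_pos
      (Finset.mem_range.mpr (h.kok (n + 1)).eok.qpos)] at e2
    refine (div_le_div_of_nonneg_right e2 hq'.le).trans ?_
    rw [add_div]
    refine add_le_add (le_trans (le_of_eq ?_) ih) le_rfl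
    rw [hQ, e1]
    push_cast
    field_simp

theorem bs_mem {F' : E → ℝ} {K K' : KD} (hk : KOK F' K) {η : ℝ} (he : Ext K K' η) {ω : ℤ → ℕ}
    (hω : ω ∈ K'.X) : bs K'.q ω ∈ K.X := by
  obtain ⟨Q, -, hQ, hsub, -⟩ := he
  intro i
  unfold bs
  split_ifs with hi
  · obtain ⟨t, ht⟩ := hi
    have := hk.Dpow 0 (Q * t)
    rw [show (0 : ℤ) + Q * t * K.q = i by rw [ht, hQ]; push_cast; ring] at this
    rw [this, hk.D0, Finset.mem_range]
    linarith [hk.m2]
  · exact hsub i hi (hω i)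

theorem bs_bs {a b : ℕ} (hab : a ∣ b) (ω : ℤ → ℕ) : bs a (bs b ω) = bs a ω := by
  funext i
  unfold bs
  split_ifs with h1 h2
  · rfl
  · exact absurd ((Int.natCast_dvd_natCast.mpr hab).trans h2) h1
  · rfl

end Lim2

/-- The letters at the multiples of `(Ks (j+1)).q` carry little entropy. Let
`I n = (∑ i < q n with q (j+1) ∣ i, log |D n i|) / q n`. Then `I (j+1) = log (m (j+1)) / q (j+1)` and
`I (n+1) ≤ I n + log (m (n+1)) / q (n+1)` for `n > j` (`Ext`: `D (n+1) i ⊆ D n i` off the multiples of `q (n+1)`, periodicity `KOK.Dpow`). -/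
theorem Chain.visible {F : E → ℝ} {H : ℝ} {Fs : ℕ → E → ℝ} {Ks : ℕ → KD} {η : ℕ → ℝ}
    (h : Chain F H Fs Ks η) {j n : ℕ} (hjn : j < n) :
    (Ks n).h - ∑ i ∈ Finset.Ico (j + 1) (n + 1), Real.log (Ks i).m / (Ks i).q ≤
      (∑ i ∈ (Finset.range (Ks n).q).filter fun i : ℕ => ¬ ((Ks (j + 1)).q : ℤ) ∣ (i : ℤ),
        Real.log (((Ks n).D i).card : ℝ)) / (Ks n).q := by
  have h1 := Lim2.invisible h hjn
  rw [← Finset.sum_filter] at h1
  have h2 := Finset.sum_filter_add_sum_filter_not (Finset.range (Ks n).q)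
    (fun i : ℕ => ((Ks (j + 1)).q : ℤ) ∣ (i : ℤ)) (fun i => Real.log (((Ks n).D i).card : ℝ))
  unfold KD.h lsum
  rw [← h2, add_div]
  linarith

/-- Points of level `n > j` are close to points of level `j` (induction on `n`;
`bs (q l) (bs (q (l+1)) ω) = bs (q l) ω`, and `0 ∈ D l i` at the multiples of `q l`). -/
theorem Chain.read {F : E → ℝ} {H : ℝ} {Fs : ℕ → E → ℝ} {Ks : ℕ → KD} {η : ℕ → ℝ}
    (h : Chain F H Fs Ks η) {j n : ℕ} (hjn : j < n) {ω : ℤ → ℕ} (hω : ω ∈ (Ks n).X) :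
    bs (Ks (j + 1)).q ω ∈ (Ks j).X ∧
      ∀ i, |(Ks n).Y ω i - (Ks j).Y (bs (Ks (j + 1)).q ω) i| ≤ ∑ l ∈ Finset.Ico j n, η l := by
  induction n, hjn using Nat.le_induction generalizing ω with
  | base =>
    refine ⟨Lim2.bs_mem (h.kok j) (h.ext j) hω, fun i => ?_⟩
    obtain ⟨Q, -, -, -, h1⟩ := h.ext j
    rw [Nat.succ_eq_add_one, Finset.sum_Ico_succ_top le_rfl, Finset.Ico_self, Finset.sum_empty,
      zero_add]
    exact h1 ω hω i
  | succ n hn ih =>
    obtain ⟨h1, h2⟩ := ih (Lim2.bs_mem (h.kok n) (h.ext n) hω)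
    rw [Lim2.bs_bs (Lim2.q_dvd h (by omega))] at h1 h2
    refine ⟨h1, fun i => ?_⟩
    obtain ⟨Q, -, -, -, h3⟩ := h.ext n
    rw [Finset.sum_Ico_succ_top (by omega)]
    have := abs_sub_le ((Ks (n + 1)).Y ω i) ((Ks n).Y (bs (Ks (n + 1)).q ω) i)
      ((Ks j).Y (bs (Ks (j + 1)).q ω) i)
    linarith [h2 i, h3 ω hω i]

namespace Lim2

theorem transport {M : Type} [MetricSpace M] (f : M → M) (ι : ℕ → Type) [∀ n, Fintype (ι n)]
    [∀ n, Nonempty (ι n)] (σ : ∀ n, Equiv.Perm (ι n)) (y : ∀ n, ι n → M) (H : ℝ) (P : M → Prop)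
    (hP : ∀ n a, P (y n a))
    (h1 : ∀ ε > 0, ∀ᶠ n in atTop, ∀ a, dist (f (y n a)) (y n (σ n a)) ≤ ε)
    (h2 : ∀ v < H, ∃ (k : ℕ) (ρ : ∀ n, ι n → Fin k) (δ : ℝ) (n0 : ℕ), 0 < δ ∧
      (∀ n ≥ n0, ∀ n' ≥ n0, ∀ a a', dist (y n a) (y n' a') < δ → ρ n a = ρ n' a') ∧
      ∀ N : ℕ, ∀ᶠ n in atTop, N * v ≤ empEnt fun a (i : Fin N) => ρ n ((σ n)^[i] a)) :
    ∃ (c : ℕ → ℕ) (σ : ∀ n, Equiv.Perm (Fin (c n + 1))) (y : ∀ n, Fin (c n + 1) → M),
      (∀ n a, P (y n a)) ∧ Approx f c σ y H := by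
  let c : ℕ → ℕ := fun n => Fintype.card (ι n) - 1
  have hc : ∀ n, Fintype.card (ι n) = c n + 1 := fun n =>
    (Nat.sub_add_cancel Fintype.card_pos).symm
  let e : ∀ n, Fin (c n + 1) ≃ ι n := fun n => (Fintype.equivFinOfCardEq (hc n)).symm
  have it : ∀ n (i : ℕ) a, e n ((((e n).trans (σ n)).trans (e n).symm)^[i] a) =
      (σ n)^[i] (e n a) := by
    intro n i
    induction i with
    | zero => intro a; rfl
    | succ i ih =>
      intro a
      rw [Function.iterate_succ_apply, Function.iterate_succ_apply, ih]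
      simp
  refine ⟨c, fun n => ((e n).trans (σ n)).trans (e n).symm, fun n a => y n (e n a),
    fun n a => hP n _, ?_, ?_⟩
  · intro ε hε
    filter_upwards [h1 ε hε] with n hn a
    simpa using hn (e n a)
  · intro v hv
    obtain ⟨k, ρ, δ, n0, hδ, h3, h4⟩ := h2 v hv
    refine ⟨k, fun n a => ρ n (e n a), δ, n0, hδ, fun n hn n' hn' a a' => h3 n hn n' hn' _ _,
      fun N => ?_⟩
    filter_upwards [h4 N] with n hn
    rw [← empEnt_equiv (e n)] at hn
    simpa only [it] using hn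

/-- Words of length `P`. -/
abbrev Wd (K : KD) (P : ℕ) : Type := (p : ZMod P) → {x : ℕ // x ∈ K.D (p.val : ℤ)}

/-- Periodic extension of a word. -/
def code {K : KD} {P : ℕ} (w : Wd K P) (i : ℤ) : ℕ := (w (i : ZMod P)).1

variable {F : E → ℝ} {K : KD} {P : ℕ}

theorem cast_val [NeZero P] (p : ZMod P) : (((p.val : ℕ) : ℤ) : ZMod P) = p := by simp

theorem exists_shift (hP : K.q ∣ P) {a b : ℤ} (h : (a : ZMod P) = b) :
    ∃ t : ℤ, b = a + t * K.q ∧ ((t * K.q : ℤ) : ZMod P) = 0 := by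
  obtain ⟨s, hs⟩ := (ZMod.intCast_eq_intCast_iff_dvd_sub a b P).mp h
  obtain ⟨r, hr⟩ := hP
  have : b = a + (r * s) * K.q := by
    rw [hr] at hs; push_cast at hs; linarith
  refine ⟨r * s, this, ?_⟩
  rw [show ((r : ℤ) * s) * K.q = b - a by linarith, Int.cast_sub, h, sub_self]

theorem D_congr (hk : KOK F K) (hP : K.q ∣ P) {a b : ℤ} (h : (a : ZMod P) = b) :
    K.D a = K.D b := by
  obtain ⟨t, ht, -⟩ := exists_shift hP h
  rw [ht, hk.Dpow]

theorem code_mem [NeZero P] (hk : KOK F K) (hP : K.q ∣ P) (w : Wd K P) : code w ∈ K.X := by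
  intro i
  rw [D_congr hk hP (cast_val (i : ZMod P)).symm]
  exact (w (i : ZMod P)).2

theorem Y_congr [NeZero P] (hk : KOK F K) (hP : K.q ∣ P) (w : Wd K P) {a b : ℤ}
    (h : (a : ZMod P) = b) : K.Y (code w) a = K.Y (code w) b := by
  obtain ⟨t, ht, h0⟩ := exists_shift hP h
  rw [ht, ← hk.shift_pow (code_mem hk hP w)]
  congr 1
  funext j
  have : ((j + t * K.q : ℤ) : ZMod P) = (j : ZMod P) := by rw [Int.cast_add, h0, add_zero]
  unfold code
  rw [this]

theorem pt_congr [NeZero P] (hk : KOK F K) (hP : K.q ∣ P) (w : Wd K P) {a b : ℤ}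
    (h : (a : ZMod P) = b) : pt (K.Y (code w)) a = pt (K.Y (code w)) b := by
  unfold pt
  rw [Y_congr hk hP w h, Y_congr hk hP w (a := a - 1) (b := b - 1) (by push_cast; rw [h])]

theorem card_fix {I : Type} [Fintype I] [DecidableEq I] {A : I → Type} [∀ p, Fintype (A p)]
    [∀ p, Nonempty (A p)] (V : Finset I) (S : Finset (∀ p, A p))
    (hS : ∀ w ∈ S, ∀ w' ∈ S, ∀ p ∈ V, w p = w' p) :
    (S.card : ℝ) ≤ Fintype.card (∀ p, A p) *
      Real.exp (-∑ p ∈ V, Real.log (Fintype.card (A p))) := by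
  classical
  rcases S.eq_empty_or_nonempty with rfl | ⟨w0, hw0⟩
  · simp only [Finset.card_empty, Nat.cast_zero]; positivity
  have h1 : S ⊆ Fintype.piFinset fun p => if p ∈ V then {w0 p} else Finset.univ := by
    intro w hw
    rw [Fintype.mem_piFinset]
    intro p
    split_ifs with hp
    · rw [Finset.mem_singleton]; exact hS w hw w0 hw0 p hp
    · exact Finset.mem_univ _
  have h2 : (Fintype.piFinset fun p => if p ∈ V then ({w0 p} : Finset (A p)) else Finset.univ).card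
      = ∏ p ∈ Vᶜ, Fintype.card (A p) := by
    rw [Fintype.card_piFinset, ← Finset.prod_mul_prod_compl V, Finset.prod_eq_one, one_mul]
    · refine Finset.prod_congr rfl fun p hp => ?_
      rw [if_neg (Finset.mem_compl.mp hp), Finset.card_univ]
    · intro p hp
      rw [if_pos hp, Finset.card_singleton]
  have h3 : ∀ p, (0 : ℝ) < Fintype.card (A p) := fun p => by exact_mod_cast Fintype.card_pos
  have h4 : (0 : ℝ) < ∏ p ∈ V, (Fintype.card (A p) : ℝ) := Finset.prod_pos fun p _ => h3 p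
  rw [← Real.log_prod fun p _ => (h3 p).ne', Real.exp_neg, Real.exp_log h4, Fintype.card_pi,
    ← Finset.prod_mul_prod_compl V]
  have h5 := (Finset.card_le_card h1).trans h2.le
  push_cast
  rw [mul_right_comm, mul_inv_cancel₀ h4.ne', one_mul]
  exact_mod_cast h5

theorem sum_zmod [NeZero P] (g : ℕ → ℝ) : ∑ p : ZMod P, g p.val = ∑ i ∈ Finset.range P, g i := by
  refine Finset.sum_bij' (fun p _ => p.val) (fun i _ => (i : ZMod P)) ?_ ?_ ?_ ?_ ?_
  · intro p _; exact Finset.mem_range.mpr (ZMod.val_lt p)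
  · intro i _; exact Finset.mem_univ _
  · intro p _; exact ZMod.natCast_zmod_val p
  · intro i hi; exact ZMod.val_cast_of_lt (Finset.mem_range.mp hi)
  · intro p _; rfl

/-- The time shift. -/
def rot (K : KD) (P : ℕ) : Equiv.Perm (ZMod P × Wd K P) :=
  Equiv.prodCongr (Equiv.addRight 1) (Equiv.refl _)

theorem rot_iter (a : ZMod P × Wd K P) (i : ℕ) : (rot K P)^[i] a = (a.1 + i, a.2) := by
  induction i with
  | zero => simp
  | succ i ih =>
    rw [Function.iterate_succ_apply', ih]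
    simp [rot, add_assoc]

theorem ent_lower [NeZero P] (hk : KOK F K) {B : Type} [Fintype B] (r : ℕ) {N : ℕ} (hN : N ≤ P)
    (ρ : ZMod P × Wd K P → B)
    (hρ : ∀ p w w', ρ (p, w) = ρ (p, w') → ¬ (r : ℤ) ∣ (p.val : ℤ) → w p = w' p) :
    N * ((∑ i ∈ Finset.range P, if ¬ (r : ℤ) ∣ (i : ℤ) then Real.log ((K.D i).card : ℝ) else 0) / P)
      ≤ empEnt fun a (i : Fin N) => ρ ((rot K P)^[i] a) := by
  classical
  have : ∀ p : ZMod P, Nonempty {x : ℕ // x ∈ K.D (p.val : ℤ)} := fun p =>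
    (hk.Dne _).to_subtype
  let g : ℕ → ℝ := fun i => if ¬ (r : ℤ) ∣ (i : ℤ) then Real.log ((K.D i).card : ℝ) else 0
  refine le_trans (le_of_eq ?_) (empEnt_prod _
    (fun s => ∑ i ∈ Finset.range N, g (s + (i : ZMod P)).val) ?_)
  · rw [Finset.sum_comm, ZMod.card]
    have : ∀ i : ℕ, ∑ s : ZMod P, g (s + (i : ZMod P)).val = ∑ i ∈ Finset.range P, g i := by
      intro i
      rw [← sum_zmod]
      exact Equiv.sum_comp (Equiv.addRight (i : ZMod P)) fun p => g p.val
    simp only [this, Finset.sum_const, Finset.card_range, nsmul_eq_mul]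
    rw [mul_div_assoc]
  · intro s c
    have h1 := card_fix (A := fun p : ZMod P => {x : ℕ // x ∈ K.D (p.val : ℤ)})
      (((Finset.range N).image fun i : ℕ => s + (i : ZMod P)).filter
        fun p => ¬ (r : ℤ) ∣ (p.val : ℤ))
      (Finset.univ.filter fun w => (fun i : Fin N => ρ ((rot K P)^[i] (s, w))) = c) (by
        intro w hw w' hw' p hp
        obtain ⟨h2, h3⟩ := Finset.mem_filter.mp hp
        obtain ⟨i, hi, rfl⟩ := Finset.mem_image.mp h2
        have h4 := congrFun ((Finset.mem_filter.mp hw).2.trans (Finset.mem_filter.mp hw').2.symm)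
          ⟨i, Finset.mem_range.mp hi⟩
        simp only [rot_iter] at h4
        exact hρ _ _ _ h4 h3)
    rw [Finset.sum_filter, Finset.sum_image] at h1
    · simpa only [g, Fintype.card_coe] using h1
    · intro i hi i' hi' h2
      have h3 : (i : ZMod P) = i' := add_left_cancel h2
      have h4 := congrArg ZMod.val h3
      rwa [ZMod.val_cast_of_lt (lt_of_lt_of_le (Finset.mem_range.mp hi) hN),
        ZMod.val_cast_of_lt (lt_of_lt_of_le (Finset.mem_range.mp hi') hN)] at h4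

theorem letters_bdd (hk : KOK F K) : ∃ k : ℕ, ∀ i, ∀ x ∈ K.D i, x ≤ k := by
  have : NeZero K.q := ⟨hk.eok.qpos.ne'⟩
  refine ⟨Finset.univ.sup fun p : ZMod K.q => (K.D (p.val : ℤ)).sup id, fun i x hx => ?_⟩
  rw [D_congr hk dvd_rfl (cast_val (i : ZMod K.q)).symm] at hx
  exact (Finset.le_sup (f := id) hx).trans (Finset.le_sup
    (f := fun p : ZMod K.q => (K.D (p.val : ℤ)).sup id) (Finset.mem_univ (i : ZMod K.q)))

end Lim2

/-- At level `n` let `Tn = (n+1) q n`, `ι = ZMod Tn × Ω n` (or `Fin Tn`) with `Ω n = Π i : Fin Tn, D n i`, extended periodically to codes `ω`;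
`σ (s,w) = (s+1,w)`, `y (s,w) = pt (Y ω) s` (well defined modulo `Tn` by `KOK.shift_pow`); transport along `ι ≃ Fin (c n + 1)`.
`T (Fs n) (y a) = y (σ a)` (`KOK.orb`). Given `v < H` choose `j` with small tail; label `ρ (s,w) = bs (q (j+1)) ω s`, which lies in a finite range
(`Chain.read`, periodicity of `D j`), `δ = (Ks j).sp / 2`, `n0 = j + 1` (`KOK.sep`). For `N ≤ Tn` a label word fixes the letters at the visible positions among
`s, ..., s+N-1`; `empEnt_prod` with `φ s = ∑_{i<N, visible} log |D n (s+i)|`, whose average is `N` times the right side of `Chain.visible`. -/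
theorem Chain.apx {F : E → ℝ} {H : ℝ} {Fs : ℕ → E → ℝ} {Ks : ℕ → KD} {η : ℕ → ℝ}
    (h : Chain F H Fs Ks η) :
    ∃ (c : ℕ → ℕ) (σ : ∀ n, Equiv.Perm (Fin (c n + 1))) (y : ∀ n, Fin (c n + 1) → E),
      (∀ n a, ‖y n a‖ ≤ 1 / 20) ∧ Approx (T F) c σ y H := by
  have : ∀ n, NeZero ((n + 1) * (Ks n).q) := fun n =>
    ⟨Nat.mul_ne_zero n.succ_ne_zero (h.kok n).eok.qpos.ne'⟩
  have : ∀ n (p : ZMod ((n + 1) * (Ks n).q)), Nonempty {x : ℕ // x ∈ (Ks n).D (p.val : ℤ)} :=
    fun n p => ((h.kok n).Dne _).to_subtype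
  have hP : ∀ n, (Ks n).q ∣ (n + 1) * (Ks n).q := fun n => Dvd.intro_left _ rfl
  refine Lim2.transport (T F)
    (fun n => ZMod ((n + 1) * (Ks n).q) × Lim2.Wd (Ks n) ((n + 1) * (Ks n).q))
    (fun n => Lim2.rot _ _) (fun n a => pt ((Ks n).Y (Lim2.code a.2)) (a.1.val : ℤ)) H
    (fun z => ‖z‖ ≤ 1 / 20) ?_ ?_ ?_
  · intro n a
    obtain ⟨ρ, h1, h2⟩ := (h.kok n).small
    have h3 := h2 _ (Lim2.code_mem (h.kok n) (hP n) a.2)
    rw [Prod.norm_def]
    exact max_le ((h3 _).trans h1.le) ((h3 _).trans h1.le)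
  · intro ε hε
    filter_upwards [h.conv ε hε] with n hn a
    have h1 := ((h.kok n).orb (Lim2.code_mem (h.kok n) (hP n) a.2)).pt_succ (a.1.val : ℤ)
    have h2 : pt ((Ks n).Y (Lim2.code (Lim2.rot _ _ a).2)) ((Lim2.rot _ _ a).1.val : ℤ) =
        pt ((Ks n).Y (Lim2.code a.2)) ((a.1.val : ℤ) + 1) :=
      Lim2.pt_congr (h.kok n) (hP n) a.2 (by
        rw [Lim2.cast_val, Int.cast_add, Lim2.cast_val, Int.cast_one]; rfl)
    rw [h2, h1, Prod.dist_eq]
    exact max_le (hn _) (by simpa [T] using hε.le)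
  · intro v hv
    obtain ⟨s, hs⟩ := summable_iff_vanishing_norm.mp h.tail ((H - v) / 2) (by linarith)
    let j := s.sup id
    have htail : ∀ n, ∑ i ∈ Finset.Ico (j + 1) (n + 1), Real.log (Ks i).m / (Ks i).q <
        (H - v) / 2 := by
      intro n
      refine lt_of_le_of_lt (le_abs_self _) (hs _ (Finset.disjoint_left.mpr fun i hi hi' => ?_))
      have h1 : i ≤ j := Finset.le_sup (f := id) hi'
      have h2 := (Finset.mem_Ico.mp hi).1
      omega
    obtain ⟨k, hk⟩ := Lim2.letters_bdd (h.kok j)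
    have hle : ∀ n, j < n → ∀ (w : Lim2.Wd (Ks n) ((n + 1) * (Ks n).q)) (i : ℤ),
        min (bs (Ks (j + 1)).q (Lim2.code w) i) k = bs (Ks (j + 1)).q (Lim2.code w) i :=
      fun n hn w i => min_eq_left
        (hk i _ ((h.read hn (Lim2.code_mem (h.kok n) (hP n) w)).1 i))
    refine ⟨k + 1, fun n a => ⟨min (bs (Ks (j + 1)).q (Lim2.code a.2) (a.1.val : ℤ)) k,
      Nat.lt_succ_of_le (min_le_right _ _)⟩, (Ks j).sp / 2, j + 1,
      by linarith [(h.kok j).spos], ?_, ?_⟩
    · intro n hn n' hn' a a' hd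
      have key : ∀ n, j < n → ∀ ω ∈ (Ks n).X, ∀ i,
          ‖pt ((Ks n).Y ω) i - pt ((Ks j).Y (bs (Ks (j + 1)).q ω)) i‖ ≤ (Ks j).sp / 4 := by
        intro n hn ω hω i
        have h1 := (h.read hn hω).2
        rw [Prod.norm_def]
        exact max_le ((h1 _).trans (h.eta j n)) ((h1 _).trans (h.eta j n))
      have m1 := Lim2.code_mem (h.kok n) (hP n) a.2
      have m2 := Lim2.code_mem (h.kok n') (hP n') a'.2
      have k1 := key n hn _ m1 (a.1.val : ℤ)
      have k2 := key n' hn' _ m2 (a'.1.val : ℤ)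
      rw [← dist_eq_norm] at k1 k2
      have h3 := ((h.kok j).sep _ (h.read hn m1).1 _ (h.read hn' m2).1 (a.1.val : ℤ)
        (a'.1.val : ℤ) (by
          rw [← dist_eq_norm]
          refine lt_of_le_of_lt (dist_triangle4 _ (pt ((Ks n).Y (Lim2.code a.2)) (a.1.val : ℤ))
            (pt ((Ks n').Y (Lim2.code a'.2)) (a'.1.val : ℤ)) _) ?_
          rw [dist_comm] at k1
          linarith)).2
      simp only [h3]
    · intro N
      have e1 : ∀ᶠ n in atTop, H - (H - v) / 2 < (Ks n).h :=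
        h.ent.eventually (lt_mem_nhds (by linarith))
      filter_upwards [e1, eventually_gt_atTop j, eventually_ge_atTop N] with n h1 h2 h3
      have hq := (h.kok n).eok.qpos
      have hN : N ≤ (n + 1) * (Ks n).q := by nlinarith
      refine le_trans ?_ (Lim2.ent_lower (h.kok n) (Ks (j + 1)).q hN
        (fun a => (⟨min (bs (Ks (j + 1)).q (Lim2.code a.2) (a.1.val : ℤ)) k,
          Nat.lt_succ_of_le (min_le_right _ _)⟩ : Fin (k + 1))) ?_)
      · refine mul_le_mul_of_nonneg_left ?_ (Nat.cast_nonneg N)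
        have hd : ((Ks (j + 1)).q : ℤ) ∣ ((Ks n).q : ℤ) :=
          Int.natCast_dvd_natCast.mpr (Lim2.q_dvd h h2)
        rw [Lim2.sum_per _ (Ks n).q (fun i => by
          have := (h.kok n).Dper i
          simp only [Nat.cast_add, add_comm ((Ks n).q : ℤ), this, dvd_add_left hd])]
        have h4 := h.visible h2
        rw [Finset.sum_filter] at h4
        have h5 : (0 : ℝ) < (n + 1 : ℕ) := by positivity
        rw [Nat.cast_mul, mul_div_mul_left _ _ h5.ne']
        linarith [htail n]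
      · intro p w w' h4 h5
        simp only [Fin.mk.injEq, hle n h2] at h4
        simp only [bs, if_neg h5, Lim2.code] at h4
        have h6 : ∀ p' : ZMod ((n + 1) * (Ks n).q), p' = p → (w p').1 = (w' p').1 → w p = w' p := by
          rintro _ rfl h7
          exact Subtype.ext h7
        exact h6 _ (Lim2.cast_val p) h4

end Pool.Agent.MP_369096_an.H89
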