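import Pool.Agent.MP_369096_an.H89.BasB

/-!
TASK NTa. Consequences of the algebraic genericity `NT`. Auxiliary lemmas: namespace `H89.NTa`.
Basic fact: if `W = [g 0, ..., g (k-1)]` are germs along the orbit of `z`, then
`ev (pullW l W) z = ev l ((T F)^[k] z)` (`Germ.eq`). A point of `e.2 + iv m` is a zero of
`lineAt e.1.1 (p + iv m)` for every `p ∈ e.2` (`Edg.line`, `GenD.dir`). Three affine functions with a
common zero have `det3 = 0`.
-/

set_option autoImplicit false

open Set Filter Topology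

namespace Pool.Agent.MP_369096_an.H89

variable {F : E → ℝ} {L r : ℝ} {N : ℕ} {Ed : Set (E × Set E)} {A Ln : Set Af}

namespace NTa

/-- The germs of the list occur along the orbit of the point. -/
def Word (F : E → ℝ) : E → List Af → Prop
  | _, [] => True
  | z, g :: W => Germ F z g ∧ Word F (T F z) W

theorem ev_pull (l g : Af) (z : E) : ev (pull l g) z = ev l (ev g z, z.1) := by
  simp only [ev, pull, lin]; ring

theorem ev_pullW (hc : Continuous F) (l : Af) : ∀ (W : List Af) (z : E), Word F z W →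
    ev (pullW l W) z = ev l ((T F)^[W.length] z)
  | [], _, _ => rfl
  | g :: W, z, h => by
    rw [pullW, ev_pull, ← h.1.eq hc, List.length_cons, Function.iterate_succ_apply]
    exact ev_pullW hc l W _ h.2

theorem exists_word (hl : Loc F r N) : ∀ (n : ℕ) (z : E), ∃ W : List Af, W.length = n ∧ Word F z W
  | 0, _ => ⟨[], rfl, trivial⟩
  | n + 1, z => by
    obtain ⟨g, hg⟩ := hl.exists_germ z
    obtain ⟨W, h1, h2⟩ := exists_word hl n (T F z)
    exact ⟨g :: W, by rw [List.length_cons, h1], hg, h2⟩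

theorem word_append : ∀ (W1 W2 : List Af) (z : E), Word F z W1 →
    Word F ((T F)^[W1.length] z) W2 → Word F z (W1 ++ W2)
  | [], _, _, _, h => h
  | _ :: W, W2, _, h, h' => ⟨h.1, word_append W W2 _ h.2 h'⟩

theorem word_mem (hA : ∀ p g, Germ F p g → g ∈ A) : ∀ (W : List Af) (z : E), Word F z W →
    ∀ g ∈ W, g ∈ A
  | [], _, _ => fun _ hg => absurd hg List.not_mem_nil
  | g :: W, z, h => fun g' hg' => by
    rcases List.mem_cons.1 hg' with rfl | h'
    · exact hA z _ h.1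
    · exact word_mem hA W _ h.2 g' h'

theorem finite_words (hc : Continuous (T F)) (hl : Loc F r N) : ∀ (k : ℕ) (B : Set E),
    IsCompact B → {W : List Af | W.length = k ∧ ∃ z ∈ B, Word F z W}.Finite
  | 0, _, _ => (finite_singleton []).subset fun _ hW => List.eq_nil_of_length_eq_zero hW.1
  | k + 1, B, hB => by
    refine ((hl.finite_germs hB).image2 List.cons
      (finite_words hc hl k _ (hB.image hc))).subset ?_
    rintro (_ | ⟨g, W⟩) ⟨h1, z, hz, h2⟩
    · simp at h1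
    · exact ⟨g, ⟨z, hz, h2.1⟩, W, ⟨by simpa using h1, _, mem_image_of_mem _ hz, h2.2⟩, rfl⟩

/-- The lines of the translated edges that meet a set. -/
def Lines (Ed : Set (E × Set E)) (B : Set E) : Set Af :=
  {l | ∃ e ∈ Ed, ∃ m, ∃ p ∈ e.2, p + iv m ∈ B ∧ l = lineAt e.1.1 (p + iv m)}

theorem finite_lines (he : Edg F Ed) (hg : GenD F Ed A Ln) {B : Set E} (hB : IsCompact B) :
    (Lines Ed B).Finite := by
  obtain ⟨R, hR⟩ := hB.isBounded.exists_norm_le
  obtain ⟨n, hn⟩ := he.count R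
  obtain ⟨S, -, h1, h2⟩ := hn 0
  refine (S.finite_toSet.biUnion
    (t := fun a => {l | ∃ p ∈ a.1.2, l = lineAt a.1.1.1 (p + iv a.2)}) fun a ha => ?_).subset ?_
  · refine Set.Subsingleton.finite ?_
    rintro _ ⟨p, hp, rfl⟩ _ ⟨q, hq, rfl⟩
    have h3 := he.line _ (h1 a ha) p hp q hq
    have h4 := hg.dir _ (h1 a ha)
    simp only [dt, h4, Prod.fst_sub, Prod.snd_sub] at h3
    simp only [lineAt, Prod.fst_add, Prod.snd_add]
    congr 1
    linarith
  · rintro _ ⟨e, he', m, p, hp, hb, rfl⟩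
    exact mem_biUnion (h2 e he' m p hp (by rw [sub_zero]; exact hR _ hb)) ⟨p, hp, rfl⟩

theorem lines_sub (hg : GenD F Ed A Ln) (B : Set E) : Lines Ed B ⊆ Ln := by
  rintro _ ⟨e, he, m, p, hp, -, rfl⟩
  exact hg.lines e he p hp m

theorem exists_line (he : Edg F Ed) {B : Set E} {z : E} (hz : z ∈ B) (hs : z ∈ Sing F) :
    ∃ l ∈ Lines Ed B, ev l z = 0 := by
  obtain ⟨e, he', m, hm⟩ := he.cov z hs
  refine ⟨_, ⟨e, he', m, _, hm, by rwa [sub_add_cancel], rfl⟩, ?_⟩
  rw [sub_add_cancel]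
  simp only [ev, lineAt, lin]
  ring

theorem det3_eq {a b : Af} (c : Af) {z : E} (ha : ev a z = 0) (hb : ev b z = 0) :
    det3 a b c = ev c z * (a.1.1 * b.1.2 - a.1.2 * b.1.1) := by
  simp only [ev, lin] at ha hb ⊢
  simp only [det3]
  linear_combination (b.1.1 * c.1.2 - b.1.2 * c.1.1) * ha - (a.1.1 * c.1.2 - a.1.2 * c.1.1) * hb

theorem zero_unique {a b c : Af} (h : det3 a b c ≠ 0) :
    {z | ev a z = 0 ∧ ev b z = 0}.Subsingleton := by
  rintro z ⟨h1, h2⟩ z' ⟨h3, h4⟩
  rw [det3_eq c h1 h2] at h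
  have hD := right_ne_zero_of_mul h
  simp only [ev, lin] at h1 h2 h3 h4
  refine Prod.ext (mul_left_cancel₀ hD ?_) (mul_left_cancel₀ hD ?_)
  · linear_combination b.1.2 * (h1 - h3) - a.1.2 * (h2 - h4)
  · linear_combination a.1.1 * (h2 - h4) - b.1.1 * (h1 - h3)

theorem pt_shift (x : ℤ → ℝ) (s i : ℤ) : pt (fun j => x (j + s)) i = pt x (i + s) := by
  simp only [pt]
  rw [show i - 1 + s = i + s - 1 by ring]

end NTa

open NTa

theorem h2_of_gen (ha : Adm F L 2) (hl : Loc F r N) (he : Edg F Ed) (hg : GenD F Ed A Ln) :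
    H2 F := by
  intro x hx i j k hij hjk si sj sk
  obtain ⟨n1, rfl⟩ := Int.eq_ofNat_of_zero_le (sub_nonneg.2 hij.le) |>.imp fun n h =>
    (show j = i + (n : ℕ) by omega)
  obtain ⟨n2, rfl⟩ := Int.eq_ofNat_of_zero_le (sub_nonneg.2 hjk.le) |>.imp fun n h =>
    (show k = i + n1 + (n : ℕ) by omega)
  obtain ⟨W1, rfl, w1⟩ := exists_word hl n1 (pt x i)
  obtain ⟨W2, rfl, w2⟩ := exists_word hl n2 (pt x (i + W1.length))
  obtain ⟨l1, m1, z1⟩ := exists_line he (mem_univ _) si
  obtain ⟨l2, m2, z2⟩ := exists_line he (mem_univ _) sj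
  obtain ⟨l3, m3, z3⟩ := exists_line he (mem_univ _) sk
  rw [hx.iter (i + W1.length), hx.iter i] at z3
  rw [hx.iter i] at z2 w2
  refine hg.nt l1 (lines_sub hg _ m1) l2 (lines_sub hg _ m2) l3 (lines_sub hg _ m3) W1 W2
    (List.ne_nil_of_length_pos (by omega)) (List.ne_nil_of_length_pos (by omega))
    (word_mem hg.germ _ _ w1) (word_mem hg.germ _ _ w2) ?_
  rw [det3_eq _ z1 (by rw [ev_pullW ha.cont _ _ _ w1, z2]),
    ev_pullW ha.cont _ _ _ (word_append _ _ _ w1 w2), List.length_append, add_comm W1.length,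
    Function.iterate_add_apply, z3, zero_mul]

/-- Points of a compact set that are singular at times `0` and `k > 0`. There are finitely many
germ words of length `k` (`Loc.finite_germs` on the compact sets `(T F)^[i] '' B`) and finitely many
pairs of translated edges (`Edg.count`); for each choice the two affine functions `l1` and
`pullW l2 W` have at most one common zero: two common zeros would make them proportional, so
`det3 l1 (pullW l2 W) _ = 0`, against `NT` (third line `GenD.vert`, any one-letter word). -/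
theorem finite_two_hits (ha : Adm F L 2) (hl : Loc F r N) (he : Edg F Ed) (hg : GenD F Ed A Ln)
    {B : Set E} (hB : IsCompact B) {k : ℕ} (hk : 0 < k) :
    {z ∈ B | z ∈ Sing F ∧ (T F)^[k] z ∈ Sing F}.Finite := by
  refine ((finite_lines he hg hB).biUnion fun l1 h1 =>
    (finite_lines he hg (hB.image (ha.contT.iterate k))).biUnion fun l2 h2 =>
      (finite_words ha.contT hl k B hB).biUnion
        (t := fun W => {z | ev l1 z = 0 ∧ ev (pullW l2 W) z = 0}) fun W hW => ?_).subset ?_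
  · obtain ⟨h3, z, -, h4⟩ := hW
    have h5 : W ≠ [] := List.ne_nil_of_length_pos (by omega)
    have h6 := word_mem hg.germ _ _ h4
    exact (zero_unique (hg.nt l1 (lines_sub hg _ h1) l2 (lines_sub hg _ h2) l1 (lines_sub hg _ h1)
      W W h5 h5 h6 h6)).finite
  · rintro z ⟨hz, s1, s2⟩
    obtain ⟨l1, m1, z1⟩ := exists_line he hz s1
    obtain ⟨l2, m2, z2⟩ := exists_line he (mem_image_of_mem _ hz) s2
    obtain ⟨W, rfl, w⟩ := exists_word hl k z
    exact mem_biUnion m1 (mem_biUnion m2 (mem_biUnion ⟨rfl, z, hz, w⟩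
      ⟨z1, by rw [ev_pullW ha.cont _ _ _ w, z2]⟩))

/-- A singular point has at most `N ^ 2` itineraries (`Adm.orb_unique`, `LG.unique`,
`Loc.germs_at`). -/
theorem itin_at (ha : Adm F L 2) (hl : Loc F r N) (h2 : H2 F) {z : E} (hz : z ∈ Sing F) :
    ∃ S : Finset (ℤ → E), S.card ≤ N ^ 2 ∧ ∀ x c, Itin F x c → pt x 0 = z → c ∈ S := by
  classical
  by_cases hne : ∃ x c, Itin F x c ∧ pt x 0 = z
  swap
  · exact ⟨∅, by simp, fun x c h1 h2 => absurd ⟨x, c, h1, h2⟩ hne⟩
  obtain ⟨x0, c0, h0, rfl⟩ := hne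
  obtain ⟨j, hj⟩ : ∃ j : ℤ, ∀ i, i ≠ 0 → i ≠ j → pt x0 i ∉ Sing F := by
    by_cases hex : ∃ j : ℤ, j ≠ 0 ∧ pt x0 j ∈ Sing F
    · obtain ⟨j, j0, sj⟩ := hex
      refine ⟨j, fun i i0 ij si => ?_⟩
      have h3 := h2 x0 h0.1
      rcases lt_or_gt_of_ne i0 with a | a <;> rcases lt_or_gt_of_ne j0 with b | b <;>
        rcases lt_or_gt_of_ne ij with c | c
      · exact h3 _ _ _ c b si sj hz
      · exact h3 _ _ _ c a sj si hz
      · exact h3 _ _ _ a b si hz sj
      · exact h3 _ _ _ a b si hz sj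
      · exact h3 _ _ _ b a sj hz si
      · exact h3 _ _ _ b a sj hz si
      · exact h3 _ _ _ a c hz si sj
      · exact h3 _ _ _ b c hz sj si
    · exact ⟨0, fun i i0 _ si => hex ⟨i, i0, si⟩⟩
  obtain ⟨S0, c1, g0⟩ := hl.germs_at (pt x0 0)
  obtain ⟨Sj, c2, gj⟩ := hl.germs_at (pt x0 j)
  refine ⟨(S0 ×ˢ Sj).image fun a => Function.update (Function.update c0 0 a.1.1) j a.2.1,
    Finset.card_image_le.trans ?_, fun x c hx he => ?_⟩
  · rw [Finset.card_product, sq]
    exact Nat.mul_le_mul c1 c2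
  · obtain rfl : x = x0 := ha.orb_unique hx.1 h0.1 he
    obtain ⟨a, ha⟩ := hx.2 0
    obtain ⟨b, hb⟩ := hx.2 j
    refine Finset.mem_image.2 ⟨((c 0, a), (c j, b)),
      Finset.mem_product.2 ⟨g0 _ ha, gj _ hb⟩, funext fun i => ?_⟩
    by_cases ij : i = j
    · rw [ij, Function.update_self]
    rw [Function.update_of_ne ij]
    by_cases i0 : i = 0
    · rw [i0, Function.update_self]
    rw [Function.update_of_ne i0]
    exact LG.unique (hj i i0 ij) (h0.2 i) (hx.2 i)

theorem NTa.finite_itin_pos (ha : Adm F L 2) (hl : Loc F r N) (he : Edg F Ed)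
    (hg : GenD F Ed A Ln) {k : ℕ} (hk : 0 < k) :
    {c | ∃ x, Itin F x c ∧ pt x 0 ∈ Sing F ∧ pt x k ∈ Sing F}.Finite := by
  have h2 := h2_of_gen ha hl he hg
  have hP := finite_two_hits ha hl he hg
    (B := Icc (0 : ℝ) 1 ×ˢ Icc (0 : ℝ) 1) (isCompact_Icc.prod isCompact_Icc) hk
  refine (hP.biUnion (t := fun z => {c | ∃ x, Itin F x c ∧ pt x 0 = z}) fun z hz => ?_).subset ?_
  · obtain ⟨S, -, hS⟩ := itin_at ha hl h2 hz.2.1
    exact S.finite_toSet.subset fun c ⟨x, h3, h4⟩ => hS x c h3 h4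
  · rintro c ⟨x, hx, s0, sk⟩
    obtain ⟨m, hm⟩ := exists_iv (pt x 0)
    obtain ⟨n, hn, rfl⟩ := exists_intorb 0 m
    have hx' := ha.itin_sub hx hn
    have hs : ∀ i, pt x i ∈ Sing F → pt (fun j => x j - n j) i ∈ Sing F := fun i hi => by
      rw [pt_sub_int, ← ha.sing_iv _ (n i, n (i - 1)), sub_add_cancel]
      exact hi
    refine mem_biUnion (x := pt (fun j => x j - n j) 0) ⟨by rwa [pt_sub_int], hs 0 s0, ?_⟩
      ⟨_, hx', rfl⟩
    rw [← hx'.1.iter, zero_add]
    exact hs k sk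

/-- Finitely many cocycles come from orbits that are singular at times `0` and `k ≠ 0`
(translate into the unit square with `Adm.itin_sub`; for `k < 0` shift the time). -/
theorem finite_itin (ha : Adm F L 2) (hl : Loc F r N) (he : Edg F Ed) (hg : GenD F Ed A Ln)
    {k : ℤ} (hk : k ≠ 0) :
    {c | ∃ x, Itin F x c ∧ pt x 0 ∈ Sing F ∧ pt x k ∈ Sing F}.Finite := by
  obtain ⟨n, rfl | rfl⟩ := Int.eq_nat_or_neg k
  · exact finite_itin_pos ha hl he hg (by omega)
  · refine ((finite_itin_pos ha hl he hg (k := n) (by omega)).image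
      fun c j => c (j + n)).subset ?_
    rintro c ⟨x, hx, s0, sk⟩
    refine ⟨_, ⟨_, hx.shift (-n), ?_, ?_⟩, funext fun j => by simp⟩
    · rwa [pt_shift, zero_add]
    · rwa [pt_shift, add_neg_cancel]

end Pool.Agent.MP_369096_an.H89
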