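import Pool.Agent.MP_369096_an.H89.Defs

/-!
TASK NTb. Algebraic genericity is preserved for generic parameters. Auxiliary lemmas: namespace
`H89.NTb`. Let `IsPoly f := ∃ P : Polynomial ℝ, ∀ t, f t = P.eval t` (closed under sums, products,
constants, the identity); a polynomial function with `f 0 ≠ 0` has finitely many zeros. General
lemma: for countable index types `I, J` and families `a : I → ℝ → Af`, `l : J → ℝ → Af` whose three
coordinates are polynomial in the parameter, if `NT (range (a · 0)) (range (l · 0))` then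
`NT (range (a · t)) (range (l · t))` fails for countably many `t` only (index the conditions by
`J × J × J × List I × List I`). `NT` is monotone in both sets.
-/

set_option autoImplicit false

open Set Filter Topology

namespace Pool.Agent.MP_369096_an.H89

theorem ev_pull (l g : Af) (z : E) : ev (pull l g) z = ev l (ev g z, z.1) := by
  simp only [ev, lin, pull]
  ring

theorem ev_shf (t : ℝ) (g : Af) (z : E) : ev (shf t g) z = ev g (z + (t, 0)) := by
  simp only [ev, lin, shf, Prod.fst_add, Prod.snd_add]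
  ring

theorem ev_mixA (p w : ℝ) (g0 g1 g2 : Af) (z : E) : ev (mixA p w g0 g1 g2) z =
    (1 - p) * ev g0 z + p / 2 * ev g1 (z + (w, 0)) + p / 2 * ev g2 (z + (-w, 0)) := by
  simp only [ev, lin, shf, mixA, Prod.fst_add, Prod.snd_add, Prod.smul_fst, Prod.smul_snd,
    smul_eq_mul]
  ring

theorem mixA_fst (p w : ℝ) (g0 g1 g2 : Af) : (mixA p w g0 g1 g2).1 = mix p g0.1 g1.1 g2.1 :=
  rfl

theorem ev_dfm {t : ℝ} (ht : t ≠ 0) (a : ℝ) (i : ℤ) (g : Af) (z : E) :
    ev (dfm a t i g) z = a * t * ev g (x0 + (z.1 - i - x0) / t, z.2) := by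
  simp only [ev, lin, dfm]
  field_simp
  ring

theorem NT.mono {A A' Ln Ln' : Set Af} (h : NT A Ln) (hA : A' ⊆ A) (hL : Ln' ⊆ Ln) : NT A' Ln' :=
  fun l1 h1 l2 h2 l3 h3 W1 W2 n1 n2 w1 w2 => h l1 (hL h1) l2 (hL h2) l3 (hL h3) W1 W2 n1 n2
    (fun g hg => hA (w1 g hg)) fun g hg => hA (w2 g hg)

namespace NTb

theorem countable_zeros {f : ℝ → ℝ} (hf : ContDiff ℝ ⊤ f) (h0 : f 0 ≠ 0) :
    {t | f t = 0}.Countable := by
  have h := AnalyticOnNhd.preimage_zero_mem_codiscrete hf.analyticOnNhd h0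
  have h1 := (mem_codiscrete'.1 h).2
  rw [preimage_compl, compl_compl] at h1
  exact (HereditarilyLindelofSpace.isLindelof _).countable_of_isDiscrete h1

theorem an_pullW {I : Type} {a : I → ℝ → Af} {l : ℝ → Af} (ha : ∀ i, ContDiff ℝ ⊤ (a i))
    (hl : ContDiff ℝ ⊤ l) (W : List I) :
    ContDiff ℝ ⊤ fun s => pullW (l s) (W.map (a · s)) := by
  induction W with
  | nil => exact hl
  | cons i W ih =>
    have := ha i
    simp only [List.map_cons, pullW, pull]
    fun_prop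

theorem exists_list {I : Type} {f : I → Af} {W : List Af} (h : ∀ g ∈ W, g ∈ range f) :
    ∃ W' : List I, W'.map f = W := by
  induction W with
  | nil => exact ⟨[], rfl⟩
  | cons g W ih =>
    obtain ⟨W', rfl⟩ := ih fun g hg => h g (List.mem_cons_of_mem _ hg)
    obtain ⟨i, rfl⟩ := h g List.mem_cons_self
    exact ⟨i :: W', rfl⟩

theorem gen {I J : Type} [Countable I] [Countable J] (a : I → ℝ → Af) (l : J → ℝ → Af)
    (ha : ∀ i, ContDiff ℝ ⊤ (a i)) (hl : ∀ j, ContDiff ℝ ⊤ (l j))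
    (h : NT (range (a · 0)) (range (l · 0))) :
    ∃ B : Set ℝ, B.Countable ∧ ∀ t ∉ B, NT (range (a · t)) (range (l · t)) := by
  refine ⟨⋃ c : (J × J × J) × {W : List I × List I // W.1 ≠ [] ∧ W.2 ≠ []},
    {t | det3 (l c.1.1 t) (pullW (l c.1.2.1 t) (c.2.1.1.map (a · t)))
      (pullW (l c.1.2.2 t) ((c.2.1.1 ++ c.2.1.2).map (a · t))) = 0},
    countable_iUnion fun c => countable_zeros ?_ ?_, fun t ht => ?_⟩
  · have h1 := hl c.1.1
    have h2 := an_pullW ha (hl c.1.2.1) c.2.1.1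
    have h3 := an_pullW ha (hl c.1.2.2) (c.2.1.1 ++ c.2.1.2)
    unfold det3
    fun_prop
  · rw [List.map_append]
    exact h _ ⟨_, rfl⟩ _ ⟨_, rfl⟩ _ ⟨_, rfl⟩ _ _ (by simpa using c.2.2.1) (by simpa using c.2.2.2)
      (by simp) (by simp)
  · rintro _ ⟨j1, rfl⟩ _ ⟨j2, rfl⟩ _ ⟨j3, rfl⟩ W1 W2 n1 n2 w1 w2 h0
    obtain ⟨W1, rfl⟩ := exists_list w1
    obtain ⟨W2, rfl⟩ := exists_list w2
    exact ht (mem_iUnion.2 ⟨((j1, j2, j3), ⟨(W1, W2), by simpa using n1, by simpa using n2⟩), by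
      simpa using h0⟩)

/-- The integer sequence of the linear map. -/
def K : ℕ → ℤ
  | 0 => 0
  | 1 => 1
  | n + 2 => 22 * K (n + 1) - K n

theorem K_grow (n : ℕ) : 0 ≤ K n ∧ 2 * K n < K (n + 1) := by
  induction n with
  | zero => simp [K]
  | succ n ih => rw [K]; omega

theorem K_mono : StrictMono K := strictMono_nat_of_lt_succ fun n => by
  have := K_grow n
  omega

theorem K_id (a m : ℕ) : K (a + 1) * K (a + m) - K a * K (a + m + 1) = K m := by
  induction a with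
  | zero => simp [K]
  | succ a ih =>
    rw [show a + 1 + m = a + m + 1 by ring, K, K]
    linear_combination ih

theorem K_lt {a m : ℕ} (ha : 0 < a) (hm : 0 < m) : K a + K m < K (a + m) := by
  rcases le_total a m with h | h
  · have h1 := K_mono.monotone h
    have h2 := K_grow m
    have h3 := K_mono.monotone (show m + 1 ≤ a + m by omega)
    omega
  · have h1 := K_mono.monotone h
    have h2 := K_grow a
    have h3 := K_mono.monotone (show a + 1 ≤ a + m by omega)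
    omega

theorem pull_lin (c : ℝ) {W : List Af} (h : ∀ g ∈ W, g ∈ ({((22, -1), 0)} : Set Af)) :
    pullW ((1, -0), c) W = (((K (W.length + 1) : ℝ), -(K W.length : ℝ)), c) := by
  induction W with
  | nil => simp [pullW, K]
  | cons g W ih =>
    rw [pullW, ih fun g hg => h g (List.mem_cons_of_mem _ hg), h g List.mem_cons_self]
    simp [pull, K, mul_comm, sub_eq_add_neg]

end NTb

open NTb

/-- First vary `p` with `w = 0` (at `p = 0` the mixed map is `g0`), then vary `w`. -/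
theorem gen_R {A Ln : Set Af} (hA : A.Countable) (hL : Ln.Countable) (h : NT A Ln) :
    ∃ Bp : Set ℝ, Bp.Countable ∧ ∀ p ∉ Bp, ∃ Bw : Set ℝ, Bw.Countable ∧ ∀ w ∉ Bw,
      NT {g | ∃ g0 ∈ A, ∃ g1 ∈ A, ∃ g2 ∈ A, g = mixA p w g0 g1 g2}
        {l | ∃ l0 ∈ Ln, l = l0 ∨ l = shf w l0 ∨ l = shf (-w) l0} := by
  have := hA.to_subtype
  have := hL.to_subtype
  obtain ⟨Bp, h1, h2⟩ := gen (fun (i : A × A × A) p => mixA p 0 i.1 i.2.1 i.2.2)
    (fun (j : Ln) _ => j) (fun i => by unfold mixA; fun_prop) (fun _ => contDiff_const)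
    (h.mono (by rintro _ ⟨i, rfl⟩; simp [mixA]) (by rintro _ ⟨i, rfl⟩; exact i.2))
  refine ⟨Bp, h1, fun p hp => ?_⟩
  obtain ⟨Bw, h3, h4⟩ := gen (fun (i : A × A × A) w => mixA p w i.1 i.2.1 i.2.2)
    (fun (j : Ln × ℤ) w => shf (j.2 * w) j.1) (fun i => by unfold mixA shf; fun_prop)
    (fun _ => by unfold shf; fun_prop)
    ((h2 p hp).mono subset_rfl (by rintro _ ⟨i, rfl⟩; exact ⟨i.1, by simp [shf]⟩))
  refine ⟨Bw, h3, fun w hw => (h4 w hw).mono ?_ ?_⟩
  · rintro _ ⟨g0, h0, g1, h1, g2, h2, rfl⟩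
    exact ⟨(⟨g0, h0⟩, ⟨g1, h1⟩, ⟨g2, h2⟩), rfl⟩
  · rintro l ⟨l0, h0, rfl | rfl | rfl⟩
    · exact ⟨(⟨_, h0⟩, 0), by simp [shf]⟩
    · exact ⟨(⟨_, h0⟩, 1), by simp⟩
    · exact ⟨(⟨_, h0⟩, -1), by simp⟩

/-- First vary `a` with `t = 0` (at `a = 0` the map is `g1`, at `t = 0` the new lines are the
vertical lines `x = x0 + i`), then vary `t`. -/
theorem gen_Z {A Ln G0 : Set Af} {L0 : Set (ℝ × ℝ)} (hA : A.Countable) (hL : Ln.Countable)
    (hG : G0.Countable) (hL0 : L0.Countable) (hv : ∀ i : ℤ, lineAt 0 (x0 + i, 0) ∈ Ln)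
    (h : NT A Ln) :
    ∃ Ba : Set ℝ, Ba.Countable ∧ ∀ a ∉ Ba, ∃ Bt : Set ℝ, Bt.Countable ∧ ∀ t ∉ Bt,
      NT {g | ∃ g1 ∈ A, ∃ g0 ∈ G0, ∃ i : ℤ, g = g1 + dfm a t i g0}
        (Ln ∪ {l | ∃ c ∈ L0, ∃ i : ℤ, l = lineAt (t * c.1) (i + x0 + t * (c.2 - x0), 0)}) := by
  have := hA.to_subtype
  have := hL.to_subtype
  have := hG.to_subtype
  have := hL0.to_subtype
  obtain ⟨Ba, h1, h2⟩ := gen (fun (i : A × G0 × ℤ) a => i.1 + dfm a 0 i.2.2 i.2.1)
    (fun (j : Ln) _ => j) (fun i => by unfold dfm; fun_prop) (fun _ => contDiff_const)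
    (h.mono (by rintro _ ⟨i, rfl⟩; simp [dfm, Prod.mk_zero_zero]) (by rintro _ ⟨i, rfl⟩; exact i.2))
  refine ⟨Ba, h1, fun a ha => ?_⟩
  obtain ⟨Bt, h3, h4⟩ := gen (fun (i : A × G0 × ℤ) t => i.1 + dfm a t i.2.2 i.2.1)
    (Sum.elim (fun (j : Ln) _ => j) fun (j : L0 × ℤ) t =>
      lineAt (t * j.1.1.1) (j.2 + x0 + t * (j.1.1.2 - x0), 0)) (fun i => by unfold dfm; fun_prop)
    (by
      rintro (j | j)
      · exact contDiff_const
      · simp only [Sum.elim_inr, lineAt]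
        fun_prop)
    ((h2 a ha).mono subset_rfl (by
      rintro _ ⟨j | j, rfl⟩
      · exact ⟨j, rfl⟩
      · exact ⟨⟨_, hv j.2⟩, by simp [add_comm]⟩))
  refine ⟨Bt, h3, fun t ht => (h4 t ht).mono ?_ ?_⟩
  · rintro _ ⟨g1, h1, g0, h0, i, rfl⟩
    exact ⟨(⟨g1, h1⟩, ⟨g0, h0⟩, i), rfl⟩
  · rintro l (hl | ⟨c, hc, i, rfl⟩)
    · exact ⟨.inl ⟨l, hl⟩, rfl⟩
    · exact ⟨.inr (⟨c, hc⟩, i), rfl⟩

/-- The linear map and the vertical lines through `x0 + ℤ`. With `K 0 = 0`, `K 1 = 1`,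
`K (n+2) = 22 K (n+1) - K n` the pull-back of `x - c` along `n` letters is
`K (n+1) x - K n y - c`; the determinant is an integer plus `x0 * (K b - K a - K (b - a))` up to sign,
with `0 < a < b`, `K b > K a + K (b-a)`, `K (a+1) K b - K a K (b+1) = K (b-a)`, and `x0 = √2` is
irrational. -/
theorem nt_lin : NT {((22, -1), 0)} {l | ∃ i : ℤ, l = lineAt 0 (x0 + i, 0)} := by
  rintro _ ⟨i1, rfl⟩ _ ⟨i2, rfl⟩ _ ⟨i3, rfl⟩ W1 W2 n1 n2 w1 w2 h
  have w3 : ∀ g ∈ W1 ++ W2, g ∈ ({((22, -1), 0)} : Set Af) := fun g hg =>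
    (List.mem_append.1 hg).elim (w1 g) (w2 g)
  simp only [lineAt] at h
  rw [pull_lin _ w1, pull_lin _ w3, List.length_append] at h
  have h1 := K_lt (List.length_pos_iff.2 n1) (List.length_pos_iff.2 n2)
  have h2 := congrArg (Int.cast : ℤ → ℝ) (K_id W1.length W2.length)
  push_cast at h2
  generalize W1.length = a at *
  generalize W2.length = m at *
  refine (irrational_sqrt_two.mul_intCast (sub_ne_zero.2 h1.ne)).ne_int
    (K (a + m) * i2 - K a * i3 - K m * i1) ?_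
  simp only [det3, x0] at h
  push_cast
  linear_combination h - (√2 + i1) * h2

/-- A countable set misses a point of every interval. -/
theorem exists_notMem_Ioo {B : Set ℝ} (hB : B.Countable) {a b : ℝ} (hab : a < b) :
    ∃ t ∈ Ioo a b, t ∉ B := by
  obtain ⟨t, h1, h2⟩ := (hB.dense_compl ℝ).exists_mem_open isOpen_Ioo (nonempty_Ioo.2 hab)
  exact ⟨t, h2, h1⟩

end Pool.Agent.MP_369096_an.H89
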