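import Pool.Agent.MP_369096_an.H89.Eig
import Pool.Agent.MP_369096_an.H89.Green
import Pool.Agent.MP_369096_an.H89.Comb

/-!
TASK NewK. The horseshoe of the next level. Auxiliary lemmas go in namespace `H89.NewK`.

Notation: `q' = Q q`, `Lw = J Q - l`, `Ω = Om K Q l J`, `e = K.e`, `u', s', μ', e'` from `eigen`, `gr` from `green`
(`B` = a bound of `|u i| + |s i|` on `[0, q']`, independent of `J`, `κ`). Choose lap centres `ξ P k` (`Laps`).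
For `ω' ∈ Words (Dn ..)` let `ω = bs q' ω'`, `ω_t = trc (Dz ..) (Lw q) (ω (· + t q')) ∈ Ω`, `P_t = K.P ω_t`,
`Δ_t = pt (K.Y ω) (t q') - P_t`; by `trc_agree`, `closew`, `shift_pow`: `‖Δ_t‖ ≤ c2 μ^(-(JQ + l))`, which is `≤ η b / 100` when `c ≥ 100 c2 / η`. Put
`c_t = κ Δ_t.1 - (e + κ) ξ P_t (ω' (t q'))` and `K'.Y ω' i = K.Y ω i + gr c i`, `K'.a = akick K.a q' κ`.
With `|c_t| ≤ M := e b η / 100 + 18 η e m b` (`|κ| ≤ e`, `e + κ ≤ 2 η e`), so `M / e' ≤ 80 m b`: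
* at a marker, `X = gr c (t q') + Δ_t.1` satisfies `|X - ξ| ≤ 3 b / 10` (three terms: `|(e+κ)/e' - 1| 9 m b`,
  `|Δ| (1 + e/e')`, `4 M/(e' μ')`) and `|gr c (t q' - 1) + Δ_t.2| ≤ W / 20 + ...`: indeed `≤ 2 · 80 m b + b ≤ W / 20`;
  so the ball of radius `b/5` lies in the lap and in the margin of `K`, where `F'` is affine with gradient `K'.co`;
* at other times the point is within `4 B M / e' ≤ B W` of `pt (K.Y ω) i`, and `‖pt (K.Y ω) i - K.P ω''‖ > c0 μ^(-2Q)` for `ω'' ∈ Ω`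
  (`sepw`, `phase`), so for `W ≤ W0` a ball of radius `b / 5 ≤ W` misses all boxes (also the translated ones, `KOK.small`) and `F' = F` there;
* `K'.dl = b/5`, `K'.sp = b`. Separation: closeness gives `q' ∣ i - i'` and equal letters off the markers (`sepw`, `phase`);
  at markers the centres are within `b + 2 W ≤ 3 W ≤ c0 μ^(-Lw)`, so they have the same code (`sepw`, `Om_unique`),
  and different laps would be `2b - 6b/10 > b` apart;
* continuity: `KOK.cont` and the last clause of `green`; equivariance: `shift_pow` and the shift clause.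
-/

set_option autoImplicit false

open Set Filter Topology

namespace Pool.Agent.MP_369096_an.H89

namespace NewK

variable {F : E → ℝ} {L : ℝ} {K : KD} {Q l m J : ℕ}

/-- The code of the box centre at the marker `t`. -/
noncomputable def cw (K : KD) (Q l J : ℕ) (ω : ℤ → ℕ) (t : ℤ) : ℤ → ℕ :=
  trc (Dz K Q l) ((J * Q - l) * K.q) fun j => bs (Q * K.q) ω (j + t * (Q * K.q : ℕ))

/-- The deviation from the box centre at the marker `t`. -/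
noncomputable def dev (K : KD) (Q l J : ℕ) (ω : ℤ → ℕ) (t : ℤ) : E :=
  pt (K.Y (bs (Q * K.q) ω)) (t * (Q * K.q : ℕ)) - K.P (cw K Q l J ω t)

/-- The forcing term at the marker `t`. -/
noncomputable def kick (K : KD) (Q l J : ℕ) (κ : ℝ) (ξ : E → ℕ → ℝ) (ω : ℤ → ℕ) (t : ℤ) : ℝ :=
  κ * (dev K Q l J ω t).1 - (K.e + κ) * ξ (K.P (cw K Q l J ω t)) (ω (t * (Q * K.q : ℕ)))

theorem bs_X (hk : KOK F K) {ω : ℤ → ℕ} (hω : ω ∈ Words (Dn K Q l m)) : bs (Q * K.q) ω ∈ K.X :=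
  words_Dz_sub hk Q l (bs_mem hk hω)

theorem cw_mem (hk : KOK F K) {ω : ℤ → ℕ} (hω : ω ∈ Words (Dn K Q l m)) (J : ℕ) (t : ℤ) :
    cw K Q l J ω t ∈ Om K Q l J :=
  ⟨_, words_Dz_shift hk (bs_mem hk hω) t, rfl⟩

theorem letter_lt {ω : ℤ → ℕ} (hω : ω ∈ Words (Dn K Q l m)) (t : ℤ) :
    ω (t * (Q * K.q : ℕ)) < m := by
  have h := hω (t * (Q * K.q : ℕ))
  unfold Dn at h
  rw [if_pos (dvd_mul_left _ _)] at h
  exact Finset.mem_range.mp h

theorem shift_Y (hk : KOK F K) {ω : ℤ → ℕ} (hω : ω ∈ K.X) (t i : ℤ) :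
    K.Y (fun j => ω (j + t * (Q * K.q : ℕ))) i = K.Y ω (i + t * (Q * K.q : ℕ)) := by
  have h := hk.shift_pow hω (t * Q) i
  have e : ∀ j : ℤ, j + t * ((Q * K.q : ℕ) : ℤ) = j + t * Q * K.q := fun j => by
    push_cast; ring
  simp only [e]
  exact h

theorem dev_le (hk : KOK F K) {c2 : ℝ} (hc2 : ∀ (k : ℕ), ∀ ω ∈ K.X, ∀ ω' ∈ K.X, ∀ i : ℤ,
      (∀ j : ℤ, |j| ≤ k * K.q → ω (i + j) = ω' (i + j)) →
        ‖pt (K.Y ω) i - pt (K.Y ω') i‖ * K.μ ^ k ≤ c2)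
    (hJ : 1 ≤ J) (hl : l ≤ Q) {ω : ℤ → ℕ} (hω : ω ∈ Words (Dn K Q l m)) (t : ℤ) :
    ‖dev K Q l J ω t‖ * K.μ ^ (J * Q + l) ≤ c2 := by
  have h1 := words_Dz_shift hk (bs_mem hk hω) t
  have h2 := hc2 (J * Q + l) _ (words_Dz_sub hk Q l h1) _
    (words_Dz_sub hk Q l (Om_sub hk Q l J (cw_mem hk hω J t))) 0 (fun j hj => by
      unfold cw
      rw [trc_agree hk hJ hl h1 (0 + j) (by rw [zero_add]; exact hj)])
  have h3 : pt (K.Y fun j => bs (Q * K.q) ω (j + t * (Q * K.q : ℕ))) 0 =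
      pt (K.Y (bs (Q * K.q) ω)) (t * (Q * K.q : ℕ)) := by
    unfold pt
    rw [shift_Y hk (bs_X hk hω), shift_Y hk (bs_X hk hω), zero_add, zero_sub, neg_add_eq_sub]
  rw [h3] at h2
  exact h2

theorem bs_shift (n : ℕ) (ω : ℤ → ℕ) : bs n (fun j => ω (j + n)) = fun j => bs n ω (j + n) := by
  funext j
  unfold bs
  by_cases h : (n : ℤ) ∣ j
  · rw [if_pos h, if_pos (h.add (dvd_refl _))]
  · rw [if_neg h, if_neg fun h' => h ((dvd_add_left (dvd_refl _)).mp h')]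

theorem cw_shift (ω : ℤ → ℕ) (t : ℤ) :
    cw K Q l J (fun j => ω (j + (Q * K.q : ℕ))) t = cw K Q l J ω (t + 1) := by
  unfold cw
  rw [bs_shift]
  have e : ∀ j : ℤ, j + t * ((Q * K.q : ℕ) : ℤ) + (Q * K.q : ℕ) = j + (t + 1) * (Q * K.q : ℕ) :=
    fun j => by ring
  simp only [e]

theorem Y_shift (hk : KOK F K) {ω : ℤ → ℕ} (hω : ω ∈ Words (Dn K Q l m)) (i : ℤ) :
    K.Y (bs (Q * K.q) fun j => ω (j + (Q * K.q : ℕ))) i =
      K.Y (bs (Q * K.q) ω) (i + (Q * K.q : ℕ)) := by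
  rw [bs_shift]
  have h := shift_Y (Q := Q) hk (bs_X hk hω) 1 i
  simp only [one_mul] at h
  exact h

theorem kick_shift (hk : KOK F K) {ω : ℤ → ℕ} (hω : ω ∈ Words (Dn K Q l m)) (κ : ℝ)
    (ξ : E → ℕ → ℝ) :
    kick K Q l J κ ξ (fun j => ω (j + (Q * K.q : ℕ))) = fun t => kick K Q l J κ ξ ω (t + 1) := by
  funext t
  unfold kick dev
  rw [cw_shift]
  have e : t * ((Q * K.q : ℕ) : ℤ) + (Q * K.q : ℕ) = (t + 1) * (Q * K.q : ℕ) := by ring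
  simp only [pt, Prod.fst_sub, Y_shift hk hω, e]

theorem bs_congr {n : ℕ} {ω ω' : ℤ → ℕ} {i : ℤ} (h : ω i = ω' i) : bs n ω i = bs n ω' i := by
  unfold bs
  rw [h]

theorem cw_congr {ω ω' : ℤ → ℕ} {t : ℤ}
    (h : ∀ j : ℤ, |j - t * (Q * K.q : ℕ)| ≤ ((J * Q - l) * K.q : ℕ) → ω j = ω' j) :
    cw K Q l J ω t = cw K Q l J ω' t := by
  funext i
  unfold cw trc
  by_cases hi : |i| ≤ (((J * Q - l) * K.q : ℕ) : ℤ)
  · rw [if_pos hi, if_pos hi]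
    exact bs_congr (h _ (by rwa [add_sub_cancel_right]))
  · rw [if_neg hi, if_neg hi]

theorem norm_pt_le {g : ℤ → ℝ} {A : ℝ} (h : ∀ i, |g i| ≤ A) (i : ℤ) : ‖pt g i‖ ≤ A := by
  unfold pt
  rw [Prod.norm_def]
  exact max_le (h _) (h _)

theorem pt_add (x g : ℤ → ℝ) (i : ℤ) : pt (fun j => x j + g j) i = pt x i + pt g i := rfl

theorem one_le_iv {k : ℤ × ℤ} (hk : k ≠ 0) : 1 ≤ ‖iv k‖ := by
  by_contra h
  apply hk
  apply iv_eq_of_norm_lt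
  have e : iv 0 = 0 := by simp [iv]
  rw [e, sub_zero]
  exact lt_of_not_ge h

/-- Points near the orbit at a time that is not a marker are in no box. -/
theorem off_box (hk : KOK F K) (hQ : 2 * l + 1 < Q) {c0 : ℝ}
    (hc0 : ∀ (k : ℕ), ∀ ω ∈ K.X, ∀ ω' ∈ K.X,
      ∀ i i' : ℤ, ‖pt (K.Y ω) i - pt (K.Y ω') i'‖ * K.μ ^ k ≤ c0 →
        (K.q : ℤ) ∣ i - i' ∧ ∀ j : ℤ, |j| ≤ k * K.q → ω (i + j) = ω' (i' + j))
    {ω : ℤ → ℕ} (hω : ω ∈ Words (Dz K Q l)) {i : ℤ} (hi : ¬ ((Q * K.q : ℕ) : ℤ) ∣ i) {z : E}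
    {r W : ℝ} (hz : ‖z - pt (K.Y ω) i‖ ≤ r) (h1 : (r + W) * K.μ ^ (2 * Q) ≤ c0)
    (h2 : r + W ≤ 1 / 2) : ∀ ω' ∈ Om K Q l J, ∀ k, W < ‖z - iv k - K.P ω'‖ := by
  intro ω' hω' k
  have hω2 := Om_sub hk Q l J hω'
  have hX := words_Dz_sub hk Q l hω
  have hX2 := words_Dz_sub hk Q l hω2
  by_contra hcon
  have hcon := le_of_not_gt hcon
  have htri : ‖pt (K.Y ω) i - iv k - K.P ω'‖ ≤ r + W := by
    have e : pt (K.Y ω) i - iv k - K.P ω' = (z - iv k - K.P ω') - (z - pt (K.Y ω) i) := by abel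
    rw [e]
    exact (norm_sub_le _ _).trans (by linarith)
  by_cases hk0 : k = 0
  · have e : iv 0 = 0 := by simp [iv]
    rw [hk0, e, sub_zero] at htri
    have hμ : 0 ≤ K.μ ^ (2 * Q) := pow_nonneg (by linarith [hk.eok.mu]) _
    obtain ⟨h3, h4⟩ := hc0 (2 * Q) ω hX ω' hX2 i 0
      ((mul_le_mul_of_nonneg_right htri hμ).trans h1)
    have h5 := phase hk hQ hω hω2 h3 h4
    rw [sub_zero] at h5
    exact hi h5
  · obtain ⟨ρ, hρ, hs⟩ := hk.small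
    have h3 := one_le_iv hk0
    have h4 : ‖pt (K.Y ω) i‖ ≤ ρ := norm_pt_le (hs ω hX) i
    have h5 : ‖K.P ω'‖ ≤ ρ := norm_pt_le (hs ω' hX2) 0
    have e : iv k = pt (K.Y ω) i - K.P ω' - (pt (K.Y ω) i - iv k - K.P ω') := by abel
    have h6 : ‖iv k‖ ≤ ‖pt (K.Y ω) i‖ + ‖K.P ω'‖ + ‖pt (K.Y ω) i - iv k - K.P ω'‖ := by
      conv_lhs => rw [e]
      exact (norm_sub_le _ _).trans (by linarith [norm_sub_le (pt (K.Y ω) i) (K.P ω')])
    linarith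

/-- The properties of the correction term. -/
structure GP (K : KD) (Q l m J : ℕ) (κ b W A : ℝ) (ξ : E → ℕ → ℝ) (g : (ℤ → ℕ) → ℤ → ℝ) :
    Prop where
  rc : ∀ ω ∈ Words (Dn K Q l m), ∀ i : ℤ, g ω (i + 1) = akick K.a (Q * K.q) κ i * g ω i - g ω (i - 1) +
    if ((Q * K.q : ℕ) : ℤ) ∣ i then kick K Q l J κ ξ ω (i / (Q * K.q : ℕ)) else 0
  sh : ∀ ω ∈ Words (Dn K Q l m), ∀ i : ℤ,
    g (fun j => ω (j + (Q * K.q : ℕ))) i = g ω (i + (Q * K.q : ℕ))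
  m1 : ∀ ω ∈ Words (Dn K Q l m), ∀ t : ℤ, |g ω (t * (Q * K.q : ℕ)) + (dev K Q l J ω t).1 -
    ξ (K.P (cw K Q l J ω t)) (ω (t * (Q * K.q : ℕ)))| ≤ 3 * b / 10
  m2 : ∀ ω ∈ Words (Dn K Q l m), ∀ t : ℤ,
    |g ω (t * (Q * K.q : ℕ) - 1) + (dev K Q l J ω t).2| ≤ W / 20
  bd : ∀ ω ∈ Words (Dn K Q l m), ∀ i : ℤ, |g ω i| ≤ A
  ct : ∀ η > 0, ∃ J1 : ℕ, ∀ ω ∈ Words (Dn K Q l m), ∀ ω' ∈ Words (Dn K Q l m), ∀ i : ℤ,
    (∀ j : ℤ, |j - i| ≤ (J1 : ℤ) → ω j = ω' j) → |g ω i - g ω' i| ≤ η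

/-- The lap data in functional form. -/
def LP (F F' : E → ℝ) (K : KD) (Q l m J : ℕ) (κ b W : ℝ) (ξ : E → ℕ → ℝ) : Prop :=
  ∀ ω ∈ Om K Q l J, ∀ k < m, |ξ (K.P ω) k| ≤ 9 * m * b ∧
    (∀ k' < m, k ≠ k' → 2 * b ≤ |ξ (K.P ω) k - ξ (K.P ω) k'|) ∧
    ∀ z : E, |z.1 - (K.P ω).1 - ξ (K.P ω) k| ≤ b / 2 → |z.2 - (K.P ω).2| ≤ W / 10 →
      F' z = F z + κ * (z.1 - (K.P ω).1) - (K.e + κ) * ξ (K.P ω) k

theorem exists_LP {F' : E → ℝ} {κ b W : ℝ} (h : Laps F F' (K.P '' Om K Q l J) K.e W b κ m) :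
    ∃ ξ, LP F F' K Q l m J κ b W ξ := by
  choose! ξ hξ using h
  exact ⟨ξ, fun ω hω => hξ _ ⟨ω, hω, rfl⟩⟩

section Fields

variable {F' : E → ℝ} {κ b W A c0 : ℝ} {ξ : E → ℕ → ℝ} {g : (ℤ → ℕ) → ℤ → ℝ}

theorem aff_new (hk : KOK F K) (hQ : 2 * l + 1 < Q)
    (hc0 : ∀ (k : ℕ), ∀ ω ∈ K.X, ∀ ω' ∈ K.X,
      ∀ i i' : ℤ, ‖pt (K.Y ω) i - pt (K.Y ω') i'‖ * K.μ ^ k ≤ c0 →
        (K.q : ℤ) ∣ i - i' ∧ ∀ j : ℤ, |j| ≤ k * K.q → ω (i + j) = ω' (i' + j))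
    (hg : GP K Q l m J κ b W A ξ g) (hl : LP F F' K Q l m J κ b W ξ)
    (hoff : ∀ z : E, (∀ ω ∈ Om K Q l J, ∀ k, W < ‖z - iv k - K.P ω‖) → F' z = F z)
    (hb : 4 * b ≤ W) (h1 : (b / 5 + A + W) * K.μ ^ (2 * Q) ≤ c0) (h2 : b / 5 + A + W ≤ 1 / 2)
    (h3 : b / 5 + A ≤ K.dl) {ω : ℤ → ℕ} (hω : ω ∈ Words (Dn K Q l m)) (i : ℤ) (z : E)
    (hz : ‖z - pt (fun j => K.Y (bs (Q * K.q) ω) j + g ω j) i‖ ≤ b / 5) :
    F' z = (K.Y (bs (Q * K.q) ω) (i + 1) + g ω (i + 1)) + lin (akick K.a (Q * K.q) κ i, -1)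
      (z - pt (fun j => K.Y (bs (Q * K.q) ω) j + g ω j) i) := by
  have hz2 : ‖z - pt (K.Y (bs (Q * K.q) ω)) i‖ ≤ b / 5 + A := by
    have e : z - pt (K.Y (bs (Q * K.q) ω)) i =
        (z - pt (fun j => K.Y (bs (Q * K.q) ω) j + g ω j) i) + pt (g ω) i := by
      rw [pt_add]; abel
    rw [e]
    exact (norm_add_le _ _).trans (add_le_add hz (norm_pt_le (hg.bd ω hω) i))
  have hF := hk.aff _ (bs_X hk hω) i z (hz2.trans h3)
  have hrc := hg.rc ω hω i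
  by_cases hi : ((Q * K.q : ℕ) : ℤ) ∣ i
  · obtain ⟨t, ht⟩ := hi
    have hn : ((Q * K.q : ℕ) : ℤ) ≠ 0 := by
      have := hk.eok.qpos
      have h4 : 0 < Q * K.q := Nat.mul_pos (by omega) this
      exact_mod_cast h4.ne'
    have ht' : i = t * (Q * K.q : ℕ) := by rw [ht]; ring
    subst ht'
    rw [if_pos (dvd_mul_left _ _), Int.mul_ediv_cancel _ hn] at hrc
    obtain ⟨-, -, h5⟩ := hl _ (cw_mem hk hω J t) _ (letter_lt hω t)
    have hz3 := (norm_fst_le _).trans hz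
    have hz4 := (norm_snd_le _).trans hz
    have m1 := hg.m1 ω hω t
    have m2 := hg.m2 ω hω t
    simp only [dev, pt, Prod.fst_sub, Prod.snd_sub, Real.norm_eq_abs] at hz3 hz4 m1 m2
    rw [h5 z (by rw [abs_le] at *; constructor <;> linarith)
      (by rw [abs_le] at *; constructor <;> linarith), hF, hrc]
    simp only [kick, dev, lin, KD.co, akick, pt, Prod.fst_sub, Prod.snd_sub,
      if_pos (dvd_mul_left ((Q * K.q : ℕ) : ℤ) t)]
    ring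
  · rw [hoff z (off_box hk hQ hc0 (bs_mem hk hω) hi hz2 h1 h2), hF, hrc]
    simp only [lin, KD.co, akick, pt, Prod.fst_sub, Prod.snd_sub, if_neg hi]
    ring

theorem centre_le (hk : KOK F K) (hg : GP K Q l m J κ b W A ξ g) (hl : LP F F' K Q l m J κ b W ξ)
    (hb : 0 < b) (hm : 1 ≤ m) (hW : 4000 * m * b ≤ W) {ω : ℤ → ℕ} (hω : ω ∈ Words (Dn K Q l m))
    (t : ℤ) : ‖pt (fun j => K.Y (bs (Q * K.q) ω) j + g ω j) (t * (Q * K.q : ℕ)) -
      K.P (cw K Q l J ω t)‖ ≤ W / 20 := by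
  obtain ⟨h5, -, -⟩ := hl _ (cw_mem hk hω J t) _ (letter_lt hω t)
  have m1 := hg.m1 ω hω t
  have m2 := hg.m2 ω hω t
  have hm' : (1 : ℝ) ≤ m := by exact_mod_cast hm
  have h6 : b ≤ m * b := le_mul_of_one_le_left hb.le hm'
  simp only [dev, pt, Prod.fst_sub, Prod.snd_sub] at m1 m2
  rw [Prod.norm_def]
  simp only [pt, Prod.fst_sub, Prod.snd_sub, Real.norm_eq_abs]
  rw [abs_le] at m1 m2 h5
  refine max_le ?_ ?_ <;> rw [abs_le] <;> constructor <;> linarith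

theorem sep_new (hk : KOK F K) (hQ : 2 * l + 1 < Q)
    (hc0 : ∀ (k : ℕ), ∀ ω ∈ K.X, ∀ ω' ∈ K.X,
      ∀ i i' : ℤ, ‖pt (K.Y ω) i - pt (K.Y ω') i'‖ * K.μ ^ k ≤ c0 →
        (K.q : ℤ) ∣ i - i' ∧ ∀ j : ℤ, |j| ≤ k * K.q → ω (i + j) = ω' (i' + j))
    (hg : GP K Q l m J κ b W A ξ g) (hl : LP F F' K Q l m J κ b W ξ)
    (hb : 0 < b) (hm : 1 ≤ m) (hW : 4000 * m * b ≤ W) (h1 : (b + 2 * A) * K.μ ^ (2 * Q) ≤ c0)
    (h2 : W * K.μ ^ (J * Q - l) ≤ c0) {ω ω' : ℤ → ℕ} (hω : ω ∈ Words (Dn K Q l m))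
    (hω' : ω' ∈ Words (Dn K Q l m)) (i i' : ℤ)
    (h : ‖pt (fun j => K.Y (bs (Q * K.q) ω) j + g ω j) i -
      pt (fun j => K.Y (bs (Q * K.q) ω') j + g ω' j) i'‖ < b) :
    ((Q * K.q : ℕ) : ℤ) ∣ i - i' ∧ ω i = ω' i' := by
  have hμ : 0 ≤ K.μ := by linarith [hk.eok.mu]
  have h3 : ‖pt (K.Y (bs (Q * K.q) ω)) i - pt (K.Y (bs (Q * K.q) ω')) i'‖ ≤ b + 2 * A := by
    have e : pt (K.Y (bs (Q * K.q) ω)) i - pt (K.Y (bs (Q * K.q) ω')) i' =
        (pt (fun j => K.Y (bs (Q * K.q) ω) j + g ω j) i -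
          pt (fun j => K.Y (bs (Q * K.q) ω') j + g ω' j) i') - (pt (g ω) i - pt (g ω') i') := by
      rw [pt_add, pt_add]; abel
    rw [e]
    have h4 := norm_sub_le (pt (g ω) i) (pt (g ω') i')
    have h5 := norm_pt_le (hg.bd ω hω) i
    have h6 := norm_pt_le (hg.bd ω' hω') i'
    exact (norm_sub_le _ _).trans (by linarith)
  obtain ⟨h4, h5⟩ := hc0 (2 * Q) _ (bs_X hk hω) _ (bs_X hk hω') i i'
    ((mul_le_mul_of_nonneg_right h3 (pow_nonneg hμ _)).trans h1)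
  have h6 := phase hk hQ (bs_mem hk hω) (bs_mem hk hω') h4 h5
  refine ⟨h6, ?_⟩
  by_cases hi : ((Q * K.q : ℕ) : ℤ) ∣ i
  · have hi' : ((Q * K.q : ℕ) : ℤ) ∣ i' := by
      have := hi.sub h6
      rwa [sub_sub_cancel] at this
    obtain ⟨t, ht⟩ := hi
    obtain ⟨t', ht'⟩ := hi'
    rw [mul_comm] at ht ht'
    subst ht ht'
    have c1 := centre_le hk hg hl hb hm hW hω t
    have c2 := centre_le hk hg hl hb hm hW hω' t'
    have hm' : (1 : ℝ) ≤ m := by exact_mod_cast hm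
    have h7 : b ≤ m * b := le_mul_of_one_le_left hb.le hm'
    have h8 : ‖K.P (cw K Q l J ω t) - K.P (cw K Q l J ω' t')‖ ≤ W := by
      have e : ∀ p q p' q' : E, p - p' = (q - q') - (q - p) + (q' - p') := fun p q p' q' => by abel
      rw [e _ (pt (fun j => K.Y (bs (Q * K.q) ω) j + g ω j) (t * (Q * K.q : ℕ))) _
        (pt (fun j => K.Y (bs (Q * K.q) ω') j + g ω' j) (t' * (Q * K.q : ℕ)))]
      refine (norm_add_le _ _).trans ((add_le_add (norm_sub_le _ _) le_rfl).trans ?_)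
      linarith
    have o1 := cw_mem hk hω J t
    have o2 := cw_mem hk hω' J t'
    obtain ⟨-, h9⟩ := hc0 (J * Q - l) _ (words_Dz_sub hk Q l (Om_sub hk Q l J o1)) _
      (words_Dz_sub hk Q l (Om_sub hk Q l J o2)) 0 0
      ((mul_le_mul_of_nonneg_right h8 (pow_nonneg hμ _)).trans h2)
    have h10 : cw K Q l J ω t = cw K Q l J ω' t' :=
      Om_unique o1 o2 fun j hj => by simpa only [zero_add] using h9 j hj
    by_contra hne
    obtain ⟨-, h11, -⟩ := hl _ o1 _ (letter_lt hω t)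
    have h12 := h11 _ (letter_lt hω' t') hne
    have m1 := hg.m1 ω hω t
    have m2 := hg.m1 ω' hω' t'
    have h13 := (norm_fst_le _).trans_lt h
    simp only [dev, pt, Prod.fst_sub, Real.norm_eq_abs] at m1 m2 h13
    rw [← h10] at m2
    rw [abs_le] at m1 m2
    rw [abs_lt] at h13
    have h14 : |ξ (K.P (cw K Q l J ω t)) (ω (t * (Q * K.q : ℕ))) -
        ξ (K.P (cw K Q l J ω t)) (ω' (t' * (Q * K.q : ℕ)))| < 2 * b := by
      rw [abs_lt]; constructor <;> linarith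
    linarith
  · have hi' : ¬ ((Q * K.q : ℕ) : ℤ) ∣ i' := fun h' => hi (by
      have := h6.add h'
      rwa [sub_add_cancel] at this)
    have h7 := h5 0 (by rw [abs_zero]; positivity)
    unfold bs at h7
    rwa [add_zero, add_zero, if_neg hi, if_neg hi'] at h7

theorem cont_new (hk : KOK F K) (hg : GP K Q l m J κ b W A ξ g) (η : ℝ) (hη : 0 < η) :
    ∃ J1 : ℕ, ∀ ω ∈ Words (Dn K Q l m), ∀ ω' ∈ Words (Dn K Q l m), ∀ i : ℤ,
      (∀ j : ℤ, |j - i| ≤ (J1 : ℤ) → ω j = ω' j) →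
        |(K.Y (bs (Q * K.q) ω) i + g ω i) - (K.Y (bs (Q * K.q) ω') i + g ω' i)| ≤ η := by
  obtain ⟨J1, h1⟩ := hk.cont (η / 2) (by positivity)
  obtain ⟨J2, h2⟩ := hg.ct (η / 2) (by positivity)
  refine ⟨J1 + J2, fun ω hω ω' hω' i h => ?_⟩
  have h3 := h1 _ (bs_X hk hω) _ (bs_X hk hω') i fun j hj =>
    bs_congr (h j (by push_cast; linarith [Int.natCast_nonneg J2]))
  have h4 := h2 ω hω ω' hω' i fun j hj => h j (by push_cast; linarith [Int.natCast_nonneg J1])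
  rw [abs_le] at *
  constructor <;> linarith

end Fields

theorem marker_near {n : ℕ} (hn : 0 < n) {t i : ℤ} {J' : ℕ} (h : |t - i / n| ≤ J') :
    |t * n - i| ≤ ((J' + 1) * n : ℕ) := by
  have hn' : (0 : ℤ) < n := by exact_mod_cast hn
  have h1 := Int.emod_add_mul_ediv i n
  have h2 := Int.emod_nonneg i hn'.ne'
  have h3 := Int.emod_lt_of_pos i hn'
  have e : t * n - i = (t - i / n) * n - i % n := by linarith
  rw [abs_le] at h
  have h4 : (t - i / n) * n ≤ J' * n := mul_le_mul_of_nonneg_right h.2 hn'.le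
  have h5 : -(J' : ℤ) * n ≤ (t - i / n) * n := mul_le_mul_of_nonneg_right h.1 hn'.le
  rw [e, abs_le]
  push_cast
  constructor <;> linarith

theorem kick_le {F' : E → ℝ} {κ b W η : ℝ} {ξ : E → ℕ → ℝ} (hk : KOK F K)
    (hl : LP F F' K Q l m J κ b W ξ) (hη : 0 < η) (hb : 0 < b) (hm : 1 ≤ m) (hκ : |κ| ≤ K.e)
    (hκ1 : |K.e + κ| ≤ 2 * η * K.e) {ω : ℤ → ℕ} (hω : ω ∈ Words (Dn K Q l m)) (t : ℤ)
    (hd : ‖dev K Q l J ω t‖ ≤ η * b / 100) :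
    |kick K Q l J κ ξ ω t| ≤ 20 * η * K.e * m * b := by
  obtain ⟨h5, -, -⟩ := hl _ (cw_mem hk hω J t) _ (letter_lt hω t)
  have he : 0 < K.e := hk.eok.epos
  have hm' : (1 : ℝ) ≤ m := by exact_mod_cast hm
  have h1 : |(dev K Q l J ω t).1| ≤ η * b / 100 := (norm_fst_le _).trans hd
  unfold kick
  refine (abs_sub _ _).trans ?_
  rw [abs_mul, abs_mul]
  have h2 := mul_le_mul hκ h1 (abs_nonneg _) he.le
  have h3 := mul_le_mul hκ1 h5 (abs_nonneg _) (by positivity)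
  have h4 : η * K.e * b ≤ η * K.e * b * m := le_mul_of_one_le_right (by positivity) hm'
  have h6 : 0 ≤ η * K.e * b := by positivity
  linarith

theorem exists_g {F' : E → ℝ} {κ b W η B μ' : ℝ} {ξ : E → ℕ → ℝ} {u' s' : ℤ → ℝ} (hk : KOK F K)
    (hl : LP F F' K Q l m J κ b W ξ) (hη : 0 < η) (hη1 : η ≤ 1 / 4) (hb : 0 < b) (hm : 1 ≤ m)
    (hW : 4000 * m * b ≤ W) (hκ : |κ| ≤ K.e) (hκ1 : |K.e + κ| ≤ 2 * η * K.e)
    (hd : ∀ ω ∈ Words (Dn K Q l m), ∀ t, ‖dev K Q l J ω t‖ ≤ η * b / 100)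
    (he : EOK (Q * K.q) (akick K.a (Q * K.q) κ) u' s' μ') (hn : 2 ≤ Q * K.q) (hB1 : 1 ≤ B)
    (hB : ∀ i : ℤ, 0 ≤ i → i ≤ (Q * K.q : ℕ) → |u' i| ≤ B ∧ |s' i| ≤ B)
    (h1 : η * K.e ≤ 4 * (u' 1 - s' 1)) (h2 : |(K.e + κ) / (u' 1 - s' 1) - 1| * (90 * m) ≤ 1)
    (h3 : 3200 * m ≤ μ') (h4 : 2 * |s' (-1)| ≤ μ') :
    ∃ g, GP K Q l m J κ b W (320 * B * m * b) ξ g := by
  have hm' : (1 : ℝ) ≤ m := by exact_mod_cast hm
  have hmb : b ≤ m * b := le_mul_of_one_le_left hb.le hm'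
  have he0 : 0 < K.e := hk.eok.epos
  have he1 : 0 < u' 1 - s' 1 := he.epos
  have hμ : 0 < μ' := by linarith
  obtain ⟨gr, hgr⟩ := green he (by linarith) hn hB
  generalize u' 1 - s' 1 = e' at *
  have hM : 20 * η * K.e * m * b / e' ≤ 80 * m * b := by
    rw [div_le_iff₀ he1]
    have h5 : 0 ≤ (m : ℝ) * b := by positivity
    linarith [mul_le_mul_of_nonneg_left h1 h5]
  have hc : ∀ ω ∈ Words (Dn K Q l m), ∀ t, |kick K Q l J κ ξ ω t| ≤ 20 * η * K.e * m * b :=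
    fun ω hω t => kick_le hk hl hη hb hm hκ hκ1 hω t (hd ω hω t)
  generalize 20 * η * K.e * m * b = M at hM hc
  refine ⟨fun ω => gr (kick K Q l J κ ξ ω), fun ω hω => (hgr _ _ (hc ω hω)).1, fun ω hω i => ?_,
    fun ω hω t => ?_, fun ω hω t => ?_, fun ω hω i => ?_, fun η1 hη1 => ?_⟩
  · rw [kick_shift hk hω]
    exact (hgr _ _ (hc ω hω)).2.1 i
  · have h5 := (hgr _ _ (hc ω hω)).2.2.1 t
    obtain ⟨h6, -, -⟩ := hl _ (cw_mem hk hω J t) _ (letter_lt hω t)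
    have h7 : |(dev K Q l J ω t).1| ≤ η * b / 100 := (norm_fst_le _).trans (hd ω hω t)
    have h8 : |gr (kick K Q l J κ ξ ω) (t * (Q * K.q : ℕ)) + kick K Q l J κ ξ ω t / e'| ≤
        b / 10 := by
      have e : 4 * M / e' = 4 * (M / e') := by ring
      refine le_of_mul_le_mul_right (h5.trans ?_) hμ
      rw [e]
      linarith [mul_le_mul_of_nonneg_right h3 hb.le]
    have h9 : |κ * (dev K Q l J ω t).1 / e'| ≤ 4 * b / 100 := by
      rw [abs_div, abs_of_pos he1, div_le_iff₀ he1, abs_mul]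
      have := mul_le_mul hκ h7 (abs_nonneg _) he0.le
      linarith [mul_le_mul_of_nonneg_right h1 hb.le]
    have h10 : |((K.e + κ) / e' - 1) * ξ (K.P (cw K Q l J ω t)) (ω (t * (Q * K.q : ℕ)))| ≤
        b / 10 := by
      rw [abs_mul]
      have := mul_le_mul_of_nonneg_left h6 (abs_nonneg ((K.e + κ) / e' - 1))
      linarith [mul_le_mul_of_nonneg_right h2 hb.le]
    have e : gr (kick K Q l J κ ξ ω) (t * (Q * K.q : ℕ)) + (dev K Q l J ω t).1 -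
        ξ (K.P (cw K Q l J ω t)) (ω (t * (Q * K.q : ℕ))) =
        (gr (kick K Q l J κ ξ ω) (t * (Q * K.q : ℕ)) + kick K Q l J κ ξ ω t / e') -
          κ * (dev K Q l J ω t).1 / e' + (dev K Q l J ω t).1 +
          ((K.e + κ) / e' - 1) * ξ (K.P (cw K Q l J ω t)) (ω (t * (Q * K.q : ℕ))) := by
      unfold kick
      ring
    have h11 : η * b ≤ 1 / 4 * b := mul_le_mul_of_nonneg_right hη1 hb.le
    show |gr (kick K Q l J κ ξ ω) (t * (Q * K.q : ℕ)) + (dev K Q l J ω t).1 -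
        ξ (K.P (cw K Q l J ω t)) (ω (t * (Q * K.q : ℕ)))| ≤ 3 * b / 10
    rw [e]
    rw [abs_le] at h7 h8 h9 h10 ⊢
    constructor <;> linarith
  · have h5 := (hgr _ _ (hc ω hω)).2.2.2.1 t
    have h7 : |(dev K Q l J ω t).2| ≤ η * b / 100 := (norm_snd_le _).trans (hd ω hω t)
    have h8 : 2 * |s' (-1)| / μ' ≤ 1 := by rwa [div_le_one hμ]
    have h9 : 0 ≤ 2 * |s' (-1)| / μ' := by positivity
    have h10 : (1 + 2 * |s' (-1)| / μ') * M / e' ≤ 2 * (80 * m * b) := by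
      rw [mul_div_assoc]
      have hM0 : 0 ≤ M / e' := div_nonneg ((abs_nonneg _).trans (hc ω hω t)) he1.le
      exact mul_le_mul (by linarith) hM hM0 (by norm_num)
    have h11 : η * b ≤ 1 / 4 * b := mul_le_mul_of_nonneg_right hη1 hb.le
    have h12 := h5.trans h10
    show |gr (kick K Q l J κ ξ ω) (t * (Q * K.q : ℕ) - 1) + (dev K Q l J ω t).2| ≤ W / 20
    rw [abs_le] at h7 h12 ⊢
    constructor <;> linarith
  · refine ((hgr _ _ (hc ω hω)).2.2.2.2.1 i).trans ?_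
    have e : 4 * B * M / e' = 4 * B * (M / e') := by ring
    rw [e]
    linarith [mul_le_mul_of_nonneg_left hM (by linarith : 0 ≤ B)]
  · obtain ⟨J1, hJ1⟩ := pow_unbounded_of_one_lt (1280 * B * m * b / η1) (one_lt_two (α := ℝ))
    obtain ⟨J2, hJ2⟩ := hk.cont (η1 * e' / (8 * B) / K.e) (by positivity)
    refine ⟨(J1 + 1) * (Q * K.q) + J2 + (J * Q - l) * K.q, fun ω hω ω' hω' i h => ?_⟩
    have h5 := (hgr _ _ (hc ω hω)).2.2.2.2.2 _ (η1 * e' / (8 * B)) J1 i (hc ω' hω') fun t ht => by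
      have h6 := marker_near (by omega) ht
      have h7 : ∀ j : ℤ, |j - t * (Q * K.q : ℕ)| ≤ (J2 + (J * Q - l) * K.q : ℕ) → ω j = ω' j :=
        fun j hj => h j (by
          have h8 := abs_sub_le j (t * (Q * K.q : ℕ)) i
          rw [add_assoc, Nat.cast_add]
          linarith)
      have h8 : cw K Q l J ω t = cw K Q l J ω' t := cw_congr fun j hj =>
        h7 j (hj.trans (by exact_mod_cast Nat.le_add_left _ _))
      have h9 := h7 (t * (Q * K.q : ℕ)) (by rw [sub_self, abs_zero]; positivity)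
      have h10 := hJ2 _ (bs_X hk hω) _ (bs_X hk hω') (t * (Q * K.q : ℕ)) fun j hj =>
        bs_congr (h7 j (hj.trans (by exact_mod_cast Nat.le_add_right _ _)))
      have e : kick K Q l J κ ξ ω t - kick K Q l J κ ξ ω' t =
          κ * (K.Y (bs (Q * K.q) ω) (t * (Q * K.q : ℕ)) -
            K.Y (bs (Q * K.q) ω') (t * (Q * K.q : ℕ))) := by
        simp only [kick, dev, pt, Prod.fst_sub, h8, h9]
        ring
      rw [e, abs_mul]
      refine (mul_le_mul hκ h10 (abs_nonneg _) he0.le).trans_eq ?_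
      field_simp
    refine h5.trans ?_
    have h2J : (0 : ℝ) < 2 ^ J1 := by positivity
    have e : 4 * B * (η1 * e' / (8 * B) + 2 * M / 2 ^ J1) / e' =
        η1 / 2 + 8 * B * (M / e') / 2 ^ J1 := by
      field_simp
      ring
    rw [e]
    have h6 : 8 * B * (M / e') / 2 ^ J1 ≤ η1 / 2 := by
      rw [div_le_iff₀ h2J]
      rw [div_lt_iff₀ hη1] at hJ1
      linarith [mul_le_mul_of_nonneg_left hM (by linarith : 0 ≤ B)]
    linarith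

theorem exists_bound (u s : ℤ → ℝ) (n : ℤ) :
    ∃ B ≥ (1 : ℝ), ∀ i : ℤ, 0 ≤ i → i ≤ n → |u i| + |s i| ≤ B := by
  obtain ⟨B, hB⟩ := ((Set.finite_Icc 0 n).image fun i => |u i| + |s i|).bddAbove
  exact ⟨max 1 B, le_max_left _ _, fun i h1 h2 => (hB ⟨i, ⟨h1, h2⟩, rfl⟩).trans (le_max_right _ _)⟩

end NewK

open NewK in
theorem newK {F : E → ℝ} {L : ℝ} {K : KD} (ha : Adm F L 2) (hk : KOK F K) {η : ℝ} (hη : 0 < η)
    (hη1 : η ≤ 1 / 4) : ∃ c ≥ 1, ∀ Q l m : ℕ, 2 * l + 1 < Q → 2 ≤ m → c * m ≤ K.μ ^ Q →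
      ∀ ζ > 0, ∃ W0 > 0, ∀ (J : ℕ) (W b κ : ℝ) (F' : E → ℝ), 1 ≤ J → W ≤ W0 → 0 < b →
        c * W * K.μ ^ (J * Q - l) ≤ 1 → c ≤ b * K.μ ^ (J * Q + l) → 4000 * m * b ≤ W →
        η / 2 ≤ 1 + κ / K.e → 1 + κ / K.e ≤ 2 * η →
        (∀ z : E, (∀ ω ∈ Om K Q l J, ∀ k, W < ‖z - iv k - K.P ω‖) → F' z = F z) →
        Laps F F' (K.P '' Om K Q l J) K.e W b κ m →
        ∃ K' : KD, KOK F' K' ∧ K'.q = Q * K.q ∧ K'.m = m ∧ K'.D = Dn K Q l m ∧
          K'.e ≤ 4 * η * K.e ∧ η * K.μ ^ Q / 4 ≤ K'.μ ∧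
          ∀ ω ∈ K'.X, ∀ i, |K'.Y ω i - K.Y (bs (Q * K.q) ω) i| ≤ ζ := by
  obtain ⟨ce, hce, heig⟩ := eigen hk.eok hη hη1
  obtain ⟨c0, hc0, hsep⟩ := hk.sepw ha
  obtain ⟨c2, hc2, hclose⟩ := hk.closew
  obtain ⟨ρ, hρ, hsmall⟩ := hk.small
  have he : 0 < K.e := hk.eok.epos
  have hμ : 0 < K.μ := by linarith [hk.eok.mu]
  obtain ⟨c, d1, d2, d3, d4, d5⟩ : ∃ c : ℝ, 90 * ce ≤ c ∧ 100 * c2 ≤ η * c ∧ 1 ≤ c0 * c ∧
      12800 ≤ η * c ∧ 8 * (1 + K.e) ≤ η * c := by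
    refine ⟨90 * ce + 1 / c0 + (100 * c2 + 12800 + 8 * (1 + K.e)) / η, ?_⟩
    have p1 : 0 < 1 / c0 := by positivity
    have p2 : 0 < (100 * c2 + 12800 + 8 * (1 + K.e)) / η := by positivity
    have p3 : η * (90 * ce + 1 / c0 + (100 * c2 + 12800 + 8 * (1 + K.e)) / η) =
        η * (90 * ce + 1 / c0) + (100 * c2 + 12800 + 8 * (1 + K.e)) := by
      field_simp
    have p4 : 0 < η * (90 * ce + 1 / c0) := by positivity
    have p5 : c0 * (90 * ce + 1 / c0 + (100 * c2 + 12800 + 8 * (1 + K.e)) / η) =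
        1 + c0 * (90 * ce + (100 * c2 + 12800 + 8 * (1 + K.e)) / η) := by
      field_simp
      ring
    have p6 : 0 < c0 * (90 * ce + (100 * c2 + 12800 + 8 * (1 + K.e)) / η) := by positivity
    rw [p3, p5]
    refine ⟨?_, ?_, ?_, ?_, ?_⟩ <;> linarith
  have hc : 0 < c := by linarith
  refine ⟨c, by linarith, fun Q l m hQ hm hcm ζ hζ => ?_⟩
  obtain ⟨B, hB1, hB⟩ := exists_bound K.u K.s (Q * K.q : ℕ)
  obtain ⟨W0, hW0, w1, w2, w3, w4, w5⟩ : ∃ W0 > 0, (B + 2) * W0 * K.μ ^ (2 * Q) ≤ c0 ∧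
      (B + 2) * W0 ≤ 1 / 2 ∧ (B + 2) * W0 ≤ K.dl ∧ (B + 2) * W0 ≤ ζ ∧
      (B + 2) * W0 ≤ (1 / 20 - ρ) / 2 := by
    have p1 := hk.dpos
    have p2 : 0 < (1 / 20 - ρ) / 2 := by linarith
    have p3 : 0 < K.μ ^ (2 * Q) := by positivity
    refine ⟨min (min (c0 / K.μ ^ (2 * Q)) (1 / 2)) (min (min K.dl ζ) ((1 / 20 - ρ) / 2)) / (B + 2),
      by positivity, ?_⟩
    rw [mul_div_cancel₀ _ (by positivity), ← le_div_iff₀ p3]
    exact ⟨(min_le_left _ _).trans (min_le_left _ _), (min_le_left _ _).trans (min_le_right _ _),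
      (min_le_right _ _).trans ((min_le_left _ _).trans (min_le_left _ _)),
      (min_le_right _ _).trans ((min_le_left _ _).trans (min_le_right _ _)),
      (min_le_right _ _).trans (min_le_right _ _)⟩
  refine ⟨W0, hW0, fun J W b κ F' hJ hW hb hcW hcb hbW hκ1 hκ2 hoff hlaps => ?_⟩
  obtain ⟨ξ, hξ⟩ := exists_LP hlaps
  have hm' : (2 : ℝ) ≤ m := by exact_mod_cast hm
  have hcm' : c ≤ c * m := le_mul_of_one_le_right hc.le (by linarith)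
  obtain ⟨u', s', μ', hE, e1, e2, e3, e4, e5, e6⟩ := heig Q κ (by linarith) hκ1 hκ2
  have hκe : (1 + κ / K.e) * K.e = K.e + κ := by field_simp
  have k1 := mul_le_mul_of_nonneg_right hκ1 he.le
  have k2 := mul_le_mul_of_nonneg_right hκ2 he.le
  have k3 := mul_le_mul_of_nonneg_right hη1 he.le
  have k4 : 0 < η * K.e := by positivity
  rw [hκe] at k1 k2
  have hκ3 : |κ| ≤ K.e := by
    rw [abs_le]
    constructor <;> linarith
  have hκ4 : |K.e + κ| ≤ 2 * η * K.e := by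
    rw [abs_le]
    constructor <;> linarith
  have hn : 2 ≤ Q * K.q := le_trans (by omega : 2 ≤ Q) (Nat.le_mul_of_pos_right Q hk.eok.qpos)
  have hμQ := mul_le_mul_of_nonneg_left hcm hη.le
  have hdev : ∀ ω ∈ Words (Dn K Q l m), ∀ t, ‖dev K Q l J ω t‖ ≤ η * b / 100 := fun ω hω t => by
    have h1 := dev_le hk hclose hJ (by omega) hω t
    have h2 : 0 < K.μ ^ (J * Q + l) := by positivity
    refine le_of_mul_le_mul_right (h1.trans ?_) h2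
    linarith [mul_le_mul_of_nonneg_left hcb hη.le]
  obtain ⟨g, hg⟩ := exists_g (B := B) hk hξ hη hη1 hb (by omega) hbW hκ3 hκ4 hdev hE hn hB1
    (fun i h1 h2 => ⟨(e6 i h1 h2).1.trans (hB i h1 h2), (e6 i h1 h2).2.trans (hB i h1 h2)⟩) e3
    (by
      have h1 := abs_nonneg ((K.e + κ) / (u' 1 - s' 1) - 1)
      have h2 := (mul_le_mul_of_nonneg_left hcm h1).trans e4
      refine le_of_mul_le_mul_right ?_ hc
      linarith)
    (by linarith [mul_le_mul_of_nonneg_right d4 (Nat.cast_nonneg m)]) (by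
      have h2 := mul_le_mul_of_nonneg_left hcm' hη.le
      have h3 : |s' (-1)| ≤ 1 + 4 * η * K.e := e5
      linarith)
  have hmb : b ≤ m * b := le_mul_of_one_le_left hb.le (by linarith)
  have hW1 : 0 < W := by linarith
  have hA : 320 * B * m * b ≤ B * W / 2 := by
    have h1 : 0 ≤ B * m * b := by positivity
    linarith [mul_le_mul_of_nonneg_left hbW (by linarith : 0 ≤ B)]
  have hBW : (B + 2) * W ≤ (B + 2) * W0 := mul_le_mul_of_nonneg_left hW (by linarith)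
  have hBW1 : 0 ≤ B * W := by positivity
  have hμ2 : 0 ≤ K.μ ^ (2 * Q) := by positivity
  refine ⟨⟨Q * K.q, m, Dn K Q l m, akick K.a (Q * K.q) κ,
    fun ω j => K.Y (bs (Q * K.q) ω) j + g ω j, b / 5, b, u', s', μ'⟩,
    ⟨hE, hm, ?_, Dn_ne hk Q l (by omega), Dn_per hk Q l m, by positivity, hb,
      fun ω hω i z hz => ?_, fun ω hω i => ?_, ?_, fun ω hω ω' hω' i i' h => ?_, cont_new hk hg⟩,
    rfl, rfl, rfl, e2, e1, fun ω hω i => ?_⟩
  · show Dn K Q l m 0 = Finset.range m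
    unfold Dn
    rw [if_pos (dvd_zero _)]
  · exact aff_new hk hQ hsep hg hξ hoff (by linarith)
      ((mul_le_mul_of_nonneg_right (by linarith) hμ2).trans w1) (by linarith) (by linarith) hω i z hz
  · show K.Y (bs (Q * K.q) fun j => ω (j + (Q * K.q : ℕ))) i +
      g (fun j => ω (j + (Q * K.q : ℕ))) i = _
    rw [Y_shift hk hω, hg.sh ω hω]
  · refine ⟨ρ + (1 / 20 - ρ) / 2, by linarith, fun ω hω i => (abs_add_le _ _).trans ?_⟩
    have h1 := hsmall _ (bs_X hk hω) i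
    have h2 := hg.bd ω hω i
    linarith
  · refine sep_new hk hQ hsep hg hξ hb (by omega) hbW
      ((mul_le_mul_of_nonneg_right (by linarith) hμ2).trans w1) ?_ hω hω' i i' h
    refine le_of_mul_le_mul_right ?_ hc
    linarith
  · show |K.Y (bs (Q * K.q) ω) i + g ω i - K.Y (bs (Q * K.q) ω) i| ≤ ζ
    rw [add_sub_cancel_left]
    have h2 := hg.bd ω hω i
    linarith

end Pool.Agent.MP_369096_an.H89
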