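import Pool.Agent.MP_369096_an.H89.BasC
import Pool.Agent.MP_369096_an.H89.NTb

/-!
TASK RBas. Elementary properties of the rounding step
`Rd p w F z = (1-p) F z + p/2 F (z + (w,0)) + p/2 F (z + (-w,0))`.
Auxiliary lemmas go in namespace `H89.RBas`.
-/

set_option autoImplicit false

open Set Filter Topology

namespace Pool.Agent.MP_369096_an.H89

namespace RBas

theorem abs_mix {p a b c M : ℝ} (hp : 0 ≤ p) (hp1 : p ≤ 1) (ha : |a| ≤ M) (hb : |b| ≤ M)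
    (hc : |c| ≤ M) : |(1 - p) * a + p / 2 * b + p / 2 * c| ≤ M := by
  rw [abs_le] at ha hb hc ⊢
  have h1 : 0 ≤ 1 - p := by linarith
  constructor
  · nlinarith [mul_le_mul_of_nonneg_left ha.1 h1, mul_le_mul_of_nonneg_left hb.1 hp,
      mul_le_mul_of_nonneg_left hc.1 hp]
  · nlinarith [mul_le_mul_of_nonneg_left ha.2 h1, mul_le_mul_of_nonneg_left hb.2 hp,
      mul_le_mul_of_nonneg_left hc.2 hp]

theorem norm_sh (t : ℝ) : ‖((t, 0) : E)‖ = |t| := by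
  simp [Prod.norm_def]

theorem norm_add_sh {q z : E} {ρ t w : ℝ} (h : ‖q - z‖ ≤ ρ) (ht : |t| ≤ w) :
    ‖q + (t, 0) - z‖ ≤ ρ + w := by
  have e : q + (t, 0) - z = (q - z) + (t, 0) := by abel
  rw [e]
  exact (norm_add_le _ _).trans (add_le_add h (by rw [norm_sh]; exact ht))

theorem Rd_eqv {F : E → ℝ} {L κ : ℝ} (ha : Adm F L κ) (p w : ℝ) (z : E) (m : ℤ × ℤ) :
    Rd p w F (z + iv m) = Rd p w F z + 22 * (m.1 : ℝ) - (m.2 : ℝ) := by
  unfold Rd
  rw [add_right_comm z (iv m) (w, 0), add_right_comm z (iv m) (-w, 0), ha.eqv, ha.eqv, ha.eqv]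
  ring

theorem sing_sub {G : E → ℝ} {a : E} {c : ℝ} (hG : ∀ z, G (z + a) = G z + c) {q : E}
    (hq : q ∈ Sing G) : q - a ∈ Sing G := by
  rintro ⟨g, hg⟩
  refine hq ⟨(g.1, g.2 - lin g.1 a + c), ?_⟩
  have ht : Tendsto (fun z : E => z - a) (𝓝 q) (𝓝 (q - a)) :=
    (continuous_id.sub continuous_const).tendsto q
  filter_upwards [ht.eventually hg] with z hz
  have h1 := hG (z - a)
  rw [sub_add_cancel] at h1
  rw [h1, hz]
  simp only [ev, lin, Prod.fst_sub, Prod.snd_sub]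
  ring

theorem aff_Rd {F : E → ℝ} (p w : ℝ) {q : E} {g0 g1 g2 : Af} (h0 : Aff F q g0)
    (h1 : Aff F (q + (w, 0)) g1) (h2 : Aff F (q + (-w, 0)) g2) :
    Aff (Rd p w F) q (mixA p w g0 g1 g2) := by
  have t1 : Tendsto (fun z : E => z + (w, 0)) (𝓝 q) (𝓝 (q + (w, 0))) :=
    (continuous_id.add continuous_const).tendsto q
  have t2 : Tendsto (fun z : E => z + (-w, 0)) (𝓝 q) (𝓝 (q + (-w, 0))) :=
    (continuous_id.add continuous_const).tendsto q
  filter_upwards [h0, t1.eventually h1, t2.eventually h2] with z a b c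
  rw [ev_mixA, Rd, a, b, c]

theorem sing_Rd {F : E → ℝ} {p w : ℝ} {q : E} (hq : q ∈ Sing (Rd p w F)) :
    ∃ t : ℝ, (t = 0 ∨ t = w ∨ t = -w) ∧ q + (t, 0) ∈ Sing F := by
  by_contra hn
  push Not at hn
  have a := hn 0 (Or.inl rfl)
  have b := hn w (Or.inr (Or.inl rfl))
  have c := hn (-w) (Or.inr (Or.inr rfl))
  simp only [Sing, mem_ofPred_eq, not_not] at a b c
  obtain ⟨g0, h0⟩ := a
  obtain ⟨g1, h1⟩ := b
  obtain ⟨g2, h2⟩ := c
  have e : q + ((0 : ℝ), (0 : ℝ)) = q := by simp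
  rw [e] at h0
  exact hq ⟨_, aff_Rd p w h0 h1 h2⟩

theorem cells {F : E → ℝ} (hc : Continuous F) {r : ℝ} {N : ℕ} (hl : Loc F r N) (p w : ℝ) (z : E) :
    ∃ S : Finset (Set E × Af), S.card ≤ N ^ 3 ∧
      (∀ A ∈ S, Convex ℝ A.1 ∧ IsClosed A.1 ∧ (∀ q ∈ A.1, Germ (Rd p w F) q A.2) ∧
        ∃ g0 g1 g2, A.2 = mixA p w g0 g1 g2 ∧ ∀ q ∈ A.1, Germ F q g0 ∧ Germ F (q + (w, 0)) g1 ∧
          Germ F (q + (-w, 0)) g2) ∧
      ∀ q : E, ‖q - z‖ ≤ r → ∃ A ∈ S, q ∈ A.1 := by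
  classical
  obtain ⟨S0, c0, p0, v0⟩ := hl.2 z
  obtain ⟨S1, c1, p1, v1⟩ := hl.2 (z + (w, 0))
  obtain ⟨S2, c2, p2, v2⟩ := hl.2 (z + (-w, 0))
  let B : (Set E × Af) × (Set E × Af) × (Set E × Af) → Set E := fun a =>
    a.1.1 ∩ ((fun q : E => q + (w, 0)) ⁻¹' a.2.1.1 ∩ (fun q : E => q + (-w, 0)) ⁻¹' a.2.2.1)
  let P := S0 ×ˢ S1 ×ˢ S2
  have hcl : ∀ a ∈ P, IsClosed (B a) := by
    intro a ha
    simp only [P, Finset.mem_product] at ha
    exact (p0 _ ha.1).2.1.inter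
      (((p1 _ ha.2.1).2.1.preimage (continuous_id.add continuous_const)).inter
        ((p2 _ ha.2.2).2.1.preimage (continuous_id.add continuous_const)))
  have hcv : ∀ a ∈ P, Convex ℝ (B a) := by
    intro a ha
    simp only [P, Finset.mem_product] at ha
    exact (p0 _ ha.1).1.inter
      (((p1 _ ha.2.1).1.translate_preimage_left _).inter
        ((p2 _ ha.2.2).1.translate_preimage_left _))
  have hg : ∀ a ∈ P, ∀ q ∈ B a, Germ F q a.1.2 ∧ Germ F (q + (w, 0)) a.2.1.2 ∧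
      Germ F (q + (-w, 0)) a.2.2.2 := by
    intro a ha q hq
    simp only [P, Finset.mem_product] at ha
    exact ⟨(p0 _ ha.1).2.2 _ hq.1, (p1 _ ha.2.1).2.2 _ hq.2.1, (p2 _ ha.2.2).2.2 _ hq.2.2⟩
  have hcov : ∀ q : E, ‖q - z‖ ≤ r → ∃ a ∈ P, q ∈ B a := by
    intro q hq
    obtain ⟨A0, a0, b0⟩ := v0 q hq
    obtain ⟨A1, a1, b1⟩ := v1 (q + (w, 0)) (by rwa [add_sub_add_right_eq_sub])
    obtain ⟨A2, a2, b2⟩ := v2 (q + (-w, 0)) (by rwa [add_sub_add_right_eq_sub])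
    exact ⟨(A0, A1, A2), by simp only [P, Finset.mem_product]; exact ⟨a0, a1, a2⟩, b0, b1, b2⟩
  refine ⟨(P.filter fun a => (interior (B a)).Nonempty).image
    fun a => (B a, mixA p w a.1.2 a.2.1.2 a.2.2.2), ?_, ?_, ?_⟩
  · refine Finset.card_image_le.trans ((Finset.card_filter_le _ _).trans ?_)
    simp only [P, Finset.card_product]
    calc S0.card * (S1.card * S2.card) ≤ N * (N * N) :=
          Nat.mul_le_mul c0 (Nat.mul_le_mul c1 c2)
      _ = N ^ 3 := by ring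
  · intro A hA
    obtain ⟨a, ha, rfl⟩ := Finset.mem_image.1 hA
    obtain ⟨ha, hi⟩ := Finset.mem_filter.1 ha
    refine ⟨hcv a ha, hcl a ha, germ_of_convex (hcv a ha) hi ?_, _, _, _, rfl, hg a ha⟩
    intro q hq
    obtain ⟨g0, g1, g2⟩ := hg a ha q hq
    rw [ev_mixA, Rd, g0.eq hc, g1.eq hc, g2.eq hc]
  · intro q hq
    obtain ⟨a, ha, hqa, hi⟩ := cover_interior P B hcl hl.1 hcov q hq
    exact ⟨_, Finset.mem_image.2 ⟨a, Finset.mem_filter.2 ⟨ha, hi⟩, rfl⟩, hqa⟩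

end RBas

open RBas

variable {F : E → ℝ} {L p w : ℝ}

theorem Rd_adm {κ : ℝ} (ha : Adm F L κ) (hp : 0 ≤ p) (hp1 : p ≤ 1) : Adm (Rd p w F) L κ := by
  have h1 : 0 ≤ 1 - p := by linarith
  refine ⟨Rd_eqv ha p w, fun x x' y => ?_, fun x y y' hy => ?_, fun x y y' hy => ?_⟩
  · have a := ha.lipx x x' y
    have b := ha.lipx (x + w) (x' + w) y
    have c := ha.lipx (x + -w) (x' + -w) y
    rw [add_sub_add_right_eq_sub] at b c
    have := abs_mix hp hp1 a b c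
    simp only [Rd, Prod.mk_add_mk, add_zero]
    convert this using 2
    ring
  · have a := ha.lo x y y' hy
    have b := ha.lo (x + w) y y' hy
    have c := ha.lo (x + -w) y y' hy
    simp only [Rd, Prod.mk_add_mk, add_zero]
    nlinarith [mul_le_mul_of_nonneg_left a h1, mul_le_mul_of_nonneg_left b hp,
      mul_le_mul_of_nonneg_left c hp]
  · have a := ha.hi x y y' hy
    have b := ha.hi (x + w) y y' hy
    have c := ha.hi (x + -w) y y' hy
    simp only [Rd, Prod.mk_add_mk, add_zero]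
    nlinarith [mul_le_mul_of_nonneg_left a h1, mul_le_mul_of_nonneg_left b hp,
      mul_le_mul_of_nonneg_left c hp]

theorem Rd_close {κ : ℝ} (ha : Adm F L κ) (hp : 0 ≤ p) (hp1 : p ≤ 1) (hw : 0 ≤ w) :
    Close F (Rd p w F) (L * w) := by
  rintro ⟨x, y⟩
  have b := ha.lipx (x + w) x y
  have c := ha.lipx (x + -w) x y
  rw [add_sub_cancel_left, abs_of_nonneg hw] at b
  rw [add_sub_cancel_left, abs_neg, abs_of_nonneg hw] at c
  have a : |(0 : ℝ)| ≤ L * w := by rw [abs_zero]; exact (abs_nonneg _).trans b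
  have := abs_mix hp hp1 a b c
  simp only [Rd, Prod.mk_add_mk, add_zero]
  convert this using 2
  ring

theorem Rd_keep (F : E → ℝ) (p : ℝ) (hw : 0 ≤ w) : Keep F (Rd p w F) w := by
  intro z g ρ h q hq
  have a := h q (by linarith)
  have b := h (q + (w, 0)) (norm_add_sh hq (abs_of_nonneg hw).le)
  have c := h (q + (-w, 0)) (norm_add_sh hq (by rw [abs_neg, abs_of_nonneg hw]))
  rw [Rd, a, b, c]
  simp only [ev, lin, Prod.fst_add, Prod.snd_add]
  ring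

theorem Rd_near (F : E → ℝ) (hp : 0 ≤ p) (hp1 : p ≤ 1) (hw : 0 ≤ w) : Near F (Rd p w F) w 0 := by
  intro h κ z r hL q q' hq hq'
  have hw' : |-w| ≤ w := by rw [abs_neg, abs_of_nonneg hw]
  have a := hL q q' (by linarith) (by linarith)
  have b := hL (q + (w, 0)) (q' + (w, 0)) (norm_add_sh hq (abs_of_nonneg hw).le)
    (norm_add_sh hq' (abs_of_nonneg hw).le)
  have c := hL (q + (-w, 0)) (q' + (-w, 0)) (norm_add_sh hq hw') (norm_add_sh hq' hw')
  rw [add_sub_add_right_eq_sub] at b c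
  have := abs_mix hp hp1 a b c
  rw [add_zero]
  simp only [Rd]
  convert this using 2
  ring

theorem Rd_linR {ρ : ℝ} (h : LinR F ρ) (hw : 0 ≤ w) : LinR (Rd p w F) (ρ + w) := by
  intro z hz
  have key : ∀ t : ℝ, |t| ≤ w → F (z + (t, 0)) = 22 * (z.1 + t) - z.2 := by
    intro t ht
    have := h (z + (t, 0)) fun k => by
      have h1 := hz k
      have h2 : |z.1 - k| ≤ |z.1 + t - k| + |t| := by
        have e : z.1 - k = (z.1 + t - k) - t := by ring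
        rw [e]
        exact abs_sub _ _
      simp only [Prod.fst_add]
      linarith
    simpa using this
  have a := h z fun k => by linarith [hz k]
  rw [Rd, a, key w (abs_of_nonneg hw).le, key (-w) (by rw [abs_neg, abs_of_nonneg hw])]
  ring

/-- `Sing F` is closed and the closed ball is compact, so a slightly larger ball has no singular point;
`aff_of_preconnected`, `Rd_keep`. -/
theorem Rd_off (F : E → ℝ) (p : ℝ) (hw : 0 ≤ w) : Off F (Rd p w F) w := by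
  intro z hz
  have hsub : Metric.closedBall z w ⊆ (Sing F)ᶜ := by
    intro q hq hs
    have h1 := hz q hs
    rw [Metric.mem_closedBall, dist_comm, dist_eq_norm] at hq
    linarith
  obtain ⟨δ, hδ, hth⟩ := (isCompact_closedBall z w).exists_thickening_subset_open
    (isClosed_sing F).isOpen_compl hsub
  rw [thickening_closedBall hδ hw] at hth
  obtain ⟨g, hg⟩ := aff_of_preconnected (F := F) (convex_ball z (δ + w)).isPreconnected
    (fun q hq => hth hq) (Metric.mem_ball_self (by linarith))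
  have hF : ∀ q : E, ‖q - z‖ ≤ δ / 2 + w → F q = ev g q := fun q hq =>
    (hg q (by rw [Metric.mem_ball, dist_eq_norm]; linarith)).self_of_nhds
  filter_upwards [Metric.closedBall_mem_nhds z (half_pos hδ)] with q hq
  rw [Metric.mem_closedBall, dist_eq_norm] at hq
  rw [Rd_keep F p hw z g (δ / 2) hF q hq, hF q (by linarith)]

/-- Intersections of three shifted cells, cut with the closed ball; discard those with empty interior
(`cover_interior`, `germ_of_convex`, `ev_mixA`). -/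
theorem Rd_loc (hc : Continuous F) {r : ℝ} {N : ℕ} (hl : Loc F r N) (p w : ℝ) :
    Loc (Rd p w F) r (N ^ 3) := by
  refine ⟨hl.1, fun z => ?_⟩
  obtain ⟨S, h1, h2, h3⟩ := cells hc hl p w z
  exact ⟨S, h1, fun A hA => ⟨(h2 A hA).1, (h2 A hA).2.1, (h2 A hA).2.2.1⟩, h3⟩

/-- Germs of the rounded map are mixtures (`germ_complete` for the cells of `Rd_loc`, or directly). -/
theorem Rd_germ (hc : Continuous F) {r : ℝ} {N : ℕ} (hl : Loc F r N) {z : E} {g : Af}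
    (hg : Germ (Rd p w F) z g) : ∃ g0 g1 g2, Germ F z g0 ∧ Germ F (z + (w, 0)) g1 ∧
      Germ F (z + (-w, 0)) g2 ∧ g = mixA p w g0 g1 g2 := by
  obtain ⟨S, -, h2, h3⟩ := cells hc hl p w z
  obtain ⟨A, hA, hz, rfl⟩ := germ_complete (fun A hA => ⟨(h2 A hA).2.1, (h2 A hA).2.2.1⟩) h3
    (p := z) (by rw [sub_self, norm_zero]; exact hl.1) hg
  obtain ⟨g0, g1, g2, e, h⟩ := (h2 A hA).2.2.2
  exact ⟨g0, g1, g2, (h z hz).1, (h z hz).2.1, (h z hz).2.2, e⟩

theorem Rd_mixI (ha : Adm F L 2) {r : ℝ} {N : ℕ} (hl : Loc F r N) (hp : 0 ≤ p) (hp1 : p ≤ 1)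
    (hw : 0 ≤ w) {ρ : ℝ} (hρ : L * w ≤ ρ) {x : ℤ → ℝ} {c : ℤ → E} (hx : Itin (Rd p w F) x c) :
    MixI F p ρ x c := by
  have hL := ha.le_L
  have hwρ : w ≤ ρ := by nlinarith
  refine ⟨fun i => (hx.1.porb (Rd_close ha hp hp1 hw) i).trans hρ, fun i => ?_⟩
  obtain ⟨c0, hc0⟩ := hx.2 i
  obtain ⟨g0, g1, g2, h0, h1, h2, e⟩ := Rd_germ ha.cont hl hc0
  refine ⟨pt x i, pt x i + (w, 0), pt x i + (-w, 0), g0.1, g1.1, g2.1, ?_, ?_, ?_, ⟨g0.2, h0⟩,
    ⟨g1.2, h1⟩, ⟨g2.2, h2⟩, ?_⟩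
  · rw [sub_self, norm_zero]; linarith
  · rw [add_sub_cancel_left, norm_sh, abs_of_nonneg hw]; exact hwρ
  · rw [add_sub_cancel_left, norm_sh, abs_neg, abs_of_nonneg hw]; exact hwρ
  · rw [← mixA_fst p w, ← e]

/-- New edges: `(e.1, (e.2 + (j w, 0)) ∩ Sing (Rd p w F))` for `j = 0, 1, -1`. -/
theorem Rd_edg (ha : Adm F L 2) {r : ℝ} {N : ℕ} (hl : Loc F r N) (hw : 0 ≤ w)
    {Ed : Set (E × Set E)} {A Ln : Set Af} (he : Edg F Ed) (hg : GenD F Ed A Ln)
    (hnt : NT {g | ∃ g0 ∈ A, ∃ g1 ∈ A, ∃ g2 ∈ A, g = mixA p w g0 g1 g2}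
      {l | ∃ l0 ∈ Ln, l = l0 ∨ l = shf w l0 ∨ l = shf (-w) l0}) :
    ∃ Ed' A' Ln', Edg (Rd p w F) Ed' ∧ GenD (Rd p w F) Ed' A' Ln' ∧
      ∀ e' ∈ Ed', ∃ e ∈ Ed, e'.1 = e.1 ∧ ∀ q' ∈ e'.2, ∃ q ∈ e.2, ‖q' - q‖ ≤ w := by
  let f : (E × Set E) × ℝ → E × Set E := fun a =>
    (a.1.1, (fun q : E => q - (a.2, 0)) '' a.1.2 ∩ Sing (Rd p w F))
  have hmem : ∀ e' ∈ f '' (Ed ×ˢ ({0, w, -w} : Set ℝ)), ∃ e ∈ Ed, ∃ t : ℝ,
      (t = 0 ∨ t = w ∨ t = -w) ∧ e' = f (e, t) := by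
    rintro _ ⟨⟨e, t⟩, ⟨h1, h2⟩, rfl⟩
    exact ⟨e, h1, t, by simpa using h2, rfl⟩
  refine ⟨f '' (Ed ×ˢ ({0, w, -w} : Set ℝ)), _, _, ⟨?_, ?_, ?_, ?_, ?_, ?_⟩,
    ⟨?_, ?_, ?_, ?_, ?_, ?_, hnt⟩, ?_⟩
  · exact (he.fin.prod (Set.toFinite _)).image f
  · intro e' he'
    obtain ⟨e, h1, t, -, rfl⟩ := hmem e' he'
    exact he.ne e h1
  · intro e' he'
    obtain ⟨e, h1, t, -, rfl⟩ := hmem e' he'
    exact ((he.cpt e h1).image (continuous_id.sub continuous_const)).inter_right (isClosed_sing _)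
  · intro e' he'
    obtain ⟨e, h1, t, -, rfl⟩ := hmem e' he'
    rintro _ ⟨⟨a, ha, rfl⟩, -⟩ _ ⟨⟨b, hb, rfl⟩, -⟩
    have := he.line e h1 a ha b hb
    simpa only [sub_sub_sub_cancel_right] using this
  · intro e' he'
    obtain ⟨e, h1, t, -, rfl⟩ := hmem e' he'
    exact inter_subset_right
  · intro q hq
    obtain ⟨t, ht, hs⟩ := sing_Rd hq
    obtain ⟨e, h1, m, hm⟩ := he.cov _ hs
    refine ⟨f (e, t), ⟨(e, t), ⟨h1, by simpa using ht⟩, rfl⟩, m, ⟨_, hm, ?_⟩, ?_⟩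
    · show q + (t, 0) - iv m - (t, 0) = q - iv m
      abel
    · exact sing_sub (c := 22 * (m.1 : ℝ) - (m.2 : ℝ))
        (fun z => by rw [Rd_eqv ha p w z m]; ring) hq
  · refine ((hg.cA.prod (hg.cA.prod hg.cA)).image
      fun a : Af × Af × Af => mixA p w a.1 a.2.1 a.2.2).mono ?_
    rintro _ ⟨g0, h0, g1, h1, g2, h2, rfl⟩
    exact ⟨(g0, g1, g2), ⟨h0, h1, h2⟩, rfl⟩
  · refine (hg.cL.union ((hg.cL.image (shf w)).union (hg.cL.image (shf (-w))))).mono ?_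
    rintro l ⟨l0, h0, rfl | rfl | rfl⟩
    · exact Or.inl h0
    · exact Or.inr (Or.inl ⟨l0, h0, rfl⟩)
    · exact Or.inr (Or.inr ⟨l0, h0, rfl⟩)
  · intro q g hq
    obtain ⟨g0, g1, g2, h0, h1, h2, e⟩ := Rd_germ ha.cont hl hq
    exact ⟨g0, hg.germ _ _ h0, g1, hg.germ _ _ h1, g2, hg.germ _ _ h2, e⟩
  · intro e' he'
    obtain ⟨e, h1, t, -, rfl⟩ := hmem e' he'
    exact hg.dir e h1
  · intro e' he'
    obtain ⟨e, h1, t, ht, rfl⟩ := hmem e' he'
    rintro _ ⟨⟨a, ha, rfl⟩, -⟩ m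
    have key : lineAt e.1.1 (a - (t, 0) + iv m) = shf t (lineAt e.1.1 (a + iv m)) := by
      simp only [lineAt, shf, Prod.fst_add, Prod.snd_add, Prod.fst_sub, Prod.snd_sub, Prod.mk.injEq,
        true_and]
      ring
    refine ⟨lineAt e.1.1 (a + iv m), hg.lines e h1 a ha m, ?_⟩
    show lineAt e.1.1 (a - (t, 0) + iv m) = _ ∨ lineAt e.1.1 (a - (t, 0) + iv m) = _ ∨
      lineAt e.1.1 (a - (t, 0) + iv m) = _
    rw [key]
    rcases ht with rfl | rfl | rfl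
    · left; simp [shf]
    · right; left; rfl
    · right; right; rfl
  · intro i
    exact ⟨_, hg.vert i, Or.inl rfl⟩
  · intro e' he'
    obtain ⟨e, h1, t, ht, rfl⟩ := hmem e' he'
    refine ⟨e, h1, rfl, ?_⟩
    rintro _ ⟨⟨a, ha, rfl⟩, -⟩
    refine ⟨a, ha, ?_⟩
    show ‖a - (t, 0) - a‖ ≤ w
    rw [sub_sub_cancel_left, norm_neg, norm_sh]
    rcases ht with rfl | rfl | rfl
    · rwa [abs_zero]
    · exact (abs_of_nonneg hw).le
    · rw [abs_neg, abs_of_nonneg hw]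

/-- The edge condition for the reversed maps. Let `x i = x' (-i)`, `c = rvc c'` (an itinerary of
`Rd p w F`), `q' = sg F q`. Then `pt x 0 - iv (m.1, 22 m.1 - m.2)` is within `ρ` of `q`. Replace `c 0` by `g.1` (still `MixI`,
`mix_same`, `Adm.lg_iv`); the solution `v*` of the new cocycle with `pt v* 0 = e.1` agrees with `j ↦ v (-j)` at times
`j ≥ 0` (`SolOn.unique` from time `1`). -/
theorem Rd_rh_rev (ha : Adm F L 2) {r : ℝ} {N : ℕ} (hl : Loc F r N) (hp : 0 ≤ p) (hp1 : p ≤ 1)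
    (hw : 0 ≤ w) {Ed Ed' : Set (E × Set E)} {ρ C l : ℝ} (hC : 0 ≤ C) (hrm : RM F Ed p ρ C l)
    (hE : ∀ e' ∈ Ed', ∃ e ∈ Ed, ∃ g : Af,
      e'.1 = (e.1.1, lin g.1 e.1) ∧ ∀ q' ∈ e'.2, ∃ q ∈ e.2, Germ F q g ∧ q' = sg F q)
    (hρ : (2 * L + 4) * ((2 * L + 2) * w) ≤ ρ) :
    RH (rev F) (rev (Rd p w F)) Ed' ((2 * L + 2) * w) ((2 * L + 2) * C) := by
  have hL := ha.le_L
  have hG : Adm (Rd p w F) L 2 := Rd_adm ha hp hp1
  have hcl := ha.close_rev hG (Rd_close ha hp hp1 hw)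
  have hLw : 0 ≤ L * w := by positivity
  refine ⟨fun z => (hcl z).trans (by nlinarith), fun z hz => ?_, ?_⟩
  · exact ha.off_rev hG hw (Rd_off F p hw) z fun q hq => lt_of_le_of_lt (by nlinarith) (hz q hq)
  intro e' he' x' c' v m q' hq' hx' hd hv hv0 j hj
  obtain ⟨e, he, g, hdir, hpts⟩ := hE e' he'
  obtain ⟨q, hq, hgq, rfl⟩ := hpts q' hq'
  have hx : Itin (Rd p w F) (fun j => x' (-j)) (rvc c') := by
    have := hG.rev.itin_rev hx'
    rwa [hG.rev_rev] at this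
  have hη : 0 ≤ (2 * L + 2) * w := by positivity
  have hmix : MixI F p ρ (fun j => x' (-j)) (rvc c') :=
    Rd_mixI ha hl hp hp1 hw (by nlinarith) hx
  have hdist : ‖pt (fun j => x' (-j)) 0 - iv (m.1, 22 * m.1 - m.2) - q‖ ≤ ρ := by
    have e1 : pt (fun j => x' (-j)) 0 - iv (m.1, 22 * m.1 - m.2) =
        sg (rev (Rd p w F)) (pt x' 0 - iv m) := by
      have h1 := hG.rev.sg_iv (pt x' 0 - iv m) m
      rw [sub_add_cancel] at h1
      rw [hx'.1.pt_neg, neg_zero, h1, add_sub_cancel_right]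
    have h2 := hG.rev.sg_lip (pt x' 0 - iv m) (sg F q)
    have h3 : ‖sg (rev (Rd p w F)) (sg F q) - q‖ ≤ 2 * (L * w) := by
      have h4 := hcl (sg F q)
      have h5 : sg (rev (Rd p w F)) (sg F q) - sg (rev F) (sg F q) =
          (0, rev (Rd p w F) (sg F q) - rev F (sg F q)) := by
        simp [sg]
      rw [ha.sg_sg] at h5
      rw [h5]
      simpa [Prod.norm_def] using h4
    rw [e1]
    have h6 := norm_sub_le_norm_sub_add_norm_sub (sg (rev (Rd p w F)) (pt x' 0 - iv m))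
      (sg (rev (Rd p w F)) (sg F q)) q
    have h7 : (2 * L + 2) * ‖pt x' 0 - iv m - sg F q‖ ≤ (2 * L + 2) * ((2 * L + 2) * w) :=
      mul_le_mul_of_nonneg_left hd (by linarith)
    nlinarith
  have hlg : LG F q g.1 := ⟨g.2, hgq⟩
  obtain ⟨b1, b2, b3⟩ := ha.lg_bd hlg
  have hne : ∀ i, (rvc c' i).2 ≠ 0 := (hG.itin_bd hx).ne
  have hne' : ∀ i, (Function.update (rvc c') 0 g.1 i).2 ≠ 0 := by
    intro i
    by_cases hi : i = 0
    · subst hi
      rw [Function.update_self]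
      linarith
    · rw [Function.update_of_ne hi]
      exact hne i
  have hmix' : MixI F p ρ (fun j => x' (-j)) (Function.update (rvc c') 0 g.1) := by
    refine ⟨hmix.1, fun i => ?_⟩
    by_cases hi : i = 0
    · subst hi
      have hn : ‖q + iv (m.1, 22 * m.1 - m.2) - pt (fun j => x' (-j)) 0‖ ≤ ρ := by
        rw [norm_sub_rev, ← sub_sub, sub_right_comm]
        exact hdist
      have hl' := (ha.lg_iv q g.1 (m.1, 22 * m.1 - m.2)).2 hlg
      exact ⟨_, _, _, _, _, _, hn, hn, hn, hl', hl', hl', by rw [Function.update_self, mix_same]⟩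
    · rw [Function.update_of_ne hi]
      exact hmix.2 i
  obtain ⟨u, hu, hu0⟩ := exists_sol hne' 0 e.1
  have hmain := (hrm _ _ hmix').2 e he _ q hq u hdist hu hu0 (1 - j)
  have hv' : Sol (rvc c') fun j => v (-j) := hv.rev (hG.rev.itin_bd hx').ne
  have hu1 : pt u 1 = TL g.1 e.1 := by
    have := pt_succ (hu 0)
    rwa [Function.update_self, hu0, zero_add] at this
  have h1 : pt u 1 = pt (fun j => v (-j)) 1 := by
    rw [hu1]
    rw [hdir] at hv0
    simp only [pt, Prod.mk.injEq, zero_sub] at hv0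
    simp only [pt, TL, sub_self, neg_zero, hv0.1, hv0.2]
  have hus : SolOn (rvc c') u 1 (1 - j) := by
    intro i hi _
    have := hu i
    rwa [Function.update_of_ne (by omega)] at this
  have h2 : pt u (1 - j) = pt (fun j => v (-j)) (1 - j) :=
    SolOn.unique hne hus (hv'.solOn 1 (1 - j)) le_rfl (by omega) h1 (by omega) le_rfl
  rw [h2, norm_pt_neg, sub_sub_cancel, hu0] at hmain
  have h3 : ‖pt v 0‖ = ‖TL g.1 e.1‖ := by
    rw [← hu1, h1, norm_pt_neg, sub_self]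
  rw [h3, mul_assoc]
  exact (norm_TL_le b1 b2 b3 _).trans (mul_le_mul_of_nonneg_left hmain (by linarith))

theorem KOK.keep {F' : E → ℝ} {K : KD} (hk : KOK F K) (h : Keep F F' w) (hw : w < K.dl) :
    KOK F' (K.setDl (K.dl - w)) := by
  refine ⟨hk.eok, hk.m2, hk.D0, hk.Dne, hk.Dper, sub_pos.2 hw, hk.spos, ?_, hk.shift, hk.small,
    hk.sep, hk.cont⟩
  intro ω hω i z hz
  have key : ∀ y : E, K.Y ω (i + 1) + lin (K.co i) (y - pt (K.Y ω) i) =
      ev (K.co i, K.Y ω (i + 1) - lin (K.co i) (pt (K.Y ω) i)) y := by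
    intro y
    simp only [ev, lin, Prod.fst_sub, Prod.snd_sub]
    ring
  have := h (pt (K.Y ω) i) _ (K.dl - w)
    (fun y hy => (hk.aff ω hω i y (by linarith)).trans (key y)) z hz
  exact this.trans (key z).symm

end Pool.Agent.MP_369096_an.H89
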