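import Pool.Agent.MP_369096_an.H89.Grow
import Pool.Agent.MP_369096_an.H89.Win

/-!
TASK RGrow. The crossing property survives a perturbation near the singular set.
Auxiliary lemmas go in namespace `H89.RGrow`.

Use `qp_of_steps` for `F'`. WLOG `C, C', C4 ≥ 1/2` (`HYP.half_le`; replace `C4` by `max C4 1`). Let `V = N'^2`, choose `k0` with `4 C' C4 ≤ l'^k0`, `Θ` with
`4 C² (2C') ≤ l^Θ`, `2 C (2C') ≤ l^Θ`, and `n ≥ k0 + Θ` with `4 C' V ≤ l'^n`; `δ, w0` from `cx_of_h2` for `n`, and `δ (2L'+2)^n ≤ 1`.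
Step: `CX.longest` and `ExpAt.fw`.
Final step (`‖d‖ = δ`): take the longest piece `(z1,d1,g)`; `‖fw g d1 i‖ ≥ δ2 := δ / (2 C' V)` for `i ≤ n`. For
`n - Θ ≤ i < n` and a translated edge `(e,m)` let `B(i,e,m)` be the set of `t ∈ [0,1]` such that
`(T F')^[i] (z1 + t•d1)` is within `w` of `e.2 + iv m`. Only boundedly many are nonempty (`Edg.count` with `B = 2`, `w ≤ 1`).
Each has diameter at most `c w`: at a point of `B(i,e,m)` extend the word to an itinerary of `F'` (shifted so that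
this point is at time `0`), let `v_e` be the solution with `pt v_e 0 = e.1`; `RH.etp` and `ang_bwd` over `k0` steps give
`‖e.1‖ ‖fw g d1 i‖ ≤ 2 C4 (2L'+2)^k0 |dt e.1 (fw g d1 i)|`, while two parameters `t, t'` in `B` satisfy
`|t - t'| |dt e.1 (fw g d1 i)| ≤ 4 w ‖e.1‖` (`Edg.line`, `abs_dt_le`). `avoid_small` gives a sub-segment of
definite length whose images at times `n-Θ ≤ i < n` are at distance `> w` from `Sing F` (`Edg.cov`); there `F' = F` near each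
point (`RH.off`, `Germ.congr`), so these `Θ` steps are a germ word of `F` with `T F = T F'` along it, and the final
segment is `Good F (2C)` (`expAt_of_past` with `C0 = 2C'`, `ExpAt.good`) of length `≥ δ0`, with `δ0` independent of `w`.
Conclude with `cr_transfer`, `Sub.cr`.
-/

set_option autoImplicit false

open Set Filter Topology

namespace Pool.Agent.MP_369096_an.H89

namespace RGrow

variable {F F' : E → ℝ} {L L' : ℝ}

theorem piece (z d : E) (a b t : ℝ) :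
    z + a • d + t • ((b - a) • d) = z + (a + t * (b - a)) • d := by
  module

theorem piece_mem {a b t : ℝ} (hab : a ≤ b) (ht : t ∈ Icc (0:ℝ) 1) :
    a + t * (b - a) ∈ Icc a b := by
  constructor <;> nlinarith [ht.1, ht.2]

theorem germ0 {z d : E} {k : ℕ} {g : ℕ → Af} (hs : Seg F z d g k) :
    ∀ i < k, Germ F ((T F)^[i] z) (g i) := by
  intro i hi
  have := hs i hi 0 ⟨le_rfl, zero_le_one⟩
  rwa [zero_smul, add_zero] at this

theorem iter_eq (p : E) {k : ℕ} (h : ∀ i < k, F' ((T F')^[i] p) = F ((T F')^[i] p)) :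
    ∀ i ≤ k, (T F')^[i] p = (T F)^[i] p := by
  intro i
  induction i with
  | zero => intro _; rfl
  | succ i ih =>
    intro hi
    rw [Function.iterate_succ_apply', Function.iterate_succ_apply', ← ih (by omega)]
    simp only [T, h i (by omega)]

theorem seg_congr {z d : E} {k : ℕ} {g : ℕ → Af}
    (h : ∀ i < k, ∀ t ∈ Icc (0:ℝ) 1, ∀ᶠ y in 𝓝 ((T F')^[i] (z + t • d)), F' y = F y)
    (hs : Seg F' z d g k) : Seg F z d g k ∧ (T F')^[k] z = (T F)^[k] z := by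
  constructor
  · intro i hi t ht
    rw [← iter_eq _ (fun j hj => (h j hj t ht).self_of_nhds) i hi.le]
    exact (hs i hi t ht).congr ((h i hi t ht).mono fun y hy => hy.symm)
  · refine iter_eq _ (fun j hj => ?_) k le_rfl
    have := (h j hj 0 ⟨le_rfl, zero_le_one⟩).self_of_nhds
    rwa [zero_smul, add_zero] at this

theorem iter_shift (hc : Continuous F) {z d : E} {a b : ℕ} {g : ℕ → Af} (hs : Seg F z d g (a + b))
    (j : ℕ) {t : ℝ} (ht : t ∈ Icc (0:ℝ) 1) :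
    (T F)^[j] ((T F)^[a] z + t • fw g d a) = (T F)^[a + j] (z + t • d) := by
  rw [← hs.iter hc (Nat.le_add_right a b) ht, add_comm a j, Function.iterate_add_apply]

theorem seg_shift (hc : Continuous F) {z d : E} {a b : ℕ} {g : ℕ → Af} (hs : Seg F z d g (a + b)) :
    Seg F ((T F)^[a] z) (fw g d a) (fun j => g (a + j)) b := by
  intro j hj t ht
  rw [iter_shift hc hs j ht]
  exact hs _ (by omega) t ht

theorem good_of_seg {C l C0 : ℝ} (ha : Adm F L 2) (hh : HYP F C l) (hC : 0 ≤ C) (hl : 1 < l)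
    {z d : E} {g : ℕ → Af} {k : ℕ} (hs : Seg F z d g k) (hd : ‖d‖ ≤ C0 * ‖fw g d k‖)
    (hn : 4 * C * C * C0 ≤ l ^ k) (hn' : 2 * C * C0 ≤ l ^ k) :
    Good F (2 * C) ((T F)^[k] z) (fw g d k) := by
  intro t ht
  rw [← hs.iter ha.cont le_rfl ht]
  exact (expAt_of_past ha hh hC hl (fun i hi => hs i hi t ht) hd hn hn').good hl.le (by positivity)

theorem fw_le {r' C' l' : ℝ} {N' : ℕ} (ha' : Adm F' L' 2) (hl' : Loc F' r' N')
    (h1 : 1 ≤ l') {z d : E} (he : Exp F' C' l' z d) {g : ℕ → Af} {k : ℕ} (hs : Seg F' z d g k)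
    {i j : ℕ} (hij : i ≤ j) (hj : j ≤ k) : l' ^ (j - i) * ‖fw g d i‖ ≤ C' * ‖fw g d j‖ := by
  have h0 := he 0 ⟨le_rfl, zero_le_one⟩
  rw [zero_smul, add_zero] at h0
  have h2 := h0.fw ha' hl' (germ0 hs) hij hj
  have hl0 : 0 < l' := by linarith
  have e : l' ^ ((i : ℤ) - j) = (l' ^ (j - i))⁻¹ := by
    rw [← zpow_natCast, ← zpow_neg]
    congr 1
    push_cast [hij]
    ring
  rw [e] at h2
  have h3 : 0 < l' ^ (j - i) := by positivity
  calc l' ^ (j - i) * ‖fw g d i‖ ≤ l' ^ (j - i) * (C' * (l' ^ (j - i))⁻¹ * ‖fw g d j‖) :=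
        mul_le_mul_of_nonneg_left h2 h3.le
    _ = C' * ‖fw g d j‖ := by field_simp

theorem fw_le' {r' C' l' : ℝ} {N' : ℕ} (ha' : Adm F' L' 2) (hl' : Loc F' r' N')
    (h1 : 1 ≤ l') {z d : E} (he : Exp F' C' l' z d) {g : ℕ → Af} {k : ℕ} (hs : Seg F' z d g k)
    {i j : ℕ} (hij : i ≤ j) (hj : j ≤ k) : ‖fw g d i‖ ≤ C' * ‖fw g d j‖ :=
  le_trans (le_mul_of_one_le_left (norm_nonneg _) (one_le_pow₀ h1))
    (fw_le ha' hl' h1 he hs hij hj)

/-- The image vector is transverse to the edges that the segment meets. -/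
theorem angle {r' C0 l' w C4 : ℝ} {N' : ℕ} {Ed : Set (E × Set E)} (ha' : Adm F' L' 2)
    (hl' : Loc F' r' N') (h1 : 1 ≤ l') (hrh : RH F F' Ed w C4) {k0 : ℕ}
    (hk0 : 2 * C0 * max C4 1 ≤ l' ^ k0) {z d : E} (he : Exp F' C0 l' z d) {g : ℕ → Af} {n : ℕ}
    (hs : Seg F' z d g n) {i : ℕ} (hi : k0 ≤ i) (hin : i ≤ n) {t : ℝ} (ht : t ∈ Icc (0:ℝ) 1)
    {e : E × Set E} (hE : e ∈ Ed) {m : ℤ × ℤ} {q : E} (hq : q ∈ e.2)
    (hp : ‖(T F')^[i] (z + t • d) - iv m - q‖ ≤ w) :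
    ‖e.1‖ * ‖fw g d i‖ ≤ 2 * max C4 1 * (2 * L' + 2) ^ k0 * |dt e.1 (fw g d i)| := by
  obtain ⟨x, c, hx, hx0, hc⟩ := ext_itin ha' hl' _ g n fun j hj => hs j hj t ht
  have hx' := hx.shift i
  have hb := ha'.itin_bd hx
  have hb' := ha'.itin_bd hx'
  obtain ⟨v, hv, hv0⟩ := exists_sol hb'.ne 0 e.1
  obtain ⟨u, hu, hu0⟩ := exists_sol hb.ne 0 d
  have hpt : ∀ (y : ℤ → ℝ) (j : ℤ), pt (fun k => y (k + i)) j = pt y (j + i) := by
    intro y j
    simp only [pt]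
    congr 2
    ring
  have hu' : Sol (fun j => c (j + i)) fun j => u (j + i) := by
    intro j
    rw [hpt, ← hu]
    exact congrArg u (by ring)
  have hfw : ∀ j ≤ n, fw g d j = pt u j := fun j hj => by
    rw [← hu0]
    exact fw_eq_pt hc (hu.solOn _ _) hj
  have a1 := hrh.etp e hE _ _ v m q hq hx' (by
    rw [hpt, hx.1.iter, hx0]
    exact hp) hv hv0 (-(k0:ℤ)) (by omega)
  have a2 := fw_le ha' hl' h1 he hs (Nat.sub_le i k0) hin
  rw [Nat.sub_sub_self hi] at a2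
  have hl0 : 0 < l' ^ k0 := by positivity
  have hm : (0:ℝ) < max C4 1 := lt_max_of_lt_right one_pos
  have a3 := ang_bwd (C0 := max C4 1) (ε := C0 / l' ^ k0) hb' (i := 0) (j := -(k0:ℤ)) (by omega)
    (hv.solOn _ _) (hu'.solOn _ _) hm (by
      rw [show 2 * (C0 / l' ^ k0) * max C4 1 = 2 * C0 * max C4 1 / l' ^ k0 by ring,
        div_le_one hl0]
      exact hk0)
    (a1.trans (mul_le_mul_of_nonneg_right (le_max_left _ _) (norm_nonneg _))) (by
      rw [hpt, hpt, zero_add, ← hfw i hin, show -(k0:ℤ) + i = ((i - k0 : ℕ) : ℤ) by omega,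
        ← hfw _ (by omega), div_mul_eq_mul_div, le_div_iff₀ hl0, mul_comm]
      exact a2)
  rw [hpt, zero_add, ← hfw i hin, hv0, show (-(k0:ℤ) - 0).natAbs = k0 by omega] at a3
  exact a3

/-- Two parameters near the same edge are close. -/
theorem param_close {Ed : Set (E × Set E)} (hE : Edg F Ed) {e : E × Set E} (he : e ∈ Ed)
    {P D a : E} {w A s t : ℝ} (hA : 0 ≤ A) {q q' : E} (hq : q ∈ e.2) (hq' : q' ∈ e.2)
    (h1 : ‖P + s • D - a - q‖ ≤ w) (h2 : ‖P + t • D - a - q'‖ ≤ w)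
    (h3 : ‖e.1‖ * ‖D‖ ≤ A * |dt e.1 D|) : |s - t| * ‖D‖ ≤ 4 * A * w := by
  have h0 : 0 < ‖e.1‖ := norm_pos_iff.2 (hE.ne e he)
  have b0 := hE.line e he q hq q' hq'
  have e1 : (s - t) * dt e.1 D = dt e.1 (P + s • D - a - q) - dt e.1 (P + t • D - a - q') := by
    simp only [dt, Prod.fst_add, Prod.snd_add, Prod.fst_sub, Prod.snd_sub, Prod.smul_fst,
      Prod.smul_snd, smul_eq_mul] at b0 ⊢
    linarith
  have b1 := (abs_dt_le e.1 _).trans (mul_le_mul_of_nonneg_left h1 (by positivity))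
  have b2 := (abs_dt_le e.1 _).trans (mul_le_mul_of_nonneg_left h2 (by positivity))
  have b3 : |s - t| * |dt e.1 D| ≤ 4 * ‖e.1‖ * w := by
    rw [← abs_mul, e1]
    linarith [abs_sub (dt e.1 (P + s • D - a - q)) (dt e.1 (P + t • D - a - q'))]
  refine le_of_mul_le_mul_left ?_ h0
  have b4 := mul_le_mul_of_nonneg_left h3 (abs_nonneg (s - t))
  have b5 := mul_le_mul_of_nonneg_left b3 hA
  linarith

end RGrow

theorem qp_R {F : E → ℝ} {L C l : ℝ} {Ed : Set (E × Set E)} (ha : Adm F L 2) (h2 : H2 F)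
    (he : Edg F Ed) (hh : HYP F C l) (hC : 0 ≤ C) (hl1 : 1 < l) (hq : QP F) (L' C' C4 : ℝ)
    {r' l' : ℝ} (N' : ℕ) (hr' : 0 < r') (hl' : 1 < l') :
    ∃ w0 > 0, ∀ (F' : E → ℝ) (w : ℝ), w ≤ w0 → Adm F' L' 2 → Loc F' r' N' → HYP F' C' l' →
      RH F F' Ed w C4 → QP F' := by
  by_cases hCL : 1 / 2 ≤ C' ∧ 0 ≤ L' ∧ 1 ≤ N'
  swap
  · exact ⟨1, one_pos, fun F' w _ ha' hl2 hh' _ =>
      absurd ⟨hh'.half_le ha' hl2, by linarith [ha'.le_L], hl2.one_le⟩ hCL⟩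
  obtain ⟨hC', hL', hN'⟩ := hCL
  obtain ⟨C0, hC0⟩ : ∃ C0, C0 = 2 * C' := ⟨_, rfl⟩
  have hC01 : 1 ≤ C0 := by linarith
  obtain ⟨V, hV⟩ : ∃ V : ℕ, V = N' ^ 2 := ⟨_, rfl⟩
  have hV1 : (1:ℝ) ≤ V := by
    rw [hV]
    exact_mod_cast Nat.one_le_pow 2 N' hN'
  obtain ⟨k0, hk0⟩ := pow_unbounded_of_one_lt (2 * C0 * max C4 1) hl'
  obtain ⟨Θ1, hΘ1⟩ := pow_unbounded_of_one_lt (max (4 * C * C * C0) (2 * C * C0)) hl1
  obtain ⟨Θ2, hΘ2⟩ := pow_unbounded_of_one_lt (2 * (C0 * V)) hl'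
  obtain ⟨Θ, hΘ⟩ : ∃ Θ, Θ = Θ1 + Θ2 := ⟨_, rfl⟩
  have hΘ3 : max (4 * C * C * C0) (2 * C * C0) ≤ l ^ Θ :=
    hΘ1.le.trans (pow_le_pow_right₀ hl1.le (by omega))
  have hΘ4 : 2 * (C0 * V) ≤ l' ^ (k0 + Θ) := hΘ2.le.trans (pow_le_pow_right₀ hl'.le (by omega))
  obtain ⟨δ1, hδ1, w1, hw1, hcx⟩ := cx_of_h2 ha h2 (k0 + Θ) hr'
  obtain ⟨M, hM⟩ : ∃ M, M = (2 * L' + 2) ^ (k0 + Θ) := ⟨_, rfl⟩
  have hM1 : ∀ i ≤ k0 + Θ, (2 * L' + 2) ^ i ≤ M := fun i hi => by
    rw [hM]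
    exact pow_le_pow_right₀ (by linarith) hi
  have hM2 : 1 ≤ M := by simpa using hM1 0 (Nat.zero_le _)
  obtain ⟨δ, hδ0, hδ1', hδ2⟩ : ∃ δ : ℝ, 0 < δ ∧ δ ≤ δ1 ∧ M * δ ≤ 1 := by
    refine ⟨min δ1 (1 / M), by positivity, min_le_left _ _, ?_⟩
    rw [mul_comm, ← le_div_iff₀ (by positivity)]
    exact min_le_right _ _
  obtain ⟨n0, hn0⟩ := he.count 2
  obtain ⟨ns, hns⟩ : ∃ ns, ns = Θ * n0 := ⟨_, rfl⟩
  obtain ⟨A, hA⟩ : ∃ A, A = 2 * max C4 1 * (2 * L' + 2) ^ k0 := ⟨_, rfl⟩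
  have hA0 : 0 < A := by
    have : (0:ℝ) < max C4 1 := lt_max_of_lt_right one_pos
    rw [hA]
    positivity
  obtain ⟨δ2, hδ3⟩ : ∃ δ2, δ2 = δ / (C0 * V) := ⟨_, rfl⟩
  have hδ4 : 0 < δ2 := by rw [hδ3]; positivity
  obtain ⟨η, hη, Ncr, β, hβ, hcr⟩ := cr_transfer ha hq (2 * C)
    (show 0 < 1 / (2 * (ns:ℝ) + 1) * δ2 by positivity)
  refine ⟨min (min w1 1) (min η (δ2 / 2 / ((2 * ns + 1) * (4 * A)))), by positivity,
    fun F' w hw ha' hl2 hh' hrh => ?_⟩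
  have hw1' : w ≤ w1 := hw.trans ((min_le_left _ _).trans (min_le_left _ _))
  have hw2 : w ≤ 1 := hw.trans ((min_le_left _ _).trans (min_le_right _ _))
  have hw3 : w ≤ η := hw.trans ((min_le_right _ _).trans (min_le_left _ _))
  have hw4 : (2 * ns + 1) * (4 * A * w) < δ2 := by
    have := hw.trans ((min_le_right _ _).trans (min_le_right _ _))
    rw [le_div_iff₀ (by positivity)] at this
    linarith
  have hcx' := hcx F' L' w N' hw1' ha' hl2 hrh.close hrh.off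
  rw [← hV] at hcx'
  have key : ∀ z d, Exp F' C0 l' z d → ‖d‖ ≤ δ → ∃ (z1 d1 : E) (g : ℕ → Af),
      Sub F' z d 0 z1 d1 ∧ Exp F' C0 l' z1 d1 ∧ Seg F' z1 d1 g (k0 + Θ) ∧ ‖d1‖ ≤ δ ∧
        ‖d‖ ≤ V * ‖d1‖ := by
    intro z d hx hd
    obtain ⟨t0, t1, g, a0, a1, a2, a3, a4⟩ := hcx'.longest ha'.cont hl2 z d (hd.trans hδ1')
    have a5 := Sub.trim F' z d a0 a3 a1
    refine ⟨_, _, g, a5, hx.sub ha' a5, a4, ?_, ?_⟩
    · rw [norm_smul, Real.norm_of_nonneg (sub_nonneg.2 a3)]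
      exact (mul_le_of_le_one_left (norm_nonneg _) (by linarith)).trans hd
    · rw [norm_smul, Real.norm_of_nonneg (sub_nonneg.2 a3), ← mul_assoc]
      exact le_mul_of_one_le_left (norm_nonneg _) a2
  rw [hC0] at key
  refine qp_of_steps (n := k0 + Θ) (N1 := k0 + Θ + Ncr) ha' hl2 hh' hl' hδ0 hβ
    (fun z d hx hd => ?_) fun z d hx hd => ?_
  · obtain ⟨z1, d1, g, a1, a2, a3, a4, a5⟩ := key z d hx hd
    rw [← hC0] at a2
    refine ⟨0 + (k0 + Θ), by omega, _, _, a1.trans ha'.cont a3.toSub, ?_⟩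
    have b1 := RGrow.fw_le ha' hl2 hl'.le a2 a3 (Nat.zero_le _) le_rfl
    rw [Nat.sub_zero, fw] at b1
    have b2 := mul_le_mul_of_nonneg_right hΘ4 (norm_nonneg d1)
    refine le_of_mul_le_mul_left ?_ (show 0 < C0 by linarith)
    have b3 := mul_le_mul_of_nonneg_left a5 (show 0 ≤ C0 by linarith)
    linarith only [b1, b2, b3]
  · obtain ⟨z1, d1, g, a1, a2, a3, a4, a5⟩ := key z d hx hd.le
    rw [← hC0] at a2
    have hlo : ∀ i ≤ k0 + Θ, δ2 ≤ ‖fw g d1 i‖ := by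
      intro i hi
      have b1 := RGrow.fw_le' ha' hl2 hl'.le a2 a3 (Nat.zero_le _) hi
      rw [fw] at b1
      rw [hδ3, div_le_iff₀ (by positivity), ← hd]
      have b3 := mul_le_mul_of_nonneg_left b1 (show (0:ℝ) ≤ V by linarith)
      linarith only [a5, b3]
    have hhi : ∀ i ≤ k0 + Θ, ‖fw g d1 i‖ ≤ 1 := by
      intro i hi
      have b1 := (a3.norm_le ha' (Nat.zero_le _) hi).1
      rw [Nat.sub_zero, fw] at b1
      exact b1.trans ((mul_le_mul (hM1 i hi) a4 (norm_nonneg _) (by linarith)).trans hδ2)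
    choose S hS hS1 hS2 using hn0
    obtain ⟨a, b0, b1, b2⟩ := avoid_small
      ((Finset.Ico k0 (k0 + Θ)).sigma fun i => S ((T F')^[i] z1))
      (fun c => {t | t ∈ Icc (0:ℝ) 1 ∧ ∃ q ∈ c.2.1.2,
        ‖(T F')^[c.1] (z1 + t • d1) - iv c.2.2 - q‖ ≤ w}) (n := ns) (by
        rw [Finset.card_sigma, hns]
        refine (Finset.sum_le_card_nsmul _ _ n0 fun i _ => hS _).trans ?_
        simp) (by
        rintro ⟨i, e, m⟩ hc s ⟨hs, q, hq, hsq⟩ t ⟨ht, q', hq', htq⟩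
        simp only [Finset.mem_sigma, Finset.mem_Ico] at hc hq hq' hsq htq
        have hE := hS1 _ _ hc.2
        have c1 := RGrow.angle ha' hl2 hl'.le hrh hk0.le a2 a3 hc.1.1 hc.1.2.le hs hE hq hsq
        rw [← hA] at c1
        rw [a3.iter ha'.cont hc.1.2.le hs] at hsq
        rw [a3.iter ha'.cont hc.1.2.le ht] at htq
        have c2 := RGrow.param_close he hE hA0.le hq hq' hsq htq c1
        have c3 := mul_le_mul_of_nonneg_left (hlo i hc.1.2.le) (abs_nonneg (s - t))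
        have c4 := mul_le_mul_of_nonneg_left (c3.trans c2)
          (show (0:ℝ) ≤ 2 * ns + 1 by positivity)
        refine lt_of_mul_lt_mul_right ?_ hδ4.le
        linarith only [c4, hw4])
    have hab : a ≤ a + 1 / (2 * (ns:ℝ) + 1) := le_add_of_nonneg_right (by positivity)
    have c1 := a3.sub b0 hab b1
    have c2 := Sub.trim F' z1 d1 b0 hab b1
    have c3 := a2.sub ha' c2
    obtain ⟨c4, c5⟩ := RGrow.seg_congr (F := F) (fun j hj t ht => by
      rw [RGrow.iter_shift ha'.cont c1 j ht, RGrow.piece]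
      have hm := RGrow.piece_mem hab ht
      generalize a + t * (a + 1 / (2 * (ns:ℝ) + 1) - a) = s at hm
      have hs : s ∈ Icc (0:ℝ) 1 := ⟨b0.trans hm.1, hm.2.trans b1⟩
      refine hrh.off _ fun q hq => ?_
      by_contra h
      push Not at h
      obtain ⟨e, hE, m, hqe⟩ := he.cov q hq
      refine b2 s hm ⟨k0 + j, e, m⟩ ?_ ⟨hs, q - iv m, hqe, ?_⟩
      · simp only [Finset.mem_sigma, Finset.mem_Ico]
        refine ⟨⟨by omega, by omega⟩, hS2 _ e hE m _ hqe ?_⟩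
        rw [a3.iter ha'.cont (by omega) hs] at h
        have e1 : q - iv m + iv m - (T F')^[k0 + j] z1 = s • fw g d1 (k0 + j) -
            ((T F')^[k0 + j] z1 + s • fw g d1 (k0 + j) - q) := by abel
        have e2 : ‖s • fw g d1 (k0 + j)‖ ≤ 1 := by
          rw [norm_smul, Real.norm_of_nonneg hs.1]
          exact mul_le_one₀ hs.2 (norm_nonneg _) (hhi _ (by omega))
        rw [e1]
        exact (norm_sub_le _ _).trans (by linarith only [h, e2, hw2])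
      · simpa using h) (RGrow.seg_shift ha'.cont c1)
    have c6 := RGrow.good_of_seg (C0 := C0) ha hh hC hl1 c4 (by
      rw [← fw_add]
      exact RGrow.fw_le' ha' hl2 hl'.le c3 c1 (Nat.le_add_right _ _) le_rfl)
      ((le_max_left _ _).trans hΘ3) ((le_max_right _ _).trans hΘ3)
    rw [← c5, ← fw_add, ← Function.iterate_add_apply, add_comm Θ k0] at c6
    have hcl : Close F F' η := fun p => (hrh.close p).trans hw3
    have c7 := ((a1.trans ha'.cont c2).trans ha'.cont c1.toSub).cr ha'.cont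
      (hcr F' hcl _ _ c6 (by
        rw [fw_smul, norm_smul, add_sub_cancel_left, Real.norm_of_nonneg (by positivity)]
        exact mul_le_mul_of_nonneg_left (hlo _ le_rfl) (by positivity)))
    exact c7.mono (by omega)

end Pool.Agent.MP_369096_an.H89
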