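import Pool.Agent.MP_369096_an.H89.SC
import Pool.Agent.MP_369096_an.H89.Coc3

/-!
The limit family of the rounding step (`MixI F p 0`): along an orbit `x` of `F` the cocycle is a
mixture of three itineraries of `x`; they agree at the non-singular times, and there are at most two
singular times.
-/

set_option autoImplicit false

open Set Filter Topology

namespace Pool.Agent.MP_369096_an.H89

namespace RLim

abbrev Tp : Type := (ℤ → E) × (ℤ → E) × (ℤ → E)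

noncomputable def mx (p : ℝ) (t : Tp) : ℤ → E := fun i => mix p (t.1 i) (t.2.1 i) (t.2.2 i)

def Tri (F : E → ℝ) (x : ℤ → ℝ) (t : Tp) : Prop := Itin F x t.1 ∧ Itin F x t.2.1 ∧ Itin F x t.2.2

variable {F : E → ℝ} {L : ℝ}

theorem hyp_nonneg {C l : ℝ} {h : ℤ → E} (hh : Hyp C l h) : 0 ≤ C := by
  have := hh (fun _ => 1) 0 0 (fun i h1 h2 => absurd h2 (by omega)) 0 le_rfl le_rfl
  simp [pt] at this
  linarith

theorem tri_of_mix {p : ℝ} {x : ℤ → ℝ} {h : ℤ → E} (hm : MixI F p 0 x h) :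
    ∃ t, Tri F x t ∧ h = mx p t := by
  obtain ⟨h1, h2⟩ := hm
  have ho : Orb F x := fun i => by have := h1 i; rwa [abs_nonpos_iff, sub_eq_zero] at this
  choose q0 q1 q2 k0 k1 k2 a0 a1 a2 b0 b1 b2 hk using h2
  simp only [norm_le_zero_iff, sub_eq_zero] at a0 a1 a2
  exact ⟨(k0, k1, k2), ⟨⟨ho, fun i => a0 i ▸ b0 i⟩, ⟨ho, fun i => a1 i ▸ b1 i⟩,
    ⟨ho, fun i => a2 i ▸ b2 i⟩⟩, funext hk⟩

theorem Tri.agree {x : ℤ → ℝ} {t : Tp} (h : Tri F x t) {i : ℤ} (hi : pt x i ∉ Sing F) :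
    t.2.1 i = t.1 i ∧ t.2.2 i = t.1 i :=
  ⟨LG.unique hi (h.2.1.2 i) (h.1.2 i), LG.unique hi (h.2.2.2 i) (h.1.2 i)⟩

theorem Tri.mx_eq {x : ℤ → ℝ} {t : Tp} (h : Tri F x t) (p : ℝ) {i : ℤ} (hi : pt x i ∉ Sing F) :
    mx p t i = t.1 i := by
  rw [mx, (h.agree hi).1, (h.agree hi).2, mix_same]

theorem Tri.shift {x : ℤ → ℝ} {t : Tp} (h : Tri F x t) (s : ℤ) :
    Tri F (fun j => x (j + s))
      (fun j => t.1 (j + s), fun j => t.2.1 (j + s), fun j => t.2.2 (j + s)) :=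
  ⟨h.1.shift s, h.2.1.shift s, h.2.2.shift s⟩

theorem pt_shift (x : ℤ → ℝ) (s i : ℤ) : pt (fun j => x (j + s)) i = pt x (i + s) := by
  simp only [pt]; rw [show i - 1 + s = i + s - 1 by ring]

theorem third {x : ℤ → ℝ} (h2 : H2 F) (hx : Orb F x) {k : ℤ} (hk : k ≠ 0) (h0 : pt x 0 ∈ Sing F)
    (h1 : pt x k ∈ Sing F) {i : ℤ} (hi0 : i ≠ 0) (hik : i ≠ k) : pt x i ∉ Sing F := by
  intro hi
  rcases lt_or_gt_of_ne hk with a | a <;> rcases lt_or_gt_of_ne hi0 with b | b <;>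
    rcases lt_or_gt_of_ne hik with c | c
  · exact h2 x hx i k 0 c a hi h1 h0
  · exact h2 x hx k i 0 c b h1 hi h0
  · omega
  · exact h2 x hx k 0 i a b h1 h0 hi
  · exact h2 x hx i 0 k b a hi h0 h1
  · omega
  · exact h2 x hx 0 i k b c h0 hi h1
  · exact h2 x hx 0 k i a c h0 h1 hi

/-- Triples of itineraries of orbits that are singular at the times `0` and `k`. -/
def Two (F : E → ℝ) (k : ℤ) : Set Tp :=
  {t | ∃ x, Tri F x t ∧ pt x 0 ∈ Sing F ∧ pt x k ∈ Sing F}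

theorem two_finite {r : ℝ} {N : ℕ} {Ed : Set (E × Set E)} {A Ln : Set Af} (ha : Adm F L 2)
    (hl : Loc F r N) (he : Edg F Ed) (hg : GenD F Ed A Ln) {k : ℤ} (hk : k ≠ 0) :
    (Two F k).Finite := by
  have h := finite_itin ha hl he hg hk
  refine (h.prod (h.prod h)).subset ?_
  rintro t ⟨x, ht, h0, h1⟩
  exact ⟨⟨x, ht.1, h0, h1⟩, ⟨x, ht.2.1, h0, h1⟩, ⟨x, ht.2.2, h0, h1⟩⟩

theorem two_win (h2 : H2 F) {k : ℤ} (hk : k ≠ 0) {t : Tp} (ht : t ∈ Two F k) (i : ℤ)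
    (hi : i < min 0 k ∨ max 0 k + 1 ≤ i) : t.2.1 i = t.1 i ∧ t.2.2 i = t.1 i := by
  obtain ⟨x, h, h0, h1⟩ := ht
  exact h.agree (third h2 h.1.1 hk h0 h1 (by omega) (by omega))

theorem unif {ι : Type*} {s : Set ι} (hs : s.Finite) (P : ι → ℝ → Prop)
    (hm : ∀ a C C', P a C → C ≤ C' → P a C') (h : ∀ a ∈ s, ∃ C, P a C) :
    ∃ C, 0 ≤ C ∧ ∀ a ∈ s, P a C := by
  choose! c hc using h
  obtain ⟨M, hM⟩ := (hs.image c).bddAbove
  exact ⟨max M 0, le_max_right _ _, fun a ha =>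
    hm a _ _ (hc a ha) ((hM ⟨a, ha, rfl⟩).trans (le_max_left _ _))⟩

theorem two_le_finite {r : ℝ} {N : ℕ} {Ed : Set (E × Set E)} {A Ln : Set Af} (ha : Adm F L 2)
    (hl : Loc F r N) (he : Edg F Ed) (hg : GenD F Ed A Ln) (R : ℕ) :
    {t | ∃ k : ℤ, k ≠ 0 ∧ |k| ≤ R ∧ t ∈ Two F k}.Finite := by
  have h1 : {k : ℤ | k ≠ 0 ∧ |k| ≤ R}.Finite :=
    (Set.finite_Icc (-(R : ℤ)) R).subset fun k hk => abs_le.1 hk.2
  refine (h1.biUnion fun k hk => two_finite ha hl he hg hk.1).subset ?_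
  rintro t ⟨k, h1, h2, h3⟩
  exact mem_biUnion (show k ∈ {k : ℤ | k ≠ 0 ∧ |k| ≤ R} from ⟨h1, h2⟩) h3

/-- The conclusion of the Sard type lemma at one parameter. -/
def SP (F : E → ℝ) (Ed : Set (E × Set E)) (C l α p : ℝ) : Prop :=
  ∀ e ∈ Ed, ∀ x c m, Itin F x c → pt x 0 - iv m ∈ e.2 →
    ∀ h0 h1 h2, LG F (pt x 0) h0 → LG F (pt x 0) h1 → LG F (pt x 0) h2 →
      ∀ s, Sol c s → Stab C l s →
        (∀ u, Sol c u → Unst C l u →
          α * (‖pt u 0‖ * ‖pt s 1‖) ≤ |dt (TL (mix p h0 h1 h2) (pt u 0)) (pt s 1)|) ∧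
        α * (‖e.1‖ * ‖pt s 1‖) ≤ |dt (TL (mix p h0 h1 h2) e.1) (pt s 1)|

theorem one_mod {C l α p : ℝ} {Ed : Set (E × Set E)} (ha : Adm F L 2) (he : Edg F Ed)
    (hh : HYP F C l) (hl2 : 2 < l) (hC : 0 ≤ C) (hα : 0 < α) (hp : 0 ≤ p) (hp1 : p ≤ 1)
    (hs : SP F Ed C l α p) : ∃ C2, C ≤ C2 ∧ ∀ x t (i0 : ℤ), Tri F x t →
      Hyp C2 l (Function.update t.1 i0 (mx p t i0)) := by
  obtain ⟨C2, hC2, hsp⟩ := hyp_split L C l α 1 hl2 hC hα
  have key : ∀ x t, Tri F x t → pt x 0 ∈ Sing F →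
      Hyp C2 l (Function.update t.1 0 (mx p t 0)) := by
    intro x t ht h0
    obtain ⟨e, hee, m, hm⟩ := he.cov _ h0
    have b0 := ha.itin_bd ht.1
    have bm : Bd L (mx p t) := Bd.mix hp hp1 b0 (ha.itin_bd ht.2.1) (ha.itin_bd ht.2.2)
    have b1 : Bd L (Function.update t.1 0 (mx p t 0)) := fun i => by
      by_cases hi : i = 0
      · rw [hi, Function.update_self]; exact bm 0
      · rw [Function.update_of_ne hi]; exact b0 i
    obtain ⟨s, s1, s2, s3⟩ := exists_stab b0 (hh x _ ht.1) hC hl2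
    obtain ⟨u, u1, u2, u3⟩ := exists_unst b0 (hh x _ ht.1) hC hl2
    obtain ⟨w, w1, w2⟩ := exists_sol b1.ne 0 (pt u 0)
    refine hsp t.1 _ u s w 0 b0 b1 (hh x _ ht.1)
      (fun i hi => Function.update_of_ne (by omega) _ _) u1 u2 s1 s2 (u3 _) (s3 _)
      (w1.solOn _ _) w2 ?_
    have e1 := pt_succ (w1 0)
    rw [Function.update_self, w2] at e1
    simp only [Nat.cast_one]
    rw [e1, zero_add]
    exact (hs e hee x t.1 m ht.1 hm _ _ _ (ht.1.2 0) (ht.2.1.2 0) (ht.2.2.2 0) s s1 s2).1 u u1 u2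
  refine ⟨max C C2, le_max_left _ _, fun x t i0 ht => ?_⟩
  by_cases h0 : pt x i0 ∈ Sing F
  · have h1 := (key _ _ (ht.shift i0) (by rwa [pt_shift, zero_add])).shift (-i0)
    refine Hyp.mono (C := C2) ?_ hC2.le (le_max_right _ _) (by linarith) le_rfl
    convert h1 using 1
    funext j
    by_cases hj : j = i0
    · subst hj; simp [mx]
    · rw [Function.update_of_ne hj, Function.update_of_ne (by omega)]; simp
  · rw [ht.mx_eq p h0, Function.update_eq_self]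
    exact (hh x _ ht.1).mono hC (le_max_left _ _) (by linarith) le_rfl

theorem hyp_all {r C l l' α p : ℝ} {N : ℕ} {Ed : Set (E × Set E)} {A Ln : Set Af}
    (ha : Adm F L 2) (hl : Loc F r N) (he : Edg F Ed) (hg : GenD F Ed A Ln) (hh : HYP F C l)
    (hl2 : 2 < l) (hl' : 1 < l') (hll : l' < l) (hα : 0 < α) (hp : 0 ≤ p) (hp1 : p ≤ 1)
    (hs : SP F Ed C l α p) (hB : ∀ k ≠ 0, ∀ t ∈ Two F k, ∃ C', Hyp C' l (mx p t)) :
    ∃ C3, 0 ≤ C3 ∧ ∀ x t, Tri F x t → Hyp C3 l' (mx p t) := by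
  have hC : 0 ≤ C := by have := HYP.half_le ha hl hh; linarith
  obtain ⟨C2, hC2, h1⟩ := one_mod ha he hh hl2 hC hα hp hp1 hs
  obtain ⟨R, -, hR⟩ := exists_glue_R (C := C2) hl' hll
  obtain ⟨C4, hC4, h4⟩ := unif (two_le_finite ha hl he hg (2 * R)) (fun t c => Hyp c l (mx p t))
    (fun t c c' h hc => h.mono (hyp_nonneg h) hc (by linarith) le_rfl)
    (by rintro t ⟨k, h1, -, h3⟩; exact hB k h1 t h3)
  refine ⟨max (4 * C2) C4, hC4.trans (le_max_right _ _), fun x t ht => ?_⟩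
  by_cases hn : ∃ i j : ℤ, i ≠ j ∧ |j - i| ≤ (2 * R : ℕ) ∧ pt x i ∈ Sing F ∧ pt x j ∈ Sing F
  · obtain ⟨i, j, hij, hd, hi, hj⟩ := hn
    have h5 := (h4 _ ⟨j - i, by omega, hd, _, ht.shift i, by rwa [pt_shift, zero_add],
      by rwa [pt_shift, sub_add_cancel]⟩).shift (-i)
    refine Hyp.mono (C := C4) (l := l) ?_ hC4 (le_max_right _ _) (by linarith) hll.le
    convert h5 using 1
    funext j
    simp [mx]
  · have bm : Bd L (mx p t) :=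
      Bd.mix hp hp1 (ha.itin_bd ht.1) (ha.itin_bd ht.2.1) (ha.itin_bd ht.2.2)
    refine (hyp_glue bm (hC.trans hC2) hl' hll.le (hR R le_rfl) fun c => ?_).mono
      (by linarith) (le_max_left _ _) (by linarith) le_rfl
    by_cases hw : ∃ i0, c - R ≤ i0 ∧ i0 < c + R ∧ pt x i0 ∈ Sing F
    · obtain ⟨i0, a1, a2, a3⟩ := hw
      refine ⟨_, h1 x t i0 ht, fun i b1 b2 => ?_⟩
      by_cases hi : i = i0
      · rw [hi, Function.update_self]
      · rw [Function.update_of_ne hi]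
        refine (ht.mx_eq p fun h => hn ⟨i, i0, hi, ?_, h, a3⟩).symm
        rw [abs_le]; push_cast; omega
    · exact ⟨t.1, (hh x _ ht.1).mono hC hC2 (by linarith) le_rfl, fun i b1 b2 =>
        (ht.mx_eq p fun h => hw ⟨i, b1, b2, h⟩).symm⟩

theorem et_win0 {C l C1 α p : ℝ} {Ed : Set (E × Set E)} (ha : Adm F L 2) (hh : HYP F C l)
    (hl2 : 2 < l) (hC : 0 ≤ C) (het : ET F Ed C1) (hα : 0 < α) (hp : 0 ≤ p) (hp1 : p ≤ 1)
    (hs : SP F Ed C l α p) : ∃ C4, 0 ≤ C4 ∧ ∀ e ∈ Ed, ∀ x t m v (R : ℕ), Tri F x t →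
      pt x 0 - iv m ∈ e.2 → (∀ i : ℤ, i ≠ 0 → |i| ≤ R → pt x i ∉ Sing F) → Sol (mx p t) v →
      pt v 0 = e.1 → ∀ j : ℤ, |j| ≤ R → ‖pt v 0‖ ≤ C4 * ‖pt v j‖ := by
  have hL := ha.le_L
  have hΛ : 0 < 2 * L + 2 := by linarith
  obtain ⟨Cn, hCn, hn⟩ := no_collapse L C l (α / (2 * L + 2)) hl2 hC (div_pos hα hΛ)
  refine ⟨max ((2 * L + 2) * Cn) C1, le_max_of_le_left (by positivity),
    fun e hee x t m v R ht hm hno hv h0 j hj => ?_⟩
  have b0 := ha.itin_bd ht.1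
  have bm : Bd L (mx p t) := Bd.mix hp hp1 b0 (ha.itin_bd ht.2.1) (ha.itin_bd ht.2.2)
  rw [abs_le] at hj
  rcases le_or_gt j 0 with hj0 | hj0
  · obtain ⟨w, w1, w2⟩ := exists_sol b0.ne 0 e.1
    have hv' : SolOn t.1 v j 0 := fun i a b => by
      rw [hv i, ht.mx_eq p (hno i (by omega) (by rw [abs_le]; omega))]
    have e1 := SolOn.unique b0.ne hv' (w1.solOn j 0) hj0 le_rfl (h0.trans w2.symm) le_rfl hj0
    have e2 := het e hee x t.1 w m ht.1 hm w1 w2 j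
    rw [w2, ← e1, ← h0] at e2
    exact e2.trans (mul_le_mul_of_nonneg_right (le_max_right _ _) (norm_nonneg _))
  · obtain ⟨s, s1, s2, s3⟩ := exists_stab b0 (hh x _ ht.1) hC hl2
    have hv' : SolOn t.1 v 1 j := fun i a b => by
      rw [hv i, ht.mx_eq p (hno i (by omega) (by rw [abs_le]; omega))]
    have e1 := pt_succ (hv 0)
    rw [zero_add, h0] at e1
    have e2 := (hs e hee x t.1 m ht.1 hm _ _ _ (ht.1.2 0) (ht.2.1.2 0) (ht.2.2.2 0) s s1 s2).2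
    have e3 := norm_TL_le (bm 0).1 (bm 0).2.1 (bm 0).2.2 e.1
    have e4 := norm_le_TL (bm 0).1 (bm 0).2.1 (bm 0).2.2 e.1
    rw [← e1] at e3 e4
    have e5 := hn t.1 v s 1 j b0 (hh x _ ht.1) s1 s2 (s3 1) hj0 hv' (by
      rw [e1]
      refine le_trans ?_ e2
      rw [← e1, div_mul_eq_mul_div, div_le_iff₀ hΛ]
      have := mul_le_mul_of_nonneg_right e3 (norm_nonneg (pt s 1))
      nlinarith)
    rw [h0]
    refine e4.trans (le_trans ?_ (mul_le_mul_of_nonneg_right (le_max_left _ _) (norm_nonneg _)))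
    rw [mul_assoc]
    exact mul_le_mul_of_nonneg_left e5 hΛ.le

/-- No collapse of the vector `d` for the cocycle `c`. -/
def NC (c : ℤ → E) (d : E) (C : ℝ) : Prop := ∀ v, Sol c v → pt v 0 = d → ∀ j, ‖d‖ ≤ C * ‖pt v j‖

end RLim

open RLim in
theorem rm_zero {F : E → ℝ} {L r C l C1 l' : ℝ} {N : ℕ} {Ed : Set (E × Set E)} {A Ln : Set Af}
    (ha : Adm F L 2) (hl : Loc F r N) (he : Edg F Ed) (hg : GenD F Ed A Ln) (hh : HYP F C l)
    (hl2 : 2 < l) (het : ET F Ed C1) (hl' : 1 < l') (hll : l' < l) :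
    ∃ p0 p1 : ℝ, 1 / 2 ≤ p0 ∧ p0 < p1 ∧ p1 ≤ 2 / 3 ∧ ∃ B : Set ℝ, B.Countable ∧
      ∀ p ∈ Icc p0 p1, p ∉ B → ∃ C', RM F Ed p 0 C' l' := by
  have h2 : H2 F := h2_of_gen ha hl he hg
  have hC : 0 ≤ C := by have := HYP.half_le ha hl hh; linarith
  obtain ⟨p0, p1, α, a0, a1, a2, hα, hs⟩ := sard ha hl he h2 hh hl2 het
  let B1 : Set ℝ := ⋃ k ∈ {k : ℤ | k ≠ 0}, ⋃ t ∈ Two F k,
    {p ∈ Icc (0 : ℝ) 1 | ¬ ∃ C', Hyp C' l (mx p t)}
  let B2 : Set ℝ := ⋃ k ∈ {k : ℤ | k ≠ 0}, ⋃ t ∈ Two F k, ⋃ e ∈ {e ∈ Ed | NC t.1 e.1 C1},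
    {p ∈ Icc (0 : ℝ) 1 | ¬ ∃ C', NC (mx p t) e.1 C'}
  have c1 : B1.Countable := by
    refine (Set.to_countable _).biUnion fun k hk =>
      (two_finite ha hl he hg hk).countable.biUnion fun t ht => Set.Finite.countable ?_
    obtain ⟨x, hx, -⟩ := id ht
    exact gen_hyp (ha.itin_bd hx.1) (ha.itin_bd hx.2.1) (ha.itin_bd hx.2.2) (hh x _ hx.1) hC hl2
      (two_win h2 hk ht)
  have c2 : B2.Countable := by
    refine (Set.to_countable _).biUnion fun k hk =>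
      (two_finite ha hl he hg hk).countable.biUnion fun t ht =>
        (he.fin.subset (sep_subset _ _)).countable.biUnion fun e hee => Set.Finite.countable ?_
    obtain ⟨x, hx, -⟩ := id ht
    exact gen_et (ha.itin_bd hx.1) (ha.itin_bd hx.2.1) (ha.itin_bd hx.2.2) (hh x _ hx.1) hC hl2
      (two_win h2 hk ht) hee.2
  refine ⟨p0, p1, a0, a1, a2, B1 ∪ B2, c1.union c2, fun p hp hB => ?_⟩
  have hp0 : 0 ≤ p := by linarith [hp.1]
  have hp1 : p ≤ 1 := by linarith [hp.2]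
  obtain ⟨C3, hC3, h3⟩ := hyp_all ha hl he hg hh hl2 hl' hll hα hp0 hp1 (hs p hp) fun k hk t ht => by
    by_contra hc
    exact hB (Or.inl (mem_biUnion hk (mem_biUnion ht ⟨⟨hp0, hp1⟩, hc⟩)))
  obtain ⟨C4, hC4, h4⟩ := et_win0 ha hh hl2 hC het hα hp0 hp1 (hs p hp)
  obtain ⟨R, hR⟩ := pow_unbounded_of_one_lt (2 * C3 * C4) hl'
  have f5 : {a : Tp × (E × Set E) | (∃ k : ℤ, k ≠ 0 ∧ |k| ≤ R ∧ a.1 ∈ Two F k) ∧ a.2 ∈ Ed ∧
      NC a.1.1 a.2.1 C1}.Finite :=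
    ((two_le_finite ha hl he hg R).prod he.fin).subset fun a h => ⟨h.1, h.2.1⟩
  obtain ⟨C5, hC5, h5⟩ := unif f5 (fun a c => NC (mx p a.1) a.2.1 c)
    (fun a c c' h hc v h1 h2 j => (h v h1 h2 j).trans
      (mul_le_mul_of_nonneg_right hc (norm_nonneg _))) (by
      rintro a ⟨⟨k, h1, -, h3⟩, h4, h5⟩
      by_contra hc
      exact hB (Or.inr (mem_biUnion h1 (mem_biUnion h3 (mem_biUnion (show a.2 ∈ {e ∈ Ed | NC a.1.1 e.1 C1}
        from ⟨h4, h5⟩) ⟨⟨hp0, hp1⟩, hc⟩)))))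
  refine ⟨max C3 (max (C4 * (2 * C3 + 1)) C5), fun x h hm => ?_⟩
  obtain ⟨t, ht, rfl⟩ := tri_of_mix hm
  refine ⟨(h3 x t ht).mono hC3 (le_max_left _ _) (by linarith) le_rfl,
    fun e hee m q hq v hd hv h0 j => ?_⟩
  rw [norm_le_zero_iff, sub_eq_zero] at hd
  rw [← hd] at hq
  refine le_trans ?_ (mul_le_mul_of_nonneg_right (le_max_right _ _) (norm_nonneg _))
  by_cases hn : ∃ i : ℤ, i ≠ 0 ∧ |i| ≤ R ∧ pt x i ∈ Sing F
  · obtain ⟨i, i1, i2, i3⟩ := hn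
    have s0 : pt x 0 ∈ Sing F := by
      have := (ha.sing_iv _ m).2 (he.sub e hee hq)
      rwa [sub_add_cancel] at this
    have := h5 (t, e) ⟨⟨i, i1, i2, x, ht, s0, i3⟩, hee, fun w w1 w2 j => by
      have := het e hee x t.1 w m ht.1 hq w1 w2 j
      rwa [w2] at this⟩ v hv h0 j
    rw [h0]
    exact this.trans (mul_le_mul_of_nonneg_right (le_max_right _ _) (norm_nonneg _))
  · exact ((h3 x t ht).et_win hC3 hl'.le hC4 hv hR.le
      (h4 e hee x t m v R ht hq (fun i a b c => hn ⟨i, a, b, c⟩) hv h0) j).trans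
      (mul_le_mul_of_nonneg_right (le_max_left _ _) (norm_nonneg _))

end Pool.Agent.MP_369096_an.H89
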