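import Pool.Agent.MP_369096_an.H89.Win

/-!
TASK RWin. From the limit family of the rounding step to small `r`. Auxiliary lemmas go in namespace `H89.RWin`.
-/

set_option autoImplicit false

open Set Filter Topology

namespace Pool.Agent.MP_369096_an.H89

variable {F : E → ℝ} {L : ℝ}

namespace RWin

/-- germs and edges near `z` pass through `z` -/
def Pr (F : E → ℝ) (Ed : Set (E × Set E)) (z : E) (ρ : ℝ) : Prop :=
  ∀ p : E, ‖p - z‖ ≤ ρ → (∀ k, LG F p k → LG F z k) ∧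
    ∀ e ∈ Ed, ∀ m, p - iv m ∈ e.2 → z - iv m ∈ e.2

theorem iv_sub (m m' : ℤ × ℤ) : iv (m - m') = iv m - iv m' := by
  ext <;> simp [iv]

theorem pr_small {r : ℝ} {N : ℕ} (hl : Loc F r N) {Ed : Set (E × Set E)} (he : Edg F Ed) (z : E) :
    ∃ ρ > 0, ∀ ρ', 0 < ρ' → ρ' ≤ ρ → Pr F Ed z ρ' := by
  obtain ⟨ρ1, h1, h1'⟩ := hl.usc z
  obtain ⟨ρ2, h2, h2'⟩ := he.usc z
  refine ⟨min ρ1 ρ2, lt_min h1 h2, fun ρ' _ hρ' p hp => ⟨?_, ?_⟩⟩
  · rintro k ⟨c, hc⟩
    exact ⟨c, h1' p (hp.trans (hρ'.trans (min_le_left _ _))) _ hc⟩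
  · exact h2' p (hp.trans (hρ'.trans (min_le_right _ _)))

theorem pr_iv (ha : Adm F L 2) {Ed : Set (E × Set E)} (z : E) (ρ : ℝ) (m : ℤ × ℤ)
    (h : Pr F Ed z ρ) : Pr F Ed (z + iv m) ρ := by
  intro p hp
  have e1 : p - iv m - z = p - (z + iv m) := by abel
  obtain ⟨h1, h2⟩ := h (p - iv m) (by rw [e1]; exact hp)
  refine ⟨fun k hk => ?_, fun e he m' hm' => ?_⟩
  · rw [ha.lg_iv]
    apply h1
    rw [← ha.lg_iv (p - iv m) k m, sub_add_cancel]
    exact hk
  · have e2 : p - iv m - iv (m' - m) = p - iv m' := by rw [iv_sub]; abel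
    have e3 : z - iv (m' - m) = z + iv m - iv m' := by rw [iv_sub]; abel
    rw [← e3]
    exact h2 e he (m' - m) (by rw [e2]; exact hm')

theorem pt_shift (x : ℤ → ℝ) (c i : ℤ) : pt (fun j => x (j + c)) i = pt x (i + c) := by
  simp only [pt]
  rw [show i - 1 + c = i + c - 1 by ring]

theorem mixI_bd (ha : Adm F L 2) {p r : ℝ} (hp : 0 ≤ p) (hp1 : p ≤ 1) {x : ℤ → ℝ} {h : ℤ → E}
    (hx : MixI F p r x h) : Bd L h := by
  intro i
  obtain ⟨q0, q1, q2, h0, h1, h2, -, -, -, g0, g1, g2, e⟩ := hx.2 i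
  rw [e]
  exact Bd.mix hp hp1 (h0 := fun _ => h0) (h1 := fun _ => h1) (h2 := fun _ => h2)
    (fun _ => ha.lg_bd g0) (fun _ => ha.lg_bd g1) (fun _ => ha.lg_bd g2) i

/-- every window of a mixed itinerary with small error is a window of an exact one -/
theorem win (ha : Adm F L 2) {r : ℝ} {N : ℕ} (hl : Loc F r N) {Ed : Set (E × Set E)}
    (he : Edg F Ed) (p : ℝ) (R : ℕ) :
    ∃ ρ > 0, ∀ x' h, MixI F p ρ x' h → ∀ c : ℤ, ∃ x h', MixI F p 0 x h' ∧
      (∀ i : ℤ, |i| ≤ R → h' i = h (i + c)) ∧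
      ∀ e ∈ Ed, ∀ m, ∀ q ∈ e.2, ‖pt x' c - iv m - q‖ ≤ ρ → pt x 0 - iv m ∈ e.2 := by
  classical
  obtain ⟨r0, hr0, hw⟩ := window ha (Pr F Ed) (pr_small hl he) (pr_iv ha) R
  refine ⟨r0, hr0, fun x' h hx' c => ?_⟩
  obtain ⟨x, ρ, hx, hρ, hP, hcl⟩ := hw (pt x' c)
  have hpo : POrb F r0 (fun j => x' (j + c)) := by
    intro i
    rw [pt_shift]
    have := hx'.1 (i + c)
    rwa [show i + c + 1 = i + 1 + c by ring] at this
  have hcl' : ∀ i : ℤ, |i| ≤ R → ‖pt x' (i + c) - pt x i‖ ≤ ρ := by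
    intro i hi
    have := hcl _ hpo (by rw [pt_shift, zero_add, sub_self, norm_zero]; exact hr0.le) i hi
    rwa [pt_shift] at this
  have hnear : ∀ i : ℤ, |i| ≤ R → ∀ q : E, ‖q - pt x' (i + c)‖ ≤ r0 → ‖q - pt x i‖ ≤ 3 * ρ := by
    intro i hi q hq
    have h1 := norm_add_le (q - pt x' (i + c)) (pt x' (i + c) - pt x i)
    rw [sub_add_sub_cancel] at h1
    linarith [hcl' i hi]
  choose g hg using hl.exists_germ
  refine ⟨x, fun i => if |i| ≤ R then h (i + c) else (g (pt x i)).1, ⟨?_, ?_⟩, ?_, ?_⟩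
  · intro i
    rw [hx i, sub_self, abs_zero]
  · intro i
    by_cases hi : |i| ≤ R
    · obtain ⟨q0, q1, q2, h0, h1, h2, n0, n1, n2, g0, g1, g2, e⟩ := hx'.2 (i + c)
      refine ⟨pt x i, pt x i, pt x i, h0, h1, h2, by simp, by simp, by simp,
        (hP i hi q0 (hnear i hi q0 n0)).1 _ g0, (hP i hi q1 (hnear i hi q1 n1)).1 _ g1,
        (hP i hi q2 (hnear i hi q2 n2)).1 _ g2, ?_⟩
      simp only [if_pos hi, e]
    · have hlg : LG F (pt x i) (g (pt x i)).1 := ⟨(g (pt x i)).2, hg _⟩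
      refine ⟨pt x i, pt x i, pt x i, _, _, _, by simp, by simp, by simp, hlg, hlg, hlg, ?_⟩
      simp only [if_neg hi, mix_same]
  · intro i hi
    simp only [if_pos hi]
  · intro e he' m q hq hn
    have h0 : |(0 : ℤ)| ≤ R := by simp
    refine (hP 0 h0 (q + iv m) (hnear 0 h0 _ ?_)).2 e he' m (by rwa [add_sub_cancel_right])
    rw [zero_add, ← norm_neg]
    have e1 : -(q + iv m - pt x' c) = pt x' c - iv m - q := by abel
    rw [e1]; exact hn

theorem rm_max {Ed : Set (E × Set E)} {p r C l : ℝ} (hl : 0 < l) (h : RM F Ed p r C l) :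
    RM F Ed p r (max C 0) l := by
  intro x k hx
  obtain ⟨h1, h2⟩ := h x k hx
  refine ⟨fun v s t hv i hs ht => (h1 v s t hv i hs ht).trans ?_,
    fun e he m q hq v hn hv h0 j => (h2 e he m q hq v hn hv h0 j).trans ?_⟩
  · exact mul_le_mul_of_nonneg_right (le_max_left _ _) (by positivity)
  · exact mul_le_mul_of_nonneg_right (le_max_left _ _) (norm_nonneg _)

end RWin

/-- From the limit family to small `r`. Use `window` with
`Pr z ρ := ∀ p, ‖p - z‖ ≤ ρ → (∀ k, LG F p k → LG F z k) ∧ ∀ e ∈ Ed, ∀ m, p - iv m ∈ e.2 → z - iv m ∈ e.2`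
(`Loc.usc`, `Edg.usc`). On every window (shift the time by the centre) a mixed itinerary agrees
with a mixed itinerary with `r = 0` (outside the window use any germ and `mix_same`); `hyp_glue` gives
hyperbolicity, `Hyp.et_win` (with `SolOn.unique`, `exists_sol`) the edge condition. The constant may
be assumed nonnegative (`Hyp` at `s = i = t`). -/
theorem rm_window (ha : Adm F L 2) {r : ℝ} {N : ℕ} (hl : Loc F r N) {Ed : Set (E × Set E)}
    (he : Edg F Ed) {p C l l' : ℝ} (hp : 0 ≤ p) (hp1 : p ≤ 1) (hl' : 1 < l') (hll : l' < l)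
    (h : RM F Ed p 0 C l) : ∃ ρ > 0, ∃ C', RM F Ed p ρ C' l' := by
  have h' := RWin.rm_max (by linarith) h
  have hC : 0 ≤ max C 0 := le_max_right _ _
  generalize max C 0 = C0 at h' hC
  obtain ⟨R1, -, hR1⟩ := exists_glue_R (C := C0) hl' hll
  obtain ⟨R2, hR2⟩ := pow_unbounded_of_one_lt (2 * (4 * C0) * C0) hl'
  have hRa : 4 * C0 * l' ^ (max R1 R2) ≤ l ^ (max R1 R2) := hR1 _ (le_max_left _ _)
  have hRb : 2 * (4 * C0) * C0 ≤ l' ^ (max R1 R2) :=
    hR2.le.trans (pow_le_pow_right₀ hl'.le (le_max_right _ _))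
  generalize max R1 R2 = R at hRa hRb
  obtain ⟨ρ, hρ, hw⟩ := RWin.win ha hl he p R
  refine ⟨ρ, hρ, 4 * C0 + C0 * (2 * (4 * C0) + 1), fun x' k hx' => ?_⟩
  have hb : Bd L k := RWin.mixI_bd ha hp hp1 hx'
  have hH : Hyp (4 * C0) l' k := by
    refine hyp_glue hb hC hl' hll.le hRa fun c => ?_
    obtain ⟨x, k', hx, hk, -⟩ := hw x' k hx' c
    refine ⟨fun j => k' (j + -c), (h' x k' hx).1.shift (-c), fun i h1 h2 => ?_⟩
    show k' (i + -c) = k i
    rw [hk (i + -c) (by rw [abs_le]; constructor <;> linarith)]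
    congr 1
    ring
  have hC2 : 0 ≤ C0 * (2 * (4 * C0) + 1) := by positivity
  refine ⟨hH.mono (by positivity) (by linarith) (by linarith) le_rfl,
    fun e he' m q hq v hn hv h0 j => ?_⟩
  obtain ⟨x, k', hx, hk, hE⟩ := hw x' k hx' 0
  have hb' : Bd L k' := RWin.mixI_bd ha hp hp1 hx
  have hne : ∀ i, (k' i).2 ≠ 0 := fun i => by
    have := (hb' i).2.2
    intro h0; rw [h0] at this; norm_num at this
  obtain ⟨w, hw1, hw0⟩ := exists_sol hne 0 e.1
  have hvw : ∀ j : ℤ, |j| ≤ R → pt v j = pt w j := by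
    intro j hj
    have hv' : SolOn k' v (-R) R := by
      intro i h1 h2
      rw [hk i (by rw [abs_le]; constructor <;> linarith), add_zero]
      exact hv i
    exact SolOn.unique hne hv' (hw1.solOn _ _) (i := 0) (by simp) (by simp) (by rw [h0, hw0])
      (abs_le.1 hj).1 (abs_le.1 hj).2
  have hET := (h' x k' hx).2 e he' m _ (hE e he' m q hq hn) w (by simp) hw1 hw0
  have := hH.et_win (by positivity) hl'.le hC hv hRb (fun j hj => by
    rw [hvw j hj, hvw 0 (by simp)]; exact hET j) j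
  refine this.trans (mul_le_mul_of_nonneg_right (by linarith) (norm_nonneg _))

end Pool.Agent.MP_369096_an.H89
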