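import Pool.Agent.MP_369096_an.H89.RLim
import Pool.Agent.MP_369096_an.H89.RWin
import Pool.Agent.MP_369096_an.H89.RGrow
import Pool.Agent.MP_369096_an.H89.RBas
import Pool.Agent.MP_369096_an.H89.Ent2

/-!
The rounding step.
-/

set_option autoImplicit false

open Set Filter Topology

namespace Pool.Agent.MP_369096_an.H89

theorem Off.mono {F F' : E → ℝ} {w w' : ℝ} (h : Off F F' w) (hw : w ≤ w') : Off F F' w' :=
  fun p hp => h p fun q hq => hw.trans_lt (hp q hq)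

theorem Itin.mixI {F : E → ℝ} {x : ℤ → ℝ} {c : ℤ → E} (hx : Itin F x c) (p : ℝ) {r : ℝ}
    (hr : 0 ≤ r) : MixI F p r x c := by
  refine ⟨fun i => by rw [hx.1 i]; simpa using hr, fun i => ?_⟩
  exact ⟨pt x i, pt x i, pt x i, c i, c i, c i, by simpa using hr, by simpa using hr,
    by simpa using hr, hx.2 i, hx.2 i, hx.2 i, (mix_same p _).symm⟩

theorem rstep {F : E → ℝ} {H : ℝ} (hc : Core F) (he : EntB F H) {η : ℝ} (hη : 0 < η) :
    ∃ p w : ℝ, 1 / 2 ≤ p ∧ p ≤ 2 / 3 ∧ 0 < w ∧ w < η ∧ Core (Rd p w F) ∧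
      EntB (Rd p w F) (H + η) := by
  obtain ⟨L, κ, ρ, r, N, Ed, A, Ln, C, l, h⟩ := hc
  have ha : Adm F L 2 := h.adm.mono le_rfl h.kap.le
  have hL : 22 ≤ L := ha.le_L
  have h2 : H2 F := h2_of_gen ha h.loc h.edg h.gen
  have hl := h.lam
  have hC : 0 ≤ C := by have := HYP.half_le ha h.loc h.hyp; linarith
  obtain ⟨p0, p1, hp0, hp01, hp1, B, hB, hrm⟩ := rm_zero (l' := (2 + 3 * l) / 4) ha h.loc h.edg
    h.gen h.hyp hl h.et (by linarith) (by linarith)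
  obtain ⟨Bp, hBp, hgen⟩ := gen_R h.gen.cA h.gen.cL h.gen.nt
  obtain ⟨p, hp, hpB⟩ := exists_notMem_Ioo (hB.union hBp) hp01
  have hpa : 0 ≤ p := by linarith [hp.1]
  have hpb : p ≤ 1 := by linarith [hp.2]
  obtain ⟨C1, hrm1⟩ := hrm p ⟨hp.1.le, hp.2.le⟩ fun hh => hpB (Or.inl hh)
  obtain ⟨Bw, hBw, hnt⟩ := hgen p fun hh => hpB (Or.inr hh)
  obtain ⟨ρ', hρ', C2, hrm2⟩ := rm_window (l' := (2 + l) / 2) ha h.loc h.edg hpa hpb
    (by linarith) (by linarith) hrm1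
  have hC2 : 0 ≤ C2 := by
    have h3 : HYP F C2 ((2 + l) / 2) := fun x c hx => (hrm2 x c (hx.mixI p hρ'.le)).1
    have := HYP.half_le ha h.loc h3; linarith
  obtain ⟨Ed', hEd', hE⟩ := ha.edg_rev h.loc h.edg
  obtain ⟨w1, hw1, hq1⟩ := qp_R ha h2 h.edg h.hyp hC (by linarith) h.q L C2 C2 (N ^ 3)
    (l' := (2 + l) / 2) h.loc.1 (by linarith)
  obtain ⟨w2, hw2, hq2⟩ := qp_R ha.rev (ha.h2_rev h2) hEd' (ha.hyp_rev h.hyp) hC (by linarith)
    h.qrev (2 * L) C2 ((2 * L + 2) * C2) (N ^ 3) (r' := r / (2 * L + 2)) (l' := (2 + l) / 2)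
    (div_pos h.loc.1 (by linarith)) (by linarith)
  obtain ⟨w3, hw3, hq3⟩ := entB_R ha h2 he hη h.loc.1 (N ^ 3)
  have hrho := h.rho
  set M : ℝ := (2 * L + 4) * (2 * L + 2) with hM
  have hM1 : 2 * L + 2 ≤ M := by rw [hM]; nlinarith
  have hM0 : 0 < M := by linarith
  set w0 : ℝ := min (min η (1 / 5 - ρ)) (min (min ρ' w1) (min w2 w3) / M) with hw0
  have hw0p : 0 < w0 := by
    refine lt_min (lt_min hη (by linarith)) (div_pos ?_ hM0)
    exact lt_min (lt_min hρ' hw1) (lt_min hw2 hw3)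
  obtain ⟨w, hw, hwB⟩ := exists_notMem_Ioo hBw hw0p
  have hwa : w < η := hw.2.trans_le ((min_le_left _ _).trans (min_le_left _ _))
  have hwb : w < 1 / 5 - ρ := hw.2.trans_le ((min_le_left _ _).trans (min_le_right _ _))
  have hwc : M * w ≤ min (min ρ' w1) (min w2 w3) := by
    have := hw.2.le.trans (min_le_right _ _)
    rwa [le_div_iff₀' hM0] at this
  have hwp := hw.1
  have hLw : L * w ≤ M * w := by nlinarith
  have h2w : (2 * L + 2) * w ≤ M * w := by nlinarith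
  have hww : w ≤ L * w := by nlinarith
  have e1 : M * w ≤ ρ' := hwc.trans ((min_le_left _ _).trans (min_le_left _ _))
  have e2 : M * w ≤ w1 := hwc.trans ((min_le_left _ _).trans (min_le_right _ _))
  have e3 : M * w ≤ w2 := hwc.trans ((min_le_right _ _).trans (min_le_left _ _))
  have e4 : M * w ≤ w3 := hwc.trans ((min_le_right _ _).trans (min_le_right _ _))
  have ha' : Adm (Rd p w F) L 2 := Rd_adm ha hpa hpb
  have hl' : Loc (Rd p w F) r (N ^ 3) := Rd_loc ha.cont h.loc p w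
  have hmix : ∀ x c, Itin (Rd p w F) x c → MixI F p ρ' x c := fun x c hx =>
    Rd_mixI ha h.loc hpa hpb hwp.le (hLw.trans e1) hx
  have hh' : HYP (Rd p w F) C2 ((2 + l) / 2) := fun x c hx => (hrm2 x c (hmix x c hx)).1
  have hcl : Close F (Rd p w F) (L * w) := Rd_close ha hpa hpb hwp.le
  have hof : Off F (Rd p w F) (L * w) := (Rd_off F p hwp.le).mono hww
  have hrh : RH F (Rd p w F) Ed (L * w) C2 := ⟨hcl, hof, fun e hee x c v m q hq hx hd hv h0 j _ =>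
    (hrm2 x c (hmix x c hx)).2 e hee m q hq v (hd.trans (hLw.trans e1)) hv h0 j⟩
  have hrh' := Rd_rh_rev ha h.loc hpa hpb hwp.le hC2 hrm2 hE (by rw [← mul_assoc]; exact e1)
  obtain ⟨Ed2, A2, Ln2, hE2, hG2, hnear⟩ := Rd_edg ha h.loc hwp.le h.edg h.gen (hnt w hwB)
  refine ⟨p, w, by linarith [hp.1], by linarith [hp.2], hwp, hwa,
    ⟨L, κ, ρ + w, r, N ^ 3, Ed2, A2, Ln2, C2, (2 + l) / 2, Rd_adm h.adm hpa hpb, h.kap,
      Rd_linR h.linr hwp.le, by linarith, hl', hE2, hG2, hh', by linarith, ?_,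
      hq1 _ _ (hLw.trans e2) ha' hl' hh' hrh,
      hq2 _ _ (h2w.trans e3) ha'.rev (ha'.loc_rev hl') (ha'.hyp_rev hh') hrh'⟩,
    hq3 _ L _ (hLw.trans e4) ha' hl' hcl hof⟩
  intro e' he' x c v m hx hm hv h0 j
  obtain ⟨e, hee, hd, hq⟩ := hnear e' he'
  obtain ⟨q, hq1', hq2'⟩ := hq _ hm
  exact (hrm2 x c (hmix x c hx)).2 e hee m q hq1' v (hq2'.trans (hww.trans (hLw.trans e1))) hv
    (h0.trans hd) j

end Pool.Agent.MP_369096_an.H89
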