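import Pool.Agent.MP_369096_an.H89.RStep

/-!
TASK Round. Many rounding steps make the map almost `C^1`. Auxiliary lemmas: namespace `H89.Round`.
-/

set_option autoImplicit false

open Set Filter Topology

namespace Pool.Agent.MP_369096_an.H89

namespace Round

theorem lipB_mono {F : E → ℝ} {h z : E} {κ κ' r r' : ℝ} (H : LipB F h κ z r) (hκ : κ ≤ κ')
    (hr : r' ≤ r) : LipB F h κ' z r' := fun p q hp hq =>
  (H p q (hp.trans hr) (hq.trans hr)).trans (mul_le_mul_of_nonneg_right hκ (norm_nonneg _))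

theorem dp_mono {F : E → ℝ} {κ κ' r : ℝ} (H : DP F κ r) (hκ : κ ≤ κ') : DP F κ' r := fun z => by
  obtain ⟨h, hh⟩ := H z
  exact ⟨h, lipB_mono hh hκ le_rfl⟩

theorem lin_sum {ι : Type} (s : Finset ι) (c : ι → ℝ) (g : ι → E) (v : E) :
    lin (∑ i ∈ s, c i • g i) v = ∑ i ∈ s, c i * lin (g i) v := by
  simp only [lin, Prod.fst_sum, Prod.snd_sum, Prod.smul_fst, Prod.smul_snd, smul_eq_mul,
    Finset.sum_mul, ← Finset.sum_add_distrib]
  exact Finset.sum_congr rfl fun i _ => by ring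

theorem ev_sub (g : Af) (p q : E) : ev g p - ev g q = lin g.1 (p - q) := by
  simp only [ev, lin, Prod.fst_sub, Prod.snd_sub]
  ring

/-- A line with direction `(θ, 1)` meets at most one of two horizontally separated small balls. -/
theorem sep_of_line {d z p p' : E} {t t' r : ℝ} (hd : d.2 = 1) (hl : dt d (p - p') = 0)
    (hp : ‖p - (z + (t, 0))‖ ≤ r) (hp' : ‖p' - (z + (t', 0))‖ ≤ r) :
    |t - t'| ≤ 2 * (1 + |d.1|) * r := by
  have a1 : |p.1 - (z.1 + t)| ≤ r := by simpa using (norm_fst_le _).trans hp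
  have a2 : |p.2 - z.2| ≤ r := by simpa using (norm_snd_le _).trans hp
  have b1 : |p'.1 - (z.1 + t')| ≤ r := by simpa using (norm_fst_le _).trans hp'
  have b2 : |p'.2 - z.2| ≤ r := by simpa using (norm_snd_le _).trans hp'
  have h1 : p.1 - p'.1 = d.1 * (p.2 - p'.2) := by
    simp only [dt, hd, Prod.fst_sub, Prod.snd_sub] at hl
    linarith
  have h2 : |p.2 - p'.2| ≤ 2 * r := by
    rw [abs_le] at a2 b2 ⊢
    constructor <;> linarith [a2.1, a2.2, b2.1, b2.2]
  have h3 : |p.1 - p'.1| ≤ |d.1| * (2 * r) := by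
    rw [h1, abs_mul]
    exact mul_le_mul_of_nonneg_left h2 (abs_nonneg _)
  rw [abs_le] at a1 b1 h3 ⊢
  constructor <;> nlinarith [a1.1, a1.2, b1.1, b1.2, h3.1, h3.2]

/-- The indexed form of `dp_of_avg`. -/
theorem dp_idx {F : E → ℝ} {L : ℝ} (ha : Adm F L 2) {Ed : Set (E × Set E)} (he : Edg F Ed)
    (hd : ∀ e ∈ Ed, e.1.2 = 1) : ∃ n : ℕ, ∀ (ι : Type) (s : Finset ι) (τ c : ι → ℝ) (c0 : ℝ),
      0 ≤ c0 → Set.InjOn τ s → (∀ i ∈ s, 0 ≤ c i ∧ c i ≤ c0 ∧ |τ i| ≤ 1) →
      ∃ r > 0, DP (fun z => ∑ i ∈ s, c i * F (z + (τ i, 0))) (n * c0 * (L + 2)) r := by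
  classical
  obtain ⟨n, hn⟩ := he.count 2
  refine ⟨n, fun ι s τ c c0 hc0 hinj hs => ?_⟩
  have hL : 22 ≤ L := ha.le_L
  have hev : ∀ᶠ r in 𝓝 (0 : ℝ), r < 1 ∧ ∀ e ∈ Ed, ∀ i ∈ s, ∀ i' ∈ s, i ≠ i' →
      2 * (1 + |e.1.1|) * r < |τ i - τ i'| := by
    refine (eventually_lt_nhds one_pos).and ?_
    refine (eventually_all_finite he.fin).2 fun e _ => ?_
    refine (Finset.eventually_all s).2 fun i hi => ?_
    refine (Finset.eventually_all s).2 fun i' hi' => ?_
    by_cases hii : i = i'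
    · exact Eventually.of_forall fun r h => absurd hii h
    · have hpos : 0 < |τ i - τ i'| :=
        abs_pos.2 (sub_ne_zero.2 fun h => hii (hinj hi hi' h))
      have hcont : Tendsto (fun r : ℝ => 2 * (1 + |e.1.1|) * r) (𝓝 0) (𝓝 0) := by
        have : Continuous fun r : ℝ => 2 * (1 + |e.1.1|) * r := by fun_prop
        simpa using this.tendsto 0
      exact (hcont.eventually (eventually_lt_nhds hpos)).mono fun r h _ => h
  obtain ⟨r, ⟨hr1, hr⟩, hr0⟩ :=
    ((hev.filter_mono nhdsWithin_le_nhds).and (self_mem_nhdsWithin (s := Ioi (0 : ℝ)))).exists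
  have hr0' : 0 < r := hr0
  refine ⟨r, hr0', fun z => ?_⟩
  obtain ⟨S, hSc, -, hS⟩ := hn z
  set bad : ι → Prop := fun i => ∃ p, ‖p - (z + (τ i, 0))‖ ≤ r ∧ p ∈ Sing F with hbad
  have hb : ∀ i, ∃ a : (E × Set E) × (ℤ × ℤ), i ∈ s → bad i → a.1 ∈ Ed ∧ a ∈ S ∧
      ∃ p, ‖p - (z + (τ i, 0))‖ ≤ r ∧ p - iv a.2 ∈ a.1.2 := by
    intro i
    by_cases hi : i ∈ s ∧ bad i
    · obtain ⟨hi, p, hp, hps⟩ := hi
      obtain ⟨e, hee, m, hm⟩ := he.cov p hps
      refine ⟨(e, m), fun _ _ => ⟨hee, hS e hee m _ hm ?_, p, hp, hm⟩⟩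
      have h1 : p - iv m + iv m - z = (p - (z + (τ i, 0))) + (τ i, 0) := by abel
      have h2 : ‖((τ i, 0) : E)‖ ≤ 1 := by
        simpa [Prod.norm_def] using (hs i hi).2.2
      rw [h1]
      linarith [norm_add_le (p - (z + (τ i, 0))) ((τ i, 0) : E)]
    · exact ⟨((0, ∅), 0), fun h1 h2 => absurd ⟨h1, h2⟩ hi⟩
  choose a ha' using hb
  have hcard : (s.filter bad).card ≤ n := by
    refine le_trans (Finset.card_le_card_of_injOn a (fun i hi => ?_) fun i hi i' hi' hii => ?_) hSc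
    · have hi' := Finset.mem_filter.1 (Finset.mem_coe.1 hi)
      exact (ha' i hi'.1 hi'.2).2.1
    · have h1 := Finset.mem_filter.1 (Finset.mem_coe.1 hi)
      have h2 := Finset.mem_filter.1 (Finset.mem_coe.1 hi')
      by_contra hne
      obtain ⟨e1, -, p, hp, hp2⟩ := ha' i h1.1 h1.2
      obtain ⟨-, -, p', hp', hp2'⟩ := ha' i' h2.1 h2.2
      rw [← hii] at hp2'
      have h3 := he.line _ e1 _ hp2 _ hp2'
      rw [sub_sub_sub_cancel_right] at h3
      exact absurd (sep_of_line (hd _ e1) h3 hp hp') (not_le.2 (hr _ e1 i h1.1 i' h2.1 hne))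
  have hg : ∀ i, ∃ g : Af, ¬ bad i → ∀ p, ‖p - (z + (τ i, 0))‖ ≤ r → F p = ev g p := by
    intro i
    by_cases hi : bad i
    · exact ⟨0, fun h => absurd hi h⟩
    · obtain ⟨g, hg⟩ := aff_of_preconnected (F := F) (U := Metric.closedBall (z + (τ i, 0)) r)
        (convex_closedBall _ _).isPreconnected
        (fun p hp hps => hi ⟨p, by rwa [Metric.mem_closedBall, dist_eq_norm] at hp, hps⟩)
        (Metric.mem_closedBall_self hr0'.le)
      refine ⟨g, fun _ p hp => ?_⟩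
      exact (hg p (by rwa [Metric.mem_closedBall, dist_eq_norm])).self_of_nhds
  choose g hg using hg
  refine ⟨∑ i ∈ s.filter fun i => ¬ bad i, c i • (g i).1, fun p q hp hq => ?_⟩
  have hsh : ∀ (i : ι) (p : E), p + (τ i, 0) - (z + (τ i, 0)) = p - z := fun i p => by abel
  have hsh' : ∀ i : ι, p + (τ i, 0) - (q + (τ i, 0)) = p - q := fun i => by abel
  have key : (∑ i ∈ s, c i * F (p + (τ i, 0))) - (∑ i ∈ s, c i * F (q + (τ i, 0))) -
      lin (∑ i ∈ s.filter fun i => ¬ bad i, c i • (g i).1) (p - q) =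
      ∑ i ∈ s.filter bad, c i * (F (p + (τ i, 0)) - F (q + (τ i, 0))) := by
    rw [lin_sum, ← Finset.sum_sub_distrib,
      ← Finset.sum_filter_add_sum_filter_not s bad]
    have h1 : ∑ i ∈ s.filter fun i => ¬ bad i,
        (c i * F (p + (τ i, 0)) - c i * F (q + (τ i, 0))) =
        ∑ i ∈ s.filter fun i => ¬ bad i, c i * lin (g i).1 (p - q) := by
      refine Finset.sum_congr rfl fun i hi => ?_
      have hi' := (Finset.mem_filter.1 hi).2
      rw [hg i hi' _ (by rwa [hsh]), hg i hi' _ (by rwa [hsh]), ← mul_sub, ev_sub, hsh']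
    rw [h1, add_sub_cancel_right]
    exact Finset.sum_congr rfl fun i _ => by ring
  show |(∑ i ∈ s, c i * F (p + (τ i, 0))) - (∑ i ∈ s, c i * F (q + (τ i, 0))) -
      lin (∑ i ∈ s.filter fun i => ¬ bad i, c i • (g i).1) (p - q)| ≤ _
  rw [key]
  have hM : 0 ≤ c0 * ((L + 2) * ‖p - q‖) := by
    have : 0 ≤ L + 2 := by linarith
    positivity
  calc |∑ i ∈ s.filter bad, c i * (F (p + (τ i, 0)) - F (q + (τ i, 0)))|
      ≤ ∑ i ∈ s.filter bad, |c i * (F (p + (τ i, 0)) - F (q + (τ i, 0)))| :=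
        Finset.abs_sum_le_sum_abs _ _
    _ ≤ ∑ _i ∈ s.filter bad, c0 * ((L + 2) * ‖p - q‖) := by
        refine Finset.sum_le_sum fun i hi => ?_
        have hi' := hs i (Finset.mem_filter.1 hi).1
        rw [abs_mul, abs_of_nonneg hi'.1]
        have h1 := ha.lip (p + (τ i, 0)) (q + (τ i, 0))
        rw [hsh'] at h1
        exact mul_le_mul hi'.2.1 h1 (abs_nonneg _) hc0
    _ = (s.filter bad).card * (c0 * ((L + 2) * ‖p - q‖)) := by
        rw [Finset.sum_const, nsmul_eq_mul]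
    _ ≤ n * (c0 * ((L + 2) * ‖p - q‖)) :=
        mul_le_mul_of_nonneg_right (by exact_mod_cast hcard) hM
    _ = n * c0 * (L + 2) * ‖p - q‖ := by ring

/-- The least gap of finitely many distinct numbers. -/
theorem exists_gap {ι : Type} (s : Finset ι) (τ : ι → ℝ) (hinj : Set.InjOn τ s) :
    ∃ γ > 0, ∀ i ∈ s, ∀ i' ∈ s, i ≠ i' → 2 * γ < |τ i - τ i'| := by
  have hev : ∀ᶠ r in 𝓝 (0 : ℝ), ∀ i ∈ s, ∀ i' ∈ s, i ≠ i' → 2 * r < |τ i - τ i'| := by
    refine (Finset.eventually_all s).2 fun i hi => ?_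
    refine (Finset.eventually_all s).2 fun i' hi' => ?_
    by_cases hii : i = i'
    · exact Eventually.of_forall fun r h => absurd hii h
    · have hpos : 0 < |τ i - τ i'| :=
        abs_pos.2 (sub_ne_zero.2 fun h => hii (hinj hi hi' h))
      have hcont : Tendsto (fun r : ℝ => 2 * r) (𝓝 0) (𝓝 0) := by
        have : Continuous fun r : ℝ => 2 * r := by fun_prop
        simpa using this.tendsto 0
      exact (hcont.eventually (eventually_lt_nhds hpos)).mono fun r h _ => h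
  obtain ⟨r, hr, hr0⟩ :=
    ((hev.filter_mono nhdsWithin_le_nhds).and (self_mem_nhdsWithin (s := Ioi (0 : ℝ)))).exists
  exact ⟨r, hr0, hr⟩

end Round

theorem Near.trans {F F' F'' : E → ℝ} {w w' ε ε' : ℝ} (h : Near F F' w ε) (h' : Near F' F'' w' ε') :
    Near F F'' (w + w') (ε + ε') := by
  intro k κ z r hk
  have h1 : LipB F k κ z (r + w' + w) := Round.lipB_mono hk le_rfl (by linarith)
  exact Round.lipB_mono (h' k _ z r (h k κ z _ h1)) (by linarith) le_rfl

theorem Near.mono {F F' : E → ℝ} {w w' ε ε' : ℝ} (h : Near F F' w ε) (hw : w ≤ w') (hε : ε ≤ ε') :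
    Near F F' w' ε' := by
  intro k κ z r hk
  exact Round.lipB_mono (h k κ z r (Round.lipB_mono hk le_rfl (by linarith))) (by linarith) le_rfl

theorem Keep.trans {F F' F'' : E → ℝ} {w w' : ℝ} (h : Keep F F' w) (h' : Keep F' F'' w') :
    Keep F F'' (w + w') := by
  intro z g ρ hg
  exact h' z g ρ (h z g (ρ + w') fun p hp => hg p (by linarith))

theorem Keep.mono {F F' : E → ℝ} {w w' : ℝ} (h : Keep F F' w) (hw : w ≤ w') : Keep F F' w' := by
  intro z g ρ hg
  exact h z g ρ fun p hp => hg p (by linarith)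

theorem Close.trans {F F' F'' : E → ℝ} {a b : ℝ} (h : Close F F' a) (h' : Close F' F'' b) :
    Close F F'' (a + b) := by
  intro z
  have h1 := abs_le.1 (h z)
  have h2 := abs_le.1 (h' z)
  rw [abs_le]
  constructor <;> linarith [h1.1, h1.2, h2.1, h2.2]

theorem Close.mono {F F' : E → ℝ} {a b : ℝ} (h : Close F F' a) (hab : a ≤ b) : Close F F' b :=
  fun z => (h z).trans hab

/-- An average of distinct horizontal shifts with small weights. Let `n` come from `Edg.count` with `B = 2`, and let `r ≤ 1`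
be so small that `2 (1 + |e.1.1|) r < |t - t'|` for all edges and all `t ≠ t'` in `s`. Given `z`, call `t ∈ s` bad if
`closedBall (z + (t,0)) r` meets `Sing F`; it then meets a translated edge (`Edg.cov`), and a translated edge, which lies on a line with
direction `(θ, 1)`, serves at most one `t`; so there are at most `n` bad `t`. For good `t` the shifted map is affine on the ball
(`aff_of_preconnected`); let `h` be the weighted sum of these gradients; bad terms are `(L+2)`-Lipschitz (`Adm.lip`). -/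
theorem dp_of_avg {F : E → ℝ} {L : ℝ} (ha : Adm F L 2) {Ed : Set (E × Set E)} (he : Edg F Ed)
    (hd : ∀ e ∈ Ed, e.1.2 = 1) : ∃ n : ℕ, ∀ (s : Finset ℝ) (c : ℝ → ℝ) (c0 : ℝ), 0 ≤ c0 →
      (∀ t ∈ s, 0 ≤ c t ∧ c t ≤ c0 ∧ |t| ≤ 1) →
      ∃ r > 0, DP (fun z => ∑ t ∈ s, c t * F (z + (t, 0))) (n * c0 * (L + 2)) r := by
  obtain ⟨n, hn⟩ := Round.dp_idx ha he hd
  exact ⟨n, fun s c c0 hc0 hs => hn ℝ s (fun t => t) c c0 hc0 (fun _ _ _ _ h => h) hs⟩

namespace Round

/-- The induction behind `round_many`. -/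
theorem round_ind {F : E → ℝ} {H : ℝ} (hc : Core F) (he : EntB F H) {η : ℝ} (hη : 0 < η) (j : ℕ) :
    ∃ (F' : E → ℝ) (a : ℝ), a < η ∧ Core F' ∧ EntB F' (H + a) ∧ Close F F' a ∧ Near F F' a 0 ∧
      Keep F F' a ∧ ∃ (ι : Type) (s : Finset ι) (τ c : ι → ℝ), Set.InjOn τ s ∧
        (∀ i ∈ s, 0 ≤ c i ∧ c i ≤ (1 / 2) ^ j ∧ |τ i| ≤ a) ∧
        ∀ z, F' z = ∑ i ∈ s, c i * F (z + (τ i, 0)) := by
  induction j with
  | zero =>
    refine ⟨F, 0, hη, hc, by simpa using he, fun z => by simp, fun k κ z r hk => by simpa using hk,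
      fun z g ρ hg => by simpa using hg, Unit, Finset.univ, fun _ => 0, fun _ => 1,
      fun _ _ _ _ _ => rfl, fun i _ => by simp, fun z => ?_⟩
    have h0 : z + ((0 : ℝ), (0 : ℝ)) = z := by ext <;> simp
    simp [h0]
  | succ j ih =>
    obtain ⟨F', a, ha, c1, c2, c3, c4, c5, ι, s, τ, c, hinj, hs, hF⟩ := ih
    obtain ⟨γ, hγ, hgap⟩ := exists_gap s τ hinj
    obtain ⟨L, κ, ρ, r, N, Ed, A, Ln, C, l, hcore⟩ := id c1
    have hL : 22 ≤ L := hcore.adm.le_L
    have hL0 : 0 < L := by linarith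
    set δ : ℝ := min γ ((η - a) / (2 * L)) with hδ
    have hδ0 : 0 < δ := lt_min hγ (div_pos (by linarith) (by linarith))
    have hδ1 : L * δ ≤ (η - a) / 2 := by
      have h1 : δ ≤ (η - a) / (2 * L) := min_le_right _ _
      rw [le_div_iff₀ (by linarith)] at h1
      linarith
    have hδ2 : δ ≤ L * δ := by nlinarith
    obtain ⟨p, w, hp0, hp1, hw0, hw1, d1, d2⟩ := rstep c1 c2 hδ0
    have hpa : 0 ≤ p := by linarith
    have hpb : p ≤ 1 := by linarith
    have hwL : L * w ≤ L * δ := mul_le_mul_of_nonneg_left hw1.le hL0.le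
    have hwγ : w < γ := hw1.trans_le (min_le_left _ _)
    have hsh : ∀ k : Fin 3, |(![0, w, -w] : Fin 3 → ℝ) k| ≤ w := by
      intro k
      fin_cases k
      · simpa using hw0.le
      · simp [abs_of_pos hw0]
      · simp [abs_of_pos hw0]
    have hwt : ∀ k : Fin 3, 0 ≤ (![1 - p, p / 2, p / 2] : Fin 3 → ℝ) k ∧
        (![1 - p, p / 2, p / 2] : Fin 3 → ℝ) k ≤ 1 / 2 := by
      intro k
      fin_cases k <;> simp <;> constructor <;> linarith
    refine ⟨Rd p w F', a + L * δ, by linarith, d1, d2.mono (by linarith),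
      (c3.trans (Rd_close hcore.adm hpa hpb hw0.le)).mono (by linarith),
      (c4.trans (Rd_near F' hpa hpb hw0.le)).mono (by linarith) (by linarith),
      (c5.trans (Rd_keep F' p hw0.le)).mono (by linarith),
      ι × Fin 3, s ×ˢ Finset.univ, fun i => τ i.1 + ![0, w, -w] i.2,
      fun i => c i.1 * ![1 - p, p / 2, p / 2] i.2, ?_, ?_, ?_⟩
    · rintro ⟨i, k⟩ hi ⟨i', k'⟩ hi' hh
      have h1 : i ∈ s := (Finset.mem_product.1 (Finset.mem_coe.1 hi)).1
      have h2 : i' ∈ s := (Finset.mem_product.1 (Finset.mem_coe.1 hi')).1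
      have hh' : τ i + ![0, w, -w] k = τ i' + ![0, w, -w] k' := hh
      have hii : i = i' := by
        by_contra hne
        have h3 := hgap i h1 i' h2 hne
        have h4 := abs_le.1 (hsh k)
        have h5 := abs_le.1 (hsh k')
        have h6 : |τ i - τ i'| ≤ 2 * w := by
          rw [abs_le]
          constructor <;> linarith [h4.1, h4.2, h5.1, h5.2]
        linarith
      subst hii
      have h7 : (![0, w, -w] : Fin 3 → ℝ) k = ![0, w, -w] k' := add_left_cancel hh'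
      have hkk : k = k' := by
        fin_cases k <;> fin_cases k' <;> simp at h7 ⊢ <;> linarith
      rw [hkk]
    · rintro ⟨i, k⟩ hi
      have h1 := hs i (Finset.mem_product.1 hi).1
      refine ⟨mul_nonneg h1.1 (hwt k).1, ?_, ?_⟩
      · rw [pow_succ]
        exact mul_le_mul h1.2.1 (hwt k).2 (hwt k).1 (by positivity)
      · have h2 := abs_add_le (τ i) ((![0, w, -w] : Fin 3 → ℝ) k)
        have h3 := hsh k
        have h4 := h1.2.2
        show |τ i + (![0, w, -w] : Fin 3 → ℝ) k| ≤ _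
        linarith
    · intro z
      have e1 : ∀ t u : ℝ, z + (u, 0) + (t, 0) = z + (t + u, 0) := fun t u => by
        ext <;> simp
        ring
      rw [Finset.sum_product]
      simp only [Rd, hF, Fin.sum_univ_three, e1, Finset.mul_sum, ← Finset.sum_add_distrib]
      refine Finset.sum_congr rfl fun i _ => ?_
      simp
      ring

end Round

/-- Induction on `j`: there is `F'` with `Core F'`, `EntB F' (H + a)`, `Close F F' a`, `Near F F' a 0`, `Keep F F' a` for some `a < η`,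
of the form `∑ t ∈ s, c t * F (z + (t,0))` with `0 ≤ c t ≤ 2^(-j)`, `|t| ≤ a`. In the step take `w` (from `rstep`) smaller than half the least
gap of `s`, so that the shifts `t, t + w, t - w` are all distinct; the weights `1-p`, `p/2` are at most `1/2`.
`Rd_close` needs a Lipschitz constant of `F'` (from `Core F'`). WLOG `η ≤ 1`. -/
theorem round_many {F : E → ℝ} {H : ℝ} (hc : Core F) (he : EntB F H) {η : ℝ} (hη : 0 < η) :
    ∃ F', Core F' ∧ EntB F' (H + η) ∧ Close F F' η ∧ Near F F' η 0 ∧ Keep F F' η ∧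
      ∃ r > 0, DP F' η r := by
  obtain ⟨L, κ, ρ, r, N, Ed, A, Ln, C, l, hcore⟩ := id hc
  have ha : Adm F L 2 := hcore.adm.mono le_rfl hcore.kap.le
  have hL : 22 ≤ L := ha.le_L
  obtain ⟨n, hn⟩ := Round.dp_idx ha hcore.edg hcore.gen.dir
  have hM : 0 < (n + 1) * (L + 2) := by
    have : 0 < L + 2 := by linarith
    positivity
  obtain ⟨j, hj⟩ := exists_pow_lt_of_lt_one (div_pos hη hM) (by norm_num : (1 / 2 : ℝ) < 1)
  obtain ⟨F', a, ha1, c1, c2, c3, c4, c5, ι, s, τ, c, hinj, hs, hF⟩ :=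
    Round.round_ind hc he (lt_min hη one_pos) j
  have ha2 : a ≤ η := ha1.le.trans (min_le_left _ _)
  have ha3 : a ≤ 1 := ha1.le.trans (min_le_right _ _)
  have hj0 : (0 : ℝ) ≤ (1 / 2) ^ j := by positivity
  obtain ⟨r', hr', hdp⟩ := hn ι s τ c ((1 / 2) ^ j) hj0 hinj fun i hi =>
    ⟨(hs i hi).1, (hs i hi).2.1, (hs i hi).2.2.trans ha3⟩
  refine ⟨F', c1, c2.mono (by linarith), c3.mono ha2, c4.mono ha2 le_rfl, c5.mono ha2, r', hr', ?_⟩
  have hFF : F' = fun z => ∑ i ∈ s, c i * F (z + (τ i, 0)) := funext hF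
  rw [hFF]
  refine Round.dp_mono hdp ?_
  rw [lt_div_iff₀ hM] at hj
  have : 0 ≤ (1 / 2 : ℝ) ^ j * (L + 2) := mul_nonneg hj0 (by linarith)
  nlinarith

end Pool.Agent.MP_369096_an.H89
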