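import Pool.Agent.MP_369096_an.H89.SCa

/-!
TASK SC. A Sard type lemma: an interval of mixing parameters for which no mixed matrix sends an
unstable direction (or an edge direction) to a stable direction.
Auxiliary lemmas go in namespace `H89.SC`.
-/

set_option autoImplicit false

open Set Filter Topology

namespace Pool.Agent.MP_369096_an.H89

/-- Affine functions `p ↦ A + B p` that are large at `0` and lie in few small clusters have a common
interval without small values. Take `ε` small; for a cluster centre `(A0,B0)` that is used,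
`|A0| ≥ α0/2`, and `{p ∈ [1/2,2/3] | |A0 + B0 p| < 3η}` has length at most `16 η / α0`; pick `p*` in
`(1/2 , 2/3)` outside all of them (Lebesgue measure), then a small interval around `p*`. -/
theorem good_interval {Ds : Set (ℝ × ℝ)} {α0 Bm : ℝ} (hα : 0 < α0)
    (h1 : ∀ a ∈ Ds, α0 ≤ |a.1| ∧ |a.2| ≤ Bm)
    (h2 : ∀ ε > 0, ∃ η > 0, η ≤ ε ∧ ∃ S : Finset (ℝ × ℝ), (S.card : ℝ) * η ≤ ε ∧
      ∀ a ∈ Ds, ∃ b ∈ S, |a.1 - b.1| ≤ η ∧ |a.2 - b.2| ≤ η) :
    ∃ p0 p1 α : ℝ, 1 / 2 ≤ p0 ∧ p0 < p1 ∧ p1 ≤ 2 / 3 ∧ 0 < α ∧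
      ∀ p ∈ Icc p0 p1, ∀ a ∈ Ds, α ≤ |a.1 + a.2 * p| := by
  obtain ⟨η, hη, hηε, S, hS, hc⟩ := h2 (α0 / 200) (by positivity)
  have hℓ : 0 ≤ 12 * η / α0 := by positivity
  have hvol : MeasureTheory.volume (⋃ b ∈ S, Icc (-b.1 / b.2 - 12 * η / α0) (-b.1 / b.2 + 12 * η / α0)) <
      MeasureTheory.volume (Ioo (1 / 2 : ℝ) (2 / 3)) := by
    refine (MeasureTheory.measure_biUnion_finset_le _ _).trans_lt ?_
    have e : ∀ b ∈ S, MeasureTheory.volume (Icc (-b.1 / b.2 - 12 * η / α0) (-b.1 / b.2 + 12 * η / α0)) =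
        ENNReal.ofReal (24 * η / α0) := by
      intro b _
      rw [Real.volume_Icc]
      congr 1
      ring
    rw [Finset.sum_congr rfl e, Finset.sum_const, nsmul_eq_mul, Real.volume_Ioo,
      ← ENNReal.ofReal_natCast, ← ENNReal.ofReal_mul (Nat.cast_nonneg _)]
    refine (ENNReal.ofReal_lt_ofReal_iff (by norm_num)).mpr ?_
    have e2 : (S.card : ℝ) * (24 * η / α0) = 24 * (S.card * η) / α0 := by ring
    rw [e2, div_lt_iff₀ hα]
    linarith
  obtain ⟨q, hq, hqU⟩ : ∃ q ∈ Ioo (1 / 2 : ℝ) (2 / 3),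
      q ∉ ⋃ b ∈ S, Icc (-b.1 / b.2 - 12 * η / α0) (-b.1 / b.2 + 12 * η / α0) := by
    by_contra hcon
    push Not at hcon
    exact absurd (MeasureTheory.measure_mono hcon) (not_le.mpr hvol)
  have hδ : 0 < η / (3 * (|Bm| + 1)) := by positivity
  refine ⟨q, min (2 / 3) (q + η / (3 * (|Bm| + 1))), η / 2, hq.1.le, lt_min hq.2 (by linarith),
    min_le_left _ _, by positivity, fun p hp a ha => ?_⟩
  obtain ⟨b, hb, e1, e2⟩ := hc a ha
  obtain ⟨a1, a2⟩ := h1 a ha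
  have hq0 : 0 < q := by linarith [hq.1]
  have hq1 : q ≤ 1 := by linarith [hq.2]
  have hb1 : α0 / 2 ≤ |b.1| := by
    have := abs_sub_abs_le_abs_sub a.1 b.1
    linarith
  have hbig : 3 * η ≤ |b.1 + b.2 * q| := by
    by_contra hlt
    push Not at hlt
    have h3 : |b.1| ≤ |b.1 + b.2 * q| + |b.2 * q| := by
      have := abs_sub (b.1 + b.2 * q) (b.2 * q)
      rwa [add_sub_cancel_right] at this
    have h4 : |b.2 * q| ≤ |b.2| := by
      rw [abs_mul, abs_of_pos hq0]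
      exact mul_le_of_le_one_right (abs_nonneg _) hq1
    have h5 : α0 / 4 ≤ |b.2| := by linarith
    have h6 : b.2 ≠ 0 := abs_pos.mp (by linarith)
    have h7 : |q - -b.1 / b.2| ≤ 12 * η / α0 := by
      have e : b.1 + b.2 * q = b.2 * (q - -b.1 / b.2) := by field_simp; ring
      rw [e, abs_mul] at hlt
      rw [le_div_iff₀ hα]
      have h8 := mul_le_mul_of_nonneg_right h5 (abs_nonneg (q - -b.1 / b.2))
      linarith
    refine hqU (mem_iUnion₂.mpr ⟨b, hb, ?_⟩)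
    obtain ⟨c1, c2⟩ := abs_le.mp h7
    constructor <;> linarith
  have hp1 : |p - q| ≤ η / (3 * (|Bm| + 1)) := by
    rw [abs_of_nonneg (by linarith [hp.1])]
    linarith [hp.2, min_le_right (2 / 3 : ℝ) (q + η / (3 * (|Bm| + 1)))]
  have h9 : |a.2 * (p - q)| ≤ η / 3 := by
    rw [abs_mul]
    have a3 : |a.2| ≤ |Bm| + 1 := by linarith [le_abs_self Bm]
    refine (mul_le_mul a3 hp1 (abs_nonneg _) (by positivity)).trans (le_of_eq ?_)
    field_simp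
  have h10 : |(a.2 - b.2) * q| ≤ η := by
    rw [abs_mul, abs_of_pos hq0]
    exact (mul_le_of_le_one_right (abs_nonneg _) hq1).trans e2
  have e : b.1 + b.2 * q = (a.1 + a.2 * p) - (a.1 - b.1) - (a.2 - b.2) * q - a.2 * (p - q) := by ring
  rw [e] at hbig
  have t1 := abs_sub ((a.1 + a.2 * p) - (a.1 - b.1) - (a.2 - b.2) * q) (a.2 * (p - q))
  have t2 := abs_sub ((a.1 + a.2 * p) - (a.1 - b.1)) ((a.2 - b.2) * q)
  have t3 := abs_sub (a.1 + a.2 * p) (a.1 - b.1)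
  linarith

namespace SC

/-- Sets covered by `o(1/η)` balls of radius `η`. -/
def Clu {M : Type} [PseudoMetricSpace M] (X : Set M) : Prop :=
  ∀ ε > 0, ∃ η0 > 0, ∀ η, 0 < η → η ≤ η0 → ∃ S : Finset M, (S.card : ℝ) * η ≤ ε ∧
    ∀ a ∈ X, ∃ b ∈ S, dist a b ≤ η

section Clu

variable {M M' : Type} [PseudoMetricSpace M] [PseudoMetricSpace M']

lemma Clu.mono {X Y : Set M} (h : Clu Y) (hXY : X ⊆ Y) : Clu X := by
  intro ε hε
  obtain ⟨η0, h0, h1⟩ := h ε hε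
  refine ⟨η0, h0, fun η a b => ?_⟩
  obtain ⟨S, c, d⟩ := h1 η a b
  exact ⟨S, c, fun x hx => d x (hXY hx)⟩

lemma clu_empty : Clu (∅ : Set M) := fun ε hε =>
  ⟨1, one_pos, fun η _ _ => ⟨∅, by simpa using hε.le, fun a ha => absurd ha (notMem_empty a)⟩⟩

lemma Clu.union {X Y : Set M} (hX : Clu X) (hY : Clu Y) : Clu (X ∪ Y) := by
  classical
  intro ε hε
  obtain ⟨η1, h1, h1'⟩ := hX (ε / 2) (half_pos hε)
  obtain ⟨η2, h2, h2'⟩ := hY (ε / 2) (half_pos hε)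
  refine ⟨min η1 η2, lt_min h1 h2, fun η a b => ?_⟩
  obtain ⟨S1, c1, d1⟩ := h1' η a (b.trans (min_le_left _ _))
  obtain ⟨S2, c2, d2⟩ := h2' η a (b.trans (min_le_right _ _))
  refine ⟨S1 ∪ S2, ?_, ?_⟩
  · have h3 : ((S1 ∪ S2).card : ℝ) ≤ S1.card + S2.card := by exact_mod_cast Finset.card_union_le _ _
    have h4 := mul_le_mul_of_nonneg_right h3 a.le
    linarith
  · rintro x (hx | hx)
    · obtain ⟨y, hy, e⟩ := d1 x hx
      exact ⟨y, Finset.mem_union_left _ hy, e⟩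
    · obtain ⟨y, hy, e⟩ := d2 x hx
      exact ⟨y, Finset.mem_union_right _ hy, e⟩

lemma clu_biUnion {ι : Type} {I : Set ι} (hI : I.Finite) (X : ι → Set M) (hX : ∀ i ∈ I, Clu (X i)) :
    Clu (⋃ i ∈ I, X i) := by
  induction I, hI using Set.Finite.induction_on with
  | empty => simpa using clu_empty
  | insert _ _ ih =>
    rw [biUnion_insert]
    exact (hX _ (mem_insert _ _)).union (ih fun i hi => hX i (mem_insert_of_mem _ hi))

lemma Clu.image {X : Set M} (hX : Clu X) (f : M → M') {K : ℝ} (hK : 0 < K)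
    (hf : ∀ x ∈ X, ∀ y, dist x y ≤ 1 → dist (f x) (f y) ≤ K * dist x y) : Clu (f '' X) := by
  classical
  intro ε hε
  obtain ⟨η0, h0, h1⟩ := hX (ε / K) (div_pos hε hK)
  refine ⟨K * min η0 1, mul_pos hK (lt_min h0 one_pos), fun η a b => ?_⟩
  have hb : η / K ≤ min η0 1 := by rwa [div_le_iff₀' hK]
  obtain ⟨S, c, d⟩ := h1 (η / K) (div_pos a hK) (hb.trans (min_le_left _ _))
  refine ⟨S.image f, ?_, ?_⟩
  · have h3 : ((S.image f).card : ℝ) ≤ S.card := by exact_mod_cast Finset.card_image_le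
    rw [← mul_div_assoc, div_le_div_iff_of_pos_right hK] at c
    exact (mul_le_mul_of_nonneg_right h3 a.le).trans c
  · rintro _ ⟨x, hx, rfl⟩
    obtain ⟨y, hy, e⟩ := d x hx
    refine ⟨f y, Finset.mem_image_of_mem _ hy, (hf x hx y (e.trans (hb.trans (min_le_right _ _)))).trans ?_⟩
    rwa [← le_div_iff₀' hK]

end Clu

lemma Clu.bdd {X : Set (ℝ × ℝ)} (hX : Clu X) : ∃ B, ∀ a ∈ X, |a.2| ≤ B := by
  obtain ⟨η0, h0, h1⟩ := hX 1 one_pos
  obtain ⟨S, -, d⟩ := h1 η0 h0 le_rfl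
  refine ⟨η0 + ∑ b ∈ S, |b.2|, fun a ha => ?_⟩
  obtain ⟨b, hb, e⟩ := d a ha
  have h2 : |b.2| ≤ ∑ b ∈ S, |b.2| :=
    Finset.single_le_sum (f := fun b : ℝ × ℝ => |b.2|) (fun _ _ => abs_nonneg _) hb
  have h3 : |a.2 - b.2| ≤ η0 := (le_max_right (dist a.1 b.1) (dist a.2 b.2)).trans e
  have := abs_sub_abs_le_abs_sub a.2 b.2
  linarith

lemma Clu.smooth {X : Set (E × E)} (hX : Clu X) (hb : ∀ a ∈ X, ‖a‖ ≤ 1) {f : E × E → ℝ × ℝ}
    (hf : ContDiff ℝ 1 f) : Clu (f '' X) := by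
  obtain ⟨K, hK⟩ := (hf.contDiffOn (s := Metric.closedBall 0 2)).exists_lipschitzOnWith one_ne_zero
    (convex_closedBall _ _) (isCompact_closedBall _ _)
  refine hX.image f (K := K + 1) (by positivity) fun x hx y hy => ?_
  have h1 : x ∈ Metric.closedBall (0 : E × E) 2 := by
    rw [mem_closedBall_zero_iff]; linarith [hb x hx]
  have h2 : y ∈ Metric.closedBall (0 : E × E) 2 := by
    rw [mem_closedBall_zero_iff]
    have := norm_sub_norm_le y x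
    rw [← dist_eq_norm, dist_comm] at this
    linarith [hb x hx]
  have h3 := hK.dist_le_mul x h1 y h2
  have h4 : 0 ≤ dist x y := dist_nonneg
  linarith

/-- the two coefficients of the determinant as a function of the mixing parameter -/
noncomputable def co (h : E × E × E) (a : E × E) : ℝ × ℝ :=
  (dt (TL h.1 a.1) a.2, (lin h.2.1 a.1 / 2 + lin h.2.2 a.1 / 2 - lin h.1 a.1) * a.2.2)

lemma co_smooth (h : E × E × E) : ContDiff ℝ 1 (co h) := by
  unfold co dt TL lin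
  fun_prop

lemma dt_mix (p : ℝ) (h0 h1 h2 a b : E) :
    dt (TL (mix p h0 h1 h2) a) b = (co (h0, h1, h2) (a, b)).1 + (co (h0, h1, h2) (a, b)).2 * p := by
  simp only [co, dt, TL, lin, mix, Prod.fst_add, Prod.snd_add, Prod.smul_fst, Prod.smul_snd, smul_eq_mul]
  ring

lemma dt_scale (h a b : E) (s t : ℝ) : dt (TL h (s • a)) (t • b) = s * t * dt (TL h a) b := by
  simp only [dt, TL, lin, Prod.smul_fst, Prod.smul_snd, smul_eq_mul]
  ring

lemma of_unit {h a b : E} {α : ℝ} (H : a ≠ 0 → b ≠ 0 → α ≤ |dt (TL h (‖a‖⁻¹ • a)) (‖b‖⁻¹ • b)|) :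
    α * (‖a‖ * ‖b‖) ≤ |dt (TL h a) b| := by
  by_cases ha : a = 0
  · simp [ha]
  by_cases hb : b = 0
  · simp [hb]
  have H' := H ha hb
  have a0 : 0 < ‖a‖ := norm_pos_iff.mpr ha
  have b0 : 0 < ‖b‖ := norm_pos_iff.mpr hb
  rw [dt_scale, abs_mul, abs_of_pos (by positivity : 0 < ‖a‖⁻¹ * ‖b‖⁻¹), ← mul_inv,
    ← div_eq_inv_mul, le_div_iff₀ (by positivity)] at H'
  exact H'

lemma pt_smul (t : ℝ) (v : ℤ → ℝ) (i : ℤ) : pt (fun j => t * v j) i = t • pt v i := rfl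

lemma sol_smul {c : ℤ → E} {v : ℤ → ℝ} (hv : Sol c v) (t : ℝ) : Sol c fun j => t * v j := by
  intro i
  change t * v (i + 1) = _
  rw [pt_smul, hv i]
  simp only [lin, Prod.smul_fst, Prod.smul_snd, smul_eq_mul]
  ring

lemma stab_smul {C l : ℝ} {v : ℤ → ℝ} (hv : Stab C l v) (t : ℝ) : Stab C l fun j => t * v j := by
  intro i j hij
  rw [pt_smul, pt_smul, norm_smul, norm_smul]
  have := mul_le_mul_of_nonneg_left (hv i j hij) (norm_nonneg t)
  linarith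

lemma unst_smul {C l : ℝ} {v : ℤ → ℝ} (hv : Unst C l v) (t : ℝ) : Unst C l fun j => t * v j := by
  intro i j hij
  rw [pt_smul, pt_smul, norm_smul, norm_smul]
  have := mul_le_mul_of_nonneg_left (hv i j hij) (norm_nonneg t)
  linarith

lemma norm_unit {a : E} (ha : a ≠ 0) : ‖‖a‖⁻¹ • a‖ = 1 := norm_smul_inv_norm ha

lemma lower {F : E → ℝ} {L C l C1 : ℝ} {Ed : Set (E × Set E)}
    (ha : Adm F L 2) (hh : HYP F C l) (hC : 0 ≤ C) (hl2 : 2 < l) (het : ET F Ed C1) :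
    ∃ α0 > 0, ∀ x c h0 s a, Itin F x c → LG F (pt x 0) h0 → Sol c s → Stab C l s →
      ((∃ u, Sol c u ∧ Unst C l u ∧ pt u 0 = a) ∨ ∃ e ∈ Ed, pt x 0 ∈ e.2 ∧ a = e.1) →
      α0 * (‖a‖ * ‖pt s 1‖) ≤ |dt (TL h0 a) (pt s 1)| := by
  have hL := ha.le_L
  have hΛ : 0 < 2 * L + 2 := by linarith
  obtain ⟨α, hα, H⟩ := ang_good L C l (max C ((2 * L + 2) * C1)) (by linarith) hC
  refine ⟨α / (2 * L + 2), div_pos hα hΛ, fun x c h0 s a hx h0' hs hst hau => ?_⟩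
  have hx' : Itin F x (Function.update c 0 h0) := by
    refine ⟨hx.1, fun i => ?_⟩
    by_cases hi : i = 0
    · rw [hi, Function.update_self]; exact h0'
    · rw [Function.update_of_ne hi]; exact hx.2 i
  set c' := Function.update c 0 h0 with hc'
  have hb' := ha.itin_bd hx'
  obtain ⟨v, hv, hv0⟩ := exists_sol hb'.ne 0 a
  have hv1 : pt v 1 = TL h0 a := by
    have := pt_succ (hv 0)
    rwa [hc', Function.update_self, hv0, zero_add] at this
  obtain ⟨b1, b2, b3⟩ := ha.lg_bd h0'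
  have key : ∀ j, 1 ≤ j → ‖pt v 1‖ ≤ max C ((2 * L + 2) * C1) * ‖pt v j‖ := by
    intro j hj
    rcases hau with ⟨u, hu, hun, rfl⟩ | ⟨e, he, hxe, rfl⟩
    · have hvu : Unst C l v := by
        refine (hh x c' hx').unst_of (B := C * ‖pt u 0‖) (i0 := 0) zero_le_one (by linarith) hv
          fun n => ?_
        have hu' : SolOn c' u (0 - n) 0 := fun i _ hi => by
          rw [hc', Function.update_of_ne hi.ne]; exact hu i
        have hn : (0 : ℤ) - n ≤ 0 := by omega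
        rw [SolOn.unique hb'.ne (hv.solOn _ _) hu' hn le_rfl hv0 le_rfl hn, one_pow, mul_one]
        refine (hun _ _ hn).trans (mul_le_mul_of_nonneg_right ?_ (norm_nonneg _))
        exact mul_le_of_le_one_right hC (zpow_le_one_of_nonpos₀ (by linarith) (by omega))
      refine (hvu 1 j hj).trans (mul_le_mul_of_nonneg_right (le_trans ?_ (le_max_left _ _)) (norm_nonneg _))
      exact mul_le_of_le_one_right hC (zpow_le_one_of_nonpos₀ (by linarith) (by omega))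
    · have h1 := het e he x c' v (0, 0) hx' (by
        have e0 : iv (0, 0) = 0 := by simp [iv]
        rwa [e0, sub_zero]) hv hv0 j
      have h2 := norm_TL_le b1 b2 b3 e.1
      rw [← hv1, ← hv0] at h2
      have h3 := mul_le_mul_of_nonneg_left h1 hΛ.le
      have h4 := mul_le_mul_of_nonneg_right (le_max_right C ((2 * L + 2) * C1)) (norm_nonneg (pt v j))
      linarith
  have H1 := H c' v s 1 hb' (fun j _ => hv.solOn _ _) (fun j _ i hi _ => by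
    rw [hc', Function.update_of_ne (by omega)]; exact hs i) key (fun j hj => hst 1 j hj)
  rw [hv1] at H1
  refine le_trans ?_ H1
  have h5 := norm_le_TL b1 b2 b3 a
  rw [div_mul_eq_mul_div, div_le_iff₀ hΛ]
  have h6 := mul_le_mul_of_nonneg_right h5 (mul_nonneg hα.le (norm_nonneg (pt s 1)))
  linarith

/-- pairs of unit unstable and stable vectors along an edge -/
def XE (F : E → ℝ) (C l : ℝ) (e : E × Set E) : Set (E × E) :=
  {a | ‖a.1‖ = 1 ∧ ‖a.2‖ = 1 ∧ ∃ x c u s, Itin F x c ∧ pt x 0 ∈ e.2 ∧ Sol c u ∧ Unst C l u ∧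
    Sol c s ∧ Stab C l s ∧ pt u 0 = a.1 ∧ pt s 1 = a.2}

/-- the same with the edge direction -/
def YE (F : E → ℝ) (C l : ℝ) (e : E × Set E) : Set (E × E) :=
  XE F C l e ∪ (fun a => (‖e.1‖⁻¹ • e.1, a.2)) '' XE F C l e

lemma clu_YE {F : E → ℝ} {L r C l C1 : ℝ} {N : ℕ} {Ed : Set (E × Set E)}
    (ha : Adm F L 2) (hl : Loc F r N) (he : Edg F Ed) (h2 : H2 F) (hh : HYP F C l) (hl2 : 2 < l)
    (het : ET F Ed C1) {e : E × Set E} (hee : e ∈ Ed) :
    Clu (YE F C l e) ∧ ∀ a ∈ YE F C l e, ‖a‖ ≤ 1 := by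
  have hX : Clu (XE F C l e) := by
    intro ε hε
    obtain ⟨η0, h0, h1⟩ := edge_clusters ha hl he h2 hh hl2 het hee hε
    refine ⟨η0, h0, fun η a b => ?_⟩
    obtain ⟨S, c, -, d⟩ := h1 η a b
    refine ⟨S, c, ?_⟩
    rintro y ⟨n1, n2, x, c, u, s, a1, a2, a3, a4, a5, a6, a7, a8⟩
    obtain ⟨b, hb, b1, b2⟩ := d x c u s a1 a2 a3 a4 a5 a6 (a7 ▸ n1) (a8 ▸ n2)
    rw [a7] at b1
    rw [a8] at b2
    exact ⟨b, hb, by rw [Prod.dist_eq, dist_eq_norm, dist_eq_norm]; exact max_le b1 b2⟩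
  refine ⟨hX.union (hX.image _ one_pos fun x _ y _ => ?_), ?_⟩
  · rw [one_mul]
    exact max_le ((dist_self _).trans_le dist_nonneg) (le_max_right _ _)
  · rintro a (⟨n1, n2, -⟩ | ⟨b, ⟨-, n2, -⟩, rfl⟩)
    · rw [Prod.norm_def, n1, n2, max_self]
    · rw [Prod.norm_def, norm_unit (he.ne e hee), n2, max_self]

end SC

open SC in
/-- `dt (TL (mix p h0 h1 h2) a) b = A + B p` with `A = dt (TL h0 a) b` and
`B = (lin h1 a / 2 + lin h2 a / 2 - lin h0 a) * b.2`. Lower bound for `|A|`: replace `c 0` by `h0`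
(again an itinerary `c'`); the `c'`-solutions that agree with `u` in the past and with `s` in the future
are unstable and stable for `c'` (`SolOn.unique`, `Hyp.unst_of`, `Hyp.stab_of`), so `ang_good` at
time `1` applies; for `a = e.1` use `ET`. The gradients range over a finite set (`Loc.finite_lg`);
translate the orbit with `Adm.itin_sub` to get `m = 0`; normalise `u`, `s` (zero solutions are trivial). -/
theorem sard {F : E → ℝ} {L r C l C1 : ℝ} {N : ℕ} {Ed : Set (E × Set E)}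
    (ha : Adm F L 2) (hl : Loc F r N) (he : Edg F Ed) (h2 : H2 F) (hh : HYP F C l) (hl2 : 2 < l)
    (het : ET F Ed C1) :
    ∃ p0 p1 α : ℝ, 1 / 2 ≤ p0 ∧ p0 < p1 ∧ p1 ≤ 2 / 3 ∧ 0 < α ∧
      ∀ p ∈ Icc p0 p1, ∀ e ∈ Ed, ∀ x c m, Itin F x c → pt x 0 - iv m ∈ e.2 →
        ∀ h0 h1 h2, LG F (pt x 0) h0 → LG F (pt x 0) h1 → LG F (pt x 0) h2 →
          ∀ s, Sol c s → Stab C l s →
            (∀ u, Sol c u → Unst C l u →
              α * (‖pt u 0‖ * ‖pt s 1‖) ≤ |dt (TL (mix p h0 h1 h2) (pt u 0)) (pt s 1)|) ∧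
            α * (‖e.1‖ * ‖pt s 1‖) ≤ |dt (TL (mix p h0 h1 h2) e.1) (pt s 1)| := by
  have hC : 0 ≤ C := by have := HYP.half_le ha hl hh; linarith
  obtain ⟨α0, hα0, hlow⟩ := lower ha hh hC hl2 het
  have hH := hl.finite_lg ha
  set H := {k | ∃ p, LG F p k} with hHdef
  have hU : Clu (⋃ e ∈ Ed, ⋃ h ∈ H ×ˢ H ×ˢ H, co h '' YE F C l e) :=
    clu_biUnion he.fin _ fun e hee => clu_biUnion (hH.prod (hH.prod hH)) _ fun h _ =>
      (clu_YE ha hl he h2 hh hl2 het hee).1.smooth (clu_YE ha hl he h2 hh hl2 het hee).2 (co_smooth h)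
  set U := ⋃ e ∈ Ed, ⋃ h ∈ H ×ˢ H ×ˢ H, co h '' YE F C l e with hUdef
  obtain ⟨Bm, hBm⟩ := hU.bdd
  obtain ⟨p0, p1, α, a1, a2, a3, a4, hgood⟩ := good_interval (Ds := {d ∈ U | α0 ≤ |d.1|}) (Bm := Bm) hα0
    (fun a h => ⟨h.2, hBm a h.1⟩) (fun ε hε => by
      obtain ⟨η0, h0, h1⟩ := hU ε hε
      obtain ⟨S, c, d⟩ := h1 (min η0 ε) (lt_min h0 hε) (min_le_left _ _)
      refine ⟨min η0 ε, lt_min h0 hε, min_le_right _ _, S, c, fun a h => ?_⟩
      obtain ⟨b, hb, e⟩ := d a h.1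
      exact ⟨b, hb, (le_max_left (dist a.1 b.1) (dist a.2 b.2)).trans e,
        (le_max_right (dist a.1 b.1) (dist a.2 b.2)).trans e⟩)
  refine ⟨p0, p1, α, a1, a2, a3, a4, fun p hp e hee x c m hx hxe g0 g1 g2 hg0 hg1 hg2 s hs hst => ?_⟩
  obtain ⟨k, hk, hkm⟩ := exists_intorb 0 m
  have hx' := ha.itin_sub hx hk
  have hp0 : pt (fun j => x j - k j) 0 = pt x 0 - iv m := by rw [pt_sub_int, hkm]
  set x' : ℤ → ℝ := fun j => x j - k j with hx'def
  have hxe' : pt x' 0 ∈ e.2 := hp0 ▸ hxe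
  have hg0' : LG F (pt x' 0) g0 := by
    rw [← ha.lg_iv _ _ m, hp0, sub_add_cancel]; exact hg0
  have fin : ∀ a : E, a ≠ 0 → pt s 1 ≠ 0 → (‖a‖⁻¹ • a, ‖pt s 1‖⁻¹ • pt s 1) ∈ YE F C l e →
      α0 * (‖a‖ * ‖pt s 1‖) ≤ |dt (TL g0 a) (pt s 1)| →
      α ≤ |dt (TL (mix p g0 g1 g2) (‖a‖⁻¹ • a)) (‖pt s 1‖⁻¹ • pt s 1)| := by
    intro a ha0 hs0 hY hlo
    rw [dt_mix]
    refine hgood p hp _ ⟨mem_iUnion₂.mpr ⟨e, hee, mem_iUnion₂.mpr
      ⟨(g0, g1, g2), ⟨⟨_, hg0⟩, ⟨_, hg1⟩, ⟨_, hg2⟩⟩, _, hY, rfl⟩⟩, ?_⟩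
    have a0 : 0 < ‖a‖ := norm_pos_iff.mpr ha0
    have b0 : 0 < ‖pt s 1‖ := norm_pos_iff.mpr hs0
    change α0 ≤ |dt (TL g0 (‖a‖⁻¹ • a)) (‖pt s 1‖⁻¹ • pt s 1)|
    rw [dt_scale, abs_mul, abs_of_pos (by positivity : 0 < ‖a‖⁻¹ * ‖pt s 1‖⁻¹), ← mul_inv,
      ← div_eq_inv_mul, le_div_iff₀ (by positivity)]
    exact hlo
  have memX : ∀ u, Sol c u → Unst C l u → pt u 0 ≠ 0 → pt s 1 ≠ 0 →
      (‖pt u 0‖⁻¹ • pt u 0, ‖pt s 1‖⁻¹ • pt s 1) ∈ XE F C l e := fun u hu hun hu0 hs0 =>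
    ⟨norm_unit hu0, norm_unit hs0, x', c, _, _, hx', hxe', sol_smul hu _, unst_smul hun _,
      sol_smul hs _, stab_smul hst _, rfl, rfl⟩
  refine ⟨fun u hu hun => of_unit fun hu0 hs0 => fin _ hu0 hs0 (Or.inl (memX u hu hun hu0 hs0)) ?_,
    of_unit fun he0 hs0 => fin _ he0 hs0 ?_ ?_⟩
  · exact hlow x' c g0 s _ hx' hg0' hs hst (Or.inl ⟨u, hu, hun, rfl⟩)
  · obtain ⟨u, hu, hun, hu0⟩ := exists_unst (ha.itin_bd hx) (hh x c hx) hC hl2
    exact Or.inr ⟨_, memX u hu hun (hu0 0) hs0, rfl⟩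
  · exact hlow x' c g0 s _ hx' hg0' hs hst (Or.inr ⟨e, hee, hxe', rfl⟩)

end Pool.Agent.MP_369096_an.H89
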