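import Pool.Agent.MP_369096_an.H89.Clus
import Pool.Agent.MP_369096_an.H89.NTa
import Pool.Agent.MP_369096_an.H89.Coc2

/-!
TASK SCa. Clusters of pairs of unstable and stable directions along an edge.
Auxiliary lemmas go in namespace `H89.SCa`.
-/

set_option autoImplicit false

open Set Filter Topology

namespace Pool.Agent.MP_369096_an.H89

namespace SCa

/-- Reversal of a sequence, normalised so that time `0` is fixed. -/
def rv (x : ℤ → ℝ) (j : ℤ) : ℝ := x (-(j + 1))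

/-- The corresponding reversal of a cocycle. -/
noncomputable def rc (c : ℤ → E) (j : ℤ) : E := rvc c (j + 1)

theorem pt_rv (x : ℤ → ℝ) (j : ℤ) : pt (rv x) j = (pt x (-j)).swap := by
  simp only [pt, rv, Prod.swap_prod_mk]
  congr 2 <;> ring

theorem norm_swap (v : E) : ‖v.swap‖ = ‖v‖ := by
  rw [Prod.norm_def, Prod.norm_def, max_comm]
  rfl

theorem dt_swap (a b : E) : |dt a.swap b.swap| = |dt a b| := by
  rw [← abs_neg]
  simp only [dt, Prod.fst_swap, Prod.snd_swap]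
  congr 1
  ring

theorem swap_line (z d : E) (t : ℝ) : (z + t • d).swap = z.swap + t • d.swap := rfl

theorem rc_rc {c : ℤ → E} (hb : ∀ i, (c i).2 ≠ 0) : rc (rc c) = c := by
  funext j
  have h := congrFun (rvc_rvc hb) j
  simp only [rc, rvc, neg_neg] at h ⊢
  rw [show -(-(j + 1) + 1) = j by ring]
  exact h

theorem itin_rv {F : E → ℝ} {L : ℝ} (ha : Adm F L 2) {x : ℤ → ℝ} {c : ℤ → E} (hx : Itin F x c) :
    Itin (rev F) (rv x) (rc c) := (ha.itin_rev hx).shift 1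

theorem sol_rv {c : ℤ → E} (hb : ∀ i, (c i).2 ≠ 0) {v : ℤ → ℝ} (hv : Sol c v) :
    Sol (rc c) (rv v) := by
  intro i
  have h := Sol.rev hb hv (i + 1)
  simp only [pt, rv, rc, add_sub_cancel_right, sub_add_cancel] at h ⊢
  exact h

theorem stab_rv {C l : ℝ} {u : ℤ → ℝ} (hu : Unst C l u) : Stab C l (rv u) := by
  intro i j hij
  have h := hu (-j) (-i) (by omega)
  rwa [pt_rv, pt_rv, norm_swap, norm_swap, show i - j = -j - -i by ring]

theorem pt_mul (k : ℝ) (v : ℤ → ℝ) (i : ℤ) : pt (fun j => k * v j) i = k • pt v i := rfl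

theorem sol_mul (k : ℝ) {c : ℤ → E} {v : ℤ → ℝ} (hv : Sol c v) : Sol c fun j => k * v j := by
  intro i
  have h := hv i
  simp only [lin, pt] at h ⊢
  rw [h]
  ring

theorem stab_mul (k : ℝ) {C l : ℝ} {v : ℤ → ℝ} (hv : Stab C l v) :
    Stab C l fun j => k * v j := by
  intro i j hij
  rw [pt_mul, pt_mul, norm_smul, norm_smul, mul_left_comm]
  exact mul_le_mul_of_nonneg_left (hv i j hij) (norm_nonneg k)

theorem unst_mul (k : ℝ) {C l : ℝ} {v : ℤ → ℝ} (hv : Unst C l v) :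
    Unst C l fun j => k * v j := by
  intro i j hij
  rw [pt_mul, pt_mul, norm_smul, norm_smul, mul_left_comm]
  exact mul_le_mul_of_nonneg_left (hv i j hij) (norm_nonneg k)

/-- A compact subset of a line lies in a segment. -/
theorem param {a : E} (ha : a ≠ 0) {B : Set E} (hB : IsCompact B)
    (hl : ∀ p ∈ B, ∀ q ∈ B, dt a (p - q) = 0) :
    ∃ (z : E) (k : ℝ), k ≠ 0 ∧ ∀ p ∈ B, ∃ t ∈ Icc (0 : ℝ) 1, p = z + t • k • a := by
  rcases B.eq_empty_or_nonempty with rfl | ⟨q, hq⟩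
  · exact ⟨0, 1, one_ne_zero, fun p hp => hp.elim⟩
  obtain ⟨R, hR⟩ := hB.exists_bound_of_continuousOn (f := fun p => p - q) (by fun_prop)
  have h0 : 0 < ‖a‖ := norm_pos_iff.2 ha
  have hR0 : 0 ≤ R := (norm_nonneg _).trans (hR q hq)
  set b := R / ‖a‖ + 1 with hb
  have hb0 : 0 < b := by positivity
  refine ⟨q - b • a, 2 * b, by positivity, fun p hp => ?_⟩
  obtain ⟨κ, h1, h2⟩ := exists_decomp a (p - q) ha
  have h3 : dt (p - q) a = 0 := by
    have := hl p hp q hq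
    simp only [dt] at this ⊢
    linarith
  rw [h3, abs_zero, mul_eq_zero, norm_eq_zero, or_iff_left h0.ne', sub_eq_zero] at h2
  have h4 : |κ| ≤ b := by
    rw [norm_smul, Real.norm_eq_abs, ← le_div_iff₀ h0] at h1
    have := div_le_div_of_nonneg_right (hR p hp) h0.le
    linarith
  obtain ⟨h5, h6⟩ := abs_le.1 h4
  refine ⟨(κ + b) / (2 * b), ⟨div_nonneg (by linarith) (by positivity),
    (div_le_one (by positivity)).2 (by linarith)⟩, ?_⟩
  rw [smul_smul, div_mul_cancel₀ _ (by positivity), add_smul κ, ← h2]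
  abel

/-- Representatives of the order types with respect to a finite set. -/
theorem classes (Ts : Finset ℝ) (τ : Set ℝ) : ∃ R : Finset ℝ, R.card ≤ 2 * Ts.card + 1 ∧
    ∀ t ∈ τ, ∃ t' ∈ R, t' ∈ τ ∧ ∀ a ∈ Ts, (a < t ↔ a < t') ∧ (a ≤ t ↔ a ≤ t') := by
  classical
  let κ : ℝ → ℕ := fun t => (Ts.filter (· < t)).card + (Ts.filter (· ≤ t)).card
  have key : ∀ t t', t ≤ t' → κ t = κ t' → ∀ a ∈ Ts, (a < t ↔ a < t') ∧ (a ≤ t ↔ a ≤ t') := by
    intro t t' h he a ha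
    have s1 : Ts.filter (· < t) ⊆ Ts.filter (· < t') :=
      Finset.monotone_filter_right _ fun _ _ h' => h'.trans_le h
    have s2 : Ts.filter (· ≤ t) ⊆ Ts.filter (· ≤ t') :=
      Finset.monotone_filter_right _ fun _ _ h' => h'.trans h
    have c1 := Finset.card_le_card s1
    have c2 := Finset.card_le_card s2
    simp only [κ] at he
    have e1 := Finset.ext_iff.1 (Finset.eq_of_subset_of_card_le s1 (by omega)) a
    have e2 := Finset.ext_iff.1 (Finset.eq_of_subset_of_card_le s2 (by omega)) a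
    simp only [Finset.mem_filter, ha, true_and] at e1 e2
    exact ⟨e1, e2⟩
  refine ⟨(Finset.range (2 * Ts.card + 1)).image (Function.invFunOn κ τ),
    Finset.card_image_le.trans (by simp), fun t ht => ?_⟩
  obtain ⟨h1, h2⟩ := Function.invFunOn_pos (f := κ) (s := τ) (b := κ t) ⟨t, ht, rfl⟩
  refine ⟨_, Finset.mem_image_of_mem _ (Finset.mem_range.2 ?_), h1, fun a ha => ?_⟩
  · have c1 := Finset.card_filter_le Ts (· < t)
    have c2 := Finset.card_filter_le Ts (· ≤ t)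
    simp only [κ]
    omega
  · rcases le_total t (Function.invFunOn κ τ (κ t)) with h | h
    · exact key _ _ h h2.symm a ha
    · obtain ⟨e1, e2⟩ := key _ _ h h2 a ha
      exact ⟨e1.symm, e2.symm⟩

/-- Unit stable and unstable vectors of a cocycle. -/
theorem units {L C l : ℝ} (hC : 0 ≤ C) (hl : 2 < l) (c : ℤ → E) :
    ∃ a b : E, ‖a‖ = 1 ∧ ‖b‖ = 1 ∧ (Bd L c → Hyp C l c →
      (∃ s, Sol c s ∧ Stab C l s ∧ pt s 1 = a) ∧ ∃ u, Sol c u ∧ Unst C l u ∧ pt u 0 = b) := by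
  by_cases h : Bd L c ∧ Hyp C l c
  · obtain ⟨s, s1, s2, s3⟩ := exists_stab h.1 h.2 hC hl
    obtain ⟨u, u1, u2, u3⟩ := exists_unst h.1 h.2 hC hl
    exact ⟨‖pt s 1‖⁻¹ • pt s 1, ‖pt u 0‖⁻¹ • pt u 0, norm_smul_inv_norm (s3 1),
      norm_smul_inv_norm (u3 0), fun _ _ => ⟨⟨_, sol_mul _ s1, stab_mul _ s2, rfl⟩,
        ⟨_, sol_mul _ u1, unst_mul _ u2, rfl⟩⟩⟩
  · exact ⟨(1, 0), (1, 0), by simp, by simp, fun h1 h2 => absurd ⟨h1, h2⟩ h⟩

/-- The finite set of directions attached to a singular point. -/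
theorem vecs {F : E → ℝ} {L r C l : ℝ} {N : ℕ} (ha : Adm F L 2) (hl : Loc F r N) (h2 : H2 F)
    (hh : HYP F C l) (hl2 : 2 < l) (z : E) :
    ∃ A : Finset E, A.card ≤ N ^ 2 * 4 ∧ (∀ b ∈ A, ‖b‖ = 1) ∧ (∀ b ∈ A, -b ∈ A) ∧
      (z ∈ Sing F → ∀ x c, Itin F x c → pt x 0 = z →
        (∃ s, Sol c s ∧ Stab C l s ∧ pt s 1 ∈ A) ∧ ∃ u, Sol c u ∧ Unst C l u ∧ pt u 0 ∈ A) := by
  classical
  by_cases hz : z ∈ Sing F
  swap
  · exact ⟨∅, by simp, by simp, by simp, fun h => absurd h hz⟩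
  have hC : 0 ≤ C := le_trans (by norm_num) (hh.half_le ha hl)
  obtain ⟨S, hS, hm⟩ := itin_at ha hl h2 hz
  choose a b h1 h3 h4 using units (L := L) hC hl2
  refine ⟨S.biUnion fun c => {a c, -a c, b c, -b c}, ?_, fun v hv => ?_, fun v hv => ?_,
    fun _ x c hx hp => ?_⟩
  · exact (Finset.card_biUnion_le_card_mul _ _ 4 fun c _ => Finset.card_le_four).trans
      (Nat.mul_le_mul_right 4 hS)
  · obtain ⟨c, -, hc⟩ := Finset.mem_biUnion.1 hv
    simp only [Finset.mem_insert, Finset.mem_singleton] at hc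
    rcases hc with rfl | rfl | rfl | rfl <;> simp only [norm_neg, h1, h3]
  · obtain ⟨c, hc, hv⟩ := Finset.mem_biUnion.1 hv
    refine Finset.mem_biUnion.2 ⟨c, hc, ?_⟩
    simp only [Finset.mem_insert, Finset.mem_singleton] at hv
    rcases hv with rfl | rfl | rfl | rfl <;> simp
  · obtain ⟨⟨s, s1, s2, s3⟩, u, u1, u2, u3⟩ := h4 c (ha.itin_bd hx) (hh x c hx)
    exact ⟨⟨s, s1, s2, Finset.mem_biUnion.2 ⟨c, hm x c hx hp, by simp [s3]⟩⟩,
      u, u1, u2, Finset.mem_biUnion.2 ⟨c, hm x c hx hp, by simp [u3]⟩⟩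

theorem near {A : Finset E} (h1 : ∀ b ∈ A, ‖b‖ = 1) (h2 : ∀ b ∈ A, -b ∈ A) {a b : E} (hb : b ∈ A)
    (ha : ‖a‖ = 1) {η : ℝ} (h : |dt a b| ≤ η / 2) : ∃ b' ∈ A, ‖a - b'‖ ≤ η := by
  rcases close_of_dt ha (h1 b hb) h with h3 | h3
  · exact ⟨b, hb, by rw [norm_sub_rev]; linarith⟩
  · exact ⟨-b, h2 b hb, by rw [sub_neg_eq_add, add_comm]; linarith⟩

/-- From time `0` to time `1`. -/
theorem dt_one {L η : ℝ} {c c' : ℤ → E} (hb : Bd L c) (h0 : c' 0 = c 0) {s s' : ℤ → ℝ}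
    (hs : Sol c s) (hs' : Sol c' s') (hη : 0 ≤ η)
    (h : |dt (pt s 0) (pt s' 0)| ≤ η * (‖pt s 0‖ * ‖pt s' 0‖)) :
    |dt (pt s 1) (pt s' 1)| ≤ 2 * (2 * L + 2) ^ 2 * η * (‖pt s 1‖ * ‖pt s' 1‖) := by
  obtain ⟨b1, b2, b3⟩ := hb 0
  have e1 : pt s 1 = TL (c 0) (pt s 0) := pt_succ (hs 0)
  have e2 : pt s' 1 = TL (c 0) (pt s' 0) := h0 ▸ pt_succ (hs' 0)
  have n1 := norm_le_TL b1 b2 b3 (pt s 0)
  have n2 := norm_le_TL b1 b2 b3 (pt s' 0)
  have n3 : |-(c 0).2| ≤ 2 := abs_le.2 ⟨by linarith, by linarith⟩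
  have n4 := mul_le_mul n1 n2 (norm_nonneg _) ((norm_nonneg _).trans n1)
  rw [e1, e2, dt_TL, abs_mul]
  refine (mul_le_mul n3 (h.trans (mul_le_mul_of_nonneg_left n4 hη)) (abs_nonneg _)
    (by norm_num)).trans (le_of_eq (by ring))

end SCa

open SCa in
/-- Clusters of pairs of directions along one edge. Parametrise `e.2` as a subset `τ` of a segment
`z + t • d`, `d = k • e.1` (compact subset of a line). Forward: `cluster` for `F` (`ET` gives `GoodAt`,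
`GoodAt.smul`); closeness at time `1` follows from `c' 0 = c 0`, `dt_TL`, `norm_le_TL`. Backward:
`cluster` for `rev F` (`Adm.rev`, `loc_rev`, `h2_rev`, `hyp_rev`) with the swapped segment; the orbit
`j ↦ x (-j-1)` of `rev F` starts at `(pt x 0).swap` (`Adm.itin_rev`, `Itin.shift`, `rev_rev`). Two
parameters are equivalent if they compare in the same way with all points of both finite sets: at most
`2 (|𝒯| + 1)` classes (key: the number of points `< t` and whether `t ∈ 𝒯`). In each class fix one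
parameter; its point has at most `N^2` itineraries (`itin_at`), each with a chosen unit stable vector at
time `1` and unit unstable vector at time `0` (`exists_stab`, `exists_unst`); use `close_of_dt` and put
both signs into `S`. -/
theorem edge_clusters {F : E → ℝ} {L r C l C1 : ℝ} {N : ℕ} {Ed : Set (E × Set E)}
    (ha : Adm F L 2) (hl : Loc F r N) (he : Edg F Ed) (h2 : H2 F) (hh : HYP F C l) (hl2 : 2 < l)
    (het : ET F Ed C1) {e : E × Set E} (hee : e ∈ Ed) {ε : ℝ} (hε : 0 < ε) :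
    ∃ η0 > 0, ∀ η, 0 < η → η ≤ η0 → ∃ S : Finset (E × E), (S.card : ℝ) * η ≤ ε ∧
      (∀ b ∈ S, ‖b.1‖ = 1 ∧ ‖b.2‖ = 1) ∧
      ∀ x c u s, Itin F x c → pt x 0 ∈ e.2 → Sol c u → Unst C l u → Sol c s → Stab C l s →
        ‖pt u 0‖ = 1 → ‖pt s 1‖ = 1 → ∃ b ∈ S, ‖pt u 0 - b.1‖ ≤ η ∧ ‖pt s 1 - b.2‖ ≤ η := by
  classical
  obtain ⟨z, k, hk, hp⟩ := param (he.ne e hee) (he.cpt e hee) (he.line e hee)
  set d := k • e.1 with hd
  have hd0 : d ≠ 0 := smul_ne_zero hk (he.ne e hee)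
  have hd1 : d.swap ≠ 0 := fun h => hd0 (by rw [← norm_eq_zero, ← norm_swap, h, norm_zero])
  set τ : Set ℝ := {t | t ∈ Icc (0 : ℝ) 1 ∧ z + t • d ∈ e.2} with hτ
  have hsub : τ ⊆ Icc 0 1 := fun t ht => ht.1
  have hiv : ∀ p : E, p - iv (0, 0) = p := fun p => by simp [iv]
  have g1 : ∀ t ∈ τ, GoodAt F C1 (z + t • d) d := by
    intro t ht
    refine GoodAt.smul ha (fun x h v hx hz hv h0 j _ => ?_) k
    have := het e hee x h v (0, 0) hx (by rw [hiv, hz]; exact ht.2) hv h0 j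
    rwa [h0] at this
  have g2 : ∀ t ∈ τ, GoodAt (rev F) C1 (z.swap + t • d.swap) d.swap := by
    intro t ht
    refine GoodAt.smul (d := e.1.swap) ha.rev (fun x h v hx hz hv h0 j _ => ?_) k
    have i1 := itin_rv ha.rev hx
    rw [ha.rev_rev] at i1
    have i2 : pt (rv v) 0 = e.1 := by rw [pt_rv, neg_zero, h0, Prod.swap_swap]
    have := het e hee _ _ _ (0, 0) i1
      (by rw [hiv, pt_rv, neg_zero, hz, ← swap_line, Prod.swap_swap]; exact ht.2)
      (sol_rv (ha.rev.itin_bd hx).ne hv) i2 (-j)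
    rwa [i2, pt_rv, neg_neg, norm_swap, ← norm_swap e.1] at this
  have hL := ha.le_L
  obtain ⟨M, hM⟩ : ∃ M : ℝ, M = 4 * (2 * L + 2) ^ 2 := ⟨_, rfl⟩
  have hM2 : 2 ≤ M := by nlinarith
  have hM0 : 0 < M := by linarith
  obtain ⟨K, hK⟩ : ∃ K : ℝ, K = ((N : ℝ) ^ 2 * 4) ^ 2 + 1 := ⟨_, rfl⟩
  have hK0 : 0 < K := by rw [hK]; positivity
  have hε1 : 0 < ε / (8 * M * K) := by positivity
  obtain ⟨η1, hη1, c1⟩ := cluster ha hl h2 hh (by linarith) hd0 hsub g1 hε1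
  obtain ⟨η2, hη2, c2⟩ := cluster ha.rev (ha.loc_rev hl) (ha.h2_rev h2) (ha.hyp_rev hh)
    (by linarith) hd1 hsub g2 hε1
  choose A A1 A2 A3 A4 using vecs ha hl h2 hh hl2
  refine ⟨min (ε / (2 * K)) (min η1 η2), by positivity, fun η h0 hη => ?_⟩
  simp only [le_min_iff] at hη
  have hη' : η / M ≤ η := div_le_self h0.le (by linarith)
  have hη0 : 0 < η / M := by positivity
  obtain ⟨T1, t1, c1⟩ := c1 (η / M) hη0 (hη'.trans hη.2.1)
  obtain ⟨T2, t2, c2⟩ := c2 (η / M) hη0 (hη'.trans hη.2.2)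
  obtain ⟨R, r1, r2⟩ := classes (T1 ∪ T2) τ
  refine ⟨R.biUnion fun t => A (z + t • d) ×ˢ A (z + t • d), ?_, fun b hb => ?_,
    fun x c u s hx hz u1 u2 s1 s2 u3 s3 => ?_⟩
  · have k1 : (R.biUnion fun t => A (z + t • d) ×ˢ A (z + t • d)).card ≤
        (2 * (T1.card + T2.card) + 1) * (N ^ 2 * 4) ^ 2 := by
      refine (Finset.card_biUnion_le_card_mul _ _ ((N ^ 2 * 4) ^ 2) fun t _ => ?_).trans
        (Nat.mul_le_mul_right _ ?_)
      · rw [Finset.card_product, sq (N ^ 2 * 4)]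
        exact Nat.mul_le_mul (A1 _) (A1 _)
      · have := Finset.card_union_le T1 T2
        omega
    have k2 : ((R.biUnion fun t => A (z + t • d) ×ˢ A (z + t • d)).card : ℝ) ≤
        (2 * (T1.card + T2.card) + 1) * K := by
      refine le_trans (by exact_mod_cast k1 : _ ≤ (2 * ((T1.card : ℝ) + T2.card) + 1) *
        ((N : ℝ) ^ 2 * 4) ^ 2) ?_
      gcongr
      linarith
    rw [← mul_div_assoc, div_le_div_iff₀ hM0 (by positivity)] at t1 t2
    have k3 := hη.1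
    rw [le_div_iff₀ (by positivity)] at k3
    have k4 : (T1.card : ℝ) * η * (8 * K) ≤ ε := le_of_mul_le_mul_right (by linarith) hM0
    have k5 : (T2.card : ℝ) * η * (8 * K) ≤ ε := le_of_mul_le_mul_right (by linarith) hM0
    have k6 := mul_le_mul_of_nonneg_right k2 h0.le
    linarith
  · obtain ⟨t, -, ht⟩ := Finset.mem_biUnion.1 hb
    rw [Finset.mem_product] at ht
    exact ⟨A2 _ _ ht.1, A2 _ _ ht.2⟩
  obtain ⟨t, ht, hzt⟩ := hp _ hz
  have htτ : t ∈ τ := ⟨ht, hzt ▸ hz⟩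
  obtain ⟨t', hR, ht', hc⟩ := r2 t htτ
  have hs : z + t' • d ∈ Sing F := he.sub e hee ht'.2
  obtain ⟨b2, m2, n2⟩ : ∃ b ∈ A (z + t' • d), ‖pt s 1 - b‖ ≤ η := by
    obtain ⟨x', c', i1, i2, i3, i4⟩ := c1 t htτ t' ht'
      (fun a ha => hc a (Finset.mem_union_left _ ha)) x c hx hzt
    obtain ⟨⟨s', j1, j2, j3⟩, -⟩ := A4 _ hs x' c' i1 i2
    have := dt_one (ha.itin_bd hx) i3 s1 j1 hη0.le (i4 s s' s1 j1 s2 j2)
    rw [s3, A2 _ _ j3] at this
    refine near (A2 _) (A3 _) j3 s3 (this.trans (le_of_eq ?_))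
    have h3 : 2 * L + 2 ≠ 0 := by linarith
    rw [hM]
    field_simp
    ring
  obtain ⟨b1, m1, n1⟩ : ∃ b ∈ A (z + t' • d), ‖pt u 0 - b‖ ≤ η := by
    obtain ⟨x', c', i1, i2, -, i4⟩ := c2 t htτ t' ht'
      (fun a ha => hc a (Finset.mem_union_right _ ha)) _ _ (itin_rv ha hx)
      (by rw [pt_rv, neg_zero, hzt, swap_line])
    have i5 := itin_rv ha.rev i1
    rw [ha.rev_rev] at i5
    obtain ⟨-, u', j1, j2, j3⟩ := A4 _ hs _ _ i5
      (by rw [pt_rv, neg_zero, i2, ← swap_line, Prod.swap_swap])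
    have j4 := sol_rv (ha.itin_bd i5).ne j1
    rw [rc_rc (ha.rev.itin_bd i1).ne] at j4
    have := i4 _ _ (sol_rv (ha.itin_bd hx).ne u1) j4 (stab_rv u2) (stab_rv j2)
    rw [pt_rv, pt_rv, neg_zero, dt_swap, norm_swap, norm_swap, u3, A2 _ _ j3, mul_one,
      mul_one] at this
    exact near (A2 _) (A3 _) j3 u3 (this.trans (by gcongr))
  exact ⟨(b1, b2), Finset.mem_biUnion.2 ⟨t', hR, Finset.mem_product.2 ⟨m1, m2⟩⟩, n1, n2⟩

end Pool.Agent.MP_369096_an.H89
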