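import Pool.Agent.MP_369096_an.H89.BasB

/-!
TASK SegL. Segments carried by affine words. Auxiliary lemmas go in namespace `H89.SegL`.
-/

set_option autoImplicit false

open Set Filter Topology

namespace Pool.Agent.MP_369096_an.H89

variable {F : E → ℝ} {L : ℝ}

namespace SegL

theorem T_germ (hc : Continuous F) {p : E} {g : Af} (h : Germ F p g) :
    T F p = TL g.1 p + (g.2, 0) := by
  simp only [T, TL, h.eq hc, ev, Prod.mk_add_mk, add_zero]

theorem pt_comb (z d : E) (t0 t1 t : ℝ) :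
    z + t0 • d + t • (t1 - t0) • d = z + (t0 + t * (t1 - t0)) • d := by module

theorem comb_mem' {t0 t1 t : ℝ} (h01 : t0 ≤ t1) (ht : t ∈ Icc (0 : ℝ) 1) :
    t0 + t * (t1 - t0) ∈ Icc t0 t1 := by
  obtain ⟨a, b⟩ := ht
  constructor <;> nlinarith

theorem comb_mem {t0 t1 t : ℝ} (h0 : 0 ≤ t0) (h01 : t0 ≤ t1) (h1 : t1 ≤ 1)
    (ht : t ∈ Icc (0 : ℝ) 1) : t0 + t * (t1 - t0) ∈ Icc (0 : ℝ) 1 :=
  ⟨h0.trans (comb_mem' h01 ht).1, (comb_mem' h01 ht).2.trans h1⟩

theorem line_comb (z d : E) {s t a b : ℝ} (hab : a + b = 1) :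
    z + (a • s + b • t) • d = a • (z + s • d) + b • (z + t • d) := by
  obtain rfl : b = 1 - a := by linarith
  simp only [smul_eq_mul]
  module

theorem bd_ne {k : ℤ → E} (h : Bd L k) (i : ℤ) : (k i).2 ≠ 0 := by
  have := (h i).2.2
  intro h0
  linarith

theorem sol_smul {k : ℤ → E} (hb : ∀ i, (k i).2 ≠ 0) {v : ℤ → ℝ} (hv : Sol k v) {c : ℝ} {d : E}
    (hv0 : pt v 0 = c • d) : ∃ w, Sol k w ∧ pt w 0 = d ∧ ∀ i, pt v i = c • pt w i := by
  obtain ⟨w, hw, hw0⟩ := exists_sol hb 0 d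
  have hs : Sol k fun i => c * w i := by
    intro i
    simp only [hw i, lin, pt]
    ring
  have he : ∀ i, pt (fun i => c * w i) i = c • pt w i := fun i => rfl
  refine ⟨w, hw, hw0, fun i => ?_⟩
  rw [← he]
  exact SolOn.unique hb (hv.solOn (min 0 i) (max 0 i)) (hs.solOn _ _) (min_le_left _ _)
    (le_max_left _ _) (by rw [he, hw0, hv0]) (min_le_right _ _) (le_max_right _ _)

theorem past_ineq {C C0 p u a b c : ℝ} (hC : 0 ≤ C) (hp : 0 < p) (hu1 : u ≤ 1)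
    (ha : 0 ≤ a) (hb : 0 ≤ b) (hc : 0 ≤ c) (hd : a ≤ C0 * b) (hn : 4 * C * C * C0 ≤ p)
    (hn' : 2 * C * C0 ≤ p) (h2 : b ≤ C * (p⁻¹ * a + u * c)) : C * (u * p⁻¹ * a) ≤ c / 2 := by
  have hq : 0 < p⁻¹ := inv_pos.2 hp
  rcases le_total C0 0 with h0 | h0
  · have : a = 0 := le_antisymm (hd.trans (mul_nonpos_of_nonpos_of_nonneg h0 hb)) ha
    rw [this]
    simp only [mul_zero]
    linarith
  have e1 : C * p⁻¹ * C0 ≤ 1 / 2 := by
    have := mul_le_mul_of_nonneg_left hn' hq.le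
    rw [inv_mul_cancel₀ hp.ne'] at this
    linarith
  have e2 : C * p⁻¹ * C0 * (2 * C) ≤ 1 / 2 := by
    have := mul_le_mul_of_nonneg_left hn hq.le
    rw [inv_mul_cancel₀ hp.ne'] at this
    linarith
  have e3 : C * p⁻¹ * a ≤ C * p⁻¹ * C0 * b := by
    have := mul_le_mul_of_nonneg_left hd (mul_nonneg hC hq.le)
    linarith
  have e4 := mul_le_mul_of_nonneg_right e1 hb
  have e5 : u * c ≤ c := mul_le_of_le_one_left hc hu1
  have e6 : b ≤ 2 * C * c := by
    have := mul_le_mul_of_nonneg_left e5 hC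
    linarith
  have e7 := mul_le_mul_of_nonneg_left e6 (mul_nonneg (mul_nonneg hC hq.le) h0)
  have e8 := mul_le_mul_of_nonneg_right e2 hc
  have e9 : u * (C * p⁻¹ * a) ≤ C * p⁻¹ * a :=
    mul_le_of_le_one_left (mul_nonneg (mul_nonneg hC hq.le) ha) hu1
  linarith

theorem eq_Icc {I : Set ℝ} (hne : I.Nonempty) (hcl : IsClosed I) (hsub : I ⊆ Icc 0 1)
    (hcv : Convex ℝ I) : I = Icc (sInf I) (sSup I) :=
  eq_Icc_of_connected_compact ⟨hne, hcv.isPreconnected⟩ (isCompact_Icc.of_isClosed_subset hcl hsub)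

theorem follow_Icc (hc : Continuous F) {c : (ℕ → Set E) × (ℕ → Af)} {n : ℕ}
    (hS : ∀ i < n, Convex ℝ (c.1 i) ∧ IsClosed (c.1 i) ∧ ∀ p ∈ c.1 i, Germ F p (c.2 i)) (z d : E)
    (hne : {t : ℝ | t ∈ Icc (0 : ℝ) 1 ∧ ∀ i < n, (T F)^[i] (z + t • d) ∈ c.1 i}.Nonempty) :
    {t : ℝ | t ∈ Icc (0 : ℝ) 1 ∧ ∀ i < n, (T F)^[i] (z + t • d) ∈ c.1 i} =
      Icc (sInf {t : ℝ | t ∈ Icc (0 : ℝ) 1 ∧ ∀ i < n, (T F)^[i] (z + t • d) ∈ c.1 i})
        (sSup {t : ℝ | t ∈ Icc (0 : ℝ) 1 ∧ ∀ i < n, (T F)^[i] (z + t • d) ∈ c.1 i}) := by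
  have hT : Continuous (T F) := hc.prodMk continuous_fst
  refine eq_Icc hne ?_ (fun t ht => ht.1) ?_
  · have : {t : ℝ | t ∈ Icc (0 : ℝ) 1 ∧ ∀ i < n, (T F)^[i] (z + t • d) ∈ c.1 i} =
        Icc (0 : ℝ) 1 ∩ ⋂ i, ⋂ (_ : i < n), (fun t : ℝ => (T F)^[i] (z + t • d)) ⁻¹' c.1 i := by
      ext t; simp
    rw [this]
    exact isClosed_Icc.inter (isClosed_iInter fun i => isClosed_iInter fun hi =>
      (hS i hi).2.1.preimage ((hT.iterate i).comp (by fun_prop)))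
  · intro s hs t ht a b ha hb hab
    have key : ∀ i ≤ n, (T F)^[i] (z + (a • s + b • t) • d) =
        a • (T F)^[i] (z + s • d) + b • (T F)^[i] (z + t • d) := by
      intro i
      induction i with
      | zero => exact fun _ => line_comb z d hab
      | succ i ih =>
        intro hi
        obtain ⟨c1, -, c3⟩ := hS i (by omega)
        have m1 := hs.2 i (by omega)
        have m2 := ht.2 i (by omega)
        rw [Function.iterate_succ_apply', Function.iterate_succ_apply',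
          Function.iterate_succ_apply', ih (by omega), T_germ hc (c3 _ (c1 m1 m2 ha hb hab)),
          T_germ hc (c3 _ m1), T_germ hc (c3 _ m2), TL_add, TL_smul, TL_smul]
        obtain rfl : b = 1 - a := by linarith
        module
    refine ⟨convex_Icc 0 1 hs.1 ht.1 ha hb hab, fun i hi => ?_⟩
    rw [key i hi.le]
    exact (hS i hi).1 (hs.2 i hi) (ht.2 i hi) ha hb hab

theorem exists_long {ι : Type*} (S : Finset ι) (a b : ι → ℝ) {V : ℕ} (hV : S.card ≤ V)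
    (hab : ∀ i ∈ S, a i ≤ b i) (hcov : ∀ t ∈ Icc (0 : ℝ) 1, ∃ i ∈ S, t ∈ Icc (a i) (b i)) :
    ∃ i ∈ S, 1 ≤ V * (b i - a i) := by
  by_contra hcon
  push Not at hcon
  have h1 : MeasureTheory.volume.real (Icc (0 : ℝ) 1) ≤
      MeasureTheory.volume.real (⋃ i ∈ S, Icc (a i) (b i)) := by
    refine MeasureTheory.measureReal_mono (fun t ht => ?_) ?_
    · obtain ⟨i, hi, h⟩ := hcov t ht
      exact mem_biUnion hi h
    · exact (S.isCompact_biUnion fun i _ => isCompact_Icc).measure_lt_top.ne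
  have h2 := h1.trans (MeasureTheory.measureReal_biUnion_finset_le _ _)
  rw [Real.volume_real_Icc_of_le zero_le_one,
    Finset.sum_congr rfl fun i hi => Real.volume_real_Icc_of_le (hab i hi)] at h2
  obtain ⟨i0, hi0, -⟩ := hcov 0 ⟨le_rfl, zero_le_one⟩
  have h3 := Finset.sum_lt_sum_of_nonempty ⟨i0, hi0⟩ hcon
  rw [← Finset.mul_sum] at h3
  simp only [Finset.sum_const, nsmul_eq_mul, mul_one] at h3
  have h4 : (S.card : ℝ) ≤ V := by exact_mod_cast hV
  have h5 := mul_le_mul_of_nonneg_left h2 (Nat.cast_nonneg (α := ℝ) V)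
  linarith

end SegL

theorem fw_smul (g : ℕ → Af) (c : ℝ) (d : E) (n : ℕ) : fw g (c • d) n = c • fw g d n := by
  induction n with
  | zero => rfl
  | succ n ih => simp only [fw, ih, TL_smul]

theorem fw_congr {g g' : ℕ → Af} (d : E) {n : ℕ} (h : ∀ i < n, (g i).1 = (g' i).1) :
    fw g d n = fw g' d n := by
  induction n with
  | zero => rfl
  | succ n ih =>
    simp only [fw]
    rw [ih fun i hi => h i (by omega), h n (by omega)]

theorem fw_add (g : ℕ → Af) (d : E) (n k : ℕ) :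
    fw g d (n + k) = fw (fun i => g (n + i)) (fw g d n) k := by
  induction k with
  | zero => rfl
  | succ k ih =>
    rw [← add_assoc]
    simp only [fw, ih]

/-- The image of a segment is the segment spanned by the image vector. -/
theorem Seg.iter (hc : Continuous F) {z d : E} {g : ℕ → Af} {n : ℕ} (h : Seg F z d g n) {i : ℕ}
    (hi : i ≤ n) {t : ℝ} (ht : t ∈ Icc (0 : ℝ) 1) :
    (T F)^[i] (z + t • d) = (T F)^[i] z + t • fw g d i := by
  induction i with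
  | zero => rfl
  | succ i ih =>
    have h1 := h i (by omega) t ht
    have h2 := h i (by omega) 0 ⟨le_rfl, zero_le_one⟩
    rw [zero_smul, add_zero] at h2
    rw [Function.iterate_succ_apply', Function.iterate_succ_apply', SegL.T_germ hc h1,
      SegL.T_germ hc h2, ih (by omega), TL_add, TL_smul]
    simp only [fw]
    abel

theorem Seg.mono {z d : E} {g : ℕ → Af} {n k : ℕ} (h : Seg F z d g n) (hk : k ≤ n) :
    Seg F z d g k := fun i hi => h i (hi.trans_le hk)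

theorem Seg.sub {z d : E} {g : ℕ → Af} {n : ℕ} (h : Seg F z d g n) {t0 t1 : ℝ} (h0 : 0 ≤ t0)
    (h01 : t0 ≤ t1) (h1 : t1 ≤ 1) : Seg F (z + t0 • d) ((t1 - t0) • d) g n := by
  intro i hi t ht
  rw [SegL.pt_comb]
  exact h i hi _ (SegL.comb_mem h0 h01 h1 ht)

/-- Along a solution whose cocycle starts with the word, the vectors are given by `fw`. -/
theorem fw_eq_pt {g : ℕ → Af} {c : ℤ → E} {v : ℤ → ℝ} {n : ℕ} (hc : ∀ i < n, c (i : ℕ) = (g i).1)
    (hv : SolOn c v 0 n) {i : ℕ} (hi : i ≤ n) : fw g (pt v 0) i = pt v i := by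
  induction i with
  | zero => rfl
  | succ i ih =>
    simp only [fw]
    rw [ih (by omega), ← hc i (by omega)]
    push_cast
    exact (pt_succ (hv i (by omega) (by omega))).symm

theorem Seg.norm_le (ha : Adm F L 2) {z d : E} {g : ℕ → Af} {n : ℕ} (h : Seg F z d g n) {i j : ℕ}
    (hij : i ≤ j) (hj : j ≤ n) : ‖fw g d j‖ ≤ (2 * L + 2) ^ (j - i) * ‖fw g d i‖ ∧
      ‖fw g d i‖ ≤ (2 * L + 2) ^ (j - i) * ‖fw g d j‖ := by
  have hL : 0 ≤ 2 * L + 2 := by have := ha.le_L; linarith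
  induction j, hij using Nat.le_induction with
  | base => simp
  | succ j hij ih =>
    obtain ⟨ih1, ih2⟩ := ih (by omega)
    have h2 := h j (by omega) 0 ⟨le_rfl, zero_le_one⟩
    obtain ⟨b1, b2, b3⟩ := ha.lg_bd (k := (g j).1) ⟨(g j).2, h2⟩
    have e : j + 1 - i = (j - i) + 1 := by omega
    rw [e]
    simp only [fw]
    constructor
    · refine (norm_TL_le b1 b2 b3 _).trans ?_
      rw [pow_succ', mul_assoc]
      exact mul_le_mul_of_nonneg_left ih1 hL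
    · refine ih2.trans ?_
      rw [pow_succ, mul_assoc]
      exact mul_le_mul_of_nonneg_left (norm_le_TL b1 b2 b3 _) (pow_nonneg hL _)

theorem Sub.refl (F : E → ℝ) (z d : E) : Sub F z d 0 z d :=
  ⟨0, 1, fun _ => 0, le_rfl, zero_le_one, le_rfl, fun _ hi => absurd hi (Nat.not_lt_zero _),
    by simp, by simp [fw]⟩

theorem Sub.trim (F : E → ℝ) (z d : E) {t0 t1 : ℝ} (h0 : 0 ≤ t0) (h01 : t0 ≤ t1) (h1 : t1 ≤ 1) :
    Sub F z d 0 (z + t0 • d) ((t1 - t0) • d) :=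
  ⟨t0, t1, fun _ => 0, h0, h01, h1, fun _ hi => absurd hi (Nat.not_lt_zero _), rfl, rfl⟩

theorem Seg.toSub {z d : E} {g : ℕ → Af} {n : ℕ} (h : Seg F z d g n) :
    Sub F z d n ((T F)^[n] z) (fw g d n) :=
  ⟨0, 1, g, le_rfl, zero_le_one, le_rfl, by simpa using h, by simp, by simp⟩

theorem Sub.trans (hc : Continuous F) {z d z' d' z'' d'' : E} {n k : ℕ} (h : Sub F z d n z' d')
    (h' : Sub F z' d' k z'' d'') : Sub F z d (n + k) z'' d'' := by
  obtain ⟨t0, t1, g, h0, h01, h1, hs, rfl, rfl⟩ := h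
  obtain ⟨s0, s1, g', k0, k01, k1, hs', rfl, rfl⟩ := h'
  have hd : 0 ≤ t1 - t0 := sub_nonneg.2 h01
  have e1 : z + (t0 + s0 * (t1 - t0)) • d = z + t0 • d + s0 • (t1 - t0) • d := by module
  have e2 : (t0 + s1 * (t1 - t0) - (t0 + s0 * (t1 - t0))) • d = (s1 - s0) • (t1 - t0) • d := by
    module
  refine ⟨t0 + s0 * (t1 - t0), t0 + s1 * (t1 - t0), fun i => if i < n then g i else g' (i - n),
    by positivity, by nlinarith, by nlinarith, ?_, ?_, ?_⟩
  · rw [e1, e2]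
    intro i hi t ht
    by_cases hin : i < n
    · simp only [hin, if_true]
      exact hs.sub k0 k01 k1 i hin t ht
    · simp only [hin, if_false]
      obtain ⟨j, rfl⟩ : ∃ j, i = j + n := ⟨i - n, by omega⟩
      have h3 := hs' j (by omega) t ht
      rw [SegL.pt_comb, ← hs.iter hc le_rfl (SegL.comb_mem k0 k01 k1 ht)] at h3
      rw [SegL.pt_comb, Function.iterate_add_apply, Nat.add_sub_cancel]
      exact h3
  · rw [e1, add_comm n k, Function.iterate_add_apply, hs.iter hc le_rfl ⟨k0, k01.trans k1⟩]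
  · rw [e2, fw_add, ← fw_smul]
    have e3 : fw (fun i => if i < n then g i else g' (i - n)) ((s1 - s0) • (t1 - t0) • d) n =
        fw g ((s1 - s0) • (t1 - t0) • d) n := fw_congr _ fun i hi => by simp [hi]
    rw [e3]
    exact fw_congr _ fun i _ => by simp

theorem Sub.cr (hc : Continuous F) {z d z' d' : E} {n N : ℕ} {β : ℝ} (h : Sub F z d n z' d')
    (h' : Cr F N β z' d') : Cr F (n + N) β z d := by
  obtain ⟨t0, t1, g, h0, h01, h1, hs, rfl, rfl⟩ := h
  obtain ⟨k, hk, s0, hs0, s1, hs1, m, a1, a2, a3⟩ := h'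
  have key : ∀ s ∈ Icc (0 : ℝ) 1, (T F)^[n + k] (z + (t0 + s * (t1 - t0)) • d) =
      (T F)^[k] ((T F)^[n] (z + t0 • d) + s • fw g ((t1 - t0) • d) n) := by
    intro s hs'
    rw [← SegL.pt_comb, add_comm n k, Function.iterate_add_apply, hs.iter hc le_rfl hs']
  refine ⟨n + k, by omega, _, SegL.comb_mem h0 h01 h1 hs0, _, SegL.comb_mem h0 h01 h1 hs1, m,
    fun t ht => ?_, ?_, ?_⟩
  · rw [← segment_eq_uIcc] at ht a1
    obtain ⟨a, b, ha, hb, hab, rfl⟩ := ht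
    have e : a • (t0 + s0 * (t1 - t0)) + b • (t0 + s1 * (t1 - t0)) =
        t0 + (a • s0 + b • s1) * (t1 - t0) := by
      simp only [smul_eq_mul]
      linear_combination t0 * hab
    rw [e, key _ (convex_Icc 0 1 hs0 hs1 ha hb hab)]
    exact a1 _ ⟨a, b, ha, hb, hab, rfl⟩
  · rw [key _ hs0]; exact a2
  · rw [key _ hs1]; exact a3

theorem Cr.mono {N N' : ℕ} {β : ℝ} {z d : E} (h : Cr F N β z d) (hN : N ≤ N') : Cr F N' β z d := by
  obtain ⟨n, hn, h⟩ := h
  exact ⟨n, hn.trans hN, h⟩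

/-- Expansion along a segment. Use `ext_itin` and `exists_sol`. -/
theorem ExpAt.fw {r C l : ℝ} {N : ℕ} (ha : Adm F L 2) (hl : Loc F r N) {z d : E}
    (h : ExpAt F C l z d) {g : ℕ → Af} {n : ℕ} (hg : ∀ i < n, Germ F ((T F)^[i] z) (g i))
    {i j : ℕ} (hij : i ≤ j) (hj : j ≤ n) :
    ‖H89.fw g d i‖ ≤ C * l ^ ((i : ℤ) - j) * ‖H89.fw g d j‖ := by
  obtain ⟨x, c, hx, h0, hc⟩ := ext_itin ha hl z g n hg
  obtain ⟨v, hv, hv0⟩ := exists_sol (SegL.bd_ne (ha.itin_bd hx)) 0 d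
  have := h x c v hx h0 hv hv0 i j (by omega) (by omega)
  rwa [← fw_eq_pt hc (hv.solOn _ _) (hij.trans hj), ← fw_eq_pt hc (hv.solOn _ _) hj, hv0] at this

theorem GoodAt.fw {r C : ℝ} {N : ℕ} (ha : Adm F L 2) (hl : Loc F r N) {z d : E}
    (h : GoodAt F C z d) {g : ℕ → Af} {n : ℕ} (hg : ∀ i < n, Germ F ((T F)^[i] z) (g i)) :
    ‖d‖ ≤ C * ‖H89.fw g d n‖ := by
  obtain ⟨x, c, hx, h0, hc⟩ := ext_itin ha hl z g n hg
  obtain ⟨v, hv, hv0⟩ := exists_sol (SegL.bd_ne (ha.itin_bd hx)) 0 d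
  have := h x c v hx h0 hv hv0 n (by omega)
  rwa [← fw_eq_pt hc (hv.solOn _ _) le_rfl, hv0] at this

theorem ExpAt.smul {C l : ℝ} (ha : Adm F L 2) {z d : E} (h : ExpAt F C l z d) (c : ℝ) :
    ExpAt F C l z (c • d) := by
  intro x k v hx h0 hv hv0 i j hi hij
  obtain ⟨w, hw, hw0, he⟩ := SegL.sol_smul (SegL.bd_ne (ha.itin_bd hx)) hv hv0
  have := mul_le_mul_of_nonneg_left (h x k w hx h0 hw hw0 i j hi hij) (norm_nonneg c)
  rw [he, he, norm_smul, norm_smul]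
  linarith

theorem GoodAt.smul {C : ℝ} (ha : Adm F L 2) {z d : E} (h : GoodAt F C z d) (c : ℝ) :
    GoodAt F C z (c • d) := by
  intro x k v hx h0 hv hv0 j hj
  obtain ⟨w, hw, hw0, he⟩ := SegL.sol_smul (SegL.bd_ne (ha.itin_bd hx)) hv hv0
  have := mul_le_mul_of_nonneg_left (h x k w hx h0 hw hw0 j hj) (norm_nonneg c)
  rw [he, norm_smul, norm_smul]
  linarith

theorem SegL.glue (ha : Adm F L 2) {z d : E} {g : ℕ → Af} {n : ℕ}
    (hg : ∀ i < n, Germ F ((T F)^[i] z) (g i)) {x v : ℤ → ℝ} {k : ℤ → E} (hx : Itin F x k)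
    (h0 : pt x 0 = (T F)^[n] z) (hv : Sol k v) (hv0 : pt v 0 = fw g d n) :
    ∃ x' k' w, Itin F x' k' ∧ pt x' 0 = z ∧ Sol k' w ∧ pt w 0 = d ∧
      ∀ j : ℤ, 0 ≤ j → pt w (j + n) = pt v j := by
  have hx' := hx.shift (-n)
  have hpt : ∀ (y : ℤ → ℝ) (j : ℤ), pt (fun j => y (j + -n)) (j + n) = pt y j := by
    intro y j
    simp only [pt]
    congr 2 <;> ring
  have hz : pt (fun j => x (j + -n)) 0 = z := by
    have h1 := ha.lip_iter' n (pt (fun j => x (j + -n)) 0) z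
    rw [← hx'.1.iter, hpt, h0, sub_self, norm_zero, mul_zero] at h1
    exact sub_eq_zero.1 (norm_le_zero_iff.1 h1)
  let k' : ℤ → E := fun i => if 0 ≤ i ∧ i < n then (g i.toNat).1 else k (i + -n)
  have hk' : Itin F (fun j => x (j + -n)) k' := by
    refine ⟨hx'.1, fun i => ?_⟩
    by_cases hi : 0 ≤ i ∧ i < n
    · obtain ⟨m, rfl⟩ := Int.eq_ofNat_of_zero_le hi.1
      have h1 := hx'.1.iter 0 m
      rw [zero_add, hz] at h1
      simp only [k', hi, and_self, if_true, Int.toNat_natCast, h1]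
      exact ⟨_, hg m (by omega)⟩
    · simp only [k', hi, if_false]
      exact hx'.2 i
  have hb := SegL.bd_ne (ha.itin_bd hk')
  obtain ⟨w, hw, hw0⟩ := exists_sol hb 0 d
  refine ⟨_, k', w, hk', hz, hw, hw0, fun j hj => ?_⟩
  have h1 : fw g (pt w 0) n = pt w n := fw_eq_pt (c := k') (fun i hi => by
    have : (0 : ℤ) ≤ i ∧ (i : ℤ) < n := by omega
    simp only [k', this, and_self, if_true, Int.toNat_natCast]) (hw.solOn _ _) le_rfl
  have h2 : SolOn k' (fun j => v (j + -n)) n (j + n) := by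
    intro i hi _
    obtain ⟨m, rfl⟩ : ∃ m, i = m + n := ⟨i - n, by ring⟩
    have : ¬ (0 ≤ m + n ∧ m + n < n) := by omega
    simp only [k', this, if_false, hpt]
    rw [add_neg_cancel_right, ← hv m]
    congr 1; ring
  rw [← hpt v j]
  refine SolOn.unique hb (hw.solOn _ _) h2 le_rfl (by omega) ?_ (by omega) le_rfl
  have h3 := hpt v 0
  rw [zero_add] at h3
  rw [h3, hv0, ← h1, hw0]

/-- Expansion passes to the image point: shift the itinerary by `n` and replace its gradients at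
times `0 ≤ i < n` by the word. -/
theorem ExpAt.next {C l : ℝ} (ha : Adm F L 2) {z d : E} (h : ExpAt F C l z d) {g : ℕ → Af} {n : ℕ}
    (hg : ∀ i < n, Germ F ((T F)^[i] z) (g i)) : ExpAt F C l ((T F)^[n] z) (H89.fw g d n) := by
  intro x k v hx h0 hv hv0 i j hi hij
  obtain ⟨x', k', w, hx', h0', hw, hw0, he⟩ := SegL.glue ha hg hx h0 hv hv0
  have := h x' k' w hx' h0' hw hw0 (i + n) (j + n) (by omega) (by omega)
  rwa [he i hi, he j (hi.trans hij), add_sub_add_right_eq_sub] at this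

theorem Exp.sub {C l : ℝ} (ha : Adm F L 2) {z d z' d' : E} {n : ℕ} (h : Exp F C l z d)
    (hs : Sub F z d n z' d') : Exp F C l z' d' := by
  obtain ⟨t0, t1, g, h0, h01, h1, hs, rfl, rfl⟩ := hs
  intro t ht
  rw [← hs.iter ha.cont le_rfl ht]
  refine ExpAt.next ha ?_ fun i hi => hs i hi t ht
  rw [SegL.pt_comb]
  exact (h _ (SegL.comb_mem h0 h01 h1 ht)).smul ha _

/-- After enough steps a vector that has not collapsed expands along every future itinerary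
(same gluing of words as in `ExpAt.next`, then `Hyp` on the window `[0, j]`). -/
theorem expAt_of_past {C l C0 : ℝ} (ha : Adm F L 2) (hh : HYP F C l) (hC : 0 ≤ C) (hl : 1 < l)
    {z d : E} {g : ℕ → Af} {n : ℕ} (hg : ∀ i < n, Germ F ((T F)^[i] z) (g i))
    (hd : ‖d‖ ≤ C0 * ‖fw g d n‖) (hn : 4 * C * C * C0 ≤ l ^ n) (hn' : 2 * C * C0 ≤ l ^ n) :
    ExpAt F (2 * C) l ((T F)^[n] z) (fw g d n) := by
  intro x k v hx h0 hv hv0 i j hi hij
  obtain ⟨x', k', w, hx', h0', hw, hw0, he⟩ := SegL.glue ha hg hx h0 hv hv0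
  have hl0 : 0 < l := by linarith
  have h1 := hh x' k' hx' w 0 (j + n) (hw.solOn _ _) (i + n) (by omega) (by omega)
  have h2 := hh x' k' hx' w 0 (i + n) (hw.solOn _ _) (0 + n) (by omega) (by omega)
  rw [he i hi, he j (hi.trans hij), add_sub_add_right_eq_sub, hw0] at h1
  rw [he i hi, he 0 le_rfl, add_sub_add_right_eq_sub, hw0, hv0] at h2
  have e1 : l ^ (0 - (i + n : ℤ)) = l ^ (0 - i) * (l ^ n)⁻¹ := by
    rw [← zpow_natCast, ← zpow_neg, ← zpow_add₀ hl0.ne']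
    congr 1; ring
  have e2 : l ^ (0 - (0 + n : ℤ)) = (l ^ n)⁻¹ := by
    rw [← zpow_natCast, ← zpow_neg]
    congr 1; ring
  rw [e1] at h1
  rw [e2] at h2
  have hp : 0 < l ^ n := by positivity
  have hu1 : l ^ (0 - i) ≤ 1 := zpow_le_one_of_nonpos₀ hl.le (by omega)
  have := SegL.past_ineq hC hp hu1 (norm_nonneg d) (norm_nonneg _) (norm_nonneg _) hd hn hn'
    h2
  linarith

theorem ExpAt.good {C l : ℝ} (hl : 1 ≤ l) (hC : 0 ≤ C) {z d : E} (h : ExpAt F C l z d) :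
    GoodAt F C z d := by
  intro x k v hx h0 hv hv0 j hj
  have h1 := h x k v hx h0 hv hv0 0 j le_rfl hj
  rw [hv0] at h1
  refine h1.trans (mul_le_mul_of_nonneg_right ?_ (norm_nonneg _))
  exact mul_le_of_le_one_right hC (zpow_le_one_of_nonpos₀ hl (by omega))

/-- A nonzero hyperbolicity constant is at least `1/2`. -/
theorem HYP.half_le {r C l : ℝ} {N : ℕ} (ha : Adm F L 2) (hl : Loc F r N) (hh : HYP F C l) :
    1 / 2 ≤ C := by
  obtain ⟨x, c, hx, -, -⟩ := ext_itin ha hl 0 (fun _ => 0) 0 fun _ hi => absurd hi (Nat.not_lt_zero _)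
  have := hh x c hx (fun _ => 1) 0 0 (fun i h1 h2 => by omega) 0 le_rfl le_rfl
  simp only [pt, sub_self, zpow_zero, Prod.norm_def, norm_one, max_self] at this
  linarith

/-- Pieces of a short segment: closed parameter intervals carrying a common word; every word of
every point occurs. The set of parameters that follow one member of the family is convex and closed
by induction on the time. -/
theorem CX.pieces (hc : Continuous F) {V n : ℕ} {δ : ℝ} (h : CX F V n δ) (z d : E) (hd : ‖d‖ ≤ δ) :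
    ∃ S : Finset (ℝ × ℝ × (ℕ → Af)), S.card ≤ V ∧
      (∀ a ∈ S, 0 ≤ a.1 ∧ a.1 ≤ a.2.1 ∧ a.2.1 ≤ 1 ∧
        Seg F (z + a.1 • d) ((a.2.1 - a.1) • d) a.2.2 n) ∧
      ∀ t ∈ Icc (0 : ℝ) 1, ∀ g : ℕ → Af, (∀ i < n, Germ F ((T F)^[i] (z + t • d)) (g i)) →
        ∃ a ∈ S, t ∈ Icc a.1 a.2.1 ∧ ∀ i < n, a.2.2 i = g i := by
  classical
  obtain ⟨S, hV, hS, hcov⟩ := h z
  let I : (ℕ → Set E) × (ℕ → Af) → Set ℝ := fun c =>
    {t | t ∈ Icc (0 : ℝ) 1 ∧ ∀ i < n, (T F)^[i] (z + t • d) ∈ c.1 i}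
  have hI : ∀ c ∈ S, (I c).Nonempty → I c = Icc (sInf (I c)) (sSup (I c)) := fun c hc' hne =>
    SegL.follow_Icc hc (hS c hc') z d hne
  refine ⟨(S.filter fun c => (I c).Nonempty).image fun c => (sInf (I c), sSup (I c), c.2),
    Finset.card_image_le.trans ((Finset.card_filter_le _ _).trans hV), ?_, ?_⟩
  · intro a ha
    obtain ⟨c, hc', rfl⟩ := Finset.mem_image.1 ha
    obtain ⟨hcS, hne⟩ := Finset.mem_filter.1 hc'
    have e := hI c hcS hne
    have hle : sInf (I c) ≤ sSup (I c) := nonempty_Icc.1 (e ▸ hne)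
    have m1 : sInf (I c) ∈ I c := by rw [e]; exact e ▸ left_mem_Icc.2 hle
    have m2 : sSup (I c) ∈ I c := by rw [e]; exact e ▸ right_mem_Icc.2 hle
    refine ⟨m1.1.1, hle, m2.1.2, fun i hi t ht => ?_⟩
    have m3 : sInf (I c) + t * (sSup (I c) - sInf (I c)) ∈ I c :=
      e.ge (SegL.comb_mem' hle ht)
    rw [SegL.pt_comb]
    exact (hS c hcS i hi).2.2 _ (m3.2 i hi)
  · intro t ht g hg
    have hn : ‖z + t • d - z‖ ≤ δ := by
      rw [add_sub_cancel_left, norm_smul, Real.norm_of_nonneg ht.1]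
      exact (mul_le_of_le_one_left (norm_nonneg _) ht.2).trans hd
    obtain ⟨c, hcS, hc'⟩ := hcov _ hn g hg
    have m : t ∈ I c := ⟨ht, fun i hi => (hc' i hi).1⟩
    exact ⟨_, Finset.mem_image_of_mem _ (Finset.mem_filter.2 ⟨hcS, t, m⟩),
      (hI c hcS ⟨t, m⟩).le m, fun i hi => (hc' i hi).2⟩

/-- The longest piece. -/
theorem CX.longest {r : ℝ} {N : ℕ} (hc : Continuous F) (hl : Loc F r N) {V n : ℕ} {δ : ℝ}
    (h : CX F V n δ) (z d : E) (hd : ‖d‖ ≤ δ) :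
    ∃ (t0 t1 : ℝ) (g : ℕ → Af), 0 ≤ t0 ∧ t1 ≤ 1 ∧ 1 ≤ V * (t1 - t0) ∧ t0 ≤ t1 ∧
      Seg F (z + t0 • d) ((t1 - t0) • d) g n := by
  obtain ⟨S, hV, hS, hcov⟩ := h.pieces hc z d hd
  obtain ⟨a, ha, h1⟩ := SegL.exists_long S (fun a => a.1) (fun a => a.2.1) hV
    (fun a ha => (hS a ha).2.1) (fun t ht => by
      choose g hg using fun i : ℕ => hl.exists_germ ((T F)^[i] (z + t • d))
      obtain ⟨a, ha, h2, -⟩ := hcov t ht g fun i _ => hg i
      exact ⟨a, ha, h2⟩)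
  obtain ⟨b1, b2, b3, b4⟩ := hS a ha
  exact ⟨_, _, _, b1, b3, h1, b2, b4⟩

theorem CX.mono {V n k : ℕ} {δ : ℝ} {r : ℝ} {N : ℕ} (hl : Loc F r N) (h : CX F V n δ) (hk : k ≤ n) :
    CX F V k δ := by
  intro z0
  obtain ⟨S, hV, hS, hcov⟩ := h z0
  refine ⟨S, hV, fun c hc i hi => hS c hc i (hi.trans_le hk), fun z hz g hg => ?_⟩
  choose g' hg' using fun i : ℕ => hl.exists_germ ((T F)^[i] z)
  obtain ⟨c, hc, h1⟩ := hcov z hz (fun i => if i < k then g i else g' i) fun i _ => by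
    by_cases hi : i < k
    · simpa [hi] using hg i hi
    · simpa [hi] using hg' i
  exact ⟨c, hc, fun i hi => by simpa [hi] using h1 i (hi.trans_le hk)⟩

/-- One step: a family of closed convex cells covering the segment gives a long piece. -/
theorem longest_cell {S : Finset (Set E × Af)} {V : ℕ} (hV : S.card ≤ V)
    (hS : ∀ A ∈ S, Convex ℝ A.1 ∧ IsClosed A.1 ∧ ∀ p ∈ A.1, Germ F p A.2) (z d : E)
    (hc : ∀ t ∈ Icc (0 : ℝ) 1, ∃ A ∈ S, z + t • d ∈ A.1) :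
    ∃ (t0 t1 : ℝ) (g : Af), 0 ≤ t0 ∧ t1 ≤ 1 ∧ 1 ≤ V * (t1 - t0) ∧ t0 ≤ t1 ∧
      Seg F (z + t0 • d) ((t1 - t0) • d) (fun _ => g) 1 := by
  classical
  let I : Set E × Af → Set ℝ := fun A => {t | t ∈ Icc (0 : ℝ) 1 ∧ z + t • d ∈ A.1}
  have hI : ∀ A ∈ S, (I A).Nonempty → I A = Icc (sInf (I A)) (sSup (I A)) := by
    intro A hA hne
    refine SegL.eq_Icc hne ?_ (fun t ht => ht.1) ?_
    · exact isClosed_Icc.inter ((hS A hA).2.1.preimage (by fun_prop))
    · intro s hs t ht a b ha hb hab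
      refine ⟨convex_Icc 0 1 hs.1 ht.1 ha hb hab, ?_⟩
      rw [SegL.line_comb z d hab]
      exact (hS A hA).1 hs.2 ht.2 ha hb hab
  obtain ⟨A, hA, h1⟩ := SegL.exists_long (S.filter fun A => (I A).Nonempty) (fun A => sInf (I A))
    (fun A => sSup (I A)) ((Finset.card_filter_le _ _).trans hV)
    (fun A hA => by
      obtain ⟨h1, h2⟩ := Finset.mem_filter.1 hA
      exact nonempty_Icc.1 (hI A h1 h2 ▸ h2))
    (fun t ht => by
      obtain ⟨A, hA, h2⟩ := hc t ht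
      exact ⟨A, Finset.mem_filter.2 ⟨hA, t, ht, h2⟩, (hI A hA ⟨t, ht, h2⟩).le ⟨ht, h2⟩⟩)
  obtain ⟨hAS, hne⟩ := Finset.mem_filter.1 hA
  have e := hI A hAS hne
  have hle : sInf (I A) ≤ sSup (I A) := nonempty_Icc.1 (e ▸ hne)
  have m1 : sInf (I A) ∈ I A := e.ge (left_mem_Icc.2 hle)
  have m2 : sSup (I A) ∈ I A := e.ge (right_mem_Icc.2 hle)
  refine ⟨_, _, A.2, m1.1.1, m2.1.2, h1, hle, fun i hi t ht => ?_⟩
  obtain rfl : i = 0 := by omega
  have m3 : sInf (I A) + t * (sSup (I A) - sInf (I A)) ∈ I A := e.ge (SegL.comb_mem' hle ht)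
  rw [SegL.pt_comb]
  exact (hS A hAS).2.2 _ m3.2

/-- Pigeonhole: an interval that avoids finitely many small sets. -/
theorem avoid_small {ι : Type*} (S : Finset ι) (B : ι → Set ℝ) {n : ℕ} (hn : S.card ≤ n)
    (hB : ∀ i ∈ S, ∀ s ∈ B i, ∀ t ∈ B i, (2 * n + 1) * |s - t| < 1) :
    ∃ t0 : ℝ, 0 ≤ t0 ∧ t0 + 1 / (2 * n + 1) ≤ 1 ∧
      ∀ t ∈ Icc t0 (t0 + 1 / (2 * n + 1)), ∀ i ∈ S, t ∉ B i := by
  by_contra hcon
  have hp : (0 : ℝ) < 2 * n + 1 := by positivity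
  have key : ∀ j : ℕ, j ≤ n → ∃ t i, i ∈ S ∧ t ∈ B i ∧ 2 * j ≤ (2 * n + 1) * t ∧
      (2 * n + 1) * t ≤ 2 * j + 1 := by
    intro j hj
    have hj' : (j : ℝ) ≤ n := by exact_mod_cast hj
    by_contra h
    refine hcon ⟨2 * j / (2 * n + 1), by positivity, ?_, fun t ht i hi hti => h ⟨t, i, hi, hti, ?_, ?_⟩⟩
    · rw [← add_div, div_le_one hp]; linarith
    · have := ht.1
      rw [div_le_iff₀ hp] at this
      linarith
    · have := ht.2
      rw [← add_div, le_div_iff₀ hp] at this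
      linarith
  choose t i hi hti h1 h2 using key
  have hlt : ∀ j (hj : j ≤ n) j' (hj' : j' ≤ n), j < j' → i j hj ≠ i j' hj' := by
    intro j hj j' hj' hlt he
    have h3 := hB _ (hi j hj) (t j' hj') (he ▸ hti j' hj') (t j hj) (hti j hj)
    have h4 : (j : ℝ) + 1 ≤ j' := by exact_mod_cast hlt
    have h5 := h1 j' hj'
    have h6 := h2 j hj
    have h7 := mul_le_mul_of_nonneg_left (le_abs_self (t j' hj' - t j hj)) hp.le
    linarith
  have hcard := Finset.card_le_card_of_injOn (s := Finset.univ) (t := S)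
    (fun j : Fin (n + 1) => i j (Nat.lt_succ_iff.1 j.2)) (fun j _ => hi _ _) (by
      intro j _ j' _ he
      rcases lt_trichotomy j j' with h | h | h
      · exact absurd he (hlt _ _ _ _ h)
      · exact h
      · exact absurd he.symm (hlt _ _ _ _ h))
  simp only [Finset.card_univ, Fintype.card_fin] at hcard
  omega

end Pool.Agent.MP_369096_an.H89
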