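import Pool.Agent.MP_369096_an.H89.BasB

/-!
TASK Tent0. One tent. Auxiliary lemmas go in namespace `H89.Tent0`.

Kinks `t j = η b + 2 j b` for `j ≤ 2m`, `t (2m+1) = η b + 8 m b`; slopes after the kink `j`:
`S j = e (-1 - η)` for even `j < 2m`, `S j = e (η - 1)` for odd `j < 2m`, `S (2m) = e`, `S (2m+1) = 0`;
`κ 0 = S 0`, `κ j = S j - S (j-1)`, `R j = ∑_{i ≤ j} κ i t i`. Closed forms: `R (2k) = -e η (η + 4k + 1) b` and
`R (2k+1) = e η (η + 4k + 3) b` for `k < m`, `R (2m) = e (η b + 8 m b)`, `R (2m+1) = 0`; so `|R j| ≤ 9 e m b`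
(define `R j` by these formulas and check `R 0 = S 0 t 0`, `R (j+1) - R j = (S (j+1) - S j) t (j+1)`).
Taper `λ σ = max 0 (min 1 (2 - 4 |σ| / W))`, and `Φ (X,Y) = ∑_{j ≤ 2m+1} κ j * max 0 (X - t j * λ (X+Y))`.
On `{t j λ ≤ X ≤ t (j+1) λ}` one has `Φ = S j X - R j λ(X+Y)`; `Φ = 0` for `X ≤ t 0 λ` and for `X ≥ t (2m+1) λ`.
Cells: the two half-planes `|X+Y| ≥ W/2` (`Φ = 0`), and in each of the three strips where `λ` is affine the `2m+3` regions cut by
the kinks (intersections of closed half-planes). Lines: `X + Y = ±W/4, ±W/2` and `X = t j λ` in each strip (in the form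
`X - θ' Y = c`), and `X = 0`; a point on none of these lines is interior to a cell. The Lipschitz bounds follow from the cells with
`lip_of_right` (finitely many closed convex cells: one of them contains a right neighbourhood of `t`), or directly.
-/

set_option autoImplicit false

open Set Filter Topology

namespace Pool.Agent.MP_369096_an.H89

namespace Tent0

theorem data {e η b : ℝ} (he : 0 < e) (hη : 0 < η) (hη1 : η ≤ 1 / 4) (hb : 0 < b) {m : ℕ}
    (hm : 2 ≤ m) :
    ∃ t s r : ℕ → ℝ, Monotone t ∧ (∀ j, 0 ≤ t j ∧ t j ≤ 9 * (m * b)) ∧ s 0 = 0 ∧ r 0 = 0 ∧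
      s (2 * m + 2) = 0 ∧ r (2 * m + 2) = 0 ∧
      (∀ j < 2 * m + 2, r (j + 1) - r j = (s (j + 1) - s j) * t j) ∧
      (∀ j, |r j| ≤ 9 * e * (m * b)) ∧
      (∀ j, s j = 0 ∨ s j = e ∨ s j = -e - e * η ∨ s j = -e + e * η) ∧
      ∀ k < m, t (2 * k + 1) = (η + 4 * k + 2) * b ∧ t (2 * k + 2) = (η + 4 * k + 4) * b ∧
        s (2 * k + 2) = e * (η - 1) ∧ r (2 * k + 2) = e * η * ((η + 4 * k + 3) * b) := by
  have hm' : (2 : ℝ) ≤ m := by exact_mod_cast hm
  have hcast : ∀ j : ℕ, j ≤ 2 * m → (j : ℝ) ≤ 2 * m := fun j hj => by exact_mod_cast hj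
  refine ⟨fun j => if j ≤ 2 * m then (η + 2 * j) * b else (η + 8 * m) * b,
    fun j => if j = 0 ∨ 2 * m + 2 ≤ j then 0 else if j = 2 * m + 1 then e
      else -e + (-1) ^ j * (e * η),
    fun j => if j = 0 ∨ 2 * m + 2 ≤ j then 0 else if j = 2 * m + 1 then e * ((η + 8 * m) * b)
      else (-1) ^ j * (e * η * ((η + 2 * j - 1) * b)), ?_, ?_, by simp, by simp, by simp, by simp,
    ?_, ?_, ?_, ?_⟩
  · intro i j hij
    have hij' : (i : ℝ) ≤ j := by exact_mod_cast hij
    dsimp only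
    split_ifs with h1 h2 h2
    · gcongr
    · have := hcast i h1
      exact mul_le_mul_of_nonneg_right (by linarith) hb.le
    · omega
    · exact le_rfl
  · intro j
    dsimp only
    split_ifs with h1
    · have := hcast j h1
      exact ⟨by positivity, by nlinarith⟩
    · exact ⟨by positivity, by nlinarith⟩
  · intro j hj
    dsimp only
    rcases Nat.eq_zero_or_pos j with rfl | hj0
    · have c1 : ¬ (0 + 1 = 0 ∨ 2 * m + 2 ≤ 0 + 1) := by omega
      have c2 : ¬ (0 + 1 = 2 * m + 1) := by omega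
      have c3 : 0 = 0 ∨ 2 * m + 2 ≤ 0 := Or.inl rfl
      have c4 : 0 ≤ 2 * m := by omega
      rw [if_neg c1, if_neg c1, if_neg c2, if_neg c2, if_pos c3, if_pos c3, if_pos c4]
      push_cast; ring
    rcases lt_trichotomy j (2 * m) with h | rfl | h
    · rw [if_neg (by omega), if_neg (by omega), if_neg (by omega), if_neg (by omega),
        if_neg (by omega), if_neg (by omega), if_neg (by omega), if_neg (by omega),
        if_pos (by omega)]
      push_cast; ring
    · rw [if_neg (by omega), if_pos rfl, if_neg (by omega), if_neg (by omega),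
        if_neg (by omega), if_pos rfl, if_neg (by omega), if_neg (by omega),
        if_pos (by omega), pow_mul]
      push_cast; ring
    · obtain rfl : j = 2 * m + 1 := by omega
      rw [if_pos (by omega), if_neg (by omega), if_pos rfl, if_pos (by omega),
        if_neg (by omega), if_pos rfl, if_neg (by omega)]
      ring
  · intro j
    dsimp only
    split_ifs with h1 h2
    · simp only [abs_zero]; positivity
    · rw [abs_of_nonneg (by positivity)]
      have : 0 ≤ e * b * (m - η) := by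
        have : 0 ≤ m - η := by linarith
        positivity
      nlinarith
    · have h3 := hcast j (by omega)
      have h4 : (1 : ℝ) ≤ j := by exact_mod_cast (by omega : 1 ≤ j)
      have h5 : 0 ≤ η + 2 * j - 1 := by linarith
      rw [abs_mul, abs_pow, abs_neg, abs_one, one_pow, one_mul, abs_of_nonneg (by positivity)]
      have h6 : η * (η + 2 * j - 1) ≤ 9 * m := by nlinarith
      have := mul_le_mul_of_nonneg_left h6 (mul_pos he hb).le
      nlinarith
  · intro j
    dsimp only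
    split_ifs with h1 h2
    · exact Or.inl rfl
    · exact Or.inr (Or.inl rfl)
    · rcases neg_one_pow_eq_or ℝ j with h | h <;> rw [h]
      · exact Or.inr (Or.inr (Or.inr (by ring)))
      · exact Or.inr (Or.inr (Or.inl (by ring)))
  · intro k hk
    have h1 : (-1 : ℝ) ^ (2 * k + 2) = 1 := by rw [pow_add, pow_mul]; simp
    dsimp only
    rw [if_pos (by omega), if_pos (by omega), if_neg (by omega), if_neg (by omega),
      if_neg (by omega), if_neg (by omega), h1]
    push_cast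
    exact ⟨by ring, by ring, by ring, by ring⟩

/-- the taper -/
noncomputable def lam (W σ : ℝ) : ℝ := max 0 (min 1 (2 - 4 * |σ| / W))

variable {W σ : ℝ}

theorem lam_nonneg : 0 ≤ lam W σ := le_max_left _ _

theorem lam_le_one : lam W σ ≤ 1 := max_le zero_le_one (min_le_left _ _)

theorem continuous_lam (W : ℝ) : Continuous (lam W) := by unfold lam; fun_prop

theorem lam_out (hW : 0 < W) (h : W / 2 ≤ |σ|) : lam W σ = 0 := by
  refine max_eq_left (min_le_of_right_le ?_)
  rw [sub_nonpos, le_div_iff₀ hW]; linarith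

theorem lam_mid (hW : 0 < W) (h : |σ| ≤ W / 4) : lam W σ = 1 := by
  have : 1 ≤ 2 - 4 * |σ| / W := by
    have : 4 * |σ| / W ≤ 1 := by rw [div_le_one hW]; linarith
    linarith
  rw [lam, min_eq_left this, max_eq_right zero_le_one]

theorem lam_side (hW : 0 < W) (h : W / 4 ≤ |σ|) (h' : |σ| ≤ W / 2) :
    lam W σ = 2 - 4 / W * |σ| := by
  have h1 : 1 ≤ 4 * |σ| / W := by rw [le_div_iff₀ hW]; linarith
  have h2 : 4 * |σ| / W ≤ 2 := by rw [div_le_iff₀ hW]; linarith
  rw [lam, min_eq_right (by linarith), max_eq_right (by linarith)]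
  ring

/-- the three strips where the taper is a nonzero affine function -/
theorem strips (hW : 0 < W) : ∃ Q : Finset (ℝ × ℝ × ℝ × ℝ), Q.card ≤ 3 ∧
    (∀ q ∈ Q, |q.2.2.2| ≤ 4 / W ∧ ∀ σ, q.1 ≤ σ → σ ≤ q.2.1 → lam W σ = q.2.2.1 + q.2.2.2 * σ) ∧
    (∀ σ, σ ≤ -(W / 2) ∨ W / 2 ≤ σ ∨ ∃ q ∈ Q, q.1 ≤ σ ∧ σ ≤ q.2.1) ∧
    ∀ q ∈ Q, q.1 ∈ ({-(W / 2), -(W / 4), W / 4, W / 2} : Finset ℝ) ∧
      q.2.1 ∈ ({-(W / 2), -(W / 4), W / 4, W / 2} : Finset ℝ) := by
  classical
  have h4 : 0 < 4 / W := by positivity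
  refine ⟨{(-(W / 2), -(W / 4), 2, 4 / W), (-(W / 4), W / 4, 1, 0), (W / 4, W / 2, 2, -(4 / W))},
    Finset.card_le_three, ?_, ?_, ?_⟩
  · intro q hq
    simp only [Finset.mem_insert, Finset.mem_singleton] at hq
    rcases hq with rfl | rfl | rfl
    · refine ⟨(abs_of_pos h4).le, fun σ h1 h2 => ?_⟩
      dsimp only at h1 h2 ⊢
      have : |σ| = -σ := abs_of_neg (by linarith)
      rw [lam_side hW (by linarith) (by linarith), this]; ring
    · refine ⟨by simpa using h4.le, fun σ h1 h2 => ?_⟩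
      dsimp only at h1 h2 ⊢
      rw [lam_mid hW (abs_le.2 ⟨h1, h2⟩)]; ring
    · refine ⟨by rw [abs_neg]; exact (abs_of_pos h4).le, fun σ h1 h2 => ?_⟩
      dsimp only at h1 h2 ⊢
      have : |σ| = σ := abs_of_pos (by linarith)
      rw [lam_side hW (by linarith) (by linarith), this]; ring
  · intro σ
    rcases le_total σ (-(W / 2)) with h1 | h1
    · exact Or.inl h1
    rcases le_total (W / 2) σ with h2 | h2
    · exact Or.inr (Or.inl h2)
    refine Or.inr (Or.inr ?_)
    rcases le_total σ (-(W / 4)) with h3 | h3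
    · exact ⟨_, Finset.mem_insert_self _ _, h1, h3⟩
    rcases le_total σ (W / 4) with h5 | h5
    · exact ⟨_, Finset.mem_insert_of_mem (Finset.mem_insert_self _ _), h3, h5⟩
    · exact ⟨_, Finset.mem_insert_of_mem (Finset.mem_insert_of_mem (Finset.mem_singleton_self _)),
        h5, h2⟩
  · intro q hq
    simp only [Finset.mem_insert, Finset.mem_singleton] at hq
    rcases hq with rfl | rfl | rfl <;> simp

/-- closed and convex -/
def CC (A : Set E) : Prop := Convex ℝ A ∧ IsClosed A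

theorem cc_and {P Q : E → Prop} (hP : CC {p | P p}) (hQ : CC {p | Q p}) : CC {p | P p ∧ Q p} :=
  ⟨hP.1.inter hQ.1, hP.2.inter hQ.2⟩

theorem cc_all {ι : Sort*} {P : ι → E → Prop} (h : ∀ i, CC {p | P i p}) :
    CC {p | ∀ i, P i p} := by
  rw [ofPred_forall]
  exact ⟨convex_iInter fun i => (h i).1, isClosed_iInter fun i => (h i).2⟩

theorem cc_le {u v : E → ℝ} (a b c : ℝ) (h : ∀ p, v p - u p = a * p.1 + b * p.2 + c) :
    CC {p | u p ≤ v p} := by
  have e : {p | u p ≤ v p} = {p : E | 0 ≤ a * p.1 + b * p.2 + c} := by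
    ext p; simp only [mem_ofPred_eq, ← h, sub_nonneg]
  rw [e]
  refine ⟨fun p hp q hq x y hx hy hxy => ?_, isClosed_le continuous_const (by fun_prop)⟩
  simp only [mem_ofPred_eq, Prod.fst_add, Prod.snd_add, Prod.smul_fst, Prod.smul_snd,
    smul_eq_mul] at hp hq ⊢
  have h1 := mul_nonneg hx hp
  have h2 := mul_nonneg hy hq
  have h3 : c = (x + y) * c := by rw [hxy, one_mul]
  nlinarith

/-- Lipschitz bound along a direction from a finite closed cover by affine pieces -/
theorem lip_dir {F : E → ℝ} (hF : Continuous F) {S : Finset (Set E × Af)}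
    (hS : ∀ A ∈ S, IsClosed A.1 ∧ ∀ p ∈ A.1, F p = ev A.2 p) (hc : ∀ p, ∃ A ∈ S, p ∈ A.1)
    (p d : E) {c : ℝ} (hd : ∀ A ∈ S, |lin A.2.1 d| ≤ c) (s t : ℝ) :
    |F (p + s • d) - F (p + t • d)| ≤ c * |s - t| := by
  have hγ : Continuous fun s : ℝ => p + s • d := by fun_prop
  refine lip_of_right (φ := fun s => F (p + s • d)) (hF.comp hγ) (fun t => ?_) s t
  have h1 : ∀ᶠ s in 𝓝 t, ∀ A ∈ S, p + s • d ∈ A.1 → p + t • d ∈ A.1 := by
    refine (eventually_all_finset S).2 fun A hA => ?_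
    by_cases h : p + t • d ∈ A.1
    · exact Eventually.of_forall fun _ _ => h
    · filter_upwards [hγ.continuousAt.eventually ((hS A hA).1.isOpen_compl.mem_nhds h)] with s hs h'
      exact absurd h' hs
  obtain ⟨ε, hε, h2⟩ := Metric.eventually_nhds_iff.1 h1
  refine ⟨ε / 2, half_pos hε, fun s hs => ?_⟩
  obtain ⟨A, hA, hp⟩ := hc (p + s • d)
  have hst : 0 ≤ s - t := sub_nonneg.2 hs.1
  have hq := h2 (y := s) (by rw [Real.dist_eq, abs_of_nonneg hst]; linarith [hs.2]) A hA hp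
  have e : ev A.2 (p + s • d) - ev A.2 (p + t • d) = lin A.2.1 d * (s - t) := by
    simp only [ev, lin, Prod.fst_add, Prod.snd_add, Prod.smul_fst, Prod.smul_snd, smul_eq_mul]
    ring
  rw [(hS A hA).2 _ hp, (hS A hA).2 _ hq, e, abs_mul, abs_of_nonneg hst]
  exact mul_le_mul_of_nonneg_right (hd A hA) hst

/-- the tent with kinks `t j * l` -/
noncomputable def tf (t s : ℕ → ℝ) (n : ℕ) (l X : ℝ) : ℝ :=
  ∑ j ∈ Finset.range n, (s (j + 1) - s j) * max 0 (X - t j * l)

theorem tf_eq {t s r : ℕ → ℝ} {n : ℕ} (s0 : s 0 = 0) (r0 : r 0 = 0)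
    (hr : ∀ j < n, r (j + 1) - r j = (s (j + 1) - s j) * t j) {j : ℕ} (hj : j ≤ n) {l X : ℝ}
    (h1 : ∀ i < j, t i * l ≤ X) (h2 : ∀ i, j ≤ i → i < n → X ≤ t i * l) :
    tf t s n l X = s j * X - r j * l := by
  rw [tf, ← Finset.sum_range_add_sum_Ico _ hj, Finset.sum_eq_zero (s := Finset.Ico j n), add_zero]
  · have : ∀ i ∈ Finset.range j, (s (i + 1) - s i) * max 0 (X - t i * l) =
        (s (i + 1) * X - r (i + 1) * l) - (s i * X - r i * l) := fun i hi => by
      have hi' := Finset.mem_range.1 hi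
      rw [max_eq_right (sub_nonneg.2 (h1 i hi'))]
      linear_combination l * hr i (hi'.trans_le hj)
    rw [Finset.sum_congr rfl this, Finset.sum_range_sub (fun i => s i * X - r i * l), s0, r0]
    ring
  · intro i hi
    obtain ⟨a, b⟩ := Finset.mem_Ico.1 hi
    rw [max_eq_left (sub_nonpos.2 (h2 i a b)), mul_zero]

theorem exists_region {t : ℕ → ℝ} (ht : Monotone t) (n : ℕ) {l : ℝ} (hl : 0 ≤ l) (X : ℝ) :
    ∃ j ≤ n, (∀ i < j, t i * l ≤ X) ∧ ∀ i, j ≤ i → i < n → X ≤ t i * l := by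
  classical
  have hex : ∃ j, j = n ∨ X ≤ t j * l := ⟨n, Or.inl rfl⟩
  refine ⟨Nat.find hex, Nat.find_min' hex (Or.inl rfl), fun i hi => ?_, fun i hi hn => ?_⟩
  · have := Nat.find_min hex hi
    push Not at this
    exact this.2.le
  · rcases Nat.find_spec hex with h | h
    · omega
    · exact h.trans (mul_le_mul_of_nonneg_right (ht hi) hl)

end Tent0

open Tent0 in
theorem tent0 {e η θ : ℝ} (he : 0 < e) (hη : 0 < η) (hη1 : η ≤ 1 / 4) (hθ : 0 < θ) (hθ1 : θ ≤ 1)
    (hθ2 : θ ≤ η * e / 4) : ∃ ϑ > 0, ∀ (m : ℕ) (b W : ℝ), 2 ≤ m → 0 < b → m * b ≤ ϑ * W →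
      ∃ Φ S Ls, Tent0 Φ e η θ W b m S Ls := by
  classical
  refine ⟨min (θ / (72 * e)) (θ / 144), by positivity, fun m b W hm hb hW => ?_⟩
  have hm' : (2 : ℝ) ≤ m := by exact_mod_cast hm
  have hmb : 0 < m * b := by positivity
  have hW0 : 0 < W := by
    by_contra h
    have : min (θ / (72 * e)) (θ / 144) * W ≤ 0 :=
      mul_nonpos_of_nonneg_of_nonpos (by positivity) (not_lt.1 h)
    linarith
  have hW1 : 72 * e * (m * b) ≤ θ * W := by
    have := hW.trans (mul_le_mul_of_nonneg_right (min_le_left _ _) hW0.le)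
    rw [div_mul_eq_mul_div, le_div_iff₀ (by positivity)] at this
    linarith
  have hW2 : 144 * (m * b) ≤ θ * W := by
    have := hW.trans (mul_le_mul_of_nonneg_right (min_le_right _ _) hW0.le)
    linarith
  have hW3 : 144 * (m * b) ≤ W := by nlinarith
  obtain ⟨t, s, r, htm, htb, s0, r0, sn, rn, hrec, hrb, hs, hlap⟩ := data he hη hη1 hb hm
  obtain ⟨Q, hQc, hQ, hQcov, hQe⟩ := strips hW0
  set n := 2 * m + 2 with hn
  let Φ : E → ℝ := fun z => tf t s n (lam W (z.1 + z.2)) z.1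
  have hΦc : Continuous Φ := by
    have := continuous_lam W
    simp only [Φ, tf]; fun_prop
  have hΦ : ∀ (z : E) (j : ℕ), j ≤ n → (∀ i < j, t i * lam W (z.1 + z.2) ≤ z.1) →
      (∀ i, j ≤ i → i < n → z.1 ≤ t i * lam W (z.1 + z.2)) →
      Φ z = s j * z.1 - r j * lam W (z.1 + z.2) :=
    fun z j hj h1 h2 => tf_eq s0 r0 hrec hj h1 h2
  have hneg : ∀ z : E, z.1 ≤ 0 → Φ z = 0 := fun z hz => by
    rw [hΦ z 0 (Nat.zero_le _) (fun i hi => absurd hi (Nat.not_lt_zero _))
      (fun i _ _ => hz.trans (mul_nonneg (htb i).1 lam_nonneg)), s0, r0]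
    ring
  have hpos : ∀ z : E, 9 * (m * b) * lam W (z.1 + z.2) ≤ z.1 → Φ z = 0 := fun z hz => by
    rw [hΦ z n le_rfl (fun i _ => (mul_le_mul_of_nonneg_right (htb i).2 lam_nonneg).trans hz)
      (fun i h1 h2 => absurd h2 (not_lt.2 h1)), sn, rn]
    ring
  have hout : ∀ z : E, W / 2 ≤ |z.1 + z.2| → Φ z = 0 := fun z hz => by
    rcases le_total z.1 0 with h | h
    · exact hneg z h
    · exact hpos z (by rw [lam_out hW0 hz, mul_zero]; exact h)
  have hfar : ∀ z : E, W / 4 ≤ |z.1| → Φ z = 0 := fun z hz => by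
    rcases le_total z.1 0 with h | h
    · exact hneg z h
    · rw [abs_of_nonneg h] at hz
      have := mul_le_mul_of_nonneg_left (lam_le_one (W := W) (σ := z.1 + z.2))
        (show 0 ≤ 9 * (m * b) by positivity)
      exact hpos z (by linarith)
  -- the cells
  let cell : (ℝ × ℝ × ℝ × ℝ) × ℕ → Set E × Af := fun a =>
    ({p | (a.1.1 ≤ p.1 + p.2 ∧ p.1 + p.2 ≤ a.1.2.1) ∧
      (∀ i < a.2, t i * (a.1.2.2.1 + a.1.2.2.2 * (p.1 + p.2)) ≤ p.1) ∧
      ∀ i, a.2 ≤ i → i < n → p.1 ≤ t i * (a.1.2.2.1 + a.1.2.2.2 * (p.1 + p.2))},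
      ((s a.2 - r a.2 * a.1.2.2.2, -(r a.2 * a.1.2.2.2)), -(r a.2 * a.1.2.2.1)))
  let S : Finset (Set E × Af) := insert ({p | p.1 + p.2 ≤ -(W / 2)}, 0)
    (insert ({p | W / 2 ≤ p.1 + p.2}, 0) ((Q ×ˢ Finset.range (n + 1)).image cell))
  have hsmall : ∀ (j : ℕ) (β : ℝ), |β| ≤ 4 / W → |r j * β| ≤ θ / 2 := fun j β hβ => by
    rw [abs_mul]
    refine (mul_le_mul (hrb j) hβ (abs_nonneg _) (by positivity)).trans ?_
    rw [← mul_div_assoc, div_le_iff₀ hW0]
    linarith
  have hηe : η * e ≤ e / 4 := by nlinarith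
  have hηe0 : 0 < η * e := by positivity
  have hcells : ∀ A ∈ S, Convex ℝ A.1 ∧ IsClosed A.1 ∧ (∀ p ∈ A.1, Φ p = ev A.2 p) ∧
      7 / 8 * (η * e) ≤ |e + A.2.1.1| ∧ -(9 / 8 * (η * e)) ≤ e + A.2.1.1 ∧ |A.2.1.1| ≤ 2 * e ∧
      |A.2.1.2| ≤ θ / 2 := by
    have hz : 7 / 8 * (η * e) ≤ |e + (0 : Af).1.1| ∧ -(9 / 8 * (η * e)) ≤ e + (0 : Af).1.1 ∧
        |(0 : Af).1.1| ≤ 2 * e ∧ |(0 : Af).1.2| ≤ θ / 2 := by
      simp only [Prod.fst_zero, Prod.snd_zero, add_zero, abs_zero, abs_of_pos he]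
      exact ⟨by linarith, by linarith, by linarith, by linarith⟩
    intro A hA
    rcases Finset.mem_insert.1 hA with rfl | hA
    · have hc : CC {p : E | p.1 + p.2 ≤ -(W / 2)} := cc_le (-1) (-1) (-(W / 2)) fun p => by ring
      refine ⟨hc.1, hc.2, fun p hp => ?_, hz⟩
      have hp' : p.1 + p.2 ≤ -(W / 2) := hp
      rw [hout p (by rw [abs_of_nonpos (by linarith)]; linarith)]
      simp [ev, lin]
    rcases Finset.mem_insert.1 hA with rfl | hA
    · have hc : CC {p : E | W / 2 ≤ p.1 + p.2} := cc_le 1 1 (-(W / 2)) fun p => by ring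
      refine ⟨hc.1, hc.2, fun p hp => ?_, hz⟩
      have hp' : W / 2 ≤ p.1 + p.2 := hp
      rw [hout p (hp'.trans (le_abs_self _))]
      simp [ev, lin]
    obtain ⟨⟨q, j⟩, ha, rfl⟩ := Finset.mem_image.1 hA
    obtain ⟨hq, hj⟩ := Finset.mem_product.1 ha
    have hj' : j ≤ n := Nat.lt_succ_iff.1 (Finset.mem_range.1 hj)
    have hc : CC (cell (q, j)).1 :=
      cc_and (cc_and (cc_le 1 1 (-q.1) fun p => by ring) (cc_le (-1) (-1) q.2.1 fun p => by ring))
        (cc_and (cc_all fun i => cc_all fun _ =>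
          cc_le (1 - t i * q.2.2.2) (-(t i * q.2.2.2)) (-(t i * q.2.2.1)) fun p => by ring)
        (cc_all fun i => cc_all fun _ => cc_all fun _ =>
          cc_le (t i * q.2.2.2 - 1) (t i * q.2.2.2) (t i * q.2.2.1) fun p => by ring))
    have hb := abs_le.1 (hsmall j _ (hQ q hq).1)
    refine ⟨hc.1, hc.2, fun p hp => ?_, ?_, ?_, ?_, ?_⟩
    · obtain ⟨⟨a1, a2⟩, a3, a4⟩ := hp
      have hl := (hQ q hq).2 _ a1 a2
      rw [hΦ p j hj' (by rw [hl]; exact a3) (by rw [hl]; exact a4), hl]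
      simp only [cell, ev, lin]; ring
    · simp only [cell]
      rcases hs j with h | h | h | h <;> rw [h, le_abs]
      · left; linarith
      · left; linarith
      · right; linarith
      · left; linarith
    · simp only [cell]
      rcases hs j with h | h | h | h <;> rw [h] <;> linarith
    · simp only [cell]
      rcases hs j with h | h | h | h <;> rw [h, abs_le] <;> constructor <;> linarith
    · simp only [cell, abs_neg]
      exact abs_le.2 hb
  have hcover : ∀ p : E, ∃ A ∈ S, p ∈ A.1 := fun p => by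
    rcases hQcov (p.1 + p.2) with h | h | ⟨q, hq, h1, h2⟩
    · exact ⟨_, Finset.mem_insert_self _ _, h⟩
    · exact ⟨_, Finset.mem_insert_of_mem (Finset.mem_insert_self _ _), h⟩
    · obtain ⟨j, hj, a1, a2⟩ := exists_region htm n (lam_nonneg (W := W) (σ := p.1 + p.2)) p.1
      rw [(hQ q hq).2 _ h1 h2] at a1 a2
      exact ⟨cell (q, j), Finset.mem_insert_of_mem (Finset.mem_insert_of_mem
        (Finset.mem_image_of_mem _ (Finset.mem_product.2
          ⟨hq, Finset.mem_range.2 (Nat.lt_succ_iff.2 hj)⟩))), ⟨h1, h2⟩, a1, a2⟩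
  have hlipx : ∀ x x' y : ℝ, |Φ (x, y) - Φ (x', y)| ≤ 2 * e * |x - x'| := fun x x' y => by
    have := lip_dir hΦc (fun A hA => ⟨(hcells A hA).2.1, (hcells A hA).2.2.1⟩) hcover (0, y) (1, 0)
      (c := 2 * e) (fun A hA => by simpa [lin] using (hcells A hA).2.2.2.2.2.1) x x'
    simpa using this
  have hlipy : ∀ x y y' : ℝ, |Φ (x, y) - Φ (x, y')| ≤ θ / 2 * |y - y'| := fun x y y' => by
    have := lip_dir hΦc (fun A hA => ⟨(hcells A hA).2.1, (hcells A hA).2.2.1⟩) hcover (x, 0) (0, 1)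
      (c := θ / 2) (fun A hA => by simpa [lin] using (hcells A hA).2.2.2.2.2.2) y y'
    simpa using this
  -- the lines
  let ln : (ℝ × ℝ × ℝ × ℝ) × ℕ → ℝ × ℝ := fun a =>
    (t a.2 * a.1.2.2.2 / (1 - t a.2 * a.1.2.2.2), t a.2 * a.1.2.2.1 / (1 - t a.2 * a.1.2.2.2))
  let Ls : Finset (ℝ × ℝ) :=
    (({-(W / 2), -(W / 4), W / 4, W / 2} : Finset ℝ).image fun c => (-1, c)) ∪
      (Q ×ˢ Finset.range n).image ln
  have htβ : ∀ (i : ℕ) (β : ℝ), |β| ≤ 4 / W → |t i * β| ≤ θ / 4 := fun i β hβ => by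
    rw [abs_mul, abs_of_nonneg (htb i).1]
    refine (mul_le_mul (htb i).2 hβ (abs_nonneg _) (by positivity)).trans ?_
    rw [← mul_div_assoc, div_le_iff₀ hW0]
    linarith
  refine ⟨Φ, S, Ls, fun z hz => ?_, fun z => ?_, hlipx, hlipy, ?_, hcells, hcover, ?_, ?_, ?_⟩
  · by_cases h1 : W / 2 ≤ |z.1 + z.2|
    · exact hout z h1
    by_cases h2 : W / 4 ≤ |z.1|
    · exact hfar z h2
    exfalso
    push Not at h1 h2
    have h3 : |z.2| ≤ |z.1 + z.2| + |z.1| := by
      simpa using abs_sub (z.1 + z.2) z.1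
    rw [Prod.norm_def, Real.norm_eq_abs, Real.norm_eq_abs, le_max_iff] at hz
    rcases hz with hz | hz <;> linarith
  · by_cases h2 : W / 4 ≤ |z.1|
    · rw [hfar z h2, abs_zero]; positivity
    · have h3 := hlipx z.1 0 z.2
      rw [hneg (0, z.2) le_rfl, sub_zero, sub_zero] at h3
      push Not at h2
      refine h3.trans ?_
      nlinarith
  · refine (Finset.card_insert_le _ _).trans ?_
    refine (Nat.succ_le_succ (Finset.card_insert_le _ _)).trans ?_
    have h1 := Finset.card_image_le (s := Q ×ˢ Finset.range (n + 1)) (f := cell)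
    rw [Finset.card_product, Finset.card_range] at h1
    have h2 := Nat.mul_le_mul_right (n + 1) hQc
    omega
  · intro l hl
    rcases Finset.mem_union.1 hl with h | h
    · obtain ⟨c, -, rfl⟩ := Finset.mem_image.1 h
      exact Or.inr rfl
    · obtain ⟨⟨q, i⟩, ha, rfl⟩ := Finset.mem_image.1 h
      have h1 := htβ i _ (hQ q (Finset.mem_product.1 ha).1).1
      have h2 := abs_le.1 h1
      left
      simp only [ln]
      rw [abs_div, abs_of_pos (show 0 < 1 - t i * q.2.2.2 by linarith),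
        div_le_iff₀ (by linarith)]
      nlinarith
  · intro p hp
    by_contra hcon
    push Not at hcon
    apply hp
    have hσ : ∀ c ∈ ({-(W / 2), -(W / 4), W / 4, W / 2} : Finset ℝ), p.1 + p.2 ≠ c :=
      fun c hc h => hcon (-1, c) (Finset.mem_union_left _ (Finset.mem_image_of_mem _ hc))
        (by simp only; linarith)
    have hcs : Continuous fun z : E => z.1 + z.2 := by fun_prop
    have hA : ∀ A ∈ S, A.1 ∈ 𝓝 p → ∃ g, Aff Φ p g := fun A hA h =>
      ⟨A.2, by filter_upwards [h] with z hz using (hcells A hA).2.2.1 z hz⟩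
    rcases hQcov (p.1 + p.2) with h | h | ⟨q, hq, h1, h2⟩
    · refine hA _ (Finset.mem_insert_self _ _) ?_
      exact hcs.continuousAt.eventually (eventually_le_nhds (lt_of_le_of_ne h (hσ _ (by simp))))
    · refine hA _ (Finset.mem_insert_of_mem (Finset.mem_insert_self _ _)) ?_
      exact hcs.continuousAt.eventually
        (eventually_ge_nhds (lt_of_le_of_ne h (hσ _ (by simp)).symm))
    · obtain ⟨j, hj, a1, a2⟩ := exists_region htm n (lam_nonneg (W := W) (σ := p.1 + p.2)) p.1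
      rw [(hQ q hq).2 _ h1 h2] at a1 a2
      have hne : ∀ i < n, t i * (q.2.2.1 + q.2.2.2 * (p.1 + p.2)) ≠ p.1 := fun i hi h => by
        have h3 := abs_le.1 (htβ i _ (hQ q hq).1)
        have h4 : 1 - t i * q.2.2.2 ≠ 0 := by linarith
        refine hcon (ln (q, i)) (Finset.mem_union_right _ (Finset.mem_image_of_mem _
          (Finset.mem_product.2 ⟨hq, Finset.mem_range.2 hi⟩))) ?_
        simp only [ln]
        field_simp
        linear_combination -h
      refine hA (cell (q, j)) (Finset.mem_insert_of_mem (Finset.mem_insert_of_mem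
        (Finset.mem_image_of_mem _ (Finset.mem_product.2
          ⟨hq, Finset.mem_range.2 (Nat.lt_succ_iff.2 hj)⟩)))) ?_
      have b1 := hcs.continuousAt.eventually
        (eventually_ge_nhds (lt_of_le_of_ne h1 (hσ _ (hQe q hq).1).symm))
      have b2 := hcs.continuousAt.eventually
        (eventually_le_nhds (lt_of_le_of_ne h2 (hσ _ (hQe q hq).2)))
      have hu : ∀ i, Continuous fun z : E => t i * (q.2.2.1 + q.2.2.2 * (z.1 + z.2)) :=
        fun i => by fun_prop
      have b3 : ∀ᶠ z in 𝓝 p, ∀ i ∈ Finset.range j,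
          t i * (q.2.2.1 + q.2.2.2 * (z.1 + z.2)) < z.1 :=
        (eventually_all_finset _).2 fun i hi =>
          (hu i).continuousAt.eventually_lt continuous_fst.continuousAt
            (lt_of_le_of_ne (a1 i (Finset.mem_range.1 hi))
              (hne i ((Finset.mem_range.1 hi).trans_le hj)))
      have b4 : ∀ᶠ z in 𝓝 p, ∀ i ∈ Finset.Ico j n,
          z.1 < t i * (q.2.2.1 + q.2.2.2 * (z.1 + z.2)) :=
        (eventually_all_finset _).2 fun i hi =>
          continuous_fst.continuousAt.eventually_lt (hu i).continuousAt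
            (lt_of_le_of_ne (a2 i (Finset.mem_Ico.1 hi).1 (Finset.mem_Ico.1 hi).2)
              (hne i (Finset.mem_Ico.1 hi).2).symm)
      filter_upwards [b1, b2, b3, b4] with z c1 c2 c3 c4
      exact ⟨⟨c1, c2⟩, fun i hi => (c3 i (Finset.mem_range.2 hi)).le,
        fun i hi hi' => (c4 i (Finset.mem_Ico.2 ⟨hi, hi'⟩)).le⟩
  · intro k hk z hz1 hz2
    obtain ⟨t1, t2, e1, e2⟩ := hlap k hk
    obtain ⟨a1, a2⟩ := abs_le.1 hz1
    have a3 := abs_le.1 hz2
    have b1 := htb (2 * k + 1)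
    have b2 := htb (2 * k + 2)
    have hl : lam W (z.1 + z.2) = 1 := lam_mid hW0 (abs_le.2 ⟨by linarith, by linarith⟩)
    rw [hΦ z (2 * k + 2) (by omega) (fun i hi => ?_) (fun i hi _ => ?_), hl, e1, e2, mul_one]
    · rw [hl, mul_one]
      have := htm (show i ≤ 2 * k + 1 by omega)
      linarith
    · rw [hl, mul_one]
      have := htm hi
      linarith

end Pool.Agent.MP_369096_an.H89
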