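import Pool.Agent.MP_369096_an.H89.BasB
import Pool.Agent.MP_369096_an.H89.NTb

/-!
TASK Tent1. A periodic sum of tents, deformed to be generic. Auxiliary lemmas: namespace `H89.Tent1`.

For parameters `(a,t)` near `(1,1)` put `z' = z - (round z.1, round z.2)` and
`Ψ z = a t ∑_{P ∈ Ps} Φ (x0 + (z'.1 - x0)/t - P.1, z'.2 - P.2)`. For `t` close to `1` the term of `P` vanishes unless `‖z' - P‖ < W`
(even `≤ 7W/8`). So on `closedBall (P + iv k) r` only the term of `P` is present and `round = k`; near every point outside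
the closed boxes `Ψ = 0`. Cells: preimages of the cells of `Φ` under the affine bijection, cut with the ball; drop those with empty interior
(`cover_interior`). Their affine functions are `dfm a t i g0` (`ev_dfm`) with `g0` in the countable set `G0` of translates
`z ↦ ev A.2 (z - P - (0,j))`, or `0`. Edges: for `P ∈ Ps`, `l ∈ Ls` the direction `(t l.1, 1)` and the set
`{p | ‖p - P‖ ≤ W ∧ x0 + (p.1 - x0)/t - P.1 - l.1 (p.2 - P.2) = l.2}`; `L0` is the set of the pairs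
`(l.1, l.2 + P.1 - l.1 (P.2 + j))`. `κ = a e (η - 1)`, and the lap centres
`(a t e η ξ_k - κ (1 - t)(P.1 - x0)) / (e + κ)` tend to `ξ_k = (η + 4k + 3) b`. All smallness conditions hold eventually as
`(a,t) → (1,1)` (finitely many `P`, `k`) or for explicit bounds; pick `a`, then `t`, with `gen_Z` and `exists_notMem_Ioo`.
Global Lipschitz bounds: `lip_of_right` (locally `Ψ` is zero or one tent; `Ψ` is continuous for the same reason).
Germs of `Ψ`: `germ_complete` with the translated cells, `Aff.unique` outside the boxes.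
-/

set_option autoImplicit false

open Set Filter Topology

namespace Pool.Agent.MP_369096_an.H89

namespace Tent1

/-- the affine change of coordinates -/
noncomputable def tau (t : ℝ) (P : E) (k : ℤ × ℤ) (z : E) : E :=
  (x0 + (z.1 - k.1 - x0) / t - P.1, z.2 - k.2 - P.2)

/-- the nearest lattice point -/
noncomputable def rd (z : E) : ℤ × ℤ := (round z.1, round z.2)

/-- the periodic sum -/
noncomputable def Psi (Φ : E → ℝ) (a t : ℝ) (F : Finset E) (z : E) : ℝ :=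
  a * t * ∑ P ∈ F, Φ (tau t P (rd z) z)

/-- translated affine functions -/
def tr (g : Af) (P : E) (j : ℤ) : Af := (g.1, g.2 - lin g.1 (P.1, P.2 + j))

/-- the edges -/
noncomputable def edge (t W : ℝ) (x : E × (ℝ × ℝ)) : E × Set E :=
  ((t * x.2.1, 1), {p | ‖p - x.1‖ ≤ W ∧ (tau t x.1 0 p).1 - x.2.1 * (tau t x.1 0 p).2 = x.2.2})

theorem ev_tr {t : ℝ} (ht : t ≠ 0) (a : ℝ) (k : ℤ × ℤ) (g : Af) (P z : E) :
    ev (dfm a t k.1 (tr g P k.2)) z = a * t * ev g (tau t P k z) := by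
  rw [ev_dfm ht]
  simp only [ev, lin, tr, tau]
  ring

theorem x0_bd : 1 ≤ x0 ∧ x0 ≤ 3 / 2 := by
  refine ⟨Real.one_le_sqrt.2 one_le_two, ?_⟩
  rw [x0, Real.sqrt_le_left (by norm_num)]
  norm_num

theorem cont_tau (t : ℝ) (P : E) (k : ℤ × ℤ) : Continuous (tau t P k) := by
  unfold tau
  fun_prop

theorem tau_sub (t : ℝ) (P : E) (k : ℤ × ℤ) (z : E) : tau t P 0 (z - iv k) = tau t P k z := by
  simp [tau, iv]

theorem tau_comb (t : ℝ) (P : E) (k : ℤ × ℤ) (x y : E) {α β : ℝ} (h : α + β = 1) :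
    tau t P k (α • x + β • y) = α • tau t P k x + β • tau t P k y := by
  obtain rfl : β = 1 - α := by linarith
  ext <;> simp [tau] <;> ring

theorem tau_fst {t s : ℝ} (h1 : 1 ≤ t) (h2 : t ≤ 1 + s) (P : E) {k : ℤ × ℤ} {z : E}
    (hz : |z.1 - k.1| ≤ 1 / 2) : |(tau t P k z).1 - (z.1 - k.1 - P.1)| ≤ 2 * s := by
  have ht : 0 < t := by linarith
  have e : (tau t P k z).1 - (z.1 - k.1 - P.1) = (x0 - (z.1 - k.1)) * ((t - 1) / t) := by
    simp only [tau]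
    field_simp
    ring
  have h3 := abs_le.1 hz
  have h4 : |x0 - (z.1 - k.1)| ≤ 2 :=
    abs_le.2 ⟨by linarith [x0_bd.1], by linarith [x0_bd.2]⟩
  have h5 : 0 ≤ (t - 1) / t := div_nonneg (by linarith) ht.le
  have h6 : (t - 1) / t ≤ s := by
    rw [div_le_iff₀ ht]
    nlinarith
  rw [e, abs_mul, abs_of_nonneg h5]
  exact mul_le_mul h4 h6 h5 (by norm_num)

theorem tau_near {t s : ℝ} (h1 : 1 ≤ t) (h2 : t ≤ 1 + s) (P : E) {k : ℤ × ℤ} {z : E}
    (hz : |z.1 - k.1| ≤ 1 / 2) : ‖z - iv k - P - tau t P k z‖ ≤ 2 * s := by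
  have h3 := tau_fst h1 h2 P hz
  rw [Prod.norm_def, max_le_iff]
  refine ⟨?_, ?_⟩
  · rw [abs_sub_comm] at h3
    exact h3
  · simp only [tau, iv, Prod.snd_sub, sub_self, norm_zero]
    linarith

theorem round_eq' {x : ℝ} {k : ℤ} (h : |x - k| < 1 / 2) : round x = k := by
  have h1 := abs_lt.1 h
  have h2 : round (x - k) = 0 := round_eq_zero_iff.2 ⟨h1.1.le, h1.2⟩
  rw [round_sub_intCast] at h2
  omega

theorem rd_eq {z : E} {k : ℤ × ℤ} (h : ‖z - iv k‖ < 1 / 2) : rd z = k :=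
  Prod.ext (round_eq' ((norm_fst_le (z - iv k)).trans_lt h))
    (round_eq' ((norm_snd_le (z - iv k)).trans_lt h))

theorem psi_per (Φ : E → ℝ) (a t : ℝ) (F : Finset E) (z : E) (k : ℤ × ℤ) :
    Psi Φ a t F (z + iv k) = Psi Φ a t F z := by
  have e : ∀ P, tau t P (rd (z + iv k)) (z + iv k) = tau t P (rd z) z := by
    intro P
    ext <;> simp [tau, rd, iv, round_add_intCast]
  simp only [Psi, e]

/-- the bounds that hold locally and globally -/
structure Nice (G : E → ℝ) (B c d : ℝ) : Prop where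
  cont : Continuous G
  bd : ∀ z, |G z| ≤ B
  lipx : ∀ x x' y : ℝ, |G (x, y) - G (x', y)| ≤ c * |x - x'|
  lipy : ∀ x y y' : ℝ, |G (x, y) - G (x, y')| ≤ d * |y - y'|

theorem ball_nhds {ε : ℝ} (hε : 0 < ε) (p : E) : ∀ᶠ z in 𝓝 p, ‖z - p‖ ≤ ε := by
  filter_upwards [Metric.closedBall_mem_nhds p hε] with z hz
  rwa [Metric.mem_closedBall, dist_eq_norm] at hz

theorem nice_of_local {G : E → ℝ} {B c d : ℝ}
    (h : ∀ p, ∃ ε > 0, ∃ G', Nice G' B c d ∧ ∀ z, ‖z - p‖ ≤ ε → G z = G' z) : Nice G B c d := by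
  have hc : Continuous G := continuous_iff_continuousAt.2 fun p => by
    obtain ⟨ε, hε, G', hG, he⟩ := h p
    exact hG.cont.continuousAt.congr ((ball_nhds hε p).mono fun z hz => (he z hz).symm)
  refine ⟨hc, fun p => ?_, fun x x' y => ?_, fun x y y' => ?_⟩
  · obtain ⟨ε, hε, G', hG, he⟩ := h p
    rw [he p (by simpa using hε.le)]
    exact hG.bd p
  · refine lip_of_right (φ := fun x => G (x, y)) (by fun_prop) (fun u => ?_) x x'
    obtain ⟨ε, hε, G', hG, he⟩ := h (u, y)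
    refine ⟨ε, hε, fun v hv => ?_⟩
    have h1 : |v - u| = v - u := abs_of_nonneg (sub_nonneg.2 hv.1)
    rw [he (u, y) (by simpa using hε.le), he (v, y) (by
      simp only [Prod.mk_sub_mk, sub_self, Prod.norm_mk, norm_zero, Real.norm_eq_abs, h1,
        max_le_iff]
      exact ⟨by linarith [hv.2], hε.le⟩), ← h1]
    exact hG.lipx v u y
  · refine lip_of_right (φ := fun y => G (x, y)) (by fun_prop) (fun u => ?_) y y'
    obtain ⟨ε, hε, G', hG, he⟩ := h (x, u)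
    refine ⟨ε, hε, fun v hv => ?_⟩
    have h1 : |v - u| = v - u := abs_of_nonneg (sub_nonneg.2 hv.1)
    rw [he (x, u) (by simpa using hε.le), he (x, v) (by
      simp only [Prod.mk_sub_mk, sub_self, Prod.norm_mk, norm_zero, Real.norm_eq_abs, h1,
        max_le_iff]
      exact ⟨hε.le, by linarith [hv.2]⟩), ← h1]
    exact hG.lipy x v u

theorem cont_of_lip {G : E → ℝ} {c d : ℝ} (hc : 0 ≤ c) (hd : 0 ≤ d)
    (hx : ∀ x x' y : ℝ, |G (x, y) - G (x', y)| ≤ c * |x - x'|)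
    (hy : ∀ x y y' : ℝ, |G (x, y) - G (x, y')| ≤ d * |y - y'|) : Continuous G := by
  refine (LipschitzWith.of_dist_le_mul (K := ⟨c + d, by positivity⟩) fun p q => ?_).continuous
  have h1 := hx p.1 q.1 p.2
  have h2 := hy q.1 p.2 q.2
  have h3 : |p.1 - q.1| ≤ ‖p - q‖ := norm_fst_le (p - q)
  have h4 : |p.2 - q.2| ≤ ‖p - q‖ := norm_snd_le (p - q)
  have h5 := abs_sub_le (G (p.1, p.2)) (G (q.1, p.2)) (G (q.1, q.2))
  rw [Real.dist_eq, dist_eq_norm]
  change |G (p.1, p.2) - G (q.1, q.2)| ≤ (c + d) * _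
  nlinarith

/-- all hypotheses -/
structure Ctx (Φ : E → ℝ) (e η θ W b r : ℝ) (m : ℕ) (S : Finset (Set E × Af))
    (Ls : Finset (ℝ × ℝ)) (F : Finset E) (a t s : ℝ) : Prop where
  h : Tent0 Φ e η θ W b m S Ls
  he : 0 < e
  hη : 0 < η
  hη1 : η ≤ 1 / 4
  hθ : 0 < θ
  hb : 0 < b
  hm : 1 ≤ m
  hW : 10 * m * b ≤ W
  hr : W < r
  hr1 : r ≤ 1 / 10
  hP : ∀ P ∈ F, ‖P‖ ≤ 1 / 20
  hsep : ∀ P ∈ F, ∀ P' ∈ F, P ≠ P' → r + W < ‖P - P'‖
  a1 : 1 ≤ a
  a2 : a ≤ 1 + s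
  t1 : 1 ≤ t
  t2 : t ≤ 1 + s
  s1 : s ≤ θ
  s2 : s ≤ η * b / 40

variable {Φ : E → ℝ} {e η θ W b r : ℝ} {m : ℕ} {S : Finset (Set E × Af)} {Ls : Finset (ℝ × ℝ)}
  {F : Finset E} {a t s : ℝ}

theorem Ctx.bm (c : Ctx Φ e η θ W b r m S Ls F a t s) : b ≤ m * b := by
  have : (1 : ℝ) ≤ m := by exact_mod_cast c.hm
  nlinarith [c.hb]

theorem Ctx.sb (c : Ctx Φ e η θ W b r m S Ls F a t s) : s ≤ b / 160 := by
  nlinarith [c.s2, c.hη1, c.hb]

theorem Ctx.sη (c : Ctx Φ e η θ W b r m S Ls F a t s) : s ≤ η / 16 := by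
  have : b ≤ 1 / 100 := by linarith [c.bm, c.hW, c.hr, c.hr1]
  nlinarith [c.s2, c.hη]

theorem Ctx.Wpos (c : Ctx Φ e η θ W b r m S Ls F a t s) : 0 < W := by
  linarith [c.bm, c.hW, c.hb]

theorem Ctx.tpos (c : Ctx Φ e η θ W b r m S Ls F a t s) : 0 < t := by linarith [c.t1]

theorem Ctx.at2 (c : Ctx Φ e η θ W b r m S Ls F a t s) : 0 < a * t ∧ a * t ≤ 2 := by
  have h1 := c.sη
  have h2 := c.hη1
  have h3 := c.a1
  have h4 := c.t1
  refine ⟨by positivity, ?_⟩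
  nlinarith [c.a2, c.t2]

theorem Ctx.van (c : Ctx Φ e η θ W b r m S Ls F a t s) {P z : E} {k : ℤ × ℤ}
    (hz : |z.1 - k.1| ≤ 1 / 2) (hP : 7 / 8 * W ≤ ‖z - iv k - P‖) : Φ (tau t P k z) = 0 := by
  refine c.h.off _ ?_
  have h1 := tau_near c.t1 c.t2 P hz
  have h2 := norm_sub_norm_le (z - iv k - P) (tau t P k z)
  linarith [c.sb, c.bm, c.hW, c.hb]

theorem Ctx.loc (c : Ctx Φ e η θ W b r m S Ls F a t s) {P z : E} {k : ℤ × ℤ} (hP : P ∈ F)
    (hz : ‖z - iv k - P‖ ≤ r) : Psi Φ a t F z = a * t * Φ (tau t P k z) := by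
  have h1 : ‖z - iv k‖ < 1 / 2 := by
    have := norm_sub_norm_le (z - iv k) P
    linarith [c.hP P hP, c.hr1]
  rw [Psi, rd_eq h1, Finset.sum_eq_single_of_mem P hP fun P' hP' hne => ?_]
  refine c.van ((norm_fst_le (z - iv k)).trans h1.le) ?_
  have h2 := c.hsep P' hP' P hP hne
  have h3 := norm_sub_le_norm_sub_add_norm_sub P' (z - iv k) P
  rw [norm_sub_rev P' (z - iv k)] at h3
  linarith [c.Wpos]

theorem Ctx.zero (c : Ctx Φ e η θ W b r m S Ls F a t s) {z : E}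
    (hz : ∀ P ∈ F, ∀ k, 7 / 8 * W ≤ ‖z - iv k - P‖) : Psi Φ a t F z = 0 := by
  rw [Psi, Finset.sum_eq_zero fun P hP => c.van (abs_sub_round z.1) (hz P hP _), mul_zero]

theorem Ctx.loc' (c : Ctx Φ e η θ W b r m S Ls F a t s) {P p : E} {k : ℤ × ℤ} (hP : P ∈ F)
    (hp : ‖p - iv k - P‖ ≤ W) (z : E) (hz : ‖z - p‖ ≤ r - W) :
    Psi Φ a t F z = a * t * Φ (tau t P k z) := by
  refine c.loc hP ?_
  have h1 := norm_add_le (z - p) (p - iv k - P)
  rw [show z - p + (p - iv k - P) = z - iv k - P by abel] at h1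
  linarith

theorem Ctx.dich (c : Ctx Φ e η θ W b r m S Ls F a t s) (p : E) :
    (∃ P ∈ F, ∃ k, ‖p - iv k - P‖ ≤ W) ∨ ∀ z, ‖z - p‖ ≤ W / 8 → Psi Φ a t F z = 0 := by
  by_cases h : ∃ P ∈ F, ∃ k, ‖p - iv k - P‖ ≤ W
  · exact Or.inl h
  push Not at h
  refine Or.inr fun z hz => c.zero fun P hP k => ?_
  have h1 := norm_add_le (p - z) (z - iv k - P)
  rw [show p - z + (z - iv k - P) = p - iv k - P by abel, norm_sub_rev p z] at h1
  linarith [h P hP k]

theorem Ctx.aff0 (c : Ctx Φ e η θ W b r m S Ls F a t s) {p : E}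
    (h : ∀ z, ‖z - p‖ ≤ W / 8 → Psi Φ a t F z = 0) : Aff (Psi Φ a t F) p 0 :=
  (ball_nhds (ε := W / 8) (by linarith [c.Wpos]) p).mono fun z hz => by
    rw [h z hz]
    simp [ev, lin]

theorem Ctx.nice1 (c : Ctx Φ e η θ W b r m S Ls F a t s) (P : E) (k : ℤ × ℤ) :
    Nice (fun z => a * t * Φ (tau t P k z)) (4 * e * W) (3 * e) θ := by
  have he := c.he
  have hθ := c.hθ
  have ht := c.tpos
  obtain ⟨h1, h2⟩ := c.at2
  have hc : Continuous Φ := cont_of_lip (by positivity) (by positivity) c.h.lipx c.h.lipy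
  refine ⟨continuous_const.mul (hc.comp (cont_tau t P k)), fun z => ?_, fun x x' y => ?_,
    fun x y y' => ?_⟩
  · rw [abs_mul, abs_of_pos h1]
    have h3 := c.h.bd (tau t P k z)
    nlinarith [abs_nonneg (Φ (tau t P k z))]
  · rw [← mul_sub, abs_mul, abs_of_pos h1]
    have h3 := c.h.lipx (x0 + (x - k.1 - x0) / t - P.1) (x0 + (x' - k.1 - x0) / t - P.1)
      (y - k.2 - P.2)
    rw [show x0 + (x - k.1 - x0) / t - P.1 - (x0 + (x' - k.1 - x0) / t - P.1) = (x - x') / t by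
      ring, abs_div, abs_of_pos ht] at h3
    refine (mul_le_mul_of_nonneg_left h3 h1.le).trans ?_
    rw [show a * t * (2 * e * (|x - x'| / t)) = 2 * a * (e * |x - x'|) by field_simp, mul_assoc 3]
    exact mul_le_mul_of_nonneg_right (by linarith [c.a2, c.sη, c.hη1]) (by positivity)
  · rw [← mul_sub, abs_mul, abs_of_pos h1]
    have h3 := c.h.lipy (x0 + (x - k.1 - x0) / t - P.1) (y - k.2 - P.2) (y' - k.2 - P.2)
    rw [show y - k.2 - P.2 - (y' - k.2 - P.2) = y - y' by ring] at h3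
    refine (mul_le_mul_of_nonneg_left h3 h1.le).trans ?_
    nlinarith [mul_nonneg hθ.le (abs_nonneg (y - y'))]

theorem Ctx.nice (c : Ctx Φ e η θ W b r m S Ls F a t s) :
    Nice (Psi Φ a t F) (4 * e * W) (3 * e) θ := by
  have he := c.he
  have hθ := c.hθ
  have hW := c.Wpos
  refine nice_of_local fun p => ?_
  rcases c.dich p with ⟨P, hP, k, hp⟩ | h
  · exact ⟨r - W, sub_pos.2 c.hr, _, c.nice1 P k, c.loc' hP hp⟩
  · refine ⟨W / 8, by positivity, fun _ => 0, ⟨continuous_const, fun _ => ?_, fun _ _ _ => ?_,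
      fun _ _ _ => ?_⟩, h⟩
    all_goals
      simp only [sub_self, abs_zero]
      positivity

theorem Ctx.grad (c : Ctx Φ e η θ W b r m S Ls F a t s) {B : Set E × Af} (hB : B ∈ S) :
    GradOK e η θ (a * B.2.1.1, a * t * B.2.1.2) := by
  obtain ⟨-, -, -, h1, h2, h3, h4⟩ := c.h.cells B hB
  have he := c.he
  have hη := c.hη
  have ha1 := c.a1
  obtain ⟨h5, h6⟩ := c.at2
  have h7 : |(a - 1) * B.2.1.1| ≤ η * e / 8 := by
    rw [abs_mul, abs_of_nonneg (sub_nonneg.2 ha1)]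
    refine (mul_le_mul (show a - 1 ≤ η / 16 by linarith [c.a2, c.sη]) h3 (abs_nonneg _)
      (by positivity)).trans (le_of_eq (by ring))
  have h8 := abs_add_le (e + a * B.2.1.1) (-((a - 1) * B.2.1.1))
  rw [abs_neg, show e + a * B.2.1.1 + -((a - 1) * B.2.1.1) = e + B.2.1.1 by ring] at h8
  have h9 := (abs_le.1 h7).1
  have h10 : 0 < η * e := by positivity
  refine ⟨by dsimp only; linarith, by dsimp only; linarith, ?_, ?_⟩
  · rw [abs_mul, abs_of_pos (by linarith : 0 < a)]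
    refine (mul_le_mul (show a ≤ 3 / 2 by linarith [c.a2, c.sη, c.hη1]) h3 (abs_nonneg _)
      (by positivity)).trans (le_of_eq (by ring))
  · rw [abs_mul, abs_of_pos h5]
    exact (mul_le_mul h6 h4 (abs_nonneg _) (by positivity)).trans (le_of_eq (by ring))

theorem Ctx.cells (c : Ctx Φ e η θ W b r m S Ls F a t s) {P : E} (hP : P ∈ F) (k : ℤ × ℤ) :
    ∃ S' : Finset (Set E × Af), S'.card ≤ 16 * m ∧
      (∀ A ∈ S', (Convex ℝ A.1 ∧ IsClosed A.1 ∧ (interior A.1).Nonempty ∧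
        (∀ p ∈ A.1, ‖p - (P + iv k)‖ ≤ r ∧ Psi Φ a t F p = ev A.2 p) ∧ GradOK e η θ A.2.1) ∧
        ∃ B ∈ S, A.2 = dfm a t k.1 (tr B.2 P k.2)) ∧
      ∀ p : E, ‖p - (P + iv k)‖ ≤ r → ∃ A ∈ S', p ∈ A.1 := by
  classical
  let cell : Set E × Af → Set E := fun B => tau t P k ⁻¹' B.1 ∩ Metric.closedBall (P + iv k) r
  have hcl : ∀ B ∈ S, IsClosed (cell B) := fun B hB =>
    ((c.h.cells B hB).2.1.preimage (cont_tau t P k)).inter Metric.isClosed_closedBall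
  refine ⟨(S.filter fun B => (interior (cell B)).Nonempty).image
    fun B => (cell B, dfm a t k.1 (tr B.2 P k.2)), ?_, fun A hA => ?_, fun p hp => ?_⟩
  · exact Finset.card_image_le.trans ((Finset.card_filter_le _ _).trans c.h.card)
  · obtain ⟨B, hB, rfl⟩ := Finset.mem_image.1 hA
    obtain ⟨hB, hi⟩ := Finset.mem_filter.1 hB
    refine ⟨⟨Convex.inter ?_ (convex_closedBall _ _), hcl B hB, hi, fun p hp => ?_, c.grad hB⟩,
      B, hB, rfl⟩
    · intro x hx y hy α β hα hβ hs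
      rw [mem_preimage, tau_comb t P k x y hs]
      exact (c.h.cells B hB).1 hx hy hα hβ hs
    · have h1 : ‖p - (P + iv k)‖ ≤ r := by
        rw [← dist_eq_norm]
        exact hp.2
      refine ⟨h1, ?_⟩
      rw [ev_tr c.tpos.ne', c.loc hP (k := k) (by rwa [sub_sub, add_comm]),
        (c.h.cells B hB).2.2.1 _ hp.1]
  · obtain ⟨B, hB, h1, h2⟩ := cover_interior S cell hcl (z := P + iv k)
      (c.Wpos.trans c.hr) (fun q hq => by
        obtain ⟨B, hB, h1⟩ := c.h.cover (tau t P k q)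
        exact ⟨B, hB, h1, by rwa [Metric.mem_closedBall, dist_eq_norm]⟩) p hp
    exact ⟨_, Finset.mem_image.2 ⟨B, Finset.mem_filter.2 ⟨hB, h2⟩, rfl⟩, h1⟩

theorem Ctx.germ (c : Ctx Φ e η θ W b r m S Ls F a t s) {p : E} {g : Af}
    (hg : Germ (Psi Φ a t F) p g) :
    g = 0 ∨ ∃ B ∈ S, ∃ P ∈ F, ∃ k : ℤ × ℤ, g = dfm a t k.1 (tr B.2 P k.2) := by
  rcases c.dich p with ⟨P, hP, k, hp⟩ | h
  · obtain ⟨S', -, h1, h2⟩ := c.cells hP k
    obtain ⟨A, hA, -, rfl⟩ := germ_complete (S := S')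
      (fun A hA => ⟨(h1 A hA).1.2.1, germ_of_convex (h1 A hA).1.1 (h1 A hA).1.2.2.1
        fun q hq => ((h1 A hA).1.2.2.2.1 q hq).2⟩) h2 (p := p)
      (by rw [add_comm, ← sub_sub]; exact hp.trans_lt c.hr) hg
    obtain ⟨B, hB, h3⟩ := (h1 A hA).2
    exact Or.inr ⟨B, hB, P, hP, k, h3⟩
  · exact Or.inl ((c.aff0 h).unique hg)

theorem Ctx.sing (c : Ctx Φ e η θ W b r m S Ls F a t s) {p : E} (hp : p ∈ Sing (Psi Φ a t F)) :
    ∃ d ∈ edge t W '' ((F : Set E) ×ˢ (Ls : Set (ℝ × ℝ))), ∃ k, p - iv k ∈ d.2 := by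
  rcases c.dich p with ⟨P, hP, k, h⟩ | h
  · have h1 : tau t P k p ∈ Sing Φ := by
      rintro ⟨g, hg⟩
      refine hp ⟨dfm a t k.1 (tr g P k.2), ?_⟩
      filter_upwards [((cont_tau t P k).tendsto p).eventually hg,
        ball_nhds (sub_pos.2 c.hr) p] with z hz1 hz2
      rw [ev_tr c.tpos.ne', c.loc' hP h z hz2, hz1]
    obtain ⟨l, hl, h2⟩ := c.h.lcov _ h1
    refine ⟨_, ⟨(P, l), ⟨hP, hl⟩, rfl⟩, k, h, ?_⟩
    rwa [tau_sub]
  · exact absurd ⟨_, c.aff0 h⟩ hp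

theorem Ctx.edges (c : Ctx Φ e η θ W b r m S Ls F a t s) :
    ∀ d ∈ edge t W '' ((F : Set E) ×ˢ (Ls : Set (ℝ × ℝ))),
      d.1.2 = 1 ∧ (|d.1.1| ≤ θ ∨ |d.1.1 + 1| ≤ θ) ∧ IsCompact d.2 ∧
      (∀ p ∈ d.2, ∀ q ∈ d.2, dt d.1 (p - q) = 0) ∧ ∃ P ∈ (F : Set E), ∀ p ∈ d.2, ‖p - P‖ ≤ W := by
  rintro _ ⟨⟨P, l⟩, ⟨hP, hl⟩, rfl⟩
  have ht := c.tpos
  refine ⟨rfl, ?_, ?_, fun p hp q hq => ?_, P, hP, fun p hp => hp.1⟩
  · refine (c.h.ldir l hl).imp (fun h => ?_) fun h => ?_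
    · change |t * l.1| ≤ θ
      rw [abs_mul, abs_of_pos ht]
      exact (mul_le_mul (show t ≤ 2 by linarith [c.t2, c.sη, c.hη1]) h (abs_nonneg _)
        (by norm_num)).trans (le_of_eq (by ring))
    · change |t * l.1 + 1| ≤ θ
      rw [h, abs_of_nonpos (by linarith [c.t1])]
      linarith [c.t2, c.s1]
  · refine (isCompact_closedBall P W).of_isClosed_subset ?_ fun p hp => ?_
    · have := cont_tau t P 0
      exact (isClosed_le (f := fun p : E => ‖p - P‖) (by fun_prop) continuous_const).inter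
        (isClosed_eq (f := fun p : E => (tau t P 0 p).1 - l.1 * (tau t P 0 p).2) (by fun_prop)
          continuous_const)
    · rw [Metric.mem_closedBall, dist_eq_norm]
      exact hp.1
  · have h1 := hp.2
    have h2 := hq.2
    simp only [tau] at h1 h2
    simp only [dt, edge, Prod.fst_sub, Prod.snd_sub]
    have h3 := congrArg (fun x => t * x) (h1.trans h2.symm)
    field_simp at h3
    linear_combination -h3

theorem line_eq {t W : ℝ} (ht : t ≠ 0) {P p : E} {l : ℝ × ℝ} (hp : p ∈ (edge t W (P, l)).2)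
    (k : ℤ × ℤ) : lineAt (t * l.1) (p + iv k) =
      lineAt (t * l.1) (k.1 + x0 + t * (l.2 + P.1 - l.1 * (P.2 + k.2) - x0), 0) := by
  have h1 := hp.2
  simp only [tau, Prod.fst_zero, Prod.snd_zero, Int.cast_zero, sub_zero] at h1
  field_simp at h1
  simp only [lineAt, iv, Prod.fst_add, Prod.snd_add, Prod.mk.injEq, true_and]
  linear_combination -h1

theorem Ctx.slope (c : Ctx Φ e η θ W b r m S Ls F a t s) :
    η / 2 ≤ 1 + a * (η - 1) ∧ 1 + a * (η - 1) ≤ η := by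
  have h1 := c.sη
  constructor <;> nlinarith [c.a1, c.a2, c.hη, c.hη1]

theorem Ctx.laps (c : Ctx Φ e η θ W b r m S Ls F a t s) :
    Laps (fun _ => 0) (Psi Φ a t F) F e W b (a * e * (η - 1)) m := by
  intro P hP
  have he := c.he
  have hη := c.hη
  have hb := c.hb
  have ht := c.tpos
  have hbm := c.bm
  have hsb := c.sb
  obtain ⟨hD, hD'⟩ := c.slope
  have hD0 : 0 < 1 + a * (η - 1) := by linarith
  have hP1 : |P.1| ≤ 1 / 20 := (norm_fst_le P).trans (c.hP P hP)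
  let ξ : ℕ → ℝ := fun k =>
    (a * t * η * ((η + 4 * k + 3) * b) - a * (η - 1) * (t - 1) * (x0 - P.1)) / (1 + a * (η - 1))
  have hc : ∀ k < m, 0 ≤ (η + 4 * k + 3) * b ∧ (η + 4 * k + 3) * b ≤ 4 * (m * b) := by
    intro k hk
    have h1 : (k : ℝ) + 1 ≤ m := by exact_mod_cast hk
    exact ⟨by positivity, by nlinarith [c.hη1]⟩
  have near : ∀ k < m, |ξ k - (η + 4 * k + 3) * b| ≤ b / 4 := by
    intro k hk
    obtain ⟨h1, h2⟩ := hc k hk
    simp only [ξ]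
    generalize (η + 4 * k + 3) * b = γ at h1 h2
    have h3 : γ ≤ 1 / 25 := by linarith [c.hW, c.hr, c.hr1]
    have hs : 0 ≤ s := by linarith [c.a1, c.a2]
    have ha : a ≤ 5 / 4 := by linarith [c.a2, c.sη, c.hη1]
    have e1 : (a * t * η * γ - a * (η - 1) * (t - 1) * (x0 - P.1)) / (1 + a * (η - 1)) - γ =
        (a * (t - 1) * (η * γ) + (a - 1) * γ + a * (t - 1) * ((1 - η) * (x0 - P.1))) /
          (1 + a * (η - 1)) := by
      field_simp
      ring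
    have h4 : 0 ≤ a * (t - 1) := mul_nonneg (by linarith [c.a1]) (by linarith [c.t1])
    have h5 : a * (t - 1) ≤ 5 / 4 * s :=
      mul_le_mul ha (by linarith [c.t2]) (by linarith [c.t1]) (by norm_num)
    have h6 := abs_le.1 hP1
    have h7 : 0 ≤ (1 - η) * (x0 - P.1) :=
      mul_nonneg (by linarith [c.hη1]) (by linarith [x0_bd.1])
    have h8 : (1 - η) * (x0 - P.1) ≤ 2 := by nlinarith [x0_bd.1, x0_bd.2]
    have h9 : η * γ ≤ 1 := by nlinarith [c.hη1]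
    have k1 : a * (t - 1) * (η * γ) ≤ 5 / 4 * s * 1 :=
      mul_le_mul h5 h9 (by positivity) (by positivity)
    have k2 : (a - 1) * γ ≤ s * (1 / 25) := mul_le_mul (by linarith [c.a2]) h3 h1 hs
    have k3 : a * (t - 1) * ((1 - η) * (x0 - P.1)) ≤ 5 / 4 * s * 2 :=
      mul_le_mul h5 h8 h7 (by positivity)
    have k4 : 0 ≤ (a - 1) * γ := mul_nonneg (by linarith [c.a1]) h1
    rw [e1, abs_of_nonneg (by positivity), div_le_iff₀ hD0]
    nlinarith [c.s2]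
  refine ⟨ξ, fun k hk => ⟨?_, fun k' hk' hne => ?_, fun z hz1 hz2 => ?_⟩⟩
  · have h1 := abs_le.1 (near k hk)
    obtain ⟨h2, h3⟩ := hc k hk
    exact abs_le.2 ⟨by linarith, by linarith⟩
  · have h1 := abs_le.1 (near k hk)
    have h2 := abs_le.1 (near k' hk')
    rcases lt_or_gt_of_ne hne with h | h
    · have h3 : (k : ℝ) + 1 ≤ k' := by exact_mod_cast h
      exact le_abs.2 (Or.inr (by nlinarith))
    · have h3 : (k' : ℝ) + 1 ≤ k := by exact_mod_cast h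
      exact le_abs.2 (Or.inl (by nlinarith))
  · have h1 := abs_le.1 (near k hk)
    obtain ⟨h2, h3⟩ := hc k hk
    have h4 := abs_le.1 hz1
    have h5 : |z.1 - P.1| ≤ W := abs_le.2 ⟨by linarith [c.hW], by linarith [c.hW]⟩
    have h6 : ‖z - iv 0 - P‖ ≤ r := by
      rw [Prod.norm_def, max_le_iff]
      simp only [iv, Prod.fst_zero, Prod.snd_zero, Int.cast_zero, Prod.fst_sub, Prod.snd_sub,
        sub_zero, Real.norm_eq_abs]
      exact ⟨by linarith [c.hr], by linarith [c.hr, c.Wpos]⟩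
    have h7 := abs_le.1 (tau_fst c.t1 c.t2 P (k := 0) (z := z) (by
      have := abs_sub_abs_le_abs_sub z.1 P.1
      simp only [Prod.fst_zero, Int.cast_zero, sub_zero]
      linarith [c.hr, c.hr1]))
    simp only [Prod.fst_zero, Int.cast_zero, sub_zero] at h7
    rw [c.loc hP h6, c.h.laps k hk _ (abs_le.2 ⟨by linarith, by linarith⟩) (by
      simp only [tau, Prod.snd_zero, Int.cast_zero, sub_zero]
      linarith [c.Wpos])]
    have e1 : (e + a * e * (η - 1)) * ξ k = e * (a * t * η * ((η + 4 * k + 3) * b) -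
        a * (η - 1) * (t - 1) * (x0 - P.1)) := by
      simp only [ξ]
      field_simp
    rw [e1]
    simp only [tau, Prod.fst_zero, Int.cast_zero, sub_zero]
    field_simp
    ring

theorem Ctx.tent (c : Ctx Φ e η θ W b r m S Ls F a t s) :
    Tent (Psi Φ a t F) F e η θ W r b (a * e * (η - 1)) m
      (edge t W '' ((F : Set E) ×ˢ (Ls : Set (ℝ × ℝ)))) := by
  refine ⟨psi_per Φ a t F, fun z hz => c.zero fun P hP k => ?_, c.nice.bd, c.nice.lipx,
    c.nice.lipy, fun P hP => ?_, (F.finite_toSet.prod Ls.finite_toSet).image _, c.edges,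
    fun p hp => c.sing hp, ?_, c.laps⟩
  · linarith [hz P hP k, c.Wpos]
  · obtain ⟨S', h1, h2, h3⟩ := c.cells hP 0
    have e0 : P + iv 0 = P := by ext <;> simp [iv]
    rw [e0] at h2 h3
    exact ⟨S', h1, fun A hA => (h2 A hA).1, h3⟩
  · have e1 : a * e * (η - 1) / e = a * (η - 1) := by
      have := c.he.ne'
      field_simp
    rw [e1]
    exact ⟨c.slope.1, by linarith [c.slope.2, c.hη]⟩

end Tent1

open Tent1 in
theorem tent1 {Φ : E → ℝ} {e η θ W b r : ℝ} {m : ℕ} {S : Finset (Set E × Af)} {Ls : Finset (ℝ × ℝ)}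
    (h : Tent0 Φ e η θ W b m S Ls) (he : 0 < e) (hη : 0 < η) (hη1 : η ≤ 1 / 4) (hθ : 0 < θ)
    (hb : 0 < b) (hm : 1 ≤ m) (hW : 10 * m * b ≤ W) (hr : W < r) (hr1 : r ≤ 1 / 10) {Ps : Set E}
    (hfin : Ps.Finite) (hP : ∀ P ∈ Ps, ‖P‖ ≤ 1 / 20)
    (hsep : ∀ P ∈ Ps, ∀ P' ∈ Ps, P ≠ P' → r + W < ‖P - P'‖)
    {A Ln : Set Af} (hA : A.Countable) (hL : Ln.Countable)
    (hv : ∀ i : ℤ, lineAt 0 (x0 + i, 0) ∈ Ln) (hnt : NT A Ln) :
    ∃ (Ψ : E → ℝ) (κ : ℝ) (Ed : Set (E × Set E)) (A' Ln' : Set Af),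
      Tent Ψ Ps e η θ W r b κ m Ed ∧ A'.Countable ∧ Ln'.Countable ∧
      (∀ g ∈ A, ∀ p g', Germ Ψ p g' → g + g' ∈ A') ∧ Ln ⊆ Ln' ∧
      (∀ d ∈ Ed, ∀ p ∈ d.2, ∀ k, lineAt d.1.1 (p + iv k) ∈ Ln') ∧ NT A' Ln' := by
  lift Ps to Finset E using hfin
  have hs : 0 < min θ (η * b / 40) := lt_min hθ (by positivity)
  let G0 : Set Af := insert 0 ((fun x : (Set E × Af) × E × ℤ => tr x.1.2 x.2.1 x.2.2) ''
    ((S : Set (Set E × Af)) ×ˢ (Ps : Set E) ×ˢ univ))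
  have hG : G0.Countable :=
    ((S.countable_toSet.prod (Ps.countable_toSet.prod countable_univ)).image _).insert _
  let L0 : Set (ℝ × ℝ) := (fun x : (ℝ × ℝ) × E × ℤ =>
    (x.1.1, x.1.2 + x.2.1.1 - x.1.1 * (x.2.1.2 + x.2.2))) ''
      ((Ls : Set (ℝ × ℝ)) ×ˢ (Ps : Set E) ×ˢ univ)
  have hL0 : L0.Countable :=
    (Ls.countable_toSet.prod (Ps.countable_toSet.prod countable_univ)).image _
  obtain ⟨Ba, hBa, h1⟩ := gen_Z hA hL hG hL0 hv hnt
  obtain ⟨a, ha, haB⟩ := exists_notMem_Ioo hBa (lt_add_of_pos_right 1 hs)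
  obtain ⟨Bt, hBt, h2⟩ := h1 a haB
  obtain ⟨t, ht, htB⟩ := exists_notMem_Ioo hBt (lt_add_of_pos_right 1 hs)
  have c : Ctx Φ e η θ W b r m S Ls Ps a t (min θ (η * b / 40)) :=
    ⟨h, he, hη, hη1, hθ, hb, hm, hW, hr, hr1, hP, hsep, ha.1.le, ha.2.le, ht.1.le, ht.2.le,
      min_le_left _ _, min_le_right _ _⟩
  refine ⟨_, _, _, {g | ∃ g1 ∈ A, ∃ g0 ∈ G0, ∃ i : ℤ, g = g1 + dfm a t i g0},
    Ln ∪ {l | ∃ c ∈ L0, ∃ i : ℤ, l = lineAt (t * c.1) (i + x0 + t * (c.2 - x0), 0)}, c.tent, ?_,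
    hL.union ?_, fun g hg p g' hg' => ⟨g, hg, ?_⟩, subset_union_left, ?_, h2 t htB⟩
  · refine ((hA.prod (hG.prod countable_univ)).image
      fun x : Af × Af × ℤ => x.1 + dfm a t x.2.2 x.2.1).mono ?_
    rintro _ ⟨g1, h1, g0, h0, i, rfl⟩
    exact ⟨(g1, g0, i), ⟨h1, h0, mem_univ _⟩, rfl⟩
  · refine ((hL0.prod countable_univ).image fun x : (ℝ × ℝ) × ℤ =>
      lineAt (t * x.1.1) (x.2 + x0 + t * (x.1.2 - x0), 0)).mono ?_
    rintro _ ⟨l, h1, i, rfl⟩
    exact ⟨(l, i), ⟨h1, mem_univ _⟩, rfl⟩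
  · rcases c.germ hg' with rfl | ⟨B, hB, P, hP, k, rfl⟩
    · refine ⟨0, mem_insert _ _, 0, ?_⟩
      congr 1
      ext <;> simp [dfm]
    · exact ⟨_, mem_insert_of_mem _ ⟨(B, P, k.2), ⟨hB, hP, mem_univ _⟩, rfl⟩, k.1, rfl⟩
  · rintro _ ⟨⟨P, l⟩, ⟨hP, hl⟩, rfl⟩ p hp k
    exact Or.inr ⟨_, ⟨(l, P, k.2), ⟨hl, hP, mem_univ _⟩, rfl⟩, k.1, line_eq c.tpos.ne' hp k⟩

end Pool.Agent.MP_369096_an.H89
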