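import Pool.Agent.MP_369096_an.H89.Grow

/-!
TASK Trans. Density of the stable manifold and transitivity. Auxiliary lemmas go in namespace `H89.Trans`.
-/

set_option autoImplicit false

open Set Filter Topology

namespace Pool.Agent.MP_369096_an.H89

variable {F : E → ℝ} {L : ℝ}

namespace Trans

theorem surj_iter (ha : Adm F L 2) (n : ℕ) : Function.Surjective (T F)^[n] :=
  ha.surjT.iterate n

theorem one_le_Lam (ha : Adm F L 2) : (1 : ℝ) ≤ 2 * L + 2 := by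
  have := ha.le_L
  linarith

theorem open_word {r : ℝ} {N : ℕ} (ha : Adm F L 2) (hl : Loc F r N) {U : Set E} (hU : IsOpen U)
    (hne : U.Nonempty) (n : ℕ) : ∃ (U' : Set E) (g : ℕ → Af), IsOpen U' ∧ U'.Nonempty ∧ U' ⊆ U ∧
      ∀ i < n, ∀ z ∈ U', Aff F ((T F)^[i] z) (g i) := by
  induction n with
  | zero => exact ⟨U, fun _ => 0, hU, hne, subset_rfl, fun i hi => absurd hi (Nat.not_lt_zero i)⟩
  | succ n ih =>
    obtain ⟨U', g, ho, ⟨z0, hz0⟩, hsub, hg⟩ := ih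
    obtain ⟨ρ, hρ, hball⟩ := Metric.isOpen_iff.1 ho z0 hz0
    obtain ⟨g', hg'⟩ := hl.exists_germ ((T F)^[n] z0)
    have hΛ : (0 : ℝ) < (2 * L + 2) ^ n := pow_pos (by linarith [one_le_Lam ha]) n
    obtain ⟨q, hq, hqd⟩ := Metric.mem_closure_iff.1 hg' (ρ / (2 * L + 2) ^ n) (div_pos hρ hΛ)
    obtain ⟨z, rfl⟩ := surj_iter ha n q
    have hz : z ∈ U' := by
      apply hball
      rw [Metric.mem_ball, dist_comm, dist_eq_norm]
      have h1 := ha.lip_iter' n z0 z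
      rw [dist_eq_norm, lt_div_iff₀ hΛ] at hqd
      linarith
    refine ⟨U' ∩ (T F)^[n] ⁻¹' {q | Aff F q g'}, Function.update g n g',
      ho.inter ((isOpen_aff F g').preimage (ha.contT.iterate n)), ⟨z, hz, hq⟩,
      inter_subset_left.trans hsub, ?_⟩
    intro i hi w hw
    rcases Nat.lt_succ_iff_lt_or_eq.1 hi with h | h
    · rw [Function.update_of_ne h.ne]
      exact hg i h w hw.1
    · subst h
      rw [Function.update_self]
      exact hw.2

theorem lamA_sq : lamA ^ 2 = 22 * lamA - 1 := by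
  have h : Real.sqrt 120 ^ 2 = 120 := Real.sq_sqrt (by norm_num)
  unfold lamA
  nlinarith

theorem lamA_gt : 21 < lamA := by
  have h : (10 : ℝ) < Real.sqrt 120 := Real.lt_sqrt_of_sq_lt (by norm_num)
  unfold lamA
  linarith

theorem cont_phi : Continuous phi := by
  unfold phi
  fun_prop

theorem two_iv_add (m m' : ℤ × ℤ) : (2 : ℝ) • iv (m + m') = (2 : ℝ) • iv m + (2 : ℝ) • iv m' := by
  apply Prod.ext <;> simp [iv] <;> ring

theorem two_iv_sub (m m' : ℤ × ℤ) : (2 : ℝ) • iv (m - m') = (2 : ℝ) • iv m - (2 : ℝ) • iv m' := by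
  apply Prod.ext <;> simp [iv] <;> ring

theorem inv_rec : lamA⁻¹ ^ 2 = 22 * lamA⁻¹ - 1 := by
  have h := lamA_sq
  have h0 : lamA ≠ 0 := by linarith [lamA_gt]
  field_simp
  linarith

/-- The connecting orbit. -/
theorem connect {ρ : ℝ} (ha : Adm F L 2) (hr : LinR F ρ) (hρ : ρ ≤ 1 / 5) (ξ : ℕ → ℝ)
    (hξ : ∀ j, ξ (j + 2) = 22 * ξ (j + 1) - ξ j) (n : ℕ) (hb : ∀ i < n, |ξ (i + 1)| ≤ 3 / 10) :
    ∃ m : ℤ × ℤ, (T F)^[n] (1 / 2 + ξ 1, 1 / 2 + ξ 0) =
      (1 / 2 + ξ (n + 1), 1 / 2 + ξ n) + (2 : ℝ) • iv m := by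
  induction n with
  | zero => exact ⟨0, by simp [iv]⟩
  | succ n ih =>
    obtain ⟨m, hm⟩ := ih fun i hi => hb i (by omega)
    obtain ⟨m', hm'⟩ := iter_iv2 ha 1 m
    refine ⟨m' + (5, 0), ?_⟩
    have hlin : F (1 / 2 + ξ (n + 1), 1 / 2 + ξ n) = 22 * (1 / 2 + ξ (n + 1)) - (1 / 2 + ξ n) := by
      apply hr
      intro k
      have h1 := abs_le.1 (hb n (by omega))
      rcases le_or_gt k 0 with hk | hk
      · have : (k : ℝ) ≤ 0 := by exact_mod_cast hk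
        exact le_abs.2 (Or.inl (by simp only; linarith [h1.1]))
      · have : (1 : ℝ) ≤ k := by exact_mod_cast hk
        exact le_abs.2 (Or.inr (by simp only; linarith [h1.2]))
    rw [Function.iterate_succ_apply', hm]
    have := hm' (1 / 2 + ξ (n + 1), 1 / 2 + ξ n)
    simp only [Function.iterate_one] at this
    rw [this, two_iv_add]
    apply Prod.ext
    · simp only [T, hlin, iv, Prod.fst_add, Prod.smul_fst, smul_eq_mul, hξ n]
      push_cast
      ring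
    · simp [T, iv]

theorem rev_iter (ha : Adm F L 2) (n : ℕ) (z : E) :
    (T (rev F))^[n] ((T F)^[n] z).swap = z.swap := by
  induction n with
  | zero => rfl
  | succ n ih => rw [Function.iterate_succ_apply' (T F), Function.iterate_succ_apply, ha.T_rev, ih]

theorem norm_swap (z : E) : ‖z.swap‖ = ‖z‖ := by
  simp [Prod.norm_def, max_comm]

theorem exists_two_iv (z : E) : ∃ m, z - (2 : ℝ) • iv m ∈ Metric.closedBall (0 : E) 2 := by
  obtain ⟨m, hm⟩ := exists_iv ((1 / 2 : ℝ) • z)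
  refine ⟨m, ?_⟩
  obtain ⟨⟨h1, h2⟩, h3, h4⟩ := hm
  simp only [iv, Prod.fst_sub, Prod.snd_sub, Prod.smul_fst, Prod.smul_snd, smul_eq_mul] at *
  rw [mem_closedBall_zero_iff, Prod.norm_def]
  simp only [Prod.fst_sub, Prod.snd_sub, Prod.smul_fst, Prod.smul_snd, smul_eq_mul,
    Real.norm_eq_abs]
  exact max_le (abs_le.2 ⟨by linarith, by linarith⟩) (abs_le.2 ⟨by linarith, by linarith⟩)

end Trans

open _root_.Pool.Agent.MP_369096_an.H89.Trans

/-- The stable manifold of `(1/2,1/2)` is dense modulo `2ℤ²`. Choose `Θ` with `4 C² ≤ l^Θ`, `2 C² ≤ l^Θ`, `4 C^3 ≤ l^Θ`. The open set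
`(T F)^[Θ] ⁻¹' ball z1 ε` is nonempty; shrink it `Θ` times to a nonempty open set on which
`Aff F ((T F)^[i] ·) (g i)` (points with `Aff` are dense by `Loc.exists_germ`; `T F` is an open map, being a homeomorphism, or
pull back from the last time). Extend the word to an itinerary, take an unstable solution
(`exists_unst`) and a short segment in its direction: its image is `Exp`, hence `Good`
(`expAt_of_past` with `C0 = C`, `ExpAt.good`), lies in the ball, and `QP` with the intermediate value theorem gives a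
point with `phi = 0`, `|chi| ≤ 2`. -/
theorem dense_ws {r C l : ℝ} {N : ℕ} (ha : Adm F L 2) (hl : Loc F r N) (hh : HYP F C l)
    (hl2 : 2 < l) (hq : QP F) (z1 : E) {ε : ℝ} (hε : 0 < ε) :
    ∃ (z : E) (n : ℕ) (m : ℤ × ℤ) (t : ℝ), ‖z - z1‖ < ε ∧ |t| ≤ 2 ∧
      (T F)^[n] z - (2 : ℝ) • iv m = (1 / 2 + t / lamA, 1 / 2 + t) := by
  have hC := hh.half_le ha hl
  have hC0 : 0 ≤ C := by linarith
  obtain ⟨Θ, hΘ⟩ := pow_unbounded_of_one_lt (4 * C * C * C + 2 * C * C) (by linarith : (1 : ℝ) < l)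
  have hCC : 0 ≤ C * C := mul_nonneg hC0 hC0
  have hCCC : 0 ≤ C * C * C := mul_nonneg hCC hC0
  have hU : IsOpen ((T F)^[Θ] ⁻¹' Metric.ball z1 ε) :=
    Metric.isOpen_ball.preimage (ha.contT.iterate Θ)
  have hne : ((T F)^[Θ] ⁻¹' Metric.ball z1 ε).Nonempty := by
    obtain ⟨z, hz⟩ := surj_iter ha Θ z1
    exact ⟨z, by simp [hz, hε]⟩
  obtain ⟨U', g, ho, ⟨z0, hz0⟩, hsub, hg⟩ := open_word ha hl hU hne Θ
  obtain ⟨ρ, hρ, hball⟩ := Metric.isOpen_iff.1 ho z0 hz0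
  obtain ⟨x, c, hx, -, hc⟩ := ext_itin ha hl z0 g Θ fun i hi => (hg i hi z0 hz0).germ
  obtain ⟨u, hu, hun, hu0⟩ := exists_unst (ha.itin_bd hx) (hh x c hx) hC0 hl2
  have hn0 : 0 < ‖pt u 0‖ := norm_pos_iff.2 (hu0 0)
  set s : ℝ := ρ / 2 / ‖pt u 0‖ with hs
  have hs0 : 0 < s := by positivity
  set d : E := s • pt u 0 with hd
  have hdn : ‖d‖ = ρ / 2 := by
    rw [hd, norm_smul, Real.norm_eq_abs, abs_of_pos hs0, hs]
    field_simp
  have hmem : ∀ t ∈ Icc (0 : ℝ) 1, z0 + t • d ∈ U' := by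
    intro t ht
    apply hball
    rw [Metric.mem_ball, dist_eq_norm, add_sub_cancel_left, norm_smul, Real.norm_eq_abs,
      abs_of_nonneg ht.1, hdn]
    nlinarith [ht.1, ht.2]
  have hseg : Seg F z0 d g Θ := fun i hi t ht => (hg i hi _ (hmem t ht)).germ
  have hfw : fw g d Θ = s • pt u Θ := by
    rw [hd, fw_smul, fw_eq_pt hc (hu.solOn 0 Θ) le_rfl]
  have hgrow : ‖d‖ ≤ C * ‖fw g d Θ‖ := by
    have h1 := hun 0 Θ (Int.natCast_nonneg Θ)
    have h2 : l ^ ((0 : ℤ) - Θ) ≤ 1 := zpow_le_one_of_nonpos₀ (by linarith) (by simp)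
    have h3 : C * l ^ ((0 : ℤ) - Θ) * ‖pt u Θ‖ ≤ C * ‖pt u Θ‖ := by
      apply mul_le_mul_of_nonneg_right _ (norm_nonneg _)
      nlinarith
    rw [hfw, hd, norm_smul, norm_smul, Real.norm_eq_abs, abs_of_pos hs0]
    nlinarith
  have hit : ∀ t ∈ Icc (0 : ℝ) 1, (T F)^[Θ] (z0 + t • d) = (T F)^[Θ] z0 + t • fw g d Θ :=
    fun t ht => hseg.iter ha.cont le_rfl ht
  have hgood : Good F (2 * C) ((T F)^[Θ] z0) (fw g d Θ) := by
    intro t ht
    rw [← hit t ht]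
    exact (expAt_of_past ha hh hC0 (by linarith) (fun i hi => hseg i hi t ht) hgrow
      (by linarith) (by linarith)).good (by linarith) (by linarith)
  have hδ : 0 < ‖fw g d Θ‖ := by
    rw [hfw]
    exact norm_pos_iff.2 (smul_ne_zero hs0.ne' (hu0 Θ))
  obtain ⟨N1, β, hβ, hcr⟩ := hq (2 * C) _ hδ
  obtain ⟨n, -, t0, ht0, t1, ht1, m, h1, h2, h3⟩ := hcr _ _ hgood le_rfl
  have hcont : Continuous fun t : ℝ =>
      phi ((T F)^[n] ((T F)^[Θ] z0 + t • fw g d Θ) - (2 : ℝ) • iv m) :=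
    cont_phi.comp (((ha.contT.iterate n).comp
      (continuous_const.add (continuous_id.smul continuous_const))).sub continuous_const)
  obtain ⟨t, ht, hz⟩ := intermediate_value_uIcc (a := t0) (b := t1) hcont.continuousOn
    (show (0 : ℝ) ∈ uIcc _ _ from mem_uIcc.2 (Or.inr ⟨by linarith, by linarith⟩))
  have ht01 : t ∈ Icc (0 : ℝ) 1 := uIcc_subset_Icc ht0 ht1 ht
  refine ⟨(T F)^[Θ] z0 + t • fw g d Θ, n, m,
    chi ((T F)^[n] ((T F)^[Θ] z0 + t • fw g d Θ) - (2 : ℝ) • iv m), ?_, ?_, ?_⟩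
  · have := hsub (hmem t ht01)
    rw [mem_preimage, hit t ht01, Metric.mem_ball, dist_eq_norm] at this
    exact this
  · linarith [h1 t ht]
  · simp only [phi] at hz
    apply Prod.ext
    · simp only [chi]
      linarith
    · simp only [chi]
      ring

/-- Connecting the stable and the unstable manifold. `lamA + 1/lamA = 22`, `lamA > 21`. Apply the hypotheses to `z1` and
to `sg F z2` (for `rev F`). The sequence `ξ i = t lamA^(-(i+1)) + t' lamA^(-(n-i+1))` solves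
`ξ (i+1) = 22 ξ i - ξ (i-1)` and `|ξ i| < 3/10` for `0 ≤ i ≤ n`, so `1/2 + ξ i + k i` with
`k (i+1) = 22 k i - k (i-1) + 10`, all `k i` even, is an orbit of `F` for these times (`LinR`). Its point at time `0` tends to the
stable point, and `(ξ n, ξ (n+1))` tends to `(t'/lamA, t')`; conclude with the Lipschitz bounds
`lip_iter`, `lip_iter'`, `iter_iv2`, `Adm.T_rev`, `Adm.sg_lip`. -/
theorem tr_of_dense {ρ : ℝ} (ha : Adm F L 2) (hr : LinR F ρ) (hρ : ρ ≤ 1 / 5)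
    (h1 : ∀ (z1 : E) (ε : ℝ), 0 < ε → ∃ (z : E) (n : ℕ) (m : ℤ × ℤ) (t : ℝ), ‖z - z1‖ < ε ∧
      |t| ≤ 2 ∧ (T F)^[n] z - (2 : ℝ) • iv m = (1 / 2 + t / lamA, 1 / 2 + t))
    (h2 : ∀ (z1 : E) (ε : ℝ), 0 < ε → ∃ (z : E) (n : ℕ) (m : ℤ × ℤ) (t : ℝ), ‖z - z1‖ < ε ∧
      |t| ≤ 2 ∧ (T (rev F))^[n] z - (2 : ℝ) • iv m = (1 / 2 + t / lamA, 1 / 2 + t))
    {ε : ℝ} (hε : 0 < ε) : Tr F ε := by
  intro z1 z2
  obtain ⟨z, n1, m1, t, hz, ht, hP⟩ := h1 z1 (ε / 2) (by linarith)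
  obtain ⟨w, n2, m2, t', hw, ht', hP'⟩ := h2 z2.swap (ε / 2) (by linarith)
  have hΛ := one_le_Lam ha
  have hl := lamA_gt
  set μ : ℝ := lamA⁻¹ with hμ
  have hμ0 : 0 < μ := inv_pos.2 (by linarith)
  have hμl : μ * lamA = 1 := inv_mul_cancel₀ (by linarith)
  have hμ1 : μ < 1 / 21 := by nlinarith
  have hB : 0 < (2 * L + 2) ^ n1 + (2 * L + 2) ^ n2 := by positivity
  obtain ⟨n, hn⟩ := exists_pow_lt_of_lt_one
    (show 0 < ε / 4 / ((2 * L + 2) ^ n1 + (2 * L + 2) ^ n2) by positivity)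
    (show μ < 1 by linarith)
  rw [lt_div_iff₀ hB] at hn
  have hμn : 0 < μ ^ n := pow_pos hμ0 n
  have hn1 : (2 * L + 2) ^ n1 * (2 * μ ^ n) < ε / 2 := by
    have : 0 < (2 * L + 2) ^ n2 * μ ^ n := by positivity
    nlinarith
  have hn2 : (2 * L + 2) ^ n2 * (2 * μ ^ n) < ε / 2 := by
    have : 0 < (2 * L + 2) ^ n1 * μ ^ n := by positivity
    nlinarith
  set ξ : ℕ → ℝ := fun j => t * μ ^ j + t' * μ ^ (n + 1) * lamA ^ j with hξ
  have hpw : ∀ a b : ℕ, μ ^ (a + b) * lamA ^ b = μ ^ a := by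
    intro a b
    rw [pow_add, mul_assoc, ← mul_pow, hμl, one_pow, mul_one]
  have hrec : ∀ j, ξ (j + 2) = 22 * ξ (j + 1) - ξ j := by
    intro j
    simp only [hξ]
    rw [pow_add μ j 2, pow_add lamA j 2, lamA_sq, hμ, inv_rec, ← hμ]
    ring
  have hsm : ∀ (a : ℝ) (k : ℕ), |a| ≤ 2 → |a * μ ^ (k + 1)| ≤ 2 * μ := by
    intro a k hk
    rw [abs_mul, abs_of_pos (pow_pos hμ0 _), pow_succ]
    have h1 : μ ^ k ≤ 1 := pow_le_one₀ hμ0.le (by linarith)
    have h2 : μ ^ k * μ ≤ μ := by nlinarith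
    exact mul_le_mul hk h2 (by positivity) (by norm_num)
  have hsm' : ∀ (a : ℝ) (k : ℕ), |a| ≤ 2 → |a * μ ^ (n + k)| ≤ 2 * μ ^ n := by
    intro a k hk
    rw [abs_mul, abs_of_pos (pow_pos hμ0 _), pow_add]
    have h1 : μ ^ k ≤ 1 := pow_le_one₀ hμ0.le (by linarith)
    have h2 : μ ^ n * μ ^ k ≤ μ ^ n := by nlinarith
    exact mul_le_mul hk h2 (by positivity) (by norm_num)
  have hbd : ∀ i < n, |ξ (i + 1)| ≤ 3 / 10 := by
    intro i hi
    obtain ⟨k, hk⟩ : ∃ k, n + 1 = (k + 1) + (i + 1) := ⟨n - i - 1, by omega⟩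
    have h1 : ξ (i + 1) = t * μ ^ (i + 1) + t' * μ ^ (k + 1) := by
      simp only [hξ]
      rw [hk, mul_assoc, hpw]
    rw [h1]
    linarith [abs_add_le (t * μ ^ (i + 1)) (t' * μ ^ (k + 1)), hsm t i ht, hsm t' k ht']
  obtain ⟨m3, hm3⟩ := connect ha hr hρ ξ hrec n hbd
  obtain ⟨z', hz'⟩ := surj_iter ha n1 ((1 / 2 + ξ 1, 1 / 2 + ξ 0) + (2 : ℝ) • iv m1)
  obtain ⟨m4, hm4⟩ := iter_iv2 ha n m1
  obtain ⟨m5, hm5⟩ := iter_iv2 ha n2 (m3 + m4 - m2.swap)
  have hξ0 : ξ 0 = t + t' * μ ^ (n + 1) := by simp [hξ]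
  have hξ1 : ξ 1 = t * μ + t' * μ ^ (n + 0) := by
    simp only [hξ]
    rw [mul_assoc, hpw]
    simp
  have hξn : ξ n = t * μ ^ (n + 0) + t' * μ := by
    simp only [hξ]
    rw [add_comm n 1, mul_assoc, hpw]
    simp
  have hξn1 : ξ (n + 1) = t * μ ^ (n + 1) + t' := by
    simp only [hξ]
    have := hpw 0 (n + 1)
    rw [zero_add] at this
    rw [mul_assoc, this]
    simp
  refine ⟨z', n2 + (n + n1), m5, ?_, ?_⟩
  · have h3 := ha.lip_iter' n1 z' z
    have h4 : (T F)^[n1] z' - (T F)^[n1] z = (t' * μ ^ (n + 0), t' * μ ^ (n + 1)) := by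
      rw [hz', sub_eq_iff_eq_add.1 hP, hξ0, hξ1]
      apply Prod.ext
      · simp only [Prod.fst_sub, Prod.fst_add, div_eq_mul_inv t, ← hμ]
        ring
      · simp only [Prod.snd_sub, Prod.snd_add]
        ring
    have h5 : ‖(T F)^[n1] z' - (T F)^[n1] z‖ ≤ 2 * μ ^ n := by
      rw [h4, Prod.norm_def]
      exact max_le (hsm' t' 0 ht') (hsm' t' 1 ht')
    have h6 : ‖z' - z‖ < ε / 2 :=
      (h3.trans (mul_le_mul_of_nonneg_left h5 (by positivity))).trans_lt hn1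
    calc ‖z' - z1‖ = ‖(z' - z) + (z - z1)‖ := by rw [sub_add_sub_cancel]
      _ ≤ ‖z' - z‖ + ‖z - z1‖ := norm_add_le _ _
      _ < ε := by linarith
  · set R : E := (1 / 2 + ξ (n + 1), 1 / 2 + ξ n) + (2 : ℝ) • iv m2.swap with hR
    set P : E := ((T (rev F))^[n2] w).swap with hPd
    have h3 : (T F)^[n2 + (n + n1)] z' - (2 : ℝ) • iv m5 = (T F)^[n2] R := by
      rw [Function.iterate_add_apply, Function.iterate_add_apply, hz', hm4, hm3,
        sub_eq_iff_eq_add, ← hm5, hR, two_iv_sub, two_iv_add]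
      congr 1
      abel
    have h4 : (T F)^[n2] P = w.swap := by
      have h5 := rev_iter ha n2 P
      have h6 := ha.rev.lip_iter' n2 ((T F)^[n2] P).swap w
      rw [h5, hPd, Prod.swap_swap, sub_self, norm_zero, mul_zero, norm_le_zero_iff,
        sub_eq_zero] at h6
      rw [hPd, ← h6, Prod.swap_swap, h6]
    have h5 : R - P = (t * μ ^ (n + 1), t * μ ^ (n + 0)) := by
      rw [hR, hPd, sub_eq_iff_eq_add.1 hP', hξn, hξn1]
      apply Prod.ext
      · simp [iv]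
      · simp only [iv, Prod.snd_sub, Prod.snd_add, Prod.snd_swap, Prod.fst_add, Prod.smul_snd,
          Prod.smul_fst, div_eq_mul_inv t', ← hμ]
        ring
    have h6 : ‖R - P‖ ≤ 2 * μ ^ n := by
      rw [h5, Prod.norm_def]
      exact max_le (hsm' t 1 ht) (hsm' t 0 ht)
    have h7 : ‖(T F)^[n2] R - w.swap‖ < ε / 2 := by
      rw [← h4]
      exact ((ha.lip_iter n2 R P).trans (mul_le_mul_of_nonneg_left h6 (by positivity))).trans_lt hn2
    have h8 : ‖w.swap - z2‖ < ε / 2 := by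
      rw [← norm_swap]
      exact hw
    rw [h3]
    calc ‖(T F)^[n2] R - z2‖ = ‖((T F)^[n2] R - w.swap) + (w.swap - z2)‖ := by
          rw [sub_add_sub_cancel]
      _ ≤ ‖(T F)^[n2] R - w.swap‖ + ‖w.swap - z2‖ := norm_add_le _ _
      _ < ε := by linarith

/-- Transitivity at a fixed scale is robust: finitely many pairs from an `ε/2`-net of `[0,2]²`,
`Adm.iter_close`, `iter_iv2`. -/
theorem tr_robust (ha : Adm F L 2) (ht : ∀ ε > 0, Tr F ε) {ε : ℝ} (hε : 0 < ε) :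
    ∃ η > 0, ∀ F' L', Adm F' L' 2 → Close F F' η → Tr F' ε := by
  obtain ⟨S, -, hfin, hS⟩ := finite_cover_balls_of_compact (isCompact_closedBall (0 : E) 2)
    (show 0 < ε / 4 by linarith)
  choose z n m hz using ht (ε / 4) (by linarith)
  obtain ⟨n0, hn0⟩ := ((hfin.prod hfin).image fun p : E × E => n p.1 p.2).bddAbove
  obtain ⟨η, hη, hc⟩ := ha.iter_close n0 (show 0 < ε / 4 by linarith)
  refine ⟨η, hη, fun F' L' ha' hcl z1 z2 => ?_⟩
  obtain ⟨m1, hm1⟩ := exists_two_iv z1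
  obtain ⟨m2, hm2⟩ := exists_two_iv z2
  obtain ⟨a, ha1, ha2⟩ := mem_iUnion₂.1 (hS hm1)
  obtain ⟨b, hb1, hb2⟩ := mem_iUnion₂.1 (hS hm2)
  rw [Metric.mem_ball, dist_comm, dist_eq_norm] at ha2 hb2
  obtain ⟨m', hm'⟩ := iter_iv2 ha' (n a b) m1
  have hle : n a b ≤ n0 := hn0 ⟨(a, b), ⟨ha1, hb1⟩, rfl⟩
  have h1 := hc F' hcl _ hle (z a b)
  obtain ⟨h2, h3⟩ := hz a b
  refine ⟨z a b + (2 : ℝ) • iv m1, n a b, m' - m2 + m a b, ?_, ?_⟩
  · calc ‖z a b + (2 : ℝ) • iv m1 - z1‖ = ‖(z a b - a) + (a - (z1 - (2 : ℝ) • iv m1))‖ := by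
          congr 1
          abel
      _ ≤ _ := norm_add_le _ _
      _ < ε := by linarith
  · rw [hm', two_iv_add, two_iv_sub]
    calc _ = ‖((T F')^[n a b] (z a b) - (T F)^[n a b] (z a b)) +
          (((T F)^[n a b] (z a b) - (2 : ℝ) • iv (m a b) - b) + (b - (z2 - (2 : ℝ) • iv m2)))‖ := by
          congr 1
          abel
      _ ≤ _ := norm_add_le_of_le le_rfl (norm_add_le _ _)
      _ < ε := by linarith

theorem Core.tr (h : Core F) {ε : ℝ} (hε : 0 < ε) : Tr F ε := by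
  obtain ⟨L, κ, ρ, r, N, Ed, A, Ln, C, l, h⟩ := h
  have ha : Adm F L 2 := h.adm.mono le_rfl h.kap.le
  exact tr_of_dense ha h.linr h.rho.le
    (fun z1 ε hε => dense_ws ha h.loc h.hyp h.lam h.q z1 hε)
    (fun z1 ε hε => dense_ws ha.rev (ha.loc_rev h.loc) (ha.hyp_rev h.hyp) h.lam h.qrev z1 hε) hε

end Pool.Agent.MP_369096_an.H89
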