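import Pool.Agent.MP_369096_an.H89.KL2

/-!
TASK ZBas. Elementary properties of `F + Ψ` for a sum of tents `Ψ` centred on the horseshoe.
Auxiliary lemmas go in namespace `H89.ZBas`. On `closedBall (K.P ω) (c W)` the map `F` is affine with gradient
`K.co 0 = (a 0, -1)` (`KOK.aff`), where `a 0 = u 1 + u (-1) = s 1 + e + u (-1)`; `pt u 0 = (1, u (-1))`, `pt s 1 = (s 1, 1)`.
-/

set_option autoImplicit false

open Set Filter Topology

namespace Pool.Agent.MP_369096_an.H89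

/-- The standing hypotheses. -/
structure ZD (F : E → ℝ) (K : KD) (Ω : Set (ℤ → ℕ)) (Ψ : E → ℝ) (L η θ W c b κ : ℝ) (m : ℕ)
    (En : Set (E × Set E)) : Prop where
  adm : Adm F L 2
  kok : KOK F K
  fin : Ω.Finite
  sub : Ω ⊆ K.X
  tent : Tent Ψ (K.P '' Ω) K.e η θ W (c * W) b κ m En
  Wpos : 0 < W
  W1 : W ≤ 1 / 20
  c3 : 3 ≤ c
  cW : c * W < K.dl
  η0 : 0 < η
  η1 : η * K.e ≤ 1 / 20
  θ0 : 0 < θ
  θ1 : θ ≤ 1 / 20
  θ2 : θ ≤ η * K.e / 2
  θ3 : θ * (4 * K.e + 2) ≤ 1 / 2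

variable {F Ψ : E → ℝ} {K : KD} {Ω : Set (ℤ → ℕ)} {L η θ W c b κ : ℝ} {m : ℕ}
  {En : Set (E × Set E)}

namespace ZBas

theorem ev_add (g g' : Af) (p : E) : ev (g + g') p = ev g p + ev g' p := by
  simp only [ev, lin, Prod.fst_add, Prod.snd_add]; ring

theorem epos (h : ZD F K Ω Ψ L η θ W c b κ m En) : 0 < K.e := h.kok.eok.epos

theorem W_lt (h : ZD F K Ω Ψ L η θ W c b κ m En) : W < c * W := by
  have := h.Wpos
  have := h.c3
  nlinarith

theorem off (h : ZD F K Ω Ψ L η θ W c b κ m En) {z : E}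
    (hz : ∀ ω ∈ Ω, ∀ k, W < ‖z - iv k - K.P ω‖) : Ψ z = 0 := by
  refine h.tent.off z ?_
  rintro P ⟨ω, hω, rfl⟩ k
  exact hz ω hω k

theorem cells (h : ZD F K Ω Ψ L η θ W c b κ m En) {ω : ℤ → ℕ} (hω : ω ∈ Ω) :
    ∃ S : Finset (Set E × Af), S.card ≤ 16 * m ∧
      (∀ A ∈ S, Convex ℝ A.1 ∧ IsClosed A.1 ∧ (∀ p ∈ A.1, Germ (fun z => F z + Ψ z) p A.2) ∧
        GradOK K.e η θ (A.2.1 - K.co 0)) ∧
      ∀ p : E, ‖p - K.P ω‖ ≤ c * W → ∃ A ∈ S, p ∈ A.1 := by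
  classical
  obtain ⟨S, h1, h2, h3⟩ := h.tent.cells (K.P ω) ⟨ω, hω, rfl⟩
  let g0 : Af := (K.co 0, K.Y ω (0 + 1) - lin (K.co 0) (K.P ω))
  refine ⟨S.image fun A => (A.1, g0 + A.2), Finset.card_image_le.trans h1, ?_, fun p hp => ?_⟩
  · intro B hB
    obtain ⟨A, hA, rfl⟩ := Finset.mem_image.1 hB
    obtain ⟨a1, a2, a3, a4, a5⟩ := h2 A hA
    refine ⟨a1, a2, germ_of_convex a1 a3 fun p hp => ?_, ?_⟩
    · have := h.kok.aff ω (h.sub hω) 0 p ((a4 p hp).1.trans h.cW.le)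
      rw [ev_add, ← (a4 p hp).2, this]
      simp only [g0, ev, lin, KD.P, Prod.fst_sub, Prod.snd_sub]
      ring
    · have : (g0 + A.2).1 - K.co 0 = A.2.1 := by
        rw [Prod.fst_add]; exact add_sub_cancel_left _ _
      exact this ▸ a5
  · obtain ⟨A, hA, hp'⟩ := h3 p hp
    exact ⟨_, Finset.mem_image_of_mem _ hA, hp'⟩

theorem a0 (h : KOK F K) : K.a 0 = K.e + K.s 1 + K.u (-1) := by
  have h1 := h.eok.usol 0
  rw [h.eok.u0, zero_add, zero_sub] at h1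
  rw [KD.e]; linarith

theorem ptu (h : KOK F K) : pt K.u 0 = (1, K.u (-1)) := by
  rw [pt, h.eok.u0, zero_sub]

theorem pts (h : KOK F K) : pt K.s 1 = (K.s 1, 1) := by
  rw [pt, sub_self, h.eok.s0]

end ZBas

theorem ZD.adm' (h : ZD F K Ω Ψ L η θ W c b κ m En) {k k' : ℝ} (ha : Adm F L k) (h1 : k + θ ≤ k')
    (h2 : k ≤ k' * (1 - k * θ)) : Adm (fun z => F z + Ψ z) (L + 3 * K.e) k' := by
  have hk := ha.one_le
  have hθ := h.θ0
  refine ⟨fun z n => ?_, fun x x' y => ?_, fun x y y' hy => ?_, fun x y y' hy => ?_⟩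
  · rw [ha.eqv, h.tent.per]; ring
  · have a1 := ha.lipx x x' y
    have a2 := h.tent.lipx x x' y
    rw [add_sub_add_comm]
    refine (abs_add_le _ _).trans ?_
    linarith
  · have a1 := ha.lo x y y' hy
    have a2 := (abs_le.1 (h.tent.lipy x y y')).1
    rw [abs_sub_comm, abs_of_nonneg (sub_nonneg.2 hy)] at a2
    set D := F (x, y) - F (x, y') with hD
    have hD0 : 0 ≤ D := by
      by_contra hc
      have := mul_neg_of_pos_of_neg (by linarith : 0 < k) (not_le.1 hc)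
      linarith
    have a3 : D * (1 - k * θ) ≤ D + (Ψ (x, y) - Ψ (x, y')) := by
      have := mul_le_mul_of_nonneg_left a1 hθ.le
      linarith
    have a4 := mul_le_mul_of_nonneg_left a3 (by linarith : 0 ≤ k')
    have a5 := mul_le_mul_of_nonneg_left h2 hD0
    rw [add_sub_add_comm, ← hD]
    linarith
  · have a1 := ha.hi x y y' hy
    have a2 := (abs_le.1 (h.tent.lipy x y y')).2
    rw [abs_sub_comm, abs_of_nonneg (sub_nonneg.2 hy)] at a2
    have a3 := mul_le_mul_of_nonneg_right h1 (sub_nonneg.2 hy)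
    linarith

theorem ZD.linR (h : ZD F K Ω Ψ L η θ W c b κ m En) {ρ : ℝ} (hl : LinR F ρ) :
    LinR (fun z => F z + Ψ z) (max ρ (1 / 8)) := by
  intro z hz
  obtain ⟨ρ0, hρ0, hs⟩ := h.kok.small
  have h0 : Ψ z = 0 := ZBas.off h fun ω hω k => by
    have a1 := (le_max_right _ _).trans (hz k.1)
    have a2 : |(K.P ω).1| ≤ ρ0 := hs ω (h.sub hω) 0
    have a3 : |z.1 - k.1 - (K.P ω).1| ≤ ‖z - iv k - K.P ω‖ := norm_fst_le (z - iv k - K.P ω)
    have a4 := abs_sub_abs_le_abs_sub (z.1 - k.1) (K.P ω).1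
    have := h.W1
    linarith
  show F z + Ψ z = _
  rw [h0, add_zero]
  exact hl z fun k => (le_max_left _ _).trans (hz k)

theorem ZD.near (h : ZD F K Ω Ψ L η θ W c b κ m En) :
    Near F (fun z => F z + Ψ z) 0 (3 * K.e + θ) := by
  intro g k z r hl p q hp hq
  have a1 := hl p q (by rwa [add_zero]) (by rwa [add_zero])
  have a2 := h.tent.lipx p.1 q.1 p.2
  have a3 := h.tent.lipy q.1 p.2 q.2
  have a4 : |p.1 - q.1| ≤ ‖p - q‖ := norm_fst_le (p - q)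
  have a5 : |p.2 - q.2| ≤ ‖p - q‖ := norm_snd_le (p - q)
  have a6 := mul_le_mul_of_nonneg_left a4 (by linarith [ZBas.epos h] : 0 ≤ 3 * K.e)
  have a7 := mul_le_mul_of_nonneg_left a5 h.θ0.le
  have e : F p + Ψ p - (F q + Ψ q) - lin g (p - q) =
      (F p - F q - lin g (p - q)) + (Ψ (p.1, p.2) - Ψ (q.1, p.2)) + (Ψ (q.1, p.2) - Ψ (q.1, q.2)) := by
    simp only [Prod.mk.eta]; ring
  show |F p + Ψ p - (F q + Ψ q) - lin g (p - q)| ≤ _
  rw [e]
  refine (abs_add_three _ _ _).trans ?_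
  linarith

theorem ZD.laps (h : ZD F K Ω Ψ L η θ W c b κ m En) :
    Laps F (fun z => F z + Ψ z) (K.P '' Ω) K.e W b κ m := by
  intro P hP
  obtain ⟨ξ, hξ⟩ := h.tent.laps P hP
  refine ⟨ξ, fun k hk => ⟨(hξ k hk).1, (hξ k hk).2.1, fun z h1 h2 => ?_⟩⟩
  have := (hξ k hk).2.2 z h1 h2
  show F z + Ψ z = _
  rw [this]; ring

/-- Cells: `germ_of_convex` with the affine function of `F` plus that of `Ψ`. -/
theorem ZD.box (h : ZD F K Ω Ψ L η θ W c b κ m En) {n : ℕ} {ε : ℝ}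
    (hret : ∀ ω ∈ Ω, ∀ ω' ∈ Ω, ∀ i : ℤ, ¬ (n : ℤ) ∣ i → ε ≤ ‖pt (K.Y ω) i - K.P ω'‖) :
    Box F K (fun z => F z + Ψ z) Ω n (16 * m) W c (4 * K.e) ε := by
  refine ⟨h.fin, h.sub, hret, fun z hz => ?_, fun z => ?_, fun ω hω => ?_⟩
  · show F z + Ψ z = _
    rw [ZBas.off h hz, add_zero]
  · show |F z + Ψ z - F z| ≤ _
    rw [add_sub_cancel_left]
    exact h.tent.bd z
  · obtain ⟨S, h1, h2, h3⟩ := ZBas.cells h hω
    exact ⟨S, h1, fun A hA => ⟨(h2 A hA).1, (h2 A hA).2.1, (h2 A hA).2.2.1⟩, h3⟩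

theorem ZBas.nhds (h : ZD F K Ω Ψ L η θ W c b κ m En) {p : E}
    (hp : ∀ ω ∈ Ω, ∀ k, W < ‖p - iv k - K.P ω‖) : ∀ᶠ z in 𝓝 p, F z + Ψ z = F z :=
  (h.box (n := 1) (ε := 0) fun _ _ _ _ _ _ => norm_nonneg _).off_nhds hp

/-- Radius `min r W`: a ball that meets a box lies in the ball of radius `3 W` around its centre
(translate the cells with `Adm.germ_iv` for `F + Ψ`); otherwise cut the cells of `F` with the ball (`Box.off_nhds`,
`Germ.congr`; a `Box` is available from `ZD.box` with `n = 1`). -/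
theorem ZD.loc (h : ZD F K Ω Ψ L η θ W c b κ m En) {k : ℝ} (ha : Adm (fun z => F z + Ψ z) (L + 3 * K.e) k)
    {r : ℝ} {N : ℕ} (hl : Loc F r N) : ∃ r' N', Loc (fun z => F z + Ψ z) r' N' := by
  classical
  have hW := h.Wpos
  refine ⟨min r W, N + 16 * m, lt_min hl.1 hW, fun z => ?_⟩
  by_cases hz : ∃ ω ∈ Ω, ∃ n, ‖z - iv n - K.P ω‖ ≤ 2 * W
  · obtain ⟨ω, hω, n, hn⟩ := hz
    obtain ⟨S, h1, h2, h3⟩ := ZBas.cells h hω
    refine ⟨S.image fun A => ((fun p => p + -iv n) ⁻¹' A.1,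
      (A.2.1, A.2.2 - lin A.2.1 (iv n) + 22 * (n.1 : ℝ) - (n.2 : ℝ))),
      Finset.card_image_le.trans (by omega), fun B hB => ?_, fun p hp => ?_⟩
    · obtain ⟨A, hA, rfl⟩ := Finset.mem_image.1 hB
      obtain ⟨a1, a2, a3, -⟩ := h2 A hA
      refine ⟨a1.translate_preimage_left _, a2.preimage (by fun_prop), fun p hp => ?_⟩
      have := ha.germ_iv n (a3 _ hp)
      rwa [neg_add_cancel_right] at this
    · have a1 : ‖p + -iv n - K.P ω‖ ≤ c * W := by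
        have e : p + -iv n - K.P ω = (p - z) + (z - iv n - K.P ω) := by abel
        have := h.c3
        rw [e]
        refine (norm_add_le _ _).trans ?_
        nlinarith [min_le_right r W]
      obtain ⟨A, hA, hp'⟩ := h3 _ a1
      exact ⟨_, Finset.mem_image_of_mem _ hA, hp'⟩
  · push Not at hz
    obtain ⟨S, h1, h2, h3⟩ := hl.2 z
    refine ⟨S.image fun A => (A.1 ∩ Metric.closedBall z W, A.2),
      Finset.card_image_le.trans (by omega), fun B hB => ?_, fun p hp => ?_⟩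
    · obtain ⟨A, hA, rfl⟩ := Finset.mem_image.1 hB
      obtain ⟨a1, a2, a3⟩ := h2 A hA
      refine ⟨a1.inter (convex_closedBall _ _), a2.inter Metric.isClosed_closedBall, fun p hp => ?_⟩
      refine (a3 p hp.1).congr (ZBas.nhds h fun ω hω n => ?_)
      have b1 := hz ω hω n
      have b2 : ‖z - p‖ ≤ W := mem_closedBall_iff_norm'.1 hp.2
      have e : z - iv n - K.P ω = (z - p) + (p - iv n - K.P ω) := by abel
      rw [e] at b1
      have := norm_add_le (z - p) (p - iv n - K.P ω)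
      linarith
    · obtain ⟨A, hA, hp'⟩ := h3 p (hp.trans (min_le_left _ _))
      exact ⟨_, Finset.mem_image_of_mem _ hA, hp',
        mem_closedBall_iff_norm.2 (hp.trans (min_le_right _ _))⟩

/-- Gradients in a box (`germ_complete`). -/
theorem ZD.grad (h : ZD F K Ω Ψ L η θ W c b κ m En) {ω : ℤ → ℕ} (hω : ω ∈ Ω) {z k : E}
    (hz : ‖z - K.P ω‖ ≤ W) (hk : LG (fun z => F z + Ψ z) z k) : GradOK K.e η θ (k - K.co 0) := by
  obtain ⟨S, -, h2, h3⟩ := ZBas.cells h hω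
  obtain ⟨c0, hc0⟩ := hk
  obtain ⟨A, hA, -, e⟩ := germ_complete (fun A hA => ⟨(h2 A hA).2.1, (h2 A hA).2.2.1⟩) h3
    (hz.trans_lt (ZBas.W_lt h)) hc0
  have := (h2 A hA).2.2.2
  rwa [e] at this

theorem ZD.ang (h : ZD F K Ω Ψ L η θ W c b κ m En) {ω : ℤ → ℕ} (hω : ω ∈ Ω) {z k : E}
    (hz : ‖z - K.P ω‖ ≤ W) (hk : LG (fun z => F z + Ψ z) z k) :
    η * K.e / 2 ≤ |dt (TL k (pt K.u 0)) (pt K.s 1)| := by
  obtain ⟨g1, -, -, g4⟩ := h.grad hω hz hk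
  have e : dt (TL k (pt K.u 0)) (pt K.s 1) =
      (K.e + (k - K.co 0).1) + (k - K.co 0).2 * K.u (-1) := by
    simp only [ZBas.ptu h.kok, ZBas.pts h.kok, dt, TL, lin, KD.co, Prod.fst_sub, Prod.snd_sub,
      ZBas.a0 h.kok]
    ring
  have a1 : |(k - K.co 0).2 * K.u (-1)| ≤ θ * (1 / 2) := by
    rw [abs_mul]
    exact mul_le_mul g4 h.kok.eok.um.le (abs_nonneg _) h.θ0.le
  have a2 := abs_sub_abs_le_abs_add (K.e + (k - K.co 0).1) ((k - K.co 0).2 * K.u (-1))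
  have := h.θ2
  rw [e]
  linarith

theorem ZBas.ang' (h : ZD F K Ω Ψ L η θ W c b κ m En) {k d : E} (hk : GradOK K.e η θ (k - K.co 0))
    (h1 : d.2 = 1) (h2 : |d.1| ≤ θ ∨ |d.1 + 1| ≤ θ) : 1 / 4 ≤ |dt (TL k d) (pt K.s 1)| := by
  obtain ⟨-, g2, g3, g4⟩ := hk
  have e : dt (TL k d) (pt K.s 1) =
      d.1 * (K.e + (k - K.co 0).1 + K.u (-1)) - 1 + (k - K.co 0).2 := by
    simp only [ZBas.pts h.kok, dt, TL, lin, KD.co, Prod.fst_sub, Prod.snd_sub, ZBas.a0 h.kok, h1]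
    ring
  rw [e]
  refine le_trans ?_ (neg_le_abs _)
  have b1 := abs_lt.1 h.kok.eok.um
  have b2 := abs_le.1 g3
  have b3 := abs_le.1 g4
  have b4 := ZBas.epos h
  have b5 := h.θ1
  have b6 := h.η1
  have b7 := h.θ0
  set X := K.e + (k - K.co 0).1 + K.u (-1) with hX
  rcases h2 with h2 | h2
  · have a1 : |X| ≤ 4 * K.e + 2 := abs_le.2 ⟨by linarith, by linarith⟩
    have a2 : |d.1 * X| ≤ θ * (4 * K.e + 2) := by
      rw [abs_mul]
      exact mul_le_mul h2 a1 (abs_nonneg _) b7.le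
    have := h.θ3
    linarith [le_abs_self (d.1 * X)]
  · have a1 := abs_le.1 h2
    have a2 : -(3 / 5) ≤ X := by linarith
    have a3 : 0 ≤ -d.1 * (X + 3 / 5) := mul_nonneg (by linarith) (by linarith)
    linarith

/-- New edges `(d.1, d.2 ∩ Sing (F + Ψ))` for `d ∈ En`. Old edges avoid the closed boxes, where `F` is affine.
For `d.1 = (θ', 1)`: `dt (TL k d.1) (pt s 1) = θ' (e + Ψx + u (-1)) - 1 + Ψy`, `dt (pt u 0) d.1 = 1 - u (-1) θ'`.
Germs: `germ_add`. -/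
theorem ZD.edg (h : ZD F K Ω Ψ L η θ W c b κ m En) {k : ℝ}
    (ha : Adm (fun z => F z + Ψ z) (L + 3 * K.e) k) {r : ℝ} {N : ℕ} (hl : Loc F r N)
    {Ed : Set (E × Set E)} {A Ln A' Ln' : Set Af} (he : Edg F Ed) (hg : GenD F Ed A Ln)
    (hA : A'.Countable) (hL : Ln'.Countable) (h1 : ∀ g ∈ A, ∀ p g', Germ Ψ p g' → g + g' ∈ A')
    (h2 : Ln ⊆ Ln') (h3 : ∀ d ∈ En, ∀ p ∈ d.2, ∀ k, lineAt d.1.1 (p + iv k) ∈ Ln')
    (h4 : NT A' Ln') :
    ∃ En', Edg (fun z => F z + Ψ z) (Ed ∪ En') ∧ GenD (fun z => F z + Ψ z) (Ed ∪ En') A' Ln' ∧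
      ∀ d ∈ En', ‖d.1‖ ≤ 2 ∧ 1 / 4 ≤ |dt (pt K.u 0) d.1| ∧ ∃ ω ∈ Ω, ∀ z ∈ d.2, ‖z - K.P ω‖ ≤ W ∧
        ∀ k, LG (fun z => F z + Ψ z) z k → 1 / 4 ≤ |dt (TL k d.1) (pt K.s 1)| := by
  refine ⟨(fun d => (d.1, d.2 ∩ Sing fun z => F z + Ψ z)) '' En,
    ⟨he.fin.union (h.tent.efin.image _), ?_, ?_, ?_, ?_, fun p hp => ?_⟩,
    ⟨hA, hL, fun p g hg' => ?_, ?_, ?_, fun i => h2 (hg.vert i), h4⟩, ?_⟩
  · rintro e (he' | ⟨d, hd, rfl⟩)
    · exact he.ne e he'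
    · intro h0
      have := (h.tent.edge d hd).1
      rw [show d.1 = 0 from h0] at this
      exact zero_ne_one this
  · rintro e (he' | ⟨d, hd, rfl⟩)
    · exact he.cpt e he'
    · exact (h.tent.edge d hd).2.2.1.inter_right (isClosed_sing _)
  · rintro e (he' | ⟨d, hd, rfl⟩)
    · exact he.line e he'
    · exact fun p hp q hq => (h.tent.edge d hd).2.2.2.1 p hp.1 q hq.1
  · rintro e (he' | ⟨d, hd, rfl⟩)
    · intro p hp
      have hp' := he.sub e he' hp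
      refine (sing_congr (ZBas.nhds h fun ω hω n => ?_)).2 hp'
      by_contra hc
      have a1 := h.kok.aff_near (h.sub hω) 0 (z := p - iv n)
        ((not_lt.1 hc).trans_lt ((ZBas.W_lt h).trans h.cW))
      rw [← sub_add_cancel p (iv n), h.adm.sing_iv] at hp'
      exact hp' ⟨_, a1⟩
    · exact inter_subset_right
  · by_cases hp' : p ∈ Sing F
    · obtain ⟨e, he', n, hn⟩ := he.cov p hp'
      exact ⟨e, Or.inl he', n, hn⟩
    · have hΨ : p ∈ Sing Ψ := by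
        rintro ⟨g', hg'⟩
        obtain ⟨g, hg⟩ := not_not.1 hp'
        refine hp ⟨g + g', ?_⟩
        filter_upwards [hg, hg'] with z a1 a2
        rw [a1, a2, ZBas.ev_add]
      obtain ⟨d, hd, n, hn⟩ := h.tent.ecov p hΨ
      refine ⟨_, Or.inr ⟨d, hd, rfl⟩, n, hn, ?_⟩
      rw [← ha.sing_iv _ n, sub_add_cancel]
      exact hp
  · obtain ⟨g1, g2, a1, a2, rfl⟩ := germ_add hl hg'
    exact h1 g1 (hg.germ p g1 a1) p g2 a2
  · rintro e (he' | ⟨d, hd, rfl⟩)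
    · exact hg.dir e he'
    · exact (h.tent.edge d hd).1
  · rintro e (he' | ⟨d, hd, rfl⟩)
    · exact fun p hp n => h2 (hg.lines e he' p hp n)
    · exact fun p hp n => h3 d hd p hp.1 n
  · rintro e ⟨d, hd, rfl⟩
    obtain ⟨a1, a2, -, -, P, ⟨ω, hω, rfl⟩, a3⟩ := h.tent.edge d hd
    have b1 := h.θ1
    have b2 : |d.1.1| ≤ 21 / 20 := by
      rcases a2 with a2 | a2 <;> rw [abs_le] at a2 ⊢ <;> constructor <;> linarith [a2.1, a2.2]
    refine ⟨?_, ?_, ω, hω, fun z hz => ⟨a3 z hz.1, fun k hk => ?_⟩⟩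
    · show ‖d.1‖ ≤ 2
      rw [Prod.norm_def, a1, norm_one, Real.norm_eq_abs]
      exact max_le (by linarith) (by norm_num)
    · show 1 / 4 ≤ |dt (pt K.u 0) d.1|
      have b3 : |K.u (-1) * d.1.1| ≤ 1 / 2 * (21 / 20) := by
        rw [abs_mul]
        exact mul_le_mul h.kok.eok.um.le b2 (abs_nonneg _) (by norm_num)
      rw [ZBas.ptu h.kok, dt, a1]
      refine le_trans ?_ (le_abs_self _)
      have := le_abs_self (K.u (-1) * d.1.1)
      simp only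
      linarith
    · exact ZBas.ang' h (h.grad hω (a3 z hz.1) hk) a1 a2

end Pool.Agent.MP_369096_an.H89
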