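import Pool.Agent.MP_369096_an.H89.KL2
import Pool.Agent.MP_369096_an.H89.Ent2

/-!
TASK ZEnt. Entropy after the zigzag step. Auxiliary lemmas go in namespace `H89.ZEnt`.
-/

set_option autoImplicit false

open Set Filter Topology

namespace Pool.Agent.MP_369096_an.H89

variable {F : E → ℝ} {L : ℝ} {K : KD}

namespace ZEnt

theorem iv_add (m m' : ℤ × ℤ) : iv (m + m') = iv m + iv m' := by
  apply Prod.ext <;> simp [iv]

theorem iv_neg (m : ℤ × ℤ) : iv (-m) = -iv m := by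
  apply Prod.ext <;> simp [iv]

/-- The point lies in no box. -/
def NoBox (K : KD) (Ω : Set (ℤ → ℕ)) (W : ℝ) (p : E) : Prop :=
  ∀ ω ∈ Ω, ∀ m, W < ‖p - iv m - K.P ω‖

/-- The label of a point. -/
def Lab (K : KD) (Ω : Set (ℤ → ℕ)) (W : ℝ) (cell : (ℤ → ℕ) → ℕ → Set E) (V : ℕ) (p : E) (k : ℕ) :
    Prop :=
  (k = V ∧ NoBox K Ω W p) ∨
    (k ≠ V ∧ ∃ ω ∈ Ω, ∃ m, ‖p - iv m - K.P ω‖ ≤ W ∧ p - iv m ∈ cell ω k)

theorem exists_lab {Ω : Set (ℤ → ℕ)} {W : ℝ} {cell : (ℤ → ℕ) → ℕ → Set E} {V : ℕ}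
    (hc : ∀ ω ∈ Ω, ∀ z, ‖z - K.P ω‖ ≤ W → ∃ k < V, z ∈ cell ω k) (p : E) :
    ∃ k ∈ Finset.range (V + 1), Lab K Ω W cell V p k := by
  by_cases h : NoBox K Ω W p
  · exact ⟨V, by simp, Or.inl ⟨rfl, h⟩⟩
  · simp only [NoBox, not_forall, not_lt] at h
    obtain ⟨ω, hω, m, hm⟩ := h
    obtain ⟨k, hk, hk'⟩ := hc ω hω _ hm
    exact ⟨k, Finset.mem_range.2 (by omega), Or.inr ⟨hk.ne, ω, hω, m, hm, hk'⟩⟩

theorem NoBox.add {Ω : Set (ℤ → ℕ)} {W : ℝ} {p : E} (h : NoBox K Ω W p) (m : ℤ × ℤ) :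
    NoBox K Ω W (p + iv m) := by
  intro ω hω m'
  have := h ω hω (m' + -m)
  rwa [iv_add, iv_neg, show p - (iv m' + -iv m) = p + iv m - iv m' by abel] at this

/-- Points that visit no box. -/
theorem cov_nv {F' : E → ℝ} {L' W c κ ε0 ε N : ℝ} {Ω : Set (ℤ → ℕ)} {n V n1 : ℕ}
    (cell : (ℤ → ℕ) → ℕ → Set E) (ha' : Adm F' L' 2) (hb : Box F K F' Ω n V W c κ ε0)
    (h : Cov F (AffOn F) ε n1 N) :
    ∃ S : Finset (Set E), (S.card : ℝ) ≤ N ∧ (∀ Z ∈ S, Cl F' (RZ F' K Ω W cell) ε n1 Z) ∧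
      ∀ z : E, (∀ i < n1, NoBox K Ω W ((T F')^[i] z)) → ∃ Z ∈ S, ∃ m, z - iv m ∈ Z := by
  classical
  obtain ⟨S, hS, hcl, hcov⟩ := h
  set NV : Set E := {z | ∀ i < n1, NoBox K Ω W ((T F')^[i] z)} with hNV
  have hit : ∀ z ∈ NV, ∀ i ≤ n1, (T F')^[i] z = (T F)^[i] z := by
    intro z hz i
    induction i with
    | zero => intro _; rfl
    | succ i ih =>
      intro hi
      have h1 := ih (by omega)
      rw [Function.iterate_succ_apply', Function.iterate_succ_apply', ← h1]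
      simp only [T]
      rw [hb.off _ (hz i (by omega))]
  refine ⟨S.image fun Z => Z ∩ NV, le_trans (by exact_mod_cast Finset.card_image_le) hS, ?_, ?_⟩
  · intro Z' hZ'
    obtain ⟨Z, hZ, rfl⟩ := Finset.mem_image.1 hZ'
    obtain ⟨h1, h2⟩ := hcl Z hZ
    refine ⟨fun i hi z hz z' hz' => ?_, fun i hi => Or.inl ?_⟩
    · rw [hit z hz.2 i hi, hit z' hz'.2 i hi]
      exact h1 i hi z hz.1 z' hz'.1
    · obtain ⟨g, hg⟩ := h2 i hi
      refine ⟨g, ?_⟩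
      rintro p ⟨z, hz, rfl⟩
      rw [hb.off _ (hz.2 i hi), hit z hz.2 i hi.le]
      exact hg _ ⟨z, hz.1, rfl⟩
  · intro z hz
    obtain ⟨Z, hZ, m, hm⟩ := hcov z
    refine ⟨Z ∩ NV, Finset.mem_image_of_mem _ hZ, m, hm, fun i hi => ?_⟩
    obtain ⟨m', hm'⟩ := iter_iv i (-m)
    rw [sub_eq_add_neg, ← iv_neg, hm' F' L' 2 ha']
    exact (hz i hi).add m'

/-- The classes of points that visit a box. -/
def cls (F' : E → ℝ) (K : KD) (Ω : Set (ℤ → ℕ)) (W : ℝ) (cell : (ℤ → ℕ) → ℕ → Set E)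
    (n V n1 J j : ℕ) (a : (Fin (n1 + 2 * J + 2) → ℕ) × (Fin (n1 / n + 1) → ℕ)) : Set E :=
  {z | ∃ ω ∈ Ω, ‖(T F')^[j] z - K.P ω‖ ≤ W ∧
    (∀ s : Fin (n1 + 2 * J + 2), ω (-(j : ℤ) - J - 1 + (s : ℕ)) = a.1 s) ∧
    ∀ b : Fin (n1 / n + 1), Lab K Ω W cell V ((T F')^[(b : ℕ) * n + j % n] z) (a.2 b)}

theorem cl_cls (hk : KOK F K) {F' : E → ℝ} {W c κ ε0 ε τ η : ℝ} {Ω : Set (ℤ → ℕ)} {n V n1 J j : ℕ}
    (cell : (ℤ → ℕ) → ℕ → Set E) (hb : Box F K F' Ω n V W c κ ε0)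
    (hJ : ∀ ω ∈ K.X, ∀ ω' ∈ K.X, ∀ i : ℤ, (∀ j : ℤ, |j - i| ≤ (J : ℤ) → ω j = ω' j) →
      |K.Y ω i - K.Y ω' i| ≤ η)
    (hsh : ∀ z : E, ∀ ω ∈ Ω, ‖(T F')^[j] z - K.P ω‖ ≤ W → ∀ i ≤ n1,
      ‖(T F')^[i] z - pt (K.Y ω) (i - j)‖ ≤ τ)
    (h1 : 2 * τ + η ≤ ε) (h2 : τ + η ≤ K.dl) (h3 : τ + W < ε0) (h4 : τ + W ≤ 1 / 2)
    (a : (Fin (n1 + 2 * J + 2) → ℕ) × (Fin (n1 / n + 1) → ℕ)) :
    Cl F' (RZ F' K Ω W cell) ε n1 (cls F' K Ω W cell n V n1 J j a) := by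
  have hw : ∀ ω ∈ Ω, ∀ ω' ∈ Ω,
      (∀ s : Fin (n1 + 2 * J + 2), ω (-(j : ℤ) - J - 1 + (s : ℕ)) = a.1 s) →
      (∀ s : Fin (n1 + 2 * J + 2), ω' (-(j : ℤ) - J - 1 + (s : ℕ)) = a.1 s) →
      ∀ i ≤ n1, ‖pt (K.Y ω) (i - j) - pt (K.Y ω') (i - j)‖ ≤ η := by
    intro ω hω ω' hω' e e' i hi
    have key : ∀ t : ℤ, -(j : ℤ) - J - 1 ≤ t → t ≤ -(j : ℤ) + n1 + J → ω t = ω' t := by
      intro t ht ht'
      obtain ⟨s, hs⟩ : ∃ s : ℕ, (s : ℤ) = t - (-(j : ℤ) - J - 1) := ⟨_, Int.toNat_of_nonneg (by omega)⟩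
      have h5 := (e ⟨s, by omega⟩).trans (e' ⟨s, by omega⟩).symm
      simp only at h5
      rwa [show -(j : ℤ) - J - 1 + s = t by omega] at h5
    rw [Prod.norm_def]
    refine max_le (hJ ω (hb.sub hω) ω' (hb.sub hω') _ fun t ht => ?_)
      (hJ ω (hb.sub hω) ω' (hb.sub hω') _ fun t ht => ?_)
    · have := abs_le.1 ht
      exact key t (by omega) (by omega)
    · have := abs_le.1 ht
      exact key t (by omega) (by omega)
  have haff : ∀ i < n1, (∀ z ∈ cls F' K Ω W cell n V n1 J j a, NoBox K Ω W ((T F')^[i] z)) →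
      AffOn F' ((T F')^[i] '' cls F' K Ω W cell n V n1 J j a) := by
    intro i hi hno
    rcases (cls F' K Ω W cell n V n1 J j a).eq_empty_or_nonempty with he | ⟨z0, ω0, hω0, -, e0, -⟩
    · exact ⟨0, by simp [he]⟩
    refine ⟨(K.co (i - j), K.Y ω0 (i - j + 1) - lin (K.co (i - j)) (pt (K.Y ω0) (i - j))), ?_⟩
    rintro p ⟨z, hz, rfl⟩
    rw [hb.off _ (hno z hz)]
    obtain ⟨ω, hω, hd, e, -⟩ := hz
    have h5 : ‖(T F')^[i] z - pt (K.Y ω0) (i - j)‖ ≤ K.dl := by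
      calc _ = ‖((T F')^[i] z - pt (K.Y ω) (i - j)) +
            (pt (K.Y ω) (i - j) - pt (K.Y ω0) (i - j))‖ := by rw [sub_add_sub_cancel]
        _ ≤ τ + η := norm_add_le_of_le (hsh z ω hω hd i hi.le) (hw ω hω ω0 hω0 e e0 i hi.le)
        _ ≤ _ := h2
    rw [hk.aff ω0 (hb.sub hω0) _ _ h5]
    simp only [ev, lin, Prod.fst_sub, Prod.snd_sub]
    ring
  refine ⟨?_, fun i hi => ?_⟩
  · rintro i hi z ⟨ω, hω, hd, e, -⟩ z' ⟨ω', hω', hd', e', -⟩
    calc _ = ‖((T F')^[i] z - pt (K.Y ω) (i - j)) + ((pt (K.Y ω) (i - j) - pt (K.Y ω') (i - j)) -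
            ((T F')^[i] z' - pt (K.Y ω') (i - j)))‖ := by
          congr 1
          abel
      _ ≤ τ + (η + τ) := norm_add_le_of_le (hsh z ω hω hd i hi)
          (norm_sub_le_of_le (hw ω hω ω' hω' e e' i hi) (hsh z' ω' hω' hd' i hi))
      _ ≤ ε := by linarith
  by_cases hdv : (n : ℤ) ∣ (i : ℤ) - j
  · have hmod : j % n = i % n := (Nat.modEq_iff_dvd.2 hdv : j ≡ i [MOD n])
    have hlt : i / n < n1 / n + 1 := Nat.lt_succ_of_le (Nat.div_le_div_right hi.le)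
    have hi' : i / n * n + j % n = i := by rw [hmod, Nat.div_add_mod']
    have hlab : ∀ z ∈ cls F' K Ω W cell n V n1 J j a,
        Lab K Ω W cell V ((T F')^[i] z) (a.2 ⟨i / n, hlt⟩) := by
      rintro z ⟨ω, -, -, -, hz⟩
      have := hz ⟨i / n, hlt⟩
      simp only at this
      rwa [hi'] at this
    by_cases hV : a.2 ⟨i / n, hlt⟩ = V
    · refine Or.inl (haff i hi fun z hz => ?_)
      rcases hlab z hz with h | h
      · exact h.2
      · exact absurd hV h.1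
    · refine Or.inr ⟨a.2 ⟨i / n, hlt⟩, ?_⟩
      rintro p ⟨z, hz, rfl⟩
      rcases hlab z hz with h | h
      · exact absurd h.1 hV
      · exact h.2
  · refine Or.inl (haff i hi ?_)
    rintro z ⟨ω, hω, hd, -, -⟩
    exact hb.not_mem hk hω hdv (hsh z ω hω hd i hi.le) h3 h4

theorem lsum_nonneg {D : ℤ → Finset ℕ} (hne : ∀ i, (D i).Nonempty) (n : ℕ) : 0 ≤ lsum D n :=
  Finset.sum_nonneg fun i _ => Real.log_nonneg (by exact_mod_cast (hne i).card_pos)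

/-- Points that visit a box. -/
theorem cov_v {F' : E → ℝ} {L' W : ℝ} {Ω : Set (ℤ → ℕ)} {n V n1 J : ℕ} {R : Set E → Prop} {ε : ℝ}
    {cell : (ℤ → ℕ) → ℕ → Set E} (ha' : Adm F' L' 2) (hn : 0 < n) {D : ℤ → Finset ℕ}
    (hne : ∀ i, (D i).Nonempty) (hper : ∀ i, D (i + n) = D i) (hΩ : Ω ⊆ Words D)
    (hc : ∀ ω ∈ Ω, ∀ z, ‖z - K.P ω‖ ≤ W → ∃ k < V, z ∈ cell ω k)
    (hcl : ∀ j < n1, ∀ a, Cl F' R ε n1 (cls F' K Ω W cell n V n1 J j a)) :
    ∃ S : Finset (Set E), (S.card : ℝ) ≤ n1 * (Real.exp (lsum D n *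
        (((n1 + 2 * J + 2) / n + 1 : ℕ) : ℝ)) * ((V : ℝ) + 1) ^ (n1 / n + 1)) ∧
      (∀ Z ∈ S, Cl F' R ε n1 Z) ∧
      ∀ z : E, ¬ (∀ i < n1, NoBox K Ω W ((T F')^[i] z)) → ∃ Z ∈ S, ∃ m, z - iv m ∈ Z := by
  classical
  set A : ℕ → Finset ((Fin (n1 + 2 * J + 2) → ℕ) × (Fin (n1 / n + 1) → ℕ)) := fun j =>
    (Fintype.piFinset fun s : Fin (n1 + 2 * J + 2) => D (-(j : ℤ) - J - 1 + (s : ℕ))) ×ˢ
      Fintype.piFinset fun _ : Fin (n1 / n + 1) => Finset.range (V + 1) with hA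
  refine ⟨(Finset.range n1).biUnion fun j => (A j).image (cls F' K Ω W cell n V n1 J j), ?_, ?_, ?_⟩
  · have h1 : ∀ j : ℕ, ((A j).card : ℝ) ≤ Real.exp (lsum D n *
        (((n1 + 2 * J + 2) / n + 1 : ℕ) : ℝ)) * ((V : ℝ) + 1) ^ (n1 / n + 1) := by
      intro j
      have h2 := prod_card_le hn hne hper (-(j : ℤ) - J - 1) (n1 + 2 * J + 2)
      rw [Finset.prod_range fun i : ℕ => ((D (-(j : ℤ) - J - 1 + i)).card : ℝ)] at h2
      simp only [hA, Finset.card_product, Fintype.card_piFinset, Finset.card_range,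
        Finset.prod_const, Finset.card_univ, Fintype.card_fin, Nat.cast_mul, Nat.cast_prod,
        Nat.cast_pow, Nat.cast_add (R := ℝ) V 1, Nat.cast_one]
      exact mul_le_mul_of_nonneg_right h2 (by positivity)
    calc _ ≤ ((∑ j ∈ Finset.range n1, (A j).card : ℕ) : ℝ) := by
          exact_mod_cast Finset.card_biUnion_le.trans
            (Finset.sum_le_sum fun j _ => Finset.card_image_le)
      _ = ∑ j ∈ Finset.range n1, ((A j).card : ℝ) := Nat.cast_sum _ _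
      _ ≤ _ := (Finset.sum_le_sum fun j _ => h1 j).trans (by simp)
  · intro Z hZ
    obtain ⟨j, hj, hZ⟩ := Finset.mem_biUnion.1 hZ
    obtain ⟨a, -, rfl⟩ := Finset.mem_image.1 hZ
    exact hcl j (Finset.mem_range.1 hj) a
  · intro z hz
    simp only [NoBox, not_forall, not_lt] at hz
    obtain ⟨j, hj, ω, hω, m, hm⟩ := hz
    obtain ⟨m0, hm0⟩ := iter_iv' j (-m)
    choose lab hlab hlab' using fun b : Fin (n1 / n + 1) =>
      exists_lab hc ((T F')^[(b : ℕ) * n + j % n] (z + iv m0))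
    refine ⟨cls F' K Ω W cell n V n1 J j (fun s => ω (-(j : ℤ) - J - 1 + (s : ℕ)), lab),
      Finset.mem_biUnion.2 ⟨j, Finset.mem_range.2 hj, Finset.mem_image_of_mem _ ?_⟩, -m0, ?_⟩
    · exact Finset.mem_product.2
        ⟨Fintype.mem_piFinset.2 fun s => hΩ hω _, Fintype.mem_piFinset.2 hlab⟩
    · rw [iv_neg, sub_neg_eq_add]
      refine ⟨ω, hω, ?_, fun _ => rfl, hlab'⟩
      rwa [hm0 F' L' 2 ha', iv_neg, ← sub_eq_add_neg]

theorem count_le {H a γ : ℝ} {n : ℕ} (hn : 0 < n) (V J n0 : ℕ) (ha : 0 ≤ a) (hγ : 0 < γ) :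
    ∃ n1 : ℕ, 0 < n1 ∧ n0 ≤ n1 ∧ Real.exp ((H + γ / 2) * n1) + n1 * (Real.exp (a *
        (((n1 + 2 * J + 2) / n + 1 : ℕ) : ℝ)) * ((V : ℝ) + 1) ^ (n1 / n + 1)) ≤
      Real.exp ((max H ((a + Real.log (V + 1)) / n) + γ) * n1) / 9 := by
  set b := Real.log (V + 1) with hb
  have hb0 : 0 ≤ b := Real.log_nonneg (by have : (0 : ℝ) ≤ V := Nat.cast_nonneg V; linarith)
  set A := Real.exp (a * (2 * J + 3) + b) with hA
  have hA0 : 0 < A := Real.exp_pos _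
  obtain ⟨n1, hn1⟩ := exists_nat_ge (n0 + 1 + 36 / γ + 72 * A / γ ^ 2)
  have p1 : 0 ≤ 36 / γ := by positivity
  have p2 : 0 ≤ 72 * A / γ ^ 2 := by positivity
  have p3 : (0 : ℝ) ≤ n0 := Nat.cast_nonneg _
  have q1 : 36 ≤ γ * n1 := by
    have : 36 / γ ≤ n1 := by linarith
    rwa [div_le_iff₀ hγ, mul_comm] at this
  have q2 : 72 * A ≤ γ ^ 2 * n1 := by
    have : 72 * A / γ ^ 2 ≤ n1 := by linarith
    rwa [div_le_iff₀ (by positivity), mul_comm (n1 : ℝ)] at this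
  have hn1' : (1 : ℝ) ≤ n1 := by linarith
  have hnR : (1 : ℝ) ≤ n := by exact_mod_cast hn
  set M := max H ((a + b) / n) with hM
  have hE : γ / 2 * n1 ≤ Real.exp (γ / 2 * n1) := by linarith [Real.add_one_le_exp (γ / 2 * n1)]
  have hE0 : 0 < Real.exp (γ / 2 * n1) := Real.exp_pos _
  have hM0 : 0 < Real.exp (M * n1) := Real.exp_pos _
  have e1 : Real.exp ((M + γ) * n1) =
      Real.exp (M * n1) * (Real.exp (γ / 2 * n1) * Real.exp (γ / 2 * n1)) := by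
    rw [← Real.exp_add, ← Real.exp_add]
    congr 1
    ring
  have h1 : Real.exp ((H + γ / 2) * n1) ≤ Real.exp (M * n1) * Real.exp (γ / 2 * n1) := by
    rw [← Real.exp_add]
    apply Real.exp_le_exp.2
    have : H ≤ M := le_max_left _ _
    nlinarith
  have h2 : Real.exp (a * (((n1 + 2 * J + 2) / n + 1 : ℕ) : ℝ)) * ((V : ℝ) + 1) ^ (n1 / n + 1) ≤
      Real.exp (M * n1) * A := by
    have e2 : ((V : ℝ) + 1) ^ (n1 / n + 1) = Real.exp (((n1 / n + 1 : ℕ) : ℝ) * b) := by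
      rw [Real.exp_nat_mul, hb, Real.exp_log (by positivity)]
    rw [e2, hA, ← Real.exp_add, ← Real.exp_add]
    apply Real.exp_le_exp.2
    have d1 : ((n1 / n : ℕ) : ℝ) ≤ n1 / n := Nat.cast_div_le
    have d2 : (((n1 + 2 * J + 2) / n : ℕ) : ℝ) ≤ n1 / n + (2 * J + 2) := by
      refine Nat.cast_div_le.trans ?_
      push_cast
      rw [add_assoc, add_div]
      exact add_le_add le_rfl (div_le_self (by positivity) hnR)
    have d3 : (a + b) * (n1 / n) ≤ M * n1 := by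
      have : (a + b) / n ≤ M := le_max_right _ _
      calc (a + b) * (n1 / n) = (a + b) / n * n1 := by ring
        _ ≤ _ := mul_le_mul_of_nonneg_right this (by linarith)
    rw [Nat.cast_add_one, Nat.cast_add_one]
    nlinarith [mul_le_mul_of_nonneg_left d1 hb0, mul_le_mul_of_nonneg_left d2 ha]
  refine ⟨n1, by exact_mod_cast (show (0 : ℝ) < n1 by linarith),
    by exact_mod_cast (show (n0 : ℝ) ≤ n1 by linarith), ?_⟩
  rw [e1]
  have h3 : 18 * Real.exp (γ / 2 * n1) ≤ Real.exp (γ / 2 * n1) * Real.exp (γ / 2 * n1) :=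
    mul_le_mul_of_nonneg_right (by linarith) hE0.le
  have h4 : 18 * (n1 * A) ≤ Real.exp (γ / 2 * n1) * Real.exp (γ / 2 * n1) := by
    have h5 : γ / 2 * n1 * (γ / 2 * n1) ≤ Real.exp (γ / 2 * n1) * Real.exp (γ / 2 * n1) :=
      mul_self_le_mul_self (by positivity) hE
    nlinarith
  have h6 := mul_le_mul_of_nonneg_left h2 (show (0 : ℝ) ≤ n1 by linarith)
  nlinarith [mul_le_mul_of_nonneg_left h3 hM0.le, mul_le_mul_of_nonneg_left h4 hM0.le]

end ZEnt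

open _root_.Pool.Agent.MP_369096_an.H89.ZEnt

theorem rinv_RZ {F' : E → ℝ} {L' : ℝ} (ha : Adm F' L' 2) (K : KD) (Ω : Set (ℤ → ℕ)) (W : ℝ)
    (cell : (ℤ → ℕ) → ℕ → Set E) : RInv (RZ F' K Ω W cell) := by
  refine ⟨fun A B hAB h => ?_, fun A m h => ?_⟩
  · rcases h with h | ⟨k, h⟩
    · exact Or.inl ((rinv_aff ha).1 A B hAB h)
    · exact Or.inr ⟨k, fun p hp => h p (hAB hp)⟩
  · rcases h with h | ⟨k, h⟩
    · exact Or.inl ((rinv_aff ha).2 A m h)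
    · refine Or.inr ⟨k, ?_⟩
      rintro _ ⟨p, hp, rfl⟩
      obtain ⟨ω, hω, m', h1, h2⟩ := h p hp
      have e : p + iv m - iv (m' + m) = p - iv m' := by
        rw [iv_add]
        abel
      exact ⟨ω, hω, m' + m, by rwa [e], by rwa [e]⟩

/-- Blocks of length `n1`. WLOG `ε ≤ K.dl / 2`. Points whose orbit does not visit a box at times `< n1` follow `F`: cut the sets of
`EntB.tubes` with this set of points (it is invariant under `ℤ²`: `iter_iv`). Points that visit a box at a time `j < n1`: translate (`iter_iv'`) so that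
`‖(T F')^[j] z - K.P ω‖ ≤ W`; by `KOK.shadow` the orbit is within a tiny distance of `pt (K.Y ω) (i - j)` for `i ≤ n1`. The class of `z` records `j`, the word of
`ω` on `[-j - J1, -j + n1 + J1]` (`J1 = J + 1`, `J` from `KOK.cont` for `ε/4`), and for each time `i < n1` with `n ∣ i - j` either the index of a cell or the
fact that the point is in no box. At most `n1 · exp (lsum D n · ((n1 + 2 J1 + 1)/n + 1)) · (V+1)^(n1/n + 1)` classes (`prod_card_le`). In a class all points at time `i` are within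
`K.dl` of the same point of the horseshoe, where `F` is affine; outside the boxes `F' = F` (`Box.not_mem` when `n ∤ i - j`); at a visit `m = 0` is forced (`KOK.small`). `cov_of_union`. -/
theorem cov_Z (ha : Adm F L 2) {r H κ : ℝ} {N : ℕ} (hl : Loc F r N) (h2 : H2 F) (he : EntB F H)
    (hk : KOK F K) (hκ : 0 ≤ κ) {n : ℕ} (hn : 0 < n) (V : ℕ) {D : ℤ → Finset ℕ}
    (hne : ∀ i, (D i).Nonempty) (hper : ∀ i, D (i + n) = D i) {ε ε0 γ : ℝ} (hε : 0 < ε)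
    (hε0 : 0 < ε0) (hγ : 0 < γ) :
    ∃ n1 : ℕ, 0 < n1 ∧ ∃ W0 > 0, ∀ (F' : E → ℝ) (L' W c : ℝ) (Ω : Set (ℤ → ℕ))
      (cell : (ℤ → ℕ) → ℕ → Set E), 0 < W → W ≤ W0 → Adm F' L' 2 → Box F K F' Ω n V W c κ ε0 →
      Ω ⊆ Words D → (∀ ω ∈ Ω, ∀ z, ‖z - K.P ω‖ ≤ W → ∃ k < V, z ∈ cell ω k) →
      Cov F' (RZ F' K Ω W cell) ε n1
        (Real.exp ((max H ((lsum D n + Real.log (V + 1)) / n) + γ) * n1) / 9) := by
  obtain ⟨n0, hn0⟩ := he.tubes ha hl h2 hε (half_pos hγ)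
  have hdl := hk.dpos
  obtain ⟨J, hJ⟩ := hk.cont (min ε K.dl / 2) (by positivity)
  obtain ⟨n1, hn1, hn01, hcount⟩ := count_le (H := H) hn V J n0 (lsum_nonneg hne n) hγ
  obtain ⟨c0, hc0, hsh⟩ := hk.shadow ha
  set τ := min (min ε K.dl) (min ε0 1) / 4 with hτ
  have hτ0 : 0 < τ := by positivity
  have t1 : min (min ε K.dl) (min ε0 1) ≤ min ε K.dl := min_le_left _ _
  have t2 : min (min ε K.dl) (min ε0 1) ≤ min ε0 1 := min_le_right _ _
  have t3 := min_le_left ε K.dl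
  have t4 := min_le_right ε K.dl
  have t5 := min_le_left ε0 1
  have t6 := min_le_right ε0 1
  have hμ : 1 ≤ K.μ ^ n1 := one_le_pow₀ hk.eok.mu.le
  have hB : 1 ≤ c0 * (κ + 1) * K.μ ^ n1 :=
    one_le_mul_of_one_le_of_one_le (one_le_mul_of_one_le_of_one_le hc0 (by linarith)) hμ
  refine ⟨n1, hn1, τ / (c0 * (κ + 1) * K.μ ^ n1), by positivity, ?_⟩
  intro F' L' W c Ω cell hW hW0 ha' hb hΩ hc
  rw [le_div_iff₀ (by positivity)] at hW0
  have hWτ : W ≤ τ := by nlinarith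
  have hr : c0 * ((κ + 1) * W) * K.μ ^ n1 ≤ τ := by linarith
  obtain ⟨S, hS1, hS2, hS3⟩ := cov_nv cell ha' hb (hn0 n1 hn01)
  obtain ⟨S', hS1', hS2', hS3'⟩ := cov_v (J := J) (n1 := n1) (R := RZ F' K Ω W cell) (ε := ε)
    ha' hn hne hper hΩ hc fun j hj a => by
      refine cl_cls (τ := τ) hk cell hb hJ ?_ (by linarith) (by linarith) (by linarith)
        (by linarith) a
      intro z ω hω hd i hi
      obtain ⟨x, hx, hx0⟩ := ha'.exists_orb z (-(j : ℤ))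
      have hxi : ∀ i : ℕ, pt x ((i : ℤ) - j) = (T F')^[i] z := fun i => by
        rw [← hx0, ← hx.iter, neg_add_eq_sub]
      have hp : POrb F ((κ + 1) * W) x := fun t => (hx.porb hb.close t).trans (by nlinarith)
      have h0 : ‖pt x 0 - pt (K.Y ω) 0‖ ≤ (κ + 1) * W := by
        have := hxi j
        rw [sub_self] at this
        rw [this]
        exact le_trans hd (by nlinarith)
      have hq : (1 : ℤ) ≤ K.q := by exact_mod_cast hk.eok.qpos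
      have hq' : (n1 : ℤ) ≤ n1 * K.q := le_mul_of_one_le_right (Int.natCast_nonneg _) hq
      have := hsh ω (hb.sub hω) 0 n1 _ x hp h0 (by linarith) ((i : ℤ) - j)
        (abs_le.2 ⟨by omega, by omega⟩)
      rw [hxi, zero_add] at this
      exact this.trans hr
  refine (cov_of_union hS1 hS1' hS2 hS2' fun z => ?_).mono (fun _ h => h) le_rfl le_rfl hcount
  by_cases hz : ∀ i < n1, NoBox K Ω W ((T F')^[i] z)
  · exact Or.inl (hS3 z hz)
  · exact Or.inr (hS3' z hz)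

end Pool.Agent.MP_369096_an.H89
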