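import Pool.Agent.MP_369096_an.H89.ZEnt

/-!
TASK ZEntB. Entropy after the zigzag step, part 2. Auxiliary lemmas go in namespace `H89.ZEntB`.
-/

set_option autoImplicit false

open Set Filter Topology

namespace Pool.Agent.MP_369096_an.H89

variable {F : E → ℝ} {L : ℝ} {K : KD}

namespace ZEntB

theorem orb_at {F' : E → ℝ} {L' : ℝ} (ha : Adm F' L' 2) (z : E) (t : ℕ) :
    ∃ x, Orb F' x ∧ ∀ (j : ℤ) (s : ℕ), (s : ℤ) = t + j → pt x j = (T F')^[s] z := by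
  obtain ⟨x, hx, h0⟩ := ha.exists_orb z (-(t : ℤ))
  refine ⟨x, hx, fun j s hs => ?_⟩
  have := hx.iter (-(t : ℤ)) s
  rw [h0] at this
  rw [← this]
  congr 1
  omega

theorem norm_P (hk : KOK F K) {ω : ℤ → ℕ} (hω : ω ∈ K.X) : ‖K.P ω‖ ≤ 1 / 20 := by
  obtain ⟨ρ, hρ, h⟩ := hk.small
  rw [KD.P, pt, Prod.norm_def]
  exact max_le ((h ω hω _).trans hρ.le) ((h ω hω _).trans hρ.le)

theorem aff_empty (F' : E → ℝ) : AffOn F' ∅ := ⟨0, fun _ h => h.elim⟩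

/-- In the middle of a long class the box and the translation are determined. -/
theorem tube (ha : Adm F L 2) (hk : KOK F K) {κ : ℝ} (hκ : 0 ≤ κ) :
    ∃ c > 0, ∃ ε > 0, ε ≤ 1 ∧ ∀ (F' : E → ℝ) (L' W : ℝ) (Ω : Set (ℤ → ℕ))
      (cell : (ℤ → ℕ) → ℕ → Set E) (Lw n : ℕ), 0 < W → Adm F' L' 2 → Close F F' (κ * W) →
      Ω ⊆ K.X → c * W * K.μ ^ Lw ≤ 1 →
      (∀ ω ∈ Ω, ∀ ω' ∈ Ω, (∀ i : ℤ, |i| ≤ (Lw : ℤ) * K.q → ω i = ω' i) → ω = ω') →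
      (∀ ω ∈ Ω, ∀ k, AffOn F' (cell ω k)) → ∀ Z,
      Cl F' (RZ F' K Ω W cell) ε (Lw * K.q + n + Lw * K.q) Z →
      ∀ i < n, AffOn F' ((T F')^[Lw * K.q + i] '' Z) := by
  obtain ⟨c0, hc0, hsh⟩ := hk.shadow ha
  have hsp := hk.spos
  have hdl := hk.dpos
  obtain ⟨δ, hδ, hδ1, hδ2, hδ3⟩ : ∃ δ : ℝ, 0 < δ ∧ δ ≤ K.dl ∧ δ ≤ K.sp / 4 ∧ δ ≤ 1 / 8 :=
    ⟨min K.dl (min (K.sp / 4) (1 / 8)), by positivity, min_le_left _ _,
      (min_le_right _ _).trans (min_le_left _ _), (min_le_right _ _).trans (min_le_right _ _)⟩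
  refine ⟨c0 * (κ + 1) / δ, by positivity, δ, hδ, by linarith, ?_⟩
  intro F' L' W Ω cell Lw n hW ha' hcl hΩ hc hinj haff Z hZ i hi
  have hμ : 1 ≤ K.μ ^ Lw := one_le_pow₀ hk.eok.mu.le
  have hr : c0 * ((κ + 1) * W) * K.μ ^ Lw ≤ δ := by
    have e : c0 * ((κ + 1) * W) * K.μ ^ Lw = c0 * (κ + 1) / δ * W * K.μ ^ Lw * δ := by
      field_simp
    rw [e]
    exact mul_le_of_le_one_left hδ.le hc
  have hW1 : W ≤ (κ + 1) * W := le_mul_of_one_le_left hW.le (by linarith)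
  have hW2 : W ≤ δ := by
    calc W ≤ (κ + 1) * W := hW1
      _ ≤ c0 * ((κ + 1) * W) := le_mul_of_one_le_left (by positivity) hc0
      _ ≤ c0 * ((κ + 1) * W) * K.μ ^ Lw := le_mul_of_one_le_right (by positivity) hμ
      _ ≤ δ := hr
  rcases hZ.2 (Lw * K.q + i) (by omega) with h | ⟨k, h⟩
  · exact h
  rcases Z.eq_empty_or_nonempty with rfl | ⟨z0, hz0⟩
  · rw [image_empty]
    exact aff_empty F'
  obtain ⟨ω0, hω0, m0, hb0, -⟩ := h _ (mem_image_of_mem _ hz0)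
  refine (rinv_aff ha').1 _ _ ?_ ((rinv_aff ha').2 _ m0 (haff ω0 hω0 k))
  rintro _ ⟨z, hz, rfl⟩
  obtain ⟨ω, hω, m, hb, hcell⟩ := h _ (mem_image_of_mem _ hz)
  have hd0 := hZ.1 (Lw * K.q + i) (by omega) z hz z0 hz0
  obtain rfl : m = m0 := by
    refine iv_eq_of_norm_lt ?_
    have e : iv m - iv m0 = ((T F')^[Lw * K.q + i] z - (T F')^[Lw * K.q + i] z0) -
        ((T F')^[Lw * K.q + i] z - iv m - K.P ω) + ((T F')^[Lw * K.q + i] z0 - iv m0 - K.P ω0) -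
        K.P ω + K.P ω0 := by abel
    rw [e]
    have h1 := norm_P hk (hΩ hω)
    have h2 := norm_P hk (hΩ hω0)
    refine lt_of_le_of_lt ((norm_add_le _ _).trans (add_le_add ((norm_sub_le _ _).trans
      (add_le_add ((norm_add_le _ _).trans (add_le_add ((norm_sub_le _ _).trans
        (add_le_add hd0 hb)) hb0)) h1)) h2)) ?_
    linarith
  obtain ⟨g, hg, hg0⟩ := exists_intorb 0 m
  have key : ∀ w ∈ Z, ∀ τ ∈ Ω, ‖(T F')^[Lw * K.q + i] w - iv m - K.P τ‖ ≤ W →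
      ∀ (j : ℤ) (s : ℕ), |j| ≤ (Lw : ℤ) * K.q → (s : ℤ) = (Lw * K.q + i : ℕ) + j →
      ‖(T F')^[s] w - iv (g j, g (j - 1)) - pt (K.Y τ) j‖ ≤ δ := by
    intro w _ τ hτ hbw j s hj hs
    obtain ⟨x, hx, hxe⟩ := orb_at ha' w (Lw * K.q + i)
    have hp : POrb F ((κ + 1) * W) fun j => x j - g j := fun t =>
      (((ha'.orb_sub hx hg).porb hcl) t).trans (by linarith)
    have := hsh τ (hΩ hτ) 0 Lw _ _ hp (by
      rw [pt_sub_int, hg0, hxe 0 (Lw * K.q + i) (by simp)]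
      exact hbw.trans hW1) (hr.trans hδ1) j hj
    rw [pt_sub_int, hxe j s hs, zero_add] at this
    exact this.trans hr
  obtain rfl : ω = ω0 := by
    refine hinj ω hω ω0 hω0 fun j hj => ?_
    obtain ⟨hj1, hj2⟩ := abs_le.1 hj
    obtain ⟨s, hs⟩ : ∃ s : ℕ, (s : ℤ) = (Lw * K.q + i : ℕ) + j :=
      ⟨_, Int.toNat_of_nonneg (by push_cast; omega)⟩
    have h1 := key z hz ω hω hb j s hj hs
    have h2 := key z0 hz0 ω0 hω0 hb0 j s hj hs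
    have h3 := hZ.1 s (by zify; push_cast at hs; omega) z hz z0 hz0
    refine (hk.sep ω (hΩ hω) ω0 (hΩ hω0) j j ?_).2
    have e : pt (K.Y ω) j - pt (K.Y ω0) j = ((T F')^[s] z - (T F')^[s] z0) -
        ((T F')^[s] z - iv (g j, g (j - 1)) - pt (K.Y ω) j) +
        ((T F')^[s] z0 - iv (g j, g (j - 1)) - pt (K.Y ω0) j) := by abel
    rw [e]
    refine lt_of_le_of_lt ((norm_add_le _ _).trans (add_le_add ((norm_sub_le _ _).trans
      (add_le_add h3 h1)) h2)) ?_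
    linarith
  exact ⟨_, hcell, sub_add_cancel _ _⟩

theorem rate {Λ γ : ℝ} (hΛ : 0 ≤ Λ) (hγ : 0 < γ) (a : ℕ) {n1 : ℕ} (hn : 0 < n1) :
    ∃ k n : ℕ, 0 < n ∧ (k + 1) * n1 = a + n + a ∧ (k + 2) * Λ / n ≤ Λ / n1 + γ := by
  obtain ⟨t, ht⟩ := exists_nat_ge (Λ * (1 + 2 * a) / γ)
  have h1 : 2 * a + t + 1 ≤ (2 * a + t + 1) * n1 := Nat.le_mul_of_pos_right _ hn
  obtain ⟨n, hn1⟩ : ∃ n, (2 * a + t + 1) * n1 = a + n + a :=
    ⟨(2 * a + t + 1) * n1 - 2 * a, by omega⟩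
  have h2 : t < n := by omega
  refine ⟨2 * a + t, n, by omega, hn1, ?_⟩
  have hn' : (1 : ℝ) ≤ n1 := by exact_mod_cast hn
  have h2' : (t : ℝ) ≤ n := by exact_mod_cast h2.le
  have hpos : (0 : ℝ) < n := by exact_mod_cast (by omega : 0 < n)
  have e : (2 * (a : ℝ) + t + 1) * n1 = a + n + a := by exact_mod_cast hn1
  rw [div_le_iff₀ hγ] at ht
  rw [div_le_iff₀ hpos]
  have h3 : Λ / n1 ≤ Λ := div_le_self hΛ hn'
  have h4 : Λ / n1 * n = (2 * (a : ℝ) + t + 1) * Λ - 2 * a * (Λ / n1) := by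
    have : (n : ℝ) = (2 * (a : ℝ) + t + 1) * n1 - 2 * a := by linarith
    rw [this]
    field_simp
  have h5 : 2 * (a : ℝ) * (Λ / n1) ≤ 2 * a * Λ := mul_le_mul_of_nonneg_left h3 (by positivity)
  have h6 : t * γ ≤ n * γ := mul_le_mul_of_nonneg_right h2' hγ.le
  push_cast
  rw [add_mul (Λ / n1), h4]
  linarith

theorem enum {F' : E → ℝ} (hc : Continuous F') {S : Finset (Set E × Af)} {V : ℕ} (hV : S.card ≤ V)
    (hS : ∀ A ∈ S, ∀ p ∈ A.1, Germ F' p A.2) :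
    ∃ e : ℕ → Set E, (∀ k, AffOn F' (e k)) ∧ ∀ A ∈ S, ∃ k < V, e k = A.1 := by
  refine ⟨fun k => if h : k < S.card then (S.equivFin.symm ⟨k, h⟩).1.1 else ∅, fun k => ?_,
    fun A hA => ⟨S.equivFin ⟨A, hA⟩, (S.equivFin ⟨A, hA⟩).2.trans_le hV, ?_⟩⟩
  · by_cases h : k < S.card
    · simp only [dif_pos h]
      exact ⟨_, fun p hp => (hS _ (S.equivFin.symm ⟨k, h⟩).2 p hp).eq hc⟩
    · simp only [dif_neg h]
      exact aff_empty F'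
  · simp

end ZEntB

/-- From blocks to tubes. Concatenate `B` blocks (`Cov.pow`), drop `a = Lw q` times at both ends (`Cov.shift`, `Cov.mono`). If two points of a class are in boxes
`K.P ω + iv m`, `K.P ω' + iv m'` at a time `i ∈ [a, a + n)`, then `m = m'` (`iv_eq_of_norm_lt`, `KOK.small`); after a common translation both orbits (`Adm.exists_orb`, `Orb.iter`) are within
`K.sp / 3` of `K.Y ω`, `K.Y ω'` on `|j| ≤ Lw q` (`KOK.shadow`) and within `ε < K.sp / 3` of each other, so `ω = ω'` (`KOK.sep`), and the cell gives `AffOn` (`rinv_aff`).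
`entB_of_tubes` gives the rate `log (9 (9 N)^B) / (B n1 - 2a)`, which tends to `log (9 N) / n1`; `entB_of_forall`, `EntB.mono`, `Cov.one_le`. -/
theorem entB_of_RZ (ha : Adm F L 2) (hk : KOK F K) {κ : ℝ} (hκ : 0 ≤ κ) :
    ∃ c > 0, ∃ ε > 0, ∀ (F' : E → ℝ) (L' W N : ℝ) (Ω : Set (ℤ → ℕ)) (cell : (ℤ → ℕ) → ℕ → Set E)
      (Lw n1 : ℕ), 0 < W → Adm F' L' 2 → Close F F' (κ * W) → Ω ⊆ K.X → c * W * K.μ ^ Lw ≤ 1 →
      (∀ ω ∈ Ω, ∀ ω' ∈ Ω, (∀ i : ℤ, |i| ≤ (Lw : ℤ) * K.q → ω i = ω' i) → ω = ω') →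
      (∀ ω ∈ Ω, ∀ k, AffOn F' (cell ω k)) → 0 < n1 → Cov F' (RZ F' K Ω W cell) ε n1 N →
      EntB F' (Real.log (9 * N) / n1) := by
  obtain ⟨c, hc, ε, hε, hε1, h⟩ := ZEntB.tube ha hk hκ
  refine ⟨c, hc, ε, hε, ?_⟩
  intro F' L' W N Ω cell Lw n1 hW ha' hcl hΩ hcW hinj haff hn1 hcov
  have hN := hcov.one_le
  have h9 : Real.log 9 ≤ Real.log (9 * N) := Real.log_le_log (by norm_num) (by linarith)
  have h0 : 0 ≤ Real.log (9 * N) := Real.log_nonneg (by linarith)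
  refine entB_of_forall fun γ hγ => ?_
  obtain ⟨k, n, hn, e, hr⟩ := ZEntB.rate h0 hγ (Lw * K.q) hn1
  have h1 := hcov.pow ha' (rinv_RZ ha' K Ω W cell) hε1 k
  rw [e] at h1
  have h2 := (h1.shift ha' (h F' L' W Ω cell Lw n hW ha' hcl hΩ hcW hinj haff)).mono
    (fun _ h => h) hε1 le_rfl le_rfl
  refine (entB_of_tubes ha' hn h2).mono (le_trans ?_ hr)
  refine div_le_div_of_nonneg_right ?_ (Nat.cast_nonneg n)
  rw [Real.log_mul (by norm_num) (by positivity), Real.log_pow]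
  push_cast
  linarith

/-- Enumerate the cells of each box (`Germ.eq`; the empty set for indices beyond the number of cells) and combine. -/
theorem entB_Z (ha : Adm F L 2) {r H κ : ℝ} {N : ℕ} (hl : Loc F r N) (h2 : H2 F) (he : EntB F H)
    (hk : KOK F K) (hκ : 0 ≤ κ) : ∃ c > 0, ∀ n : ℕ, 0 < n → ∀ (V : ℕ) (D : ℤ → Finset ℕ),
      (∀ i, (D i).Nonempty) → (∀ i, D (i + n) = D i) → ∀ ε0 > 0, ∀ γ > 0, ∃ W0 > 0,
        ∀ (F' : E → ℝ) (L' W cB : ℝ) (Ω : Set (ℤ → ℕ)) (Lw : ℕ), 0 < W → W ≤ W0 → Adm F' L' 2 →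
          1 ≤ cB → Box F K F' Ω n V W cB κ ε0 → Ω ⊆ Words D → c * W * K.μ ^ Lw ≤ 1 →
          (∀ ω ∈ Ω, ∀ ω' ∈ Ω, (∀ i : ℤ, |i| ≤ (Lw : ℤ) * K.q → ω i = ω' i) → ω = ω') →
          EntB F' (max H ((lsum D n + Real.log (V + 1)) / n) + γ) := by
  obtain ⟨c, hc, ε, hε, h⟩ := entB_of_RZ ha hk hκ
  refine ⟨c, hc, fun n hn V D hne hper ε0 hε0 γ hγ => ?_⟩
  obtain ⟨n1, hn1, W0, hW0, hcov⟩ := cov_Z ha hl h2 he hk hκ hn V hne hper hε hε0 hγ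
  refine ⟨W0, hW0, fun F' L' W cB Ω Lw hW hWW ha' hcB hB hΩ hcW hinj => ?_⟩
  have hcell : ∀ ω, ∃ e : ℕ → Set E, ω ∈ Ω → (∀ k, AffOn F' (e k)) ∧
      ∀ z, ‖z - K.P ω‖ ≤ W → ∃ k < V, z ∈ e k := by
    intro ω
    by_cases hω : ω ∈ Ω
    · obtain ⟨S, hV, hS, hc⟩ := hB.cells ω hω
      obtain ⟨e, he1, he2⟩ := ZEntB.enum ha'.cont hV fun A hA => (hS A hA).2.2
      refine ⟨e, fun _ => ⟨he1, fun z hz => ?_⟩⟩
      obtain ⟨A, hA, hzA⟩ := hc z (hz.trans (le_mul_of_one_le_left hW.le hcB))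
      obtain ⟨k, hk1, hk2⟩ := he2 A hA
      exact ⟨k, hk1, hk2 ▸ hzA⟩
    · exact ⟨fun _ => ∅, fun h => absurd h hω⟩
  choose cell hcell using hcell
  have := h F' L' W _ Ω cell Lw n1 hW ha' hB.close hB.sub hcW hinj (fun ω hω => (hcell ω hω).1) hn1
    (hcov F' L' W cB Ω cell hW hWW ha' hB hΩ fun ω hω => (hcell ω hω).2)
  have hn' : (n1 : ℝ) ≠ 0 := by exact_mod_cast hn1.ne'
  rwa [mul_div_cancel₀ _ (by norm_num : (9 : ℝ) ≠ 0), Real.log_exp, mul_div_cancel_right₀ _ hn']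
    at this

end Pool.Agent.MP_369096_an.H89
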