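import Pool.Agent.MP_369096_an.H89.KL2
import Pool.Agent.MP_369096_an.H89.Grow
import Pool.Agent.MP_369096_an.H89.Win

/-!
TASK ZGrow. The crossing property survives the zigzag step. Auxiliary lemmas: namespace `H89.ZGrow`.

Use `qp_of_steps` for `F'`. `C ≥ 1/2`; WLOG `C' ≥ 1/2` (`HYP.half_le`, or replace `C'` by `max C' 1` in all constants). `VF = N^2`, `Λ = 2 max L L' + 2`; `ng, cg` from `KOK.gap`;
`Θ` with `4 C² (2C') ≤ l^Θ`, `2 C (2C') ≤ l^Θ`; `k5 ≥ 1` with `4 C C' ≤ l^k5`; `n1 ≥ Θ` with `4 C' VF ≤ l'^n1`; `δF` from `cx_self` for `n1`.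
`cB = 3 ng + 3`; `n0 > Θ + k5 + 1`. Given `Q, V, ε` choose `δ ≤ δF` and `W0` so small that `r1 = Λ^n1 δ + (κ+1) W` has
`c r1 μ^Q ≤ min K.dl/2 (min ε 1)/4` (`c` from `KOK.shadow`), `Λ^n1 δ ≤ cg`, and `3 ng W ≤ δ / (2 C' VF)`.
Let `(z,d)` be `Exp F' (2C') l'`, `‖d‖ ≤ δ`.
Case A: no point `(T F')^[i] (z + t•d)`, `i < n1`, is in a closed box. Then `T F' = T F` along these orbits and germs of `F` are germs
of `F'` there (`Box.off_nhds`, `Germ.congr`); the longest piece (`CX.longest` for `F`) is a `Seg` for both maps; it doubles (`ExpAt.fw`), and its image is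
`Good F (2C)` (`expAt_of_past` with `C0 = 2C'`).
Case B: `i < n1` is the first time with a point in a box `K.P ω + iv m`. Take the longest piece for the times `< i` (`CX.mono`); its image
`(z1,d1)` has `‖d1‖ ≥ ‖d‖/(2 C' VF)` and lies within `Λ^n1 δ + W` of the centre. If `3 ng W ≤ ‖d1‖` take the sub-segment from `KOK.gap` (translate by `iv m`; the other translates
are far away), which misses all boxes: there `F' = F` is affine. Otherwise the segment meets... it lies within `Λ^n1 δ + W` of the centre only, so argue again: if it meets no box at all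
it is a `Seg` as before; if it meets the box of some `ω' ∈ Ω` it lies in the ball of radius `cB W` around `K.P ω'`, and `longest_cell` applies. In all cases a fraction
`≥ 1/(ng V)` is a `Seg F'` for one step. For the times `1 ≤ j < Q q` all its points are near `pt (K.Y ω) j` (`KOK.shadow`, both maps' orbits are
`POrb F r1`), outside the boxes (`Box.not_mem`), so the germ is the affine function of `KOK.aff_near` with gradient `K.co j`. The vector `v` solves `K.co` on `[1, Qq]`;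
`ang_fwd` over `k5` steps from time `1` (`KOK.stab`) and the invariance of `dt · (pt s ·)` (`dt_TL`) with `‖pt s (Qq)‖ = μ^(-Q) ‖pt s 0‖` (`EOK.upow`) give
`‖v‖_(Qq) ≥ c' μ^Q ‖v‖_1`; choose `cQ` so that the length doubles.
Final step (`‖d‖ = δ`): in case B the segment is long, so `F' = F` also at time `i`; `Θ` steps from time `i` form a `Seg` for both maps and the image is `Good F (2C)` of
length `≥ δ / (2C' VF ng 2C')`. Then `cr_transfer` (fix `δ0` before `W0`), `Sub.cr`.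
-/

set_option autoImplicit false

open Set Filter Topology

namespace Pool.Agent.MP_369096_an.H89

namespace ZGrow

variable {F F' : E → ℝ} {K : KD} {Ω : Set (ℤ → ℕ)} {L L' W cB κ ε : ℝ} {n V : ℕ}

/-- Outside all closed boxes. -/
def NB (K : KD) (Ω : Set (ℤ → ℕ)) (W : ℝ) (p : E) : Prop :=
  ∀ ω ∈ Ω, ∀ m, W < ‖p - iv m - K.P ω‖

theorem piece (z d : E) (a b t : ℝ) :
    z + a • d + t • ((b - a) • d) = z + (a + t * (b - a)) • d := by
  module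

theorem piece_mem {a b t : ℝ} (hab : a ≤ b) (ht : t ∈ Icc (0:ℝ) 1) :
    a + t * (b - a) ∈ Icc a b := by
  constructor <;> nlinarith [ht.1, ht.2]

theorem iter_eq (hb : Box F K F' Ω n V W cB κ ε) (p : E) {k : ℕ}
    (h : ∀ i < k, NB K Ω W ((T F')^[i] p)) : ∀ i ≤ k, (T F')^[i] p = (T F)^[i] p := by
  intro i
  induction i with
  | zero => intro _; rfl
  | succ i ih =>
    intro hi
    rw [Function.iterate_succ_apply', Function.iterate_succ_apply', ← ih (by omega)]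
    simp only [T, hb.off _ (h i (by omega))]

theorem germ_of_nb (hb : Box F K F' Ω n V W cB κ ε) {p : E} (h : NB K Ω W p) {g : Af}
    (hg : Germ F p g) : Germ F' p g :=
  hg.congr (hb.off_nhds h)

theorem seg_of_nb (hb : Box F K F' Ω n V W cB κ ε) {z d : E} {k : ℕ} {g : ℕ → Af}
    (h : ∀ i < k, ∀ t ∈ Icc (0:ℝ) 1, NB K Ω W ((T F')^[i] (z + t • d))) (hs : Seg F z d g k) :
    Seg F' z d g k := by
  intro i hi t ht
  refine germ_of_nb hb (h i hi t ht) ?_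
  rw [iter_eq hb _ (fun j hj => h j hj t ht) i hi.le]
  exact hs i hi t ht

theorem Seg.germ0 {z d : E} {k : ℕ} {g : ℕ → Af} (hs : Seg F z d g k) :
    ∀ i < k, Germ F ((T F)^[i] z) (g i) := by
  intro i hi
  have := hs i hi 0 ⟨le_rfl, zero_le_one⟩
  rwa [zero_smul, add_zero] at this

theorem iter_eq_of_seg (hc : Continuous F) (hc' : Continuous F') {z d : E} {k : ℕ} {g : ℕ → Af}
    (hs : Seg F z d g k) (hs' : Seg F' z d g k) : ∀ i ≤ k, (T F')^[i] z = (T F)^[i] z := by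
  intro i
  induction i with
  | zero => intro _; rfl
  | succ i ih =>
    intro hi
    have h1 := (Seg.germ0 hs i (by omega)).eq hc
    have h2 := (Seg.germ0 hs' i (by omega)).eq hc'
    rw [Function.iterate_succ_apply', Function.iterate_succ_apply']
    rw [ih (by omega)] at h2 ⊢
    simp only [T, h1, h2]

theorem good_of_seg {C l C0 : ℝ} (ha : Adm F L 2) (hh : HYP F C l) (hC : 0 ≤ C) (hl : 1 < l)
    {z d : E} {g : ℕ → Af} {k : ℕ} (hs : Seg F z d g k) (hd : ‖d‖ ≤ C0 * ‖fw g d k‖)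
    (hn : 4 * C * C * C0 ≤ l ^ k) (hn' : 2 * C * C0 ≤ l ^ k) :
    Good F (2 * C) ((T F)^[k] z) (fw g d k) := by
  intro t ht
  rw [← hs.iter ha.cont le_rfl ht]
  exact (expAt_of_past ha hh hC hl (fun i hi => hs i hi t ht) hd hn hn').good hl.le (by positivity)

theorem seg_iv (m : ℤ × ℤ) (g : ℕ → Af) : ∃ g' : ℕ → Af, (∀ j, (g' j).1 = (g j).1) ∧
    ∀ (F : E → ℝ) (L κ : ℝ), Adm F L κ → ∀ z d k, Seg F (z - iv m) d g k → Seg F z d g' k := by
  choose m' hm' using fun j => iter_iv j m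
  refine ⟨fun j => ((g j).1, (g j).2 - lin (g j).1 (iv (m' j)) + 22 * ((m' j).1 : ℝ) -
    ((m' j).2 : ℝ)), fun j => rfl, fun F L κ ha z d k hs i hi t ht => ?_⟩
  have e : z + t • d = (z - iv m + t • d) + iv m := by abel
  rw [e, hm' i F L κ ha]
  exact ha.germ_iv _ (hs i hi t ht)

/-- Along an expanding segment the vector does not collapse. -/
theorem fw_le {r' C' l' : ℝ} {N' : ℕ} (ha' : Adm F' L' 2) (hl' : Loc F' r' N')
    (h1 : 1 ≤ l') {z d : E} (he : Exp F' C' l' z d) {g : ℕ → Af} {k : ℕ} (hs : Seg F' z d g k)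
    {i j : ℕ} (hij : i ≤ j) (hj : j ≤ k) : l' ^ (j - i) * ‖fw g d i‖ ≤ C' * ‖fw g d j‖ := by
  have h0 := he 0 ⟨le_rfl, zero_le_one⟩
  rw [zero_smul, add_zero] at h0
  have h2 := h0.fw ha' hl' (Seg.germ0 hs) hij hj
  have hl0 : 0 < l' := by linarith
  have e : l' ^ ((i : ℤ) - j) = (l' ^ (j - i))⁻¹ := by
    rw [← zpow_natCast, ← zpow_neg]
    congr 1
    push_cast [hij]
    ring
  rw [e] at h2
  have h3 : 0 < l' ^ (j - i) := by positivity
  calc l' ^ (j - i) * ‖fw g d i‖ ≤ l' ^ (j - i) * (C' * (l' ^ (j - i))⁻¹ * ‖fw g d j‖) :=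
        mul_le_mul_of_nonneg_left h2 h3.le
    _ = C' * ‖fw g d j‖ := by field_simp

theorem fw_le' {r' C' l' : ℝ} {N' : ℕ} (ha' : Adm F' L' 2) (hl' : Loc F' r' N')
    (h1 : 1 ≤ l') {z d : E} (he : Exp F' C' l' z d) {g : ℕ → Af} {k : ℕ} (hs : Seg F' z d g k)
    {i j : ℕ} (hij : i ≤ j) (hj : j ≤ k) : ‖fw g d i‖ ≤ C' * ‖fw g d j‖ :=
  le_trans (le_mul_of_one_le_left (norm_nonneg _) (one_le_pow₀ h1))
    (fw_le ha' hl' h1 he hs hij hj)

theorem norm_P (hk : KOK F K) {ω : ℤ → ℕ} (hω : ω ∈ K.X) : ‖K.P ω‖ ≤ 1 / 20 := by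
  obtain ⟨ρ, hρ, h⟩ := hk.small
  have h1 := h ω hω 0
  have h2 := h ω hω (0 - 1)
  rw [KD.P, pt, Prod.norm_def]
  exact max_le (h1.trans hρ.le) (h2.trans hρ.le)

/-- Near a centre only the untranslated boxes matter. -/
theorem eq_zero_of_near (hk : KOK F K) {ω ω' : ℤ → ℕ} (hω : ω ∈ K.X) (hω' : ω' ∈ K.X) {p : E}
    {ρ : ℝ} (hp : ‖p - K.P ω‖ ≤ ρ) (hρ : ρ + W ≤ 1 / 2) {m : ℤ × ℤ}
    (hm : ‖p - iv m - K.P ω'‖ ≤ W) : iv m = 0 := by
  have h0 : iv ((0, 0) : ℤ × ℤ) = 0 := by simp [iv]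
  have h1 := norm_P hk hω
  have h2 := norm_P hk hω'
  have e : iv m - iv ((0, 0) : ℤ × ℤ) =
      (p - K.P ω) - (p - iv m - K.P ω') + (K.P ω - K.P ω') := by
    rw [h0]; abel
  have h3 : ‖iv m - iv ((0, 0) : ℤ × ℤ)‖ < 1 := by
    rw [e]
    have a1 := norm_add_le ((p - K.P ω) - (p - iv m - K.P ω')) (K.P ω - K.P ω')
    have a2 := norm_sub_le (p - K.P ω) (p - iv m - K.P ω')
    have a3 := norm_sub_le (K.P ω) (K.P ω')
    linarith
  rw [iv_eq_of_norm_lt h3, h0]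

/-- The affine functions along the orbit of a centre. -/
def G (K : KD) (ω : ℤ → ℕ) (j : ℕ) : Af :=
  (K.co j, K.Y ω (j + 1) - lin (K.co j) (pt (K.Y ω) j))

/-- The shadowing property, as a hypothesis. -/
def Sh (F : E → ℝ) (K : KD) (c : ℝ) : Prop :=
  ∀ ω ∈ K.X, ∀ (i0 : ℤ) (k : ℕ) (r : ℝ) (x : ℤ → ℝ), POrb F r x →
    ‖pt x 0 - pt (K.Y ω) i0‖ ≤ r → c * r * K.μ ^ k ≤ K.dl →
      ∀ i : ℤ, |i| ≤ k * K.q → ‖pt x i - pt (K.Y ω) (i0 + i)‖ ≤ c * r * K.μ ^ k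

theorem follow (hk : KOK F K) (ha' : Adm F' L' 2) {Q : ℕ}
    (hb : Box F K F' Ω (Q * K.q) V W cB κ ε) {c r τ : ℝ} (hsh : Sh F K c) (hr : κ * W ≤ r)
    (hτ : c * r * K.μ ^ Q ≤ τ) (hτ1 : τ < K.dl) (hτ2 : τ + W < ε) (hτ3 : τ + W ≤ 1 / 2)
    {ω : ℤ → ℕ} (hω : ω ∈ Ω) {p : E} (hp : ‖p - K.P ω‖ ≤ r) {j : ℕ} (hj : j < Q * K.q) :
    Germ F ((T F')^[j] p) (G K ω j) ∧ (1 ≤ j → NB K Ω W ((T F')^[j] p)) := by
  obtain ⟨x, hx, hx0⟩ := ha'.exists_orb p 0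
  have h1 : POrb F r x := fun i => (hx.porb hb.close i).trans hr
  have h2 := hsh ω (hb.sub hω) 0 Q r x h1 (by rw [hx0]; exact hp) (by linarith) j (by
    rw [abs_of_nonneg (by positivity)]
    exact_mod_cast hj.le)
  have h3 := hx.iter 0 j
  rw [zero_add, hx0] at h3
  rw [zero_add, h3] at h2
  refine ⟨(hk.aff_near (hb.sub hω) j (by linarith)).germ, fun h4 => ?_⟩
  refine hb.not_mem hk hω (i := j) ?_ (h2.trans hτ) hτ2 hτ3
  intro h5
  have h6 : Q * K.q ∣ j := by exact_mod_cast h5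
  have := Nat.le_of_dvd h4 h6
  omega

/-- The porosity property, as a hypothesis. -/
def Gap (K : KD) (ng : ℕ) (cg : ℝ) : Prop :=
  ∀ (z d : E) (r : ℝ), ‖d‖ ≤ cg → 3 * ng * r ≤ ‖d‖ → d ≠ 0 →
    ∃ t0 : ℝ, 0 ≤ t0 ∧ t0 + 1 / ng ≤ 1 ∧ ∀ t ∈ Icc t0 (t0 + 1 / ng), ∀ ω ∈ K.X,
      r < ‖z + t • d - K.P ω‖

/-- The first step near a centre. -/
theorem first_step (hk : KOK F K) {ng : ℕ} {cg : ℝ} (hng : 1 ≤ ng) (hgap : Gap K ng cg)
    (hb : Box F K F' Ω n V W (3 * ng + 3) κ ε) (hV : 1 ≤ V) (hW : 0 < W) {r : ℝ}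
    (hr : r < K.dl) (hr' : r + W ≤ 1 / 2) {ω : ℤ → ℕ} (hω : ω ∈ Ω) {z d : E} (hd : ‖d‖ ≤ cg)
    (hz : ∀ t ∈ Icc (0:ℝ) 1, ‖z + t • d - K.P ω‖ ≤ r) :
    ∃ (s0 s1 : ℝ) (g0 : Af), 0 ≤ s0 ∧ s0 ≤ s1 ∧ s1 ≤ 1 ∧ 1 ≤ ng * V * (s1 - s0) ∧
      (∀ t ∈ Icc (0:ℝ) 1, Germ F' (z + s0 • d + t • ((s1 - s0) • d)) g0) ∧
      (3 * ng * W ≤ ‖d‖ → 1 ≤ ng * (s1 - s0) ∧ g0 = G K ω 0 ∧
        ∀ t ∈ Icc (0:ℝ) 1, NB K Ω W (z + s0 • d + t • ((s1 - s0) • d))) := by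
  have hng' : (1:ℝ) ≤ ng := by exact_mod_cast hng
  have hV' : (1:ℝ) ≤ V := by exact_mod_cast hV
  have hG : ∀ t ∈ Icc (0:ℝ) 1, Germ F (z + t • d) (G K ω 0) := fun t ht =>
    (hk.aff_near (hb.sub hω) ((0:ℕ):ℤ) ((hz t ht).trans_lt hr)).germ
  by_cases h1 : 3 * ng * W ≤ ‖d‖
  · have hd0 : d ≠ 0 := by
      intro h
      rw [h, norm_zero] at h1
      have : 0 < 3 * (ng:ℝ) * W := by positivity
      linarith
    obtain ⟨t0, a0, a1, a2⟩ := hgap z d W hd h1 hd0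
    have hpos : (0:ℝ) < 1 / ng := by positivity
    have e : (ng:ℝ) * (t0 + 1 / ng - t0) = 1 := by field_simp; ring
    have hnb : ∀ t ∈ Icc (0:ℝ) 1, NB K Ω W (z + t0 • d + t • ((t0 + 1 / ng - t0) • d)) := by
      intro t ht ω' hω' m
      have hm := piece_mem (show t0 ≤ t0 + 1 / ng by linarith) ht
      rw [piece]
      by_contra h2
      push Not at h2
      have h3 := eq_zero_of_near hk (hb.sub hω) (hb.sub hω')
        (hz _ ⟨a0.trans hm.1, hm.2.trans a1⟩) hr' h2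
      rw [h3, sub_zero] at h2
      exact absurd (a2 _ hm ω' (hb.sub hω')) (not_lt.2 h2)
    refine ⟨t0, t0 + 1 / ng, G K ω 0, a0, by linarith, a1, ?_, fun t ht => ?_,
      fun _ => ⟨e.ge, rfl, hnb⟩⟩
    · rw [mul_right_comm, e]
      linarith
    · refine germ_of_nb hb (hnb t ht) ?_
      have hm := piece_mem (show t0 ≤ t0 + 1 / ng by linarith) ht
      rw [piece]
      exact hG _ ⟨a0.trans hm.1, hm.2.trans a1⟩
  · by_cases h2 : ∀ t ∈ Icc (0:ℝ) 1, NB K Ω W (z + t • d)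
    · refine ⟨0, 1, G K ω 0, le_rfl, zero_le_one, le_rfl, by nlinarith, fun t ht => ?_,
        fun h => absurd h h1⟩
      rw [zero_smul, add_zero, sub_zero, one_smul]
      exact germ_of_nb hb (h2 t ht) (hG t ht)
    · simp only [NB] at h2
      push Not at h1 h2
      obtain ⟨t', ht', ω', hω', m, hm⟩ := h2
      have h3 := eq_zero_of_near hk (hb.sub hω) (hb.sub hω') (hz t' ht') hr' hm
      rw [h3, sub_zero] at hm
      obtain ⟨S, hS, hS1, hS2⟩ := hb.cells ω' hω'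
      obtain ⟨t0, t1, g, b0, b1, b2, b3, b4⟩ := longest_cell hS hS1 z d fun t ht => hS2 _ (by
        have e : z + t • d - K.P ω' = (z + t' • d - K.P ω') + (t - t') • d := by module
        have c1 : |t - t'| ≤ 1 := by
          rw [abs_le]
          constructor <;> linarith [ht.1, ht.2, ht'.1, ht'.2]
        have c2 : ‖(t - t') • d‖ ≤ ‖d‖ := by
          rw [norm_smul, Real.norm_eq_abs]
          exact mul_le_of_le_one_left (norm_nonneg _) c1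
        rw [e]
        have c3 := norm_add_le (z + t' • d - K.P ω') ((t - t') • d)
        nlinarith)
      refine ⟨t0, t1, g, b0, b3, b1, ?_, fun t ht => b4 0 zero_lt_one t ht,
        fun h => absurd h (not_le.2 h1)⟩
      rw [mul_assoc]
      nlinarith

/-- Passing near a centre: a definite part of the segment follows the orbit of the centre. -/
theorem near_centre (ha : Adm F L 2) (hk : KOK F K) (ha' : Adm F' L' 2) {ng : ℕ} {cg : ℝ}
    (hng : 1 ≤ ng) (hgap : Gap K ng cg) {Q : ℕ}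
    (hb : Box F K F' Ω (Q * K.q) V W (3 * ng + 3) κ ε) (hV : 1 ≤ V) (hW : 0 < W) {c r τ : ℝ}
    (hsh : Sh F K c) (hr : κ * W ≤ r) (hrτ : r ≤ τ)
    (hτ : c * r * K.μ ^ Q ≤ τ) (hτ1 : τ < K.dl) (hτ2 : τ + W < ε) (hτ3 : τ + W ≤ 1 / 2)
    {ω : ℤ → ℕ} (hω : ω ∈ Ω) {m : ℤ × ℤ} {z d : E} (hd : ‖d‖ ≤ cg)
    (hz : ∀ t ∈ Icc (0:ℝ) 1, ‖z + t • d - iv m - K.P ω‖ ≤ r) :
    ∃ (s0 s1 : ℝ) (g : ℕ → Af), 0 ≤ s0 ∧ s0 ≤ s1 ∧ s1 ≤ 1 ∧ 1 ≤ ng * V * (s1 - s0) ∧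
      Seg F' (z + s0 • d) ((s1 - s0) • d) g (Q * K.q) ∧ (∀ j : ℕ, 1 ≤ j → (g j).1 = K.co j) ∧
      (3 * ng * W ≤ ‖d‖ → 1 ≤ ng * (s1 - s0) ∧
        Seg F (z + s0 • d) ((s1 - s0) • d) g (Q * K.q)) := by
  have hz' : ∀ t ∈ Icc (0:ℝ) 1, ‖z - iv m + t • d - K.P ω‖ ≤ r := by
    intro t ht
    have e : z - iv m + t • d = z + t • d - iv m := by abel
    rw [e]
    exact hz t ht
  obtain ⟨s0, s1, g0, a0, a1, a2, a3, a4, a5⟩ :=
    first_step hk hng hgap hb hV hW (hrτ.trans_lt hτ1) (by linarith) hω hd hz'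
  have hp : ∀ t ∈ Icc (0:ℝ) 1, ‖z - iv m + s0 • d + t • ((s1 - s0) • d) - K.P ω‖ ≤ r := by
    intro t ht
    have hm := piece_mem a1 ht
    rw [piece]
    exact hz' _ ⟨a0.trans hm.1, hm.2.trans a2⟩
  obtain ⟨g', hg', hg⟩ := seg_iv m fun j => if j = 0 then g0 else G K ω j
  have e : z + s0 • d - iv m = z - iv m + s0 • d := by abel
  refine ⟨s0, s1, g', a0, a1, a2, a3, hg F' L' 2 ha' _ _ _ ?_, fun j hj => ?_, fun h => ?_⟩
  · rw [e]
    intro i hi t ht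
    rcases Nat.eq_zero_or_pos i with rfl | hi0
    · simpa using a4 t ht
    · obtain ⟨b1, b2⟩ := follow hk ha' hb hsh hr hτ hτ1 hτ2 hτ3 hω (hp t ht) hi
      simp only [hi0.ne', if_false]
      exact germ_of_nb hb (b2 hi0) b1
  · rw [hg']
    simp only [show j ≠ 0 by omega, if_false]
    rfl
  · obtain ⟨b1, b2, b3⟩ := a5 h
    refine ⟨b1, hg F L 2 ha _ _ _ ?_⟩
    rw [e]
    intro i hi t ht
    have hnb : ∀ j < Q * K.q, NB K Ω W
        ((T F')^[j] (z - iv m + s0 • d + t • ((s1 - s0) • d))) := by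
      intro j hj
      rcases Nat.eq_zero_or_pos j with rfl | hj0
      · exact b3 t ht
      · exact (follow hk ha' hb hsh hr hτ hτ1 hτ2 hτ3 hω (hp t ht) hj).2 hj0
    rw [← iter_eq hb _ hnb i hi.le]
    have b4 := (follow hk ha' hb hsh hr hτ hτ1 hτ2 hτ3 hω (hp t ht) hi).1
    have e2 : (if i = 0 then g0 else G K ω i) = G K ω i := by
      split_ifs with h0
      · rw [h0, b2]
      · rfl
    simp only [e2]
    exact b4

/-- Growth along the orbit of a centre. -/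
theorem growth (ha : Adm F L 2) (hk : KOK F K) {C l C0 : ℝ} (hh : HYP F C l) (hl : 1 < l)
    (hC0 : 0 < C0) {k5 Q : ℕ} (hk5 : 2 * C * C0 ≤ l ^ k5) (hQ : 1 ≤ Q * K.q) {g : ℕ → Af}
    (hg : ∀ j : ℕ, 1 ≤ j → (g j).1 = K.co j) {d : E}
    (h1 : ‖fw g d 1‖ ≤ C0 * ‖fw g d (1 + k5)‖) :
    K.μ ^ Q * ‖fw g d 1‖ ≤ 4 * C0 * (2 * L + 2) ^ k5 * ‖pt K.s 0‖ * ‖fw g d (Q * K.q)‖ := by
  obtain ⟨ω, hω⟩ := hk.exists_mem
  have hbd : Bd L K.co := ha.itin_bd (hk.itin hω)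
  obtain ⟨v, hv, hv1⟩ := exists_sol (h := K.co) (fun i => by simp [KD.co]) 1 (fw g d 1)
  have hw : ∀ j : ℕ, pt v ((1 + j : ℕ) : ℤ) = fw g d (1 + j) := by
    intro j
    induction j with
    | zero => simpa using hv1
    | succ j ih =>
      rw [← add_assoc]
      push_cast
      rw [pt_succ (hv _)]
      push_cast at ih
      rw [ih, fw, hg _ (by omega)]
      push_cast
      rfl
  have hdt : ∀ j : ℕ, dt (pt v ((1 + j : ℕ) : ℤ)) (pt K.s ((1 + j : ℕ) : ℤ)) =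
      dt (pt v 1) (pt K.s 1) := by
    intro j
    induction j with
    | zero => simp
    | succ j ih =>
      rw [← add_assoc]
      push_cast
      rw [pt_succ (hv _), pt_succ (hk.sol_s _), dt_TL]
      push_cast at ih
      rw [ih]
      simp [KD.co]
  have hl0 : 0 < l := by linarith
  have hst := hk.stab hh hl 1 ((1 + k5 : ℕ) : ℤ) (by omega)
  have e1 : l ^ ((1:ℤ) - ((1 + k5 : ℕ) : ℤ)) = (l ^ k5)⁻¹ := by
    rw [← zpow_natCast, ← zpow_neg]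
    congr 1
    push_cast
    ring
  rw [e1] at hst
  have hang := ang_fwd (C0 := C0) (ε := C * (l ^ k5)⁻¹) hbd (i := 1) (j := ((1 + k5 : ℕ) : ℤ))
    (by omega) (hv.solOn _ _) (hk.sol_s.solOn _ _) hC0 (by
      have : 0 < l ^ k5 := by positivity
      rw [show 2 * (C * (l ^ k5)⁻¹) * C0 = 2 * C * C0 / l ^ k5 by field_simp, div_le_one this]
      exact hk5) (by rw [hv1, hw]; exact h1) hst
  have e2 : (((1 + k5 : ℕ) : ℤ) - 1).natAbs = k5 := by omega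
  rw [e2, hv1] at hang
  obtain ⟨j, hj⟩ : ∃ j, Q * K.q = 1 + j := ⟨Q * K.q - 1, by omega⟩
  have hμ : 0 < K.μ := by linarith [hk.eok.mu]
  have hs : pt K.s ((1 + j : ℕ) : ℤ) = (K.μ ^ Q)⁻¹ • pt K.s 0 := by
    rw [← hj]
    have b1 := (hk.eok.upow 0 Q).2.1
    have b2 := (hk.eok.upow (0 - 1) Q).2.1
    rw [zpow_neg, zpow_natCast] at b1 b2
    ext
    · simp only [pt, Prod.smul_fst, smul_eq_mul]
      rw [← b1]
      congr 1
      push_cast
      ring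
    · simp only [pt, Prod.smul_snd, smul_eq_mul]
      rw [← b2]
      congr 1
  have h2 := abs_dt_le (pt v ((1 + j : ℕ) : ℤ)) (pt K.s ((1 + j : ℕ) : ℤ))
  rw [hdt, hw, hs, norm_smul, ← hj, hv1, Real.norm_of_nonneg (by positivity)] at h2
  have h3 : 1 ≤ ‖pt K.s 1‖ := by
    simp [pt, hk.eok.s0]
  have hL : 0 ≤ L := by linarith [ha.le_L]
  have h4 : ‖fw g d 1‖ ≤ 2 * C0 * (2 * L + 2) ^ k5 *
      (2 * ‖fw g d (Q * K.q)‖ * ((K.μ ^ Q)⁻¹ * ‖pt K.s 0‖)) :=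
    (le_mul_of_one_le_right (norm_nonneg _) h3).trans
      (hang.trans (mul_le_mul_of_nonneg_left h2 (by positivity)))
  calc K.μ ^ Q * ‖fw g d 1‖ ≤ K.μ ^ Q * (2 * C0 * (2 * L + 2) ^ k5 *
      (2 * ‖fw g d (Q * K.q)‖ * ((K.μ ^ Q)⁻¹ * ‖pt K.s 0‖))) :=
        mul_le_mul_of_nonneg_left h4 (by positivity)
    _ = _ := by field_simp; ring

/-- The longest piece before the first visit to a box. -/
theorem before {r r' C' l' δ : ℝ} {N N' VF k : ℕ} (ha : Adm F L 2) (hl : Loc F r N)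
    (ha' : Adm F' L' 2) (hl' : Loc F' r' N') (h1 : 1 ≤ l')
    (hb : Box F K F' Ω n V W cB κ ε) (hcx : CX F VF k δ) {z d : E} (he : Exp F' C' l' z d)
    (hd : ‖d‖ ≤ δ) (hnb : ∀ i < k, ∀ t ∈ Icc (0:ℝ) 1, NB K Ω W ((T F')^[i] (z + t • d))) :
    ∃ (t0 t1 : ℝ) (g : ℕ → Af), 0 ≤ t0 ∧ t0 ≤ t1 ∧ t1 ≤ 1 ∧
      Seg F (z + t0 • d) ((t1 - t0) • d) g k ∧ Seg F' (z + t0 • d) ((t1 - t0) • d) g k ∧
      ‖(t1 - t0) • d‖ ≤ C' * ‖fw g ((t1 - t0) • d) k‖ ∧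
      l' ^ k * ‖d‖ ≤ C' * VF * ‖fw g ((t1 - t0) • d) k‖ := by
  obtain ⟨t0, t1, g, a0, a1, a2, a3, a4⟩ := hcx.longest ha.cont hl z d hd
  have a5 : Seg F' (z + t0 • d) ((t1 - t0) • d) g k := by
    refine seg_of_nb hb (fun i hi t ht => ?_) a4
    have hm := piece_mem a3 ht
    rw [piece]
    exact hnb i hi _ ⟨a0.trans hm.1, hm.2.trans a1⟩
  have he' := he.sub ha' (Sub.trim F' z d a0 a3 a1)
  have b1 := fw_le ha' hl' h1 he' a5 (Nat.zero_le k) le_rfl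
  have b2 := fw_le' ha' hl' h1 he' a5 (Nat.zero_le k) le_rfl
  refine ⟨t0, t1, g, a0, a3, a1, a4, a5, b2, ?_⟩
  rw [Nat.sub_zero, fw, norm_smul, Real.norm_of_nonneg (sub_nonneg.2 a3)] at b1
  have b3 : ‖d‖ ≤ VF * (t1 - t0) * ‖d‖ := le_mul_of_one_le_left (norm_nonneg _) a2
  have b4 : (0:ℝ) ≤ VF := Nat.cast_nonneg _
  have b5 : 0 ≤ l' ^ k := by positivity
  calc l' ^ k * ‖d‖ ≤ l' ^ k * (VF * (t1 - t0) * ‖d‖) := mul_le_mul_of_nonneg_left b3 b5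
    _ = VF * (l' ^ k * ((t1 - t0) * ‖d‖)) := by ring
    _ ≤ VF * (C' * ‖fw g ((t1 - t0) • d) k‖) := mul_le_mul_of_nonneg_left b1 b4
    _ = _ := by ring

end ZGrow

theorem qp_Z {F : E → ℝ} {L r C l : ℝ} {N : ℕ} {K : KD} (ha : Adm F L 2) (hl : Loc F r N)
    (h2 : H2 F) (hh : HYP F C l) (hl1 : 1 < l) (hq : QP F) (hk : KOK F K)
    (hμ : 2 * lsum K.D K.q < Real.log K.μ) (L' C' : ℝ) {l' κ : ℝ} (hl' : 1 < l') (hκ : 0 ≤ κ) :
    ∃ (cB cQ : ℝ) (n0 : ℕ), 0 ≤ cB ∧ ∀ V Q : ℕ, 1 ≤ V → cQ * V ≤ K.μ ^ Q → n0 ≤ Q → ∀ ε > 0,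
      ∃ W0 > 0, ∀ (F' : E → ℝ) (W r' : ℝ) (N' : ℕ) (Ω : Set (ℤ → ℕ)), 0 < W → W ≤ W0 →
        Adm F' L' 2 → Loc F' r' N' → HYP F' C' l' → Box F K F' Ω (Q * K.q) V W cB κ ε → QP F' := by
  by_cases hCL : 1 / 2 ≤ C' ∧ 0 ≤ L'
  swap
  · exact ⟨0, 0, 0, le_rfl, fun V Q _ _ _ ε _ => ⟨1, one_pos, fun F' W r' N' Ω _ _ ha' hl2 hh' _ =>
      absurd ⟨hh'.half_le ha' hl2, by linarith [ha'.le_L]⟩ hCL⟩⟩
  obtain ⟨hC', hL'⟩ := hCL
  have hC : 1 / 2 ≤ C := hh.half_le ha hl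
  have hL : 0 ≤ L := by linarith [ha.le_L]
  obtain ⟨ng, cg, hng, hcg, hgap⟩ := hk.gap ha hμ
  obtain ⟨c, hc1, hsh⟩ := hk.shadow ha
  obtain ⟨C0, hC0⟩ : ∃ C0, C0 = 2 * C' := ⟨_, rfl⟩
  have hC01 : 1 ≤ C0 := by linarith
  obtain ⟨VF, hVF⟩ : ∃ VF : ℕ, VF = N ^ 2 := ⟨_, rfl⟩
  have hVF1 : (1:ℝ) ≤ VF := by
    have := hl.one_le
    rw [hVF]
    exact_mod_cast Nat.one_le_pow 2 N this
  have hng' : (1:ℝ) ≤ ng := by exact_mod_cast hng
  obtain ⟨Θ, hΘ⟩ := pow_unbounded_of_one_lt (4 * C * C * C0 + 2 * C * C0) hl1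
  have hΘ1 : ∀ k, Θ ≤ k → 4 * C * C * C0 ≤ l ^ k ∧ 2 * C * C0 ≤ l ^ k := by
    intro k hk
    have a1 : l ^ Θ ≤ l ^ k := pow_le_pow_right₀ hl1.le hk
    have a2 : 0 ≤ 4 * C * C * C0 := by positivity
    have a3 : 0 ≤ 2 * C * C0 := by positivity
    constructor <;> linarith
  obtain ⟨n2, hn2⟩ := pow_unbounded_of_one_lt (2 * (C0 * VF)) hl'
  obtain ⟨n1, hn1⟩ : ∃ n1, n1 = Θ + n2 := ⟨_, rfl⟩
  have hn1' : 2 * (C0 * VF) ≤ l' ^ n1 := hn2.le.trans (pow_le_pow_right₀ hl'.le (by omega))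
  obtain ⟨δF, hδF, hcx⟩ := cx_self ha h2 hl n1
  rw [← hVF] at hcx
  obtain ⟨M, hM⟩ : ∃ M, M = (2 * L' + 2) ^ n1 := ⟨_, rfl⟩
  have hM1 : ∀ i ≤ n1, (2 * L' + 2) ^ i ≤ M := fun i hi => by
    rw [hM]
    exact pow_le_pow_right₀ (by linarith) hi
  have hM2 : 1 ≤ M := by simpa using hM1 0 (Nat.zero_le _)
  obtain ⟨B, hB⟩ : ∃ B, B = 4 * C0 * (2 * L + 2) ^ Θ * ‖pt K.s 0‖ := ⟨_, rfl⟩
  have hB0 : 0 ≤ B := by rw [hB]; positivity
  refine ⟨3 * ng + 3, 2 * (C0 * VF) * ng * C0 * B, Θ + 1, by positivity,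
    fun V Q hV hcQ hQ ε hε => ?_⟩
  have hQq : Q ≤ Q * K.q := Nat.le_mul_of_pos_right Q hk.eok.qpos
  obtain ⟨τ, hτ0, hτ1, hτ2, hτ3⟩ : ∃ τ : ℝ, 0 < τ ∧ τ < K.dl ∧ 2 * τ < ε ∧ 2 * τ ≤ 1 / 2 := by
    have := hk.dpos
    refine ⟨min (K.dl / 2) (min (ε / 4) (1 / 4)), by positivity, ?_, ?_, ?_⟩
    · linarith [min_le_left (K.dl / 2) (min (ε / 4) (1 / 4))]
    · linarith [min_le_right (K.dl / 2) (min (ε / 4) (1 / 4)), min_le_left (ε / 4) (1 / 4)]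
    · linarith [min_le_right (K.dl / 2) (min (ε / 4) (1 / 4)), min_le_right (ε / 4) (1 / 4)]
  have hμ1 : 1 ≤ K.μ ^ Q := one_le_pow₀ hk.eok.mu.le
  obtain ⟨A, hA⟩ : ∃ A, A = c * K.μ ^ Q := ⟨_, rfl⟩
  have hA1 : 1 ≤ A := by rw [hA]; nlinarith
  obtain ⟨δ, hδ0, hδ1, hδ2, hδ3⟩ : ∃ δ : ℝ, 0 < δ ∧ δ ≤ δF ∧ M * δ ≤ cg ∧ A * (M * δ) ≤ τ / 2 := by
    refine ⟨min δF (min (cg / M) (τ / 2 / (A * M))), by positivity, min_le_left _ _, ?_, ?_⟩
    · rw [mul_comm, ← le_div_iff₀ (by positivity)]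
      exact (min_le_right _ _).trans (min_le_left _ _)
    · rw [← mul_assoc, mul_comm, ← le_div_iff₀ (by positivity)]
      exact (min_le_right _ _).trans (min_le_right _ _)
  obtain ⟨η, hη, Ncr, β, hβ, hcr⟩ := cr_transfer ha hq (2 * C) hδ0
  obtain ⟨W0, hW0, hW⟩ : ∃ W0 : ℝ, 0 < W0 ∧ ∀ W ≤ W0, (κ + 1) * W ≤ η ∧
      A * ((κ + 1) * W) ≤ τ / 2 ∧ C0 * VF * (3 * ng * W) ≤ δ := by
    refine ⟨min (η / (κ + 1)) (min (τ / 2 / (A * (κ + 1))) (δ / (C0 * VF * (3 * ng)))),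
      by positivity, fun W hW => ⟨?_, ?_, ?_⟩⟩
    · rw [mul_comm, ← le_div_iff₀ (by positivity)]
      exact hW.trans (min_le_left _ _)
    · rw [← mul_assoc, mul_comm, ← le_div_iff₀ (by positivity)]
      exact hW.trans ((min_le_right _ _).trans (min_le_left _ _))
    · rw [← mul_assoc, mul_comm, ← le_div_iff₀ (by positivity)]
      exact hW.trans ((min_le_right _ _).trans (min_le_right _ _))
  refine ⟨W0, hW0, fun F' W r' N' Ω hWp hWW ha' hl2 hh' hb => ?_⟩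
  obtain ⟨hW1, hW2, hW3⟩ := hW W hWW
  have hκW : 0 ≤ κ * W := by positivity
  have hMδ : 0 ≤ M * δ := by positivity
  have hr1 : c * (M * δ + (κ + 1) * W) * K.μ ^ Q ≤ τ := by
    have : c * (M * δ + (κ + 1) * W) * K.μ ^ Q = A * (M * δ) + A * ((κ + 1) * W) := by
      rw [hA]; ring
    linarith
  have hr2 : M * δ + (κ + 1) * W ≤ τ := by
    have a1 : M * δ ≤ A * (M * δ) := le_mul_of_one_le_left hMδ hA1
    have a2 : (κ + 1) * W ≤ A * ((κ + 1) * W) := le_mul_of_one_le_left (by positivity) hA1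
    linarith
  have hWτ : W ≤ τ := by linarith only [hr2, hκW, hMδ]
  have key : ∀ z d, Exp F' C0 l' z d → ‖d‖ ≤ δ → ∃ k ≤ n1 + Q * K.q, ∃ z' d',
      Sub F' z d k z' d' ∧ 2 * ‖d‖ ≤ ‖d'‖ ∧ (‖d‖ = δ → Good F (2 * C) z' d') := by
    intro z d he hd
    by_cases hA : ∃ i, i < n1 ∧ ∃ t ∈ Icc (0:ℝ) 1, ¬ ZGrow.NB K Ω W ((T F')^[i] (z + t • d))
    · classical
      obtain ⟨hi, t', ht', hbox⟩ := Nat.find_spec hA
      have hmin := fun j (hj : j < Nat.find hA) => Nat.find_min hA hj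
      generalize Nat.find hA = i at hi hbox hmin
      have hnb : ∀ j < i, ∀ t ∈ Icc (0:ℝ) 1, ZGrow.NB K Ω W ((T F')^[j] (z + t • d)) := by
        intro j hj t ht
        by_contra h
        exact hmin j hj ⟨by omega, t, ht, h⟩
      obtain ⟨t0, t1, g, a0, a1, a2, a3, a4, a5, a6⟩ := ZGrow.before ha hl ha' hl2 hl'.le hb
        (hcx.mono hl hi.le) he (hd.trans hδ1) hnb
      have hsub : Sub F' z d i _ _ := ⟨t0, t1, g, a0, a1, a2, a4, rfl, rfl⟩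
      simp only [ZGrow.NB] at hbox
      push Not at hbox
      obtain ⟨ω, hω, m, hm⟩ := hbox
      have hd1 : ‖fw g ((t1 - t0) • d) i‖ ≤ cg := by
        have b1 := (a4.norm_le ha' (Nat.zero_le i) le_rfl).1
        rw [Nat.sub_zero, fw, norm_smul, Real.norm_of_nonneg (sub_nonneg.2 a1)] at b1
        have b2 : (t1 - t0) * ‖d‖ ≤ δ :=
          (mul_le_of_le_one_left (norm_nonneg _) (by linarith)).trans hd
        refine b1.trans (le_trans ?_ hδ2)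
        exact mul_le_mul (hM1 i hi.le) b2 (mul_nonneg (sub_nonneg.2 a1) (norm_nonneg _))
          (by linarith)
      have hz1 : ∀ t ∈ Icc (0:ℝ) 1, ‖(T F')^[i] (z + t0 • d) + t • fw g ((t1 - t0) • d) i -
          iv m - K.P ω‖ ≤ M * δ + (κ + 1) * W := by
        intro t ht
        rw [← a4.iter ha'.cont le_rfl ht, ZGrow.piece]
        have hs := ZGrow.piece_mem a1 ht
        generalize t0 + t * (t1 - t0) = s at hs
        have b1 := ha'.lip_iter i (z + s • d) (z + t' • d)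
        have b2 : ‖z + s • d - (z + t' • d)‖ ≤ δ := by
          have e : z + s • d - (z + t' • d) = (s - t') • d := by module
          have c1 : |s - t'| ≤ 1 := by
            rw [abs_le]
            constructor <;> linarith [hs.1, hs.2, ht'.1, ht'.2]
          rw [e, norm_smul, Real.norm_eq_abs]
          exact (mul_le_of_le_one_left (norm_nonneg _) c1).trans hd
        have b3 := mul_le_mul (hM1 i hi.le) b2 (norm_nonneg _) (by linarith : 0 ≤ M)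
        have e : (T F')^[i] (z + s • d) - iv m - K.P ω =
            ((T F')^[i] (z + s • d) - (T F')^[i] (z + t' • d)) +
              ((T F')^[i] (z + t' • d) - iv m - K.P ω) := by abel
        rw [e]
        refine (norm_add_le _ _).trans ?_
        linarith only [b1, b3, hm, hκW]
      have he1 := he.sub ha' hsub
      have hd2 : ‖d‖ ≤ C0 * VF * ‖fw g ((t1 - t0) • d) i‖ :=
        (le_mul_of_one_le_left (norm_nonneg _) (one_le_pow₀ hl'.le)).trans a6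
      generalize (T F')^[i] (z + t0 • d) = z1 at hsub hz1 he1
      generalize fw g ((t1 - t0) • d) i = d1 at hsub hz1 he1 hd1 hd2
      obtain ⟨s0, s1, g2, c0, c1, c2, c3, c4, c5, c6⟩ := ZGrow.near_centre ha hk ha' hng hgap hb hV
        hWp hsh (by linarith) hr2 hr1 hτ1 (by linarith) (by linarith) hω hd1 hz1
      have hsub2 : Sub F' z1 d1 (Q * K.q) _ _ := ⟨s0, s1, g2, c0, c1, c2, c4, rfl, rfl⟩
      have he2 := he1.sub ha' (Sub.trim F' z1 d1 c0 c1 c2)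
      refine ⟨i + Q * K.q, by omega, _, _, hsub.trans ha'.cont hsub2, ?_, fun hdδ => ?_⟩
      · have e1 := ZGrow.growth ha hk hh hl1 (by linarith : 0 < C0) (hΘ1 Θ le_rfl).2
          (by omega : 1 ≤ Q * K.q) c5
          (ZGrow.fw_le' ha' hl2 hl'.le he2 c4 (by omega : 1 ≤ 1 + Θ) (by omega))
        rw [← hB] at e1
        have e2 := ZGrow.fw_le' ha' hl2 hl'.le he2 c4 (Nat.zero_le 1) (by omega)
        rw [fw, norm_smul, Real.norm_of_nonneg (sub_nonneg.2 c1)] at e2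
        have e3 : ‖d1‖ ≤ ng * V * (s1 - s0) * ‖d1‖ := le_mul_of_one_le_left (norm_nonneg _) c3
        generalize ‖fw g2 ((s1 - s0) • d1) 1‖ = w1 at e1 e2
        have hw : 0 ≤ ‖fw g2 ((s1 - s0) • d1) (Q * K.q)‖ := norm_nonneg _
        generalize ‖fw g2 ((s1 - s0) • d1) (Q * K.q)‖ = w at e1 hw ⊢
        have hV0 : (0:ℝ) ≤ V := Nat.cast_nonneg _
        have e4 : ‖d1‖ ≤ ng * V * (C0 * w1) := by
          refine e3.trans ?_
          rw [mul_assoc (ng * V : ℝ)]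
          exact mul_le_mul_of_nonneg_left e2 (by positivity)
        have e5 : ‖d‖ ≤ C0 * VF * (ng * V * (C0 * w1)) :=
          hd2.trans (mul_le_mul_of_nonneg_left e4 (by positivity))
        refine le_of_mul_le_mul_left ?_ (show 0 < K.μ ^ Q by linarith)
        calc K.μ ^ Q * (2 * ‖d‖) ≤ K.μ ^ Q * (2 * (C0 * VF * (ng * V * (C0 * w1)))) := by
              gcongr
          _ = 2 * (C0 * VF) * ng * C0 * V * (K.μ ^ Q * w1) := by ring
          _ ≤ 2 * (C0 * VF) * ng * C0 * V * (B * w) :=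
              mul_le_mul_of_nonneg_left e1 (by positivity)
          _ = 2 * (C0 * VF) * ng * C0 * B * V * w := by ring
          _ ≤ K.μ ^ Q * w := mul_le_mul_of_nonneg_right hcQ hw
      · have e1 : 3 * ng * W ≤ ‖d1‖ :=
          le_of_mul_le_mul_left (by linarith) (show 0 < C0 * VF by positivity)
        obtain ⟨-, e2⟩ := c6 e1
        rw [ZGrow.iter_eq_of_seg ha.cont ha'.cont e2 c4 _ le_rfl]
        exact ZGrow.good_of_seg ha hh (by linarith) hl1 e2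
          (ZGrow.fw_le' ha' hl2 hl'.le he2 c4 (Nat.zero_le _) le_rfl)
          (hΘ1 _ (by omega)).1 (hΘ1 _ (by omega)).2
    · have hnb : ∀ j < n1, ∀ t ∈ Icc (0:ℝ) 1, ZGrow.NB K Ω W ((T F')^[j] (z + t • d)) := by
        intro j hj t ht
        by_contra h
        exact hA ⟨j, hj, t, ht, h⟩
      obtain ⟨t0, t1, g, a0, a1, a2, a3, a4, a5, a6⟩ := ZGrow.before ha hl ha' hl2 hl'.le hb
        hcx he (hd.trans hδ1) hnb
      refine ⟨n1, by omega, _, _, ⟨t0, t1, g, a0, a1, a2, a4, rfl, rfl⟩, ?_, fun _ => ?_⟩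
      · refine le_of_mul_le_mul_left ?_ (show 0 < C0 * VF by positivity)
        linarith only [a6, mul_le_mul_of_nonneg_right hn1' (norm_nonneg d)]
      · rw [ZGrow.iter_eq_of_seg ha.cont ha'.cont a3 a4 _ le_rfl]
        exact ZGrow.good_of_seg ha hh (by linarith) hl1 a3 a5 (hΘ1 _ (by omega)).1
          (hΘ1 _ (by omega)).2
  subst hC0
  refine qp_of_steps (n := n1 + Q * K.q) (N1 := n1 + Q * K.q + Ncr) ha' hl2 hh' hl' hδ0 hβ
    (fun z d he hd => ?_) fun z d he hd => ?_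
  · obtain ⟨k, hk, z', d', b1, b2, -⟩ := key z d he hd
    exact ⟨k, hk, z', d', b1, b2⟩
  · obtain ⟨k, hk, z', d', b1, b2, b3⟩ := key z d he hd.le
    have hcl : Close F F' η := fun p => (hb.close p).trans (by linarith)
    exact (b1.cr ha'.cont (hcr F' hcl z' d' (b3 hd) (by linarith))).mono (by omega)

end Pool.Agent.MP_369096_an.H89
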