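import Pool.Agent.MP_369096_an.H89.KL2
import Pool.Agent.MP_369096_an.H89.Coc3

/-!
TASK ZHyp. Hyperbolicity and the edge condition after the zigzag step.
Auxiliary lemmas go in namespace `H89.ZHyp`.
-/

set_option autoImplicit false

open Set Filter Topology

namespace Pool.Agent.MP_369096_an.H89

variable {F : E → ℝ} {L : ℝ} {K : KD}

namespace ZHyp

theorem pt_shift (x : ℤ → ℝ) (s j : ℤ) : pt (fun i => x (i + s)) j = pt x (j + s) := by
  simp only [pt]
  rw [show j - 1 + s = j + s - 1 by ring]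

theorem bd_mono {L L' : ℝ} {h : ℤ → E} (hb : Bd L h) (hL : L ≤ L') : Bd L' h :=
  fun i => ⟨(hb i).1.trans hL, (hb i).2⟩

theorem norm_u0 (hk : KOK F K) : ‖pt K.u 0‖ = 1 := by
  have h1 := hk.eok.u0
  have h2 := hk.eok.um
  simp only [pt, Prod.norm_def, Real.norm_eq_abs, zero_sub, h1, abs_one]
  exact max_eq_left (by linarith)

theorem norm_s1 (hk : KOK F K) : ‖pt K.s 1‖ = 1 := by
  have h1 := hk.eok.s0
  have h2 := hk.eok.s1
  simp only [pt, Prod.norm_def, Real.norm_eq_abs, sub_self, h1, abs_one]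
  exact max_eq_right (by linarith)

theorem ne_of_norm {v : E} (h : ‖v‖ = 1) : v ≠ 0 := by
  intro h0
  rw [h0, norm_zero] at h
  exact zero_ne_one h

theorem abs_dt_comm (u v : E) : |dt u v| = |dt v u| := by
  rw [← abs_neg]
  congr 1
  simp only [dt]
  ring

theorem lg_sub {F' : E → ℝ} {L' : ℝ} (ha : Adm F' L' 2) {p k : E} (m : ℤ × ℤ) (h : LG F' p k) :
    LG F' (p - iv m) k := by
  rw [← ha.lg_iv _ k m, sub_add_cancel]
  exact h

theorem hyp_co (hk : KOK F K) {C l : ℝ} (hh : HYP F C l) : Hyp C l K.co := by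
  obtain ⟨ω, hω⟩ := hk.exists_mem
  exact hh _ _ (hk.itin hω)

theorem bd_co (ha : Adm F L 2) (hk : KOK F K) : Bd L K.co := by
  obtain ⟨ω, hω⟩ := hk.exists_mem
  exact ha.itin_bd (hk.itin hω)

theorem C_nonneg (hk : KOK F K) {C l : ℝ} (hh : HYP F C l) : 0 ≤ C := by
  have h := hyp_co hk hh K.u 0 0 (hk.sol_u.solOn 0 0) 0 le_rfl le_rfl
  rw [norm_u0 hk] at h
  simp only [sub_self, zpow_zero, mul_one] at h
  linarith

/-- The cocycle of the horseshoe with the value at time `0` replaced. -/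
def kick (K : KD) (k : E) (i : ℤ) : E := if i = 0 then k else K.co i

theorem hyp_kick (ha : Adm F L 2) (hk : KOK F K) {C l α : ℝ} (hh : HYP F C l) (hl2 : 2 < l)
    (hα : 0 < α) {L' : ℝ} (hL : L ≤ L') : ∃ C2 > 0, ∀ k : E, |k.1| ≤ L' → -2 ≤ k.2 →
      k.2 ≤ -1 / 2 → α ≤ |dt (TL k (pt K.u 0)) (pt K.s 1)| → Hyp C2 l (kick K k) := by
  obtain ⟨C2, hC2, H⟩ := hyp_split L' C l α 1 hl2 (C_nonneg hk hh) hα
  refine ⟨C2, hC2, fun k k1 k2 k3 k4 => ?_⟩
  have hb : Bd L' K.co := bd_mono (bd_co ha hk) hL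
  have hb' : Bd L' (kick K k) := by
    intro i
    unfold kick
    split_ifs
    · exact ⟨k1, k2, k3⟩
    · exact hb i
  obtain ⟨w, hw, hw0⟩ := exists_sol (fun i => hb'.ne i) 0 (pt K.u 0)
  have h01 : (0 : ℤ) + ((1 : ℕ) : ℤ) = 1 := by norm_num
  have hw1 : pt w 1 = TL k (pt K.u 0) := by
    have := pt_succ (hw 0)
    rw [zero_add, hw0] at this
    rw [this]
    simp [kick]
  refine H K.co (kick K k) K.u K.s w 0 hb hb' (hyp_co hk hh) ?_ hk.sol_u
    (hk.unst hh (by linarith)) hk.sol_s (hk.stab hh (by linarith)) (ne_of_norm (norm_u0 hk)) ?_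
    (hw.solOn _ _) hw0 ?_
  · intro i hi
    unfold kick
    rw [if_neg (by omega)]
  · rw [h01]
    exact ne_of_norm (norm_s1 hk)
  · rw [h01, norm_u0 hk, norm_s1 hk, hw1, mul_one, mul_one]
    exact k4

/-- No collapse on a window for the direction of a new edge. -/
theorem new_edge (ha : Adm F L 2) (hk : KOK F K) {C l : ℝ} (hh : HYP F C l) (hl2 : 2 < l)
    {L' : ℝ} (hL : L ≤ L') : ∃ C3 > 0, ∀ (h : ℤ → E) (v : ℤ → ℝ) (R : ℕ), Bd L' h → Sol h v →
      (∀ i : ℤ, |i| ≤ R → i ≠ 0 → h i = K.co i) → ‖pt v 0‖ ≤ 2 →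
      1 / 4 ≤ |dt (pt K.u 0) (pt v 0)| → 1 / 4 ≤ |dt (TL (h 0) (pt v 0)) (pt K.s 1)| →
      ∀ j : ℤ, |j| ≤ R → ‖pt v 0‖ ≤ C3 * ‖pt v j‖ := by
  have hC := C_nonneg hk hh
  have hL22 := ha.le_L
  have hΛ : 0 < 2 * L' + 2 := by linarith
  obtain ⟨C4, hC4, H4⟩ := no_collapse' L C l (1 / 8) hl2 hC (by norm_num)
  obtain ⟨C5, hC5, H5⟩ := no_collapse L C l (1 / (8 * (2 * L' + 2))) hl2 hC (by positivity)
  refine ⟨C4 + (2 * L' + 2) * C5, by positivity, fun h v R hb hv hco h1 h2 h3 j hj => ?_⟩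
  have hn : 0 ≤ ‖pt v j‖ := norm_nonneg _
  rw [abs_le] at hj
  rcases le_or_gt j 0 with hj0 | hj0
  · have hs : SolOn K.co v j 0 := by
      intro i hi1 hi2
      rw [← hco i (by rw [abs_le]; constructor <;> omega) (by omega)]
      exact hv i
    have := H4 K.co v K.u 0 j (bd_co ha hk) (hyp_co hk hh) hk.sol_u (hk.unst hh (by linarith))
      (ne_of_norm (norm_u0 hk)) hj0 hs (by
        rw [norm_u0 hk, abs_dt_comm]
        linarith)
    have h5 : 0 ≤ (2 * L' + 2) * C5 * ‖pt v j‖ := by positivity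
    rw [add_mul]
    linarith
  · have hs : SolOn K.co v 1 j := by
      intro i hi1 hi2
      rw [← hco i (by rw [abs_le]; constructor <;> omega) (by omega)]
      exact hv i
    have hv1 : pt v 1 = TL (h 0) (pt v 0) := by
      have := pt_succ (hv 0)
      rwa [zero_add] at this
    have hup : ‖pt v 1‖ ≤ (2 * L' + 2) * 2 := by
      rw [hv1]
      exact (norm_TL_le (hb 0).1 (hb 0).2.1 (hb 0).2.2 _).trans
        (mul_le_mul_of_nonneg_left h1 hΛ.le)
    have hdown : ‖pt v 0‖ ≤ (2 * L' + 2) * ‖pt v 1‖ := by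
      rw [hv1]
      exact norm_le_TL (hb 0).1 (hb 0).2.1 (hb 0).2.2 _
    have := H5 K.co v K.s 1 j (bd_co ha hk) (hyp_co hk hh) hk.sol_s (hk.stab hh (by linarith))
      (ne_of_norm (norm_s1 hk)) (by omega) hs (by
        rw [norm_s1 hk, mul_one]
        have e : 1 / (8 * (2 * L' + 2)) * ((2 * L' + 2) * 2) = 1 / 4 := by
          rw [one_div, mul_inv, mul_assoc, inv_mul_cancel_left₀ hΛ.ne']
          norm_num
        have h6 : 1 / (8 * (2 * L' + 2)) * ‖pt v 1‖ ≤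
            1 / (8 * (2 * L' + 2)) * ((2 * L' + 2) * 2) :=
          mul_le_mul_of_nonneg_left hup (by positivity)
        rw [← hv1] at h3
        linarith)
    have h5 : 0 ≤ C4 * ‖pt v j‖ := by positivity
    have h6 := mul_le_mul_of_nonneg_left this hΛ.le
    rw [add_mul, mul_assoc]
    linarith

end ZHyp

/-- Around a visit to a box the cocycle is that of the horseshoe. Translate the orbit (`exists_intorb`,
`Adm.itin_sub`), shift the time, use `KOK.shadow` with `r = (κ + 1) W`, `k = R`, then `Box.not_mem`, `Box.off_nhds`,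
`KOK.aff_near`, `Aff.congr`, `Aff.unique`. -/
theorem visit_window (ha : Adm F L 2) (hk : KOK F K) {κ ε : ℝ} (hκ : 0 ≤ κ) (hε : 0 < ε) (R : ℕ) :
    ∃ W0 > 0, ∀ (F' : E → ℝ) (L' W c : ℝ) (Ω : Set (ℤ → ℕ)) (n V : ℕ), 0 < W → W ≤ W0 → R < n →
      Adm F' L' 2 → Box F K F' Ω n V W c κ ε → ∀ x h, Itin F' x h → ∀ (i0 : ℤ) (m : ℤ × ℤ),
        ∀ ω ∈ Ω, ‖pt x i0 - iv m - K.P ω‖ ≤ W → ∀ i : ℤ, |i - i0| ≤ R →
          pt x i ∉ Sing F ∧ (i ≠ i0 → h i = K.co (i - i0)) := by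
  obtain ⟨c0, hc0, hsh⟩ := hk.shadow ha
  have hμ : 0 < K.μ := lt_trans zero_lt_one hk.eok.mu
  have hdl := hk.dpos
  set M : ℝ := c0 * (κ + 1) * K.μ ^ R + 1 with hM
  have hM0 : 0 < M := by positivity
  set δ : ℝ := min K.dl (min ε (1 / 2)) with hδ
  have hδ0 : 0 < δ := lt_min hdl (lt_min hε (by norm_num))
  have hδ1 : δ ≤ K.dl := min_le_left _ _
  have hδ2 : δ ≤ ε := (min_le_right _ _).trans (min_le_left _ _)
  have hδ3 : δ ≤ 1 / 2 := (min_le_right _ _).trans (min_le_right _ _)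
  refine ⟨δ / (2 * M), by positivity, ?_⟩
  intro F' L' W c Ω n V hW hW0 hRn ha' hb x h hx i0 m ω hω hd i hi
  have hMW : M * W ≤ δ / 2 := by
    have h1 := mul_le_mul_of_nonneg_left hW0 hM0.le
    have h2 : M * (δ / (2 * M)) = δ / 2 := by field_simp
    linarith
  have hρ : c0 * ((κ + 1) * W) * K.μ ^ R + W = M * W := by rw [hM]; ring
  obtain ⟨k, hkr, hk0⟩ := exists_intorb i0 m
  have hx2 := (ha'.itin_sub hx hkr).shift i0
  have hpt : ∀ j, pt (fun j => x (j + i0) - k (j + i0)) j =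
      pt x (j + i0) - iv (k (j + i0), k (j + i0 - 1)) := by
    intro j
    rw [← pt_sub_int, ← ZHyp.pt_shift]
  have hκW : 0 ≤ κ * W := mul_nonneg hκ hW.le
  have hpo : POrb F ((κ + 1) * W) (fun j => x (j + i0) - k (j + i0)) := by
    intro j
    have := hx2.1.porb hb.close j
    linarith
  have hq : (R : ℤ) ≤ R * K.q := by
    have h1 : (1 : ℤ) ≤ K.q := by exact_mod_cast hk.eok.qpos
    exact le_mul_of_one_le_right (by positivity) h1
  have hcl := hsh ω (hb.sub hω) 0 R ((κ + 1) * W) _ hpo (by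
    rw [hpt, zero_add, hk0]
    have : ‖pt x i0 - iv m - pt (K.Y ω) 0‖ ≤ W := hd
    linarith) (by linarith) (i - i0) (hi.trans hq)
  rw [zero_add, hpt, sub_add_cancel] at hcl
  have haff := hk.aff_near (hb.sub hω) (i - i0) (lt_of_le_of_lt hcl (by linarith))
  constructor
  · intro hs
    have h1 := (ha.sing_iv (pt x i - iv (k i, k (i - 1))) (k i, k (i - 1))).mp (by
      rwa [sub_add_cancel])
    exact h1 ⟨_, haff⟩
  · intro hne
    have hnd : ¬ (n : ℤ) ∣ i - i0 := by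
      intro hdv
      have h1 := Int.le_of_dvd (abs_pos.mpr (sub_ne_zero.mpr hne)) ((dvd_abs _ _).mpr hdv)
      have h2 : (R : ℤ) < n := by exact_mod_cast hRn
      linarith
    have hoff := hb.off_nhds (hb.not_mem hk hω hnd hcl (by linarith) (by linarith))
    obtain ⟨c', hc'⟩ := ZHyp.lg_sub ha' (k i, k (i - 1)) (hx.2 i)
    have := (haff.congr hoff).unique hc'
    exact congrArg Prod.fst this

/-- Without a visit the itinerary is one of `F` on the window (`Adm.exists_orb`, `ext_itin'`). -/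
theorem novisit_window (ha : Adm F L 2) {r : ℝ} {N : ℕ} (hl : Loc F r N) {F' : E → ℝ}
    {Ω : Set (ℤ → ℕ)} {n V : ℕ} {W c κ ε : ℝ} (hb : Box F K F' Ω n V W c κ ε) {x : ℤ → ℝ}
    {h : ℤ → E} (hx : Itin F' x h) {a b : ℤ}
    (hno : ∀ i, a ≤ i → i < b → ∀ ω ∈ Ω, ∀ m, W < ‖pt x i - iv m - K.P ω‖) :
    ∃ x' h', Itin F x' h' ∧ (∀ i, a ≤ i → i ≤ b → pt x' i = pt x i) ∧
      ∀ i, a ≤ i → i < b → h' i = h i := by
  obtain ⟨x', hx', h0⟩ := ha.exists_orb (pt x a) a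
  have hpt : ∀ i, a ≤ i → i ≤ b → pt x' i = pt x i := by
    intro i hi
    induction i, hi using Int.leInduction with
    | base => exact fun _ => h0
    | succ i hi ih =>
      intro hib
      rw [hx'.pt_succ, hx.1.pt_succ, ih (by omega)]
      simp only [T]
      rw [hb.off _ (hno i hi (by omega))]
  have hlg : ∀ i ∈ {i : ℤ | a ≤ i ∧ i < b}, LG F (pt x' i) (h i) := by
    intro i hi
    obtain ⟨c', hc'⟩ := hx.2 i
    rw [hpt i hi.1 hi.2.le]
    refine ⟨c', hc'.congr ?_⟩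
    exact (hb.off_nhds (hno i hi.1 hi.2)).mono fun z hz => hz.symm
  obtain ⟨h', hh', he⟩ := ext_itin' hl hx' h _ hlg
  exact ⟨x', h', hh', hpt, fun i h1 h2 => he i ⟨h1, h2⟩⟩

/-- `C ≥ 1/2`. The cocycle `K.co` with the value at `0` replaced by a gradient `k` of `F'` in a box is `Hyp C2 l` by `hyp_split`
(`k = 1`, bound `max L L'`, `KOK.itin`, `unst`, `stab`, `‖pt u 0‖ = ‖pt s 1‖ = 1`). Take `R` from `exists_glue_R` for `max C C2`; a window
`[c-R, c+R)` contains no visit or a visit `i0`, and then lies in `|i - i0| ≤ 2R`; `hyp_glue`.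
Edge condition by `Hyp.et_win` with `R2` large: old edges lie in `Sing F`, so there is no visit in `[-R2, R2]` and `ET F` applies
(`SolOn.unique`, `exists_sol`); new edges: visit at time `0`, `no_collapse` from time `1`, `no_collapse'` from time `0`. -/
theorem hyp_Z (ha : Adm F L 2) {r C l C1 : ℝ} {N : ℕ} (hl : Loc F r N) {Ed : Set (E × Set E)}
    (he : Edg F Ed) (hh : HYP F C l) (hl2 : 2 < l) (het : ET F Ed C1) (hk : KOK F K) (L' : ℝ)
    {l' α κ : ℝ} (hl' : 1 < l') (hll : l' < l) (hα : 0 < α) (hκ : 0 ≤ κ) :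
    ∃ (C' : ℝ) (n0 : ℕ), ∀ n ≥ n0, ∀ ε > 0, ∃ W0 > 0, ∀ (F' : E → ℝ) (W c : ℝ) (Ω : Set (ℤ → ℕ))
      (V : ℕ) (En : Set (E × Set E)), 0 < W → W ≤ W0 → Adm F' L' 2 → Box F K F' Ω n V W c κ ε →
      (∀ ω ∈ Ω, ∀ z k, ‖z - K.P ω‖ ≤ W → LG F' z k → α ≤ |dt (TL k (pt K.u 0)) (pt K.s 1)|) →
      (∀ d ∈ En, ‖d.1‖ ≤ 2 ∧ 1 / 4 ≤ |dt (pt K.u 0) d.1| ∧ ∃ ω ∈ Ω, ∀ z ∈ d.2, ‖z - K.P ω‖ ≤ W ∧
        ∀ k, LG F' z k → 1 / 4 ≤ |dt (TL k d.1) (pt K.s 1)|) →
      HYP F' C' l' ∧ ET F' (Ed ∪ En) C' := by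
  have hC := ZHyp.C_nonneg hk hh
  obtain ⟨C2, hC2, Hk⟩ := ZHyp.hyp_kick ha hk hh hl2 hα (le_max_left L L')
  obtain ⟨C3, hC3, Hn⟩ := ZHyp.new_edge ha hk hh hl2 (le_max_left L L')
  set Cm : ℝ := max C C2 with hCm
  have hCm0 : 0 ≤ Cm := hC.trans (le_max_left _ _)
  obtain ⟨R, -, hR⟩ := exists_glue_R (C := Cm) hl' hll
  set C4 : ℝ := |C1| + C3 with hC4
  have hC40 : 0 ≤ C4 := by positivity
  obtain ⟨R2, hR2⟩ := pow_unbounded_of_one_lt (2 * (4 * Cm) * C4) hl'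
  refine ⟨4 * Cm + C4 * (2 * (4 * Cm) + 1), 2 * R + R2 + 1, fun n hn ε hε => ?_⟩
  obtain ⟨W0, hW0, Hv⟩ := visit_window ha hk hκ hε (2 * R + R2)
  refine ⟨W0, hW0, fun F' W c Ω V En hW hWW ha' hb hang hnew => ?_⟩
  have Hv' := Hv F' L' W c Ω n V hW hWW (by omega) ha' hb
  have hl0 : 0 < l := by linarith
  have hH : HYP F' (4 * Cm) l' := by
    intro x h hx
    refine hyp_glue (ha'.itin_bd hx) hCm0 hl' hll.le (hR R le_rfl) fun c0 => ?_
    by_cases hvis : ∃ i0, c0 - R ≤ i0 ∧ i0 < c0 + R ∧ ∃ ω ∈ Ω, ∃ m, ‖pt x i0 - iv m - K.P ω‖ ≤ W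
    · obtain ⟨i0, h1, h2, ω, hω, m, hd⟩ := hvis
      have hb0 := ha'.itin_bd hx i0
      have hk0 := Hk (h i0) (hb0.1.trans (le_max_right _ _)) hb0.2.1 hb0.2.2
        (hang ω hω _ _ hd (ZHyp.lg_sub ha' m (hx.2 i0)))
      refine ⟨_, (hk0.mono hC2.le (le_max_right _ _) hl0 le_rfl).shift (-i0), fun i h3 h4 => ?_⟩
      unfold ZHyp.kick
      split_ifs with h5
      · rw [show i = i0 by omega]
      · have := (Hv' x h hx i0 m ω hω hd i (by
          rw [abs_le]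
          push_cast
          constructor <;> omega)).2 (by omega)
        rw [this, sub_eq_add_neg]
    · push Not at hvis
      obtain ⟨x', h', hx', -, he'⟩ := novisit_window ha hl hb hx hvis
      exact ⟨h', (hh x' h' hx').mono hC (le_max_left _ _) hl0 le_rfl, he'⟩
  have hpos : 0 ≤ C4 * (2 * (4 * Cm) + 1) := by positivity
  refine ⟨fun x h hx => (hH x h hx).mono (by positivity) (by linarith) (by linarith) le_rfl, ?_⟩
  intro e hE x h v m hx hm hv hv0 j
  have hwin : ∀ j : ℤ, |j| ≤ R2 → ‖pt v 0‖ ≤ C4 * ‖pt v j‖ := by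
    intro j hj
    have hn0 : 0 ≤ ‖pt v j‖ := norm_nonneg _
    rcases hE with hE | hE
    · have hs : pt x 0 ∈ Sing F := by
        have := (ha.sing_iv _ m).mpr (he.sub e hE hm)
        rwa [sub_add_cancel] at this
      have hno : ∀ i, -(R2 : ℤ) ≤ i → i < R2 → ∀ ω ∈ Ω, ∀ m, W < ‖pt x i - iv m - K.P ω‖ := by
        intro i h1 h2 ω hω m'
        by_contra hc
        push Not at hc
        refine (Hv' x h hx i m' ω hω hc 0 ?_).1 hs
        rw [abs_le]
        push_cast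
        constructor <;> omega
      obtain ⟨x', h', hx', hp', he'⟩ := novisit_window ha hl hb hx hno
      have hne : ∀ i, (h' i).2 ≠ 0 := fun i => (ha.itin_bd hx').ne i
      obtain ⟨v', hv', hv0'⟩ := exists_sol hne 0 e.1
      have hso : SolOn h' v (-(R2 : ℤ)) R2 := by
        intro i h1 h2
        rw [he' i h1 h2]
        exact hv i
      rw [abs_le] at hj
      have hu := SolOn.unique hne hso (hv'.solOn _ _) (i := 0) (by omega) (by omega)
        (hv0.trans hv0'.symm) hj.1 hj.2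
      have h1 := het e hE x' h' v' m hx' (by rwa [hp' 0 (by omega) (by omega)]) hv' hv0' j
      rw [hv0', ← hv0, ← hu] at h1
      refine h1.trans (mul_le_mul_of_nonneg_right ?_ hn0)
      have := le_abs_self C1
      linarith
    · obtain ⟨d1, d2, ω, hω, d3⟩ := hnew e hE
      obtain ⟨d4, d5⟩ := d3 _ hm
      have d6 := d5 _ (ZHyp.lg_sub ha' m (hx.2 0))
      rw [← hv0] at d1 d2 d6
      have h1 := Hn h v R2 (ZHyp.bd_mono (ha'.itin_bd hx) (le_max_right _ _)) hv (by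
        intro i h1 h2
        have := (Hv' x h hx 0 m ω hω d4 i (by
          rw [sub_zero]
          push_cast
          omega)).2 h2
        rwa [sub_zero] at this) d1 d2 d6 j hj
      refine h1.trans (mul_le_mul_of_nonneg_right ?_ hn0)
      have := abs_nonneg C1
      linarith
  have h1 := (hH x h hx).et_win (by positivity) hl'.le hC40 hv hR2.le hwin j
  refine h1.trans (mul_le_mul_of_nonneg_right ?_ (norm_nonneg _))
  linarith

end Pool.Agent.MP_369096_an.H89
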