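import Pool.Agent.MP_369096_an.H89.NewK
import Pool.Agent.MP_369096_an.H89.Tent0
import Pool.Agent.MP_369096_an.H89.Tent1
import Pool.Agent.MP_369096_an.H89.ZBas
import Pool.Agent.MP_369096_an.H89.ZHyp
import Pool.Agent.MP_369096_an.H89.ZGrow
import Pool.Agent.MP_369096_an.H89.ZEntB
import Pool.Agent.MP_369096_an.H89.NTa
import Pool.Agent.MP_369096_an.H89.Round

/-!
The zigzag step and one full stage.
-/

set_option autoImplicit false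

open Set Filter Topology

namespace Pool.Agent.MP_369096_an.H89

namespace ZStep

theorem small_params {e κ η : ℝ} (he : 0 < e) (hκ1 : 1 ≤ κ) (hκ : κ < 2) (hη : 0 < η) :
    ∃ η0 θ : ℝ, 0 < η0 ∧ η0 ≤ 1 / 4 ∧ η0 * e ≤ 1 / 20 ∧ 4 * η0 * e ≤ η ∧ 0 < θ ∧ θ ≤ 1 / 20 ∧
      θ ≤ η0 * e / 4 ∧ θ * (4 * e + 2) ≤ 1 / 2 ∧ θ ≤ e ∧ κ + θ ≤ (κ + 2) / 2 ∧
      κ ≤ (κ + 2) / 2 * (1 - κ * θ) := by
  set η0 := min (1 / 4) (min (1 / 20 / e) (η / 4 / e)) with h0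
  have a0 : 0 < η0 := lt_min (by norm_num) (lt_min (by positivity) (by positivity))
  have a1 : η0 ≤ 1 / 4 := min_le_left _ _
  have a2 : η0 * e ≤ 1 / 20 := by
    rw [← le_div_iff₀ he]; exact (min_le_right _ _).trans (min_le_left _ _)
  have a3 : η0 * e ≤ η / 4 := by
    rw [← le_div_iff₀ he]; exact (min_le_right _ _).trans (min_le_right _ _)
  set θ := min (min (1 / 20) (η0 * e / 4)) (min (1 / 2 / (4 * e + 2)) ((2 - κ) / 8)) with h1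
  have b0 : 0 < θ := lt_min (lt_min (by norm_num) (by positivity))
    (lt_min (by positivity) (by linarith))
  have b1 : θ ≤ 1 / 20 := (min_le_left _ _).trans (min_le_left _ _)
  have b2 : θ ≤ η0 * e / 4 := (min_le_left _ _).trans (min_le_right _ _)
  have b3 : θ * (4 * e + 2) ≤ 1 / 2 := by
    rw [← le_div_iff₀ (by positivity)]; exact (min_le_right _ _).trans (min_le_left _ _)
  have b4 : θ ≤ (2 - κ) / 8 := (min_le_right _ _).trans (min_le_right _ _)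
  refine ⟨η0, θ, a0, a1, a2, by linarith, b0, b1, b2, b3, by nlinarith, by linarith, ?_⟩
  have c1 : κ * θ ≤ (2 - κ) / 4 := by nlinarith
  have c2 : (κ + 2) / 2 * (κ * θ) ≤ 2 * ((2 - κ) / 4) :=
    mul_le_mul (by linarith) c1 (by positivity) (by norm_num)
  nlinarith

theorem exists_J {μ c W0 : ℝ} (hμ : 1 < μ) (hc : 0 < c) (hW : 0 < W0) {Q l : ℕ} (hQ : l < Q) :
    ∃ J : ℕ, 1 ≤ J ∧ 1 / (c * μ ^ (J * Q - l)) ≤ W0 := by
  obtain ⟨n, hn⟩ := pow_unbounded_of_one_lt (1 / (c * W0)) hμ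
  refine ⟨n + 1, by omega, ?_⟩
  have h1 : n ≤ (n + 1) * Q - l := by
    have : n * 1 ≤ n * Q := Nat.mul_le_mul_left _ (by omega)
    rw [add_mul]; omega
  have h2 : μ ^ n ≤ μ ^ ((n + 1) * Q - l) := pow_le_pow_right₀ hμ.le h1
  have h3 : 0 < μ ^ n := by positivity
  rw [div_lt_iff₀ (by positivity)] at hn
  rw [div_le_iff₀ (by positivity)]
  have : μ ^ n * (c * W0) ≤ μ ^ ((n + 1) * Q - l) * (c * W0) := by gcongr
  linarith

theorem scales {μ c ϑ W0 : ℝ} {Q l m : ℕ} (hμ : 1 < μ) (hc : 1 ≤ c) (t0 : 0 < ϑ)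
    (t2 : ϑ ≤ 1 / 4000) (w0 : 0 < W0) (hQ : l < Q) (p5 : c * c / ϑ * m ≤ μ ^ (2 * l)) :
    ∃ (J : ℕ) (W b : ℝ), 1 ≤ J ∧ 0 < W ∧ W ≤ W0 ∧ 0 < b ∧
      (∀ a ≤ c, a * W * μ ^ (J * Q - l) ≤ 1) ∧ c ≤ b * μ ^ (J * Q + l) ∧ m * b ≤ ϑ * W ∧
      4000 * m * b ≤ W := by
  obtain ⟨J, hJ, hW⟩ := exists_J hμ (by linarith : 0 < c) w0 hQ
  have hWp : 0 < 1 / (c * μ ^ (J * Q - l)) := by positivity
  have hmb : m * (c / μ ^ (J * Q + l)) ≤ ϑ * (1 / (c * μ ^ (J * Q - l))) := by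
    have e1 : J * Q + l = J * Q - l + 2 * l := by
      have : 1 * Q ≤ J * Q := Nat.mul_le_mul_right _ hJ
      omega
    rw [e1, pow_add, mul_div_assoc', mul_one_div, div_le_div_iff₀ (by positivity) (by positivity)]
    rw [div_mul_eq_mul_div, div_le_iff₀ t0] at p5
    have : (0 : ℝ) < μ ^ (J * Q - l) := by positivity
    nlinarith
  refine ⟨J, _, c / μ ^ (J * Q + l), hJ, hWp, hW, by positivity, fun a ha => ?_,
    le_of_eq (by field_simp), hmb, by nlinarith⟩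
  have e2 : a * (1 / (c * μ ^ (J * Q - l))) * μ ^ (J * Q - l) = a / c := by field_simp
  rw [e2, div_le_one (by linarith)]
  exact ha

theorem pow_facts {μ c ϑ cQ cQ' cN : ℝ} {Q l m : ℕ} (hμ : 1 < μ) (hc : 1 ≤ c) (t0 : 0 < ϑ)
    (t2 : ϑ ≤ 1 / 4000) (hQ : 2 * l + 1 < Q) (p5 : c * c / ϑ * m ≤ μ ^ (2 * l))
    (c1 : cN ≤ c) (c3 : 16 * cQ ≤ c) (c4 : 16 * cQ' ≤ c) :
    cQ * (16 * m : ℕ) ≤ μ ^ Q ∧ cQ' * (16 * m : ℕ) ≤ μ ^ Q ∧ cN * m ≤ μ ^ Q := by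
  have hm : (0 : ℝ) ≤ m := Nat.cast_nonneg m
  have q1 : c * m ≤ μ ^ Q := by
    refine le_trans ?_ (p5.trans (pow_le_pow_right₀ hμ.le (by omega)))
    refine mul_le_mul_of_nonneg_right ?_ hm
    rw [le_div_iff₀ t0]; nlinarith
  push_cast
  refine ⟨?_, ?_, ?_⟩ <;> nlinarith

theorem box_facts {cb c c0 W W0 dl x ϑ ϑ' mb : ℝ} (cb1 : 3 ≤ cb) (hW : 0 < W) (hW0 : W ≤ W0)
    (w6 : cb * W0 ≤ 1 / 10) (w7 : cb * W0 ≤ dl / 2) (hdl : 0 < dl) (hc0 : 0 < c0)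
    (c5 : (cb + 1) / c0 ≤ c) (hx : ∀ a ≤ c, a * W * x ≤ 1) (t1 : ϑ' ≤ ϑ) (hmb : mb ≤ ϑ' * W) :
    W < cb * W ∧ cb * W ≤ 1 / 10 ∧ cb * W < dl ∧ W ≤ 1 / 20 ∧ (cb * W + W) * x ≤ c0 ∧
      mb ≤ ϑ * W := by
  have r1 : cb * W ≤ cb * W0 := by gcongr
  refine ⟨by nlinarith, by linarith, by linarith, by nlinarith, ?_, by nlinarith⟩
  have := hx _ c5
  rw [div_mul_eq_mul_div, div_mul_eq_mul_div, div_le_one hc0] at this
  linarith

theorem exists_W0 {W1 W2 W3 W4 W5 W6 W7 W8 : ℝ} (a3 a6 a8 : ℝ) (h1 : 0 < W1) (h2 : 0 < W2)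
    (h3 : 0 < W3) (h4 : 0 < W4) (h5 : 0 < W5) (h6 : 0 < W6) (h7 : 0 < W7) (h8 : 0 < W8) :
    ∃ W0 : ℝ, 0 < W0 ∧ W0 ≤ W1 ∧ W0 ≤ W2 ∧ a3 * W0 ≤ W3 ∧ W0 ≤ W4 ∧ W0 ≤ W5 ∧ a6 * W0 ≤ W6 ∧
      a6 * W0 ≤ W7 ∧ a8 * W0 ≤ W8 := by
  have key : ∀ a b : ℝ, 0 < b → ∀ᶠ W in 𝓝[>] (0 : ℝ), a * W ≤ b := fun a b hb => by
    refine mem_nhdsWithin_of_mem_nhds ?_
    have : ContinuousAt (fun W : ℝ => a * W) 0 := by fun_prop
    exact this.eventually_le_const (by simpa using hb)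
  obtain ⟨W0, hh⟩ := ((key 1 W1 h1).and ((key 1 W2 h2).and ((key a3 W3 h3).and
    ((key 1 W4 h4).and ((key 1 W5 h5).and ((key a6 W6 h6).and
    ((key a6 W7 h7).and ((key a8 W8 h8).and self_mem_nhdsWithin)))))))).exists
  simp only [one_mul] at hh
  exact ⟨W0, hh.2.2.2.2.2.2.2.2, hh.1, hh.2.1, hh.2.2.1, hh.2.2.2.1, hh.2.2.2.2.1,
    hh.2.2.2.2.2.1, hh.2.2.2.2.2.2.1, hh.2.2.2.2.2.2.2.1⟩

theorem ret {F : E → ℝ} {K : KD} (hk : KOK F K) {c0 : ℝ}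
    (hs : ∀ (k : ℕ), ∀ ω ∈ K.X, ∀ ω' ∈ K.X, ∀ i i' : ℤ,
      ‖pt (K.Y ω) i - pt (K.Y ω') i'‖ * K.μ ^ k ≤ c0 →
      (K.q : ℤ) ∣ i - i' ∧ ∀ j : ℤ, |j| ≤ k * K.q → ω (i + j) = ω' (i' + j))
    {Q l J : ℕ} (hQ : 2 * l + 1 < Q) :
    ∀ ω ∈ Om K Q l J, ∀ ω' ∈ Om K Q l J, ∀ i : ℤ, ¬ ((Q * K.q : ℕ) : ℤ) ∣ i →
      c0 / K.μ ^ (2 * Q) ≤ ‖pt (K.Y ω) i - K.P ω'‖ := by
  intro ω hω ω' hω' i hi
  have hμ := hk.eok.mu
  by_contra hlt
  rw [not_le, lt_div_iff₀ (by positivity)] at hlt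
  have h1 := Om_sub hk Q l J hω
  have h2 := Om_sub hk Q l J hω'
  obtain ⟨h3, h4⟩ := hs (2 * Q) ω (words_Dz_sub hk Q l h1) ω' (words_Dz_sub hk Q l h2) i 0 hlt.le
  have := phase hk hQ h1 h2 h3 h4
  rw [sub_zero] at this
  exact hi this

theorem sepP {F : E → ℝ} {K : KD} (hk : KOK F K) {c0 : ℝ}
    (hs : ∀ (k : ℕ), ∀ ω ∈ K.X, ∀ ω' ∈ K.X, ∀ i i' : ℤ,
      ‖pt (K.Y ω) i - pt (K.Y ω') i'‖ * K.μ ^ k ≤ c0 →
      (K.q : ℤ) ∣ i - i' ∧ ∀ j : ℤ, |j| ≤ k * K.q → ω (i + j) = ω' (i' + j))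
    {Q l J : ℕ} {a : ℝ} (ha : a * K.μ ^ (J * Q - l) ≤ c0) :
    ∀ P ∈ K.P '' Om K Q l J, ∀ P' ∈ K.P '' Om K Q l J, P ≠ P' → a < ‖P - P'‖ := by
  rintro _ ⟨ω, hω, rfl⟩ _ ⟨ω', hω', rfl⟩ hne
  have hμ := hk.eok.mu
  by_contra hle
  rw [not_lt] at hle
  have h1 := Om_sub hk Q l J hω
  have h2 := Om_sub hk Q l J hω'
  have h0 : ‖pt (K.Y ω) 0 - pt (K.Y ω') 0‖ * K.μ ^ (J * Q - l) ≤ c0 :=
    le_trans (mul_le_mul_of_nonneg_right hle (by positivity)) ha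
  obtain ⟨-, h4⟩ := hs _ ω (words_Dz_sub hk Q l h1) ω' (words_Dz_sub hk Q l h2) 0 0 h0
  apply hne
  rw [Om_unique hω hω' fun i hi => by simpa using h4 i hi]

theorem normP {F : E → ℝ} {K : KD} (hk : KOK F K) {ω : ℤ → ℕ} (hω : ω ∈ K.X) :
    ‖K.P ω‖ ≤ 1 / 20 := by
  obtain ⟨ρ, hρ, h⟩ := hk.small
  rw [KD.P, pt, Prod.norm_def]
  exact max_le ((h ω hω _).trans hρ.le) ((h ω hω _).trans hρ.le)

/-- The numerical part: entropy and room at the next level. -/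
theorem numer {H lμ lμ' S S' η η0 γ : ℝ} {q Q m : ℕ} (hq : 0 < q) (hm : 2 ≤ m)
    (hγη : γ ≤ η) (hγ : 0 < γ) (hg : 16 * γ * q ≤ lμ - (8 * H + 1) * q)
    (hQ1 : 2 * Real.log 17 / γ ≤ Q) (hQ2 : (8 * Real.log 2 - Real.log (η0 / 4)) / (8 * γ) < Q)
    (hS : S' = Real.log m + S) (h1 : H * (Q * q) ≤ S') (h2 : S' ≤ H * (Q * q) + Real.log 2)
    (hμ' : Real.log (η0 / 4) + Q * lμ ≤ lμ') :
    H ≤ S' / (Q * q : ℕ) ∧ S' / (Q * q : ℕ) ≤ H + η ∧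
      max H ((S + Real.log ((16 * m : ℕ) + 1)) / (Q * q : ℕ)) + γ / 2 ≤ S' / (Q * q : ℕ) + γ ∧
      (8 * (S' / (Q * q : ℕ) + γ) + 1) * (Q * q : ℕ) < lμ' := by
  have l17 : Real.log 2 ≤ Real.log 17 := Real.log_le_log (by norm_num) (by norm_num)
  have l2 : 0 < Real.log 2 := Real.log_pos (by norm_num)
  rw [div_le_iff₀ hγ] at hQ1
  rw [div_lt_iff₀ (by positivity)] at hQ2
  have hq1 : (1 : ℝ) ≤ q := by exact_mod_cast hq
  have hQ0 : (0 : ℝ) < Q := by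
    by_contra hh
    have : (Q : ℝ) * γ ≤ 0 := mul_nonpos_of_nonpos_of_nonneg (not_lt.1 hh) hγ.le
    linarith
  have hn : (0 : ℝ) < (Q * q : ℕ) := by push_cast; positivity
  have hnQ : (Q : ℝ) ≤ (Q * q : ℕ) := by push_cast; nlinarith
  have hc : ((Q * q : ℕ) : ℝ) = Q * q := by push_cast; ring
  have k0 : (Q : ℝ) * γ ≤ (Q * q : ℕ) * γ := by gcongr
  have k1 : H ≤ S' / (Q * q : ℕ) := by rw [le_div_iff₀ hn, hc]; exact h1
  refine ⟨k1, ?_, ?_, ?_⟩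
  · rw [div_le_iff₀ hn]
    have : ((Q * q : ℕ) : ℝ) * γ ≤ (Q * q : ℕ) * η := by gcongr
    rw [hc] at *; nlinarith
  · have hm' : (2 : ℝ) ≤ m := by exact_mod_cast hm
    have k2 : Real.log ((16 * m : ℕ) + 1) ≤ Real.log 17 + Real.log m := by
      rw [← Real.log_mul (by norm_num) (by linarith)]
      refine Real.log_le_log (by positivity) ?_
      push_cast; linarith
    have k3 : (S + Real.log ((16 * m : ℕ) + 1)) / (Q * q : ℕ) ≤ S' / (Q * q : ℕ) + γ / 2 := by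
      rw [div_add' _ _ _ hn.ne', div_le_div_iff_of_pos_right hn]
      nlinarith
    have := max_le (k1.trans (by linarith : S' / (Q * q : ℕ) ≤ S' / (Q * q : ℕ) + γ / 2)) k3
    linarith
  · have k4 : S' / (Q * q : ℕ) * (Q * q : ℕ) = S' := div_mul_cancel₀ _ hn.ne'
    have k5 : (Q : ℝ) * (16 * γ * q) ≤ Q * (lμ - (8 * H + 1) * q) := by gcongr
    have k6 : (8 * (S' / (Q * q : ℕ) + γ) + 1) * (Q * q : ℕ) =
        8 * S' + (8 * γ + 1) * (Q * q) := by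
      rw [← hc]; linear_combination 8 * k4
    rw [k6]
    rw [hc] at k0
    nlinarith

end ZStep

open ZStep in
theorem zstep {F : E → ℝ} {K : KD} {H : ℝ} (h : Invt F K H) {η : ℝ} (hη : 0 < η) :
    ∃ F' K' H', Stage F K H η F' K' H' := by
  obtain ⟨⟨L, κ, ρ, r, N, Ed, A, Ln, C, l, hc⟩, hent, hk, hle, hone, hroom⟩ := h
  have ha : Adm F L 2 := hc.adm.mono le_rfl hc.kap.le
  have hL : 22 ≤ L := ha.le_L
  have h2 : H2 F := h2_of_gen ha hc.loc hc.edg hc.gen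
  have hl := hc.lam
  have he : 0 < K.e := hk.eok.epos
  have hμ := hk.eok.mu
  have hq := hk.eok.qpos
  have hq' : (0 : ℝ) < K.q := by exact_mod_cast hq
  have hls : 2 * lsum K.D K.q < Real.log K.μ := by
    rw [KD.h, div_le_iff₀ hq'] at hle
    nlinarith
  obtain ⟨η0, θ, a0, a1, a2, a3, b0, b1, b2, b3, b4, b5, b6⟩ :=
    small_params he hc.adm.one_le hc.kap hη
  obtain ⟨ϑ, hϑ, htent⟩ := tent0 he a0 a1 b0 (by linarith) b2
  obtain ⟨C', na, hZ⟩ := hyp_Z ha hc.loc hc.edg hc.hyp hl hc.et hk (L + 3 * K.e)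
    (l' := (2 + l) / 2) (α := η0 * K.e / 2) (κ := 4 * K.e) (by linarith) (by linarith)
    (by positivity) (by positivity)
  obtain ⟨cB, cQ, nb, hcB, hG⟩ := qp_Z ha hc.loc h2 hc.hyp (by linarith) hc.q hk hls
    (L + 3 * K.e) C' (l' := (2 + l) / 2) (κ := 4 * K.e) (by linarith) (by positivity)
  obtain ⟨d, d', hkr⟩ := hk.rev ha
  obtain ⟨cB', cQ', nc, hcB', hG'⟩ := qp_Z ha.rev (ha.loc_rev hc.loc) (ha.h2_rev h2)
    (ha.hyp_rev hc.hyp) (by linarith) hc.qrev hkr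
    (by have := lsum_neg hk.Dper; exact this ▸ hls) (2 * (L + 3 * K.e)) C'
    (l' := (2 + l) / 2) (κ := 2 * (4 * K.e)) (by linarith) (by positivity)
  obtain ⟨cE, hcE, hE⟩ := entB_Z ha hc.loc h2 hent hk (κ := 4 * K.e) (by positivity)
  obtain ⟨cN, hcN, hN⟩ := newK ha hk a0 a1
  obtain ⟨c0, hc0, hs⟩ := hk.sepw ha
  obtain ⟨cb, cb1, cb2, cb3⟩ : ∃ cb : ℝ, 3 ≤ cb ∧ cB ≤ cb ∧
      2 * (4 * K.e) + (2 * L + 2) * (L + 2) * cB' ≤ cb :=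
    ⟨max 3 (max cB _), le_max_left _ _, (le_max_left _ _).trans (le_max_right _ _),
      (le_max_right _ _).trans (le_max_right _ _)⟩
  obtain ⟨c, c1, c2, c3, c4, c5⟩ : ∃ c : ℝ, cN ≤ c ∧ cE ≤ c ∧ 16 * cQ ≤ c ∧ 16 * cQ' ≤ c ∧
      (cb + 1) / c0 ≤ c :=
    ⟨max (max cN cE) (max (max (16 * cQ) (16 * cQ')) ((cb + 1) / c0)),
      (le_max_left _ _).trans (le_max_left _ _), (le_max_right _ _).trans (le_max_left _ _),
      ((le_max_left _ _).trans (le_max_left _ _)).trans (le_max_right _ _),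
      ((le_max_right _ _).trans (le_max_left _ _)).trans (le_max_right _ _),
      (le_max_right _ _).trans (le_max_right _ _)⟩
  have hc1 : 1 ≤ c := hcN.trans c1
  obtain ⟨ϑ', t0, t1, t2⟩ : ∃ ϑ' : ℝ, 0 < ϑ' ∧ ϑ' ≤ ϑ ∧ ϑ' ≤ 1 / 4000 :=
    ⟨min ϑ (1 / 4000), lt_min hϑ (by norm_num), min_le_left _ _, min_le_right _ _⟩
  obtain ⟨γ, g0, g1, g2⟩ : ∃ γ : ℝ, 0 < γ ∧ γ ≤ η ∧
      16 * γ * K.q ≤ Real.log K.μ - (8 * H + 1) * K.q := by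
    refine ⟨min η ((Real.log K.μ - (8 * H + 1) * K.q) / (16 * K.q)),
      lt_min hη (div_pos (by linarith) (by positivity)), min_le_left _ _, ?_⟩
    have := min_le_right η ((Real.log K.μ - (8 * H + 1) * K.q) / (16 * K.q))
    rw [le_div_iff₀ (by positivity)] at this
    linarith
  obtain ⟨n1, hn1⟩ := exists_nat_ge (2 * Real.log 17 / γ)
  obtain ⟨n2, hn2⟩ := exists_nat_gt ((8 * Real.log 2 - Real.log (η0 / 4)) / (8 * γ))
  obtain ⟨Q, l0, m, p1, p2, p3, p4, p5, p6, p7, p8⟩ := exists_params hk hle hone hroom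
    (c * c / ϑ') (na + nb + nc + n1 + n2) hη
  have hQq : Q ≤ Q * K.q := Nat.le_mul_of_pos_right _ hq
  have hQq0 : 0 < Q * K.q := by omega
  obtain ⟨q1, q2, q3⟩ := pow_facts hμ hc1 t0 t2 p1 p5 c1 c3 c4
  have hε0 : 0 < c0 / K.μ ^ (2 * Q) := div_pos hc0 (pow_pos (by linarith) _)
  have hL2 : 0 < 2 * L + 2 := by linarith
  have hL3 : 0 < L + 2 := by linarith
  obtain ⟨W1, hW1, hZ⟩ := hZ (Q * K.q) (by omega) _ hε0
  obtain ⟨W2, hW2, hG⟩ := hG (16 * m) Q (by omega) q1 (by omega) _ hε0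
  obtain ⟨W3, hW3, hG'⟩ := hG' (16 * m) Q (by omega) q2 (by omega)
    (c0 / K.μ ^ (2 * Q) / (2 * L + 2)) (div_pos hε0 hL2)
  obtain ⟨W4, hW4, hE⟩ := hE (Q * K.q) hQq0 (16 * m) (Dz K Q l0) (Dz_ne hk Q l0)
    (Dz_per hk Q l0) _ hε0 (γ / 2) (half_pos g0)
  obtain ⟨W5, hW5, hN⟩ := hN Q l0 m p1 p4 q3 η hη
  have hdl := hk.dpos
  obtain ⟨W0, w0, w1, w2, w3, w4, w5, w6, w7, w8⟩ := exists_W0 (L + 2) cb (4 * K.e) hW1 hW2 hW3
    hW4 hW5 (by norm_num : (0 : ℝ) < 1 / 10) (half_pos hdl) hη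
  obtain ⟨J, W, b, hJ, hWp, hW, hbp, s1, s2, s3, s4⟩ := scales hμ hc1 t0 t2 w0
    (by omega : l0 < Q) p5
  obtain ⟨x1, x2, x3, x4, x5, x6⟩ := box_facts cb1 hWp hW w6 w7 hdl hc0 c5 s1 t1 s3
  have hOX : Om K Q l0 J ⊆ K.X := (Om_sub hk Q l0 J).trans (words_Dz_sub hk Q l0)
  obtain ⟨Φ, S, Ls, hΦ⟩ := htent m b W p4 hbp x6
  have x7 : 10 * m * b ≤ W := by
    have : 0 ≤ (m : ℝ) * b := mul_nonneg (Nat.cast_nonneg m) hbp.le
    linarith only [this, s4]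
  obtain ⟨Ψ, κ', En, A', Ln', hT, u1, u2, u3, u4, u5, u6⟩ := tent1 (r := cb * W)
    (Ps := K.P '' Om K Q l0 J) hΦ he a0 a1 b0 hbp (by omega) x7 x1 x2
    ((Om_finite hk Q l0 J).image _) (by rintro _ ⟨ω, hω, rfl⟩; exact normP hk (hOX hω))
    (sepP hk hs x5) hc.gen.cA hc.gen.cL hc.gen.vert hc.gen.nt
  have x8 : θ ≤ η0 * K.e / 2 := by
    have := mul_pos a0 he
    linarith only [this, b2]
  have hD : ZD F K (Om K Q l0 J) Ψ L η0 θ W cb b κ' m En :=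
    ⟨ha, hk, Om_finite hk Q l0 J, hOX, hT, hWp, x4, cb1, x3, a0, a2, b0, b1, x8, b3⟩
  have ha1 := hD.adm' hc.adm b5 b6
  have hκ : (κ + 2) / 2 < 2 := by linarith only [hc.kap]
  have ha' : Adm (fun z => F z + Ψ z) (L + 3 * K.e) 2 := ha1.mono le_rfl hκ.le
  have hbox := hD.box (ret hk hs (J := J) p1)
  obtain ⟨r', N', hl'⟩ := hD.loc ha' hc.loc
  obtain ⟨En', hE', hGd, hEn⟩ := hD.edg ha' hc.loc hc.edg hc.gen u1 u2 u3 u4 u5 u6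
  obtain ⟨hh', het'⟩ := hZ _ W cb _ _ En' hWp (hW.trans w1) ha' hbox
    (fun ω hω z k hz hk' => hD.ang hω hz hk') hEn
  have he4 : 0 ≤ 4 * K.e := by linarith only [he]
  have hq1 := hG _ W r' N' _ hWp (hW.trans w2) ha' hl' hh' (hbox.mono hWp.le cb2)
  have hq2 := hG' _ ((L + 2) * W) _ N' _ (mul_pos hL3 hWp)
    (le_trans (mul_le_mul_of_nonneg_left hW hL3.le) w3) ha'.rev (ha'.loc_rev hl')
    (ha'.hyp_rev hh') (hbox.rev ha ha' hk hWp.le he4 hcB' cb3 d d')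
  have hent' := hE _ _ W cb _ (J * Q - l0) hWp (hW.trans w4) ha' (by linarith only [cb1]) hbox
    (Om_sub hk Q l0 J) (s1 _ c2) (fun ω hω ω' hω' hh => Om_unique hω hω' hh)
  obtain ⟨K', k1, k2, k3, k4, k5, k6, k7⟩ := hN J W b κ' _ hJ (hW.trans w5) hbp (s1 _ c1)
    (c1.trans s2) s4 hT.slope.1 hT.slope.2 hbox.off hD.laps
  have hK'h : K'.h = lsum (Dn K Q l0 m) (Q * K.q) / (Q * K.q : ℕ) := by rw [KD.h, k2, k4]
  have hμ' : Real.log (η0 / 4) + Q * Real.log K.μ ≤ Real.log K'.μ := by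
    have e1 : 0 < K.μ ^ Q := pow_pos (by linarith only [hμ]) _
    have e2 : 0 < η0 / 4 := by linarith only [a0]
    rw [← Real.log_pow, ← Real.log_mul e2.ne' e1.ne']
    exact Real.log_le_log (mul_pos e2 e1) (by linarith only [k6])
  have hQ1 : (n1 : ℝ) ≤ Q := by exact_mod_cast (by omega : n1 ≤ Q)
  have hQ2 : (n2 : ℝ) ≤ Q := by exact_mod_cast (by omega : n2 ≤ Q)
  obtain ⟨z1, z2, z3, z4⟩ := numer hq p4 g1 g0 g2 (hn1.trans hQ1) (hn2.trans_le hQ2)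
    (lsum_Dn hk (by omega) l0 m) p6 p7 hμ'
  rw [← hK'h] at z1 z2 z3 z4
  have hrho := hc.rho
  refine ⟨fun z => F z + Ψ z, K', K'.h + γ, ⟨⟨L + 3 * K.e, (κ + 2) / 2, max ρ (1 / 8), r', N',
    Ed ∪ En', A', Ln', C', (2 + l) / 2, ha1, hκ, hD.linR hc.linr,
    max_lt hrho (by norm_num), hl', hE', hGd, hh', by linarith only [hl], het', hq1, hq2⟩,
    hent'.mono z3, k1, by linarith only [g0], by linarith only [g0, z1, hone],
    by rw [k2]; exact z4⟩, hbox.close.mono (le_trans (mul_le_mul_of_nonneg_left hW he4) w8),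
    hD.near.mono hη.le (by linarith only [b4]), k5.trans a3, z1, z2, by linarith only [g1],
    ⟨Q, by omega, k2, fun i hi => ?_, by rw [k2]; exact k7⟩, ?_⟩
  · rw [k2] at hi
    rw [k4, Dn, if_neg hi]
    exact Dz_sub hk Q l0 i
  · rw [k2, k3, div_le_iff₀ (by exact_mod_cast hQq0)]
    push_cast
    exact p8

theorem stage {F : E → ℝ} {K : KD} {H : ℝ} (h : Invt F K H) {η : ℝ} (hη : 0 < η) :
    ∃ F' K' H', Stage F K H η F' K' H' ∧ ∃ r > 0, DP F' η r := by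
  obtain ⟨F1, K1, H1, s⟩ := zstep h (half_pos hη)
  have hq : (0 : ℝ) < K1.q := by exact_mod_cast s.inv.kok.eok.qpos
  have hroom := s.inv.room
  have hdl := s.inv.kok.dpos
  obtain ⟨a, a0, a1, a2, a3⟩ : ∃ a : ℝ, 0 < a ∧ a ≤ η / 2 ∧ a < K1.dl ∧
      16 * a * K1.q ≤ Real.log K1.μ - (8 * H1 + 1) * K1.q := by
    refine ⟨min (min (η / 2) (K1.dl / 2)) ((Real.log K1.μ - (8 * H1 + 1) * K1.q) / (16 * K1.q)),
      lt_min (lt_min (half_pos hη) (half_pos hdl)) (div_pos (by linarith) (by positivity)),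
      (min_le_left _ _).trans (min_le_left _ _),
      ((min_le_left _ _).trans (min_le_right _ _)).trans_lt (half_lt_self hdl), ?_⟩
    have := min_le_right (min (η / 2) (K1.dl / 2))
      ((Real.log K1.μ - (8 * H1 + 1) * K1.q) / (16 * K1.q))
    rw [le_div_iff₀ (by positivity)] at this
    linarith
  obtain ⟨F2, c1, c2, c3, c4, c5, r, hr, c6⟩ := round_many s.inv.core s.inv.ent a0
  have hle := s.inv.hle
  have hone := s.inv.one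
  obtain ⟨Q, e1, e2, e3, e4⟩ := s.ext
  refine ⟨F2, K1.setDl (K1.dl - a), H1 + a, ⟨⟨c1, c2, s.inv.kok.keep c5 a2,
    le_trans hle (by linarith), by linarith, ?_⟩, (s.close.trans c3).mono (by linarith),
    (s.near.trans c4).mono (by linarith) (by linarith), le_trans s.esmall (by linarith), s.hge,
    le_trans s.hle (by linarith), ?_, ⟨Q, e1, e2, e3, fun ω hω i => (e4 ω hω i).trans (by linarith)⟩,
    le_trans s.tail (by linarith)⟩, r, hr, fun z => ?_⟩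
  · change (8 * (H1 + a) + 1) * (K1.q : ℝ) < Real.log K1.μ
    nlinarith
  · change H1 + a ≤ K1.h + η
    linarith [s.Hle]
  · obtain ⟨k, hk⟩ := c6 z
    exact ⟨k, fun p q hp hq' => (hk p q hp hq').trans
      (mul_le_mul_of_nonneg_right (by linarith) (norm_nonneg _))⟩

end Pool.Agent.MP_369096_an.H89
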